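import Mathlib.Algebra.Notation.Lemmas
import Mathlib.Tactic.SuppressCompilation
import Mathlib.Tactic.Monotonicity.Lemmas
import Mathlib.Algebra.Field.ZMod
import Mathlib.Algebra.Order.Ring.Star
import Mathlib.Analysis.Complex.Exponential
import Mathlib.Combinatorics.Hall.Basic
import Mathlib.Combinatorics.SimpleGraph.DeleteEdges
import Mathlib.Order.CompletePartialOrder

section

/-! Definitions for the edge colouring proof. A colour class is an involution of the vertex set;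
its fixed points are the vertices that miss the colour. -/

namespace Pool.Agent.MP_5c8b6d_co

open Finset

variable {V ι : Type} [Fintype V] [DecidableEq V]

open Classical in
/-- the neighbours of `v` in `S` -/
noncomputable def nb (G : SimpleGraph V) (v : V) (S : Finset V) : Finset V := S.filter (G.Adj v)

/-- the number of neighbours of `v` in `S` -/
noncomputable def dg (G : SimpleGraph V) (v : V) (S : Finset V) : ℕ := (nb G v S).card

open Classical in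
/-- the vertices of `S` that are not adjacent to `v` -/
noncomputable def nn (G : SimpleGraph V) (v : V) (S : Finset V) : Finset V :=
  S.filter (fun u => ¬ G.Adj v u)

/-- a proper colouring of some of the edges -/
structure PC (G : SimpleGraph V) (M : ι → V → V) : Prop where
  inv : ∀ i v, M i (M i v) = v
  adj : ∀ i v, M i v ≠ v → G.Adj v (M i v)
  uniq : ∀ i j v, M i v ≠ v → M i v = M j v → i = j

/-- all edges are coloured -/
def Full (G : SimpleGraph V) (M : ι → V → V) : Prop := ∀ u v, G.Adj u v → ∃ i, M i u = v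

/-- edge colourable with `k` colours -/
def Col (G : SimpleGraph V) (k : ℕ) : Prop := ∃ M : Fin k → V → V, PC G M ∧ Full G M

/-- the edges inside `R` are colourable with `k` colours -/
def ColR (G : SimpleGraph V) (R : Finset V) (k : ℕ) : Prop :=
  ∃ M : Fin k → V → V, PC G M ∧ ∀ u ∈ R, ∀ v ∈ R, G.Adj u v → ∃ i, M i u = v

/-- the graph of the coloured edges -/
def cg (M : ι → V → V) : SimpleGraph V where
  Adj u v := u ≠ v ∧ ∃ i, M i u = v ∧ M i v = u
  symm := ⟨fun _ _ h => ⟨h.1.symm, h.2.imp fun _ k => ⟨k.2, k.1⟩⟩⟩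
  loopless := ⟨fun _ h => h.1 rfl⟩

/-- `M` keeps the coloured edges of `M0` -/
def Ext (M0 M : ι → V → V) : Prop := ∀ i v, M0 i v ≠ v → M i v = M0 i v

/-- the vertices of `S` that miss the colour -/
def fx (μ : V → V) (S : Finset V) : Finset V := S.filter (fun v => μ v = v)

/-- the vertices that see the colour -/
def mv (μ : V → V) : Finset V := univ.filter (fun v => μ v ≠ v)

/-- the number of sets of the family that contain `v` -/
def ld [Fintype ι] (Y : ι → Finset V) (v : V) : ℕ := (univ.filter (fun i => v ∈ Y i)).card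

/-- the number of colours of `I` that miss both vertices -/
def fr (M : ι → V → V) (I : Finset ι) (u v : V) : ℕ :=
  (I.filter (fun i => M i u = u ∧ M i v = v)).card

/-- the vertices of `T` in class `p` -/
def cls {α κ : Type} [DecidableEq κ] (T : Finset α) (f : α → κ) (p : κ) : Finset α :=
  T.filter (fun v => f v = p)

/-- no overfull set inside `R` -/
def NoOv (G : SimpleGraph V) (R : Finset V) (Δ : ℕ) : Prop :=
  ∀ S ⊆ R, Odd S.card → ∑ v ∈ S, dg G v S + Δ ≤ Δ * S.card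

/-- the standing hypotheses -/
structure Com (G : SimpleGraph V) (R : Finset V) (Δ : ℕ) : Prop where
  nov : NoOv G R Δ
  card : R.card < 2 * Δ

/-- a padded graph: the vertices of `R` have full degree, the others are pendant -/
structure Pad (G : SimpleGraph V) (R : Finset V) (Δ : ℕ) : Prop where
  full : ∀ v ∈ R, dg G v univ = Δ
  pend : ∀ v, v ∉ R → dg G v univ ≤ 1
  edge : ∀ u v, G.Adj u v → u ∈ R ∨ v ∈ R

/-- the set `F` is split evenly by `f` -/
def Evn {α κ : Type} [Fintype κ] [DecidableEq κ] (f : α → κ) (η : ℕ) (F : Finset α) : Prop :=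
  ∀ p, F.card ≤ Fintype.card κ * ((cls F f p).card + η) ∧
    Fintype.card κ * (cls F f p).card ≤ F.card + Fintype.card κ * η

/-- large subsets of `P ∩ T` and `Q` are joined by many edges at some vertex -/
def Mix (G : SimpleGraph V) (T P Q : Finset V) (e : ℕ) : Prop :=
  ∀ X Y : Finset V, X ⊆ P → X ⊆ T → Y ⊆ Q → P.card ≤ 2 * X.card + e → Q.card ≤ 2 * Y.card + e →
    ∃ x ∈ X, e ≤ dg G x Y

/-- the vertices of `T` whose neighbourhood is almost inside that of `x0` -/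
noncomputable def tw (G : SimpleGraph V) (R T : Finset V) (e : ℕ) (x0 : V) : Finset V :=
  T.filter (fun x => dg G x (nn G x0 R) ≤ e)

/-- the graph is not extremal -/
def NE (G : SimpleGraph V) (R T : Finset V) (e : ℕ) : Prop :=
  ∀ x0 ∈ T, 2 * dg G x0 R ≤ R.card + e → 2 * (tw G R T e x0).card + e < R.card

/-- the hierarchy of the error terms -/
structure Par (C N η L e : ℕ) : Prop where
  pos : 0 < η
  h1 : C * η ≤ L
  h2 : C * η * N ≤ L ^ 2
  h3 : C * L ≤ e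
  h4 : N ≤ 2 ^ η

/-- the error term is large enough for averaging -/
structure Big (C N η : ℕ) : Prop where
  b1 : C * N ^ 2 ≤ η ^ 3
  b2 : (C * N ^ 2 : ℝ) < Real.exp (η ^ 2 / (4 * N))

/-- unused edges of the reservoir -/
def Av (G' : SimpleGraph V) (M : ι → V → V) (u v : V) : Prop := G'.Adj u v ∧ ∀ j, M j u ≠ v

/-- a repair of one colour class inside `W` -/
structure Rep (R : V → V → Prop) (μ μ' : V → V) (W : Finset V) : Prop where
  inv : ∀ v, μ' (μ' v) = v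
  out : ∀ v, v ∉ W → μ' v = μ v
  new : ∀ v ∈ W, μ' v ≠ v → R v (μ' v)

/-- the number of colours that changed at `v` -/
def chg [Fintype ι] (M0 M : ι → V → V) (v : V) : ℕ := (univ.filter (fun i => M i v ≠ M0 i v)).card

/-- the vertices at which colour `i` changed -/
def chc (M0 M : ι → V → V) (i : ι) : Finset V := univ.filter (fun v => M i v ≠ M0 i v)

/-- the states of the repair process -/
structure St [Fintype ι] (G G' : SimpleGraph V) (M0 : ι → V → V) (Ok Keep : ι → Finset V)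
    (a b : ℕ) (M : ι → V → V) : Prop where
  pc : PC G M
  ok : ∀ i v, M i v ≠ v → v ∈ Ok i
  cv : ∀ v, chg M0 M v ≤ a
  cc : ∀ i, (chc M0 M i).card ≤ b
  keep : ∀ i, ∀ v ∈ Keep i, M i v = v → M0 i v = v
  new : ∀ i v, M i v ≠ M0 i v → M i v = v ∨ G'.Adj v (M i v)

open Classical in
/-- `Rl` is a symmetric set of edges of `G'` that misses at most `a` edges at each vertex -/
structure Res (G' : SimpleGraph V) (Rl : V → V → Prop) (a : ℕ) : Prop where
  symm : ∀ u v, Rl u v → Rl v u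
  adj : ∀ u v, Rl u v → G'.Adj u v
  loss : ∀ v, (univ.filter (fun u => G'.Adj v u ∧ ¬ Rl v u)).card ≤ a

/-- short alternating paths exist -/
def Orc (G' : SimpleGraph V) (E : V → V → Prop) (T Ok : Finset V) (ω a β : ℕ) : Prop :=
  ∀ (μ : V → V) (Rl : V → V → Prop) (Bad : Finset V), (∀ v, μ (μ v) = v) → Res G' Rl a →
    Bad.card ≤ β → (∀ v ∈ T, v ∉ Bad → μ v ∈ T ∧ μ v ∉ Bad ∧ μ v ≠ v ∧ E v (μ v)) → mv μ ⊆ Ok →
    (∀ v, μ v ≠ v → E v (μ v) ∨ G'.Adj v (μ v)) → ∀ x ∈ Ok, μ x = x →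
    ∃ (μ' : V → V) (W : Finset V), Rep Rl μ μ' W ∧ W.card ≤ ω ∧ x ∈ W ∧ (∀ v ∈ W, μ' v ≠ v) ∧
      ∀ v ∈ W, (v ∈ T ∧ v ∉ Bad) ∨ (v ∈ Ok ∧ μ v = v)

/-- the vertices of `S` that are not joined to `v` by a coloured edge -/
def unc [Fintype ι] (M : ι → V → V) (v : V) (S : Finset V) : Finset V :=
  S.filter (fun u => ∀ i, M i v ≠ u)

/-- the global count that makes the last graph balanced -/
def BalEq [Fintype ι] (G : SimpleGraph V) (T : Finset V) (σ : V → Bool) (Y : ι → Finset V) : Prop :=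
  ∑ i, (cls (T \ Y i) σ true).card + ∑ v ∈ cls T σ false, dg G v (cls T σ false) =
    ∑ i, (cls (T \ Y i) σ false).card + ∑ v ∈ cls T σ true, dg G v (cls T σ true)

/-- perfect matchings of `T \ Y i` that contain all edges inside the two sides -/
def Eng (G : SimpleGraph V) (T : Finset V) (σ : V → Bool) (Y : ι → Finset V) : Prop :=
  ∃ M : ι → V → V, PC G M ∧ (∀ i, mv (M i) = T \ Y i) ∧
    ∀ u ∈ T, ∀ v ∈ T, G.Adj u v → σ u = σ v → ∃ i, M i u = v

/-- the number of colours of the first phase -/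
def kk (m Δ η : ℕ) : ℕ := (2 * m - 1) * (Δ / (2 * m) + η) + 1

/-- the number of edges at `v` with exactly one end in `S` -/
noncomputable def mu (G : SimpleGraph V) (S : Finset V) (v : V) : ℕ :=
  if v ∈ S then dg G v Sᶜ else dg G v S

/-- the number of edges that leave `S` -/
noncomputable def out (G : SimpleGraph V) (S : Finset V) : ℕ := ∑ v ∈ S, dg G v Sᶜ

/-- the conditions for colouring the edges that leave `S` with classes of parity `b` -/
structure ParOK (G : SimpleGraph V) (S : Finset V) (k b : ℕ) : Prop where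
  h0 : b = 0 → ∀ v, 2 * mu G S v ≤ out G S
  h0' : b = 0 → ∃ y0, 20 * mu G S y0 ≤ 13 * k ∧ ∀ v, v ≠ y0 → 20 * mu G S v ≤ 11 * k
  h1 : b = 1 → k ≤ out G S
  h1' : b = 1 → ∀ v, 20 * mu G S v ≤ 9 * k

/-- the same conditions before the last colours are removed -/
structure Nrm (G : SimpleGraph V) (S : Finset V) (Δ b : ℕ) : Prop where
  h0 : b = 0 → ∀ v, 2 * mu G S v ≤ out G S
  h0' : b = 0 → ∃ y0, 100 * mu G S y0 ≤ 61 * Δ ∧ ∀ v, v ≠ y0 → 100 * mu G S v ≤ 51 * Δ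
  h1 : b = 1 → Δ ≤ out G S
  h1' : b = 1 → ∀ v, 100 * mu G S v ≤ 41 * Δ

/-- the edges of `GJ` balance the two classes of `S` -/
def JEq (GJ : SimpleGraph V) (S : Finset V) (σ : V → Bool) (J : ℕ) : Prop :=
  ∑ v ∈ cls S σ true, dg GJ v univ + J * (cls S σ false).card =
    ∑ v ∈ cls S σ false, dg GJ v univ + J * (cls S σ true).card

/-- the sparse case -/
structure Spa (G : SimpleGraph V) (R T : Finset V) (Δ η e : ℕ) : Prop where
  sub : T ⊆ R
  ne : T.Nonempty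
  dT : ∀ v ∈ T, Δ ≤ dg G v T + η
  dU : ∀ y ∈ R, y ∉ T → dg G y (R \ T) ≤ η
  nex : NE G R T e

/-- two near cliques -/
structure Two (G : SimpleGraph V) (R T1 T2 : Finset V) (Δ g : ℕ) : Prop where
  s1 : T1 ⊆ R
  s2 : T2 ⊆ R
  dj : Disjoint T1 T2
  n1 : T1.Nonempty
  n2 : T2.Nonempty
  cX : 10 * (R \ (T1 ∪ T2)).card ≤ g
  d1 : ∀ v ∈ T1, Δ ≤ dg G v T1 + g
  d2 : ∀ v ∈ T2, Δ ≤ dg G v T2 + g
  x1 : ∀ z ∈ R \ (T1 ∪ T2), 2 * dg G z T1 + g ≤ 2 * Δ
  x2 : ∀ z ∈ R \ (T1 ∪ T2), 2 * dg G z T2 + g ≤ 2 * Δ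

/-- a near complete bipartite graph -/
structure Bip (G : SimpleGraph V) (R A B : Finset V) (Δ g : ℕ) : Prop where
  s1 : A ⊆ R
  s2 : B ⊆ R
  dj : Disjoint A B
  n1 : A.Nonempty
  n2 : B.Nonempty
  cX : 10 * (R \ (A ∪ B)).card ≤ g
  d1 : ∀ v ∈ A, Δ ≤ dg G v B + g
  d2 : ∀ v ∈ B, Δ ≤ dg G v A + g

/-- the setting of the three part parity problem -/
structure Tri (H : SimpleGraph V) (X : Finset V) (pt : V → ZMod 3) (s : ZMod 3 → ℕ)
    (k g : ℕ) : Prop where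
  ins : ∀ u v, H.Adj u v → pt u = pt v → u ∈ X ∧ v ∈ X
  small : ∀ v, v ∉ X → dg H v univ ≤ g
  cX : X.card ≤ g
  tot : ∑ v, dg H v univ ≤ 6 * g * k
  s1 : ∀ p, s p ≤ 1
  s2 : Even (s 0 + s 1 + s 2)
  par : ∀ p, (∑ v ∈ cls univ pt p, dg H v univ) % 2 = (k * s p) % 2

/-- a solution of the three part parity problem -/
structure TriSol (H : SimpleGraph V) (pt : V → ZMod 3) (s : ZMod 3 → ℕ) (a : ℕ)
    (ψ : ι → V → V) : Prop where
  pc : PC H ψ
  full : Full H ψ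
  par : ∀ i p, (cls (mv (ψ i)) pt p).card % 2 = s p
  size : ∀ i, (mv (ψ i)).card ≤ a

/-- `P` is a set of edges of `H` between the two parts other than `b` -/
structure Pol (H P : SimpleGraph V) (pt : V → ZMod 3) (b : ZMod 3) : Prop where
  le : P ≤ H
  ty : ∀ u v, P.Adj u v → pt u ≠ b ∧ pt u ≠ pt v

/-- the typical vertices of part `p` -/
def nx (R T1 T2 : Finset V) (p : ZMod 3) : Finset V :=
  if p = 1 then T1 else if p = 2 then T2 else Rᶜ

/-- the number of edges between typical vertices of the two parts other than `t` -/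
noncomputable def nfree (G : SimpleGraph V) (R T1 T2 : Finset V) (t : ZMod 3) : ℕ :=
  ∑ v ∈ nx R T1 T2 (t + 1), dg G v (nx R T1 T2 (t + 2))

/-- the supply of edges of type `b` at exceptional vertices -/
noncomputable def msum (G : SimpleGraph V) (R T1 T2 : Finset V) (Δ g : ℕ) (b : ZMod 3) : ℕ :=
  ∑ z ∈ (R \ (T1 ∪ T2)).filter (fun z => 3 * dg G z (nx R T1 T2 b) ≤ Δ),
    min (min (dg G z (nx R T1 T2 (b + 1))) (dg G z (nx R T1 T2 (b + 2)))) g

/-- the edges that are scheduled first -/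
def itemG (G : SimpleGraph V) (X : Finset V) (pt : V → ZMod 3) : SimpleGraph V where
  Adj u v := G.Adj u v ∧ (pt u ≠ pt v ∨ (u ∈ X ∧ v ∈ X))
  symm := ⟨fun _ _ h => ⟨h.1.symm, h.2.imp Ne.symm And.symm⟩⟩
  loopless := ⟨fun _ h => h.1.ne rfl⟩

/-- an assignment of all vertices to three parts -/
structure Ptn (G : SimpleGraph V) (R T1 T2 : Finset V) (Δ : ℕ) (pt : V → ZMod 3) : Prop where
  typ : ∀ p, ∀ v ∈ nx R T1 T2 p, pt v = p
  base : ∀ z ∈ R \ (T1 ∪ T2), 19 * Δ ≤ 100 * dg G z (nx R T1 T2 (pt z))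

/-- the parities of the three parts -/
def par3 (R : Finset V) (pt : V → ZMod 3) (p : ZMod 3) : ℕ :=
  if p = 0 then ((cls R pt 1).card + (cls R pt 2).card) % 2 else (cls R pt p).card % 2

/-- the scheduled edges that are left to the last colours -/
structure JSel (H : SimpleGraph V) (pt : V → ZMod 3) (s : ZMod 3 → ℕ) (J : ℕ)
    (GJ : SimpleGraph V) (σ : V → Bool) (sg : ZMod 3 → ℤ) : Prop where
  le : GJ ≤ H
  cr : ∀ u v, GJ.Adj u v → pt u ≠ pt v ∧ σ u ≠ σ v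
  deg : ∀ v, dg GJ v univ ≤ J
  tot : ∑ v, dg GJ v univ ≤ 4 * J
  eq : ∀ p, (∑ v ∈ cls (cls univ pt p) σ true, dg GJ v univ : ℤ) -
    (∑ v ∈ cls (cls univ pt p) σ false, dg GJ v univ : ℤ) = J * sg p
  sg1 : ∀ p, (sg p).natAbs = s p
  odd : ∀ p, s p = 1 → ∑ v ∈ cls univ pt p, dg GJ v univ = J

/-- a schedule for two near cliques -/
def TSch (G : SimpleGraph V) (R T1 T2 : Finset V) (Δ J a : ℕ) (ι : Type) : Prop :=
  ∃ (pt : V → ZMod 3) (GJ : SimpleGraph V) (σ : V → Bool) (sg : ZMod 3 → ℤ) (ψ : ι → V → V),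
    Ptn G R T1 T2 Δ pt ∧ JSel (itemG G (R \ (T1 ∪ T2)) pt) pt (par3 R pt) J GJ σ sg ∧
    TriSol (itemG G (R \ (T1 ∪ T2)) pt \ GJ) pt (par3 R pt) a ψ

/-- the choices in the bipartite case -/
structure BSel (G : SimpleGraph V) (R T Z : Finset V) (Δ J g : ℕ) (ty σ : V → Bool)
    (GJ : SimpleGraph V) : Prop where
  zs : Z ⊆ R \ T
  near : ∀ v ∈ T, Δ ≤ dg G v (cls T ty (!ty v)) + g
  quad : ∀ t c, Δ ≤ 2 * (cls (cls T ty t) σ c).card + 12 * g ∧
    2 * (cls (cls T ty t) σ c).card ≤ Δ + 12 * g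
  zb : ∀ z ∈ Z, 3 * J ≤ dg G z (cls T ty (!ty z))
  zo : ∀ z ∈ Z, J ≤ dg G z (cls (cls T ty (!ty z)) σ (!σ z))
  le : GJ ≤ G
  cr : ∀ u v, GJ.Adj u v → σ u ≠ σ v
  kind : ∀ u v, GJ.Adj u v →
    (u ∈ T ∪ Z ↔ v ∉ T ∪ Z) ∨ (u ∈ T ∪ Z ∧ v ∈ T ∪ Z ∧ ty u = ty v)
  deg : ∀ v, dg GJ v univ ≤ J
  e1 : JEq GJ (T ∪ Z) ty J
  e2 : JEq GJ (T ∪ Z) σ J
  par : ParOK (G \ GJ) (T ∪ Z) (Δ - J) ((T ∪ Z).card % 2)

end Pool.Agent.MP_5c8b6d_co

end

section

/-! Module statements for the edge colouring proof. -/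

namespace Pool.Agent.MP_5c8b6d_co

open Finset

/-- KEMPE: the ends of the two-coloured paths. -/
def KempeStmt : Prop :=
  ∀ (V : Type) [Fintype V] [DecidableEq V] (α β : V → V), (∀ v, α (α v) = v) →
    (∀ v, β (β v) = v) → ∃ τ : V → V, ∀ x, (α x = x ↔ β x ≠ x) →
      (α (τ x) = τ x ↔ β (τ x) ≠ τ x) ∧ τ x ≠ x ∧ τ (τ x) = x ∧
      ∃ K : Finset V, x ∈ K ∧ τ x ∈ K ∧ (∀ v ∈ K, α v ∈ K ∧ β v ∈ K) ∧
        ∀ v ∈ K, α v = v ∨ β v = v → v = x ∨ v = τ x

/-- EQ: colour classes can be balanced on a given set. -/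
def EqStmt : Prop :=
  ∀ (V ι : Type) [Fintype V] [DecidableEq V] [Fintype ι] [DecidableEq ι] (G : SimpleGraph V)
    (M : ι → V → V) (S : Finset V), PC G M → Full G M →
    ∃ M' : ι → V → V, PC G M' ∧ Full G M' ∧ ∀ i j, (fx (M' i) S).card ≤ (fx (M' j) S).card + 2

/-- WEQ: weighted balancing among the colours of `I` that keeps the parities on `S`. -/
def WeqStmt : Prop :=
  ∀ (V ι : Type) [Fintype V] [DecidableEq V] [Fintype ι] [DecidableEq ι] (G : SimpleGraph V)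
    (M : ι → V → V) (I : Finset ι) (S : Finset V) (w : V → ℕ) (ω : ℕ), PC G M → (∀ v, w v ≤ ω) →
    ∃ M' : ι → V → V, PC G M' ∧ cg M' = cg M ∧ (∀ i, i ∉ I → M' i = M i) ∧
      (∀ i, (mv (M' i) ∩ S).card % 2 = (mv (M i) ∩ S).card % 2) ∧
      ∀ i ∈ I, I.card * ∑ v ∈ mv (M' i), w v ≤
        ∑ v, (I.filter (fun j => M j v ≠ v)).card * w v + 4 * ω * I.card

/-- BALW: all classes get the same signed weight. -/
def BalwStmt : Prop :=
  ∀ (V ι : Type) [Fintype V] [DecidableEq V] [Fintype ι] [DecidableEq ι] (G : SimpleGraph V)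
    (M : ι → V → V) (A B : Finset V) (δ : ℤ) (s : ℕ), PC G M → Full G M → Disjoint A B →
    (∑ v ∈ A, dg G v univ : ℤ) - (∑ v ∈ B, dg G v univ : ℤ) = Fintype.card ι * δ →
    (∀ i, Even (((mv (M i) ∩ (A ∪ B)).card : ℤ) - δ)) →
    (∀ i, (mv (M i) ∩ (A ∪ B)).card ≤ s) → δ.natAbs ≤ s →
    ∃ M' : ι → V → V, PC G M' ∧ Full G M' ∧
      (∀ i, ((mv (M' i) ∩ A).card : ℤ) - (mv (M' i) ∩ B).card = δ) ∧
      ∀ i, (mv (M' i) ∩ (A ∪ B)).card ≤ 5 * s

/-- KON: bipartite graphs. -/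
def KonStmt : Prop :=
  ∀ (V ι : Type) [Fintype V] [DecidableEq V] [Fintype ι] [DecidableEq ι] (G : SimpleGraph V)
    (σ : V → Bool), (∀ u v, G.Adj u v → σ u ≠ σ v) → (∀ v, dg G v univ ≤ Fintype.card ι) →
    ∃ M : ι → V → V, PC G M ∧ Full G M

/-- VAL: the adjacency lemma. -/
def ValStmt : Prop :=
  ∀ (V : Type) [Fintype V] [DecidableEq V] (G : SimpleGraph V) (k : ℕ) (x y : V),
    (∀ v, dg G v univ ≤ k) → G.Adj x y → ¬ Col G k → Col (G.deleteEdges {s(x, y)}) k →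
    k + 1 ≤ dg G y univ + dg G x (univ.filter (fun z => z ≠ y ∧ dg G z univ = k))

/-- VIZ: one more colour than the maximum degree suffices. -/
def VizStmt : Prop :=
  ∀ (V ι : Type) [Fintype V] [DecidableEq V] [Fintype ι] [DecidableEq ι] (G : SimpleGraph V),
    (∀ v, dg G v univ < Fintype.card ι) → ∃ M : ι → V → V, PC G M ∧ Full G M

/-- PART: a partition that splits given sets evenly and cuts a quarter of the edges of `H`. -/
def PartStmt : Prop :=
  ∀ (V κ : Type) [Fintype V] [DecidableEq V] [Fintype κ] [DecidableEq κ] (H : SimpleGraph V)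
    (𝓕 : Finset (Finset V)) (η n : ℕ), 2 ≤ Fintype.card κ → (∀ F ∈ 𝓕, F.card ≤ n) →
    (8 * Fintype.card κ * 𝓕.card : ℝ) < Real.exp (η ^ 2 / (4 * n)) →
    ∃ f : V → κ, (∀ F ∈ 𝓕, Evn f η F) ∧
      ∑ v, dg H v univ ≤ 4 * ∑ v, dg H v (univ.filter (fun u => f u ≠ f v))

/-- PERM: a renaming of the colours with few conflicts everywhere. -/
def PermStmt : Prop :=
  ∀ (β ι : Type) [DecidableEq β] [Fintype ι] [DecidableEq ι] (T : Finset β)
    (Z : β → ι → Finset ι) (y t : ℕ), (∀ v i, (Z v i).card ≤ y) → T.card * 3 ^ y < 2 ^ t →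
    ∃ π : Equiv.Perm ι, ∀ v ∈ T, (univ.filter (fun i => π i ∈ Z v i)).card ≤ t

/-- PRE: prescribed small matchings with small loads. -/
def PreStmt : Prop :=
  ∀ (V ι : Type) [Fintype V] [DecidableEq V] [Fintype ι] [DecidableEq ι] (G : SimpleGraph V)
    (P Y : ι → Finset V) (m : ι → ℕ) (a o L d : ℕ), (∀ j, (P j).Nonempty) →
    (∀ j, ∀ v ∈ P j, d ≤ dg G v (P j)) → (∀ j, m j ≤ a) → (∀ j, (Y j).card ≤ a) → 0 < L →
    2 * a * Fintype.card ι ≤ L * o → 3 * a + o + L < d →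
    ∃ N : ι → V → V, PC G N ∧ (∀ j, mv (N j) ⊆ P j \ Y j) ∧ (∀ j, (mv (N j)).card = 2 * m j) ∧
      ∀ v, dg (cg N) v univ ≤ L

/-- PLB: greedy colouring of small bundles of edges. -/
def PlbStmt : Prop :=
  ∀ (V ι κ : Type) [Fintype V] [DecidableEq V] [Fintype ι] [DecidableEq ι] [DecidableEq κ]
    [Nonempty ι] (G : SimpleGraph V) (ψ0 : ι → V → V) (𝒦 : Finset κ) (ν : κ → V → V)
    (I : Finset ι) (Xf : ι → Finset V) (w : V → ℕ) (ω q τ : ℕ), PC G ψ0 → (∀ g ∈ 𝒦, ∀ v, ν g (ν g v) = v) →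
    (∀ g ∈ 𝒦, ∀ v, ν g v ≠ v → G.Adj v (ν g v) ∧ ∀ i, ψ0 i v ≠ ν g v) →
    (∀ g ∈ 𝒦, (mv (ν g)).card ≤ 4) →
    (∀ g ∈ 𝒦, ∀ g' ∈ 𝒦, ∀ v, ν g v ≠ v → ν g v = ν g' v → g = g') →
    (∀ g ∈ 𝒦, q + ∑ v ∈ mv (ν g), (𝒦.filter (fun g' => v ∈ mv (ν g'))).card ≤
      (I.filter (fun i => ∀ v ∈ mv (ν g), ψ0 i v = v ∧ v ∉ Xf i)).card) →
    (∀ v, w v ≤ ω) → ∑ g ∈ 𝒦, ∑ v ∈ mv (ν g), w v < τ * q →
    ∃ (ψ : ι → V → V) (col : κ → ι), PC G ψ ∧ Ext ψ0 ψ ∧
      (∀ g ∈ 𝒦, col g ∈ I ∧ ∀ v ∈ mv (ν g), ψ (col g) v = ν g v ∧ ψ0 (col g) v = v ∧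
        v ∉ Xf (col g)) ∧
      (∀ i v, ψ i v ≠ v → ψ0 i v = v → ∃ g ∈ 𝒦, col g = i ∧ v ∈ mv (ν g)) ∧
      (∀ g ∈ 𝒦, ∀ g' ∈ 𝒦, g ≠ g' → col g = col g' → Disjoint (mv (ν g)) (mv (ν g'))) ∧
      ∀ i, ∑ v ∈ mv (ψ i), w v ≤ ∑ v ∈ mv (ψ0 i), w v + τ + 4 * ω

/-- PLG: greedy colouring of the edges of a graph. -/
def PlgStmt : Prop :=
  ∀ (V ι : Type) [Fintype V] [DecidableEq V] [Fintype ι] [DecidableEq ι] (G H : SimpleGraph V)
    (ψ0 : ι → V → V) (I : Finset ι) (w : V → ℕ) (ω q τ : ℕ), PC G ψ0 → H ≤ G →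
    Disjoint H (cg ψ0) → (∀ u v, H.Adj u v → q + dg H u univ + dg H v univ ≤ fr ψ0 I u v) →
    (∀ v, w v ≤ ω) → ∑ v, dg H v univ * w v < τ * q →
    ∃ ψ : ι → V → V, PC G ψ ∧ Ext ψ0 ψ ∧ cg ψ = cg ψ0 ⊔ H ∧ (∀ i, i ∉ I → ψ i = ψ0 i) ∧
      (∀ i v, ψ i v ≠ v → ψ0 i v = v → H.Adj v (ψ i v)) ∧
      ∀ i, ∑ v ∈ mv (ψ i), w v ≤ ∑ v ∈ mv (ψ0 i), w v + τ + 4 * ω

/-- LIST: edges at a few vertices with prescribed lists. -/
def ListStmt : Prop :=
  ∀ (V ι : Type) [DecidableEq V] [Fintype ι] [DecidableEq ι] [Nonempty ι] (Z : Finset V)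
    (Nb : V → Finset V) (Ls : V → Finset ι) (Y : ι → Finset V) (a : ℕ), (∀ y ∈ Z, (Nb y).card = (Ls y).card) →
    (∀ y ∈ Z, 2 * (a + Z.card) ≤ (Nb y).card) → (∀ i, (Y i).card ≤ a) →
    (∀ v, (univ.filter (fun i => v ∈ Y i)).card ≤ a) →
    ∃ f : V → V → ι, (∀ y ∈ Z, Set.BijOn (f y) (Nb y) (Ls y)) ∧
      (∀ y ∈ Z, ∀ v ∈ Nb y, v ∉ Y (f y v)) ∧
      ∀ y ∈ Z, ∀ y' ∈ Z, ∀ v ∈ Nb y, v ∈ Nb y' → f y v = f y' v → y = y'

/-- FIN (from LIST, KON): from a schedule to a colouring. -/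
def FinStmt : Prop :=
  ∀ (V ι : Type) [Fintype V] [DecidableEq V] [Fintype ι] [DecidableEq ι]
    (G H GJ GB : SimpleGraph V) (R T Z : Finset V) (σ : V → Bool) (ψ0 : ι → V → V)
    (Δ J a g : ℕ), Pad G R Δ → Δ = Fintype.card ι + J → T ⊆ R → Z ⊆ R \ T → H ≤ G → GJ ≤ G →
    GB ≤ G → Disjoint H GJ → Disjoint H GB → Disjoint GJ GB →
    (∀ u v, G.Adj u v → u ∈ T ∪ Z ∨ (u ∈ R ∧ v ∈ R) → H.Adj u v ∨ GJ.Adj u v ∨ GB.Adj u v) →
    (∀ u v, GB.Adj u v → u ∈ T ∪ Z ∧ (u ∈ T ∨ v ∈ T)) → (∀ u v, GJ.Adj u v → σ u ≠ σ v) →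
    (∀ v, dg GJ v univ ≤ J) → PC H ψ0 → Full H ψ0 → (∀ i, (mv (ψ0 i) ∩ T).card ≤ a) →
    (∀ v ∈ T, Δ ≤ dg GB v T + g) → g ≤ a → (∀ z ∈ Z, J ≤ dg GB z (cls T σ (!σ z))) →
    (∀ z ∈ Z, 2 * (a + Z.card) + J ≤ dg GB z T) →
    ∃ Y : ι → Finset V, (∀ i, Y i ⊆ T) ∧ (∀ i, (Y i).card ≤ a + Z.card) ∧ (∀ v, ld Y v ≤ g) ∧
      (∀ W ⊆ T ∪ Z, (∀ u ∈ W, ∀ v, GB.Adj u v → v ∈ W) →
        (∀ i, (((T ∩ W) \ Y i).card + (mv (ψ0 i) ∩ W).card) % 2 = W.card % 2) ∧
        (JEq GJ W σ J → BalEq GB (T ∩ W) σ Y)) ∧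
      (∀ ty : V → Bool, (∀ u v, GB.Adj u v → ty u ≠ ty v) → ∀ i,
        (cls (T \ Y i) ty true).card + (mv (ψ0 i) ∩ cls (T ∪ Z) ty true).card +
            (cls (T ∪ Z) ty false).card =
          (cls (T \ Y i) ty false).card + (mv (ψ0 i) ∩ cls (T ∪ Z) ty false).card +
            (cls (T ∪ Z) ty true).card) ∧
      (Eng GB T σ Y → ColR G R Δ)

/-- ITER: the repair process. -/
def IterStmt : Prop :=
  ∀ (V ι : Type) [Fintype V] [DecidableEq V] [Fintype ι] [DecidableEq ι] (G G' : SimpleGraph V)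
    (M0 : ι → V → V) (Ok Keep Must : ι → Finset V) (ω L t c tot : ℕ), G' ≤ G → PC G M0 →
    (∀ i v, M0 i v ≠ v → v ∈ Ok i) → (∀ i, Must i ⊆ Keep i) →
    (∀ v, (univ.filter (fun i => v ∈ Must i ∧ M0 i v = v)).card ≤ t) →
    (∀ i, (fx (M0 i) (Must i)).card ≤ c) → ∑ i, (fx (M0 i) (Must i)).card ≤ tot →
    (∀ M, St G G' M0 Ok Keep (L + t) (ω * c) M → ∀ Over : Finset V, L * Over.card ≤ ω * tot →
      ∀ i, ∀ a ∈ Must i, M i a = a → ∃ (μ : V → V) (W : Finset V), Rep (Av G' M) (M i) μ W ∧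
        W.card ≤ ω ∧ a ∈ W ∧ W ⊆ Ok i ∧ (∀ v ∈ W, v ∈ Keep i → μ v ≠ v) ∧
        ∀ v ∈ W, v ∈ Over → v ∈ Must i ∧ M i v = v) →
    ∃ M, St G G' M0 Ok Keep (L + t) (ω * c) M ∧ ∑ v, chg M0 M v ≤ ω * tot ∧
      ∀ i, ∀ v ∈ Must i, M i v ≠ v

/-- FIXA (from ITER): from an almost perfect colouring of `G1` to perfect matchings. -/
def FixaStmt : Prop :=
  ∀ (V ι : Type) [Fintype V] [DecidableEq V] [Fintype ι] [DecidableEq ι]
    (G G' G1 : SimpleGraph V) (T : Finset V) (Y : ι → Finset V) (E : ι → V → V → Prop)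
    (M0 : ι → V → V) (ω c t tot η y t1 L o a β : ℕ), G' ≤ G → G1 ≤ G → Disjoint G1 G' →
    (∀ u v, G1.Adj u v → u ∈ T) → PC G1 M0 → Full G1 M0 → (∀ i v, M0 i v ≠ v → E i v (M0 i v)) →
    (∀ i, (fx (M0 i) T).card ≤ c) → ∑ i, (fx (M0 i) T).card ≤ tot →
    (∀ v ∈ T, Fintype.card ι ≤ dg G1 v univ + t) → (∀ i, (Y i).card ≤ η) → (∀ v, ld Y v ≤ y) →
    (∀ v ∈ T, (univ.filter (fun i => M0 i v ≠ v ∧ M0 i v ∈ Y i)).card ≤ t1) → 0 < L →
    ω * (tot + η * Fintype.card ι) ≤ L * o → L + t + t1 ≤ a → (ω + 1) * (c + η) + η + 2 * o ≤ β →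
    (∀ i, Orc G' (E i) T (T \ Y i) ω a β) →
    ∃ M : ι → V → V, PC G M ∧ (∀ i, mv (M i) = T \ Y i) ∧ cg M ≤ G1 ⊔ G' ∧
      (∀ v, dg (cg M ⊓ G') v univ ≤ a) ∧
      ∑ v, dg (cg M ⊓ G') v univ ≤ ω * (tot + η * Fintype.card ι) ∧
      (∀ v, dg (G1 \ cg M) v univ ≤ 2 * a + y) ∧
      ∑ v, dg (G1 \ cg M) v univ ≤ (ω + 2) * (tot + η * Fintype.card ι)

/-- ORM: alternating paths between two sides. -/
def OrmStmt : Prop :=
  ∀ (V : Type) [Fintype V] [DecidableEq V] (G' : SimpleGraph V) (σ : V → Bool)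
    (E : V → V → Prop) (T Ok : Finset V) (a β w e : ℕ),
    (∀ u v, G'.Adj u v → u ∈ T ∧ σ u ≠ σ v) → (∀ u v, E u v → σ u = σ v) → Ok ⊆ T →
    Even Ok.card → (∀ v ∈ T, (cls T σ (!σ v)).card ≤ 2 * dg G' v univ + w) →
    (∀ b, Mix G' T (cls T σ b) (cls T σ (!b)) e) → w + 2 * (a + β + 10) ≤ e →
    Orc G' E T Ok 8 a β

/-- ORB: alternating paths through the layers. -/
def OrbStmt : Prop :=
  ∀ (m : ℕ) [Fact m.Prime] (V : Type) [Fintype V] [DecidableEq V] (G' : SimpleGraph V)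
    (π : V → Bool × ZMod m) (s : ZMod m) (E : V → V → Prop) (T Ok : Finset V) (a β w e : ℕ),
    s ≠ 0 → (∀ u v, G'.Adj u v → u ∈ T ∧ (π u).1 ≠ (π v).1 ∧ (π u).2 = (π v).2) →
    (∀ u v, E u v → (π u).1 ≠ (π v).1 ∧ ((π u).1 = true → (π v).2 = (π u).2 + s) ∧
      ((π v).1 = true → (π u).2 = (π v).2 + s)) → Ok ⊆ T →
    (cls Ok (fun u => (π u).1) true).card = (cls Ok (fun u => (π u).1) false).card →
    (∀ v ∈ T, ∀ p, (cls T π p).card ≤ 2 * dg G' v univ + w) →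
    (∀ r, Mix G' T (cls T π (true, r)) (cls T π (false, r)) e) →
    w + 2 * (a + β + 2 * m + 8) ≤ e → Orc G' E T Ok (2 * m + 6) a β

/-- ORD: alternating paths in the dense case. -/
def OrdStmt : Prop :=
  ∀ (V : Type) [Fintype V] [DecidableEq V] (G' : SimpleGraph V) (σ : V → Bool) (T : Finset V)
    (μ : V → V) (Rl : V → V → Prop) (Bad : Finset V) (a β w w' e : ℕ) (x : V),
    (∀ u v, G'.Adj u v → σ u ≠ σ v) → (∀ v, μ (μ v) = v) → Res G' Rl a → Bad.card ≤ β →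
    (∀ v, v ∉ Bad → μ v ∉ Bad ∧ σ (μ v) = σ v) →
    (∀ v ∈ T, (cls univ σ (!σ v)).card ≤ 2 * dg G' v univ + w') →
    (∀ b, Mix G' T (cls univ σ b) (cls univ σ (!b)) e) →
    w ≤ (Tᶜ.filter (fun y => w ≤ dg G' y T)).card → a + β + 2 ≤ w →
    w' + 2 * (a + β + 14) ≤ e → x ∈ T → μ x = x →
    ∃ (μ' : V → V) (W : Finset V), Rep Rl μ μ' W ∧ W.card ≤ 12 ∧ x ∈ W ∧
      (∀ v ∈ W, v ∈ T → μ' v ≠ v) ∧ ∀ v ∈ W, v ∉ Bad ∨ v = x

/-- FIX (from VIZ, EQ, PERM, FIXA, ORM): perfect matchings that use almost all edges of `G1`. -/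
def FixStmt : Prop :=
  ∃ C : ℕ, ∀ (V ι : Type) [Fintype V] [DecidableEq V] [Fintype ι] [DecidableEq ι]
    (G G1 : SimpleGraph V) (σ : V → Bool) (T : Finset V) (Y : ι → Finset V) (η L e : ℕ),
    G1 ≤ G → (∀ u v, G1.Adj u v → u ∈ T ∧ σ u = σ v) →
    (∀ v, dg G1 v univ < Fintype.card ι) → (∀ v ∈ T, Fintype.card ι ≤ dg G1 v univ + L) →
    Fintype.card ι * T.card ≤ ∑ v ∈ T, dg G1 v univ + η * T.card → T.card ≤ 5 * Fintype.card ι →
    T.Nonempty → (∀ v ∈ T, (cls T σ (!σ v)).card ≤ 2 * dg G v (cls T σ (!σ v)) + L) →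
    (∀ b, Mix G T (cls T σ b) (cls T σ (!b)) e) → (∀ i, (Y i).card ≤ η) → (∀ v, ld Y v ≤ η) →
    (∀ i, Even (T \ Y i).card) → Par C T.card η L e →
    ∃ M : ι → V → V, PC G M ∧ (∀ i, mv (M i) = T \ Y i) ∧
      (∀ u v, (cg M).Adj u v → σ u = σ v → G1.Adj u v) ∧
      (∀ v, dg (cg M) v (cls univ σ (!σ v)) ≤ C * L) ∧
      ∑ v, dg (cg M) v (cls univ σ (!σ v)) ≤ C * η * T.card ∧
      (∀ v, dg (G1 \ cg M) v univ ≤ C * L) ∧ ∑ v, dg (G1 \ cg M) v univ ≤ C * η * T.card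

/-- BIP (from KON, EQ, PERM, FIXA, ORB): crossing perfect matchings that avoid small sets. -/
def BipStmt : Prop :=
  ∀ (m : ℕ) [Fact m.Prime], ∃ C : ℕ, ∀ (V ι : Type) [Fintype V] [DecidableEq V] [Fintype ι]
    [DecidableEq ι] (G : SimpleGraph V) (π : V → Bool × ZMod m) (T : Finset V) (s : ι → ZMod m)
    (X : ι → Finset V) (D η L e : ℕ), (∀ j, s j ≠ 0) → (∀ q, q ≠ 0 → (cls univ s q).card = D) →
    (∀ v ∈ T, ∀ q, dg G v (cls T π (!(π v).1, q)) ≤ D ∧ D ≤ dg G v (cls T π (!(π v).1, q)) + L) →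
    ∑ v ∈ T, ∑ q ∈ univ.filter (fun q => q ≠ (π v).2), (D - dg G v (cls T π (!(π v).1, q))) ≤
      η * T.card → (∀ p, (cls T π p).card ≤ 2 * D + L) → T.Nonempty →
    (∀ r, Mix G T (cls T π (true, r)) (cls T π (false, r)) e) →
    (∀ j, (X j).card ≤ η) → (∀ v, ld X v ≤ L) →
    (∀ j, (cls (T \ X j) (fun u => (π u).1) true).card =
      (cls (T \ X j) (fun u => (π u).1) false).card) → Par C T.card η L e →
    ∃ M : ι → V → V, PC G M ∧ (∀ j, mv (M j) = T \ X j) ∧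
      (∀ u v, (cg M).Adj u v → (π u).1 ≠ (π v).1) ∧
      (∀ v, dg (cg M) v (cls univ (fun u => (π u).2) (π v).2) ≤ C * L) ∧
      ∑ v, dg (cg M) v (cls univ (fun u => (π u).2) (π v).2) ≤ C * η * T.card ∧
      (∀ v ∈ T, dg (G \ cg M) v
        (T.filter (fun u => (π u).1 ≠ (π v).1 ∧ (π u).2 ≠ (π v).2)) ≤ C * L) ∧
      ∑ v ∈ T, dg (G \ cg M) v
        (T.filter (fun u => (π u).1 ≠ (π v).1 ∧ (π u).2 ≠ (π v).2)) ≤ C * η * T.card

/-- ENGA (from PRE, PLB): the bookkeeping of the two phases. -/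
def EngaStmt : Prop :=
  ∀ (V ι₁ ι₂ : Type) [Fintype V] [DecidableEq V] [Fintype ι₁] [DecidableEq ι₁] [Fintype ι₂]
    [DecidableEq ι₂] (G : SimpleGraph V) (σ : V → Bool) (T : Finset V) (Y : ι₁ ⊕ ι₂ → Finset V)
    (Bal : Finset V → Prop) (η L o d p1 p2 q τ : ℕ),
    (∀ S u v, G.Adj u v → u ∈ S → v ∈ S → Bal S → Bal (S \ {u, v})) →
    (∀ j, Bal (T \ Y (Sum.inr j))) → (∀ j, Even (T \ Y (Sum.inr j)).card) →
    (∀ b, (cls T σ b).Nonempty) → (∀ v ∈ T, d ≤ dg G v (cls T σ (σ v))) →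
    (∀ b, (cls T σ b).card ≤ (cls T σ (!b)).card + η) → (∀ i, (Y i).card ≤ η) →
    (∀ v, ld Y v ≤ η) → BalEq G T σ Y → 0 < L → 2 * η * Fintype.card ι₂ ≤ L * o →
    3 * η + o + L < d → q + 4 * (η + L + p1) ≤ Fintype.card ι₂ → 4 * p2 < τ * q →
    (∀ N : SimpleGraph V, N ≤ G → (∀ u v, N.Adj u v → σ u = σ v) → (∀ v, dg N v univ ≤ L) →
      ∑ v, dg N v univ ≤ 2 * η * Fintype.card ι₂ →
      ∃ M : ι₁ → V → V, PC (G \ N) M ∧ (∀ i, mv (M i) = T \ Y (Sum.inl i)) ∧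
        (∀ v ∈ T, dg (cg M) v (cls T σ (!σ v)) ≤ p1) ∧
        ∑ v ∈ T, dg (cg M) v (cls T σ (!σ v)) ≤ p2 ∧
        (∀ v ∈ T, dg ((G \ N) \ cg M) v (cls T σ (σ v)) ≤ p1) ∧
        ∑ v ∈ T, dg ((G \ N) \ cg M) v (cls T σ (σ v)) ≤ p2) →
    (∀ N : SimpleGraph V, N ≤ G → (∀ v ∈ T, dg N v (cls T σ (!σ v)) ≤ p1) →
      ∑ v ∈ T, dg N v (cls T σ (!σ v)) ≤ p2 → ∀ X : ι₂ → Finset V,
      (∀ j, (X j).card ≤ 3 * η + τ + 4) → (∀ v, ld X v ≤ η + L + p1) → (∀ j, Bal (T \ X j)) →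
      (∀ j, (cls (T \ X j) σ true).card = (cls (T \ X j) σ false).card) →
      ∃ M : ι₂ → V → V, PC (G \ N) M ∧ (∀ j, mv (M j) = T \ X j) ∧
        ∀ u v, (cg M).Adj u v → σ u ≠ σ v) →
    Eng G T σ Y

/-- ENG (from ENGA, FIX, BIP): the engine for a dense set. -/
def EngStmt : Prop :=
  ∀ (m : ℕ) [Fact m.Prime], ∃ C : ℕ, ∀ (V ι : Type) [Fintype V] [DecidableEq V] [Fintype ι]
    [DecidableEq ι] (G : SimpleGraph V) (π : V → Bool × ZMod m) (T : Finset V)
    (Y : ι → Finset V) (D η L e : ℕ), Fintype.card ι = (2 * m - 1) * (D + η) + 1 →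
    (∀ v ∈ T, ∀ p, dg G v (cls T π p) ≤ D + η ∧ D ≤ dg G v (cls T π p) + η) →
    (∀ p, (cls T π p).card ≤ 2 * D + L) →
    (∀ b, Mix G T (cls T (fun u => (π u).1) b) (cls T (fun u => (π u).1) (!b)) e) →
    (∀ r, Mix G T (cls T π (true, r)) (cls T π (false, r)) e) →
    (∀ b, (cls T (fun u => (π u).1) b).card ≤ (cls T (fun u => (π u).1) (!b)).card + η) →
    (∀ i, (Y i).card ≤ η) → (∀ v, ld Y v ≤ η) → (∀ i, Even (T \ Y i).card) →
    BalEq G T (fun u => (π u).1) Y → Par C T.card η L e → Eng G T (fun u => (π u).1) Y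

/-- ENGC (from ENG): the engine for a near clique. -/
def EngcStmt : Prop :=
  ∀ (m : ℕ) [Fact m.Prime], ∃ C : ℕ, ∀ (V ι : Type) [Fintype V] [DecidableEq V] [Fintype ι]
    [DecidableEq ι] (G : SimpleGraph V) (σ : V → Bool) (T : Finset V) (Y : ι → Finset V)
    (Δ η L : ℕ), Fintype.card ι = kk m Δ (3 * η) → (∀ v ∈ T, T.card ≤ dg G v T + η) →
    T.card ≤ Δ + η → Δ ≤ T.card + η → (∀ b, (cls T σ b).card ≤ (cls T σ (!b)).card + η) →
    (∀ i, (Y i).card ≤ η) → (∀ v, ld Y v ≤ η) → (∀ i, Even (T \ Y i).card) → BalEq G T σ Y →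
    Par C T.card η L Δ → Eng G T σ Y

/-- BENG (from ENGA, BIP): the engine for a near complete bipartite graph. -/
def BengStmt : Prop :=
  ∀ (m : ℕ) [Fact m.Prime], ∃ C : ℕ, ∀ (V ι : Type) [Fintype V] [DecidableEq V] [Fintype ι]
    [DecidableEq ι] (G : SimpleGraph V) (ty σ : V → Bool) (T : Finset V) (Y : ι → Finset V)
    (Δ η L : ℕ), Fintype.card ι = kk m Δ (3 * η) → (∀ u v, G.Adj u v → ty u ≠ ty v) →
    (∀ v ∈ T, (cls T ty (!ty v)).card ≤ dg G v T + η) →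
    (∀ t c, Δ ≤ 2 * (cls (cls T ty t) σ c).card + η ∧
      2 * (cls (cls T ty t) σ c).card ≤ Δ + η) →
    (∀ i, (Y i).card ≤ η) → (∀ v, ld Y v ≤ η) →
    (∀ i, (cls (T \ Y i) ty true).card = (cls (T \ Y i) ty false).card) → BalEq G T σ Y →
    Par C T.card η L Δ → Eng G T σ Y

/-- MIX: even partitions of graphs that are not extremal. -/
def MixStmt : Prop :=
  ∀ (V : Type) [Fintype V] [DecidableEq V] (G : SimpleGraph V) (R Ω T : Finset V) (Δ ζ e : ℕ),
    T ⊆ Ω → Ω ⊆ R → (∀ v ∈ T, dg G v R ≤ Δ) → (∀ v ∈ T, Δ ≤ dg G v Ω + ζ) → R.card < 2 * Δ →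
    NE G R T e → ∃ 𝓕 : Finset (Finset V), 𝓕.card ≤ (T.card + 1) ^ 2 ∧ (∀ F ∈ 𝓕, F ⊆ Ω) ∧
      ∀ (κ : Type) [Fintype κ] [DecidableEq κ] (f : V → κ) (η e' : ℕ), (∀ F ∈ 𝓕, Evn f η F) →
        2 * ζ + 6 * Fintype.card κ * (η + e') ≤ e → Fintype.card κ * (η + e') < Ω.card →
        ∀ p q, Mix G T (cls Ω f p) (cls Ω f q) e'

/-- DFIX (from VIZ, EQ, ITER, ORD): the first phase of the dense case. -/
def DfixStmt : Prop :=
  ∃ C : ℕ, ∀ (V ι : Type) [Fintype V] [DecidableEq V] [Fintype ι] [DecidableEq ι]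
    (G : SimpleGraph V) (σ : V → Bool) (T T1 : Finset V) (η L w w' e : ℕ), T1 ⊆ T →
    (∀ v, dg G v (cls univ σ (σ v)) < Fintype.card ι) →
    (∀ v ∈ T1, Fintype.card ι ≤ dg G v (cls univ σ (σ v)) + η) →
    Fintype.card V ≤ 5 * Fintype.card ι →
    (∀ v ∈ T, (cls univ σ (!σ v)).card ≤ 2 * dg G v (cls univ σ (!σ v)) + w') →
    (∀ b, Mix G T (cls univ σ b) (cls univ σ (!b)) e) →
    w ≤ (Tᶜ.filter (fun y => w ≤ dg G y (cls T σ (!σ y)))).card →
    Par C (Fintype.card V) η L w → w' + C * L ≤ e →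
    ∃ M0 M : ι → V → V, PC G M0 ∧ (∀ i v, σ (M0 i v) = σ v) ∧
      (∀ u v, G.Adj u v → σ u = σ v → ∃ i, M0 i u = v) ∧ PC G M ∧ (∀ v, chg M0 M v ≤ 2 * L) ∧
      ∑ v, chg M0 M v ≤ 12 * η * Fintype.card V ∧ (∀ i, ∀ v ∈ T, M i v = v → M0 i v = v ∧ v ∉ T1)

/-- DHALL: the second phase of the dense case. -/
def DhallStmt : Prop :=
  ∀ (V ι : Type) [Fintype V] [DecidableEq V] [Fintype ι] [DecidableEq ι] (G : SimpleGraph V)
    (σ : V → Bool) (T : Finset V) (X : ι → Finset V) (a w w' e : ℕ),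
    (∀ u v, G.Adj u v → σ u ≠ σ v) → (∀ j, (X j).card ≤ a) → Fintype.card ι ≤ a →
    (∀ b, (cls univ σ b).card ≤ (cls univ σ (!b)).card + a) →
    (∀ b, (cls T σ b).card ≤ (cls T σ (!b)).card + a) →
    (∀ v ∈ T, (cls univ σ (!σ v)).card ≤ 2 * dg G v univ + w') →
    (∀ b, Mix G T (cls univ σ b) (cls univ σ (!b)) e) →
    (∀ b, w ≤ ((cls Tᶜ σ b).filter (fun y => w ≤ dg G y T)).card) → 8 * a < w →
    w' + 8 * a < e →
    ∃ M : ι → V → V, PC G M ∧ (∀ j, Disjoint (mv (M j)) (X j)) ∧ ∀ j, T \ X j ⊆ mv (M j)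

/-- DENSE (from VIZ, EQ, KON, PART, MIX, DFIX, DHALL): many vertices of low degree have many
neighbours of high degree. -/
def DenseStmt : Prop :=
  ∃ C : ℕ, ∀ (V : Type) [Fintype V] [DecidableEq V] (G : SimpleGraph V) (T : Finset V)
    (Δ θ η L e : ℕ), (∀ v, dg G v univ ≤ Δ) → Fintype.card V < 2 * Δ →
    (∀ v, v ∈ T ↔ Δ < dg G v univ + θ) → NE G univ T e →
    θ ≤ (Tᶜ.filter (fun y => θ ≤ dg G y T)).card → Par C (Fintype.card V) η L θ →
    Big C (Fintype.card V) η → C * θ ≤ e → C * e ≤ Fintype.card V → Col G Δ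

/-- FF (from KON, EQ): bipartite colourings with two class sizes. -/
def FfStmt : Prop :=
  ∀ (V ι : Type) [Fintype V] [DecidableEq V] [Fintype ι] [DecidableEq ι] (G : SimpleGraph V)
    (σ : V → Bool) (p x : ℕ), (∀ u v, G.Adj u v → σ u ≠ σ v) → x ≤ Fintype.card ι →
    ∑ v, dg G v univ = 2 * (p * Fintype.card ι + 2 * x) → (∀ v, dg G v univ ≤ Fintype.card ι) →
    (∀ C : Finset V, C.card = p + 1 → ∑ v ∈ C, dg G v univ ≤ p * Fintype.card ι + x) →
    ∃ M : ι → V → V, PC G M ∧ Full G M ∧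
      ∀ i, (mv (M i)).card = 2 * p ∨ (mv (M i)).card = 2 * p + 4

/-- CAP (from KON): a large subgraph of small degree. -/
def CapStmt : Prop :=
  ∀ (V : Type) [Fintype V] [DecidableEq V] (H : SimpleGraph V) (σ : V → Bool) (d J : ℕ),
    (∀ u v, H.Adj u v → σ u ≠ σ v) → (∀ v, dg H v univ ≤ d) → J ≤ d →
    ∃ H' : SimpleGraph V, H' ≤ H ∧ (∀ v, dg H' v univ ≤ J) ∧
      J * ∑ v, dg H v univ ≤ d * ∑ v, dg H' v univ

/-- PAR (from FF, WEQ): the edges that leave `S`, with classes of parity `b`. -/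
def ParStmt : Prop :=
  ∀ (V ι : Type) [Fintype V] [DecidableEq V] [Fintype ι] [DecidableEq ι] (H : SimpleGraph V)
    (S : Finset V) (b : ℕ) (w : V → ℕ) (ω : ℕ), b ≤ 1 → ParOK H S (Fintype.card ι) b →
    out H S % 2 = (Fintype.card ι * b) % 2 → 40 ≤ Fintype.card ι → (∀ v, w v ≤ ω) →
    ∃ ψ : ι → V → V, PC H ψ ∧ (∀ u v, (cg ψ).Adj u v ↔ H.Adj u v ∧ (u ∈ S ↔ v ∉ S)) ∧
      (∀ i, (mv (ψ i) ∩ S).card % 2 = b) ∧
      (∀ i, 9 * Fintype.card ι * ∑ v ∈ mv (ψ i), w v ≤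
        10 * ∑ v, mu H S v * w v + 36 * Fintype.card ι * ω) ∧
      ∀ u v, Fintype.card ι ≤ 20 * fr ψ univ u v + 20

/-- SCH (from PAR, PLG): the schedule with one parity condition. -/
def SchStmt : Prop :=
  ∀ (V ι : Type) [Fintype V] [DecidableEq V] [Fintype ι] [DecidableEq ι] (H : SimpleGraph V)
    (T S : Finset V) (b g q τ : ℕ), T ⊆ S → b ≤ 1 → ParOK H S (Fintype.card ι) b →
    out H S % 2 = (Fintype.card ι * b) % 2 → (∀ v ∈ T, dg H v univ ≤ g) →
    (∀ v ∈ S \ T, dg H v (S \ T) ≤ g) → (∀ v, v ∉ S → dg H v Sᶜ ≤ g) →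
    (∀ z ∈ S \ T, dg H z univ + q + 2 * g ≤ Fintype.card ι) → q + 4 * g ≤ Fintype.card ι →
    0 < g → 100 * g ≤ Fintype.card ι → T.card ≤ 3 * Fintype.card ι → g * T.card < τ * q →
    ∃ ψ : ι → V → V, PC H ψ ∧ Full H ψ ∧ (∀ i, (mv (ψ i) ∩ S).card % 2 = b) ∧
      ∀ i, (mv (ψ i) ∩ T).card ≤ τ + 20 * g

/-- NRM: the choice of the set whose parity is controlled. -/
def NrmStmt : Prop :=
  ∀ (V : Type) [Fintype V] [DecidableEq V] (G : SimpleGraph V) (R T : Finset V) (Δ g : ℕ),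
    Pad G R Δ → Com G R Δ → T ⊆ R → T.Nonempty → (∀ v ∈ T, Δ ≤ dg G v T + g) → 0 < g →
    1000 * g ≤ Δ →
    ∃ Z : Finset V, Z ⊆ R \ T ∧ Z.card ≤ 5 * g ∧ (∀ y ∈ Z, 2 * Δ ≤ 5 * dg G y T) ∧
      (∀ y ∈ R \ (T ∪ Z), 5 * dg G y T ≤ 3 * Δ) ∧ Nrm G (T ∪ Z) Δ ((T ∪ Z).card % 2)

/-- SPARSE (from PART, MIX, NRM, SCH, FIN, ENG): few edges leave the dense set. -/
def SparseStmt : Prop :=
  ∃ C : ℕ, ∀ (V : Type) [Fintype V] [DecidableEq V] (G : SimpleGraph V) (R T : Finset V)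
    (Δ η L e : ℕ), Pad G R Δ → Com G R Δ → Spa G R T Δ η e → Par C R.card η L e →
    Big C R.card η → C * e ≤ R.card → ColR G R Δ

/-- ERR: which colours get an edge of which type. -/
def ErrStmt : Prop :=
  ∀ (ι : Type) [Fintype ι] [DecidableEq ι] [Nonempty ι] (err : ZMod 3 → Finset ι)
    (n : ZMod 3 → ℕ), (∀ i, Even (univ.filter (fun p => i ∈ err p)).card) →
    (∀ p, (err p).card ≤ n (p + 1) + n (p + 2)) →
    (∀ p, (err p).card % 2 = (n (p + 1) + n (p + 2)) % 2) →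
    ∃ E : ZMod 3 → Finset ι, (∀ t, (E t).card ≤ n t ∧ (E t).card % 2 = n t % 2) ∧
      ∀ i p, i ∈ err p ↔ (i ∈ E (p + 1) ↔ i ∉ E (p + 2))

/-- FIXB (from PLB): a pool of edges corrects the parities. -/
def FixbStmt : Prop :=
  ∀ (V ι : Type) [Fintype V] [DecidableEq V] [Fintype ι] [DecidableEq ι] (G P : SimpleGraph V)
    (ψ0 : ι → V → V) (E I : Finset ι) (w : V → ℕ) (n d Bc Bi ω q τ : ℕ), PC G ψ0 → P ≤ G →
    Disjoint P (cg ψ0) → (∀ v, dg P v univ ≤ d) → ∑ v, dg P v univ = 2 * n → E.card ≤ n →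
    E.card % 2 = n % 2 → (∀ i ∈ E, ∑ v ∈ mv (ψ0 i), dg P v univ ≤ Bc) →
    (∀ u v, P.Adj u v → E.card ≤ fr ψ0 E u v + Bi) → n = 0 ∨ 10 * d + Bc + Bi ≤ n →
    (∀ u v u' v', P.Adj u v → P.Adj u' v' → q + 8 * d ≤ (I.filter (fun i =>
      (ψ0 i u = u ∧ ψ0 i v = v) ∧ ψ0 i u' = u' ∧ ψ0 i v' = v')).card) →
    (∀ v, w v ≤ ω) → ∑ v, dg P v univ * w v < τ * q →
    ∃ ψ : ι → V → V, PC G ψ ∧ Ext ψ0 ψ ∧ cg ψ = cg ψ0 ⊔ P ∧
      (∀ i v, ψ i v ≠ v → ψ0 i v = v → P.Adj v (ψ i v)) ∧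
      (∀ i, (mv (ψ i) \ mv (ψ0 i)).card % 4 = if i ∈ E then 2 else 0) ∧
      ∀ i, ∑ v ∈ mv (ψ i), w v ≤ ∑ v ∈ mv (ψ0 i), w v + τ + 6 * ω

/-- TRI1 (from PAR, PART, PLG, WEQ, FIXB): one tight parity and a large pool. -/
def Tri1Stmt : Prop :=
  ∃ C : ℕ, ∀ (V ι : Type) [Fintype V] [DecidableEq V] [Fintype ι] [DecidableEq ι]
    (H P : SimpleGraph V) (X : Finset V) (pt : V → ZMod 3) (s : ZMod 3 → ℕ) (b : ZMod 3)
    (g n : ℕ), Tri H X pt s (Fintype.card ι) g → ParOK H (cls univ pt b) (Fintype.card ι) (s b) →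
    (∀ z ∈ X, 6 * dg H z univ ≤ 5 * Fintype.card ι) → Pol H P pt b →
    (∀ u v, P.Adj u v → u ∉ X ∨ v ∉ X) → (∀ v, dg P v univ ≤ g) → ∑ v, dg P v univ = 2 * n →
    ((∀ u v, P.Adj u v → u ∉ X) ∧ Fintype.card ι + C * g ≤ n ∧ n ≤ 2 * Fintype.card ι) ∨
      8 * Fintype.card ι ≤ n → 0 < g → C * g ≤ Fintype.card ι →
    (C * (X.card + 1) ^ 2 : ℝ) < Real.exp (Fintype.card ι / C) →
    ∃ ψ : ι → V → V, TriSol H pt s (C * g) ψ

/-- TRI2 (from PLG, ERR, FIXB): all parities are almost supplied by free edges. -/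
def Tri2Stmt : Prop :=
  ∃ C : ℕ, ∀ (V ι : Type) [Fintype V] [DecidableEq V] [Fintype ι] [DecidableEq ι]
    (H : SimpleGraph V) (P : ZMod 3 → SimpleGraph V) (X : Finset V) (pt : V → ZMod 3)
    (s n : ZMod 3 → ℕ) (g : ℕ), Tri H X pt s (Fintype.card ι) g →
    (∀ p, s p = 1 → Fintype.card ι ≤ out H (cls univ pt p)) →
    (∀ z ∈ X, 10 * dg H z univ ≤ 7 * Fintype.card ι) → (∀ t, Pol H (P t) pt t) →
    (∀ t u v, (P t).Adj u v → u ∉ X) → (∀ t, ∑ v, dg (P t) v univ = 2 * n t) →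
    (∀ t, (n t = 0 ∨ C * g ≤ n t) ∧ n t ≤ 2 * Fintype.card ι) →
    (∀ p, 19 * Fintype.card ι ≤ 20 * (n (p + 1) + n (p + 2))) → 0 < g →
    C * g ≤ Fintype.card ι → ∃ ψ : ι → V → V, TriSol H pt s (C * g) ψ

/-- TWR: the three regimes for two near cliques. -/
def TwrStmt : Prop :=
  ∀ (V : Type) [Fintype V] [DecidableEq V] (G : SimpleGraph V) (R T1 T2 : Finset V)
    (Δ g γ : ℕ), Pad G R Δ → Com G R Δ → Two G R T1 T2 Δ g → g ≤ γ → 10 * g ≤ Δ →
    150000 * Δ ^ 2 ≤ g ^ 3 →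
    (∃ b, Δ + γ ≤ nfree G R T1 T2 b ∨ 9 * Δ ≤ msum G R T1 T2 Δ g b) ∨
      ((∀ p, Δ ≤ nfree G R T1 T2 (p + 1) + nfree G R T1 T2 (p + 2) + 3 * γ) ∧
        ∃ b, 7 * Δ ≤ 10 * nfree G R T1 T2 b)

/-- TWJ: the edges for the last colours. -/
def TwjStmt : Prop :=
  ∀ (V : Type) [Fintype V] [DecidableEq V] (G P : SimpleGraph V) (R T1 T2 : Finset V)
    (Δ k J g : ℕ) (pt : V → ZMod 3) (b : ZMod 3), Pad G R Δ → Com G R Δ → Two G R T1 T2 Δ g →
    Ptn G R T1 T2 Δ pt → Δ = k + J → 100 * J ≤ Δ → 0 < g → g ≤ J →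
    Pol (itemG G (R \ (T1 ∪ T2)) pt) P pt b → (∀ v, dg P v univ ≤ g) →
    6 * J ≤ ∑ v, dg P v univ →
    ∃ (GJ : SimpleGraph V) (σ : V → Bool) (sg : ZMod 3 → ℤ),
      JSel (itemG G (R \ (T1 ∪ T2)) pt) pt (par3 R pt) J GJ σ sg ∧
      Tri (itemG G (R \ (T1 ∪ T2)) pt \ GJ) (R \ (T1 ∪ T2)) pt (par3 R pt) k g ∧
      (∀ p, par3 R pt p = 1 → k ≤ out (itemG G (R \ (T1 ∪ T2)) pt \ GJ) (cls univ pt p)) ∧
      (par3 R pt b = 0 → ∀ u v, GJ.Adj u v → pt u ≠ b) ∧ ∑ v, dg (P ⊓ GJ) v univ ≤ 2 * J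

/-- TW1 (from NRM, TWJ, TRI1): the schedule when one type is plentiful. -/
def Tw1Stmt : Prop :=
  ∃ C : ℕ, ∀ (V ι : Type) [Fintype V] [DecidableEq V] [Fintype ι] [DecidableEq ι]
    (G : SimpleGraph V) (R T1 T2 : Finset V) (Δ J g : ℕ) (b : ZMod 3), Pad G R Δ → Com G R Δ →
    Two G R T1 T2 Δ g → Δ = Fintype.card ι + J → 100 * J ≤ Δ → 0 < g → g ≤ J → C * g ≤ Δ →
    Big C R.card g → Δ + C * g ≤ nfree G R T1 T2 b ∨ 9 * Δ ≤ msum G R T1 T2 Δ g b →
    TSch G R T1 T2 Δ J (C * g) ι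

/-- TW2 (from TWJ, TRI2): the schedule when all parities are almost supplied. -/
def Tw2Stmt : Prop :=
  ∃ C : ℕ, ∀ (V ι : Type) [Fintype V] [DecidableEq V] [Fintype ι] [DecidableEq ι]
    (G : SimpleGraph V) (R T1 T2 : Finset V) (Δ J g γ : ℕ), Pad G R Δ → Com G R Δ →
    Two G R T1 T2 Δ g → Δ = Fintype.card ι + J → 100 * J ≤ Δ → 0 < g → g ≤ J → C * g ≤ Δ →
    100 * γ ≤ Δ → (∀ p, Δ ≤ nfree G R T1 T2 (p + 1) + nfree G R T1 T2 (p + 2) + γ) →
    (∃ b, 7 * Δ ≤ 10 * nfree G R T1 T2 b) → TSch G R T1 T2 Δ J (C * g) ι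

/-- TWF (from PART, FIN, ENGC): from the schedule to the colouring. -/
def TwfStmt : Prop :=
  ∀ K : ℕ, ∃ C : ℕ, ∀ (V : Type) [Fintype V] [DecidableEq V] (G : SimpleGraph V)
    (R T1 T2 : Finset V) (Δ g L : ℕ), Pad G R Δ → Com G R Δ → Two G R T1 T2 Δ g →
    Par C R.card g L R.card → Big C R.card g →
    (∀ k J, Δ = k + J → 100 * J ≤ Δ → g ≤ J → TSch G R T1 T2 Δ J (K * g) (Fin k)) → ColR G R Δ

/-- TWO (from TWR, TW1, TW2, TWF): two near cliques. -/
def TwoStmt : Prop :=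
  ∃ C : ℕ, ∀ (V : Type) [Fintype V] [DecidableEq V] (G : SimpleGraph V) (R T1 T2 : Finset V)
    (Δ g L : ℕ), Pad G R Δ → Com G R Δ → Two G R T1 T2 Δ g → Par C R.card g L R.card →
    Big C R.card g → ColR G R Δ

/-- BJ (from PART, CAP): partition and last edges in the bipartite case. -/
def BjStmt : Prop :=
  ∃ C : ℕ, ∀ (V : Type) [Fintype V] [DecidableEq V] (G : SimpleGraph V) (R A B ZA ZB : Finset V)
    (Δ J g : ℕ), Pad G R Δ → Com G R Δ → Bip G R A B Δ g → ZA ⊆ R \ (A ∪ B) → ZB ⊆ R \ (A ∪ B) →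
    Disjoint ZA ZB → (∀ z ∈ ZA, 3 * J ≤ dg G z B) → (∀ z ∈ ZB, 3 * J ≤ dg G z A) →
    (∀ y ∈ ZA ∪ ZB, 2 * Δ ≤ 5 * dg G y (A ∪ B)) →
    (∀ y ∈ R \ (A ∪ B ∪ (ZA ∪ ZB)), 5 * dg G y (A ∪ B) ≤ 3 * Δ) →
    Nrm G (A ∪ B ∪ (ZA ∪ ZB)) Δ ((A ∪ B ∪ (ZA ∪ ZB)).card % 2) →
    (B ∪ ZB).card ≤ (A ∪ ZA).card →
    ((B ∪ ZB).card + 2 ≤ (A ∪ ZA).card → ∀ z ∈ ZA, dg G z A < 3 * J) →
    1000 * J ≤ Δ → Δ ≤ 1200 * J → 0 < g → C * g ≤ Δ → Big C R.card g →
    ∃ (σ : V → Bool) (GJ : SimpleGraph V),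
      BSel G R (A ∪ B) (ZA ∪ ZB) Δ J g (fun v => decide (v ∈ A ∪ ZA)) σ GJ

/-- BSEL (from NRM, BJ): the choices in the bipartite case. -/
def BselStmt : Prop :=
  ∃ C : ℕ, ∀ (V : Type) [Fintype V] [DecidableEq V] (G : SimpleGraph V) (R A B : Finset V)
    (Δ J g : ℕ), Pad G R Δ → Com G R Δ → Bip G R A B Δ g → 1000 * J ≤ Δ → Δ ≤ 1200 * J →
    0 < g → C * g ≤ Δ → Big C R.card g →
    ∃ (Z : Finset V) (ty σ : V → Bool) (GJ : SimpleGraph V), BSel G R (A ∪ B) Z Δ J g ty σ GJ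

/-- BIPC (from BSEL, SCH, BALW, FIN, BENG): near complete bipartite graphs. -/
def BipcStmt : Prop :=
  ∃ C : ℕ, ∀ (V : Type) [Fintype V] [DecidableEq V] (G : SimpleGraph V) (R A B : Finset V)
    (Δ g L : ℕ), Pad G R Δ → Com G R Δ → Bip G R A B Δ g → Par C R.card g L R.card →
    Big C R.card g → ColR G R Δ

/-- PAD: every graph has a padding. -/
def PadStmt : Prop :=
  ∀ (V : Type) [Fintype V] [DecidableEq V] (G : SimpleGraph V) (Δ : ℕ), (∀ v, dg G v univ ≤ Δ) →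
    Com G univ Δ → ∃ (V' : Type) (_ : Fintype V') (_ : DecidableEq V') (G' : SimpleGraph V')
      (φ : V ↪ V'), Pad G' (univ.map φ) Δ ∧ Com G' (univ.map φ) Δ ∧
      (ColR G' (univ.map φ) Δ → Col G Δ) ∧
      (∀ T η e, Spa G univ T Δ η e → Spa G' (univ.map φ) (T.map φ) Δ η e) ∧
      (∀ T1 T2 g, Two G univ T1 T2 Δ g → Two G' (univ.map φ) (T1.map φ) (T2.map φ) Δ g) ∧
      ∀ A B g, Bip G univ A B Δ g → Bip G' (univ.map φ) (A.map φ) (B.map φ) Δ g

/-- STA: the rough structure of extremal graphs. -/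
def StaStmt : Prop :=
  ∀ (V : Type) [Fintype V] [DecidableEq V] (G : SimpleGraph V) (T : Finset V) (Δ e l g : ℕ),
    (∀ v, dg G v univ ≤ Δ) → Fintype.card V < 2 * Δ → (∀ v ∈ T, Δ ≤ dg G v univ + e) →
    ¬ NE G univ T e → e ≤ l → 0 < l → e * Fintype.card V ≤ l ^ 2 → 60 * l ≤ g →
    10 * g ≤ Fintype.card V →
    (∃ A B, Bip G univ A B Δ g) ∨ ∃ Q : Finset V, Q.Nonempty ∧ (∀ v ∈ Q, Δ ≤ dg G v Q + 7 * l) ∧
      Q.card ≤ Δ + l ∧ 2 * Δ ≤ Fintype.card V + 3 * l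

/-- STB: saturating the complement of a near clique. -/
def StbStmt : Prop :=
  ∃ C : ℕ, ∀ (V : Type) [Fintype V] [DecidableEq V] (G : SimpleGraph V) (Q : Finset V)
    (Δ l g : ℕ), (∀ v, dg G v univ ≤ Δ) → Com G univ Δ → Q.Nonempty →
    (∀ v ∈ Q, Δ ≤ dg G v Q + 7 * l) → Q.card ≤ Δ + l → 2 * Δ ≤ Fintype.card V + 3 * l → 0 < l →
    C * l * Fintype.card V ≤ g ^ 2 → C * g ≤ Fintype.card V →
    ∃ (G' : SimpleGraph V) (T1 T2 : Finset V), G ≤ G' ∧ (∀ v, dg G' v univ ≤ Δ) ∧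
      Com G' univ Δ ∧ Two G' univ T1 T2 Δ g

/-- OVF (from VAL, VIZ, DENSE, SPARSE, TWO, BIPC, PAD, STA, STB): large graphs whose maximum
degree exceeds half the order. -/
def OvfStmt : Prop :=
  ∃ N0 : ℕ, ∀ (V : Type) [Fintype V] [DecidableEq V] (G : SimpleGraph V) (Δ : ℕ),
    N0 ≤ Fintype.card V → (∀ v, dg G v univ ≤ Δ) → Com G univ Δ → Col G Δ

end Pool.Agent.MP_5c8b6d_co

end

section

/-! Basic lemmas on degrees and colourings. -/

namespace Pool.Agent.MP_5c8b6d_co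

open Finset

set_option linter.unusedSectionVars false

variable {V ι : Type} [Fintype V] [DecidableEq V] {G G' H : SimpleGraph V}

@[simp] theorem mem_nb {v u : V} {S : Finset V} : u ∈ nb G v S ↔ u ∈ S ∧ G.Adj v u := by
  simp [nb]

@[simp] theorem mem_nn {v u : V} {S : Finset V} : u ∈ nn G v S ↔ u ∈ S ∧ ¬ G.Adj v u := by
  simp [nn]

@[simp] theorem mem_cls {α κ : Type} [DecidableEq κ] {T : Finset α} {f : α → κ} {p : κ} {v : α} :
    v ∈ cls T f p ↔ v ∈ T ∧ f v = p := by simp [cls]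

@[simp] theorem mem_mv {μ : V → V} {v : V} : v ∈ mv μ ↔ μ v ≠ v := by simp [mv]

@[simp] theorem mem_fx {μ : V → V} {S : Finset V} {v : V} : v ∈ fx μ S ↔ v ∈ S ∧ μ v = v := by
  simp [fx]

theorem cls_subset {α κ : Type} [DecidableEq κ] (T : Finset α) (f : α → κ) (p : κ) :
    cls T f p ⊆ T := filter_subset _ _

theorem nb_subset (v : V) (S : Finset V) : nb G v S ⊆ S := fun _ h => (mem_nb.1 h).1

theorem sum_cls {α κ : Type} [Fintype κ] [DecidableEq κ] (T : Finset α) (f : α → κ)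
    (w : α → ℕ) : ∑ p, ∑ v ∈ cls T f p, w v = ∑ v ∈ T, w v :=
  sum_fiberwise_of_maps_to (fun _ _ => mem_univ _) w

theorem card_cls_sum {α κ : Type} [Fintype κ] [DecidableEq κ] (T : Finset α) (f : α → κ) :
    ∑ p, (cls T f p).card = T.card := by
  simpa using sum_cls T f (fun _ => 1)

theorem sum_cls_bool {α : Type} (T : Finset α) (f : α → Bool) (w : α → ℕ) :
    ∑ v ∈ cls T f true, w v + ∑ v ∈ cls T f false, w v = ∑ v ∈ T, w v := by
  simpa using sum_cls T f w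

theorem card_cls_bool {α : Type} (T : Finset α) (f : α → Bool) (b : Bool) :
    (cls T f b).card + (cls T f (!b)).card = T.card := by
  have := card_cls_sum T f
  cases b <;> simp at this ⊢ <;> omega

theorem card_fx_add (μ : V → V) (S : Finset V) : (fx μ S).card + (mv μ ∩ S).card = S.card := by
  have : mv μ ∩ S = S.filter (fun v => ¬ μ v = v) := by ext v; simp [and_comm]
  rw [this, fx]; exact card_filter_add_card_filter_not _

/-! ### degrees -/

theorem dg_le_card (v : V) (S : Finset V) : dg G v S ≤ S.card := card_le_card (nb_subset v S)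

theorem dg_lt_card {v : V} {S : Finset V} (h : v ∈ S) : dg G v S < S.card :=
  card_lt_card ⟨nb_subset v S, fun k => (mem_nb.1 (k h)).2.ne rfl⟩

theorem dg_add_nn (v : V) (S : Finset V) : dg G v S + (nn G v S).card = S.card := by
  classical
  unfold dg nb nn; convert card_filter_add_card_filter_not (s := S) (G.Adj v)

theorem dg_le_of {v v' : V} {S S' : Finset V}
    (h : ∀ u ∈ S, G.Adj v u → u ∈ S' ∧ G'.Adj v' u) : dg G v S ≤ dg G' v' S' :=
  card_le_card fun u hu => mem_nb.2 (h u (mem_nb.1 hu).1 (mem_nb.1 hu).2)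

theorem dg_congr {v : V} {S S' : Finset V}
    (h : ∀ u, (u ∈ S ∧ G.Adj v u) ↔ (u ∈ S' ∧ G'.Adj v u)) : dg G v S = dg G' v S' := by
  unfold dg; congr 1; ext u; simp [h u]

theorem dg_mono_set (v : V) {S S' : Finset V} (h : S ⊆ S') : dg G v S ≤ dg G v S' :=
  dg_le_of fun _ hu k => ⟨h hu, k⟩

theorem dg_le_univ (v : V) (S : Finset V) : dg G v S ≤ dg G v univ :=
  dg_mono_set v (subset_univ _)

theorem dg_mono (h : G ≤ G') (v : V) (S : Finset V) : dg G v S ≤ dg G' v S :=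
  dg_le_of fun _ hu k => ⟨hu, h k⟩

theorem dg_eq_zero {v : V} {S : Finset V} : dg G v S = 0 ↔ ∀ u ∈ S, ¬ G.Adj v u := by
  simp [dg, eq_empty_iff_forall_notMem]

theorem exists_adj_of_dg_pos {v : V} {S : Finset V} (h : 0 < dg G v S) :
    ∃ u ∈ S, G.Adj v u := by
  obtain ⟨u, hu⟩ := card_pos.1 h; exact ⟨u, mem_nb.1 hu⟩

@[simp] theorem dg_bot (v : V) (S : Finset V) : dg (⊥ : SimpleGraph V) v S = 0 := by
  simp [dg_eq_zero]

theorem dg_union_le (v : V) (S S' : Finset V) : dg G v (S ∪ S') ≤ dg G v S + dg G v S' := by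
  refine le_trans (card_le_card ?_) (card_union_le (nb G v S) (nb G v S'))
  intro u hu; simp only [mem_nb, mem_union] at hu ⊢; tauto

theorem dg_union (v : V) {S S' : Finset V} (h : Disjoint S S') :
    dg G v (S ∪ S') = dg G v S + dg G v S' := by
  unfold dg
  rw [← card_union_of_disjoint (h.mono (nb_subset v S) (nb_subset v S'))]
  congr 1; ext u; simp only [mem_nb, mem_union]; tauto

theorem dg_add_compl (v : V) (S : Finset V) : dg G v S + dg G v Sᶜ = dg G v univ := by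
  rw [← dg_union v disjoint_compl_right, union_compl]

theorem dg_sdiff_add (v : V) {S S' : Finset V} (h : S' ⊆ S) :
    dg G v (S \ S') + dg G v S' = dg G v S := by
  rw [← dg_union v sdiff_disjoint, sdiff_union_of_subset h]

/-- changing the set changes the degree by at most the number of lost vertices -/
theorem dg_le_add_sdiff (v : V) (S S' : Finset V) : dg G v S ≤ dg G v S' + (S \ S').card := by
  calc dg G v S ≤ dg G v (S' ∪ (S \ S')) := dg_mono_set v (by intro u; simp; tauto)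
    _ ≤ dg G v S' + dg G v (S \ S') := dg_union_le _ _ _
    _ ≤ _ := by have := dg_le_card (G := G) v (S \ S'); omega

theorem dg_sum_cls {κ : Type} [Fintype κ] [DecidableEq κ] (v : V) (S : Finset V) (f : V → κ) :
    ∑ p, dg G v (cls S f p) = dg G v S := by
  unfold dg; rw [← card_cls_sum (nb G v S) f]
  refine sum_congr rfl fun p _ => ?_
  congr 1; ext u; simp only [mem_nb, mem_cls]; tauto

theorem dg_cls_bool (v : V) (S : Finset V) (f : V → Bool) (b : Bool) :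
    dg G v (cls S f b) + dg G v (cls S f (!b)) = dg G v S := by
  have := dg_sum_cls (G := G) v S f
  cases b <;> simp at this ⊢ <;> omega

theorem dg_cls_eq {κ : Type} [DecidableEq κ] (v : V) (S : Finset V) (f : V → κ) (p : κ) :
    dg G v (cls S f p) = (cls (nb G v S) f p).card := by
  unfold dg; congr 1; ext u; simp only [mem_nb, mem_cls]; tauto

theorem dg_sup_le (v : V) (S : Finset V) : dg (G ⊔ G') v S ≤ dg G v S + dg G' v S := by
  refine le_trans (card_le_card ?_) (card_union_le (nb G v S) (nb G' v S))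
  intro u hu; simp only [mem_nb, mem_union, SimpleGraph.sup_adj] at hu ⊢; tauto

theorem disjoint_iff_adj : Disjoint G G' ↔ ∀ u v, G.Adj u v → ¬ G'.Adj u v := by
  rw [disjoint_iff_inf_le]
  exact ⟨fun h u v a b => h (show (G ⊓ G').Adj u v from ⟨a, b⟩), fun h u v k => h u v k.1 k.2⟩

theorem dg_sup (h : Disjoint G G') (v : V) (S : Finset V) :
    dg (G ⊔ G') v S = dg G v S + dg G' v S := by
  unfold dg
  rw [← card_union_of_disjoint (disjoint_left.2 fun u a b =>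
    disjoint_iff_adj.1 h v u (mem_nb.1 a).2 (mem_nb.1 b).2)]
  congr 1; ext u; simp only [mem_nb, mem_union, SimpleGraph.sup_adj]; tauto

theorem dg_sdiff_inf (v : V) (S : Finset V) :
    dg (G \ H) v S + dg (G ⊓ H) v S = dg G v S := by
  rw [← dg_sup (G := G \ H) (G' := G ⊓ H) (disjoint_iff_adj.2 fun u v a b => a.2 b.2)]
  refine dg_congr fun u => ?_
  simp only [SimpleGraph.sup_adj, SimpleGraph.sdiff_adj, SimpleGraph.inf_adj]
  tauto

theorem dg_sdiffG_add (h : H ≤ G) (v : V) (S : Finset V) :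
    dg (G \ H) v S + dg H v S = dg G v S := by
  rw [← dg_sdiff_inf (G := G) (H := H), inf_eq_right.2 h]

theorem dg_le_sdiffG_add (v : V) (S : Finset V) : dg G v S ≤ dg (G \ H) v S + dg H v S := by
  have := dg_sdiff_inf (G := G) (H := H) v S
  have := dg_mono (inf_le_right : G ⊓ H ≤ H) v S
  omega

theorem sum_dg_comm (S W : Finset V) : ∑ v ∈ S, dg G v W = ∑ w ∈ W, dg G w S := by
  classical
  simp only [dg, nb, card_filter]
  rw [sum_comm]
  exact sum_congr rfl fun w _ => sum_congr rfl fun v _ => by simp [G.adj_comm]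

open Classical in
/-- the edges of `G`, each with one orientation -/
noncomputable def oe (G : SimpleGraph V) : Finset (V × V) :=
  univ.filter (fun p => G.Adj p.1 p.2 ∧ Fintype.equivFin V p.1 < Fintype.equivFin V p.2)

theorem mem_oe {p : V × V} :
    p ∈ oe G ↔ G.Adj p.1 p.2 ∧ Fintype.equivFin V p.1 < Fintype.equivFin V p.2 := by simp [oe]

theorem oe_or {u v : V} (h : G.Adj u v) : (u, v) ∈ oe G ∨ (v, u) ∈ oe G := by
  simp only [mem_oe, h, h.symm, true_and]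
  exact lt_or_gt_of_ne fun k => h.ne ((Fintype.equivFin V).injective k)

theorem oe_not_both {u v : V} (h : (u, v) ∈ oe G) : (v, u) ∉ oe G := fun k =>
  lt_asymm (mem_oe.1 h).2 (mem_oe.1 k).2

/-- the number of oriented edges at a vertex -/
theorem card_oe_at (v : V) :
    ((oe G).filter (fun p => p.1 = v ∨ p.2 = v)).card = dg G v univ := by
  symm
  refine card_bij (fun u _ => if (v, u) ∈ oe G then (v, u) else (u, v)) ?_ ?_ ?_
  · intro u hu
    have := oe_or (mem_nb.1 hu).2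
    by_cases k : (v, u) ∈ oe G <;> simp_all
  · intro a ha b hb k
    have := (mem_nb.1 ha).2.ne
    have := (mem_nb.1 hb).2.ne
    by_cases k1 : (v, a) ∈ oe G <;> by_cases k2 : (v, b) ∈ oe G <;> simp_all
  · rintro ⟨a, b⟩ hp
    obtain ⟨h1, h2 | h2⟩ := mem_filter.1 hp
    · obtain rfl : a = v := h2
      exact ⟨b, mem_nb.2 ⟨mem_univ _, (mem_oe.1 h1).1⟩, by simp [h1]⟩
    · obtain rfl : b = v := h2
      exact ⟨a, mem_nb.2 ⟨mem_univ _, (mem_oe.1 h1).1.symm⟩, by simp [oe_not_both h1]⟩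

theorem sum_dg_mul (w : V → ℕ) :
    ∑ v, dg G v univ * w v = ∑ p ∈ oe G, (w p.1 + w p.2) := by
  simp only [← card_oe_at, card_filter, sum_mul]
  rw [sum_comm]
  refine sum_congr rfl fun p hp => ?_
  have hne : p.1 ≠ p.2 := (mem_oe.1 hp).1.ne
  have : ∀ v, (if p.1 = v ∨ p.2 = v then 1 else 0) * w v =
      (if p.1 = v then w v else 0) + (if p.2 = v then w v else 0) := by
    intro v
    by_cases a : p.1 = v <;> by_cases b : p.2 = v <;> simp_all
  simp [this, sum_add_distrib]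

theorem sum_dg_eq_oe : ∑ v, dg G v univ = 2 * (oe G).card := by
  simpa [mul_comm] using sum_dg_mul (G := G) (fun _ => 1)

/-- the edges of `G` whose ends satisfy a symmetric relation -/
def sub (G : SimpleGraph V) (r : V → V → Prop) : SimpleGraph V where
  Adj u v := G.Adj u v ∧ r u v ∧ r v u
  symm := ⟨fun _ _ h => ⟨h.1.symm, h.2.symm⟩⟩
  loopless := ⟨fun _ h => h.1.ne rfl⟩

@[simp] theorem sub_adj {r : V → V → Prop} {u v : V} :
    (sub G r).Adj u v ↔ G.Adj u v ∧ r u v ∧ r v u := Iff.rfl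

theorem sub_le (r : V → V → Prop) : sub G r ≤ G := fun _ _ h => h.1

theorem even_sum_dg (S : Finset V) : Even (∑ v ∈ S, dg G v S) := by
  have h := sum_dg_eq_oe (G := sub G (fun u _ => u ∈ S))
  rw [← sum_subset (f := fun v => dg (sub G (fun u _ => u ∈ S)) v univ) (subset_univ S)
    (fun v _ hv => dg_eq_zero.2 fun u _ k => hv k.2.1)] at h
  rw [sum_congr rfl (g := fun v => dg (sub G (fun u _ => u ∈ S)) v univ)
    (fun v hv => dg_congr fun u => by simp [hv, and_comm]), h]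
  exact even_two_mul _

/-- the graph of a set of pairs -/
def ofP (E : Finset (V × V)) : SimpleGraph V where
  Adj u v := u ≠ v ∧ ((u, v) ∈ E ∨ (v, u) ∈ E)
  symm := ⟨fun _ _ h => ⟨h.1.symm, h.2.symm⟩⟩
  loopless := ⟨fun _ h => h.1 rfl⟩

theorem ofP_le {E : Finset (V × V)} (h : E ⊆ oe G) : ofP E ≤ G := fun _ _ k =>
  k.2.elim (fun a => (mem_oe.1 (h a)).1) (fun a => (mem_oe.1 (h a)).1.symm)

theorem oe_ofP {E : Finset (V × V)} (h : E ⊆ oe G) : oe (ofP E) = E := by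
  ext ⟨a, b⟩
  rw [mem_oe]
  constructor
  · rintro ⟨⟨_, k | k⟩, l⟩
    · exact k
    · exact absurd l (lt_asymm (mem_oe.1 (h k)).2)
  · exact fun k => ⟨⟨(mem_oe.1 (h k)).1.ne, Or.inl k⟩, (mem_oe.1 (h k)).2⟩

/-- a subgraph with a prescribed number of edges -/
theorem exists_sub_edges {c : ℕ} (h : 2 * c ≤ ∑ v, dg G v univ) :
    ∃ H ≤ G, ∑ v, dg H v univ = 2 * c := by
  rw [sum_dg_eq_oe] at h
  obtain ⟨E, hE, hc⟩ := exists_subset_card_eq (show c ≤ (oe G).card by omega)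
  exact ⟨ofP E, ofP_le hE, by rw [sum_dg_eq_oe, oe_ofP hE, hc]⟩

/-- if every edge has exactly one end in `S`, the degrees in `S` add up to half the total -/
theorem two_mul_sum_dg {S : Finset V} (h : ∀ u v, G.Adj u v → (u ∈ S ↔ v ∉ S)) :
    2 * ∑ v ∈ S, dg G v univ = ∑ v, dg G v univ := by
  have h1 : ∑ v ∈ S, dg G v univ = ∑ v ∈ S, dg G v Sᶜ :=
    sum_congr rfl fun v hv => dg_congr fun u => by
      simp only [mem_univ, true_and, mem_compl]
      exact ⟨fun k => ⟨(h v u k).1 hv, k⟩, fun k => k.2⟩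
  have h2 : ∑ v ∈ Sᶜ, dg G v univ = ∑ v ∈ Sᶜ, dg G v S :=
    sum_congr rfl fun v hv => dg_congr fun u => by
      simp only [mem_univ, true_and]
      exact ⟨fun k => ⟨(h u v k.symm).2 (mem_compl.1 hv), k⟩, fun k => k.2⟩
  rw [← sum_add_sum_compl S, h2, ← sum_dg_comm S Sᶜ, ← h1]; ring

/-! ### edges that leave a set -/

theorem mu_compl (S : Finset V) (v : V) : mu G Sᶜ v = mu G S v := by
  by_cases h : v ∈ S <;> simp [mu, h]

theorem out_compl (S : Finset V) : out G Sᶜ = out G S := by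
  simp [out, sum_dg_comm Sᶜ S]

theorem mu_le_dg (S : Finset V) (v : V) : mu G S v ≤ dg G v univ := by
  unfold mu; split_ifs <;> exact dg_le_univ _ _

theorem mu_mono (h : G ≤ G') (S : Finset V) (v : V) : mu G S v ≤ mu G' S v := by
  unfold mu; split_ifs <;> exact dg_mono h _ _

theorem mu_le_out (S : Finset V) (v : V) : mu G S v ≤ out G S := by
  by_cases h : v ∈ S
  · rw [mu, if_pos h]; exact single_le_sum (f := fun v => dg G v Sᶜ) (fun _ _ => Nat.zero_le _) h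
  · rw [mu, if_neg h, out, sum_dg_comm]
    exact single_le_sum (f := fun v => dg G v S) (fun _ _ => Nat.zero_le _) (mem_compl.2 h)

/-- the graph of the edges with exactly one end in `S` -/
def cutG (G : SimpleGraph V) (S : Finset V) : SimpleGraph V := sub G (fun u v => u ∈ S ↔ v ∉ S)

theorem cutG_adj {S : Finset V} {u v : V} :
    (cutG G S).Adj u v ↔ G.Adj u v ∧ (u ∈ S ↔ v ∉ S) := by
  simp only [cutG, sub_adj]; tauto

theorem dg_cutG (S : Finset V) (v : V) : dg (cutG G S) v univ = mu G S v := by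
  unfold mu
  split_ifs with h <;> exact dg_congr fun u => by simp [cutG_adj, h, and_comm]

theorem sum_mu (S : Finset V) : ∑ v, mu G S v = 2 * out G S := by
  simp only [← dg_cutG]
  rw [← two_mul_sum_dg (S := S) fun u v k => (cutG_adj.1 k).2]
  congr 1; exact sum_congr rfl fun v hv => by rw [dg_cutG, mu, if_pos hv]

theorem out_add_sum (S : Finset V) : out G S + ∑ v ∈ S, dg G v S = ∑ v ∈ S, dg G v univ := by
  rw [out, ← sum_add_distrib]
  exact sum_congr rfl fun v _ => by rw [add_comm, dg_add_compl]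

theorem out_mod_two (S : Finset V) : out G S % 2 = (∑ v ∈ S, dg G v univ) % 2 := by
  obtain ⟨c, hc⟩ := even_sum_dg (G := G) S
  have := out_add_sum (G := G) S
  omega

theorem Pad.out_add {R S : Finset V} {Δ : ℕ} (h : Pad G R Δ) (hS : S ⊆ R) :
    out G S + ∑ v ∈ S, dg G v S = Δ * S.card := by
  rw [out_add_sum, sum_congr rfl fun v hv => h.full v (hS hv)]; simp [mul_comm]

theorem Pad.out_mod {R S : Finset V} {Δ : ℕ} (h : Pad G R Δ) (hS : S ⊆ R) :
    out G S % 2 = (Δ * S.card) % 2 := by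
  obtain ⟨c, hc⟩ := even_sum_dg (G := G) S
  have := h.out_add hS
  omega

theorem le_out_of_odd {R S : Finset V} {Δ : ℕ} (h : Pad G R Δ) (hn : NoOv G R Δ) (hS : S ⊆ R)
    (ho : Odd S.card) : Δ ≤ out G S := by
  have := h.out_add hS
  have := hn S hS ho
  omega

theorem sum_dg_insert {S : Finset V} {v : V} (hv : v ∉ S) :
    ∑ u ∈ insert v S, dg G u (insert v S) = ∑ u ∈ S, dg G u S + 2 * dg G v S := by
  have hd : Disjoint ({v} : Finset V) S := by simpa using hv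
  have h0 : dg G v {v} = 0 := dg_eq_zero.2 (by simp)
  have h1 : ∑ u ∈ S, dg G u {v} = dg G v S := by rw [sum_dg_comm]; simp
  rw [sum_insert hv]
  simp only [insert_eq v S, dg_union _ hd, sum_add_distrib, h0, h1]; ring

theorem two_mu_le_out {R S : Finset V} {Δ : ℕ} (h : Pad G R Δ) (hn : NoOv G R Δ) (hS : S ⊆ R)
    (he : Even S.card) (v : V) : 2 * mu G S v ≤ out G S := by
  have h1 := h.out_add hS
  by_cases hR : v ∈ R
  · by_cases hv : v ∈ S
    · have h2 := hn (S.erase v) ((erase_subset _ _).trans hS) (by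
        rw [card_erase_of_mem hv]
        exact Nat.Even.sub_odd (card_pos.2 ⟨v, hv⟩) he odd_one)
      have h3 := sum_dg_insert (G := G) (notMem_erase v S)
      rw [insert_erase hv] at h3
      have h4 : dg G v (S.erase v) = dg G v S :=
        dg_congr fun u => by
          simp only [mem_erase]
          exact ⟨fun k => ⟨k.1.2, k.2⟩, fun k => ⟨⟨k.2.ne.symm, k.1⟩, k.2⟩⟩
      have h5 := dg_add_compl (G := G) v S
      have h6 : Δ * S.card = Δ * (S.erase v).card + Δ := by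
        rw [← card_erase_add_one hv]; ring
      rw [h.full v hR] at h5
      rw [mu, if_pos hv]; omega
    · have h2 := hn (insert v S) (insert_subset hR hS) (by
        rw [card_insert_of_notMem hv]; exact he.add_one)
      rw [sum_dg_insert hv, card_insert_of_notMem hv, mul_add] at h2
      rw [mu, if_neg hv]; omega
  · have h2 := (mu_le_dg (G := G) S v).trans (h.pend v hR)
    have h3 := mu_le_out (G := G) S v
    have h4 := h.out_mod hS
    obtain ⟨c, hc⟩ := he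
    have : Δ * S.card = 2 * (Δ * c) := by rw [hc]; ring
    omega

theorem NoOv.mono {R : Finset V} {Δ : ℕ} (h : NoOv G R Δ) (k : G' ≤ G) : NoOv G' R Δ :=
  fun S hS ho => le_trans (Nat.add_le_add_right (sum_le_sum fun v _ => dg_mono k v S) _)
    (h S hS ho)

end Pool.Agent.MP_5c8b6d_co

end

section

/-! Basic lemmas on involutions and colourings. -/

namespace Pool.Agent.MP_5c8b6d_co

open Finset

set_option linter.unusedSectionVars false

variable {V ι ι' : Type} [Fintype V] [DecidableEq V] {G G' H : SimpleGraph V}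

/-! ### involutions -/

theorem even_card_of_inv {μ : V → V} {S : Finset V} (h : ∀ v ∈ S, μ (μ v) = v)
    (hS : ∀ v ∈ S, μ v ∈ S ∧ μ v ≠ v) : Even S.card := by
  have := sum_involution (s := S) (f := fun _ => (1 : ZMod 2)) (fun v _ => μ v)
    (fun _ _ => by decide) (fun v hv _ => (hS v hv).2) (fun v hv => (hS v hv).1) h
  rw [sum_const, nsmul_one] at this
  exact (ZMod.natCast_eq_zero_iff_even).1 this

theorem inv_inj {μ : V → V} (h : ∀ v, μ (μ v) = v) : Function.Injective μ :=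
  fun a b k => by rw [← h a, k, h]

theorem inv_ne {μ : V → V} (h : ∀ v, μ (μ v) = v) {v : V} (hv : μ v ≠ v) : μ (μ v) ≠ μ v :=
  fun k => hv (inv_inj h k)

theorem even_card_mv {μ : V → V} (h : ∀ v, μ (μ v) = v) : Even (mv μ).card :=
  even_card_of_inv (fun v _ => h v) fun _ hv => ⟨mem_mv.2 (inv_ne h (mem_mv.1 hv)), mem_mv.1 hv⟩

/-- two sets that are exchanged by an involution have the same size -/
theorem card_eq_of_inv {μ : V → V} (h : ∀ v, μ (μ v) = v) {A B : Finset V}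
    (hA : ∀ v ∈ A, μ v ∈ B) (hB : ∀ v ∈ B, μ v ∈ A) : A.card = B.card :=
  card_bij (fun v _ => μ v) hA (fun _ _ _ _ k => inv_inj h k)
    (fun b hb => ⟨μ b, hB b hb, h b⟩)

theorem card_side_eq {μ : V → V} (h : ∀ v, μ (μ v) = v) {S : Finset V} {σ : V → Bool}
    (hS : ∀ v ∈ S, μ v ∈ S ∧ σ (μ v) ≠ σ v) : (cls S σ true).card = (cls S σ false).card := by
  refine card_eq_of_inv h (fun v hv => ?_) (fun v hv => ?_) <;>
    obtain ⟨h1, h2⟩ := mem_cls.1 hv <;> have := hS v h1 <;> simp_all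

theorem card_image_inv {μ : V → V} (h : ∀ v, μ (μ v) = v) (S : Finset V) :
    (S.image μ).card = S.card := card_image_of_injective _ (inv_inj h)

theorem mem_image_inv {μ : V → V} (h : ∀ v, μ (μ v) = v) {S : Finset V} {v : V} :
    v ∈ S.image μ ↔ μ v ∈ S :=
  ⟨fun k => by obtain ⟨a, ha, rfl⟩ := mem_image.1 k; rwa [h], fun k => mem_image.2 ⟨_, k, h v⟩⟩

theorem mv_swap {u v : V} (h : u ≠ v) : mv (Equiv.swap u v) = {u, v} := by
  ext x
  simp only [mem_mv, Equiv.swap_apply_def, mem_insert, mem_singleton]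
  split_ifs <;> simp_all [eq_comm]

/-- the union of two involutions with disjoint supports -/
def glue (μ ν : V → V) (v : V) : V := if μ v ≠ v then μ v else ν v

theorem glue_left {μ ν : V → V} {v : V} (h : μ v ≠ v) : glue μ ν v = μ v := if_pos h

theorem glue_right {μ ν : V → V} {v : V} (h : μ v = v) : glue μ ν v = ν v := if_neg (by simp [h])

theorem mv_glue (μ ν : V → V) : mv (glue μ ν) = mv μ ∪ mv ν := by
  ext v; by_cases h : μ v = v <;> simp [glue, h]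

theorem glue_right' {μ ν : V → V} (hd : Disjoint (mv μ) (mv ν)) {v : V} (h : ν v ≠ v) :
    glue μ ν v = ν v :=
  glue_right (by by_contra k; exact disjoint_left.1 hd (mem_mv.2 k) (mem_mv.2 h))

theorem glue_inv {μ ν : V → V} (hμ : ∀ v, μ (μ v) = v) (hν : ∀ v, ν (ν v) = v)
    (hd : Disjoint (mv μ) (mv ν)) (v : V) : glue μ ν (glue μ ν v) = v := by
  by_cases h : μ v = v
  · rw [glue_right h]
    by_cases k : ν v = v
    · rw [k, glue_right h, k]
    · rw [glue_right' hd (inv_ne hν k), hν]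
  · rw [glue_left h, glue_left (inv_ne hμ h), hμ]

/-- the involution of an injective map between disjoint sets -/
theorem exists_inv_of_injOn {A : Finset V} {f : V → V} (hf : Set.InjOn f A)
    (hd : ∀ a ∈ A, f a ∉ A) : ∃ μ : V → V, (∀ v, μ (μ v) = v) ∧ (∀ a ∈ A, μ a = f a) ∧
      mv μ = A ∪ A.image f := by
  classical
  let μ : V → V := fun v => if v ∈ A then f v else if h : ∃ a ∈ A, f a = v then h.choose else v
  have h1 : ∀ a ∈ A, μ a = f a := fun a ha => if_pos ha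
  have h2 : ∀ a ∈ A, μ (f a) = a := fun a ha => by
    have he : ∃ a' ∈ A, f a' = f a := ⟨a, ha, rfl⟩
    simp only [μ, if_neg (hd a ha), dif_pos he]
    exact hf he.choose_spec.1 ha he.choose_spec.2
  have h3 : ∀ v, v ∉ A → (¬ ∃ a ∈ A, f a = v) → μ v = v := fun v a b => by
    simp only [μ, if_neg a, dif_neg b]
  refine ⟨μ, fun v => ?_, h1, ?_⟩
  · by_cases a : v ∈ A
    · rw [h1 v a, h2 v a]
    · by_cases b : ∃ a ∈ A, f a = v
      · obtain ⟨x, hx, rfl⟩ := b; rw [h2 x hx, h1 x hx]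
      · rw [h3 v a b, h3 v a b]
  · ext v
    simp only [mem_mv, mem_union, mem_image]
    by_cases a : v ∈ A
    · simp only [a, true_or, iff_true, h1 v a]; exact fun k => hd v a (k.symm ▸ a)
    · by_cases b : ∃ a ∈ A, f a = v
      · obtain ⟨x, hx, rfl⟩ := b
        rw [h2 x hx]
        exact ⟨fun _ => Or.inr ⟨x, hx, rfl⟩, fun _ k => a (k ▸ hx)⟩
      · simp [a, b, h3 v a b]

/-! ### colourings -/

variable {M M' : ι → V → V}

theorem cg_adj (h : ∀ i v, M i (M i v) = v) {u v : V} :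
    (cg M).Adj u v ↔ u ≠ v ∧ ∃ i, M i u = v :=
  and_congr_right fun _ => ⟨fun ⟨i, k⟩ => ⟨i, k.1⟩, fun ⟨i, k⟩ => ⟨i, k, by rw [← k, h]⟩⟩

theorem PC.cg_of (h : PC G M) {i : ι} {v : V} (k : M i v ≠ v) : (cg M).Adj v (M i v) :=
  (cg_adj h.inv).2 ⟨k.symm, i, rfl⟩

theorem PC.cg_le (h : PC G M) : cg M ≤ G := fun u v k => by
  obtain ⟨k1, i, rfl⟩ := (cg_adj h.inv).1 k
  exact h.adj i u k1.symm

theorem PC.of_le (h : PC G M) (k : cg M ≤ G') : PC G' M :=
  ⟨h.inv, fun _ _ a => k (h.cg_of a), h.uniq⟩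

theorem PC.mono (h : PC G M) (k : G ≤ G') : PC G' M := h.of_le (h.cg_le.trans k)

theorem PC.self (h : PC G M) : PC (cg M) M := h.of_le le_rfl

theorem PC.full_iff (h : PC G M) : Full H M ↔ H ≤ cg M :=
  ⟨fun k u v a => (cg_adj h.inv).2 ⟨a.ne, k u v a⟩, fun k _ _ a => ((cg_adj h.inv).1 (k a)).2⟩

theorem PC.cg_eq (h : PC G M) (k : Full G M) : cg M = G := le_antisymm h.cg_le (h.full_iff.1 k)

theorem Ext.cg_le (h : Ext M M') : cg M ≤ cg M' := fun u v ⟨a, i, b, c⟩ =>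
  ⟨a, i, by rw [h i u (by rw [b]; exact a.symm), b], by rw [h i v (by rw [c]; exact a), c]⟩

theorem Ext.trans {M'' : ι → V → V} (h : Ext M M') (k : Ext M' M'') : Ext M M'' :=
  fun i v a => by rw [k i v (by rw [h i v a]; exact a), h i v a]

theorem Ext.mv_subset (h : Ext M M') (i : ι) : mv (M i) ⊆ mv (M' i) := fun v a =>
  mem_mv.2 (by rw [h i v (mem_mv.1 a)]; exact mem_mv.1 a)

theorem pc_id : PC G (fun (_ : ι) (v : V) => v) :=
  ⟨fun _ _ => rfl, fun _ _ h => absurd rfl h, fun _ _ _ h => absurd rfl h⟩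

theorem cg_id : cg (fun (_ : ι) (v : V) => v) = ⊥ := by
  ext u v; simp only [cg, SimpleGraph.bot_adj, iff_false]; rintro ⟨a, _, b, _⟩; exact a b

theorem PC.comp (h : PC G M) {e : ι' → ι} (he : Function.Injective e) :
    PC G (fun j => M (e j)) :=
  ⟨fun j => h.inv (e j), fun j => h.adj (e j), fun _ _ v a b => he (h.uniq _ _ v a b)⟩

theorem cg_comp_equiv (e : ι' ≃ ι) : cg (fun j => M (e j)) = cg M := by
  ext u v
  exact and_congr_right fun _ => ⟨fun ⟨j, k⟩ => ⟨e j, k⟩, fun ⟨i, k⟩ => ⟨e.symm i, by simpa using k⟩⟩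

theorem PC.sum {N : ι' → V → V} (h : PC G M) (k : PC G N) (hd : Disjoint (cg M) (cg N)) :
    PC G (Sum.elim M N) := by
  have := disjoint_iff_adj.1 hd
  refine ⟨?_, ?_, ?_⟩
  · rintro (i | i) v; exacts [h.inv i v, k.inv i v]
  · rintro (i | i) v; exacts [h.adj i v, k.adj i v]
  · rintro (i | i) (j | j) v a b <;> simp only [Sum.elim_inl, Sum.elim_inr] at a b
    · rw [h.uniq i j v a b]
    · exact absurd (b ▸ k.cg_of (b ▸ a)) (this _ _ (h.cg_of a))
    · exact absurd (k.cg_of a) (this _ _ (b ▸ h.cg_of (b ▸ a)))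
    · rw [k.uniq i j v a b]

theorem cg_sum (M : ι → V → V) (N : ι' → V → V) : cg (Sum.elim M N) = cg M ⊔ cg N := by
  ext u v
  simp only [cg, SimpleGraph.sup_adj, Sum.exists, Sum.elim_inl, Sum.elim_inr, and_or_left]

theorem PC.glue (h : PC G M) (k : PC G M') (hd : Disjoint (cg M) (cg M'))
    (hs : ∀ i, Disjoint (mv (M i)) (mv (M' i))) : PC G (fun i => glue (M i) (M' i)) := by
  have := disjoint_iff_adj.1 hd
  refine ⟨fun i => glue_inv (h.inv i) (k.inv i) (hs i), fun i v a => ?_, fun i j v a b => ?_⟩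
  · by_cases c : M i v = v
    · rw [glue_right c] at a ⊢; exact k.adj i v a
    · rw [glue_left c]; exact h.adj i v c
  · by_cases c : M i v = v <;> by_cases d : M j v = v
    · rw [glue_right c] at a b; rw [glue_right d] at b; exact k.uniq i j v a b
    · rw [glue_right c] at a b; rw [glue_left d] at b
      exact absurd (k.cg_of a) (this _ _ (b ▸ h.cg_of d))
    · rw [glue_left c] at a b; rw [glue_right d] at b
      exact absurd (b ▸ k.cg_of (b ▸ a)) (this _ _ (h.cg_of c))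
    · rw [glue_left c] at a b; rw [glue_left d] at b; exact h.uniq i j v a b

theorem cg_glue (hs : ∀ i, Disjoint (mv (M i)) (mv (M' i))) :
    cg (fun i => glue (M i) (M' i)) ≥ cg M ⊔ cg M' :=
  sup_le (Ext.cg_le fun _ _ a => glue_left a) (Ext.cg_le fun i _ a => glue_right' (hs i) a)

theorem cg_glue_le (h : ∀ i v, M i (M i v) = v) (k : ∀ i v, M' i (M' i v) = v) :
    cg (fun i => glue (M i) (M' i)) ≤ cg M ⊔ cg M' := by
  rintro u v ⟨a, i, b, -⟩
  by_cases c : M i u = u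
  · exact Or.inr ((cg_adj k).2 ⟨a, i, (glue_right c).symm.trans b⟩)
  · exact Or.inl ((cg_adj h).2 ⟨a, i, (glue_left c).symm.trans b⟩)

variable [Fintype ι] [DecidableEq ι]

theorem PC.dg_cg' (h : PC G M) (v : V) (S : Finset V) :
    dg (cg M) v S = (univ.filter (fun i => M i v ≠ v ∧ M i v ∈ S)).card := by
  symm
  refine card_bij (fun i _ => M i v) ?_ ?_ ?_
  · intro i hi
    have := (mem_filter.1 hi).2
    exact mem_nb.2 ⟨this.2, h.cg_of this.1⟩
  · intro i hi j _ k; exact h.uniq i j v (mem_filter.1 hi).2.1 k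
  · intro u hu
    obtain ⟨a, i, rfl⟩ := (cg_adj h.inv).1 (mem_nb.1 hu).2
    exact ⟨i, mem_filter.2 ⟨mem_univ _, a.symm, (mem_nb.1 hu).1⟩, rfl⟩

theorem PC.dg_cg (h : PC G M) (v : V) :
    dg (cg M) v univ = (univ.filter (fun i => M i v ≠ v)).card := by
  simpa using h.dg_cg' v univ

/-- colours seen and colours missed at a vertex -/
theorem PC.dg_add_miss (h : PC G M) (v : V) :
    dg (cg M) v univ + (univ.filter (fun i => M i v = v)).card = Fintype.card ι := by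
  rw [h.dg_cg, add_comm]; exact card_filter_add_card_filter_not (s := univ) (fun i => M i v = v)

theorem sum_card_eq_ld (Y : ι → Finset V) (S : Finset V) :
    ∑ i, (Y i ∩ S).card = ∑ v ∈ S, ld Y v := by
  have : ∀ i, (Y i ∩ S).card = ∑ v ∈ S, if v ∈ Y i then 1 else 0 := fun i => by
    rw [← card_filter, inter_comm, filter_mem_eq_inter]
  simp only [this, ld, card_filter]; exact sum_comm

theorem PC.ld_mv (h : PC G M) (v : V) : ld (fun i => mv (M i)) v = dg (cg M) v univ := by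
  simp [ld, h.dg_cg]

theorem PC.sum_mv (h : PC G M) (S : Finset V) :
    ∑ i, (mv (M i) ∩ S).card = ∑ v ∈ S, dg (cg M) v univ := by
  rw [sum_card_eq_ld]; simp only [h.ld_mv]

theorem sum_mv_w (M : ι → V → V) (I : Finset ι) (w : V → ℕ) :
    ∑ i ∈ I, ∑ v ∈ mv (M i), w v = ∑ v, (I.filter (fun j => M j v ≠ v)).card * w v := by
  simp only [mv, sum_filter, card_filter, sum_mul]
  rw [sum_comm]; simp

theorem PC.sum_fx (h : PC G M) (S : Finset V) :
    ∑ i, (fx (M i) S).card + ∑ v ∈ S, dg (cg M) v univ = Fintype.card ι * S.card := by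
  rw [← h.sum_mv, ← sum_add_distrib]; simp [card_fx_add]

theorem PC.fr_ge (h : PC G M) (I : Finset ι) (u v : V) :
    I.card ≤ fr M I u v + dg (cg M) u univ + dg (cg M) v univ := by
  rw [h.dg_cg, h.dg_cg, fr]
  refine le_trans (card_le_card ?_) ((card_union_le _ _).trans
    (Nat.add_le_add_right (card_union_le _ _) _))
  intro i hi
  simp only [mem_union, mem_filter, mem_univ, true_and, hi]; tauto

/-- balanced families: every member is at most the average plus the spread -/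
theorem card_mul_le_of_bal {f : ι → ℕ} {c : ℕ} (h : ∀ i j, f i ≤ f j + c) (i : ι) :
    Fintype.card ι * f i ≤ ∑ j, f j + c * Fintype.card ι := by
  have := sum_le_sum (s := univ) fun j _ => h i j
  simpa [sum_add_distrib, mul_comm] using this

/-- new edges with both ends or no end in `S` keep the parity on `S` -/
theorem ext_parity {μ μ' : V → V} (h' : ∀ v, μ' (μ' v) = v) (h : ∀ v, μ (μ v) = v)
    (he : ∀ v, μ v ≠ v → μ' v = μ v) {S : Finset V}
    (hS : ∀ v ∈ S, μ' v ≠ v → μ v = v → μ' v ∈ S) :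
    (mv μ' ∩ S).card % 2 = (mv μ ∩ S).card % 2 := by
  have hsub : mv μ ∩ S ⊆ mv μ' ∩ S := fun v a => by
    simp only [mem_inter, mem_mv] at a ⊢; exact ⟨by rw [he v a.1]; exact a.1, a.2⟩
  have hev : Even ((mv μ' ∩ S) \ (mv μ ∩ S)).card := by
    refine even_card_of_inv (fun v _ => h' v) fun v hv => ?_
    simp only [mem_sdiff, mem_inter, mem_mv, not_and] at hv ⊢
    have a : μ v = v := by by_contra a; exact hv.2 a hv.1.2
    refine ⟨⟨⟨inv_ne h' hv.1.1, hS v hv.1.2 hv.1.1 a⟩, fun b => ?_⟩, hv.1.1⟩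
    have c := he _ b
    rw [h'] at c
    exact absurd (inv_inj h (a.trans c)).symm hv.1.1
  have := card_sdiff_add_card_eq_card hsub
  obtain ⟨c, hc⟩ := hev
  omega

theorem colR_of_card {R : Finset V} {k : ℕ} (h : PC G M) (hk : Fintype.card ι ≤ k)
    (hf : ∀ u ∈ R, ∀ v ∈ R, G.Adj u v → ∃ i, M i u = v) : ColR G R k := by
  obtain ⟨c, rfl⟩ := Nat.exists_eq_add_of_le hk
  let e : Fin (Fintype.card ι + c) ≃ ι ⊕ Fin c := (Fintype.equivFinOfCardEq (by simp)).symm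
  have := (h.sum (pc_id (ι := Fin c)) (by simp [cg_id])).comp e.injective
  refine ⟨_, this, fun u hu v hv a => ?_⟩
  obtain ⟨i, hi⟩ := hf u hu v hv a
  exact ⟨e.symm (Sum.inl i), by simpa using hi⟩

theorem colR_univ {k : ℕ} : ColR G univ k ↔ Col G k :=
  ⟨fun ⟨M, a, b⟩ => ⟨M, a, fun u v => b u (mem_univ _) v (mem_univ _)⟩,
    fun ⟨M, a, b⟩ => ⟨M, a, fun u _ v _ => b u v⟩⟩

theorem col_of_card {k : ℕ} (h : PC G M) (hf : Full G M) (hk : Fintype.card ι ≤ k) : Col G k :=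
  colR_univ.1 (colR_of_card h hk fun u _ v _ => hf u v)

/-- restriction of a colouring to a subgraph -/
theorem PC.restrict (h : PC G M) (H : SimpleGraph V) : ∃ N : ι → V → V, PC (G ⊓ H) N ∧
    Ext N M ∧ cg N = cg M ⊓ H := by
  classical
  let N : ι → V → V := fun i v => if H.Adj v (M i v) then M i v else v
  have h1 : ∀ i v, N i v ≠ v → H.Adj v (M i v) ∧ N i v = M i v := fun i v a => by
    by_cases b : H.Adj v (M i v) <;> simp_all [N]
  have h2 : ∀ i v, H.Adj v (M i v) → N i v = M i v := fun i v a => if_pos a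
  have h3 : ∀ i v, N i (N i v) = v := fun i v => by
    by_cases b : H.Adj v (M i v)
    · rw [h2 i v b, h2 i _ (by rw [h.inv]; exact b.symm), h.inv]
    · have : N i v = v := if_neg b
      rw [this, this]
  refine ⟨N, ⟨h3, fun i v a => ?_, fun i j v a b => ?_⟩, fun i v a => (h1 i v a).2.symm, ?_⟩
  · obtain ⟨b, c⟩ := h1 i v a
    rw [c] at a ⊢; exact ⟨h.adj i v a, b⟩
  · have c := (h1 j v (b ▸ a)).2
    have d := (h1 i v a).2
    exact h.uniq i j v (d ▸ a) (by rw [← c, ← d, b])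
  · ext u v
    rw [SimpleGraph.inf_adj, cg_adj h3, cg_adj h.inv]
    constructor
    · rintro ⟨a, i, rfl⟩
      obtain ⟨b, c⟩ := h1 i u a.symm
      exact ⟨⟨a, i, c.symm⟩, c ▸ b⟩
    · rintro ⟨⟨a, i, rfl⟩, b⟩; exact ⟨a, i, h2 i u b⟩

theorem Col.mono {k : ℕ} (h : Col G k) (l : G' ≤ G) : Col G' k := by
  obtain ⟨M, a, b⟩ := h
  obtain ⟨N, c, -, d⟩ := a.restrict G'
  exact ⟨N, c.mono inf_le_right, c.full_iff.2 (by rw [d, a.cg_eq b]; exact le_inf l le_rfl)⟩

/-- exchanging two colours on a set -/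
def swapK (M : ι → V → V) (α β : ι) (K : Finset V) (i : ι) (v : V) : V :=
  if v ∈ K then M (Equiv.swap α β i) v else M i v

theorem swapK_mem {α β : ι} {K : Finset V} {v : V} (h : v ∈ K) (i : ι) :
    swapK M α β K i v = M (Equiv.swap α β i) v := if_pos h

theorem swapK_not {α β : ι} {K : Finset V} {v : V} (h : v ∉ K) (i : ι) :
    swapK M α β K i v = M i v := if_neg h

theorem swapK_other {α β i : ι} (K : Finset V) (a : i ≠ α) (b : i ≠ β) :
    swapK M α β K i = M i := by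
  funext v; simp [swapK, Equiv.swap_apply_of_ne_of_ne a b]

theorem PC.swapK (h : PC G M) {α β : ι} {K : Finset V} (hK : ∀ v ∈ K, M α v ∈ K ∧ M β v ∈ K) :
    PC G (swapK M α β K) ∧ cg (swapK M α β K) = cg M := by
  have hc : ∀ i, i = α ∨ i = β → ∀ v, M i v ∈ K ↔ v ∈ K := by
    rintro i (rfl | rfl) v
    · exact ⟨fun a => by simpa [h.inv] using (hK _ a).1, fun a => (hK v a).1⟩
    · exact ⟨fun a => by simpa [h.inv] using (hK _ a).2, fun a => (hK v a).2⟩
  have hinv : ∀ i v, MP_5c8b6d_co.swapK M α β K i (MP_5c8b6d_co.swapK M α β K i v) = v := by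
    intro i v
    by_cases c : i = α ∨ i = β
    · have c' : Equiv.swap α β i = α ∨ Equiv.swap α β i = β := by
        rcases c with rfl | rfl <;> simp
      by_cases d : v ∈ K
      · rw [swapK_mem d, swapK_mem ((hc _ c' v).2 d), h.inv]
      · rw [swapK_not d, swapK_not (mt (hc _ c v).1 d), h.inv]
    · rw [swapK_other K (not_or.1 c).1 (not_or.1 c).2, h.inv]
  refine ⟨⟨hinv, fun i v a => ?_, fun i j v a b => ?_⟩, ?_⟩
  · by_cases d : v ∈ K
    · rw [swapK_mem d] at a ⊢; exact h.adj _ v a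
    · rw [swapK_not d] at a ⊢; exact h.adj _ v a
  · by_cases d : v ∈ K
    · simp only [swapK_mem d] at a b; exact (Equiv.swap α β).injective (h.uniq _ _ v a b)
    · simp only [swapK_not d] at a b; exact h.uniq _ _ v a b
  · ext u v
    rw [cg_adj hinv, cg_adj h.inv]
    refine and_congr_right fun _ => ?_
    by_cases d : u ∈ K
    · simp only [swapK_mem d]
      exact ⟨fun ⟨i, a⟩ => ⟨_, a⟩, fun ⟨i, a⟩ => ⟨Equiv.swap α β i, by simpa using a⟩⟩
    · simp only [swapK_not d]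

/-! ### the engine output -/

theorem Eng.reindex [Fintype ι'] {T : Finset V} {σ : V → Bool} {Y : ι → Finset V} (e : ι' ≃ ι)
    (h : Eng G T σ (fun j => Y (e j))) : Eng G T σ Y := by
  obtain ⟨M, a, b, c⟩ := h
  refine ⟨fun i => M (e.symm i), a.comp e.symm.injective, fun i => by simp [b], ?_⟩
  intro u hu v hv x y
  obtain ⟨j, hj⟩ := c u hu v hv x y
  exact ⟨e j, by simpa using hj⟩

theorem BalEq.reindex [Fintype ι'] {T : Finset V} {σ : V → Bool} {Y : ι → Finset V} (e : ι' ≃ ι)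
    (h : BalEq G T σ Y) : BalEq G T σ (fun j => Y (e j)) := by
  unfold BalEq at h ⊢
  rw [e.sum_comp (fun i => (cls (T \ Y i) σ true).card),
    e.sum_comp (fun i => (cls (T \ Y i) σ false).card)]
  exact h

theorem ld_reindex [Fintype ι'] (Y : ι → Finset V) (e : ι' ≃ ι) (v : V) :
    ld (fun j => Y (e j)) v = ld Y v :=
  card_bij (fun j _ => e j) (by simp) (fun _ _ _ _ k => e.injective k)
    (fun i hi => ⟨e.symm i, by simpa using hi, by simp⟩)

theorem ld_comp_le [Fintype ι'] (Y : ι → Finset V) {e : ι' → ι} (he : Function.Injective e)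
    (v : V) : ld (fun j => Y (e j)) v ≤ ld Y v :=
  card_le_card_of_injOn e (fun j hj => by simpa using hj) he.injOn

theorem Eng.union {T T' : Finset V} {σ : V → Bool} {Y : ι → Finset V} (h : Eng G T σ Y)
    (k : Eng G T' σ Y) (hd : Disjoint T T') (hn : ∀ u ∈ T, ∀ v ∈ T', ¬ G.Adj u v) :
    Eng G (T ∪ T') σ Y := by
  obtain ⟨M, a, b, c⟩ := h
  obtain ⟨M', a', b', c'⟩ := k
  have hs : ∀ i, Disjoint (mv (M i)) (mv (M' i)) := fun i => by
    rw [b, b']; exact hd.mono sdiff_subset sdiff_subset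
  have hg : Disjoint (cg M) (cg M') := disjoint_iff_adj.2 fun u v ⟨x, i, y, _⟩ ⟨_, j, z, _⟩ =>
    disjoint_left.1 hd (mem_sdiff.1 (b i ▸ mem_mv.2 (y ▸ x.symm))).1
      (mem_sdiff.1 (b' j ▸ mem_mv.2 (z ▸ x.symm))).1
  refine ⟨_, a.glue a' hg hs, fun i => by rw [mv_glue, b, b', union_sdiff_distrib], ?_⟩
  intro u hu v hv x y
  rcases mem_union.1 hu with hu | hu <;> rcases mem_union.1 hv with hv | hv
  · obtain ⟨i, hi⟩ := c u hu v hv x y
    exact ⟨i, by rw [glue_left (hi ▸ x.ne.symm), hi]⟩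
  · exact absurd x (hn u hu v hv)
  · exact absurd x.symm (hn v hv u hu)
  · obtain ⟨i, hi⟩ := c' u hu v hv x y
    exact ⟨i, by rw [glue_right' (hs i) (hi ▸ x.ne.symm), hi]⟩

end Pool.Agent.MP_5c8b6d_co

end

section

/-! Alternating paths, matchings between large sets, partitions and parameters. -/

namespace Pool.Agent.MP_5c8b6d_co

open Finset

set_option linter.unusedSectionVars false

variable {V : Type} [Fintype V] [DecidableEq V] {G G' : SimpleGraph V}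

/-! ### alternating paths -/

/-- match `a` with `b` and free the old partner of `b` -/
def sw (μ : V → V) (a b v : V) : V :=
  if v = a then b else if v = b then a else if v = μ b then v else μ v

theorem sw_inv {μ : V → V} (h : ∀ v, μ (μ v) = v) {a b : V} (ha : μ a = a) (hb : b ≠ a) (v : V) :
    sw μ a b (sw μ a b v) = v := by
  have hi := inv_inj h
  have h1 : μ b ≠ a := fun k => hb (hi (k.trans ha.symm))
  by_cases c1 : v = a
  · simp [sw, c1, hb]
  by_cases c2 : v = b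
  · simp [sw, c2, hb]
  by_cases c3 : v = μ b
  · have : sw μ a b v = v := by simp only [sw, if_neg c1, if_neg c2, if_pos c3]
    rw [this, this]
  have d1 : μ v ≠ a := fun k => c1 (hi (k.trans ha.symm))
  have d2 : μ v ≠ b := fun k => c3 (by rw [← k, h])
  have d3 : μ v ≠ μ b := fun k => c2 (hi k)
  simp only [sw, if_neg c1, if_neg c2, if_neg c3, if_neg d1, if_neg d2, if_neg d3, h]

/-- an alternating path with vertex set `W` whose last vertex `f` is free -/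
structure Alt (R : V → V → Prop) (μ : V → V) (W : Finset V) (ν : V → V) (f : V) : Prop where
  inv : ∀ v, ν (ν v) = v
  free : ν f = f
  mem : f ∈ W
  out : ∀ v, v ∉ W → ν v = μ v
  cl : ∀ v ∈ W, μ v ∈ W
  new : ∀ v ∈ W, v ≠ f → ν v ≠ v ∧ R v (ν v)

variable {R : V → V → Prop} {μ ν : V → V} {W : Finset V} {f : V}

theorem Alt.start (R : V → V → Prop) (h : ∀ v, μ (μ v) = v) {a : V} (ha : μ a = a) :
    Alt R μ {a} μ a :=
  ⟨h, ha, by simp, fun _ _ => rfl, by simp [ha], by simp⟩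

theorem Alt.not_mem (A : Alt R μ W ν f) (h : ∀ v, μ (μ v) = v) {b : V} (hb : b ∉ W) :
    μ b ∉ W := fun k => hb (h b ▸ A.cl _ k)

theorem Alt.sw_old (A : Alt R μ W ν f) (h : ∀ v, μ (μ v) = v) {b v : V} (hb : b ∉ W)
    (hv : v ∈ W) (hf : v ≠ f) : sw ν f b v = ν v := by
  have c2 : v ≠ b := fun k => hb (k ▸ hv)
  have c3 : v ≠ ν b := fun k => A.not_mem h hb (by rw [← A.out b hb, ← k]; exact hv)
  simp only [sw, if_neg hf, if_neg c2, if_neg c3]

theorem Alt.step (A : Alt R μ W ν f) (h : ∀ v, μ (μ v) = v) (hs : ∀ u v, R u v → R v u) {b : V}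
    (hr : R f b) (hb : b ∉ W) (hm : μ b ≠ b) :
    Alt R μ (insert b (insert (μ b) W)) (sw ν f b) (μ b) := by
  have hbf : b ≠ f := fun k => hb (k ▸ A.mem)
  have hmf : μ b ≠ f := fun k => A.not_mem h hb (k ▸ A.mem)
  refine ⟨sw_inv A.inv A.free hbf, ?_, by simp, fun v hv => ?_, fun v hv => ?_, fun v hv k => ?_⟩
  · simp only [sw, if_neg hmf, if_neg hm, A.out b hb, if_true]
  · simp only [mem_insert, not_or] at hv
    have : v ≠ f := fun k => hv.2.2 (k ▸ A.mem)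
    simp only [sw, if_neg this, if_neg hv.1, A.out b hb, if_neg hv.2.1, A.out v hv.2.2]
  · simp only [mem_insert] at hv ⊢
    rcases hv with rfl | rfl | hv
    · simp
    · simp [h]
    · exact Or.inr (Or.inr (A.cl v hv))
  · simp only [mem_insert] at hv
    rcases hv with rfl | rfl | hv
    · simp only [sw, if_neg hbf, if_true]; exact ⟨hbf.symm, hs _ _ hr⟩
    · exact absurd rfl k
    · by_cases c : v = f
      · subst c; simp only [sw, if_true]; exact ⟨hbf, hr⟩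
      · rw [A.sw_old h hb hv c]; exact A.new v hv c

theorem Alt.close (A : Alt R μ W ν f) (h : ∀ v, μ (μ v) = v) (hs : ∀ u v, R u v → R v u) {b : V}
    (hr : R f b) (hb : b ∉ W) (hm : μ b = b) :
    Rep R μ (sw ν f b) (insert b W) ∧ ∀ v ∈ insert b W, sw ν f b v ≠ v := by
  have hbf : b ≠ f := fun k => hb (k ▸ A.mem)
  have key : ∀ v ∈ insert b W, sw ν f b v ≠ v ∧ R v (sw ν f b v) := fun v hv => by
    rcases mem_insert.1 hv with rfl | hv
    · simp only [sw, if_neg hbf, if_true]; exact ⟨hbf.symm, hs _ _ hr⟩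
    · by_cases c : v = f
      · subst c; simp only [sw, if_true]; exact ⟨hbf, hr⟩
      · rw [A.sw_old h hb hv c]; exact A.new v hv c
  refine ⟨⟨sw_inv A.inv A.free hbf, fun v hv => ?_, fun v hv _ => (key v hv).2⟩,
    fun v hv => (key v hv).1⟩
  simp only [mem_insert, not_or] at hv
  have : v ≠ f := fun k => hv.2 (k ▸ A.mem)
  simp only [sw, if_neg this, if_neg hv.1, A.out b hb, hm, A.out v hv.2]

theorem Alt.stop (A : Alt R μ W ν f) : Rep R μ ν W ∧ ∀ v ∈ W, v ≠ f → ν v ≠ v :=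
  ⟨⟨A.inv, A.out, fun v hv k => (A.new v hv fun c => k (c ▸ A.free)).2⟩,
    fun v hv k => (A.new v hv k).1⟩

open Classical in
/-- the neighbours along unused edges outside a forbidden set -/
noncomputable def gn (Rl : V → V → Prop) (v : V) (S B : Finset V) : Finset V :=
  (S \ B).filter (Rl v)

theorem mem_gn {Rl : V → V → Prop} {v u : V} {S B : Finset V} :
    u ∈ gn Rl v S B ↔ u ∈ S ∧ u ∉ B ∧ Rl v u := by simp [gn, and_assoc]

theorem Res.dg_le {Rl : V → V → Prop} {a : ℕ} (h : Res G' Rl a) (v : V) (S B : Finset V) :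
    dg G' v S ≤ (gn Rl v S B).card + a + B.card := by
  classical
  have h1 := h.loss v
  refine le_trans (card_le_card (t := (gn Rl v S B ∪
    univ.filter (fun u => G'.Adj v u ∧ ¬ Rl v u)) ∪ B) ?_) ((card_union_le _ _).trans
      (Nat.add_le_add_right ((card_union_le _ _).trans (Nat.add_le_add_left (by convert h1) _)) _))
  intro u hu
  simp only [mem_nb, mem_union, mem_gn, mem_filter, mem_univ, true_and] at hu ⊢
  tauto

theorem Res.mono {Rl : V → V → Prop} {a a' : ℕ} (h : Res G' Rl a) (k : a ≤ a') : Res G' Rl a' :=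
  ⟨h.symm, h.adj, fun v => (h.loss v).trans k⟩

/-! ### matchings -/

/-- the marriage theorem for a relation between two finite sets -/
theorem hall_rel {α β : Type} [DecidableEq α] [DecidableEq β] [Nonempty β] (A : Finset α)
    (B : Finset β) (r : α → β → Prop) [∀ a b, Decidable (r a b)]
    (h : ∀ S ⊆ A, S.card ≤ (B.filter (fun b => ∃ a ∈ S, r a b)).card) :
    ∃ f : α → β, Set.InjOn f A ∧ ∀ a ∈ A, f a ∈ B ∧ r a (f a) := by
  obtain ⟨f, hf, hf'⟩ := (all_card_le_biUnion_card_iff_exists_injective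
    (fun a : A => B.filter (r a.1))).1 fun S => by
      have := h (S.map (Function.Embedding.subtype _)) (fun x hx => by
        obtain ⟨y, _, rfl⟩ := mem_map.1 hx; exact y.2)
      rw [card_map] at this
      refine this.trans (card_le_card fun b hb => ?_)
      obtain ⟨h1, a, h2, h3⟩ := mem_filter.1 hb
      obtain ⟨y, hy, rfl⟩ := mem_map.1 h2
      exact mem_biUnion.2 ⟨y, hy, mem_filter.2 ⟨h1, h3⟩⟩
  refine ⟨fun a => if k : a ∈ A then f ⟨a, k⟩ else Classical.arbitrary β, ?_, fun a ha => ?_⟩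
  · intro a ha b hb k
    have ha' : a ∈ A := ha
    have hb' : b ∈ A := hb
    simp only [dif_pos ha', dif_pos hb'] at k
    exact congrArg Subtype.val (hf k)
  · simp only [dif_pos ha]; exact mem_filter.1 (hf' ⟨a, ha⟩)

/-- if few pairs are forbidden at every element, the smaller set can be matched -/
theorem half {α β : Type} [DecidableEq α] [DecidableEq β] [Nonempty β] (A : Finset α)
    (B : Finset β) (r : α → β → Prop) [∀ a b, Decidable (r a b)] (c d : ℕ)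
    (hA : ∀ a ∈ A, (B.filter (fun b => ¬ r a b)).card ≤ c)
    (hB : ∀ b ∈ B, (A.filter (fun a => ¬ r a b)).card ≤ d) (h1 : A.card ≤ B.card)
    (h2 : c + d ≤ B.card) : ∃ f : α → β, Set.InjOn f A ∧ ∀ a ∈ A, f a ∈ B ∧ r a (f a) := by
  refine hall_rel A B r fun S hS => ?_
  by_cases k : S.card ≤ d
  · rcases S.eq_empty_or_nonempty with rfl | ⟨a, ha⟩
    · simp
    have h3 := card_filter_add_card_filter_not (s := B) (r a)
    have h4 := hA a (hS ha)
    have h5 : (B.filter (r a)).card ≤ (B.filter (fun b => ∃ a ∈ S, r a b)).card :=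
      card_le_card fun b hb => mem_filter.2 ⟨(mem_filter.1 hb).1, a, ha, (mem_filter.1 hb).2⟩
    omega
  · rw [filter_true_of_mem fun b hb => ?_]
    · exact (card_le_card hS).trans h1
    by_contra c
    refine k ((card_le_card fun a ha => ?_).trans (hB b hb))
    exact mem_filter.2 ⟨hS ha, fun x => c ⟨a, ha, x⟩⟩

theorem bijOn_of_injOn {α β : Type} {A : Finset α} {B : Finset β} {f : α → β}
    (hf : Set.InjOn f A) (hm : ∀ a ∈ A, f a ∈ B) (hc : B.card ≤ A.card) : Set.BijOn f A B :=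
  ⟨hm, hf, surjOn_of_injOn_of_card_le f hm hf hc⟩

/-! ### partitions -/

theorem card_cls_le_of_move {α κ : Type} [DecidableEq α] [DecidableEq κ] (F : Finset α)
    (f f' : α → κ) (p : κ) :
    (cls F f p).card ≤ (cls F f' p).card + (F.filter (fun v => f' v ≠ f v)).card := by
  refine le_trans (card_le_card ?_) (card_union_le _ _)
  intro v hv
  simp only [mem_cls, mem_union, mem_filter] at hv ⊢
  by_cases k : f' v = f v <;> simp_all

theorem Evn.move {α κ : Type} [DecidableEq α] [Fintype κ] [DecidableEq κ] {f f' : α → κ}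
    {η c : ℕ} {F : Finset α} (h : Evn f η F) (hc : (F.filter (fun v => f' v ≠ f v)).card ≤ c) :
    Evn f' (η + c) F := fun p => by
  have h1 := card_cls_le_of_move F f f' p
  have h2 := card_cls_le_of_move F f' f p
  simp only [ne_comm (a := f _)] at h2
  refine ⟨(h p).1.trans (Nat.mul_le_mul_left _ (by omega)), ?_⟩
  calc _ ≤ Fintype.card κ * ((cls F f p).card + c) := Nat.mul_le_mul_left _ (by omega)
    _ ≤ _ := by have := (h p).2; rw [mul_add, mul_add]; omega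

theorem Evn.mono {α κ : Type} [Fintype κ] [DecidableEq κ] {f : α → κ} {η η' : ℕ} {F : Finset α}
    (h : Evn f η F) (k : η ≤ η') : Evn f η' F := fun p =>
  ⟨(h p).1.trans (Nat.mul_le_mul_left _ (by omega)),
    (h p).2.trans (Nat.add_le_add_left (Nat.mul_le_mul_left _ k) _)⟩

theorem Evn.comp_equiv {α κ κ' : Type} [Fintype κ] [DecidableEq κ] [Fintype κ'] [DecidableEq κ']
    {f : α → κ} {η : ℕ} {F : Finset α} (h : Evn f η F) (e : κ ≃ κ') :
    Evn (fun v => e (f v)) η F := fun p => by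
  have : cls F (fun v => e (f v)) p = cls F f (e.symm p) := by
    ext v; simp [Equiv.eq_symm_apply]
  rw [this, ← Fintype.card_congr e]; exact h _

theorem card_cls_fst {α κ κ' : Type} [DecidableEq κ] [Fintype κ'] [DecidableEq κ']
    (F : Finset α) (f : α → κ × κ') (b : κ) :
    (cls F (fun v => (f v).1) b).card = ∑ q, (cls F f (b, q)).card := by
  rw [← card_cls_sum _ (fun v => (f v).2)]
  refine sum_congr rfl fun q _ => ?_
  congr 1; ext v; simp [Prod.ext_iff, and_assoc]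

theorem Evn.fst {α κ κ' : Type} [Fintype κ] [DecidableEq κ] [Fintype κ'] [DecidableEq κ']
    [Nonempty κ'] {f : α → κ × κ'} {η : ℕ} {F : Finset α} (h : Evn f η F) :
    Evn (fun v => (f v).1) (Fintype.card κ' * η) F := fun b => by
  have hp : 0 < Fintype.card κ' := Fintype.card_pos
  have h1 := sum_le_sum (s := univ) fun q _ => (h (b, q)).1
  have h2 := sum_le_sum (s := univ) fun q _ => (h (b, q)).2
  simp only [sum_const, card_univ, smul_eq_mul, ← mul_sum, sum_add_distrib, ← card_cls_fst,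
    Fintype.card_prod] at h1 h2
  constructor
  · exact Nat.le_of_mul_le_mul_left (h1.trans_eq (by ring)) hp
  · refine Nat.le_of_mul_le_mul_left (le_trans (le_of_eq (by ring)) (h2.trans_eq (by ring))) hp

theorem Evn.bool {α : Type} {f : α → Bool} {η : ℕ} {F : Finset α} (h : Evn f η F) (b : Bool) :
    F.card ≤ 2 * (cls F f b).card + 2 * η ∧ 2 * (cls F f b).card ≤ F.card + 2 * η := by
  have := h b
  simp only [Fintype.card_bool] at this
  omega

theorem Evn.dg {κ : Type} [Fintype κ] [DecidableEq κ] {f : V → κ} {η : ℕ} {v : V} {S : Finset V}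
    (h : Evn f η (nb G v S)) (p : κ) :
    dg G v S ≤ Fintype.card κ * (dg G v (cls S f p) + η) ∧
      Fintype.card κ * dg G v (cls S f p) ≤ dg G v S + Fintype.card κ * η := by
  rw [dg_cls_eq]; exact h p

/-- moving a few vertices between the two sides gives any nearby difference -/
theorem rebalance {α : Type} [DecidableEq α] (σ : α → Bool) (W Mv : Finset α) (t : ℤ) (c : ℕ)
    (hM : Mv ⊆ W) (hp : Even ((W.card : ℤ) - t))
    (hd : (((cls W σ true).card : ℤ) - (cls W σ false).card - t).natAbs ≤ 2 * c)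
    (hc : ∀ b, c ≤ (cls Mv σ b).card) : ∃ D ⊆ Mv, D.card ≤ c ∧ ∃ σ' : α → Bool,
      (∀ v, v ∉ D → σ' v = σ v) ∧ ((cls W σ' true).card : ℤ) - (cls W σ' false).card = t := by
  have h0 := card_cls_bool W σ true
  simp only [Bool.not_true] at h0
  have key : ∀ (b : Bool) (x : ℕ), x ≤ c → ∃ D ⊆ Mv, D.card ≤ c ∧ ∃ σ' : α → Bool,
      (∀ v, v ∉ D → σ' v = σ v) ∧ (cls W σ' b).card + x = (cls W σ b).card := by
    intro b x hx
    obtain ⟨D, hD, hx'⟩ := exists_subset_card_eq (hx.trans (hc b))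
    refine ⟨D, hD.trans (cls_subset _ _ _), by omega, fun v => if v ∈ D then !b else σ v,
      fun v hv => if_neg hv, ?_⟩
    have hs : D ⊆ cls W σ b := fun v hv =>
      mem_cls.2 ⟨hM (mem_cls.1 (hD hv)).1, (mem_cls.1 (hD hv)).2⟩
    rw [← card_sdiff_add_card_eq_card hs, hx']
    congr 2; ext v
    by_cases k : v ∈ D <;> simp [k]
  obtain ⟨r, hr⟩ := hp
  by_cases k : t ≤ ((cls W σ true).card : ℤ) - (cls W σ false).card
  · obtain ⟨D, h1, h2, σ', h3, h4⟩ := key true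
      ((((cls W σ true).card : ℤ) - (cls W σ false).card - t).natAbs / 2) (by omega)
    have := card_cls_bool W σ' true
    simp only [Bool.not_true] at this
    exact ⟨D, h1, h2, σ', h3, by omega⟩
  · obtain ⟨D, h1, h2, σ', h3, h4⟩ := key false
      ((((cls W σ true).card : ℤ) - (cls W σ false).card - t).natAbs / 2) (by omega)
    have := card_cls_bool W σ' true
    simp only [Bool.not_true] at this
    exact ⟨D, h1, h2, σ', h3, by omega⟩

/-- every set can be split in classes of almost equal size -/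
theorem exists_equi {α κ : Type} [DecidableEq α] [Fintype κ] [DecidableEq κ] [Nonempty κ]
    (S : Finset α) : ∃ c : α → κ, Evn c 1 S := by
  suffices h : ∃ c : α → κ, ∀ p q, (cls S c p).card ≤ (cls S c q).card + 1 by
    obtain ⟨c, hc⟩ := h
    have h0 := card_cls_sum S c
    refine ⟨c, fun p => ⟨?_, ?_⟩⟩
    · simpa [h0] using sum_le_sum (s := univ) fun q _ => hc q p
    · simpa [sum_add_distrib, h0] using sum_le_sum (s := univ) fun q _ => hc p q
  induction S using Finset.induction_on with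
  | empty => exact ⟨fun _ => Classical.arbitrary κ, fun p q => by simp [cls]⟩
  | insert b S hb ih =>
    obtain ⟨c, hc⟩ := ih
    obtain ⟨p0, -, hp0⟩ := exists_min_image univ (fun p => (cls S c p).card) univ_nonempty
    have key : ∀ p, (cls (insert b S) (Function.update c b p0) p).card =
        (cls S c p).card + if p = p0 then 1 else 0 := by
      intro p
      have : cls S (Function.update c b p0) p = cls S c p :=
        filter_congr fun v hv => by
          rw [Function.update_of_ne (show v ≠ b from fun k => hb (k ▸ hv))]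
      rw [← this, cls, filter_insert, Function.update_self]
      by_cases k : p = p0
      · rw [if_pos k.symm, if_pos k, card_insert_of_notMem (by simp [hb])]; rfl
      · rw [if_neg (Ne.symm k), if_neg k]; rfl
    refine ⟨Function.update c b p0, fun p q => ?_⟩
    rw [key, key]
    have h1 := hc p q
    have h2 := hp0 q (mem_univ _)
    by_cases k : p = p0 <;> by_cases l : q = p0
    · subst k l; omega
    · subst k; simp only [if_true, if_neg l] at h2 ⊢; omega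
    · rw [if_neg k]; omega
    · rw [if_neg k, if_neg l]; omega

/-! ### mixing -/

theorem Mix.mono {T P Q : Finset V} {e e' : ℕ} (h : Mix G T P Q e) (k : e' ≤ e) :
    Mix G T P Q e' := fun X Y a b c d f =>
  (h X Y a b c (by omega) (by omega)).imp fun _ x => ⟨x.1, k.trans x.2⟩

theorem Mix.lt_card {T P Q : Finset V} {e : ℕ} (h : Mix G T P Q e) : e < P.card := by
  by_contra k
  obtain ⟨x, hx, -⟩ := h ∅ Q (empty_subset _) (empty_subset _) Subset.rfl (by simp; omega)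
    (by omega)
  simp at hx

/-- mixing survives the loss of a few edges at every vertex -/
theorem Mix.of_loss {T P Q : Finset V} {e l : ℕ} (h : Mix G T P Q e)
    (k : ∀ x ∈ P, x ∈ T → ∀ Y ⊆ Q, dg G x Y ≤ dg G' x Y + l) : Mix G' T P Q (e - l) :=
  fun X Y a b c d f => by
    obtain ⟨x, h1, h2⟩ := h X Y a b c (by omega) (by omega)
    have := k x (a h1) (b h1) Y c
    exact ⟨x, h1, by omega⟩

theorem Mix.congr {T P Q : Finset V} {e : ℕ} (h : Mix G T P Q e)
    (k : ∀ x ∈ P, x ∈ T → ∀ y ∈ Q, G.Adj x y → G'.Adj x y) : Mix G' T P Q e :=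
  h.of_loss (l := 0) fun x a b _ c => dg_le_of fun u hu d => ⟨hu, k x a b u (c hu) d⟩

theorem Mix.sdiff {T P Q : Finset V} {e l : ℕ} (h : Mix G T P Q e) {N : SimpleGraph V}
    (k : ∀ x ∈ P, x ∈ T → dg N x Q ≤ l) : Mix (G \ N) T P Q (e - l) :=
  h.of_loss fun x a b Y c => (dg_le_sdiffG_add x Y).trans
    (Nat.add_le_add_left ((dg_mono_set x c).trans (k x a b)) _)

theorem Mix.of_near {T P Q : Finset V} {e η : ℕ} (h : ∀ x ∈ P, Q.card ≤ dg G x Q + η)
    (hP : e < P.card) (hQ : 3 * e + 2 * η ≤ Q.card) : Mix G T P Q e := by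
  intro X Y a _ c d f
  obtain ⟨x, hx⟩ : X.Nonempty := card_pos.1 (by omega)
  have h1 := h x (a hx)
  have h2 := dg_le_add_sdiff (G := G) x Q Y
  have h3 := card_sdiff_add_card_eq_card c
  exact ⟨x, hx, by omega⟩

/-! ### parameters -/

theorem Par.mono {C C' N N' η L e e' : ℕ} (h : Par C N η L e) (hC : C' ≤ C) (hN : N' ≤ N)
    (he : e ≤ e') : Par C' N' η L e' :=
  ⟨h.pos, (Nat.mul_le_mul_right _ hC).trans h.h1,
    (Nat.mul_le_mul (Nat.mul_le_mul_right _ hC) hN).trans h.h2,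
    ((Nat.mul_le_mul_right _ hC).trans h.h3).trans he, hN.trans h.h4⟩

/-- rescaling the error terms -/
theorem Par.scale {C C' N N' η L e e' a b c : ℕ} (h : Par C N η L e) (ha : 0 < a) (hb : 0 < b)
    (h1 : C' * a ≤ C) (h2 : C' * b * c ≤ C) (hN : N' ≤ N) (he : e ≤ c * e') (hc : 0 < c) :
    Par C' N' (a * η) (b * L) e' := by
  refine ⟨Nat.mul_pos ha h.pos, ?_, ?_, ?_, hN.trans (h.h4.trans ?_)⟩
  · calc C' * (a * η) = C' * a * η := by ring
      _ ≤ L := (Nat.mul_le_mul_right _ h1).trans h.h1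
      _ ≤ b * L := Nat.le_mul_of_pos_left _ hb
  · calc C' * (a * η) * N' = C' * a * η * N' := by ring
      _ ≤ L ^ 2 := (Nat.mul_le_mul (Nat.mul_le_mul_right _ h1) hN).trans h.h2
      _ ≤ (b * L) ^ 2 := Nat.pow_le_pow_left (Nat.le_mul_of_pos_left _ hb) _
  · refine Nat.le_of_mul_le_mul_left ?_ hc
    calc c * (C' * (b * L)) = C' * b * c * L := by ring
      _ ≤ e := (Nat.mul_le_mul_right _ h2).trans h.h3
      _ ≤ _ := he
  · exact Nat.pow_le_pow_right (by norm_num) (Nat.le_mul_of_pos_left _ ha)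

theorem Big.mono {C C' N η η' : ℕ} (h : Big C N η) (hC : C' ≤ C) (he : η ≤ η') : Big C' N η' := by
  refine ⟨(Nat.mul_le_mul_right _ hC).trans (h.b1.trans (Nat.pow_le_pow_left he _)), ?_⟩
  refine lt_of_le_of_lt ?_ (h.b2.trans_le (Real.exp_le_exp.2 ?_))
  · gcongr
  · gcongr

/-- the hypothesis of the partition statement -/
theorem Big.part {C N η r c : ℕ} (h : Big C N η) (hc : 8 * r * c ≤ C * N ^ 2) :
    (8 * r * c : ℝ) < Real.exp (η ^ 2 / (4 * N)) :=
  lt_of_le_of_lt (by exact_mod_cast hc) h.b2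

end Pool.Agent.MP_5c8b6d_co

end
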