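import Mathlib.Data.Int.Star
import Mathlib.Tactic.Bound
import Mathlib.GroupTheory.GroupAction.Period
import Mathlib.Tactic.Algebra.Basic
import Pool.Agent.MP_5c8b6d_co.Core

section

/-! Two-coloured chains, bipartite graphs, large subgraphs of small degree. -/

namespace Pool.Agent.MP_5c8b6d_co

open Finset

namespace Kempe

variable {V ι : Type} [Fintype V] [DecidableEq V]

/-- reachability by the two involutions -/
def Cn (α β : V → V) : V → V → Prop := Relation.ReflTransGen (fun u v => v = α u ∨ v = β u)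

omit [Fintype V] [DecidableEq V] in
theorem Cn.symm {α β : V → V} (ha : ∀ v, α (α v) = v) (hb : ∀ v, β (β v) = v) {x y : V}
    (h : Cn α β x y) : Cn α β y x := by
  induction h with
  | refl => exact Relation.ReflTransGen.refl
  | tail _ h2 ih =>
    refine Relation.ReflTransGen.head ?_ ih
    rcases h2 with rfl | rfl
    · exact Or.inl (ha _).symm
    · exact Or.inr (hb _).symm

omit [Fintype V] [DecidableEq V] in
theorem Cn.comm {α β : V → V} {x y : V} (h : Cn α β x y) : Cn β α x y := by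
  induction h with
  | refl => exact Relation.ReflTransGen.refl
  | tail _ h2 ih => exact Relation.ReflTransGen.tail ih h2.symm

theorem one_side {α β : V → V} (ha : ∀ v, α (α v) = v) (hb : ∀ v, β (β v) = v) {x : V}
    (h1 : α x = x) (h2 : β x ≠ x) :
    ∃ y, y ≠ x ∧ (α y = y ↔ β y ≠ y) ∧ Cn α β x y ∧
      ∀ v, Cn α β x v → α v = v ∨ β v = v → v = x ∨ v = y := by
  let a : Equiv.Perm V := Function.Involutive.toPerm α ha
  let b : Equiv.Perm V := Function.Involutive.toPerm β hb
  let r : Equiv.Perm V := b * a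
  have haa : a * a = 1 := by ext v; exact ha v
  have hbb : b * b = 1 := by ext v; exact hb v
  have hai : a⁻¹ = a := inv_eq_of_mul_eq_one_right haa
  have hbi : b⁻¹ = b := inv_eq_of_mul_eq_one_right hbb
  have hc : a * r * a⁻¹ = r⁻¹ := by
    simp only [r, mul_inv_rev, hai, hbi, mul_assoc, haa, mul_one]
  have hz : ∀ i : ℤ, a * r ^ i = r ^ (-i) * a := by
    intro i
    have : a * r ^ i * a⁻¹ = r ^ (-i) := by
      rw [← conj_zpow, hc, inv_zpow, zpow_neg]
    rw [← this]; group
  have hA : ∀ i : ℤ, α ((r ^ i) x) = (r ^ (-i)) x := by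
    intro i
    have := congrArg (fun g : Equiv.Perm V => g x) (hz i)
    simp only [Equiv.Perm.mul_apply] at this
    have e : a x = x := h1
    rw [e] at this
    exact this
  have hB : ∀ i : ℤ, β ((r ^ i) x) = (r ^ (1 - i)) x := by
    intro i
    have e : ∀ v, β v = r (α v) := fun v => by
      show β v = β (α (α v)); rw [ha]
    rw [e, hA, sub_eq_add_neg, zpow_add, zpow_one]
    rfl
  set n : ℕ := MulAction.period r x with hn
  have hpos : 0 < n := MulAction.period_pos_of_orderOf_pos (orderOf_pos r) x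
  have heq : ∀ i j : ℤ, (r ^ i) x = (r ^ j) x ↔ (n : ℤ) ∣ i - j := by
    intro i j
    rw [hn, ← MulAction.zpow_smul_eq_iff_period_dvd]
    show _ ↔ (r ^ (i - j)) x = x
    rw [show i - j = -j + i by ring, zpow_add, Equiv.Perm.mul_apply, zpow_neg]
    constructor
    · intro h; rw [h]; simp
    · intro h
      have := congrArg (r ^ j) h
      simpa using this
  have hx0 : (r ^ (0 : ℤ)) x = x := by simp
  have hn1 : n ≠ 1 := by
    intro h
    apply h2
    have := hB 0
    rw [hx0] at this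
    rw [this, ← hx0]
    simp only [sub_zero]
    conv_lhs => rw [hx0]
    rw [heq, h]; simp
  have hC : ∀ v, Cn α β x v → ∃ i : ℤ, v = (r ^ i) x := by
    intro v hv
    induction hv with
    | refl => exact ⟨0, hx0.symm⟩
    | tail _ k ih =>
      obtain ⟨i, rfl⟩ := ih
      rcases k with rfl | rfl
      · exact ⟨_, hA i⟩
      · exact ⟨_, hB i⟩
  have hD : ∀ m : ℕ, Cn α β x ((r ^ (m : ℤ)) x) := by
    intro m
    induction m with
    | zero => rw [Nat.cast_zero, hx0]; exact Relation.ReflTransGen.refl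
    | succ m ih =>
      refine Relation.ReflTransGen.tail (Relation.ReflTransGen.tail ih (Or.inl rfl)) (Or.inr ?_)
      rw [hA, hB]; congr 2; push_cast; ring
  have hfa : ∀ i : ℤ, α ((r ^ i) x) = (r ^ i) x ↔ (n : ℤ) ∣ 2 * i := by
    intro i
    rw [hA, heq, ← dvd_neg]; congr! 1; ring
  have hfb : ∀ i : ℤ, β ((r ^ i) x) = (r ^ i) x ↔ (n : ℤ) ∣ 2 * i - 1 := by
    intro i
    rw [hB, heq, ← dvd_neg]; congr! 1; ring
  refine ⟨(r ^ (((n + 1) / 2 : ℕ) : ℤ)) x, ?_, ?_, hD _, ?_⟩
  · intro h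
    rw [← hx0] at h
    conv_lhs at h => rw [hx0]
    rw [heq] at h
    have := Int.le_of_dvd (by omega) h
    omega
  · rw [Ne, hfa, hfb]
    rcases Nat.even_or_odd' n with ⟨m, hm | hm⟩
    · have e : (((n + 1) / 2 : ℕ) : ℤ) = m := by omega
      rw [e]
      refine ⟨fun _ h => ?_, fun _ => ⟨1, by omega⟩⟩
      have := Int.le_of_dvd (by omega) h
      omega
    · have e : (((n + 1) / 2 : ℕ) : ℤ) = m + 1 := by omega
      rw [e]
      refine ⟨fun h => ?_, fun h => absurd ⟨1, by omega⟩ h⟩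
      have h3 : (n : ℤ) ∣ 1 := by
        have := (Int.dvd_add_right (dvd_refl (n : ℤ))).1 (show (n : ℤ) ∣ n + 1 by
          convert h using 1; omega)
        exact this
      have := Int.le_of_dvd (by omega) h3
      omega
  · intro v hv hf
    obtain ⟨i, rfl⟩ := hC v hv
    rw [hfa, hfb] at hf
    have e0 : ((r ^ i) x = x) ↔ (n : ℤ) ∣ i := by
      conv_lhs => rhs; rw [← hx0]
      rw [heq, sub_zero]
    rw [e0, heq]
    rcases hf with ⟨c, hc⟩ | ⟨c, hc⟩
    · rcases Int.even_or_odd' c with ⟨d, rfl | rfl⟩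
      · left; exact ⟨d, by linarith⟩
      · right
        rcases Nat.even_or_odd' n with ⟨m, hm | hm⟩
        · refine ⟨d, ?_⟩
          have e : (((n + 1) / 2 : ℕ) : ℤ) = m := by omega
          have e2 : (n : ℤ) = 2 * m := by omega
          rw [e]; rw [e2] at hc ⊢; linarith
        · exfalso
          have e2 : (n : ℤ) = 2 * m + 1 := by omega
          rw [e2] at hc
          have : 2 * i = 2 * (2 * m * d + m + d) + 1 := by linarith
          omega
    · right
      rcases Nat.even_or_odd' n with ⟨m, hm | hm⟩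
      · exfalso
        have e2 : (n : ℤ) = 2 * m := by omega
        rw [e2] at hc
        have : 2 * i - 1 = 2 * (m * c) := by linarith
        omega
      · have e : (((n + 1) / 2 : ℕ) : ℤ) = m + 1 := by omega
        have e2 : (n : ℤ) = 2 * m + 1 := by omega
        rcases Int.even_or_odd' c with ⟨d, rfl | rfl⟩
        · exfalso
          rw [e2] at hc
          have : 2 * i - 1 = 2 * (2 * m * d + d) := by linarith
          omega
        · refine ⟨d, ?_⟩
          rw [e]; rw [e2] at hc ⊢; linarith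

theorem both_sides {α β : V → V} (ha : ∀ v, α (α v) = v) (hb : ∀ v, β (β v) = v) (x : V) :
    ∃ y, (α x = x ↔ β x ≠ x) → y ≠ x ∧ (α y = y ↔ β y ≠ y) ∧ Cn α β x y ∧
      ∀ v, Cn α β x v → α v = v ∨ β v = v → v = x ∨ v = y := by
  by_cases h : α x = x ↔ β x ≠ x
  · by_cases h1 : α x = x
    · obtain ⟨y, hy⟩ := one_side ha hb h1 (h.1 h1)
      exact ⟨y, fun _ => hy⟩
    · have h2 : β x = x := by by_contra k; exact h1 (h.2 k)
      obtain ⟨y, y1, y2, y3, y4⟩ := one_side hb ha h2 h1
      exact ⟨y, fun _ => ⟨y1, by tauto, y3.comm, fun v hv hf => y4 v hv.comm hf.symm⟩⟩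
  · exact ⟨x, fun k => absurd k h⟩

/-- exchange of two colours on a set -/
def swp [DecidableEq ι] (M : ι → V → V) (a b : ι) (K : Finset V) : ι → V → V :=
  fun i v => if v ∈ K then M (Equiv.swap a b i) v else M i v

omit [Fintype V] in
theorem swp_in [DecidableEq ι] {M : ι → V → V} {a b : ι} {K : Finset V} {v : V} (h : v ∈ K)
    (i : ι) : swp M a b K i v = M (Equiv.swap a b i) v := if_pos h

omit [Fintype V] in
theorem swp_out [DecidableEq ι] {M : ι → V → V} {a b : ι} {K : Finset V} {v : V} (h : v ∉ K)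
    (i : ι) : swp M a b K i v = M i v := if_neg h

omit [Fintype V] in
theorem swp_other [DecidableEq ι] {M : ι → V → V} {a b : ι} {K : Finset V} {i : ι} (ha : i ≠ a)
    (hb : i ≠ b) (v : V) : swp M a b K i v = M i v := by
  unfold swp; rw [Equiv.swap_apply_of_ne_of_ne ha hb]; simp

omit [Fintype V] in
theorem swp_pc [DecidableEq ι] {G : SimpleGraph V} {M : ι → V → V} (h : PC G M) {a b : ι}
    {K : Finset V} (hK : ∀ v ∈ K, M a v ∈ K ∧ M b v ∈ K) : PC G (swp M a b K) := by
  have out : ∀ v, v ∉ K → M a v ∉ K ∧ M b v ∉ K := fun v hv =>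
    ⟨fun k => hv (by simpa [h.inv] using (hK _ k).1), fun k => hv (by simpa [h.inv] using (hK _ k).2)⟩
  refine ⟨fun i v => ?_, fun i v => ?_, fun i j v => ?_⟩
  · by_cases ha : i = a
    · subst ha
      by_cases hv : v ∈ K
      · rw [swp_in hv, Equiv.swap_apply_left, swp_in (hK v hv).2, Equiv.swap_apply_left, h.inv]
      · rw [swp_out hv, swp_out (out v hv).1, h.inv]
    · by_cases hb : i = b
      · subst hb
        by_cases hv : v ∈ K
        · rw [swp_in hv, Equiv.swap_apply_right, swp_in (hK v hv).1, Equiv.swap_apply_right, h.inv]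
        · rw [swp_out hv, swp_out (out v hv).2, h.inv]
      · rw [swp_other ha hb, swp_other ha hb, h.inv]
  · by_cases hv : v ∈ K
    · rw [swp_in hv]; exact h.adj _ _
    · rw [swp_out hv]; exact h.adj _ _
  · by_cases hv : v ∈ K
    · rw [swp_in hv, swp_in hv]
      exact fun k1 k2 => (Equiv.swap a b).injective (h.uniq _ _ _ k1 k2)
    · rw [swp_out hv, swp_out hv]; exact h.uniq _ _ _

omit [Fintype V] in
theorem swp_ex [DecidableEq ι] (M : ι → V → V) (a b : ι) (K : Finset V) (u v : V) :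
    (∃ i, swp M a b K i u = v) ↔ ∃ i, M i u = v := by
  by_cases hu : u ∈ K
  · simp only [swp_in hu]
    exact ⟨fun ⟨_, k⟩ => ⟨_, k⟩, fun ⟨i, k⟩ => ⟨Equiv.swap a b i, by simpa using k⟩⟩
  · simp only [swp_out hu]

omit [Fintype V] in
theorem add_edge [DecidableEq ι] {G : SimpleGraph V} {M : ι → V → V} (h : PC G M) {c : ι}
    {u v : V} (huv : G.Adj u v) (hu : M c u = u) (hv : M c v = v) (hn : ∀ i, M i u ≠ v) :
    ∃ M' : ι → V → V, PC G M' ∧ (∀ i, i ≠ c → M' i = M i) ∧ M' c u = v ∧ M' c v = u ∧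
      ∀ w, w ≠ u → w ≠ v → M' c w = M c w := by
  have hne : u ≠ v := huv.ne
  let μ : V → V := fun w => if w = u then v else if w = v then u else M c w
  have m1 : μ u = v := if_pos rfl
  have m2 : μ v = u := by simp [μ, hne.symm]
  have m3 : ∀ w, w ≠ u → w ≠ v → μ w = M c w := fun w a b => by simp [μ, a, b]
  have hn' : ∀ i, M i v ≠ u := fun i k => hn i (by rw [← k, h.inv])
  have mi : ∀ w, μ (μ w) = w := by
    intro w
    by_cases a : w = u
    · rw [a, m1, m2]
    · by_cases b : w = v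
      · rw [b, m2, m1]
      · rw [m3 w a b, m3, h.inv]
        · intro k; apply a; rw [← h.inv c w, k, hu]
        · intro k; apply b; rw [← h.inv c w, k, hv]
  have mu : ∀ j w, μ w ≠ w → μ w = M j w → c = j := by
    intro j w k1 k2
    by_cases a : w = u
    · rw [a, m1] at k2; exact absurd k2.symm (hn j)
    · by_cases b : w = v
      · rw [b, m2] at k2; exact absurd k2.symm (hn' j)
      · rw [m3 w a b] at k1 k2; exact h.uniq _ _ _ k1 k2
  refine ⟨Function.update M c μ, ⟨fun i w => ?_, fun i w => ?_, fun i j w => ?_⟩,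
    fun i hi => Function.update_of_ne hi _ _, by simpa using m1, by simpa using m2,
    fun w a b => by simpa using m3 w a b⟩
  · by_cases hi : i = c
    · subst hi; simpa using mi w
    · rw [Function.update_of_ne hi]; exact h.inv i w
  · by_cases hi : i = c
    · subst hi
      rw [Function.update_self]
      by_cases a : w = u
      · rw [a, m1]; exact fun _ => huv
      · by_cases b : w = v
        · rw [b, m2]; exact fun _ => huv.symm
        · rw [m3 w a b]; exact h.adj _ _
    · rw [Function.update_of_ne hi]; exact h.adj i w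
  · by_cases hi : i = c
    · by_cases hj : j = c
      · intro _ _; rw [hi, hj]
      · subst hi
        rw [Function.update_self, Function.update_of_ne hj]; exact mu j w
    · by_cases hj : j = c
      · subst hj
        rw [Function.update_self, Function.update_of_ne hi]
        intro k1 k2
        exact (mu i w (k2 ▸ k1) k2.symm).symm
      · rw [Function.update_of_ne hi, Function.update_of_ne hj]; exact h.uniq i j w

/-- the colours seen at a vertex inject into any set that contains the coloured neighbours -/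
theorem seen_le [Fintype ι] {G : SimpleGraph V} {M : ι → V → V} (h : PC G M) (u : V)
    (S : Finset V) (hS : ∀ i, M i u ≠ u → M i u ∈ S) :
    (univ.filter (fun i => M i u ≠ u)).card ≤ S.card := by
  refine card_le_card_of_injOn (fun i => M i u) (fun i hi => ?_) (fun i hi j _ k => ?_)
  · exact hS i (by simpa using hi)
  · exact h.uniq i j u (by simpa using hi) k

theorem miss_add [Fintype ι] (M : ι → V → V) (u : V) :
    (univ.filter (fun i => M i u = u)).card + (univ.filter (fun i => M i u ≠ u)).card =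
      Fintype.card ι := by
  rw [card_filter_add_card_filter_not, card_univ]

theorem mem_nb {G : SimpleGraph V} {v u : V} {S : Finset V} : u ∈ nb G v S ↔ u ∈ S ∧ G.Adj v u := by
  unfold nb; simp

theorem seen_le_dg [Fintype ι] {G : SimpleGraph V} {M : ι → V → V} (h : PC G M) (u : V) :
    (univ.filter (fun i => M i u ≠ u)).card ≤ dg G u univ :=
  seen_le h u _ (fun i hi => mem_nb.2 ⟨mem_univ _, h.adj i u hi⟩)

theorem seen_lt_dg [Fintype ι] {G : SimpleGraph V} {M : ι → V → V} (h : PC G M) {u v : V}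
    (huv : G.Adj u v) (hn : ∀ i, M i u ≠ v) :
    (univ.filter (fun i => M i u ≠ u)).card + 1 ≤ dg G u univ := by
  have h1 := seen_le h u ((nb G u univ).erase v)
    (fun i hi => mem_erase.2 ⟨hn i, mem_nb.2 ⟨mem_univ _, h.adj i u hi⟩⟩)
  have h2 : v ∈ nb G u univ := mem_nb.2 ⟨mem_univ _, huv⟩
  rw [card_erase_of_mem h2] at h1
  have := card_pos.2 ⟨v, h2⟩
  unfold dg; omega

theorem exists_miss [Fintype ι] {G : SimpleGraph V} {M : ι → V → V} (h : PC G M) {u v : V}
    (huv : G.Adj u v) (hn : ∀ i, M i u ≠ v) (hd : dg G u univ ≤ Fintype.card ι) :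
    ∃ i, M i u = u := by
  have h1 := seen_lt_dg h huv hn
  have h2 := miss_add M u
  obtain ⟨i, hi⟩ := card_pos.1 (show 0 < (univ.filter (fun i => M i u = u)).card by omega)
  exact ⟨i, by simpa using hi⟩

omit [Fintype V] in
theorem sign_sum {μ : V → V} (hμ : ∀ v, μ (μ v) = v) (σ : V → Bool) (K : Finset V)
    (hK : ∀ v ∈ K, μ v ∈ K) (hσ : ∀ v, μ v ≠ v → σ v ≠ σ (μ v)) {u : V} (hu : u ∈ K)
    (hf : ∀ v ∈ K, μ v = v ↔ v = u) :
    ∑ v ∈ K, (if σ v = true then (1 : ℤ) else -1) = if σ u = true then 1 else -1 := by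
  rw [← add_sum_erase K _ hu]
  have : ∑ v ∈ K.erase u, (if σ v = true then (1 : ℤ) else -1) = 0 := by
    have hm : ∀ v ∈ K.erase u, μ v ≠ v := fun v hv k =>
      (mem_erase.1 hv).1 ((hf v (mem_erase.1 hv).2).1 k)
    refine sum_involution (fun v _ => μ v) (fun v hv => ?_) (fun v hv _ => hm v hv)
      (fun v hv => ?_) (fun v _ => hμ v)
    · have := hσ v (hm v hv)
      cases h1 : σ v <;> cases h2 : σ (μ v) <;> simp_all
    · refine mem_erase.2 ⟨fun k => ?_, hK v (mem_erase.1 hv).2⟩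
      apply (mem_erase.1 hv).1
      have k' : μ v = u := k
      rw [← hμ v, k', (hf u hu).2 rfl]
  rw [this, add_zero]

/-- the coloured pairs -/
noncomputable def cp (M : ι → V → V) : Finset (V × V) := by
  classical exact univ.filter (fun p => p.1 ≠ p.2 ∧ ∃ i, M i p.1 = p.2)

theorem mem_cp {M : ι → V → V} {p : V × V} : p ∈ cp M ↔ p.1 ≠ p.2 ∧ ∃ i, M i p.1 = p.2 := by
  unfold cp; simp

theorem add_more [DecidableEq ι] {G : SimpleGraph V} {M : ι → V → V} (h : PC G M) {c : ι}
    {u v : V} (huv : G.Adj u v) (hu : M c u = u) (hv : M c v = v) (hn : ∀ i, M i u ≠ v) :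
    ∃ M' : ι → V → V, PC G M' ∧ cp M ⊂ cp M' := by
  obtain ⟨M', p1, p2, p3, -, p5⟩ := add_edge h huv hu hv hn
  refine ⟨M', p1, (ssubset_iff_of_subset fun p hp => ?_).2 ⟨(u, v), ?_, ?_⟩⟩
  · obtain ⟨a, i, hi⟩ := mem_cp.1 hp
    refine mem_cp.2 ⟨a, i, ?_⟩
    by_cases hc : i = c
    · subst hc
      rw [p5, hi]
      · intro k; rw [k, hu] at hi; exact a (k.trans hi)
      · intro k; rw [k, hv] at hi; exact a (k.trans hi)
    · rw [p2 i hc, hi]
  · exact mem_cp.2 ⟨huv.ne, c, p3⟩
  · intro k; obtain ⟨-, i, hi⟩ := mem_cp.1 k; exact hn i hi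

theorem top_subset {ι : Type} [Fintype ι] [DecidableEq ι] (f : ι → ℕ) (J : ℕ)
    (hJ : J ≤ Fintype.card ι) :
    ∃ I : Finset ι, I.card = J ∧ J * ∑ i, f i ≤ Fintype.card ι * ∑ i ∈ I, f i := by
  obtain ⟨I, hI, hm⟩ := exists_max_image (powersetCard J (univ : Finset ι)) (fun I => ∑ i ∈ I, f i)
    (powersetCard_nonempty.2 (by simpa using hJ))
  have hc : I.card = J := (mem_powersetCard.1 hI).2
  refine ⟨I, hc, ?_⟩
  have key : ∀ i ∈ I, ∀ j ∈ Iᶜ, f j ≤ f i := by
    intro i hi j hj
    have hj' : j ∉ I.erase i := fun k => (mem_compl.1 hj) (mem_of_mem_erase k)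
    have := hm (insert j (I.erase i)) (mem_powersetCard.2 ⟨subset_univ _, by
      rw [card_insert_of_notMem hj', card_erase_of_mem hi, hc]
      have := card_pos.2 ⟨i, hi⟩
      omega⟩)
    rw [sum_insert hj', ← add_sum_erase I f hi] at this
    omega
  have h1 : ∑ _i ∈ I, ∑ j ∈ Iᶜ, f j ≤ ∑ i ∈ I, ∑ _j ∈ Iᶜ, f i :=
    sum_le_sum fun i hi => sum_le_sum fun j hj => key i hi j hj
  simp only [sum_const, smul_eq_mul, ← mul_sum] at h1
  rw [← sum_add_sum_compl I f, ← card_add_card_compl I, ← hc]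
  nlinarith

/-- the edges whose colour lies in `I` -/
def sub (M : ι → V → V) (hM : ∀ i v, M i (M i v) = v) (I : Finset ι) : SimpleGraph V where
  Adj u v := u ≠ v ∧ ∃ i ∈ I, M i u = v
  symm := ⟨fun _ _ h => ⟨h.1.symm, h.2.imp fun i k => ⟨k.1, by rw [← k.2, hM]⟩⟩⟩
  loopless := ⟨fun _ h => h.1 rfl⟩

theorem dg_sub {G : SimpleGraph V} {M : ι → V → V} (h : PC G M) (I : Finset ι) (v : V) :
    dg (sub M h.inv I) v univ = (I.filter (fun i => M i v ≠ v)).card := by
  symm
  refine card_bij (fun i _ => M i v) (fun i hi => ?_) (fun i hi j _ k => ?_) (fun u hu => ?_)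
  · obtain ⟨a, b⟩ := mem_filter.1 hi
    exact mem_nb.2 ⟨mem_univ _, b.symm, i, a, rfl⟩
  · exact h.uniq i j v (mem_filter.1 hi).2 k
  · obtain ⟨-, a, i, b, c⟩ := mem_nb.1 hu
    exact ⟨i, mem_filter.2 ⟨b, by rw [c]; exact a.symm⟩, c⟩

theorem sum_sub {G : SimpleGraph V} {M : ι → V → V} (h : PC G M) (I : Finset ι) :
    ∑ v, dg (sub M h.inv I) v univ = ∑ i ∈ I, (mv (M i)).card := by
  simp only [dg_sub h, mv, card_filter]
  exact sum_comm

end Kempe

open Kempe

theorem kempe : KempeStmt := by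
  intro V _ _ α β ha hb
  classical
  choose τ hτ using both_sides ha hb
  refine ⟨τ, fun x hx => ?_⟩
  obtain ⟨y1, y2, y3, y4⟩ := hτ x hx
  refine ⟨y2, y1, ?_, univ.filter (Cn α β x), ?_, ?_, fun v hv => ?_, fun v hv => ?_⟩
  · obtain ⟨-, -, -, z4⟩ := hτ (τ x) y2
    rcases z4 x (y3.symm ha hb) (by tauto) with k | k
    · exact absurd k.symm y1
    · exact k.symm
  · exact mem_filter.2 ⟨mem_univ _, Relation.ReflTransGen.refl⟩
  · exact mem_filter.2 ⟨mem_univ _, y3⟩
  · have := (mem_filter.1 hv).2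
    exact ⟨mem_filter.2 ⟨mem_univ _, Relation.ReflTransGen.tail this (Or.inl rfl)⟩,
      mem_filter.2 ⟨mem_univ _, Relation.ReflTransGen.tail this (Or.inr rfl)⟩⟩
  · exact y4 v (mem_filter.1 hv).2

theorem kon_of (hK : KempeStmt) : KonStmt := by
  intro V ι _ _ _ _ G σ hσ hd
  classical
  obtain ⟨M, hM, hmax⟩ := exists_max_image (univ.filter (fun M : ι → V → V => PC G M))
    (fun M => (cp M).card)
    ⟨fun _ v => v, mem_filter.2 ⟨mem_univ _, fun _ _ => rfl, fun _ _ k => absurd rfl k,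
      fun _ _ _ k => absurd rfl k⟩⟩
  have h : PC G M := (mem_filter.1 hM).2
  refine ⟨M, h, fun u v huv => ?_⟩
  by_contra hn0
  have hn : ∀ i, M i u ≠ v := fun i k => hn0 ⟨i, k⟩
  have hn' : ∀ i, M i v ≠ u := fun i k => hn i (by rw [← k, h.inv])
  have fin : ∀ M1 : ι → V → V, PC G M1 → cp M1 = cp M → ∀ c, M1 c u = u → M1 c v = v → False := by
    intro M1 h1 e c a b
    have hn1 : ∀ i, M1 i u ≠ v := fun i k => by
      have : (u, v) ∈ cp M := e ▸ mem_cp.2 ⟨huv.ne, i, k⟩
      exact hn0 (mem_cp.1 this).2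
    obtain ⟨M', p1, p2⟩ := add_more h1 huv a b hn1
    have := hmax M' (mem_filter.2 ⟨mem_univ _, p1⟩)
    have := card_lt_card p2
    rw [e] at this
    omega
  obtain ⟨a, ha⟩ := exists_miss h huv hn (hd u)
  obtain ⟨b, hb⟩ := exists_miss h huv.symm hn' (hd v)
  by_cases h1 : M b u = u
  · exact fin M h rfl b h1 hb
  by_cases h2 : M a v = v
  · exact fin M h rfl a ha h2
  obtain ⟨τ, hτ⟩ := hK V (M a) (M b) (h.inv a) (h.inv b)
  obtain ⟨-, -, -, K, k1, k2, k3, k4⟩ := hτ u ⟨fun _ => h1, fun _ => ha⟩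
  have hv : v ∉ K := by
    intro hv
    have e : v = τ u := (k4 v hv (Or.inr hb)).resolve_left huv.ne.symm
    have s1 := sign_sum (h.inv a) σ K (fun w hw => (k3 w hw).1)
      (fun w hw => hσ _ _ (h.adj a w hw)) k1 (fun w hw => ⟨fun k => by
        rcases k4 w hw (Or.inl k) with r | r
        · exact r
        · rw [r, ← e] at k; exact absurd k h2, fun k => k ▸ ha⟩)
    have s2 := sign_sum (h.inv b) σ K (fun w hw => (k3 w hw).2)
      (fun w hw => hσ _ _ (h.adj b w hw)) hv (fun w hw => ⟨fun k => by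
        rcases k4 w hw (Or.inr k) with r | r
        · rw [r] at k; exact absurd k h1
        · rw [r, e], fun k => k ▸ hb⟩)
    rw [s1] at s2
    have := hσ u v huv
    cases h3 : σ u <;> cases h4 : σ v <;> simp_all
  refine fin (swp M a b K) (swp_pc h k3) ?_ b ?_ ?_
  · ext p; simp only [mem_cp, swp_ex]
  · rw [swp_in k1, Equiv.swap_apply_right, ha]
  · rw [swp_out hv, hb]

theorem cap_of (hK : KonStmt) : CapStmt := by
  intro V _ _ H σ d J hσ hd hJ
  obtain ⟨M, h, hf⟩ := hK V (Fin d) H σ hσ (by simpa using hd)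
  obtain ⟨I, hI, hs⟩ := top_subset (fun i => (mv (M i)).card) J (by simpa using hJ)
  have e : H = Kempe.sub M h.inv univ := by
    ext u v
    exact ⟨fun k => ⟨k.ne, (hf u v k).imp fun i r => ⟨mem_univ _, r⟩⟩,
      fun ⟨a, i, _, r⟩ => r ▸ h.adj i u (by rw [r]; exact a.symm)⟩
  refine ⟨Kempe.sub M h.inv I, fun u v ⟨a, i, _, r⟩ => r ▸ h.adj i u (by rw [r]; exact a.symm),
    fun v => ?_, ?_⟩
  · rw [dg_sub h, ← hI]; exact card_filter_le _ _
  · have e2 : ∑ v, dg H v univ = ∑ v, dg (Kempe.sub M h.inv univ) v univ := by rw [← e]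
    rw [e2, sum_sub h, sum_sub h]
    simpa using hs

end Pool.Agent.MP_5c8b6d_co

end

section

/-! The adjacency lemma and the bound maximum degree plus one. -/

namespace Pool.Agent.MP_5c8b6d_co

open Finset Kempe

namespace Val

variable {V : Type} [Fintype V] [DecidableEq V] {k : ℕ} {G : SimpleGraph V} {x : V}

/-- all edges except `x y` are coloured -/
structure Sta (G : SimpleGraph V) (x y : V) (M : Fin k → V → V) : Prop where
  pc : PC G M
  adj : G.Adj x y
  unc : ∀ i, M i x ≠ y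
  full : ∀ u v, G.Adj u v → (u = x ∧ v = y) ∨ (u = y ∧ v = x) ∨ ∃ i, M i u = v

/-- linear fans at `x` -/
inductive Pth (M : Fin k → V → V) (x : V) : ℕ → V → V → Prop
  | nil (z : V) : Pth M x 0 z z
  | cons {n : ℕ} {w z : V} (c : Fin k) : M c w = w → M c x ≠ x → Pth M x n (M c x) z →
      Pth M x (n + 1) w z

omit [Fintype V] [DecidableEq V] in
theorem Pth.snoc {M : Fin k → V → V} {n : ℕ} {w z : V} (h : Pth M x n w z) {c : Fin k}
    (h1 : M c z = z) (h2 : M c x ≠ x) : Pth M x (n + 1) w (M c x) := by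
  induction h with
  | nil z => exact Pth.cons c h1 h2 (Pth.nil _)
  | cons d a b _ ih => exact Pth.cons d a b (ih h1)

omit [Fintype V] [DecidableEq V] in
theorem Pth.ne {M : Fin k → V → V} {n : ℕ} {w z : V} (h : Pth M x n w z) (hw : w ≠ x) : z ≠ x := by
  induction h with
  | nil z => exact hw
  | cons d _ b _ ih => exact ih b

omit [Fintype V] [DecidableEq V] in
theorem Pth.adj {M : Fin k → V → V} (hM : PC G M) {n : ℕ} {w z : V} (h : Pth M x n w z)
    (hw : G.Adj x w) : G.Adj x z := by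
  induction h with
  | nil z => exact hw
  | cons d _ b _ ih => exact ih (hM.adj d x b)

omit [Fintype V] [DecidableEq V] in
theorem Pth.avoid {M M' : Fin k → V → V} {c : Fin k} (e : ∀ i, i ≠ c → M' i = M i) {n : ℕ}
    {w z : V} (h : Pth M x n w z) : Pth M' x n w z ∨ ∃ n' < n, Pth M x n' (M c x) z := by
  induction h with
  | nil z => exact Or.inl (Pth.nil _)
  | @cons n w z d a b p ih =>
    by_cases hd : d = c
    · subst hd; exact Or.inr ⟨n, Nat.lt_succ_self n, p⟩
    · rcases ih with r | ⟨n', r1, r2⟩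
      · left
        rw [← e d hd] at a b r
        exact Pth.cons d a b r
      · exact Or.inr ⟨n', by omega, r2⟩

omit [Fintype V] [DecidableEq V] in
theorem Pth.avoid' {M M' : Fin k → V → V} {c : Fin k} (e : ∀ i, i ≠ c → M' i = M i) {z : V} :
    ∀ n, Pth M x n (M c x) z → ∃ n' ≤ n, Pth M' x n' (M c x) z := by
  intro n
  induction n using Nat.strong_induction_on with
  | _ n ih =>
    intro h
    rcases h.avoid e with r | ⟨n', r1, r2⟩
    · exact ⟨n, le_rfl, r⟩
    · obtain ⟨m, m1, m2⟩ := ih n' r1 r2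
      exact ⟨m, by omega, m2⟩

omit [Fintype V] in
theorem del_edge {M : Fin k → V → V} (h : PC G M) (c : Fin k) (u : V) :
    ∃ M' : Fin k → V → V, PC G M' ∧ (∀ i, i ≠ c → M' i = M i) ∧ M' c u = u ∧
      M' c (M c u) = M c u ∧ ∀ w, w ≠ u → w ≠ M c u → M' c w = M c w := by
  let μ : V → V := fun w => if w = u ∨ w = M c u then w else M c w
  have m1 : ∀ w, w = u ∨ w = M c u → μ w = w := fun w a => if_pos a
  have m2 : ∀ w, ¬ (w = u ∨ w = M c u) → μ w = M c w := fun w a => if_neg a
  have m3 : ∀ w, μ w ≠ w → μ w = M c w := fun w a => m2 w fun b => a (m1 w b)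
  refine ⟨Function.update M c μ, ⟨fun i w => ?_, fun i w => ?_, fun i j w => ?_⟩,
    fun i hi => Function.update_of_ne hi _ _, by simpa using m1 u (Or.inl rfl),
    by simpa using m1 _ (Or.inr rfl), fun w a b => by simpa using m2 w (by tauto)⟩
  · by_cases hi : i = c
    · subst hi
      rw [Function.update_self]
      by_cases a : w = u ∨ w = M i u
      · rw [m1 w a, m1 w a]
      · rw [m2 w a, m2, h.inv]
        rintro (r | r)
        · exact a (Or.inr (by rw [← r, h.inv]))
        · exact a (Or.inl (by rw [← h.inv i w, r, h.inv]))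
    · rw [Function.update_of_ne hi]; exact h.inv i w
  · by_cases hi : i = c
    · subst hi
      rw [Function.update_self]
      intro a
      have := m3 w a
      rw [this] at a ⊢
      exact h.adj _ _ a
    · rw [Function.update_of_ne hi]; exact h.adj i w
  · have e : ∀ i, Function.update M c μ i w ≠ w → Function.update M c μ i w = M i w := by
      intro i
      by_cases hi : i = c
      · subst hi; rw [Function.update_self]; exact m3 w
      · rw [Function.update_of_ne hi]; exact fun _ => rfl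
    intro a b
    have a' := e i a
    have b' := e j (b ▸ a)
    exact h.uniq i j w (a' ▸ a) (a'.symm.trans (b.trans b'))

omit [Fintype V] in
theorem Sta.finish {y : V} {M : Fin k → V → V} (h : Sta G x y M) {c : Fin k} (h1 : M c x = x)
    (h2 : M c y = y) : Col G k := by
  obtain ⟨M', p1, p2, p3, p4, p5⟩ := add_edge h.pc h.adj h1 h2 h.unc
  refine ⟨M', p1, fun u v huv => ?_⟩
  rcases h.full u v huv with ⟨rfl, rfl⟩ | ⟨rfl, rfl⟩ | ⟨i, hi⟩
  · exact ⟨c, p3⟩
  · exact ⟨c, p4⟩
  · refine ⟨i, ?_⟩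
    by_cases hc : i = c
    · subst hc
      rw [p5, hi]
      · intro r; rw [r, h1] at hi; exact huv.ne (r.trans hi)
      · intro r; rw [r, h2] at hi; exact huv.ne (r.trans hi)
    · rw [p2 i hc, hi]

omit [Fintype V] in
theorem Sta.shift {y : V} {M : Fin k → V → V} (h : Sta G x y M) {c : Fin k} (h1 : M c y = y)
    (h2 : M c x ≠ x) : ∃ M', Sta G x (M c x) M' ∧ ∀ i, i ≠ c → M' i = M i := by
  obtain ⟨M1, q1, q2, q3, q4, q5⟩ := del_edge h.pc c x
  have hy : y ≠ M c x := (h.unc c).symm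
  have hyx : y ≠ x := h.adj.ne.symm
  have u1 : ∀ i, M1 i x ≠ y := by
    intro i
    by_cases hi : i = c
    · rw [hi, q3]; exact hyx.symm
    · rw [q2 i hi]; exact h.unc i
  obtain ⟨M', p1, p2, p3, p4, p5⟩ := add_edge q1 h.adj q3 (by rw [q5 y hyx hy, h1]) u1
  refine ⟨M', ⟨p1, h.pc.adj c x h2, fun i => ?_, fun u v huv => ?_⟩,
    fun i hi => (p2 i hi).trans (q2 i hi)⟩
  · by_cases hi : i = c
    · rw [hi, p3]; exact hy
    · rw [p2 i hi, q2 i hi]
      intro r
      exact hi (h.pc.uniq i c x (r ▸ h2) r)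
  · rcases h.full u v huv with ⟨rfl, rfl⟩ | ⟨rfl, rfl⟩ | ⟨i, hi⟩
    · exact Or.inr (Or.inr ⟨c, p3⟩)
    · exact Or.inr (Or.inr ⟨c, p4⟩)
    · by_cases hc : i = c
      · subst hc
        by_cases a : u = x
        · exact Or.inl ⟨a, by rw [← hi, a]⟩
        · by_cases b : u = M i x
          · exact Or.inr (Or.inl ⟨b, by rw [← hi, b, h.pc.inv]⟩)
          · refine Or.inr (Or.inr ⟨i, ?_⟩)
            rw [p5 u a, q5 u a b, hi]
            intro r; rw [r, h1] at hi; exact huv.ne (r.trans hi)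
      · exact Or.inr (Or.inr ⟨i, by rw [p2 i hc, q2 i hc, hi]⟩)

omit [Fintype V] in
theorem no_common (hn : ¬ Col G k) : ∀ (n : ℕ) (y z : V) (M : Fin k → V → V), Sta G x y M →
    Pth M x n y z → ∀ a, M a x = x → M a z ≠ z := by
  intro n
  induction n using Nat.strong_induction_on with
  | _ n ih =>
    intro y z M h p a ha hz
    cases p with
    | nil => exact hn (h.finish ha hz)
    | @cons n _ _ c c1 c2 p =>
      obtain ⟨M', s, e⟩ := h.shift c1 c2
      obtain ⟨n', r1, r2⟩ := Pth.avoid' e n p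
      have hac : a ≠ c := fun r => c2 (r ▸ ha)
      exact ih n' (by omega) _ z M' s r2 a (by rw [e a hac, ha]) (by rw [e a hac, hz])

omit [Fintype V] in
theorem Pth.swap {M : Fin k → V → V} {a b : Fin k} {K : Finset V} (hx : x ∉ K) (ha : M a x = x)
    {n : ℕ} {w z : V} (p : Pth M x n w z) (hz : z ∈ K) (hb : M b z = z) :
    ∃ n' z', Pth (swp M a b K) x n' w z' ∧ swp M a b K a z' = z' := by
  induction p with
  | nil z => exact ⟨0, z, Pth.nil _, by rw [swp_in hz, Equiv.swap_apply_left, hb]⟩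
  | @cons n w z c c1 c2 p ih =>
    by_cases hc : swp M a b K c w = w
    · obtain ⟨n', z', r1, r2⟩ := ih hz hb
      refine ⟨n' + 1, z', Pth.cons c hc ?_ ?_, r2⟩
      · rw [swp_out hx]; exact c2
      · rw [swp_out hx]; exact r1
    · have hw : w ∈ K := by
        by_contra r; rw [swp_out r] at hc; exact hc c1
      have hca : c ≠ a := fun r => c2 (r ▸ ha)
      have hcb : c = b := by
        by_contra r; rw [swp_other hca r] at hc; exact hc c1
      exact ⟨0, w, Pth.nil _, by rw [swp_in hw, Equiv.swap_apply_left, ← hcb, c1]⟩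

theorem miss_disj (hK : KempeStmt) (hn : ¬ Col G k) {y : V} {M : Fin k → V → V} (h : Sta G x y M)
    {a b : Fin k} (ha : M a x = x) {n n' : ℕ} {z z' : V} (p : Pth M x n y z) (p' : Pth M x n' y z')
    (hz : M b z = z) (hz' : M b z' = z') : z = z' := by
  obtain ⟨τ, hτ⟩ := hK V (M a) (M b) (h.pc.inv a) (h.pc.inv b)
  have key : ∀ n z, Pth M x n y z → M b z = z → τ x = z := by
    intro n z p hz
    have h1 : M a z ≠ z := no_common hn n y z M h p a ha
    obtain ⟨-, -, t3, K, k1, -, k3, k4⟩ := hτ z ⟨fun r => absurd r h1, fun r => absurd hz r⟩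
    by_contra hne
    have hx : x ∉ K := by
      intro r
      rcases k4 x r (Or.inl ha) with e | e
      · exact p.ne h.adj.ne.symm e.symm
      · exact hne (by rw [e, t3])
    have s : Sta G x y (swp M a b K) :=
      ⟨swp_pc h.pc k3, h.adj, fun i => by rw [swp_out hx]; exact h.unc i, fun u v huv => by
        rw [swp_ex]; exact h.full u v huv⟩
    obtain ⟨m, w, r1, r2⟩ := p.swap hx ha k1 hz
    exact no_common hn m y w _ s r1 a (by rw [swp_out hx, ha]) r2
  rw [← key n z p hz, ← key n' z' p' hz']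

end Val

open Val

theorem val_of (hK : KempeStmt) : ValStmt := by
  intro V _ _ G k x y hd hxy hn ⟨M, h0, hf⟩
  classical
  have h : Sta G x y M := by
    refine ⟨⟨h0.inv, fun i v r => (SimpleGraph.deleteEdges_adj.1 (h0.adj i v r)).1, h0.uniq⟩, hxy,
      fun i r => ?_, fun u v huv => ?_⟩
    · have := h0.adj i x (by rw [r]; exact hxy.ne.symm)
      rw [r] at this
      exact (SimpleGraph.deleteEdges_adj.1 this).2 rfl
    · by_cases e : s(u, v) = s(x, y)
      · rcases Sym2.eq_iff.1 e with r | r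
        · exact Or.inl r
        · exact Or.inr (Or.inl r)
      · exact Or.inr (Or.inr (hf u v (SimpleGraph.deleteEdges_adj.2 ⟨huv, e⟩)))
  obtain ⟨a, ha⟩ := exists_miss h.pc hxy h.unc (by simpa using hd x)
  let Z : Finset V := univ.filter (fun z => ∃ n, Pth M x n y z)
  have hZ : ∀ z, z ∈ Z ↔ ∃ n, Pth M x n y z := fun z => by simp [Z]
  have hy : y ∈ Z := (hZ y).2 ⟨0, Pth.nil _⟩
  let ms : V → Finset (Fin k) := fun z => univ.filter (fun i => M i z = z)
  have hms : ∀ z i, i ∈ ms z ↔ M i z = z := fun z i => by simp [ms]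
  have h1 : (Z.biUnion ms).card = ∑ z ∈ Z, (ms z).card := by
    refine card_biUnion fun z hz z' hz' hne => disjoint_left.2 fun b b1 b2 => hne ?_
    obtain ⟨n, p⟩ := (hZ z).1 hz
    obtain ⟨n', p'⟩ := (hZ z').1 hz'
    exact miss_disj hK hn h ha p p' ((hms _ _).1 b1) ((hms _ _).1 b2)
  have h2 : (Z.biUnion ms).card ≤ (Z.erase y).card := by
    have hb : ∀ b ∈ Z.biUnion ms, M b x ≠ x ∧ M b x ∈ Z := by
      intro b hb
      obtain ⟨z, hz, b1⟩ := mem_biUnion.1 hb
      obtain ⟨n, p⟩ := (hZ z).1 hz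
      have r : M b x ≠ x := fun r => no_common hn n y z M h p b r ((hms _ _).1 b1)
      exact ⟨r, (hZ _).2 ⟨n + 1, p.snoc ((hms _ _).1 b1) r⟩⟩
    refine card_le_card_of_injOn (fun b => M b x) (fun b r => ?_) (fun b r c _ e => ?_)
    · exact mem_coe.2 (mem_erase.2 ⟨h.unc b, (hb b r).2⟩)
    · exact h.pc.uniq b c x (hb b r).1 e
  have h3 : k + 1 ≤ (ms y).card + dg G y univ := by
    have := seen_lt_dg h.pc hxy.symm (fun i r => h.unc i (by rw [← r, h.pc.inv]))
    have := miss_add M y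
    simp only [Fintype.card_fin] at this
    simp only [ms]; omega
  have h4 : ((Z.erase y).filter (fun z => ¬ dg G z univ = k)).card ≤ ∑ z ∈ Z.erase y, (ms z).card := by
    rw [card_filter]
    refine sum_le_sum fun z _ => ?_
    split_ifs with r
    · omega
    · have := seen_le_dg h.pc z
      have := miss_add M z
      have := hd z
      simp only [Fintype.card_fin] at *
      simp only [ms]; omega
  have h5 : ((Z.erase y).filter (fun z => dg G z univ = k)).card ≤
      dg G x (univ.filter (fun z => z ≠ y ∧ dg G z univ = k)) := by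
    refine card_le_card fun z hz => ?_
    obtain ⟨z1, z2⟩ := mem_filter.1 hz
    obtain ⟨z3, z4⟩ := mem_erase.1 z1
    obtain ⟨n, p⟩ := (hZ z).1 z4
    exact Kempe.mem_nb.2 ⟨mem_filter.2 ⟨mem_univ _, z3, z2⟩, p.adj h.pc hxy⟩
  have h6 := card_filter_add_card_filter_not (s := Z.erase y) (fun z => dg G z univ = k)
  rw [← add_sum_erase Z _ hy] at h1
  omega

theorem viz_of (hV : ValStmt) : VizStmt := by
  intro V ι _ _ _ _ G hd
  classical
  have key : ∀ G : SimpleGraph V, (∀ v, dg G v univ < Fintype.card ι) → Col G (Fintype.card ι) := by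
    intro G
    induction G using WellFoundedLT.induction with
    | _ G ih =>
      intro hd
      by_contra hn
      have : ∃ x y, G.Adj x y := by
        by_contra r
        exact hn ⟨fun _ v => v, ⟨fun _ _ => rfl, fun _ _ k => absurd rfl k,
          fun _ _ _ k => absurd rfl k⟩, fun u v huv => absurd ⟨u, v, huv⟩ r⟩
      obtain ⟨x, y, hxy⟩ := this
      have hle : G.deleteEdges {s(x, y)} ≤ G := G.deleteEdges_le _
      have hlt : G.deleteEdges {s(x, y)} < G := by
        refine lt_of_le_of_ne hle fun r => ?_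
        have := hxy
        rw [← r] at this
        exact (SimpleGraph.deleteEdges_adj.1 this).2 rfl
      have hc := ih _ hlt fun v => lt_of_le_of_lt (card_le_card fun u hu =>
        Kempe.mem_nb.2 ⟨mem_univ _, hle (Kempe.mem_nb.1 hu).2⟩) (hd v)
      have h1 := hV V G _ x y (fun v => (hd v).le) hxy hn hc
      have h2 : dg G x (univ.filter (fun z => z ≠ y ∧ dg G z univ = Fintype.card ι)) = 0 := by
        refine card_eq_zero.2 (eq_empty_of_forall_notMem fun z hz => ?_)
        exact (hd z).ne (mem_filter.1 (Kempe.mem_nb.1 hz).1).2.2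
      have := hd y
      omega
  obtain ⟨M, h, hf⟩ := key G hd
  let e := Fintype.equivFin ι
  exact ⟨fun i => M (e i), ⟨fun i => h.inv _, fun i => h.adj _,
    fun i j v a b => e.injective (h.uniq _ _ v a b)⟩,
    fun u v huv => (hf u v huv).elim fun c r => ⟨e.symm c, by simpa using r⟩⟩

end Pool.Agent.MP_5c8b6d_co

end

section

/-! Balancing of colour classes by exchanges on two-coloured chains. -/

namespace Pool.Agent.MP_5c8b6d_co

open Finset

namespace Eqs

variable {V ι : Type} [Fintype V] [DecidableEq V]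

/-- the indicator of the moved vertices -/
def ind (μ : V → V) (v : V) : ℤ := if μ v = v then 0 else 1

/-- the weight of a colour class -/
def wt (μ : V → V) (w : V → ℤ) : ℤ := ∑ v ∈ mv μ, w v

theorem wt_eq (μ : V → V) (w : V → ℤ) : wt μ w = ∑ v, ind μ v * w v := by
  unfold wt mv ind
  rw [sum_filter]
  exact sum_congr rfl fun v _ => by by_cases h : μ v = v <;> simp [h]

/-- the indicator of a set -/
def one (S : Finset V) (v : V) : ℤ := if v ∈ S then 1 else 0

theorem wt_one (μ : V → V) (S : Finset V) : wt μ (one S) = (mv μ ∩ S).card := by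
  unfold wt one
  rw [← sum_filter, filter_mem_eq_inter]; simp

omit [Fintype V] in
theorem sg_ne {α β : V → V} {x : V} : ind α x - ind β x ≠ 0 ↔ (α x = x ↔ β x ≠ x) := by
  unfold ind; by_cases h : α x = x <;> by_cases k : β x = x <;> simp [h, k]

omit [Fintype V] in
theorem sg_abs (α β : V → V) (x : V) : |ind α x - ind β x| ≤ 1 := by
  unfold ind; split_ifs <;> simp

omit [Fintype V] in
theorem pos_pair {τ : V → V} {E : Finset V} (hE : ∀ x ∈ E, τ x ∈ E ∧ τ x ≠ x ∧ τ (τ x) = x)
    (d : V → ℤ) {ω : ℤ} (hd : ∀ x ∈ E, |d x| ≤ ω) (hs : 0 < ∑ v ∈ E, d v) :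
    ∃ P ⊆ E, (∀ x ∈ P, τ x ∈ P) ∧ P.card ≤ 2 ∧ 0 < ∑ v ∈ P, d v ∧ ∑ v ∈ P, d v ≤ 2 * ω := by
  have e : ∑ v ∈ E, d (τ v) = ∑ v ∈ E, d v :=
    sum_bij' (fun v _ => τ v) (fun v _ => τ v) (fun v h => (hE v h).1) (fun v h => (hE v h).1)
      (fun v h => (hE v h).2.2) (fun v h => (hE v h).2.2) (fun _ _ => rfl)
  have : ∑ _v ∈ E, (0 : ℤ) < ∑ v ∈ E, (d v + d (τ v)) := by
    rw [sum_add_distrib, e, sum_const_zero]; omega
  obtain ⟨x, hx, k⟩ := exists_lt_of_sum_lt this
  obtain ⟨a, b, c⟩ := hE x hx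
  refine ⟨{x, τ x}, fun v hv => ?_, fun v hv => ?_, card_le_two, ?_, ?_⟩
  · rcases mem_insert.1 hv with r | r
    · exact r ▸ hx
    · exact mem_singleton.1 r ▸ a
  · rcases mem_insert.1 hv with r | r
    · rw [r]; simp
    · rw [mem_singleton.1 r, c]; simp
  · rwa [sum_pair b.symm]
  · rw [sum_pair b.symm]
    have := abs_le.1 (hd x hx)
    have := abs_le.1 (hd _ a)
    omega

omit [Fintype V] in
theorem two_pairs {τ : V → V} {E : Finset V} (hE : ∀ x ∈ E, τ x ∈ E ∧ τ x ≠ x ∧ τ (τ x) = x)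
    (d : V → ℤ) {ω : ℤ} (h0 : 0 ≤ ω) (hd : ∀ x ∈ E, |d x| ≤ ω) (hs : 2 * ω < ∑ v ∈ E, d v) :
    ∃ P ⊆ E, ∃ Q ⊆ E, Disjoint P Q ∧ (∀ x ∈ P, τ x ∈ P) ∧ (∀ x ∈ Q, τ x ∈ Q) ∧ P.card ≤ 2 ∧
      Q.card ≤ 2 ∧ 0 < ∑ v ∈ P, d v ∧ ∑ v ∈ P, d v ≤ 2 * ω ∧ 0 < ∑ v ∈ Q, d v ∧
      ∑ v ∈ Q, d v ≤ 2 * ω := by
  obtain ⟨P, p1, p2, p3, p4, p5⟩ := pos_pair hE d hd (by omega)
  have := sum_sdiff (f := d) p1
  obtain ⟨Q, q1, q2, q3, q4, q5⟩ := pos_pair (τ := τ) (E := E \ P) (fun x hx => by
    obtain ⟨a, b⟩ := mem_sdiff.1 hx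
    obtain ⟨c, e, f⟩ := hE x a
    exact ⟨mem_sdiff.2 ⟨c, fun k => b (f ▸ p2 _ k)⟩, e, f⟩) d
    (fun x hx => hd x (mem_sdiff.1 hx).1) (by omega)
  exact ⟨P, p1, Q, q1.trans sdiff_subset, disjoint_left.2 fun x a b => (mem_sdiff.1 (q1 b)).2 a,
    p2, q2, p3, q3, p4, p5, q4, q5⟩

variable [Fintype ι] [DecidableEq ι] {G : SimpleGraph V}

/-- the result of an exchange of the colours `a`, `b` at the ends in `P` -/
structure Sw (G : SimpleGraph V) (M M' : ι → V → V) (a b : ι) (P : Finset V) : Prop where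
  pc : PC G M'
  cg : cg M' = cg M
  oth : ∀ i, i ≠ a → i ≠ b → M' i = M i
  wa : ∀ w, wt (M' a) w = wt (M a) w - ∑ v ∈ P, (ind (M a) v - ind (M b) v) * w v
  wb : ∀ w, wt (M' b) w = wt (M b) w + ∑ v ∈ P, (ind (M a) v - ind (M b) v) * w v

theorem swap_set (hK : KempeStmt) {M : ι → V → V} (h : PC G M) (a b : ι) :
    ∃ (τ : V → V) (E : Finset V), (∀ x ∈ E, τ x ∈ E ∧ τ x ≠ x ∧ τ (τ x) = x) ∧
      (∀ w, wt (M a) w - wt (M b) w = ∑ v ∈ E, (ind (M a) v - ind (M b) v) * w v) ∧
      ∀ P ⊆ E, (∀ x ∈ P, τ x ∈ P) → ∃ M', Sw G M M' a b P := by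
  obtain ⟨τ, hτ⟩ := hK V (M a) (M b) (h.inv a) (h.inv b)
  have hE : ∀ x, x ∈ univ.filter (fun x => ind (M a) x - ind (M b) x ≠ 0) ↔
      (M a x = x ↔ M b x ≠ x) := fun x => by rw [mem_filter, sg_ne]; simp
  refine ⟨τ, univ.filter (fun x => ind (M a) x - ind (M b) x ≠ 0), fun x hx => ?_, fun w => ?_,
    fun P hP hc => ?_⟩
  · obtain ⟨t1, t2, t3, -⟩ := hτ x ((hE x).1 hx)
    exact ⟨(hE _).2 t1, t2, t3⟩
  · rw [wt_eq, wt_eq, ← sum_sub_distrib, sum_filter]
    refine sum_congr rfl fun v _ => ?_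
    split_ifs with r
    · ring
    · rw [← sub_mul, not_not.1 r, zero_mul]
  · have : ∀ x, ∃ K : Finset V, x ∈ P → x ∈ K ∧ (∀ v ∈ K, M a v ∈ K ∧ M b v ∈ K) ∧
        ∀ v ∈ K, M a v = v ∨ M b v = v → v ∈ P := by
      intro x
      by_cases hx : x ∈ P
      · obtain ⟨-, -, -, K, k1, -, k3, k4⟩ := hτ x ((hE x).1 (hP hx))
        exact ⟨K, fun _ => ⟨k1, k3, fun v hv r => (k4 v hv r).elim (fun e => e ▸ hx)
          (fun e => e ▸ hc x hx)⟩⟩
      · exact ⟨∅, fun r => absurd r hx⟩
    choose K hK using this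
    have cl : ∀ v ∈ P.biUnion K, M a v ∈ P.biUnion K ∧ M b v ∈ P.biUnion K := by
      intro v hv
      obtain ⟨x, hx, r⟩ := mem_biUnion.1 hv
      have := (hK x hx).2.1 v r
      exact ⟨mem_biUnion.2 ⟨x, hx, this.1⟩, mem_biUnion.2 ⟨x, hx, this.2⟩⟩
    have e : ∀ w : V → ℤ, ∑ v ∈ P, (ind (M a) v - ind (M b) v) * w v =
        ∑ v, if v ∈ P.biUnion K then (ind (M a) v - ind (M b) v) * w v else 0 := by
      intro w
      rw [← sum_filter, filter_mem_eq_inter, univ_inter]
      refine sum_subset (fun x hx => mem_biUnion.2 ⟨x, hx, (hK x hx).1⟩) fun v hv hn => ?_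
      obtain ⟨x, hx, r⟩ := mem_biUnion.1 hv
      have : ind (M a) v - ind (M b) v = 0 := by
        by_contra c
        have := sg_ne.1 c
        exact hn ((hK x hx).2.2 v r (by tauto))
      rw [this, zero_mul]
    obtain ⟨s1, s2⟩ := h.swapK cl
    refine ⟨_, s1, s2, fun i c d => swapK_other _ c d, fun w => ?_, fun w => ?_⟩
    · rw [e, wt_eq, wt_eq, ← sum_sub_distrib]
      refine sum_congr rfl fun v _ => ?_
      split_ifs with r
      · have : ind (swapK M a b (P.biUnion K) a) v = ind (M b) v := by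
          unfold ind; rw [swapK_mem r, Equiv.swap_apply_left]
        rw [this]; ring
      · have : ind (swapK M a b (P.biUnion K) a) v = ind (M a) v := by
          unfold ind; rw [swapK_not r]
        rw [this]; ring
    · rw [e, wt_eq, wt_eq, ← sum_add_distrib]
      refine sum_congr rfl fun v _ => ?_
      split_ifs with r
      · have : ind (swapK M a b (P.biUnion K) b) v = ind (M a) v := by
          unfold ind; rw [swapK_mem r, Equiv.swap_apply_right]
        rw [this]; ring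
      · have : ind (swapK M a b (P.biUnion K) b) v = ind (M b) v := by
          unfold ind; rw [swapK_not r]
        rw [this]; ring

omit [Fintype ι] in
theorem sum_two {I : Finset ι} {a b : ι} (ha : a ∈ I) (hb : b ∈ I) (hab : a ≠ b) (f g : ι → ℤ)
    (h : ∀ i, i ≠ a → i ≠ b → g i = f i) :
    ∑ i ∈ I, g i = ∑ i ∈ I, f i + (g a - f a) + (g b - f b) := by
  have : ∑ i ∈ ({a, b} : Finset ι), (g i - f i) = ∑ i ∈ I, (g i - f i) :=
    sum_subset (fun x hx => by rcases mem_insert.1 hx with r | r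
                               · exact r ▸ ha
                               · exact mem_singleton.1 r ▸ hb) fun i _ hi => by
      rw [h i (fun r => hi (by simp [r])) (fun r => hi (by simp [r])), sub_self]
  rw [sum_pair hab, sum_sub_distrib] at this
  omega

omit [Fintype ι] in
theorem Sw.sum_eq {M M' : ι → V → V} {a b : ι} {P : Finset V} (s : Sw G M M' a b P) {I : Finset ι}
    (ha : a ∈ I) (hb : b ∈ I) (hab : a ≠ b) (w : V → ℤ) :
    ∑ i ∈ I, wt (M' i) w = ∑ i ∈ I, wt (M i) w := by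
  rw [sum_two ha hb hab (fun i => wt (M i) w) (fun i => wt (M' i) w)
    (fun i c d => by rw [s.oth i c d]), s.wa, s.wb]
  ring

omit [Fintype ι] in
theorem Sw.pot_lt {M M' : ι → V → V} {a b : ι} {P : Finset V} (s : Sw G M M' a b P) {I : Finset ι}
    (ha : a ∈ I) (hb : b ∈ I) (w : V → ℤ)
    (h1 : 0 < ∑ v ∈ P, (ind (M a) v - ind (M b) v) * w v)
    (h2 : ∑ v ∈ P, (ind (M a) v - ind (M b) v) * w v < wt (M a) w - wt (M b) w) :
    ∑ i ∈ I, wt (M' i) w ^ 2 < ∑ i ∈ I, wt (M i) w ^ 2 := by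
  have hab : a ≠ b := by rintro rfl; omega
  rw [sum_two ha hb hab (fun i => wt (M i) w ^ 2) (fun i => wt (M' i) w ^ 2)
    (fun i c d => by rw [s.oth i c d]), s.wa, s.wb]
  nlinarith [mul_pos h1 (sub_pos.2 h2)]

theorem exists_min (St : (ι → V → V) → Prop) {M : ι → V → V} (h : St M) (I : Finset ι)
    (w : V → ℤ) : ∃ M', St M' ∧ ∀ N, St N → ∑ i ∈ I, wt (M' i) w ^ 2 ≤ ∑ i ∈ I, wt (N i) w ^ 2 := by
  classical
  obtain ⟨M', a, b⟩ := exists_min_image (univ.filter St) (fun N => ∑ i ∈ I, wt (N i) w ^ 2)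
    ⟨M, mem_filter.2 ⟨mem_univ _, h⟩⟩
  exact ⟨M', (mem_filter.1 a).2, fun N k => b N (mem_filter.2 ⟨mem_univ _, k⟩)⟩

omit [Fintype V] in
theorem sgw_abs (α β : V → V) {w : V → ℤ} {ω : ℤ} {x : V} (h : |w x| ≤ ω) :
    |(ind α x - ind β x) * w x| ≤ ω := by
  rw [abs_mul]
  have := sg_abs α β x
  have := abs_nonneg (w x)
  nlinarith

omit [Fintype V] in
theorem one_abs (S : Finset V) (x : V) : |one S x| ≤ 1 := by
  unfold one; split_ifs <;> simp

end Eqs

open Eqs

theorem eq_of (hK : KempeStmt) : EqStmt := by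
  intro V ι _ _ _ _ G M S h hf
  obtain ⟨M', ⟨p, f⟩, hm⟩ := exists_min (fun N => PC G N ∧ Full G N) ⟨h, hf⟩ univ (one S)
  refine ⟨M', p, f, fun i j => ?_⟩
  by_contra hn
  have e1 := card_fx_add (M' i) S
  have e2 := card_fx_add (M' j) S
  have e3 := wt_one (M' i) S
  have e4 := wt_one (M' j) S
  obtain ⟨τ, E, t1, t2, t3⟩ := swap_set hK p j i
  have e5 := t2 (one S)
  obtain ⟨P, p1, p2, -, p4, p5⟩ := pos_pair t1 (fun v => (ind (M' j) v - ind (M' i) v) * one S v)
    (fun x _ => sgw_abs _ _ (one_abs S x)) (by omega)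
  obtain ⟨N, s⟩ := t3 P p1 p2
  have := s.pot_lt (mem_univ _) (mem_univ _) (one S) p4 (by omega)
  have := hm N ⟨s.pc, s.pc.full_iff.2 (s.cg ▸ p.full_iff.1 f)⟩
  omega

theorem weq_of (hK : KempeStmt) : WeqStmt := by
  intro V ι _ _ _ _ G M I S w ω h hw
  obtain ⟨M', ⟨p, c, o, q, t⟩, hm⟩ := exists_min (fun N => PC G N ∧ cg N = cg M ∧
    (∀ i, i ∉ I → N i = M i) ∧ (∀ i, Even (wt (N i) (one S) - wt (M i) (one S))) ∧
    ∑ i ∈ I, wt (N i) (fun v => (w v : ℤ)) = ∑ i ∈ I, wt (M i) (fun v => (w v : ℤ)))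
    ⟨h, rfl, fun _ _ => rfl, fun i => by simp, rfl⟩ I (fun v => (w v : ℤ))
  have key : ∀ a ∈ I, ∀ b ∈ I,
      wt (M' a) (fun v => (w v : ℤ)) ≤ wt (M' b) (fun v => (w v : ℤ)) + 4 * ω := by
    intro a ha b hb
    by_contra hn
    have hab : a ≠ b := by rintro rfl; omega
    obtain ⟨τ, E, t1, t2, t3⟩ := swap_set hK p a b
    have e5 := t2 (fun v => (w v : ℤ))
    have fin : ∀ P ⊆ E, (∀ x ∈ P, τ x ∈ P) →
        0 < ∑ v ∈ P, (ind (M' a) v - ind (M' b) v) * (w v : ℤ) →
        ∑ v ∈ P, (ind (M' a) v - ind (M' b) v) * (w v : ℤ) ≤ 4 * ω →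
        ¬ Even (∑ v ∈ P, (ind (M' a) v - ind (M' b) v) * one S v) := by
      intro P p1 p2 p3 p4 p5
      obtain ⟨N, s⟩ := t3 P p1 p2
      have := s.pot_lt ha hb (fun v => (w v : ℤ)) p3 (by omega)
      have := hm N ⟨s.pc, s.cg.trans c, fun i hi => (s.oth i (fun r => hi (r ▸ ha))
        (fun r => hi (r ▸ hb))).trans (o i hi), fun i => ?_, (s.sum_eq ha hb hab _).trans t⟩
      · omega
      · by_cases ia : i = a
        · rw [ia, s.wa, sub_right_comm]; exact (q a).sub p5
        · by_cases ib : i = b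
          · rw [ib, s.wb, add_sub_right_comm]; exact (q b).add p5
          · rw [s.oth i ia ib]; exact q i
    obtain ⟨P, p1, Q, q1, d, p2, q2, -, -, p4, p5, q4, q5⟩ := two_pairs t1
      (fun v => (ind (M' a) v - ind (M' b) v) * (w v : ℤ)) (ω := ω) (by omega)
      (fun x _ => sgw_abs (w := fun v => (w v : ℤ)) _ _ (by simpa using hw x)) (by omega)
    have f1 := fin P p1 p2 p4 (by omega)
    have f2 := fin Q q1 q2 q4 (by omega)
    refine fin (P ∪ Q) (union_subset p1 q1) (fun x hx => ?_) ?_ ?_ ?_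
    · rcases mem_union.1 hx with r | r
      · exact mem_union_left _ (p2 x r)
      · exact mem_union_right _ (q2 x r)
    · rw [sum_union d]; omega
    · rw [sum_union d]; omega
    · rw [sum_union d]; exact (Int.not_even_iff_odd.1 f1).add_odd (Int.not_even_iff_odd.1 f2)
  refine ⟨M', p, c, o, fun i => ?_, fun i hi => ?_⟩
  · have := q i
    rw [wt_one, wt_one, Int.even_iff] at this
    omega
  · have h1 := sum_le_sum fun b hb => key i hi b hb
    rw [sum_add_distrib, t, sum_const, sum_const] at h1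
    rw [← sum_mv_w]
    simp only [wt, nsmul_eq_mul] at h1
    zify
    linarith

theorem balw_of (hK : KempeStmt) : BalwStmt := by
  intro V ι _ _ _ _ G M A B δ s h hf hd hs he hc hδ
  have wd : ∀ μ : V → V, wt μ (fun v => one A v - one B v) =
      ((mv μ ∩ A).card : ℤ) - (mv μ ∩ B).card := fun μ => by
    rw [← wt_one, ← wt_one]; exact sum_sub_distrib _ _
  have cu : ∀ μ : V → V, (mv μ ∩ (A ∪ B)).card = (mv μ ∩ A).card + (mv μ ∩ B).card := fun μ => by
    rw [inter_union_distrib_left, card_union_of_disjoint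
      (hd.mono inter_subset_right inter_subset_right)]
  have h0 : ∑ i, wt (M i) (fun v => one A v - one B v) = Fintype.card ι * δ := by
    have a := h.sum_mv A
    have b := h.sum_mv B
    rw [h.cg_eq hf] at a b
    simp only [wd, sum_sub_distrib]
    rw [← hs]
    zify at a b
    rw [a, b]
  obtain ⟨M', ⟨p, f, t, q⟩, hm⟩ := exists_min (fun N => PC G N ∧ Full G N ∧
    ∑ i, wt (N i) (fun v => one A v - one B v) = Fintype.card ι * δ ∧
    ∀ i, Even (wt (N i) (fun v => one A v - one B v) - δ) ∧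
      wt (N i) (one (A ∪ B)) + 2 * |wt (N i) (fun v => one A v - one B v) - δ| ≤ 5 * s)
    ⟨h, hf, h0, fun i => by
      have a := he i
      have b := hc i
      rw [wt_one, wd]
      rw [cu] at a b ⊢
      rw [Int.even_iff] at a ⊢
      rw [Int.abs_eq_natAbs]
      omega⟩ univ (fun v => one A v - one B v)
  have key : ∀ a b, δ < wt (M' a) (fun v => one A v - one B v) →
      wt (M' b) (fun v => one A v - one B v) < δ → False := by
    intro a b ha hb
    have hab : a ≠ b := by rintro rfl; omega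
    obtain ⟨qa, ra⟩ := q a
    obtain ⟨qb, rb⟩ := q b
    rw [Int.even_iff] at qa qb
    rw [Int.abs_eq_natAbs] at ra rb
    obtain ⟨τ, E, t1, t2, t3⟩ := swap_set hK p a b
    have e5 := t2 (fun v => one A v - one B v)
    have fin : ∀ P ⊆ E, (∀ x ∈ P, τ x ∈ P) → P.card ≤ 4 →
        ∑ v ∈ P, (ind (M' a) v - ind (M' b) v) * (one A v - one B v) ≠ 2 := by
      intro P p1 p2 p3 p4
      obtain ⟨N, w⟩ := t3 P p1 p2
      have sz : |∑ v ∈ P, (ind (M' a) v - ind (M' b) v) * one (A ∪ B) v| ≤ 4 := by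
        refine (abs_sum_le_sum_abs _ _).trans ((sum_le_card_nsmul P _ 1 fun x _ =>
          sgw_abs _ _ (one_abs _ x)).trans ?_)
        simpa using (show (P.card : ℤ) ≤ 4 by exact_mod_cast p3)
      rw [abs_le] at sz
      have := w.pot_lt (mem_univ _) (mem_univ _) (fun v => one A v - one B v) (by omega) (by omega)
      have := hm N ⟨w.pc, w.pc.full_iff.2 (w.cg ▸ p.full_iff.1 f),
        (w.sum_eq (mem_univ _) (mem_univ _) hab _).trans t, fun i => ?_⟩
      · omega
      · by_cases ia : i = a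
        · rw [ia, w.wa, w.wa, Int.even_iff, Int.abs_eq_natAbs]; omega
        · by_cases ib : i = b
          · rw [ib, w.wb, w.wb, Int.even_iff, Int.abs_eq_natAbs]; omega
          · rw [w.oth i ia ib]; exact q i
    obtain ⟨P, p1, Q, q1, d, p2, q2, p3, q3, p4, p5, q4, q5⟩ := two_pairs t1
      (fun v => (ind (M' a) v - ind (M' b) v) * (one A v - one B v)) (ω := 1) (by omega)
      (fun x _ => sgw_abs (w := fun v => one A v - one B v) _ _
        (by unfold one; split_ifs <;> simp)) (by omega)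
    have f1 := fin P p1 p2 (by omega)
    have f2 := fin Q q1 q2 (by omega)
    refine fin (P ∪ Q) (union_subset p1 q1) (fun x hx => ?_)
      ((card_union_le _ _).trans (by omega)) ?_
    · rcases mem_union.1 hx with r | r
      · exact mem_union_left _ (p2 x r)
      · exact mem_union_right _ (q2 x r)
    · rw [sum_union d]; omega
  have all : ∀ i, wt (M' i) (fun v => one A v - one B v) = δ := by
    have e : ∑ _i : ι, δ = ∑ i, wt (M' i) (fun v => one A v - one B v) := by
      rw [t, sum_const, card_univ, nsmul_eq_mul]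
    by_cases hx : ∃ a, δ < wt (M' a) (fun v => one A v - one B v)
    · obtain ⟨a, ha⟩ := hx
      exact fun i => (((sum_eq_sum_iff_of_le fun b _ =>
        not_lt.1 fun r => key a b ha r).1 e) i (mem_univ _)).symm
    · exact fun i => ((sum_eq_sum_iff_of_le fun b _ =>
        not_lt.1 fun r => hx ⟨b, r⟩).1 e.symm) i (mem_univ _)
  refine ⟨M', p, f, fun i => (wd _).symm.trans (all i), fun i => ?_⟩
  have := (q i).2
  rw [all i, wt_one, sub_self, abs_zero] at this
  omega

end Pool.Agent.MP_5c8b6d_co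

end
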