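import Mathlib.Data.Int.Star
import Mathlib.Algebra.Order.Star.Real
import Mathlib.Analysis.Complex.ExponentialBounds
import Mathlib.Tactic.Algebra.Basic
import Pool.Agent.MP_5c8b6d_co.Core

section

/-! PART: a partition that splits given sets evenly and cuts a quarter of the edges. -/

namespace Pool.Agent.MP_5c8b6d_co

open Finset

namespace Part

variable {V κ : Type} [Fintype V] [DecidableEq V] [Fintype κ] [DecidableEq κ]

lemma one_step (hk : 2 ≤ Fintype.card κ) (p : κ) (x : ℝ) (hx : |x| ≤ 1) :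
    ∑ c : κ, Real.exp (x * ((if c = p then 1 else 0) - 1 / (Fintype.card κ : ℝ))) ≤
      Fintype.card κ * Real.exp (x ^ 2) := by
  have hr : (2 : ℝ) ≤ Fintype.card κ := by exact_mod_cast hk
  have hr0 : (0 : ℝ) < Fintype.card κ := by linarith
  have hi0 : (0 : ℝ) < 1 / (Fintype.card κ : ℝ) := by positivity
  have hi1 : 1 / (Fintype.card κ : ℝ) ≤ 1 := by
    rw [div_le_one hr0]; linarith
  have h1 : ∀ c : κ, Real.exp (x * ((if c = p then 1 else 0) - 1 / (Fintype.card κ : ℝ))) ≤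
      1 + x ^ 2 + x * ((if c = p then 1 else 0) - 1 / (Fintype.card κ : ℝ)) := by
    intro c
    set y : ℝ := (if c = p then 1 else 0) - 1 / (Fintype.card κ : ℝ) with hy
    have hy1 : |y| ≤ 1 := by
      rw [abs_le]; constructor <;> rw [hy] <;> split_ifs <;> linarith
    have hxy : |x * y| ≤ 1 := by
      rw [abs_mul]; exact mul_le_one₀ hx (abs_nonneg _) hy1
    have h2 := Real.abs_exp_sub_one_sub_id_le hxy
    have h3 : (x * y) ^ 2 ≤ x ^ 2 := by
      have : y ^ 2 ≤ 1 := by rw [← sq_abs]; exact pow_le_one₀ (abs_nonneg _) hy1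
      rw [mul_pow]; nlinarith [sq_nonneg x]
    have h4 := (abs_le.1 h2).2
    linarith
  calc ∑ c : κ, Real.exp (x * ((if c = p then 1 else 0) - 1 / (Fintype.card κ : ℝ)))
      ≤ ∑ c : κ, (1 + x ^ 2 + x * ((if c = p then 1 else 0) - 1 / (Fintype.card κ : ℝ))) :=
        sum_le_sum fun c _ => h1 c
    _ = Fintype.card κ * (1 + x ^ 2) := by
        rw [sum_add_distrib, ← mul_sum, sum_sub_distrib]
        simp only [sum_const, card_univ, nsmul_eq_mul, sum_ite_eq', mem_univ, if_true]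
        field_simp
        ring
    _ ≤ Fintype.card κ * Real.exp (x ^ 2) := by
        have := Real.add_one_le_exp (x ^ 2)
        apply mul_le_mul_of_nonneg_left _ hr0.le
        linarith

lemma mgf (hk : 2 ≤ Fintype.card κ) (F : Finset V) (p : κ) (x : ℝ) (hx : |x| ≤ 1) :
    ∑ f : V → κ, Real.exp (x * ((cls F f p).card - F.card / (Fintype.card κ : ℝ))) ≤
      (Fintype.card κ : ℝ) ^ Fintype.card V * Real.exp (x ^ 2 * F.card) := by
  set g : V → κ → ℝ := fun v c => if v ∈ F then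
    Real.exp (x * ((if c = p then 1 else 0) - 1 / (Fintype.card κ : ℝ))) else 1 with hg
  have h1 : ∀ f : V → κ, Real.exp (x * ((cls F f p).card - F.card / (Fintype.card κ : ℝ))) =
      ∏ v, g v (f v) := by
    intro f
    simp only [hg]
    rw [prod_ite_mem, univ_inter, ← Real.exp_sum, ← mul_sum, sum_sub_distrib]
    congr 2
    simp only [sum_const, nsmul_eq_mul, cls, sum_boole]
    ring
  have h2 : ∑ f : V → κ, ∏ v, g v (f v) = ∏ v, ∑ c, g v c := by
    rw [Finset.prod_univ_sum, Fintype.piFinset_univ]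
  have h3 : ∀ v, ∑ c, g v c ≤ Fintype.card κ * (if v ∈ F then Real.exp (x ^ 2) else 1) := by
    intro v
    by_cases hv : v ∈ F
    · simp only [hg, hv, if_true]; exact one_step hk p x hx
    · simp [hg, hv]
  have h4 : ∀ v, 0 ≤ ∑ c, g v c := fun v => sum_nonneg fun c _ => by
    simp only [hg]; split_ifs <;> positivity
  simp_rw [h1]
  rw [h2]
  calc ∏ v, ∑ c, g v c
      ≤ ∏ v, (Fintype.card κ * (if v ∈ F then Real.exp (x ^ 2) else 1) : ℝ) :=
        prod_le_prod (fun v _ => h4 v) (fun v _ => h3 v)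
    _ = _ := by
        rw [prod_mul_distrib, prod_ite_mem, univ_inter, prod_const, prod_const, card_univ,
          ← Real.exp_nat_mul, mul_comm (F.card : ℝ)]

lemma tail (hk : 2 ≤ Fintype.card κ) (F : Finset V) (p : κ) (η n : ℕ) (hF : F.card ≤ n)
    (hη : η < n) (s : ℝ) (hs : |s| = 1) :
    ((univ.filter (fun f : V → κ =>
      (η : ℝ) ≤ s * ((cls F f p).card - F.card / (Fintype.card κ : ℝ)))).card : ℝ) *
      Real.exp (η ^ 2 / (4 * n)) ≤ (Fintype.card κ : ℝ) ^ Fintype.card V := by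
  have hn : (0 : ℝ) < n := by exact_mod_cast (by omega : 0 < n)
  have hηn : (η : ℝ) ≤ n := by exact_mod_cast hη.le
  have hFn : (F.card : ℝ) ≤ n := by exact_mod_cast hF
  set l : ℝ := η / (2 * n) with hl
  have hl0 : 0 ≤ l := by positivity
  have hl1 : l ≤ 1 := by rw [hl, div_le_one (by positivity)]; linarith
  have hx : |l * s| ≤ 1 := by rw [abs_mul, hs, mul_one, abs_of_nonneg hl0]; exact hl1
  have hs2 : s ^ 2 = 1 := by rw [← sq_abs, hs]; norm_num
  have h1 := mgf hk F p (l * s) hx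
  set B := univ.filter (fun f : V → κ =>
      (η : ℝ) ≤ s * ((cls F f p).card - F.card / (Fintype.card κ : ℝ))) with hB
  have h2 : (B.card : ℝ) * Real.exp (l * η) ≤
      ∑ f : V → κ, Real.exp (l * s * ((cls F f p).card - F.card / (Fintype.card κ : ℝ))) := by
    calc (B.card : ℝ) * Real.exp (l * η) = ∑ f ∈ B, Real.exp (l * η) := by simp
      _ ≤ ∑ f ∈ B, Real.exp (l * s * ((cls F f p).card - F.card / (Fintype.card κ : ℝ))) := by
          apply sum_le_sum
          intro f hf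
          apply Real.exp_le_exp.2
          rw [mul_assoc]
          exact mul_le_mul_of_nonneg_left (mem_filter.1 hf).2 hl0
      _ ≤ _ := sum_le_sum_of_subset_of_nonneg (subset_univ _) fun _ _ _ => (Real.exp_pos _).le
  have h3 : Real.exp ((l * s) ^ 2 * F.card) ≤ Real.exp (η ^ 2 / (4 * n)) := by
    apply Real.exp_le_exp.2
    rw [mul_pow, hs2, mul_one]
    calc l ^ 2 * F.card ≤ l ^ 2 * n := mul_le_mul_of_nonneg_left hFn (sq_nonneg _)
      _ = η ^ 2 / (4 * n) := by rw [hl]; field_simp; ring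
  have h4 : Real.exp (l * η) = Real.exp (η ^ 2 / (4 * n)) * Real.exp (η ^ 2 / (4 * n)) := by
    rw [← Real.exp_add]; congr 1; rw [hl]; field_simp; ring
  have h5 : (0 : ℝ) < Real.exp (η ^ 2 / (4 * n)) := Real.exp_pos _
  have h6 : (0 : ℝ) ≤ (Fintype.card κ : ℝ) ^ Fintype.card V := by positivity
  apply le_of_mul_le_mul_right _ h5
  calc (B.card : ℝ) * Real.exp (η ^ 2 / (4 * n)) * Real.exp (η ^ 2 / (4 * n))
      = B.card * Real.exp (l * η) := by rw [h4]; ring
    _ ≤ _ := h2.trans (h1.trans (mul_le_mul_of_nonneg_left h3 h6))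

lemma half_eq (hk : 2 ≤ Fintype.card κ) (u v : V) (huv : u ≠ v) :
    2 * (univ.filter (fun f : V → κ => f u = f v)).card ≤ Fintype.card κ ^ Fintype.card V := by
  have : Nontrivial κ := Fintype.one_lt_card_iff_nontrivial.1 (by omega)
  choose τ hτ using fun c : κ => exists_ne c
  have h1 : (univ.filter (fun f : V → κ => f u = f v)).card ≤
      (univ.filter (fun f : V → κ => ¬ f u = f v)).card := by
    apply card_le_card_of_injOn (fun f => Function.update f v (τ (f u)))
    · intro f _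
      simp only [coe_filter, mem_univ, true_and, Set.mem_ofPred_eq, Function.update_self,
        Function.update_of_ne huv]
      exact (hτ _).symm
    · intro f hf f' hf' h
      have hf1 : f u = f v := by simpa using hf
      have hf2 : f' u = f' v := by simpa using hf'
      have h2 : ∀ w, w ≠ v → f w = f' w := fun w hw => by
        have := congrFun h w
        simpa [Function.update_of_ne hw] using this
      funext w
      by_cases hw : w = v
      · rw [hw, ← hf1, ← hf2]; exact h2 u huv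
      · exact h2 w hw
  have h2 := card_filter_add_card_filter_not (s := (univ : Finset (V → κ)))
    (fun f => f u = f v)
  rw [card_univ, Fintype.card_fun] at h2
  omega

omit [DecidableEq V] [Fintype κ] in
lemma dg_split (H : SimpleGraph V) (f : V → κ) (v : V) :
    dg H v univ = dg H v (univ.filter (fun u => f u = f v)) +
      dg H v (univ.filter (fun u => f u ≠ f v)) := by
  classical
  unfold dg nb
  rw [filter_comm (fun u => f u = f v), filter_comm (fun u => f u ≠ f v)]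
  convert (card_filter_add_card_filter_not (s := univ.filter (H.Adj v))
    (fun u => f u = f v)).symm

lemma sum_nc (hk : 2 ≤ Fintype.card κ) (H : SimpleGraph V) :
    2 * ∑ f : V → κ, ∑ v, dg H v (univ.filter (fun u => f u = f v)) ≤
      Fintype.card κ ^ Fintype.card V * ∑ v, dg H v univ := by
  classical
  rw [sum_comm, mul_sum, mul_sum]
  apply sum_le_sum
  intro v _
  have h1 : ∀ f : V → κ, dg H v (univ.filter (fun u => f u = f v)) =
      ∑ u ∈ nb H v univ, if f u = f v then 1 else 0 := by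
    intro f
    unfold dg nb
    rw [filter_comm (fun u => f u = f v), card_filter]
  simp_rw [h1]
  rw [sum_comm, mul_sum, dg, card_eq_sum_ones, mul_sum]
  apply sum_le_sum
  intro u hu
  have huv : u ≠ v := by
    unfold nb at hu
    exact ((mem_filter.1 hu).2).ne.symm
  rw [← card_filter, mul_one]
  exact half_eq hk u v huv

lemma few_uncut (hk : 2 ≤ Fintype.card κ) (H : SimpleGraph V) :
    3 * (univ.filter (fun f : V → κ => ¬ ∑ v, dg H v univ ≤
      4 * ∑ v, dg H v (univ.filter (fun u => f u ≠ f v)))).card ≤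
      2 * Fintype.card κ ^ Fintype.card V := by
  set B := univ.filter (fun f : V → κ => ¬ ∑ v, dg H v univ ≤
      4 * ∑ v, dg H v (univ.filter (fun u => f u ≠ f v))) with hB
  rcases Nat.eq_zero_or_pos (∑ v, dg H v univ) with h0 | h0
  · have : B = ∅ := by
      rw [hB, filter_eq_empty_iff]
      intro f _
      rw [h0]; simp
    rw [this]; simp
  have h1 := sum_nc (κ := κ) hk H
  have h2 : ∀ f ∈ B, 3 * ∑ v, dg H v univ ≤
      4 * ∑ v, dg H v (univ.filter (fun u => f u = f v)) := by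
    intro f hf
    have h3 := (mem_filter.1 hf).2
    have h4 : ∑ v, dg H v univ = ∑ v, dg H v (univ.filter (fun u => f u = f v)) +
        ∑ v, dg H v (univ.filter (fun u => f u ≠ f v)) := by
      rw [← sum_add_distrib]; exact sum_congr rfl fun v _ => dg_split H f v
    omega
  have h3 : B.card * (3 * ∑ v, dg H v univ) ≤
      4 * ∑ f : V → κ, ∑ v, dg H v (univ.filter (fun u => f u = f v)) := by
    calc B.card * (3 * ∑ v, dg H v univ) = ∑ f ∈ B, 3 * ∑ v, dg H v univ := by simp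
      _ ≤ ∑ f ∈ B, 4 * ∑ v, dg H v (univ.filter (fun u => f u = f v)) := sum_le_sum h2
      _ ≤ ∑ f : V → κ, 4 * ∑ v, dg H v (univ.filter (fun u => f u = f v)) :=
          sum_le_sum_of_subset (subset_univ _)
      _ = _ := by rw [mul_sum]
  apply Nat.le_of_mul_le_mul_right _ h0
  linarith

lemma few_uneven (hk : 2 ≤ Fintype.card κ) (𝓕 : Finset (Finset V)) (η n : ℕ)
    (hF : ∀ F ∈ 𝓕, F.card ≤ n)
    (he : (8 * Fintype.card κ * 𝓕.card : ℝ) < Real.exp (η ^ 2 / (4 * n)))
    (B : Finset (V → κ)) (hB : ∀ f ∈ B, ¬ ∀ F ∈ 𝓕, Evn f η F) :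
    4 * B.card ≤ Fintype.card κ ^ Fintype.card V := by
  classical
  have hr : (2 : ℝ) ≤ Fintype.card κ := by exact_mod_cast hk
  have hr0 : (0 : ℝ) < Fintype.card κ := by linarith
  by_cases hη : n ≤ η
  · have : B = ∅ := by
      apply eq_empty_of_forall_notMem
      intro f hf
      apply hB f hf
      intro F hF' p
      have h1 := hF F hF'
      have h2 : (cls F f p).card ≤ F.card := card_filter_le _ _
      constructor <;> nlinarith
    rw [this]; simp
  push Not at hη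
  set bad : Finset V → κ → ℝ → Finset (V → κ) := fun F p s => univ.filter (fun f : V → κ =>
      (η : ℝ) ≤ s * ((cls F f p).card - F.card / (Fintype.card κ : ℝ))) with hbad
  have h1 : B ⊆ (𝓕 ×ˢ (univ : Finset κ)).biUnion
      (fun a => bad a.1 a.2 1 ∪ bad a.1 a.2 (-1)) := by
    intro f hf
    have h2 := hB f hf
    push Not at h2
    obtain ⟨F, hF', h3⟩ := h2
    unfold Evn at h3
    push Not at h3
    obtain ⟨p, h4⟩ := h3
    refine mem_biUnion.2 ⟨(F, p), mem_product.2 ⟨hF', mem_univ _⟩, ?_⟩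
    simp only [hbad, mem_union, mem_filter, mem_univ, true_and]
    have h6 : (F.card : ℝ) / Fintype.card κ * Fintype.card κ = F.card := by field_simp
    by_cases h5 : F.card ≤ Fintype.card κ * ((cls F f p).card + η)
    · left
      have h7 : (F.card + Fintype.card κ * η : ℝ) < Fintype.card κ * (cls F f p).card := by
        exact_mod_cast h4 h5
      apply le_of_mul_le_mul_right _ hr0
      linarith
    · right
      have h7 : (Fintype.card κ * ((cls F f p).card + η) : ℝ) < F.card := by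
        exact_mod_cast not_le.1 h5
      apply le_of_mul_le_mul_right _ hr0
      linarith
  set E := Real.exp (η ^ 2 / (4 * n)) with hE
  set N : ℝ := (Fintype.card κ : ℝ) ^ Fintype.card V with hN
  have hE0 : 0 < E := Real.exp_pos _
  have hN0 : 0 < N := by positivity
  have h2 : ∀ a ∈ 𝓕 ×ˢ (univ : Finset κ),
      ((bad a.1 a.2 1 ∪ bad a.1 a.2 (-1)).card : ℝ) * E ≤ 2 * N := by
    intro a ha
    have h3 := tail hk a.1 a.2 η n (hF _ (mem_product.1 ha).1) hη 1 (by simp)
    have h4 := tail hk a.1 a.2 η n (hF _ (mem_product.1 ha).1) hη (-1) (by simp)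
    have h5 : ((bad a.1 a.2 1 ∪ bad a.1 a.2 (-1)).card : ℝ) ≤
        (bad a.1 a.2 1).card + (bad a.1 a.2 (-1)).card := by
      exact_mod_cast card_union_le _ _
    have h6 := mul_le_mul_of_nonneg_right h5 hE0.le
    change ((bad a.1 a.2 1).card : ℝ) * E ≤ N at h3
    change ((bad a.1 a.2 (-1)).card : ℝ) * E ≤ N at h4
    linarith
  have h3 : (B.card : ℝ) ≤ ∑ a ∈ 𝓕 ×ˢ (univ : Finset κ),
      ((bad a.1 a.2 1 ∪ bad a.1 a.2 (-1)).card : ℝ) := by
    exact_mod_cast (card_le_card h1).trans card_biUnion_le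
  have h4 : (B.card : ℝ) * E ≤ 𝓕.card * Fintype.card κ * (2 * N) := by
    calc (B.card : ℝ) * E ≤ ∑ a ∈ 𝓕 ×ˢ (univ : Finset κ),
        ((bad a.1 a.2 1 ∪ bad a.1 a.2 (-1)).card : ℝ) * E := by
          rw [← sum_mul]; exact mul_le_mul_of_nonneg_right h3 hE0.le
      _ ≤ ∑ a ∈ 𝓕 ×ˢ (univ : Finset κ), 2 * N := sum_le_sum h2
      _ = _ := by simp [card_product]
  have h5 : (4 * B.card : ℝ) ≤ N := by
    apply le_of_mul_le_mul_right _ hE0
    nlinarith
  have h6 : ((4 * B.card : ℕ) : ℝ) ≤ ((Fintype.card κ ^ Fintype.card V : ℕ) : ℝ) := by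
    push_cast; exact h5
  exact_mod_cast h6

end Part

theorem part : PartStmt := by
  intro V κ _ _ _ _ H 𝓕 η n hk hF he
  classical
  by_contra hc
  push Not at hc
  have h1 := Part.few_uncut (κ := κ) hk H
  have h2 := Part.few_uneven hk 𝓕 η n hF he
    (univ.filter (fun f : V → κ => ¬ ∀ F ∈ 𝓕, Evn f η F)) (fun f hf => (mem_filter.1 hf).2)
  have h3 : (univ : Finset (V → κ)) ⊆
      univ.filter (fun f : V → κ => ¬ ∀ F ∈ 𝓕, Evn f η F) ∪
      univ.filter (fun f : V → κ => ¬ ∑ v, dg H v univ ≤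
        4 * ∑ v, dg H v (univ.filter (fun u => f u ≠ f v))) := by
    intro f _
    simp only [mem_union, mem_filter, mem_univ, true_and]
    by_cases h : ∀ F ∈ 𝓕, Evn f η F
    · right; exact not_le.2 (hc f h)
    · left; exact h
  have h4 := (card_le_card h3).trans (card_union_le _ _)
  rw [card_univ, Fintype.card_fun] at h4
  have h5 : 0 < Fintype.card κ ^ Fintype.card V := pow_pos (by omega) _
  omega

end Pool.Agent.MP_5c8b6d_co

end

section

/-! PERM (averaging over permutations) and PRE (greedy small matchings). -/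

namespace Pool.Agent.MP_5c8b6d_co

open Finset

set_option linter.unusedSectionVars false

namespace Perm

section A

variable {ι : Type} [Fintype ι] [DecidableEq ι]

theorem card_fix (S : Finset ι) :
    (univ.filter (fun π : Equiv.Perm ι => ∀ i ∈ S, π i = i)).card =
      (Fintype.card ι - S.card).factorial := by
  have e := Equiv.Perm.subtypeEquivSubtypePerm (fun i : ι => i ∉ S)
  have h := Fintype.card_congr e
  rw [Fintype.card_perm, Fintype.card_subtype, Fintype.card_subtype] at h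
  have h2 : (univ.filter (fun i : ι => i ∉ S)).card = Fintype.card ι - S.card := by
    rw [← card_compl]; congr 1; ext i; simp
  rw [h2] at h
  rw [h]; congr 1; ext π; simp

theorem card_agree (S : Finset ι) (g : ι → ι) :
    (univ.filter (fun π : Equiv.Perm ι => ∀ i ∈ S, π i = g i)).card ≤
      (Fintype.card ι - S.card).factorial := by
  rcases (univ.filter (fun π : Equiv.Perm ι => ∀ i ∈ S, π i = g i)).eq_empty_or_nonempty with
    h | ⟨π0, h0⟩
  · rw [h]; simp
  · rw [← card_fix S]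
    refine card_le_card_of_injOn (fun π => π0⁻¹ * π) ?_ ?_
    · intro π hπ
      simp only [coe_filter, mem_univ, true_and, Set.mem_ofPred_eq, mem_filter] at hπ h0 ⊢
      intro i hi
      rw [Equiv.Perm.mul_apply, hπ i hi, ← h0 i hi]; simp
    · intro a _ b _ h; exact mul_left_cancel h

theorem card_in (Z : ι → Finset ι) {y : ℕ} (hZ : ∀ i, (Z i).card ≤ y) (S : Finset ι) :
    (univ.filter (fun π : Equiv.Perm ι => ∀ i ∈ S, π i ∈ Z i)).card ≤
      y ^ S.card * (Fintype.card ι - S.card).factorial := by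
  have h := card_le_mul_card_image_of_maps_to
    (s := univ.filter (fun π : Equiv.Perm ι => ∀ i ∈ S, π i ∈ Z i))
    (t := Fintype.piFinset (fun i => if i ∈ S then Z i else {i}))
    (f := fun π i => if i ∈ S then π i else i) ?_ (Fintype.card ι - S.card).factorial ?_
  · refine h.trans ?_
    rw [mul_comm]
    refine Nat.mul_le_mul_right _ ?_
    rw [Fintype.card_piFinset]
    calc ∏ i, (if i ∈ S then Z i else {i}).card ≤ ∏ i, (if i ∈ S then y else 1) := by
          refine prod_le_prod' fun i _ => ?_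
          split_ifs
          · exact hZ i
          · simp
      _ = y ^ S.card := by rw [prod_ite_mem]; simp
  · intro π hπ
    rw [Fintype.mem_piFinset]
    intro i
    by_cases hi : i ∈ S
    · simp only [if_pos hi]; exact (mem_filter.1 hπ).2 i hi
    · simp [hi]
  · intro g _
    refine le_trans (card_le_card ?_) (card_agree S g)
    intro π hπ
    simp only [mem_filter, mem_univ, true_and] at hπ ⊢
    intro i hi
    have := congrFun hπ.2 i
    simpa [hi] using this

theorem sum_fact (k y : ℕ) :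
    ∑ j ∈ range (k + 1), k.choose j * (y ^ j * (k - j).factorial) ≤ k.factorial * 3 ^ y := by
  have h1 : ∀ j ∈ range (k + 1), ((k.choose j * (y ^ j * (k - j).factorial) : ℕ) : ℝ) =
      k.factorial * ((y : ℝ) ^ j / j.factorial) := by
    intro j hj
    have := Nat.choose_mul_factorial_mul_factorial (Nat.lt_succ_iff.1 (mem_range.1 hj))
    have hj0 : (j.factorial : ℝ) ≠ 0 := by exact_mod_cast j.factorial_ne_zero
    rw [← this]; push_cast; field_simp
  have h2 := Real.sum_le_exp_of_nonneg (x := (y : ℝ)) (Nat.cast_nonneg y) (k + 1)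
  have h3 : Real.exp (y : ℝ) ≤ 3 ^ y := by
    rw [← Real.exp_one_pow]
    exact pow_le_pow_left₀ (Real.exp_pos 1).le (by linarith [Real.exp_one_lt_d9]) y
  have h4 : ((∑ j ∈ range (k + 1), k.choose j * (y ^ j * (k - j).factorial) : ℕ) : ℝ) ≤
      ((k.factorial * 3 ^ y : ℕ) : ℝ) := by
    rw [Nat.cast_sum, sum_congr rfl h1, ← mul_sum]
    push_cast
    exact mul_le_mul_of_nonneg_left (h2.trans h3) (Nat.cast_nonneg _)
  exact_mod_cast h4

theorem sum_pow (Z : ι → Finset ι) {y : ℕ} (hZ : ∀ i, (Z i).card ≤ y) :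
    ∑ π : Equiv.Perm ι, 2 ^ (univ.filter (fun i => π i ∈ Z i)).card ≤
      (Fintype.card ι).factorial * 3 ^ y := by
  have h1 : ∀ π : Equiv.Perm ι, 2 ^ (univ.filter (fun i => π i ∈ Z i)).card =
      ∑ S ∈ (univ : Finset ι).powerset, if (∀ i ∈ S, π i ∈ Z i) then 1 else 0 := by
    intro π
    rw [← card_powerset, ← card_filter]
    congr 1; ext S; simp [subset_iff]
  simp only [h1]
  rw [sum_comm]
  simp only [← card_filter]
  refine (sum_le_sum fun S _ => card_in Z hZ S).trans ?_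
  rw [sum_powerset_apply_card (fun j => y ^ j * (Fintype.card ι - j).factorial)]
  simpa using sum_fact (Fintype.card ι) y

end A

section B

variable {V ι : Type} [Fintype V] [DecidableEq V] [Fintype ι] [DecidableEq ι] {G : SimpleGraph V}

/-- one edge in colour `j` -/
def one (j : ι) (u v : V) (i : ι) : V → V := if i = j then Equiv.swap u v else fun x => x

theorem one_ne {j i : ι} {u v x : V} (h : one j u v i x ≠ x) :
    i = j ∧ ((x = u ∧ one j u v i x = v) ∨ (x = v ∧ one j u v i x = u)) := by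
  by_cases hi : i = j
  · refine ⟨hi, ?_⟩
    simp only [one, if_pos hi] at h ⊢
    by_cases a : x = u
    · exact Or.inl ⟨a, by rw [a]; simp⟩
    · by_cases b : x = v
      · exact Or.inr ⟨b, by rw [b]; simp⟩
      · exact absurd (Equiv.swap_apply_of_ne_of_ne a b) h
  · simp [one, hi] at h

theorem one_pc (j : ι) {u v : V} (h : G.Adj u v) : PC G (one j u v) := by
  refine ⟨fun i x => ?_, fun i x a => ?_, fun i i' x a b => ?_⟩
  · by_cases hi : i = j <;> simp [one, hi]
  · rcases (one_ne a).2 with ⟨b, c⟩ | ⟨b, c⟩ <;> rw [c, b]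
    exacts [h, h.symm]
  · have c : one j u v i' x ≠ x := b ▸ a
    rw [(one_ne a).1, (one_ne c).1]

theorem step {P Y : ι → Finset V} {m : ι → ℕ} {a o L d : ℕ} (hP : ∀ j, (P j).Nonempty)
    (hd : ∀ j, ∀ v ∈ P j, d ≤ dg G v (P j)) (hm : ∀ j, m j ≤ a) (hY : ∀ j, (Y j).card ≤ a)
    (hL : 0 < L) (ho : 2 * a * Fintype.card ι ≤ L * o) (hs : 3 * a + o + L < d)
    {N : ι → V → V} (h1 : PC G N) (h3 : ∀ j, (mv (N j)).card = 2 * m j) (j : ι) :
    ∃ u v, G.Adj u v ∧ ¬ (cg N).Adj u v ∧ ∀ x, x = u ∨ x = v →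
      x ∈ P j \ Y j ∧ x ∉ mv (N j) ∧ dg (cg N) x univ < L := by
  let O : Finset V := univ.filter (fun x => L ≤ dg (cg N) x univ)
  have hO : O.card ≤ o := by
    have e1 := h1.sum_mv univ
    simp only [inter_univ, h3] at e1
    have e2 : ∑ i, 2 * m i ≤ 2 * a * Fintype.card ι := by
      have := sum_le_sum (s := (univ : Finset ι)) fun i _ => Nat.mul_le_mul_left 2 (hm i)
      simpa [mul_comm] using this
    have e3 : O.card * L ≤ ∑ x ∈ O, dg (cg N) x univ := by
      simpa using card_nsmul_le_sum O (fun x => dg (cg N) x univ) L fun x hx => (mem_filter.1 hx).2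
    have e4 : ∑ x ∈ O, dg (cg N) x univ ≤ ∑ x, dg (cg N) x univ :=
      sum_le_sum_of_subset (subset_univ _)
    exact Nat.le_of_mul_le_mul_right (c := L) (by nlinarith) hL
  let B : Finset V := Y j ∪ mv (N j) ∪ O
  have hB : B.card ≤ 3 * a + o := by
    have := card_union_le (Y j ∪ mv (N j)) O
    have := card_union_le (Y j) (mv (N j))
    have := hY j; have := h3 j; have := hm j
    simp only [B]; omega
  have good : ∀ x ∈ P j, x ∉ B → x ∈ P j \ Y j ∧ x ∉ mv (N j) ∧ dg (cg N) x univ < L := by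
    intro x hx hb
    simp only [B, O, mem_union, not_or, mem_filter, mem_univ, true_and, not_le] at hb
    exact ⟨mem_sdiff.2 ⟨hx, hb.1.1⟩, hb.1.2, hb.2⟩
  obtain ⟨w, hw⟩ := hP j
  have hc : B.card < (P j).card := by
    have := dg_lt_card (G := G) hw; have := hd j w hw; omega
  obtain ⟨u, hu, hub⟩ := exists_mem_notMem_of_card_lt_card hc
  have hu' := good u hu hub
  have hc2 : (B ∪ nb (cg N) u univ).card < (nb G u (P j)).card := by
    have := card_union_le B (nb (cg N) u univ)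
    have := hd j u hu
    have := hu'.2.2
    unfold dg at *; omega
  obtain ⟨v, hv, hvb⟩ := exists_mem_notMem_of_card_lt_card hc2
  rw [mem_union, not_or] at hvb
  refine ⟨u, v, (mem_nb.1 hv).2, fun k => hvb.2 (mem_nb.2 ⟨mem_univ _, k⟩), ?_⟩
  rintro x (rfl | rfl)
  exacts [hu', good _ (mem_nb.1 hv).1 hvb.1]

end B

end Perm

theorem perm : PermStmt := by
  intro β ι _ _ _ T Z y t hZ ht
  have h : ∑ π : Equiv.Perm ι, ∑ v ∈ T, 2 ^ (univ.filter (fun i => π i ∈ Z v i)).card <
      ∑ _π : Equiv.Perm ι, 2 ^ t := by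
    rw [sum_comm]
    calc _ ≤ ∑ _v ∈ T, (Fintype.card ι).factorial * 3 ^ y :=
          sum_le_sum fun v _ => Perm.sum_pow (Z v) (hZ v)
      _ = (Fintype.card ι).factorial * (T.card * 3 ^ y) := by simp; ring
      _ < (Fintype.card ι).factorial * 2 ^ t :=
          mul_lt_mul_of_pos_left ht (Nat.factorial_pos _)
      _ = _ := by simp [Fintype.card_perm]
  obtain ⟨π, -, hπ⟩ := exists_lt_of_sum_lt h
  refine ⟨π, fun v hv => ?_⟩
  have := single_le_sum (f := fun v => 2 ^ (univ.filter (fun i => π i ∈ Z v i)).card)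
    (fun _ _ => Nat.zero_le _) hv
  exact ((Nat.pow_lt_pow_iff_right (by norm_num)).1 (lt_of_le_of_lt this hπ)).le

theorem pre : PreStmt := by
  intro V ι _ _ _ _ G P Y m a o L d hP hd hm hY hL ho hs
  induction h : ∑ j, m j generalizing m with
  | zero =>
    refine ⟨fun _ v => v, pc_id, fun j => ?_, fun j => ?_, fun v => ?_⟩
    · intro x hx; simp at hx
    · have : m j = 0 := (sum_eq_zero_iff.1 h) j (mem_univ _)
      rw [this]; simp [mv]
    · rw [cg_id, dg_eq_zero.2 (by simp)]; exact Nat.zero_le _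
  | succ n ih =>
    obtain ⟨j, -, hj⟩ := exists_ne_zero_of_sum_ne_zero (s := univ) (f := m) (by omega)
    let m' : ι → ℕ := fun i => if i = j then m j - 1 else m i
    have hm' : ∀ i, m' i ≤ a := fun i => by
      have := hm i; have := hm j; simp only [m']; split_ifs <;> omega
    have hs' : ∑ i, m' i = n := by
      have e1 := add_sum_erase univ m (mem_univ j)
      have e2 := add_sum_erase univ m' (mem_univ j)
      have e3 : ∑ i ∈ univ.erase j, m' i = ∑ i ∈ univ.erase j, m i :=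
        sum_congr rfl fun i hi => if_neg (ne_of_mem_erase hi)
      have e4 : m' j = m j - 1 := if_pos rfl
      omega
    obtain ⟨N, h1, h2, h3, h4⟩ := ih m' hm' hs'
    obtain ⟨u, v, huv, hn, hx⟩ := Perm.step hP hd hm' hY hL ho hs h1 h3 j
    have hpc := Perm.one_pc j huv
    have hend : ∀ i x, Perm.one j u v i x ≠ x → i = j ∧ (x = u ∨ x = v) := fun i x k =>
      ⟨(Perm.one_ne k).1, (Perm.one_ne k).2.imp And.left And.left⟩
    have hdis : ∀ i, Disjoint (mv (N i)) (mv (Perm.one j u v i)) := fun i =>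
      disjoint_left.2 fun x a b => by
        obtain ⟨rfl, c⟩ := hend i x (mem_mv.1 b)
        exact (hx x c).2.1 a
    have hg : Disjoint (cg N) (cg (Perm.one j u v)) := disjoint_iff_adj.2 fun x z a b => by
      obtain ⟨c, i, e⟩ := (cg_adj hpc.inv).1 b
      rcases (Perm.one_ne (e ▸ c.symm : Perm.one j u v i x ≠ x)).2 with ⟨p, q⟩ | ⟨p, q⟩
      · exact hn (by rw [← p, ← q, e]; exact a)
      · exact hn (by rw [← p, ← q, e]; exact a.symm)
    refine ⟨_, h1.glue hpc hg hdis, fun i => ?_, fun i => ?_, fun x => ?_⟩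
    · rw [mv_glue]
      refine union_subset (h2 i) fun x b => ?_
      obtain ⟨rfl, c⟩ := hend i x (mem_mv.1 b)
      exact (hx x c).1
    · rw [mv_glue, card_union_of_disjoint (hdis i), h3]
      by_cases hi : i = j
      · subst hi
        have : mv (Perm.one i u v i) = {u, v} := by
          rw [Perm.one, if_pos rfl]; exact mv_swap huv.ne
        rw [this, card_pair huv.ne]
        simp only [m', if_true]; omega
      · have : mv (Perm.one j u v i) = ∅ := by
          rw [Perm.one, if_neg hi]; simp [mv]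
        rw [this]; simp [m', hi]
    · have e1 := dg_mono (cg_glue_le h1.inv hpc.inv) x univ
      have e2 := dg_sup_le (G := cg N) (G' := cg (Perm.one j u v)) x univ
      have e3 := hpc.dg_cg x
      by_cases c : x = u ∨ x = v
      · have e4 : (univ.filter (fun i => Perm.one j u v i x ≠ x)).card ≤ 1 :=
          card_le_one.2 fun p hp q hq => by
            rw [(hend p x (mem_filter.1 hp).2).1, (hend q x (mem_filter.1 hq).2).1]
        have := (hx x c).2.2
        omega
      · have e4 : (univ.filter (fun i => Perm.one j u v i x ≠ x)).card = 0 :=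
          card_eq_zero.2 (filter_eq_empty_iff.2 fun i _ k => c (hend i x k).2)
        have := h4 x
        omega

end Pool.Agent.MP_5c8b6d_co

end

section

/-! Greedy colouring of small bundles of edges. -/

namespace Pool.Agent.MP_5c8b6d_co

open Finset

namespace Plb

/-- greedy choice of colours with conflicts and weights -/
theorem choice {ι κ : Type} [Fintype ι] [DecidableEq ι] [DecidableEq κ] [Nonempty ι]
    (Fr : κ → Finset ι) (r : κ → κ → Prop) [∀ a b, Decidable (r a b)]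
    (hr : ∀ a b, r a b → r b a) (W : κ → ℕ) (B q τ : ℕ) (𝒦 : Finset κ) :
    (∀ g ∈ 𝒦, W g ≤ B) → (∀ g ∈ 𝒦, q + (𝒦.filter (r g)).card ≤ (Fr g).card) →
    ∑ g ∈ 𝒦, W g < τ * q →
    ∃ col : κ → ι, (∀ g ∈ 𝒦, col g ∈ Fr g) ∧
      (∀ g ∈ 𝒦, ∀ g' ∈ 𝒦, g ≠ g' → col g = col g' → ¬ r g g') ∧
      ∀ i, ∑ g ∈ 𝒦.filter (fun g => col g = i), W g ≤ τ + B := by
  induction 𝒦 using Finset.induction_on with
  | empty => intro _ _ _; exact ⟨fun _ => Classical.arbitrary ι, by simp, by simp, by simp⟩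
  | insert g 𝒦 hg ih =>
    intro hW hF hS
    rw [sum_insert hg] at hS
    obtain ⟨col, h1, h2, h3⟩ := ih (fun a ha => hW a (mem_insert_of_mem ha))
      (fun a ha => le_trans (Nat.add_le_add_left
        (card_le_card (filter_subset_filter _ (subset_insert _ _))) _) (hF a (mem_insert_of_mem ha)))
      (by omega)
    set B1 := (𝒦.filter (r g)).image col with hB1
    set B2 := univ.filter (fun i => τ ≤ ∑ a ∈ 𝒦.filter (fun a => col a = i), W a) with hB2
    have c1 : B1.card ≤ ((insert g 𝒦).filter (r g)).card :=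
      card_image_le.trans (card_le_card (filter_subset_filter _ (subset_insert _ _)))
    have c2 : B2.card < q := by
      have e1 : ∑ i, ∑ a ∈ 𝒦.filter (fun a => col a = i), W a = ∑ a ∈ 𝒦, W a :=
        sum_fiberwise_of_maps_to (fun _ _ => mem_univ _) W
      have e2 : B2.card * τ ≤ ∑ i ∈ B2, ∑ a ∈ 𝒦.filter (fun a => col a = i), W a := by
        have := card_nsmul_le_sum B2 (fun i => ∑ a ∈ 𝒦.filter (fun a => col a = i), W a) τ
          (fun i hi => (mem_filter.1 hi).2)
        simpa using this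
      have e3 : ∑ i ∈ B2, ∑ a ∈ 𝒦.filter (fun a => col a = i), W a ≤
          ∑ i, ∑ a ∈ 𝒦.filter (fun a => col a = i), W a :=
        sum_le_sum_of_subset (subset_univ _)
      have e4 : τ * B2.card < τ * q := by rw [mul_comm τ B2.card]; omega
      exact Nat.lt_of_mul_lt_mul_left e4
    have c3 : (B1 ∪ B2).card < (Fr g).card := by
      have := card_union_le B1 B2
      have := hF g (mem_insert_self _ _)
      omega
    obtain ⟨i, hi, hi'⟩ := exists_mem_notMem_of_card_lt_card c3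
    rw [mem_union, not_or] at hi'
    have hi2 : ∑ a ∈ 𝒦.filter (fun a => col a = i), W a < τ := by
      by_contra k
      exact hi'.2 (mem_filter.2 ⟨mem_univ _, by omega⟩)
    have hne : ∀ a ∈ 𝒦, Function.update col g i a = col a := fun a ha =>
      Function.update_of_ne (fun k : a = g => hg (k ▸ ha)) _ _
    have hb : ∀ a ∈ 𝒦, col a = i → ¬ r g a := fun a ha k l =>
      hi'.1 (mem_image.2 ⟨a, mem_filter.2 ⟨ha, l⟩, k⟩)
    refine ⟨Function.update col g i, ?_, ?_, ?_⟩
    · intro a ha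
      rcases mem_insert.1 ha with rfl | ha
      · simpa using hi
      · rw [hne a ha]; exact h1 a ha
    · intro a ha b hb' hab e
      rcases mem_insert.1 ha with rfl | ha2 <;> rcases mem_insert.1 hb' with rfl | hb2
      · exact absurd rfl hab
      · rw [hne b hb2, Function.update_self] at e; exact hb b hb2 e.symm
      · rw [hne a ha2, Function.update_self] at e; exact fun l => hb a ha2 e (hr _ _ l)
      · rw [hne a ha2, hne b hb2] at e; exact h2 a ha2 b hb2 hab e
    · intro j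
      have e1 : 𝒦.filter (fun a => Function.update col g i a = j) =
          𝒦.filter (fun a => col a = j) := filter_congr fun a ha => by rw [hne a ha]
      rw [filter_insert, e1]
      split_ifs with k
      · rw [Function.update_self] at k
        subst k
        rw [sum_insert (fun l => hg (mem_filter.1 l).1)]
        have := hW g (mem_insert_self _ _)
        omega
      · exact h3 j

theorem core (V ι κ : Type) [Fintype V] [DecidableEq V] [Fintype ι] [DecidableEq ι]
    [DecidableEq κ] [Nonempty ι]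
    (G : SimpleGraph V) (ψ0 : ι → V → V) (𝒦 : Finset κ) (ν : κ → V → V) (I : Finset ι)
    (Xf : ι → Finset V) (w : V → ℕ) (ω q τ : ℕ) (h0 : PC G ψ0)
    (hinv : ∀ g ∈ 𝒦, ∀ v, ν g (ν g v) = v)
    (hadj : ∀ g ∈ 𝒦, ∀ v, ν g v ≠ v → G.Adj v (ν g v) ∧ ∀ i, ψ0 i v ≠ ν g v)
    (h4 : ∀ g ∈ 𝒦, (mv (ν g)).card ≤ 4)
    (huq : ∀ g ∈ 𝒦, ∀ g' ∈ 𝒦, ∀ v, ν g v ≠ v → ν g v = ν g' v → g = g')
    (hfr : ∀ g ∈ 𝒦, q + ∑ v ∈ mv (ν g), (𝒦.filter (fun g' => v ∈ mv (ν g'))).card ≤
      (I.filter (fun i => ∀ v ∈ mv (ν g), ψ0 i v = v ∧ v ∉ Xf i)).card)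
    (hw : ∀ v, w v ≤ ω) (hs : ∑ g ∈ 𝒦, ∑ v ∈ mv (ν g), w v < τ * q) :
    ∃ (ψ : ι → V → V) (col : κ → ι), PC G ψ ∧ Ext ψ0 ψ ∧
      (∀ g ∈ 𝒦, col g ∈ I ∧ ∀ v ∈ mv (ν g), ψ (col g) v = ν g v ∧ ψ0 (col g) v = v ∧
        v ∉ Xf (col g)) ∧
      (∀ i v, ψ i v ≠ v → ψ0 i v = v → ∃ g ∈ 𝒦, col g = i ∧ v ∈ mv (ν g)) ∧
      (∀ g ∈ 𝒦, ∀ g' ∈ 𝒦, g ≠ g' → col g = col g' → Disjoint (mv (ν g)) (mv (ν g'))) ∧
      ∀ i, ∑ v ∈ mv (ψ i), w v ≤ ∑ v ∈ mv (ψ0 i), w v + τ + 4 * ω := by
  classical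
  obtain ⟨col, h1, h2, h3⟩ := choice
    (fun g => I.filter (fun i => ∀ v ∈ mv (ν g), ψ0 i v = v ∧ v ∉ Xf i))
    (fun g g' => ¬ Disjoint (mv (ν g)) (mv (ν g'))) (fun _ _ k l => k l.symm)
    (fun g => ∑ v ∈ mv (ν g), w v) (4 * ω) q τ 𝒦
    (fun g hg => by
      have := sum_le_card_nsmul (mv (ν g)) w ω (fun v _ => hw v)
      rw [smul_eq_mul] at this
      exact this.trans (Nat.mul_le_mul_right _ (h4 g hg)))
    (fun g hg => by
      refine le_trans (Nat.add_le_add_left ?_ _) (hfr g hg)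
      refine le_trans (card_le_card ?_) card_biUnion_le
      intro a ha
      obtain ⟨ha1, ha2⟩ := mem_filter.1 ha
      obtain ⟨v, hv, hv'⟩ := not_disjoint_iff.1 ha2
      exact mem_biUnion.2 ⟨v, hv, mem_filter.2 ⟨ha1, hv'⟩⟩) hs
  have h2' : ∀ g ∈ 𝒦, ∀ g' ∈ 𝒦, g ≠ g' → col g = col g' → Disjoint (mv (ν g)) (mv (ν g')) :=
    fun g hg g' hg' a b => not_not.1 (h2 g hg g' hg' a b)
  have hfix : ∀ g ∈ 𝒦, ∀ v ∈ mv (ν g), ψ0 (col g) v = v ∧ v ∉ Xf (col g) :=
    fun g hg => (mem_filter.1 (h1 g hg)).2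
  let ψ : ι → V → V := fun i v =>
    if h : ∃ g ∈ 𝒦, col g = i ∧ v ∈ mv (ν g) then ν h.choose v else ψ0 i v
  have k1 : ∀ g ∈ 𝒦, ∀ v ∈ mv (ν g), ψ (col g) v = ν g v := fun g hg v hv => by
    have he : ∃ g' ∈ 𝒦, col g' = col g ∧ v ∈ mv (ν g') := ⟨g, hg, rfl, hv⟩
    obtain ⟨a, b, c⟩ := he.choose_spec
    simp only [ψ, dif_pos he]
    by_cases e : he.choose = g
    · rw [e]
    · exact absurd hv (disjoint_left.1 (h2' _ a g hg e b) c)
  have k2 : ∀ i v, (¬ ∃ g ∈ 𝒦, col g = i ∧ v ∈ mv (ν g)) → ψ i v = ψ0 i v :=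
    fun i v h => dif_neg h
  have k3 : Ext ψ0 ψ := fun i v a => k2 i v fun ⟨g, hg, b, c⟩ => a (b ▸ (hfix g hg v c).1)
  have k4 : ∀ i v, ψ i v ≠ v → ψ0 i v = v → ∃ g ∈ 𝒦, col g = i ∧ v ∈ mv (ν g) :=
    fun i v a b => by
      by_contra c
      exact a ((k2 i v c).trans b)
  refine ⟨ψ, col, ⟨fun i v => ?_, fun i v a => ?_, fun i j v a b => ?_⟩, k3,
    fun g hg => ⟨(mem_filter.1 (h1 g hg)).1, fun v hv => ⟨k1 g hg v hv, hfix g hg v hv⟩⟩, k4,
    h2', fun i => ?_⟩
  · by_cases c : ∃ g ∈ 𝒦, col g = i ∧ v ∈ mv (ν g)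
    · obtain ⟨g, hg, rfl, hv⟩ := c
      rw [k1 g hg v hv, k1 g hg _ (mem_mv.2 (inv_ne (hinv g hg) (mem_mv.1 hv))), hinv g hg]
    · have e := k2 i v c
      by_cases d : ψ0 i v = v
      · rw [e, d, e, d]
      · rw [e, k3 i _ (inv_ne (h0.inv i) d), h0.inv]
  · by_cases c : ∃ g ∈ 𝒦, col g = i ∧ v ∈ mv (ν g)
    · obtain ⟨g, hg, rfl, hv⟩ := c
      rw [k1 g hg v hv]; exact (hadj g hg v (mem_mv.1 hv)).1
    · rw [k2 i v c] at a ⊢; exact h0.adj i v a
  · by_cases c : ∃ g ∈ 𝒦, col g = i ∧ v ∈ mv (ν g) <;>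
      by_cases d : ∃ g ∈ 𝒦, col g = j ∧ v ∈ mv (ν g)
    · obtain ⟨g, hg, rfl, hv⟩ := c
      obtain ⟨g', hg', rfl, hv'⟩ := d
      rw [k1 g hg v hv, k1 g' hg' v hv'] at b
      rw [huq g hg g' hg' v (mem_mv.1 hv) b]
    · obtain ⟨g, hg, rfl, hv⟩ := c
      rw [k1 g hg v hv, k2 j v d] at b
      exact absurd b.symm ((hadj g hg v (mem_mv.1 hv)).2 j)
    · obtain ⟨g, hg, rfl, hv⟩ := d
      rw [k1 g hg v hv, k2 i v c] at b
      exact absurd b ((hadj g hg v (mem_mv.1 hv)).2 i)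
    · rw [k2 i v c] at a b
      rw [k2 j v d] at b
      exact h0.uniq i j v a b
  · have hsub : mv (ψ i) ⊆ mv (ψ0 i) ∪ (𝒦.filter (fun g => col g = i)).biUnion
        (fun g => mv (ν g)) := fun v hv => by
      by_cases c : ψ0 i v = v
      · obtain ⟨g, hg, a, b⟩ := k4 i v (mem_mv.1 hv) c
        exact mem_union_right _ (mem_biUnion.2 ⟨g, mem_filter.2 ⟨hg, a⟩, b⟩)
      · exact mem_union_left _ (mem_mv.2 c)
    have e1 := sum_le_sum_of_subset (f := w) hsub
    have e2 := sum_union_inter (s₁ := mv (ψ0 i)) (s₂ := (𝒦.filter (fun g => col g = i)).biUnion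
        (fun g => mv (ν g))) (f := w)
    have e3 : ∑ v ∈ (𝒦.filter (fun g => col g = i)).biUnion (fun g => mv (ν g)), w v =
        ∑ g ∈ 𝒦.filter (fun g => col g = i), ∑ v ∈ mv (ν g), w v := by
      refine sum_biUnion fun g hg g' hg' a => ?_
      have b := mem_filter.1 (mem_coe.1 hg)
      have c := mem_filter.1 (mem_coe.1 hg')
      exact h2' g b.1 g' c.1 a (b.2.trans c.2.symm)
    have e4 := h3 i
    omega

end Plb

theorem plb : PlbStmt := fun V ι κ _ _ _ _ _ _ => Plb.core V ι κ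

theorem plg_of (hP : PlbStmt) : PlgStmt := by
  intro V ι _ _ _ _ G H ψ0 I w ω q τ h0 hHG hd hfr hw hs
  rcases isEmpty_or_nonempty ι with hι | hι
  · have hq : 0 < q := Nat.pos_of_mul_pos_left (lt_of_le_of_lt (Nat.zero_le _) hs)
    have hH : H = ⊥ := by
      ext u v
      refine ⟨fun a => ?_, fun a => a.elim⟩
      have := hfr u v a
      have e : fr ψ0 I u v = 0 := by simp [fr, Finset.eq_empty_of_isEmpty]
      omega
    exact ⟨ψ0, h0, fun _ _ _ => rfl, by simp [hH], fun _ _ => rfl, fun i => hι.elim i,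
      fun i => hι.elim i⟩
  have hne : ∀ p ∈ oe H, p.1 ≠ p.2 := fun p hp => (mem_oe.1 hp).1.ne
  have hmv : ∀ p ∈ oe H, mv (Equiv.swap p.1 p.2) = {p.1, p.2} := fun p hp => mv_swap (hne p hp)
  have hsw : ∀ p ∈ oe H, ∀ v, Equiv.swap p.1 p.2 v ≠ v →
      (v = p.1 ∧ Equiv.swap p.1 p.2 v = p.2) ∨ (v = p.2 ∧ Equiv.swap p.1 p.2 v = p.1) :=
    fun p hp v a => by
      have b : v ∈ mv (Equiv.swap p.1 p.2) := mem_mv.2 a
      rw [hmv p hp] at b
      rcases mem_insert.1 b with c | c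
      · exact Or.inl ⟨c, by rw [c, Equiv.swap_apply_left]⟩
      · rw [mem_singleton] at c
        exact Or.inr ⟨c, by rw [c, Equiv.swap_apply_right]⟩
  have hH : ∀ p ∈ oe H, ∀ v, Equiv.swap p.1 p.2 v ≠ v → H.Adj v (Equiv.swap p.1 p.2 v) :=
    fun p hp v a => by
      rcases hsw p hp v a with ⟨b, c⟩ | ⟨b, c⟩
      · rw [c, b]; exact (mem_oe.1 hp).1
      · rw [c, b]; exact (mem_oe.1 hp).1.symm
  have hcnt : ∀ v, ((oe H).filter (fun p => v ∈ mv (Equiv.swap p.1 p.2))).card =
      dg H v univ := fun v => by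
    rw [← card_oe_at v]
    congr 1
    refine filter_congr fun p hp => ?_
    rw [hmv p hp]; simp [eq_comm]
  obtain ⟨ψ, col, k1, k2, k3, k4, -, k6⟩ := hP V ι (V × V) G ψ0 (oe H)
    (fun p => Equiv.swap p.1 p.2) I (fun _ => ∅) w ω q τ h0
    (fun p _ v => Equiv.swap_apply_self _ _ _)
    (fun p hp v a => ⟨hHG (hH p hp v a), fun i b => disjoint_iff_adj.1 hd _ _ (hH p hp v a)
      (b ▸ h0.cg_of (by rw [b]; exact a))⟩)
    (fun p hp => by rw [hmv p hp]; exact card_le_two.trans (by norm_num))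
    (fun p hp p' hp' v a b => by
      rcases hsw p hp v a with ⟨c, d⟩ | ⟨c, d⟩ <;>
        rcases hsw p' hp' v (b ▸ a) with ⟨c', d'⟩ | ⟨c', d'⟩
      · exact Prod.ext (c.symm.trans c') (d.symm.trans (b.trans d'))
      · refine absurd hp' (oe_not_both (u := p'.2) (v := p'.1) ?_)
        rw [← c', c, ← d', ← b, d]; exact hp
      · refine absurd hp' (oe_not_both (u := p'.2) (v := p'.1) ?_)
        rw [← c', c, ← d', ← b, d]; exact hp
      · exact Prod.ext (d.symm.trans (b.trans d')) (c.symm.trans c'))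
    (fun p hp => by
      simp only [hcnt]
      rw [hmv p hp, sum_pair (hne p hp)]
      have := hfr p.1 p.2 (mem_oe.1 hp).1
      rw [← add_assoc]
      refine this.trans (le_of_eq ?_)
      unfold fr
      congr 1
      exact filter_congr fun i _ => by simp)
    hw (by
      rw [sum_dg_mul] at hs
      refine lt_of_eq_of_lt (sum_congr rfl fun p hp => ?_) hs
      rw [hmv p hp, sum_pair (hne p hp)])
  have k5 : ∀ i v, ψ i v ≠ v → ψ0 i v = v → i ∈ I ∧ H.Adj v (ψ i v) := fun i v a b => by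
    obtain ⟨p, hp, rfl, c⟩ := k4 i v a b
    rw [((k3 p hp).2 v c).1]
    exact ⟨(k3 p hp).1, hH p hp v (mem_mv.1 c)⟩
  refine ⟨ψ, k1, k2, le_antisymm (fun u v a => ?_) (sup_le k2.cg_le fun u v a => ?_),
    fun i hi => funext fun v => ?_, fun i v a b => (k5 i v a b).2, k6⟩
  · obtain ⟨b, i, rfl⟩ := (cg_adj k1.inv).1 a
    by_cases c : ψ0 i u = u
    · exact Or.inr (k5 i u b.symm c).2
    · rw [k2 i u c]; exact Or.inl (h0.cg_of c)
  · refine (cg_adj k1.inv).2 ⟨a.ne, ?_⟩
    rcases oe_or a with b | b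
    · refine ⟨col (u, v), ?_⟩
      rw [((k3 _ b).2 u (by rw [hmv _ b]; simp)).1]
      exact Equiv.swap_apply_left _ _
    · refine ⟨col (v, u), ?_⟩
      rw [((k3 _ b).2 u (by rw [hmv _ b]; simp)).1]
      exact Equiv.swap_apply_right _ _
  · by_cases c : ψ0 i v = v
    · by_contra d
      exact hi (k5 i v (fun e => d (e.trans c.symm)) c).1
    · exact k2 i v c

end Pool.Agent.MP_5c8b6d_co

end

section

/-! Module FIXB: a pool of edges corrects the parities. -/

namespace Pool.Agent.MP_5c8b6d_co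

open Finset

set_option linter.unusedSectionVars false

namespace Fixb

/-- the pool is split in single edges for the colours of `E` and in pairs -/
theorem select {α ι : Type} [DecidableEq α] [DecidableEq ι] [Nonempty α] (O : Finset α)
    (E : Finset ι) (r : α → α → Prop) (s : ι → α → Prop) [∀ a b, Decidable (r a b)]
    [∀ i a, Decidable (s i a)] {c Bc Bi t : ℕ}
    (hr : ∀ a ∈ O, (O.filter fun b => ¬ r a b).card ≤ c)
    (hr' : ∀ b ∈ O, (O.filter fun a => ¬ r a b).card ≤ c)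
    (h1 : ∀ i ∈ E, (O.filter fun a => ¬ s i a).card ≤ Bc)
    (h2 : ∀ a ∈ O, (E.filter fun i => ¬ s i a).card ≤ Bi)
    (hc : O.card = E.card + 2 * t) (hn : 5 * c + Bc + Bi ≤ O.card) :
    ∃ (B : Finset α) (φ : α → α) (f : ι → α), B ⊆ O ∧ Set.InjOn φ B ∧
      (∀ a ∈ B, φ a ∈ O ∧ φ a ∉ B ∧ r a (φ a)) ∧ Set.InjOn f E ∧
      (∀ i ∈ E, f i ∈ O ∧ f i ∉ B ∧ f i ∉ B.image φ ∧ s i (f i)) ∧
      ∀ a ∈ O, a ∈ B ∨ a ∈ B.image φ ∨ a ∈ E.image f := by
  have pair : ∀ B W : Finset α, B ⊆ O → W ⊆ O → B.card ≤ W.card → 2 * c ≤ W.card →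
      ∃ φ : α → α, Set.InjOn φ B ∧ ∀ a ∈ B, φ a ∈ W ∧ r a (φ a) := fun B W hB hW k1 k2 =>
    half B W r c c (fun a ha => (card_le_card (filter_subset_filter _ hW)).trans (hr a (hB ha)))
      (fun b hb => (card_le_card (filter_subset_filter _ hB)).trans (hr' b (hW hb))) k1 (by omega)
  have sing : ∀ W : Finset α, W ⊆ O → E.card ≤ W.card → Bc + Bi ≤ W.card →
      ∃ f : ι → α, Set.InjOn f E ∧ ∀ i ∈ E, f i ∈ W ∧ s i (f i) := fun W hW k1 k2 =>
    half E W s Bc Bi (fun i hi => (card_le_card (filter_subset_filter _ hW)).trans (h1 i hi))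
      (fun a ha => h2 a (hW ha)) k1 k2
  suffices h : ∃ (B : Finset α) (φ : α → α) (f : ι → α), B.card = t ∧ B ⊆ O ∧ Set.InjOn φ B ∧
      (∀ a ∈ B, φ a ∈ O ∧ φ a ∉ B ∧ r a (φ a)) ∧ Set.InjOn f E ∧
      ∀ i ∈ E, f i ∈ O ∧ f i ∉ B ∧ f i ∉ B.image φ ∧ s i (f i) by
    obtain ⟨B, φ, f, k0, k1, k2, k3, k4, k5⟩ := h
    refine ⟨B, φ, f, k1, k2, k3, k4, k5, fun a ha => ?_⟩
    have d1 : Disjoint B (B.image φ) := disjoint_right.2 fun x hx => by
      obtain ⟨y, hy, rfl⟩ := mem_image.1 hx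
      exact (k3 y hy).2.1
    have d2 : Disjoint (B ∪ B.image φ) (E.image f) := disjoint_right.2 fun x hx => by
      obtain ⟨i, hi, rfl⟩ := mem_image.1 hx
      exact fun l => (mem_union.1 l).elim (k5 i hi).2.1 (k5 i hi).2.2.1
    have e : B ∪ B.image φ ∪ E.image f = O := eq_of_subset_of_card_le
      (union_subset (union_subset k1 (image_subset_iff.2 fun x hx => (k3 x hx).1))
        (image_subset_iff.2 fun i hi => (k5 i hi).1))
      (by
        rw [card_union_of_disjoint d2, card_union_of_disjoint d1, card_image_of_injOn k2,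
          card_image_of_injOn k4]
        omega)
    rw [← e, mem_union, mem_union, or_assoc] at ha
    exact ha
  by_cases ht : t < 2 * c
  · obtain ⟨B, hB, hBc⟩ := exists_subset_card_eq (s := O) (n := t) (by omega)
    have e1 := card_sdiff_add_card_eq_card hB
    obtain ⟨φ, k1, k2⟩ := pair B (O \ B) hB sdiff_subset (by omega) (by omega)
    have e2 := card_sdiff_add_card_eq_card (image_subset_iff.2 fun x hx => (k2 x hx).1)
    rw [card_image_of_injOn k1] at e2
    obtain ⟨f, k3, k4⟩ := sing ((O \ B) \ B.image φ) (sdiff_subset.trans sdiff_subset) (by omega)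
      (by omega)
    refine ⟨B, φ, f, hBc, hB, k1, fun a ha => ?_, k3, fun i hi => ?_⟩
    · exact ⟨(mem_sdiff.1 (k2 a ha).1).1, (mem_sdiff.1 (k2 a ha).1).2, (k2 a ha).2⟩
    · obtain ⟨l1, l2⟩ := mem_sdiff.1 (k4 i hi).1
      exact ⟨(mem_sdiff.1 l1).1, (mem_sdiff.1 l1).2, l2, (k4 i hi).2⟩
  · obtain ⟨f, k3, k4⟩ := sing O Subset.rfl (by omega) (by omega)
    have e1 := card_sdiff_add_card_eq_card (image_subset_iff.2 fun x hx => (k4 x hx).1)
    rw [card_image_of_injOn k3] at e1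
    obtain ⟨B, hB, hBc⟩ := exists_subset_card_eq (s := O \ E.image f) (n := t) (by omega)
    have e2 := card_sdiff_add_card_eq_card hB
    obtain ⟨φ, k1, k2⟩ := pair B ((O \ E.image f) \ B) (hB.trans sdiff_subset)
      (sdiff_subset.trans sdiff_subset) (by omega) (by omega)
    refine ⟨B, φ, f, hBc, hB.trans sdiff_subset, k1, fun a ha => ?_, k3, fun i hi =>
      ⟨(k4 i hi).1, fun l => (mem_sdiff.1 (hB l)).2 (mem_image_of_mem _ hi), fun l => ?_,
        (k4 i hi).2⟩⟩
    · obtain ⟨l1, l2⟩ := mem_sdiff.1 (k2 a ha).1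
      exact ⟨(mem_sdiff.1 l1).1, l2, (k2 a ha).2⟩
    · obtain ⟨a, ha, e⟩ := mem_image.1 l
      exact (mem_sdiff.1 (mem_sdiff.1 (k2 a ha).1).1).2 (e ▸ mem_image_of_mem _ hi)

variable {V : Type} [Fintype V] [DecidableEq V] {P : SimpleGraph V} {p p' : V × V} {v : V}

/-- the exchange of the two ends -/
def ex (p : V × V) : V → V := Equiv.swap p.1 p.2

theorem ex_inv (p : V × V) (v : V) : ex p (ex p v) = v := Equiv.swap_apply_self _ _ _

theorem ex_fst (p : V × V) : ex p p.1 = p.2 := Equiv.swap_apply_left _ _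

theorem ex_cases (h : ex p v ≠ v) : (v = p.1 ∧ ex p v = p.2) ∨ (v = p.2 ∧ ex p v = p.1) := by
  by_cases a : v = p.1
  · exact Or.inl ⟨a, a ▸ ex_fst p⟩
  · by_cases b : v = p.2
    · exact Or.inr ⟨b, b ▸ Equiv.swap_apply_right _ _⟩
    · exact absurd (Equiv.swap_apply_of_ne_of_ne a b) h

theorem ex_adj (hp : p ∈ oe P) (h : ex p v ≠ v) : P.Adj v (ex p v) := by
  rcases ex_cases h with ⟨a, b⟩ | ⟨a, b⟩ <;> rw [b, a]
  · exact (mem_oe.1 hp).1
  · exact (mem_oe.1 hp).1.symm

theorem ex_uniq (hp : p ∈ oe P) (hp' : p' ∈ oe P) (h : ex p v ≠ v) (k : ex p v = ex p' v) :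
    p = p' := by
  rcases ex_cases h with ⟨a, b⟩ | ⟨a, b⟩ <;> rcases ex_cases (k ▸ h : ex p' v ≠ v) with
    ⟨c, d⟩ | ⟨c, d⟩ <;> rw [k, d] at b <;> rw [c] at a
  · exact Prod.ext a.symm b.symm
  · exact absurd ((Prod.ext b a : p' = (p.2, p.1)) ▸ hp') (oe_not_both hp)
  · exact absurd ((Prod.ext a b : p' = (p.2, p.1)) ▸ hp') (oe_not_both hp)
  · exact Prod.ext b.symm a.symm

theorem mv_ex (hp : p ∈ oe P) : mv (ex p) = {p.1, p.2} := mv_swap (mem_oe.1 hp).1.ne

theorem card_ex (hp : p ∈ oe P) : (mv (ex p)).card = 2 := by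
  rw [mv_ex hp, card_pair (mem_oe.1 hp).1.ne]

theorem card_meet (S : Finset V) (s : V × V → Prop) [DecidablePred s]
    (h : ∀ p ∈ oe P, s p → p.1 ∈ S ∨ p.2 ∈ S) :
    ((oe P).filter s).card ≤ ∑ v ∈ S, dg P v univ := by
  simp only [← card_oe_at]
  refine le_trans (card_le_card fun p hp => ?_) card_biUnion_le
  obtain ⟨h1, h2⟩ := mem_filter.1 hp
  rcases h p h1 h2 with k | k
  · exact mem_biUnion.2 ⟨_, k, mem_filter.2 ⟨h1, Or.inl rfl⟩⟩
  · exact mem_biUnion.2 ⟨_, k, mem_filter.2 ⟨h1, Or.inr rfl⟩⟩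

theorem card_clash {d : ℕ} (hd : ∀ v, dg P v univ ≤ d) (hp : p ∈ oe P) :
    ((oe P).filter fun b => ¬ Disjoint (mv (ex p)) (mv (ex b))).card ≤ 2 * d := by
  refine (card_meet (mv (ex p)) _ fun b hb h => ?_).trans
    ((sum_le_card_nsmul _ _ d fun v _ => hd v).trans (by rw [card_ex hp, smul_eq_mul]))
  obtain ⟨x, h1, h2⟩ := not_disjoint_iff.1 h
  rw [mv_ex hb, mem_insert, mem_singleton] at h2
  rcases h2 with rfl | rfl
  exacts [Or.inl h1, Or.inr h1]

theorem glue_cases {μ ν : V → V} (h : glue μ ν v ≠ v) :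
    (μ v ≠ v ∧ glue μ ν v = μ v) ∨ (ν v ≠ v ∧ glue μ ν v = ν v) := by
  by_cases k : μ v = v
  · rw [glue_right k] at h ⊢; exact Or.inr ⟨h, rfl⟩
  · exact Or.inl ⟨k, glue_left k⟩

end Fixb

open Fixb in
theorem fixb_of (h : PlbStmt) : FixbStmt := by
  intro V ι _ _ _ _ G P ψ0 E I w n d Bc Bi ω q τ h0 hP hd hdeg hn hE hE2 hBc hBi hcase hI hw hτ
  classical
  have hO : (oe P).card = n := by rw [sum_dg_eq_oe] at hn; omega
  rcases Nat.eq_zero_or_pos n with rfl | hpos
  · have e1 : E = ∅ := card_eq_zero.1 (by omega)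
    have e2 : P = ⊥ := by
      ext u v
      refine ⟨fun k => ?_, False.elim⟩
      have := oe_or k
      simp [card_eq_zero.1 hO] at this
    refine ⟨ψ0, h0, fun _ _ _ => rfl, by simp [e2], fun i v a b => absurd b a, fun i => ?_,
      fun i => by omega⟩
    simp [e1]
  obtain ⟨p0, hp0⟩ := card_pos.1 (hO ▸ hpos)
  have : Nonempty (V × V) := ⟨p0⟩
  have : Nonempty ι := by
    have h1 := hI _ _ _ _ (mem_oe.1 hp0).1 (mem_oe.1 hp0).1
    have h2 : 0 < dg P p0.1 univ := card_pos.2 ⟨_, mem_nb.2 ⟨mem_univ _, (mem_oe.1 hp0).1⟩⟩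
    have h3 := hdeg p0.1
    exact ⟨(card_pos.1 (lt_of_lt_of_le (by omega) h1)).choose⟩
  obtain ⟨B, φ, f, b1, b2, b3, f1, f2, cov⟩ := select (oe P) E
    (fun a b => Disjoint (mv (ex a)) (mv (ex b))) (fun i a => ψ0 i a.1 = a.1 ∧ ψ0 i a.2 = a.2)
    (c := 2 * d) (Bc := Bc) (Bi := Bi) (t := (n - E.card) / 2) (fun a ha => card_clash hdeg ha)
    (fun a ha => by simpa only [disjoint_comm] using card_clash hdeg ha)
    (fun i hi => (card_meet (mv (ψ0 i)) _ fun a _ k => by
      simpa only [mem_mv, not_and_or] using k).trans (hBc i hi))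
    (fun a ha => by
      have h1 := hBi _ _ (mem_oe.1 ha).1
      have h2 := card_filter_add_card_filter_not (s := E)
        fun i => ψ0 i a.1 = a.1 ∧ ψ0 i a.2 = a.2
      unfold fr at h1
      omega) (by omega) (by omega)
  set σ : ι → V → V := fun i => if i ∈ E then ex (f i) else id with hσ
  have s0 : ∀ i v, σ i v ≠ v → i ∈ E ∧ σ i = ex (f i) := fun i v k => by
    by_cases hi : i ∈ E
    · exact ⟨hi, if_pos hi⟩
    · exact absurd (by simp [hσ, hi]) k
  have s1 : PC P σ := by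
    refine ⟨fun i v => ?_, fun i v k => ?_, fun i j v k l => ?_⟩
    · by_cases hi : i ∈ E
      · simp only [hσ, if_pos hi, ex_inv]
      · simp [hσ, hi]
    · obtain ⟨hi, e⟩ := s0 i v k
      rw [e] at k ⊢
      exact ex_adj (f2 i hi).1 k
    · obtain ⟨hi, e⟩ := s0 i v k
      obtain ⟨hj, e'⟩ := s0 j v (l ▸ k)
      rw [e] at k l
      rw [e'] at l
      exact f1 hi hj (ex_uniq (f2 i hi).1 (f2 j hj).1 k l)
  have s2 : ∀ i, Disjoint (mv (ψ0 i)) (mv (σ i)) := fun i => disjoint_right.2 fun v k l => by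
    obtain ⟨hi, e⟩ := s0 i v (mem_mv.1 k)
    rw [e] at k
    rcases ex_cases (mem_mv.1 k) with ⟨a, -⟩ | ⟨a, -⟩
    · exact mem_mv.1 l (a ▸ (f2 i hi).2.2.2.1)
    · exact mem_mv.1 l (a ▸ (f2 i hi).2.2.2.2)
  have s3 : ∀ i, (mv (σ i)).card = if i ∈ E then 2 else 0 := fun i => by
    by_cases hi : i ∈ E
    · simp only [hσ, if_pos hi, card_ex (f2 i hi).1]
    · simp [hσ, hi, mv]
  set ψ1 : ι → V → V := fun i => glue (ψ0 i) (σ i) with hψ1
  have t1 : PC G ψ1 := h0.glue (s1.mono hP) (hd.symm.mono_right s1.cg_le) s2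
  have t2 : Ext ψ0 ψ1 := fun _ _ a => glue_left a
  have t3 : ∀ i, mv (ψ1 i) = mv (ψ0 i) ∪ mv (σ i) := fun i => mv_glue _ _
  set ν : V × V → V → V := fun g => glue (ex g) (ex (φ g)) with hν
  have n1 : ∀ g ∈ B, ∀ v, ν g v ≠ v → ∃ p ∈ oe P, (p = g ∨ p = φ g) ∧ ex p v ≠ v ∧
      ν g v = ex p v := fun g hg v k => by
    rcases glue_cases k with l | l
    · exact ⟨g, b1 hg, Or.inl rfl, l⟩
    · exact ⟨φ g, (b3 g hg).1, Or.inr rfl, l⟩
  have n2 : ∀ g ∈ B, ∀ v, ν g v ≠ v → P.Adj v (ν g v) := fun g hg v k => by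
    obtain ⟨p, hp, -, l1, l2⟩ := n1 g hg v k
    exact l2 ▸ ex_adj hp l1
  have n3 : ∀ g ∈ B, ∀ g' ∈ B, ∀ v, ν g v ≠ v → ν g v = ν g' v → g = g' := by
    intro g hg g' hg' v k l
    obtain ⟨p, hp, a, l1, l2⟩ := n1 g hg v k
    obtain ⟨p', hp', a', -, l2'⟩ := n1 g' hg' v (l ▸ k)
    have e := ex_uniq hp hp' l1 (l2 ▸ l2' ▸ l)
    rcases a with rfl | rfl <;> rcases a' with rfl | rfl
    · exact e
    · exact absurd hg (e ▸ (b3 g' hg').2.1)
    · exact absurd hg' (e ▸ (b3 g hg).2.1)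
    · exact b2 hg hg' e
  have n4 : ∀ g ∈ B, mv (ν g) = {g.1, g.2} ∪ {(φ g).1, (φ g).2} := fun g hg => by
    rw [← mv_ex (b1 hg), ← mv_ex (b3 g hg).1]; exact mv_glue _ _
  have n5 : ∀ g ∈ B, (mv (ν g)).card = 4 := fun g hg => by
    rw [mv_glue, card_union_of_disjoint (b3 g hg).2.2, card_ex (b1 hg), card_ex (b3 g hg).1]
  have n6 : ∀ v, (B.filter fun g => v ∈ mv (ν g)).card ≤ dg P v univ := fun v =>
    card_le_card_of_injOn (fun g => ν g v) (fun g hg => mem_coe.2 (mem_nb.2 ⟨mem_univ _,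
      n2 g (mem_filter.1 (mem_coe.1 hg)).1 v (mem_mv.1 (mem_filter.1 (mem_coe.1 hg)).2)⟩))
      fun g hg g' hg' e => n3 g (mem_filter.1 (mem_coe.1 hg)).1 g'
        (mem_filter.1 (mem_coe.1 hg')).1 v (mem_mv.1 (mem_filter.1 (mem_coe.1 hg)).2) e
  obtain ⟨ψ, col, p1, p2, p3, p4, p5, p6⟩ := h V ι (V × V) G ψ1 B ν I (fun _ => ∅) w ω q τ t1
    (fun g hg => glue_inv (ex_inv _) (ex_inv _) (b3 g hg).2.2)
    (fun g hg v k => ⟨hP (n2 g hg v k), fun i l => by
      rcases glue_cases (l ▸ k : ψ1 i v ≠ v) with ⟨a, b⟩ | ⟨a, b⟩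
      · exact disjoint_iff_adj.1 hd _ _ (n2 g hg v k) ((b.symm.trans l) ▸ h0.cg_of a)
      · obtain ⟨p, hp, c, l1, l2⟩ := n1 g hg v k
        obtain ⟨hi, e⟩ := s0 i v a
        have e' : p = f i := ex_uniq hp (f2 i hi).1 l1 (by rw [← l2, ← l, ← e]; exact b)
        rcases c with c | c
        · exact (f2 i hi).2.1 (e' ▸ c ▸ hg)
        · exact (f2 i hi).2.2.1 (e' ▸ c ▸ mem_image_of_mem _ hg)⟩)
    (fun g hg => (n5 g hg).le) n3
    (fun g hg => by
      have h1 := hI _ _ _ _ (mem_oe.1 (b1 hg)).1 (mem_oe.1 (b3 g hg).1).1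
      have h2 : ∑ v ∈ mv (ν g), (B.filter fun g' => v ∈ mv (ν g')).card ≤ 4 * d :=
        (sum_le_card_nsmul _ _ d fun v _ => (n6 v).trans (hdeg v)).trans
          (by rw [n5 g hg, smul_eq_mul])
      have h3 : ((mv (ν g)).biUnion fun v => univ.filter fun i => σ i v ≠ v).card ≤ 4 * d :=
        (card_biUnion_le_card_mul _ _ d fun v _ => by
          rw [← s1.dg_cg]; exact (dg_mono s1.cg_le v univ).trans (hdeg v)).trans
          (by rw [n5 g hg])
      have h4 : (I.filter fun i => (ψ0 i g.1 = g.1 ∧ ψ0 i g.2 = g.2) ∧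
          ψ0 i (φ g).1 = (φ g).1 ∧ ψ0 i (φ g).2 = (φ g).2) ⊆
          (I.filter fun i => ∀ v ∈ mv (ν g), ψ1 i v = v ∧ v ∉ (∅ : Finset V)) ∪
            (mv (ν g)).biUnion fun v => univ.filter fun i => σ i v ≠ v := fun i hi => by
        obtain ⟨a, b⟩ := mem_filter.1 hi
        by_cases c : ∀ v ∈ mv (ν g), σ i v = v
        · refine mem_union_left _ (mem_filter.2 ⟨a, fun v hv => ⟨?_, notMem_empty _⟩⟩)
          have e : ψ0 i v = v := by
            rw [n4 g hg] at hv
            simp only [mem_union, mem_insert, mem_singleton] at hv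
            rcases hv with (rfl | rfl) | rfl | rfl
            exacts [b.1.1, b.1.2, b.2.1, b.2.2]
          exact (glue_right e).trans (c v hv)
        · push Not at c
          obtain ⟨v, hv, c⟩ := c
          exact mem_union_right _ (mem_biUnion.2 ⟨v, hv, mem_filter.2 ⟨mem_univ _, c⟩⟩)
      have h5 := (card_le_card h4).trans (card_union_le _ _)
      omega) hw
    (lt_of_le_of_lt (by
      rw [sum_comm' (s' := fun v => B.filter fun g => v ∈ mv (ν g)) (t' := univ) (by simp)]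
      exact sum_le_sum fun v _ => by
        rw [sum_const, smul_eq_mul]; exact Nat.mul_le_mul_right _ (n6 v)) hτ)
  have new : ∀ i v, ψ i v ≠ v → ψ0 i v = v → P.Adj v (ψ i v) := fun i v a b => by
    by_cases c : ψ1 i v = v
    · obtain ⟨g, hg, rfl, hv⟩ := p4 i v a c
      rw [((p3 g hg).2 v hv).1]
      exact n2 g hg v (mem_mv.1 hv)
    · have e : ψ1 i v = σ i v := glue_right b
      rw [p2 i v c, e]
      exact s1.adj i v (e ▸ c)
  refine ⟨ψ, p1, t2.trans p2, le_antisymm (fun u v k => ?_) (sup_le (t2.trans p2).cg_le ?_), new,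
    fun i => ?_, fun i => (p6 i).trans ?_⟩
  · obtain ⟨a, i, rfl⟩ := (cg_adj p1.inv).1 k
    by_cases c : ψ0 i u = u
    · exact Or.inr (new i u a.symm c)
    · rw [t2.trans p2 i u c]; exact Or.inl (h0.cg_of c)
  · have key : ∀ p ∈ oe P, (cg ψ).Adj p.1 p.2 := fun p hp => by
      have hne := (mem_oe.1 hp).1.ne
      have he : ex p p.1 ≠ p.1 := by rw [ex_fst]; exact hne.symm
      refine (cg_adj p1.inv).2 ⟨hne, ?_⟩
      rcases cov p hp with k | k | k
      · have e : ν p p.1 = p.2 := (glue_left he).trans (ex_fst p)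
        exact ⟨_, ((p3 p k).2 p.1 (mem_mv.2 (e ▸ hne.symm))).1.trans e⟩
      · obtain ⟨g, hg, rfl⟩ := mem_image.1 k
        have e : ν g (φ g).1 = (φ g).2 := (glue_right' (b3 g hg).2.2 he).trans (ex_fst _)
        exact ⟨_, ((p3 g hg).2 _ (mem_mv.2 (e ▸ hne.symm))).1.trans e⟩
      · obtain ⟨i, hi, rfl⟩ := mem_image.1 k
        have e0 : σ i = ex (f i) := if_pos hi
        have e : ψ1 i (f i).1 = (f i).2 :=
          (glue_right (f2 i hi).2.2.2.1).trans (by rw [e0, ex_fst])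
        exact ⟨i, (p2 i _ (e ▸ hne.symm)).trans e⟩
    exact fun u v k => (oe_or k).elim (key _) fun l => (key _ l).symm
  · have e1 : mv (ψ i) \ mv (ψ1 i) = (B.filter fun g => col g = i).biUnion fun g => mv (ν g) := by
      ext v
      simp only [mem_sdiff, mem_mv, mem_biUnion, mem_filter, not_not]
      refine ⟨fun k => ?_, ?_⟩
      · obtain ⟨g, hg, a, b⟩ := p4 i v k.1 k.2
        exact ⟨g, ⟨hg, a⟩, mem_mv.1 b⟩
      · rintro ⟨g, ⟨hg, rfl⟩, b⟩
        have := (p3 g hg).2 v (mem_mv.2 b)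
        exact ⟨this.1 ▸ b, this.2.1⟩
    have e2 : (mv (ψ i) \ mv (ψ1 i)).card = (B.filter fun g => col g = i).card * 4 := by
      rw [e1, card_biUnion fun g hg g' hg' k => p5 g (mem_filter.1 hg).1 g' (mem_filter.1 hg').1 k
        ((mem_filter.1 hg).2.trans (mem_filter.1 hg').2.symm), ← smul_eq_mul, ← sum_const]
      exact sum_congr rfl fun g hg => n5 g (mem_filter.1 hg).1
    have e3 := card_sdiff_add_card_eq_card (p2.mv_subset i)
    have e4 := card_sdiff_add_card_eq_card ((t2.trans p2).mv_subset i)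
    have e5 := s3 i
    rw [t3, card_union_of_disjoint (s2 i), ← t3] at e3
    split_ifs at e5 ⊢ <;> omega
  · have e1 : ∑ v ∈ mv (σ i), w v ≤ 2 * ω := (sum_le_card_nsmul _ _ ω fun v _ => hw v).trans (by
      rw [s3, smul_eq_mul]; split_ifs <;> omega)
    rw [t3, sum_union (s2 i)]
    omega

end Pool.Agent.MP_5c8b6d_co

end
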