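import Mathlib.Data.Int.Star
import Mathlib.Combinatorics.SimpleGraph.DegreeSum
import Mathlib.Combinatorics.SimpleGraph.Coloring.Vertex
import Mathlib.Combinatorics.SimpleGraph.LineGraph
import Mathlib.Tactic.Algebra.Basic
import Pool.Agent.MP_5c8b6d_co.Core

-- ======== part 0: formerly Pool.Agent.MP_5c8b6d_co.MC
section MrgPart0

section

/-! From a schedule to a colouring. -/

namespace Pool.Agent.MP_5c8b6d_co

open Finset

set_option linter.unusedSectionVars false

namespace FinM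

/-- edges at a few vertices with prescribed lists -/
theorem listV {V ι : Type} [DecidableEq V] [Fintype ι] [DecidableEq ι] (Nb : V → Finset V)
    (Ls : V → Finset ι) (Y : ι → Finset V) (a n : ℕ) (h3 : ∀ i, (Y i).card ≤ a)
    (h4 : ∀ v, (univ.filter (fun i => v ∈ Y i)).card ≤ a) (Z : Finset V) (hn : Z.card ≤ n)
    (h1 : ∀ y ∈ Z, (Nb y).card = (Ls y).card) (h2 : ∀ y ∈ Z, 2 * (a + n) ≤ (Nb y).card) :
    ∃ φ : V → ι → V, (∀ y ∈ Z, Set.BijOn (φ y) (Ls y) (Nb y)) ∧
      (∀ y ∈ Z, ∀ i ∈ Ls y, φ y i ∉ Y i) ∧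
      ∀ y ∈ Z, ∀ y' ∈ Z, ∀ i ∈ Ls y, i ∈ Ls y' → φ y i = φ y' i → y = y' := by
  classical
  induction Z using Finset.induction_on with
  | empty => exact ⟨fun v _ => v, by simp, by simp, by simp⟩
  | insert y Z hy ih =>
    rw [card_insert_of_notMem hy] at hn
    obtain ⟨φ, p1, p2, p3⟩ := ih (by omega) (fun z hz => h1 z (mem_insert_of_mem hz))
      (fun z hz => h2 z (mem_insert_of_mem hz))
    have : Nonempty V := ⟨y⟩
    have e1 := h1 y (mem_insert_self _ _)
    have e2 := h2 y (mem_insert_self _ _)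
    obtain ⟨f, f1, f2⟩ := half (Ls y) (Nb y)
      (fun i v => v ∉ Y i ∧ ∀ z ∈ Z, i ∈ Ls z → φ z i ≠ v) (a + n) (a + n) (fun i _ => by
        refine le_trans (card_le_card (t := Y i ∪ Z.image (fun z => φ z i)) fun v hv => ?_)
          ((card_union_le _ _).trans (Nat.add_le_add (h3 i) (card_image_le.trans (by omega))))
        have := (mem_filter.1 hv).2
        simp only [mem_union, mem_image]
        by_contra c
        push Not at c
        exact this ⟨c.1, fun z hz _ => c.2 z hz⟩) (fun v _ => by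
        refine le_trans (card_le_card (t := univ.filter (fun i => v ∈ Y i) ∪
          Z.biUnion (fun z => (Ls z).filter (fun i => φ z i = v))) fun i hi => ?_)
          ((card_union_le _ _).trans (Nat.add_le_add (h4 v) (card_biUnion_le.trans ?_)))
        · have := (mem_filter.1 hi).2
          simp only [mem_union, mem_filter, mem_univ, true_and, mem_biUnion]
          by_contra c
          push Not at c
          exact this ⟨c.1, c.2⟩
        · refine (sum_le_card_nsmul _ _ 1 fun z hz => card_le_one.2 fun i hi j hj => ?_).trans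
            (by simp; omega)
          exact (p1 z hz).2.1 (mem_filter.1 hi).1 (mem_filter.1 hj).1
            ((mem_filter.1 hi).2.trans (mem_filter.1 hj).2.symm)) e1.ge (by omega)
    have hu : ∀ z ∈ Z, Function.update φ y f z = φ z := fun z hz =>
      Function.update_of_ne (fun (k : z = y) => hy (k ▸ hz)) _ _
    refine ⟨Function.update φ y f, fun z hz => ?_, fun z hz i hi => ?_,
      fun z hz z' hz' i hi hi' k => ?_⟩
    · rcases mem_insert.1 hz with rfl | hz
      · rw [Function.update_self]; exact bijOn_of_injOn f1 (fun i hi => (f2 i hi).1) e1.le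
      · rw [hu z hz]; exact p1 z hz
    · rcases mem_insert.1 hz with rfl | hz
      · rw [Function.update_self]; exact (f2 i hi).2.1
      · rw [hu z hz]; exact p2 z hz i hi
    · rcases mem_insert.1 hz with rfl | c <;> rcases mem_insert.1 hz' with rfl | c'
      · rfl
      · rw [Function.update_self, hu z' c'] at k
        exact absurd k.symm ((f2 i hi).2.2 z' c' hi')
      · rw [Function.update_self, hu z c] at k
        exact absurd k ((f2 i hi').2.2 z c hi)
      · rw [hu z c, hu z' c'] at k; exact p3 z c z' c' i hi hi' k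

variable {V ι : Type} [Fintype V] [DecidableEq V] [Fintype ι] [DecidableEq ι]

/-- the edges from the exceptional vertices to the dense set -/
structure Nu (GB : SimpleGraph V) (Z : Finset V) (σ : V → Bool) (ψ0 ν : ι → V → V) : Prop where
  pc : PC GB ν
  dj : ∀ i, Disjoint (mv (ψ0 i)) (mv (ν i))
  all : ∀ i, ∀ z ∈ Z, ψ0 i z = z → ν i z ≠ z
  ends : ∀ i v, ν i v ≠ v → v ∈ Z ∨ ν i v ∈ Z
  cov : ∀ z ∈ Z, ∀ v, GB.Adj z v → σ z = σ v → ∃ i, ν i z = v

theorem exists_nu {GB : SimpleGraph V} {T Z : Finset V} (σ : V → Bool) (ψ0 : ι → V → V)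
    (a J : ℕ) (c : V → ℕ) (hd : Disjoint T Z) (hT : ∀ z ∈ Z, ∀ v, GB.Adj z v → v ∈ T)
    (h1 : ∀ i, (mv (ψ0 i) ∩ T).card ≤ a)
    (h2 : ∀ v ∈ T, (univ.filter (fun i => ψ0 i v ≠ v)).card ≤ a) (h3 : ∀ z ∈ Z, c z ≤ J)
    (h4 : ∀ z ∈ Z, dg GB z T = (univ.filter (fun i => ψ0 i z = z)).card + c z)
    (h5 : ∀ z ∈ Z, J ≤ dg GB z (cls T σ (!σ z)))
    (h6 : ∀ z ∈ Z, 2 * (a + Z.card) + J ≤ dg GB z T) : ∃ ν : ι → V → V, Nu GB Z σ ψ0 ν := by
  classical
  have k1 : ∀ z, ∃ K : Finset V, z ∈ Z → K ⊆ nb GB z (cls T σ (!σ z)) ∧ K.card = c z := by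
    intro z
    by_cases hz : z ∈ Z
    · obtain ⟨K, hK⟩ := exists_subset_card_eq ((h3 z hz).trans (h5 z hz))
      exact ⟨K, fun _ => hK⟩
    · exact ⟨∅, fun k => absurd k hz⟩
  choose Kp hK using k1
  have k2 : ∀ z ∈ Z, (nb GB z T \ Kp z).card + c z = dg GB z T := fun z hz => by
    rw [← (hK z hz).2]
    refine card_sdiff_add_card_eq_card fun v hv => ?_
    have := mem_nb.1 ((hK z hz).1 hv)
    exact mem_nb.2 ⟨(mem_cls.1 this.1).1, this.2⟩
  obtain ⟨φ, p1, p2, p3⟩ := listV (fun z => nb GB z T \ Kp z)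
    (fun z => univ.filter (fun i => ψ0 i z = z)) (fun i => mv (ψ0 i) ∩ T) a Z.card h1
    (fun v => by
      by_cases hv : v ∈ T
      · simpa [hv] using h2 v hv
      · simp [hv]) Z le_rfl
    (fun z hz => by have := k2 z hz; have := h4 z hz; omega)
    (fun z hz => by have := k2 z hz; have := h3 z hz; have := h6 z hz; omega)
  have q1 : ∀ i, ∀ z ∈ Z, ψ0 i z = z → φ z i ∈ T ∧ GB.Adj z (φ z i) ∧ ψ0 i (φ z i) = φ z i := by
    intro i z hz hi
    have b1 := (p1 z hz).1 (show i ∈ ((univ.filter (fun i => ψ0 i z = z) : Finset ι) : Set ι) by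
      simpa using hi)
    have b2 := p2 z hz i (by simpa using hi)
    have b3 := mem_nb.1 (mem_sdiff.1 b1).1
    refine ⟨b3.1, b3.2, ?_⟩
    by_contra k
    exact b2 (mem_inter.2 ⟨mem_mv.2 k, b3.1⟩)
  have k3 : ∀ i, ∃ μ : V → V, (∀ v, μ (μ v) = v) ∧ (∀ z ∈ fx (ψ0 i) Z, μ z = φ z i) ∧
      mv μ = fx (ψ0 i) Z ∪ (fx (ψ0 i) Z).image (fun z => φ z i) := fun i =>
    exists_inv_of_injOn (fun z hz z' hz' k => by
      have b1 := mem_fx.1 (mem_coe.1 hz)
      have b2 := mem_fx.1 (mem_coe.1 hz')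
      exact p3 z b1.1 z' b2.1 i (by simpa using b1.2) (by simpa using b2.2) k)
      (fun z hz k => disjoint_left.1 hd (q1 i z (mem_fx.1 hz).1 (mem_fx.1 hz).2).1 (mem_fx.1 k).1)
  choose ν n1 n2 n3 using k3
  have q2 : ∀ i v, ν i v ≠ v → ∃ z ∈ Z, ψ0 i z = z ∧ ν i z = φ z i ∧ (v = z ∨ ν i v = z) := by
    intro i v hv
    have b1 := mem_mv.2 hv
    rw [n3, mem_union, mem_image] at b1
    rcases b1 with b1 | ⟨z, hz, rfl⟩
    · exact ⟨v, (mem_fx.1 b1).1, (mem_fx.1 b1).2, n2 i v b1, Or.inl rfl⟩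
    · exact ⟨z, (mem_fx.1 hz).1, (mem_fx.1 hz).2, n2 i z hz, Or.inr (by rw [← n2 i z hz, n1])⟩
  have q3 : ∀ i j, ∀ z ∈ Z, ν i z ≠ z → ν i z = ν j z → i = j := by
    intro i j z hz a b
    have key : ∀ l, ν l z ≠ z → ψ0 l z = z ∧ ν l z = φ z l := by
      intro l hl
      obtain ⟨y, hy, c1, c2, rfl | c3⟩ := q2 l z hl
      · exact ⟨c1, c2⟩
      · have : z = φ y l := by rw [← c2, ← c3, n1]
        exact absurd hz (disjoint_left.1 hd (this ▸ (q1 l y hy c1).1))
    obtain ⟨c1, c2⟩ := key i a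
    obtain ⟨c3, c4⟩ := key j (b ▸ a)
    exact (p1 z hz).2.1 (by simpa using c1) (by simpa using c3) (by rw [← c2, ← c4, b])
  refine ⟨ν, ⟨n1, fun i v hv => ?_, fun i j v a b => ?_⟩, fun i => disjoint_left.2 fun v a b => ?_,
    fun i z hz hi => ?_, fun i v hv => ?_, fun z hz v a b => ?_⟩
  · obtain ⟨z, hz, c1, c2, rfl | c3⟩ := q2 i v hv
    · rw [c2]; exact (q1 i v hz c1).2.1
    · have : v = φ z i := by rw [← c2, ← c3, n1]
      rw [c3, this]; exact (q1 i z hz c1).2.1.symm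
  · obtain ⟨z, hz, c1, c2, rfl | c3⟩ := q2 i v a
    · exact q3 i j v hz a b
    · refine q3 i j z hz (c3 ▸ inv_ne (n1 i) a) ?_
      rw [← c3, n1, b, n1]
  · obtain ⟨z, hz, c1, c2, rfl | c3⟩ := q2 i v (mem_mv.1 b)
    · exact mem_mv.1 a c1
    · have : v = φ z i := by rw [← c2, ← c3, n1]
      exact mem_mv.1 a (this ▸ (q1 i z hz c1).2.2)
  · rw [n2 i z (mem_fx.2 ⟨hz, hi⟩)]; exact (q1 i z hz hi).2.1.ne.symm
  · obtain ⟨z, hz, -, -, rfl | rfl⟩ := q2 i v hv
    exacts [Or.inl hz, Or.inr hz]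
  · have b1 : v ∈ nb GB z T \ Kp z := mem_sdiff.2 ⟨mem_nb.2 ⟨hT z hz v a, a⟩, fun k => by
      have := (mem_cls.1 (mem_nb.1 ((hK z hz).1 k)).1).2
      rw [← b] at this
      simp at this⟩
    obtain ⟨i, hi, rfl⟩ := (p1 z hz).2.2 b1
    exact ⟨i, n2 i z (mem_fx.2 ⟨hz, by simpa using hi⟩)⟩

variable {GB : SimpleGraph V} {T Z : Finset V} {σ : V → Bool} {ψ0 ν : ι → V → V}

theorem Nu.moves (h : Nu GB Z σ ψ0 ν) (i : ι) {z : V} (hz : z ∈ Z) : glue (ψ0 i) (ν i) z ≠ z := by
  by_cases k : ψ0 i z = z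
  · rw [glue_right k]; exact h.all i z hz k
  · rw [glue_left k]; exact k

theorem Nu.fx_eq (h : Nu GB Z σ ψ0 ν) (i : ι) {W : Finset V} (hW : W ⊆ T ∪ Z) :
    (T ∩ W) \ (mv (glue (ψ0 i) (ν i)) ∩ T) = fx (glue (ψ0 i) (ν i)) W := by
  ext v
  simp only [mem_sdiff, mem_inter, mem_mv, mem_fx]
  constructor
  · rintro ⟨⟨a, b⟩, c⟩
    exact ⟨b, by_contra fun k => c ⟨k, a⟩⟩
  · rintro ⟨a, b⟩
    exact ⟨⟨(mem_union.1 (hW a)).resolve_right fun k => h.moves i k b, a⟩, fun k => k.1 b⟩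

/-- the basic count -/
theorem Nu.count (h : Nu GB Z σ ψ0 ν) (i : ι) {W : Finset V} (hW : W ⊆ T ∪ Z) :
    ((T ∩ W) \ (mv (glue (ψ0 i) (ν i)) ∩ T)).card + (mv (ψ0 i) ∩ W).card + (mv (ν i) ∩ W).card =
      W.card := by
  rw [h.fx_eq i hW, ← card_fx_add (glue (ψ0 i) (ν i)) W, mv_glue, union_inter_distrib_right,
    card_union_of_disjoint ((h.dj i).mono inter_subset_left inter_subset_left), add_assoc]

/-- the edges inside one side -/
theorem Nu.inside (h : Nu GB Z σ ψ0 ν) (hd : Disjoint T Z) {W : Finset V} (hW : W ⊆ T ∪ Z)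
    (b : Bool) : ∑ v ∈ cls W σ b, dg (GB \ cg ν) v (cls W σ b) =
      ∑ v ∈ cls (T ∩ W) σ b, dg GB v (cls (T ∩ W) σ b) := by
  have key : ∀ u ∈ cls W σ b, ∀ v ∈ cls W σ b, (GB \ cg ν).Adj u v → u ∈ T := by
    intro u hu v hv k
    refine (mem_union.1 (hW (mem_cls.1 hu).1)).resolve_right fun c => k.2 ?_
    exact (cg_adj h.pc.inv).2 ⟨k.1.ne,
      h.cov u c v k.1 ((mem_cls.1 hu).2.trans (mem_cls.1 hv).2.symm)⟩
  have hs : cls (T ∩ W) σ b ⊆ cls W σ b := fun v hv =>
    mem_cls.2 ⟨(mem_inter.1 (mem_cls.1 hv).1).2, (mem_cls.1 hv).2⟩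
  rw [← sum_subset hs fun u hu k => dg_eq_zero.2 fun v hv c =>
    k (mem_cls.2 ⟨mem_inter.2 ⟨key u hu v hv c, (mem_cls.1 hu).1⟩, (mem_cls.1 hu).2⟩)]
  refine sum_congr rfl fun u hu => dg_congr fun v => ⟨fun k => ?_, fun k => ⟨hs k.1, k.2, ?_⟩⟩
  · exact ⟨mem_cls.2 ⟨mem_inter.2 ⟨key v k.1 u (hs hu) k.2.symm, (mem_cls.1 k.1).1⟩,
      (mem_cls.1 k.1).2⟩, k.2.1⟩
  · intro c
    obtain ⟨c1, i, rfl⟩ := (cg_adj h.pc.inv).1 c
    rcases h.ends i u c1.symm with d | d
    · exact disjoint_left.1 hd (mem_inter.1 (mem_cls.1 hu).1).1 d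
    · exact disjoint_left.1 hd (mem_inter.1 (mem_cls.1 k.1).1).1 d

end FinM

open FinM

theorem fin_kon (hK : KonStmt) : FinStmt := by
  intro V ι _ _ _ _ G H GJ GB R T Z σ ψ0 Δ J a g hP hΔ hT hZ l1 l2 l3 d1 d2 d3 hc hB hJ hξ p0 f0
    ha hg hga z1 z2
  classical
  have hd : Disjoint T Z := disjoint_left.2 fun v a b => (mem_sdiff.1 (hZ b)).2 a
  have hS : ∀ v ∈ T ∪ Z, v ∈ R := fun v hv =>
    (mem_union.1 hv).elim (fun k => hT k) fun k => (mem_sdiff.1 (hZ k)).1
  have e0 : cg ψ0 = H := p0.cg_eq f0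
  have deg : ∀ v ∈ T ∪ Z, dg H v univ + dg GJ v univ + dg GB v univ = Fintype.card ι + J := by
    intro v hv
    rw [← dg_sup d1, ← dg_sup (disjoint_sup_left.2 ⟨d2, d3⟩), ← hΔ, ← hP.full v (hS v hv)]
    refine dg_congr fun u => and_congr_right fun _ => ⟨?_, fun k => ?_⟩
    · rintro ((k | k) | k)
      exacts [l1 k, l2 k, l3 k]
    · exact or_assoc.2 (hc v u k (Or.inl hv))
  have hZT : ∀ z ∈ Z, ∀ v, GB.Adj z v → v ∈ T := fun z hz v k =>
    (hB z v k).2.resolve_left fun c => disjoint_left.1 hd c hz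
  obtain ⟨ν, hν⟩ := exists_nu (GB := GB) σ ψ0 a J (fun z => J - dg GJ z univ) hd hZT ha
    (fun v hv => by
      have := deg v (mem_union_left _ hv)
      have := hg v hv
      have := dg_le_univ (G := GB) v T
      rw [← p0.dg_cg, e0]; omega) (fun z _ => Nat.sub_le _ _)
    (fun z hz => by
      have b1 := deg z (mem_union_right _ hz)
      have b2 := p0.dg_add_miss z
      have b3 := hξ z
      have b4 : dg GB z T = dg GB z univ := dg_congr fun u =>
        ⟨fun k => ⟨mem_univ _, k.2⟩, fun k => ⟨hZT z hz u k.2, k.2⟩⟩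
      rw [e0] at b2
      omega) z1 z2
  have dν : Disjoint (cg ψ0) (cg ν) := by rw [e0]; exact d2.mono_right hν.pc.cg_le
  set ψ : ι → V → V := fun i => glue (ψ0 i) (ν i) with hψ
  have pψ : PC G ψ := (p0.mono l1).glue (hν.pc.mono l3) dν hν.dj
  have eψ : cg ψ = H ⊔ cg ν :=
    e0 ▸ le_antisymm (cg_glue_le p0.inv hν.pc.inv) (cg_glue hν.dj)
  have miss : ∀ v ∈ T ∪ Z, (univ.filter (fun i => ψ i v = v)).card + J =
      dg GJ v univ + dg (GB \ cg ν) v univ := by
    intro v hv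
    have b1 := deg v hv
    have b2 := pψ.dg_add_miss v
    have b3 := dg_sdiffG_add hν.pc.cg_le v univ
    rw [eψ, dg_sup (e0 ▸ dν)] at b2
    omega
  refine ⟨fun i => mv (ψ i) ∩ T, fun i => inter_subset_right, fun i => ?_, fun v => ?_,
    fun W hW hcl => ⟨fun i => ?_, fun hE => ?_⟩, fun ty hty i => ?_, ?_⟩
  · have b1 : mv (ψ i) ∩ T ⊆ mv (ψ0 i) ∩ T ∪ Z.image (ν i) := by
      intro v hv
      simp only [hψ, mv_glue, mem_inter, mem_union, mem_mv, mem_image_inv (hν.pc.inv i)] at hv ⊢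
      rcases hv.1 with k | k
      · exact Or.inl ⟨k, hv.2⟩
      · exact Or.inr ((hν.ends i v k).resolve_left fun c => disjoint_left.1 hd hv.2 c)
    exact (card_le_card b1).trans ((card_union_le _ _).trans (Nat.add_le_add (ha i) card_image_le))
  · by_cases hv : v ∈ T
    · have b1 : ld (fun i => mv (ψ i) ∩ T) v = dg (cg ψ) v univ := by simp [ld, hv, pψ.dg_cg]
      have b2 := deg v (mem_union_left _ hv)
      have b3 := hg v hv
      have b4 := dg_add_compl (G := GB) v T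
      have b5 : dg (cg ν) v univ ≤ dg GB v Tᶜ := dg_le_of fun u _ k => by
        refine ⟨mem_compl.2 fun c => ?_, hν.pc.cg_le k⟩
        obtain ⟨c1, i, rfl⟩ := (cg_adj hν.pc.inv).1 k
        rcases hν.ends i v c1.symm with d | d
        exacts [disjoint_left.1 hd hv d, disjoint_left.1 hd c d]
      rw [b1, eψ, dg_sup (e0 ▸ dν)]
      omega
    · simp [ld, hv]
  · have b1 := hν.count i hW
    obtain ⟨r, hr⟩ : Even (mv (ν i) ∩ W).card :=
      even_card_of_inv (fun v _ => hν.pc.inv i v) fun v hv => by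
        have k := mem_mv.1 (mem_inter.1 hv).1
        exact ⟨mem_inter.2 ⟨mem_mv.2 (inv_ne (hν.pc.inv i) k),
          hcl v (mem_inter.1 hv).2 _ (hν.pc.adj i v k)⟩, k⟩
    simp only [hψ]
    omega
  · have side : ∀ b, ∑ i, (cls ((T ∩ W) \ (mv (ψ i) ∩ T)) σ b).card + J * (cls W σ b).card =
        ∑ v ∈ cls W σ b, dg GJ v univ + (∑ v ∈ cls (T ∩ W) σ b, dg GB v (cls (T ∩ W) σ b) +
          ∑ v ∈ cls W σ b, dg (GB \ cg ν) v (cls W σ (!b))) := by
      intro b
      have b1 : ∀ i, (cls ((T ∩ W) \ (mv (ψ i) ∩ T)) σ b).card =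
          ∑ v ∈ cls W σ b, if ψ i v = v then 1 else 0 := fun i => by
        rw [hψ, hν.fx_eq i hW, ← card_filter]
        congr 1; ext v; simp only [mem_cls, mem_fx, mem_filter]; tauto
      rw [sum_congr rfl fun i _ => b1 i, sum_comm, ← hν.inside hd hW b, ← sum_add_distrib,
        ← sum_add_distrib, mul_comm, ← smul_eq_mul, ← sum_const, ← sum_add_distrib]
      refine sum_congr rfl fun v hv => ?_
      have hv' := (mem_cls.1 hv).1
      rw [← card_filter, miss v (hW hv'), dg_cls_bool]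
      congr 1
      exact dg_congr fun u => ⟨fun k => ⟨hcl v hv' u k.2.1, k.2⟩, fun k => ⟨mem_univ _, k.2⟩⟩
    have s1 := side true
    have s2 := side false
    have s3 := sum_dg_comm (G := GB \ cg ν) (cls W σ true) (cls W σ false)
    simp only [Bool.not_true, Bool.not_false] at s1 s2
    unfold JEq at hE
    unfold BalEq
    beta_reduce
    omega
  · have b1 : ∀ b, (cls (T \ (mv (ψ i) ∩ T)) ty b).card + (mv (ψ0 i) ∩ cls (T ∪ Z) ty b).card +
        (mv (ν i) ∩ cls (T ∪ Z) ty b).card = (cls (T ∪ Z) ty b).card := fun b => by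
      rw [← hν.count i (cls_subset (T ∪ Z) ty b)]
      congr 3; ext v; simp only [mem_cls, mem_sdiff, mem_inter, mem_union]; tauto
    have b2 : ∀ b, ∀ v ∈ mv (ν i) ∩ cls (T ∪ Z) ty b, ν i v ∈ mv (ν i) ∩ cls (T ∪ Z) ty (!b) := by
      intro b v hv
      have k := mem_mv.1 (mem_inter.1 hv).1
      have k1 := hν.pc.adj i v k
      have k2 := hty _ _ k1
      rw [(mem_cls.1 (mem_inter.1 hv).2).2] at k2
      exact mem_inter.2 ⟨mem_mv.2 (inv_ne (hν.pc.inv i) k),
        mem_cls.2 ⟨(hB _ _ k1.symm).1, by cases b <;> simpa using k2.symm⟩⟩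
    have b3 := card_eq_of_inv (hν.pc.inv i) (b2 true) (b2 false)
    have := b1 true
    have := b1 false
    simp only [Bool.not_true] at b3
    beta_reduce
    omega
  · rintro ⟨M, pM, mM, cM⟩
    have mT : ∀ i v, M i v ≠ v → v ∈ T := fun i v k => (mem_sdiff.1 (mM i ▸ mem_mv.2 k)).1
    have ds : ∀ i, Disjoint (mv (ψ i)) (mv (M i)) := fun i => disjoint_left.2 fun v a b => by
      rw [mM] at b
      exact (mem_sdiff.1 b).2 (mem_inter.2 ⟨a, (mem_sdiff.1 b).1⟩)
    have dM : Disjoint (cg ψ) (cg M) := by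
      rw [eψ]
      refine disjoint_sup_left.2 ⟨d2.mono_right pM.cg_le, disjoint_iff_adj.2 fun u v k c => ?_⟩
      obtain ⟨c1, j, c2⟩ := (cg_adj pM.inv).1 c
      obtain ⟨c3, j', c4⟩ := (cg_adj pM.inv).1 c.symm
      obtain ⟨-, i, rfl⟩ := (cg_adj hν.pc.inv).1 k
      rcases hν.ends i u c1.symm with d | d
      · exact disjoint_left.1 hd (mT j u (by rw [c2]; exact c3)) d
      · exact disjoint_left.1 hd (mT j' _ (by rw [c4]; exact c1)) d
    set Φ : ι → V → V := fun i => glue (ψ i) (M i) with hΦ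
    have pΦ : PC G Φ := pψ.glue (pM.mono l3) dM ds
    have gΦ : cg ψ ⊔ cg M ≤ cg Φ := cg_glue ds
    have lΦ : cg Φ ≤ H ⊔ GB := (cg_glue_le pψ.inv pM.inv).trans
      (sup_le (eψ ▸ sup_le_sup_left hν.pc.cg_le _) (pM.cg_le.trans le_sup_right))
    have dR : Disjoint (cg Φ) (GJ ⊔ GB \ cg Φ) :=
      disjoint_sup_right.2 ⟨(disjoint_sup_left.2 ⟨d1, d3.symm⟩).mono_left lΦ, disjoint_sdiff_self_right⟩
    have lR : GJ ⊔ GB \ cg Φ ≤ G := sup_le l2 (sdiff_le.trans l3)
    obtain ⟨N, pN, fN⟩ := hK V (Fin J) (GJ ⊔ GB \ cg Φ) σ (by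
      rintro u v (k | k) c
      · exact hJ u v k c
      · have key : ∀ x y, GB.Adj x y → σ x = σ y → x ∈ Z → (cg Φ).Adj x y := fun x y a b d =>
          gΦ (Or.inl (eψ ▸ Or.inr ((cg_adj hν.pc.inv).2 ⟨a.ne, hν.cov x d y a b⟩)))
        rcases mem_union.1 (hB u v k.1).1 with a | a
        · rcases mem_union.1 (hB v u k.1.symm).1 with b | b
          · exact k.2 (gΦ (Or.inr ((cg_adj pM.inv).2 ⟨k.1.ne, cM u a v b k.1 c⟩)))
          · exact k.2 (key v u k.1.symm c.symm b).symm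
        · exact k.2 (key u v k.1 c a)) (by
      intro v
      rw [Fintype.card_fin]
      by_cases hv : v ∈ T ∪ Z
      · have b1 : dg (cg Φ) v univ = Fintype.card ι := by
          rw [pΦ.dg_cg, filter_true_of_mem, card_univ]
          intro i _
          rw [← mem_mv, hΦ, mv_glue, mM, mem_union, mem_sdiff, mem_inter]
          rcases mem_union.1 hv with k | k
          · tauto
          · exact Or.inl (mem_mv.2 (hν.moves i k))
        have b2 := dg_sup dR v univ
        have b3 := dg_mono (sup_le pΦ.cg_le lR) v univ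
        have b4 := hP.full v (hS v hv)
        omega
      · refine le_trans (dg_le_of fun u hu k => ⟨hu, ?_⟩) (hξ v)
        exact k.resolve_right fun c => hv (hB v u c.1).1)
    have eN := pN.cg_eq fN
    have pS := pΦ.sum (pN.mono lR) (eN ▸ dR)
    refine colR_of_card pS (by simp [hΔ]) fun u hu v hv k => ?_
    refine ((cg_adj pS.inv).1 ?_).2
    rw [cg_sum, eN]
    rcases hc u v k (Or.inr ⟨hu, hv⟩) with c | c | c
    · exact Or.inl (gΦ (Or.inl (eψ ▸ Or.inl c)))
    · exact Or.inr (Or.inl c)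
    · by_cases d : (cg Φ).Adj u v
      exacts [Or.inl d, Or.inr (Or.inr ⟨c, d⟩)]

theorem fin_of (_ : ListStmt) (hK : KonStmt) : FinStmt := fin_kon hK

end Pool.Agent.MP_5c8b6d_co

end

section

/-! The repair process. -/

namespace Pool.Agent.MP_5c8b6d_co

open Finset

set_option linter.unusedSectionVars false

namespace Iter

variable {V ι : Type} [Fintype V] [DecidableEq V] [Fintype ι] [DecidableEq ι]
  {G G' G1 : SimpleGraph V}

/-- the number of tasks at a vertex -/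
def tv (Must : ι → Finset V) (M : ι → V → V) (v : V) : ℕ :=
  (univ.filter (fun i => v ∈ Must i ∧ M i v = v)).card

/-- the invariant of the process -/
structure Inv (G G' : SimpleGraph V) (M0 : ι → V → V) (Ok Keep Must : ι → Finset V)
    (ω L t c tot : ℕ) (M : ι → V → V) : Prop where
  pc : PC G M
  ok : ∀ i v, M i v ≠ v → v ∈ Ok i
  keep : ∀ i, ∀ v ∈ Keep i, M i v = v → M0 i v = v
  new : ∀ i v, M i v ≠ M0 i v → M i v = v ∨ G'.Adj v (M i v)
  iv : ∀ v, chg M0 M v + tv Must M v ≤ L + t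
  ic : ∀ i, (chc M0 M i).card + ω * (fx (M i) (Must i)).card ≤ ω * c
  it : ∑ v, chg M0 M v + ω * ∑ i, (fx (M i) (Must i)).card ≤ ω * tot

theorem Inv.st {M0 M : ι → V → V} {Ok Keep Must : ι → Finset V} {ω L t c tot : ℕ}
    (h : Inv G G' M0 Ok Keep Must ω L t c tot M) : St G G' M0 Ok Keep (L + t) (ω * c) M :=
  ⟨h.pc, h.ok, fun v => le_trans (Nat.le_add_right _ _) (h.iv v),
    fun i => le_trans (Nat.le_add_right _ _) (h.ic i), h.keep, h.new⟩

theorem pc_update {M : ι → V → V} (hG : G' ≤ G) (h : PC G M) {i : ι} {μ : V → V} {W : Finset V}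
    (r : Rep (Av G' M) (M i) μ W) : PC G (Function.update M i μ) := by
  refine ⟨fun j v => ?_, fun j v a => ?_, fun j l v a b => ?_⟩
  · by_cases k : j = i
    · subst k; simp only [Function.update_self]; exact r.inv v
    · simp only [Function.update_of_ne k]; exact h.inv j v
  · by_cases k : j = i
    · subst k
      simp only [Function.update_self] at a ⊢
      by_cases w : v ∈ W
      · exact hG (r.new v w a).1
      · rw [r.out v w] at a ⊢; exact h.adj j v a
    · simp only [Function.update_of_ne k] at a ⊢; exact h.adj j v a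
  · by_cases k : j = i <;> by_cases k' : l = i
    · rw [k, k']
    · subst k
      simp only [Function.update_self, Function.update_of_ne k'] at a b
      by_cases w : v ∈ W
      · exact absurd b.symm ((r.new v w a).2 l)
      · rw [r.out v w] at a b; exact h.uniq j l v a b
    · subst k'
      simp only [Function.update_self, Function.update_of_ne k] at a b
      by_cases w : v ∈ W
      · exact absurd b ((r.new v w (b ▸ a)).2 j)
      · rw [r.out v w] at b; exact h.uniq j l v a b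
    · simp only [Function.update_of_ne k, Function.update_of_ne k'] at a b
      exact h.uniq j l v a b

theorem chg_update (M0 M : ι → V → V) (i : ι) {μ : V → V} {W : Finset V}
    (ho : ∀ v, v ∉ W → μ v = M i v) (v : V) :
    chg M0 (Function.update M i μ) v ≤ chg M0 M v + if v ∈ W then 1 else 0 := by
  unfold chg
  split_ifs with w
  · refine le_trans (card_le_card (t := insert i (univ.filter (fun j => M j v ≠ M0 j v))) ?_)
      (card_insert_le _ _)
    intro j hj
    by_cases k : j = i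
    · simp [k]
    · simpa [k, Function.update_of_ne k] using hj
  · refine card_le_card fun j hj => ?_
    by_cases k : j = i
    · subst k; simpa [ho v w] using hj
    · simpa [Function.update_of_ne k] using hj

theorem step {M0 M : ι → V → V} {Ok Keep Must : ι → Finset V} {ω L t c tot : ℕ} (hG : G' ≤ G)
    (hMK : ∀ i, Must i ⊆ Keep i) (ht : ∀ v, tv Must M0 v ≤ t)
    (h : Inv G G' M0 Ok Keep Must ω L t c tot M) {i : ι} {a : V} (ha : a ∈ Must i)
    (haM : M i a = a) {μ : V → V} {W : Finset V} (r : Rep (Av G' M) (M i) μ W) (hW : W.card ≤ ω)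
    (haW : a ∈ W) (hOk : W ⊆ Ok i) (hK : ∀ v ∈ W, v ∈ Keep i → μ v ≠ v)
    (hO : ∀ v ∈ W, L ≤ chg M0 M v → v ∈ Must i ∧ M i v = v) :
    Inv G G' M0 Ok Keep Must ω L t c tot (Function.update M i μ) ∧
      ∑ j, (fx (Function.update M i μ j) (Must j)).card < ∑ j, (fx (M j) (Must j)).card := by
  have sub : ∀ j v, v ∈ Must j → Function.update M i μ j v = v → M j v = v := fun j v a b => by
    by_cases k : j = i
    · subst k
      simp only [Function.update_self] at b
      by_cases w : v ∈ W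
      · exact absurd b (hK v w (hMK j a))
      · rw [← r.out v w, b]
    · simpa only [Function.update_of_ne k] using b
  have tv1 : ∀ v, univ.filter (fun j => v ∈ Must j ∧ Function.update M i μ j v = v) ⊆
      univ.filter (fun j => v ∈ Must j ∧ M j v = v) := fun v j hj => by
    simp only [mem_filter, mem_univ, true_and] at hj ⊢
    exact ⟨hj.1, sub j v hj.1 hj.2⟩
  have tv2 : ∀ v, tv Must M v ≤ t := fun v => le_trans (card_le_card fun j hj => by
    simp only [mem_filter, mem_univ, true_and] at hj ⊢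
    exact ⟨hj.1, h.keep j v (hMK j hj.1) hj.2⟩) (ht v)
  have tc1 : (fx μ (Must i)).card + 1 ≤ (fx (M i) (Must i)).card := by
    refine card_lt_card ⟨fun v hv => ?_, fun k => ?_⟩
    · exact mem_fx.2 ⟨(mem_fx.1 hv).1, sub i v (mem_fx.1 hv).1 (by simpa using (mem_fx.1 hv).2)⟩
    · exact hK a haW (hMK i ha) (mem_fx.1 (k (mem_fx.2 ⟨ha, haM⟩))).2
  have tc2 : ∑ j, (fx (Function.update M i μ j) (Must j)).card + 1 ≤
      ∑ j, (fx (M j) (Must j)).card := by
    rw [← add_sum_erase _ _ (mem_univ i), ← add_sum_erase _ (fun j => (fx (M j) (Must j)).card)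
      (mem_univ i), sum_congr rfl (g := fun j => (fx (M j) (Must j)).card)
        (fun j hj => by rw [Function.update_of_ne (ne_of_mem_erase hj)])]
    simp only [Function.update_self]
    omega
  have cu := chg_update M0 M i r.out
  refine ⟨⟨pc_update hG h.pc r, fun j v b => ?_, fun j v hv b => ?_, fun j v b => ?_, fun v => ?_,
    fun j => ?_, ?_⟩, tc2⟩
  · by_cases k : j = i
    · subst k
      simp only [Function.update_self] at b
      by_cases w : v ∈ W
      · exact hOk w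
      · rw [r.out v w] at b; exact h.ok j v b
    · simp only [Function.update_of_ne k] at b; exact h.ok j v b
  · by_cases k : j = i
    · subst k
      simp only [Function.update_self] at b
      by_cases w : v ∈ W
      · exact absurd b (hK v w hv)
      · rw [r.out v w] at b; exact h.keep j v hv b
    · simp only [Function.update_of_ne k] at b; exact h.keep j v hv b
  · by_cases k : j = i
    · subst k
      simp only [Function.update_self] at b ⊢
      by_cases w : v ∈ W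
      · by_cases e : μ v = v
        · exact Or.inl e
        · exact Or.inr (r.new v w e).1
      · rw [r.out v w] at b ⊢; exact h.new j v b
    · simp only [Function.update_of_ne k] at b ⊢; exact h.new j v b
  · have a1 := cu v
    have a2 := h.iv v
    have a3 : tv Must (Function.update M i μ) v ≤ tv Must M v := card_le_card (tv1 v)
    have a4 := tv2 v
    by_cases w : v ∈ W
    · rw [if_pos w] at a1
      by_cases o : L ≤ chg M0 M v
      · have a5 : tv Must (Function.update M i μ) v < tv Must M v := by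
          refine card_lt_card ⟨tv1 v, fun k => ?_⟩
          have := k (mem_filter.2 ⟨mem_univ i, hO v w o⟩)
          simp only [mem_filter, mem_univ, true_and, Function.update_self] at this
          exact hK v w (hMK i this.1) this.2
        omega
      · omega
    · rw [if_neg w] at a1; omega
  · by_cases k : j = i
    · subst k
      have a1 : (chc M0 (Function.update M j μ) j).card ≤ (chc M0 M j).card + W.card := by
        refine le_trans (card_le_card fun v hv => ?_) (card_union_le _ _)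
        by_cases w : v ∈ W
        · exact mem_union_right _ w
        · refine mem_union_left _ ?_
          simpa [chc, r.out v w] using hv
      have a2 := h.ic j
      have a3 := Nat.mul_le_mul_left ω tc1
      simp only [Function.update_self]
      rw [mul_add] at a3
      omega
    · have a2 := h.ic j
      simpa only [chc, Function.update_of_ne k] using a2
  · have a1 : ∑ v, chg M0 (Function.update M i μ) v ≤ ∑ v, chg M0 M v + W.card := by
      refine (sum_le_sum fun v _ => cu v).trans (le_of_eq ?_)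
      rw [sum_add_distrib, ← card_filter]
      simp
    have a2 := h.it
    have a3 := Nat.mul_le_mul_left ω tc2
    rw [mul_add] at a3
    omega

/-- an edge of the reservoir that is coloured comes from a changed colour -/
theorem dg_new {M1 M : ι → V → V} (hd : Disjoint G1 G') (h1 : PC G1 M1) (v : V) {S : Finset V}
    (hS : ∀ u ∈ S, G'.Adj v u ∧ ∃ j, M j v = u) : S.card ≤ chg M1 M v := by
  refine le_trans (card_le_card (t := (univ.filter (fun j => M j v ≠ M1 j v)).image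
    (fun j => M j v)) fun u hu => ?_) card_image_le
  obtain ⟨a, j, rfl⟩ := hS u hu
  refine mem_image.2 ⟨j, mem_filter.2 ⟨mem_univ _, fun k => ?_⟩, rfl⟩
  rw [k] at a
  exact disjoint_iff_adj.1 hd _ _ (h1.adj j v a.ne.symm) a

/-- the colouring with all edges at `Y` removed -/
def cutM (M0 : ι → V → V) (Y : ι → Finset V) (i : ι) (v : V) : V :=
  if v ∈ Y i ∨ M0 i v ∈ Y i then v else M0 i v

theorem cutM_ne {M0 : ι → V → V} {Y : ι → Finset V} {i : ι} {v : V} (h : cutM M0 Y i v ≠ v) :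
    v ∉ Y i ∧ M0 i v ∉ Y i ∧ cutM M0 Y i v = M0 i v := by
  unfold cutM at h ⊢
  split_ifs at h ⊢ with k
  · exact absurd rfl h
  · exact ⟨fun a => k (Or.inl a), fun a => k (Or.inr a), rfl⟩

theorem cutM_eq {M0 : ι → V → V} {Y : ι → Finset V} {i : ι} {v : V} (a : v ∉ Y i)
    (b : M0 i v ∉ Y i) : cutM M0 Y i v = M0 i v := if_neg fun k => k.elim a b

theorem cutM_pc {M0 : ι → V → V} (h : PC G1 M0) (Y : ι → Finset V) : PC G1 (cutM M0 Y) := by
  refine ⟨fun i v => ?_, fun i v a => ?_, fun i j v a b => ?_⟩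
  · by_cases a : cutM M0 Y i v = v
    · rw [a, a]
    · obtain ⟨b, c, d⟩ := cutM_ne a
      rw [d, cutM_eq c (by rw [h.inv]; exact b), h.inv]
  · obtain ⟨-, -, d⟩ := cutM_ne a
    rw [d] at a ⊢; exact h.adj i v a
  · obtain ⟨-, -, d⟩ := cutM_ne a
    obtain ⟨-, -, e⟩ := cutM_ne (b ▸ a : cutM M0 Y j v ≠ v)
    rw [d] at a b; rw [e] at b
    exact h.uniq i j v a b

theorem sum_ld_le {Y : ι → Finset V} {η : ℕ} (h : ∀ i, (Y i).card ≤ η) :
    ∑ v, ld Y v ≤ η * Fintype.card ι := by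
  rw [← sum_card_eq_ld]
  simp only [inter_univ]
  simpa [mul_comm] using sum_le_sum (s := univ) fun i _ => h i

end Iter

open Iter in
theorem iter : IterStmt := by
  intro V ι _ _ _ _ G G' M0 Ok Keep Must ω L t c tot hG h0 hok hMK ht hc htot horc
  have key : ∀ n, ∀ M, Inv G G' M0 Ok Keep Must ω L t c tot M →
      ∑ j, (fx (M j) (Must j)).card ≤ n → ∃ M, Inv G G' M0 Ok Keep Must ω L t c tot M ∧
        ∀ i, ∀ v ∈ Must i, M i v ≠ v := by
    intro n
    induction n using Nat.strong_induction_on with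
    | _ n ih =>
      intro M h hn
      by_cases hd : ∀ i, ∀ v ∈ Must i, M i v ≠ v
      · exact ⟨M, h, hd⟩
      push Not at hd
      obtain ⟨i, a, ha, haM⟩ := hd
      have hO : L * (univ.filter (fun v => L ≤ chg M0 M v)).card ≤ ω * tot := by
        have a1 := card_nsmul_le_sum (univ.filter (fun v => L ≤ chg M0 M v)) (chg M0 M) L
          fun v hv => (mem_filter.1 hv).2
        have a2 : ∑ v ∈ univ.filter (fun v => L ≤ chg M0 M v), chg M0 M v ≤ ∑ v, chg M0 M v :=
          sum_le_sum_of_subset (filter_subset _ _)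
        have a3 := h.it
        rw [smul_eq_mul, mul_comm] at a1
        exact a1.trans (a2.trans (le_trans (Nat.le_add_right _ _) a3))
      obtain ⟨μ, W, r, hW, haW, hOk, hK, hOv⟩ := horc M h.st _ hO i a ha haM
      obtain ⟨s1, s2⟩ := step hG hMK ht h ha haM r hW haW hOk hK
        fun v w o => hOv v w (mem_filter.2 ⟨mem_univ _, o⟩)
      exact ih _ (lt_of_lt_of_le s2 hn) _ s1 le_rfl
  have c0 : ∀ v, chg M0 M0 v = 0 := fun v => by simp [chg]
  obtain ⟨M, h, hM⟩ := key _ M0 ⟨h0, hok, fun _ _ _ a => a, fun _ _ a => absurd rfl a,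
    fun v => by have := ht v; rw [c0]; unfold tv; omega,
    fun i => by simpa [chc] using Nat.mul_le_mul_left ω (hc i),
    by simpa [c0] using Nat.mul_le_mul_left ω htot⟩ le_rfl
  exact ⟨M, h.st, le_trans (Nat.le_add_right _ _) h.it, hM⟩

open Iter in
theorem fixa_of (h : IterStmt) : FixaStmt := by
  intro V ι _ _ _ _ G G' G1 T Y E M0 ω c t tot η y t1 L o a β hG' hG1 hd hT h0 hF hE hc htot ht
    hY hy ht1 hL ho ha hβ horc
  classical
  have h1 := cutM_pc h0 Y
  have hT0 : ∀ i v, M0 i v ≠ v → v ∈ T ∧ M0 i v ∈ T := fun i v k =>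
    ⟨hT _ _ (h0.adj i v k), hT _ _ (h0.adj i v k).symm⟩
  have f1 : ∀ i, (fx (cutM M0 Y i) (T \ Y i)).card ≤ (fx (M0 i) T).card + η := fun i => by
    refine le_trans (card_le_card (t := fx (M0 i) T ∪ (Y i).image (M0 i)) fun v hv => ?_)
      ((card_union_le _ _).trans (Nat.add_le_add_left (card_image_le.trans (hY i)) _))
    obtain ⟨a1, a2⟩ := mem_fx.1 hv
    obtain ⟨a3, a4⟩ := mem_sdiff.1 a1
    by_cases k : M0 i v ∈ Y i
    · exact mem_union_right _ ((mem_image_inv (h0.inv i)).2 k)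
    · exact mem_union_left _ (mem_fx.2 ⟨a3, by rw [← cutM_eq a4 k, a2]⟩)
  have f1' : ∀ i, (fx (cutM M0 Y i) (T \ Y i)).card ≤ c + η := fun i =>
    (f1 i).trans (Nat.add_le_add_right (hc i) _)
  obtain ⟨M, hS, hsum, hM⟩ := h V ι G G' (cutM M0 Y) (fun i => T \ Y i) (fun i => T \ Y i)
    (fun i => T \ Y i) ω L (t + t1) (c + η) (tot + η * Fintype.card ι) hG' (h1.mono hG1)
    (fun i v k => mem_sdiff.2 ⟨hT _ _ (h1.adj i v k), (cutM_ne k).1⟩) (fun _ => Subset.rfl)
    (fun v => by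
      by_cases hv : v ∈ T
      · have a1 := h0.dg_add_miss v
        rw [h0.cg_eq hF] at a1
        have a2 := ht v hv
        have a3 := ht1 v hv
        refine le_trans (card_le_card (t := univ.filter (fun i => M0 i v = v) ∪
          univ.filter (fun i => M0 i v ≠ v ∧ M0 i v ∈ Y i)) fun i hi => ?_)
          ((card_union_le _ _).trans (by omega))
        simp only [mem_filter, mem_univ, true_and, mem_sdiff, mem_union] at hi ⊢
        by_cases k : M0 i v ∈ Y i
        · by_cases k' : M0 i v = v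
          · exact Or.inl k'
          · exact Or.inr ⟨k', k⟩
        · exact Or.inl (by rw [← cutM_eq hi.1.2 k, hi.2])
      · simp [hv])
    f1'
    (by
      refine (sum_le_sum fun i _ => f1 i).trans ?_
      rw [sum_add_distrib]
      simpa [mul_comm] using htot)
    (fun M hS Over hO i x hx hxM => by
      have hOo : Over.card ≤ o := Nat.le_of_mul_le_mul_left (hO.trans ho) hL
      have hi := hS.pc.inv i
      obtain ⟨μ, W, r, hW, hxW, hne, hWT⟩ := horc i (M i) (Av G' M)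
        (chc (cutM M0 Y) M i ∪ fx (cutM M0 Y i) (T \ Y i) ∪ Y i ∪ Over ∪ Over.image (M i)) hi
        ⟨fun u v k => ⟨k.1.symm, fun j e => k.2 j (by rw [← e, hS.pc.inv])⟩, fun u v k => k.1,
          fun v => le_trans (dg_new (M := M) hd h1 v fun u hu => by
            obtain ⟨a1, a2⟩ := (mem_filter.1 hu).2
            refine ⟨a1, ?_⟩
            by_contra k
            exact a2 ⟨a1, fun j e => k ⟨j, e⟩⟩) ((hS.cv v).trans (by omega))⟩
        (by
          have a1 := hS.cc i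
          have a2 := f1' i
          have a3 := hY i
          have a4 : (Over.image (M i)).card ≤ Over.card := card_image_le
          have a5 := card_union_le (chc (cutM M0 Y) M i) (fx (cutM M0 Y i) (T \ Y i))
          have a6 := card_union_le (chc (cutM M0 Y) M i ∪ fx (cutM M0 Y i) (T \ Y i)) (Y i)
          have a7 := card_union_le (chc (cutM M0 Y) M i ∪ fx (cutM M0 Y i) (T \ Y i) ∪ Y i) Over
          have a8 := card_union_le
            (chc (cutM M0 Y) M i ∪ fx (cutM M0 Y i) (T \ Y i) ∪ Y i ∪ Over) (Over.image (M i))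
          rw [add_mul, one_mul] at hβ
          omega)
        (fun v hv hB => by
          simp only [mem_union, not_or, chc, mem_filter, mem_univ, true_and, mem_fx, mem_sdiff,
            mem_image_inv hi, not_not] at hB ⊢
          obtain ⟨⟨⟨⟨b1, b2⟩, b3⟩, b4⟩, b5⟩ := hB
          have b6 : cutM M0 Y i v ≠ v := fun k => b2 ⟨⟨hv, b3⟩, k⟩
          obtain ⟨-, b7, b8⟩ := cutM_ne b6
          have b9 : M i v = M0 i v := b1.trans b8
          have b10 : M0 i v ≠ v := b8 ▸ b6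
          have b11 : cutM M0 Y i (M i v) = v := by rw [b1, h1.inv]
          refine ⟨b9 ▸ (hT0 i v b10).2, ⟨⟨⟨⟨by rw [hi, b11], fun k => ?_⟩, b9 ▸ b7⟩, b5⟩,
            by rw [hi]; exact b4⟩, b9 ▸ b10, b9 ▸ hE i v b10⟩
          exact b10 (by rw [← b9, ← k.2, b11]))
        (fun v hv => hS.ok i v (mem_mv.1 hv))
        (fun v hv => by
          by_cases k : M i v = cutM M0 Y i v
          · have b8 := (cutM_ne (k ▸ hv : cutM M0 Y i v ≠ v)).2.2
            rw [k, b8] at hv ⊢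
            exact Or.inl (hE i v hv)
          · exact Or.inr ((hS.new i v k).resolve_left hv))
        x hx hxM
      refine ⟨μ, W, r, hW, hxW, fun v hv => ?_, fun v hv _ => hne v hv, fun v hv k => ?_⟩
      · rcases hWT v hv with b | b
        · exact mem_sdiff.2 ⟨b.1, fun k => b.2 (by simp [k])⟩
        · exact b.1
      · exact (hWT v hv).resolve_left fun b => b.2 (by simp [k]))
  have g1 : ∀ v, dg (cg M ⊓ G') v univ ≤ chg (cutM M0 Y) M v := fun v =>
    dg_new hd h1 v fun u hu => ⟨(mem_nb.1 hu).2.2, ((cg_adj hS.pc.inv).1 (mem_nb.1 hu).2.1).2⟩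
  have g2 : ∀ v, dg (G1 \ cg M) v univ ≤ chg (cutM M0 Y) M v + ld Y v +
      (univ.filter (fun i => M0 i v ≠ v ∧ M0 i v ∈ Y i)).card := fun v => by
    refine le_trans (card_le_card (t := ((univ.filter (fun j => M j v ≠ cutM M0 Y j v) ∪
      univ.filter (fun i => v ∈ Y i)) ∪ univ.filter (fun i => M0 i v ≠ v ∧ M0 i v ∈ Y i)).image
        (fun j => M0 j v)) fun u hu => ?_)
      (card_image_le.trans ((card_union_le _ _).trans
        (Nat.add_le_add_right (card_union_le _ _) _)))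
    obtain ⟨a1, a2⟩ := (mem_nb.1 hu).2
    obtain ⟨j, rfl⟩ := hF v u a1
    refine mem_image.2 ⟨j, ?_, rfl⟩
    simp only [mem_union, mem_filter, mem_univ, true_and]
    by_cases k : v ∈ Y j
    · exact Or.inl (Or.inr k)
    by_cases k' : M0 j v ∈ Y j
    · exact Or.inr ⟨a1.ne.symm, k'⟩
    refine Or.inl (Or.inl fun e => a2 ((cg_adj hS.pc.inv).2 ⟨a1.ne, j, ?_⟩))
    rw [e, cutM_eq k k']
  refine ⟨M, hS.pc, fun i => ?_, fun u v k => ?_, fun v => (g1 v).trans ((hS.cv v).trans (by omega)),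
    (sum_le_sum fun v _ => g1 v).trans hsum, fun v => ?_, ?_⟩
  · ext v
    exact ⟨fun k => hS.ok i v (mem_mv.1 k), fun k => mem_mv.2 (hM i v k)⟩
  · obtain ⟨a1, i, rfl⟩ := (cg_adj hS.pc.inv).1 k
    by_cases e : M i u = cutM M0 Y i u
    · rw [e] at a1 ⊢
      exact Or.inl (h1.adj i u a1.symm)
    · exact Or.inr ((hS.new i u e).resolve_left a1.symm)
  · have a1 := g2 v
    have a2 := hS.cv v
    have a3 := hy v
    have a4 : (univ.filter (fun i => M0 i v ≠ v ∧ M0 i v ∈ Y i)).card ≤ t1 := by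
      by_cases hv : v ∈ T
      · exact ht1 v hv
      · rw [filter_eq_empty_iff.2 fun i _ k => hv (hT0 i v k.1).1]
        exact Nat.zero_le _
    omega
  · have a1 := sum_ld_le hY
    have a2 := sum_ld_le (Y := fun i => (Y i).image (M0 i)) fun i => card_image_le.trans (hY i)
    have a3 : ∑ v, (univ.filter (fun i => M0 i v ≠ v ∧ M0 i v ∈ Y i)).card ≤
        ∑ v, ld (fun i => (Y i).image (M0 i)) v :=
      sum_le_sum fun v _ => card_le_card fun i hi => mem_filter.2
        ⟨mem_univ _, (mem_image_inv (h0.inv i)).2 (mem_filter.1 hi).2.2⟩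
    have a4 := sum_le_sum (s := univ) fun v _ => g2 v
    rw [sum_add_distrib, sum_add_distrib] at a4
    rw [add_mul]
    omega

end Pool.Agent.MP_5c8b6d_co

end

section

/-! Short alternating paths between two sides and through the layers. -/

namespace Pool.Agent.MP_5c8b6d_co

open Finset

namespace Orm

variable {V : Type} [Fintype V] [DecidableEq V] {G' : SimpleGraph V} {T Bad W : Finset V}
  {μ ν : V → V} {Rl : V → V → Prop} {a β w e : ℕ} {x f : V}

/-- the common hypotheses -/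
structure Ctx (G' : SimpleGraph V) (T Bad : Finset V) (μ : V → V) (Rl : V → V → Prop)
    (a β : ℕ) : Prop where
  inv : ∀ v, μ (μ v) = v
  res : Res G' Rl a
  bad : Bad.card ≤ β
  good : ∀ v ∈ T, v ∉ Bad → μ v ∈ T ∧ μ v ∉ Bad ∧ μ v ≠ v
  adj : ∀ u v, G'.Adj u v → u ∈ T

/-- an alternating path that starts at `x` and then uses good vertices only -/
structure Pa (T Bad : Finset V) (μ : V → V) (Rl : V → V → Prop) (x : V) (W : Finset V)
    (ν : V → V) (f : V) : Prop where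
  alt : Alt Rl μ W ν f
  mem : x ∈ W
  ok : ∀ v ∈ W, v = x ∨ (v ∈ T ∧ v ∉ Bad)

theorem Ctx.mem (C : Ctx G' T Bad μ Rl a β) {u v : V} (h : Rl u v) : v ∈ T :=
  C.adj _ _ (C.res.adj _ _ h).symm

theorem Ctx.start (C : Ctx G' T Bad μ Rl a β) (hx : μ x = x) : Pa T Bad μ Rl x {x} μ x :=
  ⟨Alt.start Rl C.inv hx, mem_singleton_self _, fun _ h => Or.inl (mem_singleton.1 h)⟩

theorem Ctx.go (C : Ctx G' T Bad μ Rl a β) (A : Pa T Bad μ Rl x W ν f) {b : V} (h1 : Rl f b)
    (h2 : b ∉ Bad) (h3 : b ∉ W) :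
    Pa T Bad μ Rl x (insert b (insert (μ b) W)) (sw ν f b) (μ b) := by
  obtain ⟨k1, k2, k3⟩ := C.good b (C.mem h1) h2
  refine ⟨A.alt.step C.inv C.res.symm h1 h3 k3, by simp [A.mem], fun v hv => ?_⟩
  simp only [mem_insert] at hv
  rcases hv with rfl | rfl | hv
  exacts [Or.inr ⟨C.mem h1, h2⟩, Or.inr ⟨k1, k2⟩, A.ok v hv]

theorem Ctx.big (C : Ctx G' T Bad μ Rl a β) (v : V) (W : Finset V) :
    dg G' v univ ≤ (gn Rl v univ (Bad ∪ W)).card + a + β + W.card := by
  have h1 := C.res.dg_le v univ (Bad ∪ W)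
  have h2 := card_union_le Bad W
  have h3 := C.bad
  omega

theorem Ctx.step (C : Ctx G' T Bad μ Rl a β) (A : Pa T Bad μ Rl x W ν f)
    (h : a + β + W.card < dg G' f univ) : ∃ b W' ν', Rl f b ∧ b ∉ Bad ∧
      Pa T Bad μ Rl x W' ν' (μ b) ∧ W'.card ≤ W.card + 2 := by
  have h1 := C.big f W
  obtain ⟨b, hb⟩ : (gn Rl f univ (Bad ∪ W)).Nonempty := card_pos.1 (by omega)
  simp only [mem_gn, mem_union, not_or] at hb
  exact ⟨b, _, _, hb.2.2, hb.2.1.1, C.go A hb.2.2 hb.2.1.1 hb.2.1.2,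
    (card_insert_le _ _).trans (Nat.succ_le_succ (card_insert_le _ _))⟩

theorem Ctx.fin (C : Ctx G' T Bad μ Rl a β) (A : Pa T Bad μ Rl x W ν f) {y : V} (hy : μ y = y)
    (hne : y ≠ x) {P Q : Finset V} (hM : Mix G' T P Q e)
    (hP : ∀ u, Rl f u → u ∉ Bad → μ u ∈ P) (hQ : ∀ u, Rl y u → u ∉ Bad → μ u ∈ Q)
    (cP : P.card ≤ 2 * dg G' f univ + w) (cQ : Q.card ≤ 2 * dg G' y univ + w)
    (he : w + 2 * (a + β + W.card) ≤ e) (he' : a + 3 ≤ e) :
    ∃ (μ' : V → V) (W' : Finset V), Rep Rl μ μ' W' ∧ W'.card ≤ W.card + 5 ∧ x ∈ W' ∧ y ∈ W' ∧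
      (∀ v ∈ W', μ' v ≠ v) ∧ ∀ v ∈ W', (v ∈ T ∧ v ∉ Bad) ∨ v = x ∨ v = y := by
  have h1 := C.big f W
  have h2 := C.big y W
  have m : ∀ v u, u ∈ (gn Rl v univ (Bad ∪ W)).image μ → μ u ∉ Bad ∧ μ u ∉ W ∧ Rl v (μ u) := by
    intro v u hu
    rw [mem_image_inv C.inv] at hu
    simpa [mem_gn, and_assoc] using hu
  obtain ⟨p, hp, k⟩ := hM ((gn Rl f univ (Bad ∪ W)).image μ) ((gn Rl y univ (Bad ∪ W)).image μ)
    (fun u hu => by have := m f u hu; simpa [C.inv] using hP _ this.2.2 this.1)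
    (fun u hu => by
      have := m f u hu
      simpa [C.inv] using (C.good _ (C.mem this.2.2) this.1).1)
    (fun u hu => by have := m y u hu; simpa [C.inv] using hQ _ this.2.2 this.1)
    (by rw [card_image_inv C.inv]; omega) (by rw [card_image_inv C.inv]; omega)
  obtain ⟨p1, p2, p3⟩ := m f p hp
  have h3 := C.res.dg_le p ((gn Rl y univ (Bad ∪ W)).image μ) {μ p, p}
  have h4 : ({μ p, p} : Finset V).card ≤ 2 := card_le_two
  obtain ⟨z, hz⟩ : (gn Rl p ((gn Rl y univ (Bad ∪ W)).image μ) {μ p, p}).Nonempty :=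
    card_pos.1 (by omega)
  obtain ⟨z1, z2, z3⟩ := mem_gn.1 hz
  obtain ⟨q1, q2, q3⟩ := m y z z1
  have A1 := C.go A p3 p1 p2
  rw [C.inv] at A1
  have zb : z ∉ Bad := by simpa [C.inv] using (C.good _ (C.mem q3) q1).2.1
  have A2 := C.go A1 z3 zb (by
    have := A.alt.not_mem C.inv q2
    rw [C.inv] at this
    simp only [mem_insert, mem_singleton, not_or] at z2 ⊢
    exact ⟨z2.1, z2.2, this⟩)
  have yW : y ∉ insert z (insert (μ z) (insert (μ p) (insert p W))) := fun k => by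
    rcases A2.ok y k with k | k
    exacts [hne k, (C.good y k.1 k.2).2.2 hy]
  obtain ⟨r1, r2⟩ := A2.alt.close C.inv C.res.symm (C.res.symm _ _ q3) yW hy
  refine ⟨_, _, r1, ?_, mem_insert_of_mem A2.mem, mem_insert_self _ _, r2, fun v hv => ?_⟩
  · iterate 5 refine (card_insert_le _ _).trans (Nat.succ_le_succ ?_)
    exact le_rfl
  · rcases mem_insert.1 hv with rfl | hv
    · exact Or.inr (Or.inr rfl)
    · rcases A2.ok v hv with k | k
      exacts [Or.inr (Or.inl k), Or.inl k]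

end Orm

open Orm

theorem orm : OrmStmt := by
  intro V _ _ G' σ E T Ok a β w e h1 h2 h3 h4 h5 h6 h7 μ Rl Bad k1 k2 k3 k4 k5 _ x k7 k8
  have C : Ctx G' T Bad μ Rl a β := ⟨k1, k2, k3, fun v c d =>
    ⟨(k4 v c d).1, (k4 v c d).2.1, (k4 v c d).2.2.1⟩, fun u v c => (h1 u v c).1⟩
  have sd : ∀ v u, Rl v u → u ∉ Bad → μ u ∈ cls T σ (!σ v) := fun v u c d => by
    have c1 := k4 u (C.mem c) d
    have c2 := (h1 _ _ (k2.adj _ _ c)).2
    rw [mem_cls, ← h2 _ _ c1.2.2.2]
    exact ⟨c1.1, by revert c2; cases σ v <;> cases σ u <;> simp⟩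
  obtain ⟨y, hy, hne⟩ : ∃ y ∈ fx μ Ok, y ≠ x := by
    have c1 := card_fx_add μ Ok
    rw [inter_eq_left.2 k5] at c1
    obtain ⟨c, c2⟩ := even_card_mv k1
    obtain ⟨d, c3⟩ := h4
    have c4 : x ∈ fx μ Ok := by simp [fx, k7, k8]
    have c5 := card_pos.2 ⟨x, c4⟩
    exact exists_mem_ne (by omega) x
  simp only [fx, mem_filter] at hy
  obtain ⟨W, ν, f, A, f1, f2, f3⟩ : ∃ W ν f, Pa T Bad μ Rl x W ν f ∧ W.card ≤ 3 ∧ f ∈ T ∧
      σ y = !σ f := by
    by_cases c : σ y = !σ x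
    · exact ⟨_, _, _, C.start k8, by simp, h3 k7, c⟩
    · have c1 := h5 x (h3 k7)
      have c2 := (h6 (!σ x)).lt_card
      obtain ⟨b, W, ν, b1, b2, b3, b4⟩ := C.step (C.start k8) (by rw [card_singleton]; omega)
      obtain ⟨b5, b6⟩ := mem_cls.1 (sd x b b1 b2)
      refine ⟨W, ν, _, b3, by simpa using b4, b5, ?_⟩
      rw [b6]
      revert c
      cases σ y <;> cases σ x <;> simp
  obtain ⟨μ', W', r1, r2, r3, -, r5, r6⟩ := C.fin A hy.2 hne (h6 (!σ f)) (sd f)
    (by rw [← f3]; exact sd y) (h5 f f2) (by rw [← f3]; exact h5 y (h3 hy.1)) (by omega) (by omega)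
  refine ⟨μ', W', r1, by omega, r3, r5, fun v hv => ?_⟩
  rcases r6 v hv with k | rfl | rfl
  exacts [Or.inl k, Or.inr ⟨k7, k8⟩, Or.inr hy]

theorem orb : OrbStmt := by
  intro m hm V _ _ G' π s E T Ok a β w e h0 h1 h2 h3 h4 h5 h6 h7 μ Rl Bad k1 k2 k3 k4 k5 k6 x k7 k8
  have C : Ctx G' T Bad μ Rl a β := ⟨k1, k2, k3, fun v c d =>
    ⟨(k4 v c d).1, (k4 v c d).2.1, (k4 v c d).2.2.1⟩, fun u v c => (h1 u v c).1⟩
  have sT : ∀ v u, Rl v u → u ∉ Bad → (π v).1 = true → μ u ∈ cls T π (true, (π v).2 - s) := by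
    intro v u c d t
    have c1 := k4 u (C.mem c) d
    obtain ⟨-, c2, c3⟩ := h1 _ _ (k2.adj _ _ c)
    obtain ⟨c4, -, c5⟩ := h2 _ _ c1.2.2.2
    have c6 : (π (μ u)).1 = true := by
      revert c2 c4; rw [t]; cases (π u).1 <;> cases (π (μ u)).1 <;> simp
    exact mem_cls.2 ⟨c1.1, Prod.ext c6 (by simp [c3, c5 c6])⟩
  have sF : ∀ v u, Rl v u → u ∉ Bad → (π v).1 = false → μ u ∈ cls T π (false, (π v).2 + s) := by
    intro v u c d t
    have c1 := k4 u (C.mem c) d
    obtain ⟨-, c2, c3⟩ := h1 _ _ (k2.adj _ _ c)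
    obtain ⟨c4, c5, -⟩ := h2 _ _ c1.2.2.2
    have c6 : (π u).1 = true := by revert c2; rw [t]; cases (π u).1 <;> simp
    refine mem_cls.2 ⟨c1.1, Prod.ext ?_ (by simp [c3, c5 c6])⟩
    revert c4; rw [c6]; cases (π (μ u)).1 <;> simp
  have bal : (cls (fx μ Ok) (fun u => (π u).1) true).card =
      (cls (fx μ Ok) (fun u => (π u).1) false).card := by
    have c1 := card_side_eq k1 (S := mv μ) (σ := fun u => (π u).1) fun v hv =>
      ⟨mem_mv.2 (inv_ne k1 (mem_mv.1 hv)), by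
        rcases k6 v (mem_mv.1 hv) with c | c
        exacts [(h2 _ _ c).1.symm, (h1 _ _ c).2.1.symm]⟩
    have c2 : ∀ b, (cls (fx μ Ok) (fun u => (π u).1) b).card +
        (cls (mv μ) (fun u => (π u).1) b).card = (cls Ok (fun u => (π u).1) b).card := fun b => by
      rw [← card_fx_add μ (cls Ok _ b)]
      congr 2
      · ext v; simp only [fx, mem_cls, mem_filter]; tauto
      · ext v
        simp only [mem_cls, mem_inter]
        exact ⟨fun k => ⟨k.1, k5 k.1, k.2⟩, fun k => ⟨k.1, k.2.2⟩⟩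
    have c3 := c2 true
    have c4 := c2 false
    omega
  obtain ⟨p, q, p1, p2, q1, q2, pq⟩ : ∃ p q, (p ∈ Ok ∧ μ p = p) ∧ (π p).1 = true ∧
      (q ∈ Ok ∧ μ q = q) ∧ (π q).1 = false ∧ (x = p ∨ x = q) := by
    have c : x ∈ cls (fx μ Ok) (fun u => (π u).1) (π x).1 := by simp [mem_cls, fx, k7, k8]
    have c1 := card_pos.2 ⟨x, c⟩
    cases t : (π x).1
    · rw [t, ← bal] at c1
      obtain ⟨p, hp⟩ := card_pos.1 c1
      simp only [mem_cls, fx, mem_filter] at hp
      exact ⟨p, x, hp.1, hp.2, ⟨k7, k8⟩, t, Or.inr rfl⟩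
    · rw [t, bal] at c1
      obtain ⟨q, hq⟩ := card_pos.1 c1
      simp only [mem_cls, fx, mem_filter] at hq
      exact ⟨x, q, ⟨k7, k8⟩, t, hq.1, hq.2, Or.inl rfl⟩
  have walk : ∀ t : ℕ, t ≤ m → ∃ W ν f, Pa T Bad μ Rl p W ν f ∧ W.card ≤ 1 + 2 * t ∧
      f ∈ cls T π (true, (π p).2 - t * s) := by
    intro t
    induction t with
    | zero =>
      exact fun _ => ⟨_, _, _, C.start p1.2, by simp,
        mem_cls.2 ⟨h3 p1.1, Prod.ext p2 (by simp)⟩⟩
    | succ t ih =>
      intro ht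
      obtain ⟨W, ν, f, A, f1, f2⟩ := ih (by omega)
      obtain ⟨f3, f4⟩ := mem_cls.1 f2
      have c1 := h5 f f3 (true, 0)
      have c2 := (h6 0).lt_card
      obtain ⟨b, W', ν', b1, b2, b3, b4⟩ := C.step A (by omega)
      refine ⟨W', ν', _, b3, by omega, ?_⟩
      have := sT f b b1 b2 (by rw [f4])
      rw [f4] at this
      convert this using 3
      push_cast
      ring
  have hm0 : NeZero m := ⟨hm.out.ne_zero⟩
  have ht := ZMod.val_lt (((π p).2 - (π q).2) * s⁻¹ - 2)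
  obtain ⟨W, ν, f, A, f1, f2⟩ := walk _ ht.le
  obtain ⟨f3, f4⟩ := mem_cls.1 f2
  have e1 : (π f).2 - s = (π q).2 + s := by
    rw [f4, ZMod.natCast_zmod_val]
    simp only
    field_simp
    ring
  obtain ⟨μ', W', r1, r2, r3, r4, r5, r6⟩ := C.fin A q1.2
    (fun k => by rw [k, p2] at q2; cases q2) (h6 ((π q).2 + s))
    (fun u c d => e1 ▸ sT f u c d (by rw [f4])) (fun u c d => sF q u c d q2) (h5 f f3 _)
    (h5 q (h3 q1.1) _) (by omega) (by omega)
  refine ⟨μ', W', r1, by omega, by rcases pq with rfl | rfl <;> assumption, r5, fun v hv => ?_⟩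
  rcases r6 v hv with k | rfl | rfl
  exacts [Or.inl k, Or.inr p1, Or.inr q1]

end Pool.Agent.MP_5c8b6d_co

end

end MrgPart0

-- ======== part 1: formerly Pool.Agent.MP_5c8b6d_co.ML
section MrgPart1

section

/-! Padding a graph by pendant edges, and the rough structure of extremal graphs. -/

namespace Pool.Agent.MP_5c8b6d_co

open Finset

set_option linter.unusedSectionVars false

namespace Pad

section emb

variable {V V' : Type} [Fintype V] [DecidableEq V] [Fintype V'] [DecidableEq V']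
  {G : SimpleGraph V} {G' : SimpleGraph V'} {φ : V ↪ V'}

theorem nn_map (h : ∀ u v, G'.Adj (φ u) (φ v) ↔ G.Adj u v) (v : V) (W : Finset V) :
    nn G' (φ v) (W.map φ) = (nn G v W).map φ := by
  ext u
  simp only [mem_nn, mem_map]
  constructor
  · rintro ⟨⟨w, hw, rfl⟩, k⟩
    exact ⟨w, ⟨hw, fun a => k ((h _ _).2 a)⟩, rfl⟩
  · rintro ⟨w, ⟨hw, k⟩, rfl⟩
    exact ⟨⟨w, hw, rfl⟩, fun a => k ((h _ _).1 a)⟩

theorem dg_map (h : ∀ u v, G'.Adj (φ u) (φ v) ↔ G.Adj u v) (v : V) (W : Finset V) :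
    dg G' (φ v) (W.map φ) = dg G v W := by
  have h1 := dg_add_nn (G := G') (φ v) (W.map φ)
  have h2 := dg_add_nn (G := G) v W
  rw [nn_map h, card_map, card_map] at h1
  omega

theorem tw_map (h : ∀ u v, G'.Adj (φ u) (φ v) ↔ G.Adj u v) (R T : Finset V) (e : ℕ) (x : V) :
    tw G' (R.map φ) (T.map φ) e (φ x) = (tw G R T e x).map φ := by
  unfold tw
  rw [filter_map]
  congr 1
  refine filter_congr fun y _ => ?_
  simp only [Function.comp, nn_map h, dg_map h]

theorem com_map (h : ∀ u v, G'.Adj (φ u) (φ v) ↔ G.Adj u v) {Δ : ℕ} (hc : Com G univ Δ) :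
    Com G' (univ.map φ) Δ := by
  refine ⟨fun S hS ho => ?_, by simpa using hc.card⟩
  obtain ⟨W, -, rfl⟩ := subset_map_iff.1 hS
  rw [card_map] at ho ⊢
  simpa only [sum_map, dg_map h] using hc.nov W (subset_univ _) ho

theorem spa_map (h : ∀ u v, G'.Adj (φ u) (φ v) ↔ G.Adj u v) {Δ η e : ℕ} {T : Finset V}
    (k : Spa G univ T Δ η e) : Spa G' (univ.map φ) (T.map φ) Δ η e := by
  refine ⟨map_subset_map.2 k.sub, k.ne.map, fun v hv => ?_, fun y hy hy' => ?_, fun v hv => ?_⟩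
  · obtain ⟨w, hw, rfl⟩ := mem_map.1 hv
    rw [dg_map h]
    exact k.dT w hw
  · obtain ⟨y, -, rfl⟩ := mem_map.1 hy
    rw [← Finset.map_sdiff, dg_map h]
    exact k.dU y (mem_univ _) fun a => hy' (mem_map_of_mem _ a)
  · obtain ⟨w, hw, rfl⟩ := mem_map.1 hv
    rw [dg_map h, tw_map h, card_map, card_map]
    exact k.nex w hw

theorem two_map (h : ∀ u v, G'.Adj (φ u) (φ v) ↔ G.Adj u v) {Δ g : ℕ} {T1 T2 : Finset V}
    (k : Two G univ T1 T2 Δ g) : Two G' (univ.map φ) (T1.map φ) (T2.map φ) Δ g := by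
  refine ⟨map_subset_map.2 k.s1, map_subset_map.2 k.s2, (disjoint_map _).2 k.dj, k.n1.map, k.n2.map,
    ?_, fun v hv => ?_, fun v hv => ?_, fun v hv => ?_, fun v hv => ?_⟩
  · rw [← map_union, ← Finset.map_sdiff, card_map]
    exact k.cX
  · obtain ⟨w, hw, rfl⟩ := mem_map.1 hv
    rw [dg_map h]
    exact k.d1 w hw
  · obtain ⟨w, hw, rfl⟩ := mem_map.1 hv
    rw [dg_map h]
    exact k.d2 w hw
  · rw [← map_union, ← Finset.map_sdiff] at hv
    obtain ⟨w, hw, rfl⟩ := mem_map.1 hv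
    rw [dg_map h]
    exact k.x1 w hw
  · rw [← map_union, ← Finset.map_sdiff] at hv
    obtain ⟨w, hw, rfl⟩ := mem_map.1 hv
    rw [dg_map h]
    exact k.x2 w hw

theorem bip_map (h : ∀ u v, G'.Adj (φ u) (φ v) ↔ G.Adj u v) {Δ g : ℕ} {A B : Finset V}
    (k : Bip G univ A B Δ g) : Bip G' (univ.map φ) (A.map φ) (B.map φ) Δ g := by
  refine ⟨map_subset_map.2 k.s1, map_subset_map.2 k.s2, (disjoint_map _).2 k.dj, k.n1.map, k.n2.map,
    ?_, fun v hv => ?_, fun v hv => ?_⟩
  · rw [← map_union, ← Finset.map_sdiff, card_map]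
    exact k.cX
  · obtain ⟨w, hw, rfl⟩ := mem_map.1 hv
    rw [dg_map h]
    exact k.d1 w hw
  · obtain ⟨w, hw, rfl⟩ := mem_map.1 hv
    rw [dg_map h]
    exact k.d2 w hw

theorem col_map (h : ∀ u v, G'.Adj (φ u) (φ v) ↔ G.Adj u v) {Δ : ℕ}
    (k : ColR G' (univ.map φ) Δ) : Col G Δ := by
  classical
  obtain ⟨M, hM, hF⟩ := k
  have key : ∀ i v, ∃ u, M i (φ v) = φ u ∨ (u = v ∧ ∀ w, M i (φ v) ≠ φ w) := fun i v => by
    by_cases a : ∃ u, M i (φ v) = φ u
    · exact a.imp fun _ => Or.inl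
    · exact ⟨v, Or.inr ⟨rfl, fun w b => a ⟨w, b⟩⟩⟩
  choose N hN using key
  have h1 : ∀ i v u, M i (φ v) = φ u → N i v = u := fun i v u a =>
    (hN i v).elim (fun b => φ.injective (b.symm.trans a)) fun b => absurd a (b.2 u)
  have h2 : ∀ i v, N i v ≠ v → M i (φ v) = φ (N i v) := fun i v a =>
    (hN i v).elim id fun b => absurd b.1 a
  refine ⟨N, ⟨fun i v => ?_, fun i v a => ?_, fun i j v a b => ?_⟩, fun u v a => ?_⟩
  · by_cases a : N i v = v
    · rw [a, a]
    · exact h1 _ _ _ (by rw [← h2 i v a, hM.inv])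
  · have := hM.adj i (φ v) (by rw [h2 i v a]; exact φ.injective.ne a)
    rwa [h2 i v a, h] at this
  · exact hM.uniq i j (φ v) (by rw [h2 i v a]; exact φ.injective.ne a)
      (by rw [h2 i v a, h2 j v (b ▸ a), b])
  · obtain ⟨i, hi⟩ := hF (φ u) (by simp) (φ v) (by simp) ((h u v).2 a)
    exact ⟨i, h1 _ _ _ hi⟩

end emb

variable {V : Type} [Fintype V] [DecidableEq V]

/-- the padded graph -/
def pg (G : SimpleGraph V) (Δ : ℕ) : SimpleGraph (V ⊕ V × Fin Δ) where
  Adj a b := match a, b with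
    | Sum.inl u, Sum.inl v => G.Adj u v
    | Sum.inl u, Sum.inr p => p.1 = u ∧ p.2.1 < Δ - dg G u univ
    | Sum.inr p, Sum.inl u => p.1 = u ∧ p.2.1 < Δ - dg G u univ
    | Sum.inr _, Sum.inr _ => False
  symm := ⟨fun a b h => by
    rcases a with a | a <;> rcases b with b | b
    · exact G.adj_symm h
    all_goals exact h⟩
  loopless := ⟨fun a h => by
    rcases a with a | a
    · exact G.irrefl h
    · exact h⟩

theorem pad_pg (G : SimpleGraph V) {Δ : ℕ} (hd : ∀ v, dg G v univ ≤ Δ) :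
    Pad (pg G Δ) (univ.map Function.Embedding.inl) Δ := by
  refine ⟨fun v hv => ?_, fun v hv => ?_, fun u v h => ?_⟩
  · obtain ⟨v, -, rfl⟩ := mem_map.1 hv
    rw [← dg_add_compl _ (univ.map Function.Embedding.inl), dg_map (G := G) fun _ _ => Iff.rfl]
    have : dg (pg G Δ) (Function.Embedding.inl v) (univ.map Function.Embedding.inl)ᶜ =
        (range (Δ - dg G v univ)).card := by
      symm
      refine card_bij (fun j hj => Sum.inr (v, ⟨j, (mem_range.1 hj).trans_le (Nat.sub_le _ _)⟩))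
        (fun j hj => mem_nb.2 ⟨by simp, rfl, mem_range.1 hj⟩) (fun j _ j' _ e => by simpa using e) ?_
      rintro (u | ⟨u, j⟩) hu
      · simp at hu
      · obtain ⟨rfl, h2⟩ : u = v ∧ j.1 < Δ - dg G v univ := (mem_nb.1 hu).2
        exact ⟨j.1, mem_range.2 h2, rfl⟩
    rw [this, card_range]
    have := hd v
    omega
  · rcases v with v | p
    · simp at hv
    · refine card_le_one.2 ?_
      rintro (a | a) ha (b | b) hb
      · exact congrArg _ ((mem_nb.1 ha).2.1.symm.trans (mem_nb.1 hb).2.1)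
      · exact (mem_nb.1 hb).2.elim
      · exact (mem_nb.1 ha).2.elim
      · exact (mem_nb.1 ha).2.elim
  · rcases u with u | u <;> rcases v with v | v
    · simp
    · simp
    · simp
    · exact h.elim

end Pad

open Pad in
theorem pad : PadStmt := fun V _ _ G Δ hd hc =>
  have h : ∀ u v, (pg G Δ).Adj (Function.Embedding.inl u) (Function.Embedding.inl v) ↔ G.Adj u v :=
    fun _ _ => Iff.rfl
  ⟨V ⊕ V × Fin Δ, inferInstance, inferInstance, pg G Δ, Function.Embedding.inl, pad_pg G hd,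
    com_map h hc, col_map h, fun _ _ _ => spa_map h, fun _ _ _ => two_map h,
    fun _ _ _ => bip_map h⟩

theorem sta : StaStmt := by
  intro V _ _ G T Δ e l g hd hN hT hne h1 h2 h3 h4 h5
  simp only [NE, not_forall, not_lt, card_univ] at hne
  obtain ⟨x, hx, a1, a2⟩ := hne
  have a3 := hT x hx
  obtain ⟨C, hC⟩ : ∃ C, C = tw G univ T e x := ⟨_, rfl⟩
  obtain ⟨N, hN0⟩ : ∃ N, N = nb G x univ := ⟨_, rfl⟩
  have n1 : N.card = dg G x univ := by rw [hN0]; rfl
  have n2 := hd x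
  rw [← hC] at a2
  have c1 : ∀ y ∈ C, dg G y Nᶜ ≤ e := fun y hy => by
    rw [hC] at hy
    exact (dg_mono_set y fun u hu => by simpa [hN0] using hu).trans (mem_filter.1 hy).2
  have c2 : ∀ y ∈ C, Δ ≤ dg G y N + 2 * e := fun y hy => by
    have := dg_add_compl (G := G) y N
    have := c1 y hy
    have := hT y (by rw [hC] at hy; exact (mem_filter.1 hy).1)
    omega
  obtain ⟨B, hB⟩ : ∃ B, B = N.filter fun y => C.card ≤ dg G y C + l := ⟨_, rfl⟩
  have sB : B ⊆ N := hB ▸ filter_subset _ _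
  have b1 : ∀ y ∈ B, C.card ≤ dg G y C + l := fun y hy => by
    rw [hB] at hy; exact (mem_filter.1 hy).2
  have b2 : (N \ B).card ≤ 2 * l := by
    have s1 := sum_le_card_nsmul (N \ B) (fun y => dg G y C + l) C.card fun y hy => by
      obtain ⟨y1, y2⟩ := mem_sdiff.1 hy
      simp only [hB, mem_filter, not_and, not_le] at y2
      exact (y2 y1).le
    have s2 := card_nsmul_le_sum C (fun y => dg G y (N \ B) + 2 * e) (N \ B).card fun y hy => by
      have := c2 y hy
      have := dg_sdiff_add (G := G) y sB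
      have := dg_le_card (G := G) y B
      have := card_sdiff_add_card_eq_card sB
      omega
    rw [sum_add_distrib, sum_const, smul_eq_mul, smul_eq_mul] at s1 s2
    rw [sum_dg_comm, mul_comm] at s2
    have s3 : C.card * (2 * e) ≤ 2 * l * l :=
      calc C.card * (2 * e) ≤ Fintype.card V * (2 * e) := Nat.mul_le_mul_right _ (card_le_univ C)
        _ = 2 * (e * Fintype.card V) := by ring
        _ ≤ 2 * l ^ 2 := Nat.mul_le_mul_left _ h3
        _ = _ := by ring
    exact Nat.le_of_mul_le_mul_right (by omega) h2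
  have b3 := card_sdiff_add_card_eq_card sB
  by_cases hc : Disjoint C B
  · refine Or.inl ⟨C, B, subset_univ _, subset_univ _, hc, card_pos.1 (by omega),
      card_pos.1 (by omega), ?_, fun v hv => ?_, fun v hv => ?_⟩
    · rw [card_sdiff_of_subset (subset_univ _), card_univ, card_union_of_disjoint hc]
      omega
    · have := c2 v hv
      have := dg_le_add_sdiff (G := G) v N B
      omega
    · have := b1 v hv
      omega
  · obtain ⟨y, y1, y2⟩ := not_disjoint_iff.1 hc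
    have d1 : (C \ N).card ≤ 2 * l := by
      have := b1 y y2
      have := c1 y y1
      have := dg_sdiff_add (G := G) y (inter_subset_left (s₁ := C) (s₂ := N))
      have := dg_le_card (G := G) y (C ∩ N)
      have : dg G y (C \ (C ∩ N)) ≤ dg G y Nᶜ := dg_mono_set y fun u hu => by
        simp only [mem_sdiff, mem_inter, mem_compl] at hu ⊢
        tauto
      have := card_sdiff_add_card_inter C N
      omega
    have d2 : (C \ (C ∩ B)).card ≤ (C \ N).card + (N \ B).card :=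
      (card_le_card fun u hu => by
        simp only [mem_sdiff, mem_inter, mem_union] at hu ⊢
        tauto).trans (card_union_le _ _)
    refine Or.inr ⟨C ∩ B, ⟨y, mem_inter.2 ⟨y1, y2⟩⟩, fun v hv => ?_, ?_, by omega⟩
    · have := b1 v (mem_inter.1 hv).2
      have := dg_le_add_sdiff (G := G) v C (C ∩ B)
      omega
    · have := card_le_card ((inter_subset_right (s₁ := C)).trans sB)
      omega

end Pool.Agent.MP_5c8b6d_co

end

section

/-! Saturating the complement of a near clique. -/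

namespace Pool.Agent.MP_5c8b6d_co

open Finset

set_option linter.unusedSectionVars false

namespace Stb

variable {V : Type} [Fintype V] [DecidableEq V] {G : SimpleGraph V}

theorem sum_nn_comm (S W : Finset V) :
    ∑ v ∈ S, (nn G v W).card = ∑ w ∈ W, (nn G w S).card := by
  classical
  simp only [nn, card_filter]
  rw [sum_comm]
  exact sum_congr rfl fun w _ => sum_congr rfl fun v _ => by simp only [G.adj_comm]

/-- the graph with one more edge -/
def ad (G : SimpleGraph V) (x y : V) : SimpleGraph V := G ⊔ ofP {(x, y)}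

theorem ad_adj {x y u v : V} (h : (ad G x y).Adj u v) :
    G.Adj u v ∨ (u = x ∧ v = y) ∨ (u = y ∧ v = x) := by
  rcases h with h | ⟨-, h | h⟩
  · exact Or.inl h
  · exact Or.inr (Or.inl (by simpa using h))
  · exact Or.inr (Or.inr (by simpa [and_comm] using h))

theorem dg_ad {x y : V} (hxy : x ≠ y) (v : V) (S : Finset V) :
    dg (ad G x y) v S ≤ dg G v S + if (v = x ∧ y ∈ S) ∨ (v = y ∧ x ∈ S) then 1 else 0 := by
  split_ifs with h
  · refine (card_le_card (t := insert (if v = x then y else x) (nb G v S)) fun u hu => ?_).trans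
      (card_insert_le _ _)
    obtain ⟨h1, h2⟩ := mem_nb.1 hu
    rcases ad_adj h2 with h3 | ⟨rfl, rfl⟩ | ⟨rfl, rfl⟩
    · exact mem_insert_of_mem (mem_nb.2 ⟨h1, h3⟩)
    · simp
    · simp [hxy.symm]
  · refine dg_le_of fun u hu h2 => ⟨hu, ?_⟩
    rcases ad_adj h2 with h3 | ⟨rfl, rfl⟩ | ⟨rfl, rfl⟩
    · exact h3
    · exact absurd (Or.inl ⟨rfl, hu⟩) h
    · exact absurd (Or.inr ⟨rfl, hu⟩) h

/-- a saturated supergraph -/
theorem exists_sat (R : Finset V) {Δ : ℕ} (hd : ∀ v, dg G v univ ≤ Δ) (hn : NoOv G univ Δ) :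
    ∃ G' : SimpleGraph V, G ≤ G' ∧ (∀ u v, G'.Adj u v → G.Adj u v ∨ (u ∈ R ∧ v ∈ R)) ∧
      (∀ v, dg G' v univ ≤ Δ) ∧ NoOv G' univ Δ ∧
      ∀ x ∈ R, ∀ y ∈ R, x ≠ y → dg G' x univ < Δ → dg G' y univ < Δ → ¬ G'.Adj x y →
        ∃ S : Finset V, x ∈ S ∧ y ∈ S ∧ ∑ v ∈ S, (Δ - dg G' v S) ≤ Δ + 1 := by
  obtain ⟨G', ⟨h1, h2, h3, h4⟩, hm⟩ := Set.Finite.exists_maximal (Set.toFinite
    {G' : SimpleGraph V | G ≤ G' ∧ (∀ u v, G'.Adj u v → G.Adj u v ∨ (u ∈ R ∧ v ∈ R)) ∧
      (∀ v, dg G' v univ ≤ Δ) ∧ NoOv G' univ Δ}) ⟨G, le_rfl, fun _ _ h => Or.inl h, hd, hn⟩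
  refine ⟨G', h1, h2, h3, h4, fun x hx y hy hxy dx dy hna => ?_⟩
  have hno : ¬ NoOv (ad G' x y) univ Δ := fun h => by
    refine hna (hm (y := ad G' x y) ⟨h1.trans le_sup_left, fun u v k => ?_, fun v => ?_, h⟩
      le_sup_left (Or.inr ⟨hxy, Or.inl (mem_singleton_self _)⟩))
    · rcases ad_adj k with k | ⟨rfl, rfl⟩ | ⟨rfl, rfl⟩
      · exact h2 u v k
      · exact Or.inr ⟨hx, hy⟩
      · exact Or.inr ⟨hy, hx⟩
    · have := dg_ad (G := G') hxy v univ
      have := h3 v
      split_ifs at * with k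
      · rcases k with ⟨rfl, -⟩ | ⟨rfl, -⟩ <;> omega
      · omega
  simp only [NoOv, not_forall, not_le] at hno
  obtain ⟨S, -, ho, hS⟩ := hno
  have a1 := h4 S (subset_univ _) ho
  have a2 := sum_le_sum fun v (_ : v ∈ S) => dg_ad (G := G') hxy v S
  rw [sum_add_distrib, ← card_filter] at a2
  have a3 : (S.filter fun v => (v = x ∧ y ∈ S) ∨ (v = y ∧ x ∈ S)).card ≤ 2 :=
    (card_le_card (t := {x, y}) fun v hv => by
      rcases (mem_filter.1 hv).2 with h | h <;> simp [h.1]).trans card_le_two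
  obtain ⟨v, hv⟩ := card_pos.1 (show 0 < (S.filter fun v =>
    (v = x ∧ y ∈ S) ∨ (v = y ∧ x ∈ S)).card by omega)
  have a4 : ∑ v ∈ S, (Δ - dg G' v S) + ∑ v ∈ S, dg G' v S = Δ * S.card := by
    rw [← sum_add_distrib, sum_congr rfl fun v _ =>
      Nat.sub_add_cancel ((dg_le_univ v S).trans (h3 v)), sum_const, smul_eq_mul, mul_comm]
  obtain ⟨b1, ⟨rfl, b2⟩ | ⟨rfl, b2⟩⟩ := mem_filter.1 hv
  · exact ⟨S, b1, b2, by omega⟩
  · exact ⟨S, b2, b1, by omega⟩

section count

variable {Q X R : Finset V} {Δ l : ℕ}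

theorem dg_three (hc : ∀ v, v ∈ Q ∨ v ∈ X ∨ v ∈ R) (v : V) (S : Finset V) :
    dg G v S ≤ dg G v Q + X.card + dg G v (S ∩ R) := by
  have h1 : dg G v S ≤ dg G v (Q ∪ X ∪ S ∩ R) := dg_mono_set v fun u hu => by
    have := hc u
    simp only [mem_union, mem_inter]
    tauto
  have h2 := dg_union_le (G := G) v (Q ∪ X) (S ∩ R)
  have h3 := dg_union_le (G := G) v Q X
  have h4 := dg_le_card (G := G) v X
  omega

theorem caseA (hc : ∀ v, v ∈ Q ∨ v ∈ X ∨ v ∈ R)
    (hX : X.card ≤ 140 * l) (hQ : ∑ v ∈ R, dg G v Q ≤ 14 * (l * Δ)) (h1 : Δ ≤ R.card + 144 * l)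
    (h2 : R.card ≤ Δ + 7 * l) (h3 : R.card ≤ 2 * Δ) (hl : 0 < l)
    (h : ∀ x ∈ R, ∀ y ∈ R, x ≠ y → dg G x univ < Δ → dg G y univ < Δ → G.Adj x y) :
    ∑ v ∈ R, (Δ - dg G v R) ≤ 900 * (l * Δ) := by
  obtain ⟨F, hF⟩ : ∃ F, F = R.filter fun v => Δ ≤ dg G v univ := ⟨_, rfl⟩
  have hFR : F ⊆ R := hF ▸ filter_subset _ _
  have m1 : ∀ (S : Finset V) (c : ℕ), S ⊆ R → S.card * (c * l) ≤ 2 * c * (l * Δ) := fun S c hS =>
    (Nat.mul_le_mul_right _ ((card_le_card hS).trans h3)).trans_eq (by ring)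
  have a1 : ∑ v ∈ F, (Δ - dg G v R) ≤ 294 * (l * Δ) := by
    have := sum_le_sum (s := F) (f := fun v => Δ - dg G v R) (g := fun v => dg G v Q + 140 * l)
      fun v hv => by
        have := dg_three (G := G) hc v univ
        have := (mem_filter.1 (hF ▸ hv)).2
        rw [univ_inter] at *
        omega
    rw [sum_add_distrib, sum_const, smul_eq_mul] at this
    have := m1 F 140 hFR
    have := sum_le_sum_of_subset (f := fun v => dg G v Q) hFR
    omega
  have a2 : ∑ v ∈ R \ F, (nn G v F).card ≤ 308 * (l * Δ) := by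
    rw [sum_nn_comm]
    have := sum_le_sum (s := F) (f := fun v => (nn G v (R \ F)).card)
      (g := fun v => (Δ - dg G v R) + 7 * l) fun v hv => by
        have := dg_add_nn (G := G) v R
        have : (nn G v (R \ F)).card ≤ (nn G v R).card :=
          card_le_card fun u hu => mem_nn.2 ⟨(mem_sdiff.1 (mem_nn.1 hu).1).1, (mem_nn.1 hu).2⟩
        omega
    rw [sum_add_distrib, sum_const, smul_eq_mul] at this
    have := m1 F 7 hFR
    omega
  have a3 : ∑ v ∈ R \ F, (Δ - dg G v R) ≤ 598 * (l * Δ) := by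
    have := sum_le_sum (s := R \ F) (f := fun v => Δ - dg G v R)
      (g := fun v => (nn G v F).card + 145 * l) fun v hv => by
        have := dg_add_nn (G := G) v R
        have : (nn G v R).card ≤ (nn G v F).card + 1 := by
          refine (card_le_card (t := insert v (nn G v F)) fun u hu => ?_).trans (card_insert_le _ _)
          obtain ⟨u1, u2⟩ := mem_nn.1 hu
          obtain ⟨v1, v2⟩ := mem_sdiff.1 hv
          by_contra hc
          simp only [mem_insert, mem_nn, not_or, not_and, not_not, hF, mem_filter, not_le] at hc v2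
          refine u2 (h v v1 u u1 (Ne.symm hc.1) (v2 v1) ?_)
          by_contra k
          exact u2 (hc.2 ⟨u1, not_lt.1 k⟩)
        omega
    rw [sum_add_distrib, sum_const, smul_eq_mul] at this
    have := m1 (R \ F) 145 sdiff_subset
    omega
  rw [← sum_sdiff hFR]
  omega

theorem caseB (hc : ∀ v, v ∈ Q ∨ v ∈ X ∨ v ∈ R) (hX : X.card ≤ 140 * l)
    (hQ : ∑ v ∈ R, dg G v Q ≤ 14 * (l * Δ)) (hQ' : ∀ v ∈ R, 10 * dg G v Q < Δ)
    (h2 : R.card ≤ Δ + 7 * l) (h3 : R.card ≤ 2 * Δ) (hl : 0 < l) (hΔ : 2800 * l ≤ Δ)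
    {x y : V} {S : Finset V} (hx : x ∈ R) (hy : y ∈ R) (hxy : x ≠ y) (hxS : x ∈ S) (hyS : y ∈ S)
    (h : ∑ v ∈ S, (Δ - dg G v S) ≤ Δ + 1) : ∑ v ∈ R, (Δ - dg G v R) ≤ 900 * (l * Δ) := by
  have a1 : Δ < 4 * (S ∩ R).card := by
    have b1 := sum_le_sum_of_subset (f := fun v => Δ - dg G v S)
      (show {x, y} ⊆ S by simp [insert_subset_iff, hxS, hyS])
    rw [sum_pair hxy] at b1
    have b2 := dg_three (G := G) hc x S
    have b3 := dg_three (G := G) hc y S
    have b4 := dg_le_card (G := G) x (S ∩ R)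
    have b5 := dg_le_card (G := G) y (S ∩ R)
    have b6 := hQ' x hx
    have b7 := hQ' y hy
    omega
  have a2 : ∑ v ∈ S ∩ R, (Δ - dg G v (S ∩ R)) ≤ (S ∩ R).card * (204 * l) := by
    have := sum_le_sum (s := S ∩ R) (f := fun v => Δ - dg G v (S ∩ R))
      (g := fun v => (Δ - dg G v S) + dg G v Q + 140 * l) fun v _ => by
        have := dg_three (G := G) hc v S
        omega
    rw [sum_add_distrib, sum_add_distrib, sum_const, smul_eq_mul] at this
    have b1 := sum_le_sum_of_subset (f := fun v => Δ - dg G v S) (inter_subset_left (s₁ := S) (s₂ := R))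
    have b2 := sum_le_sum_of_subset (f := fun v => dg G v Q) (inter_subset_right (s₁ := S) (s₂ := R))
    have b3 : Δ ≤ l * Δ := Nat.le_mul_of_pos_left _ hl
    have b4 : l * Δ ≤ l * (4 * (S ∩ R).card) := Nat.mul_le_mul_left _ a1.le
    nlinarith
  have a3 : Δ ≤ (S ∩ R).card + 204 * l := by
    have := card_nsmul_le_sum (S ∩ R) (fun v => Δ - dg G v (S ∩ R)) (Δ - (S ∩ R).card)
      fun v _ => Nat.sub_le_sub_left (dg_le_card v _) _
    have := Nat.le_of_mul_le_mul_left (this.trans a2) (by omega)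
    omega
  have a4 : ∑ v ∈ R \ (S ∩ R), (Δ - dg G v R) ≤ 211 * (l * Δ) := by
    refine (sum_le_card_nsmul _ _ Δ fun v _ => Nat.sub_le _ _).trans ?_
    rw [card_sdiff_of_subset inter_subset_right, smul_eq_mul, ← mul_assoc]
    exact Nat.mul_le_mul_right _ (by omega)
  have a5 : ∑ v ∈ S ∩ R, (Δ - dg G v R) ≤ ∑ v ∈ S ∩ R, (Δ - dg G v (S ∩ R)) :=
    sum_le_sum fun v _ => Nat.sub_le_sub_left (dg_mono_set v inter_subset_right) _
  have a6 : (S ∩ R).card * (204 * l) ≤ 408 * (l * Δ) :=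
    (Nat.mul_le_mul_right _ ((card_le_card inter_subset_right).trans h3)).trans_eq (by ring)
  rw [← sum_sdiff (inter_subset_right (s₁ := S))]
  omega

end count

theorem two_of {Q T : Finset V} {Δ g : ℕ} (hd : ∀ v, dg G v univ ≤ Δ) (hQT : Disjoint Q T)
    (hQ : Q.Nonempty) (hT : T.Nonempty) (h1 : ∀ v ∈ Q, Δ < dg G v Q + g)
    (h2 : ∀ v ∈ T, Δ < dg G v T + g) (hX : 10 * (univ \ (Q ∪ T)).card ≤ g) (hg : 2 * g ≤ Δ) :
    ∃ T1 T2, Two G univ T1 T2 Δ g := by
  obtain ⟨T1, e1⟩ : ∃ T1, T1 = univ.filter fun v => Δ < dg G v Q + g := ⟨_, rfl⟩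
  obtain ⟨T2, e2⟩ : ∃ T2, T2 = univ.filter fun v => Δ < dg G v T + g := ⟨_, rfl⟩
  have m1 : ∀ v, v ∈ T1 ↔ Δ < dg G v Q + g := by simp [e1]
  have m2 : ∀ v, v ∈ T2 ↔ Δ < dg G v T + g := by simp [e2]
  have s1 : Q ⊆ T1 := fun v hv => (m1 v).2 (h1 v hv)
  have s2 : T ⊆ T2 := fun v hv => (m2 v).2 (h2 v hv)
  have dj : Disjoint T1 T2 := disjoint_left.2 fun v a b => by
    have := dg_union (G := G) v hQT
    have := dg_le_univ (G := G) v (Q ∪ T)
    have := hd v
    rw [m1] at a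
    rw [m2] at b
    omega
  refine ⟨T1, T2, subset_univ _, subset_univ _, dj, hQ.mono s1, hT.mono s2,
    (Nat.mul_le_mul_left _ (card_le_card
      (sdiff_subset_sdiff subset_rfl (union_subset_union s1 s2)))).trans hX,
    fun v hv => ?_, fun v hv => ?_, fun z hz => ?_, fun z hz => ?_⟩
  · have := dg_mono_set (G := G) v s1
    have := (m1 v).1 hv
    omega
  · have := dg_mono_set (G := G) v s2
    have := (m2 v).1 hv
    omega
  · have a := dg_le_add_sdiff (G := G) z T1 Q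
    have b : (T1 \ Q).card ≤ (univ \ (Q ∪ T)).card := card_le_card fun v hv => by
      obtain ⟨v1, v2⟩ := mem_sdiff.1 hv
      simp only [mem_sdiff, mem_univ, mem_union, true_and, not_or]
      exact ⟨v2, fun k => disjoint_left.1 dj v1 (s2 k)⟩
    simp only [mem_sdiff, mem_univ, mem_union, true_and, not_or, m1] at hz
    omega
  · have a := dg_le_add_sdiff (G := G) z T2 T
    have b : (T2 \ T).card ≤ (univ \ (Q ∪ T)).card := card_le_card fun v hv => by
      obtain ⟨v1, v2⟩ := mem_sdiff.1 hv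
      simp only [mem_sdiff, mem_univ, mem_union, true_and, not_or]
      exact ⟨fun k => disjoint_left.1 dj (s1 k) v1, v2⟩
    simp only [mem_sdiff, mem_univ, mem_union, true_and, not_or, m2] at hz
    omega

end Stb

open Stb in
theorem stb : StbStmt := by
  refine ⟨1000000, fun V _ _ G Q Δ l g hd hc hne hQ hQc hN hl c1 c2 => ?_⟩
  have hN' : Fintype.card V < 2 * Δ := by simpa using hc.card
  obtain ⟨q, hq⟩ := hne
  have hN0 : 0 < Fintype.card V := Fintype.card_pos_iff.2 ⟨q⟩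
  have g0 : 0 < g := by
    refine Nat.pos_of_ne_zero fun h => ?_
    have := Nat.mul_pos (Nat.mul_pos (by norm_num : 0 < 1000000) hl) hN0
    rw [h] at c1
    omega
  have c3 : 1000000 * l ≤ g := by
    refine Nat.le_of_mul_le_mul_right ?_ g0
    calc 1000000 * l * g ≤ 1000000 * l * Fintype.card V := Nat.mul_le_mul_left _ (by omega)
      _ ≤ g * g := by rw [← sq]; exact c1
  have c4 : 1000000 * (l * Δ) ≤ g ^ 2 :=
    le_trans (by rw [← mul_assoc]; exact Nat.mul_le_mul_left _ (by omega)) c1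
  have q1 : ∑ v ∈ Qᶜ, dg G v Q ≤ 14 * (l * Δ) := by
    rw [sum_dg_comm]
    refine (sum_le_card_nsmul _ _ (7 * l) fun v hv => ?_).trans ?_
    · have := dg_add_compl (G := G) v Q
      have := hd v
      have := hQ v hv
      omega
    · exact (Nat.mul_le_mul_right _ (show Q.card ≤ 2 * Δ by omega)).trans_eq (by ring)
  obtain ⟨X, hX⟩ : ∃ X, X = Qᶜ.filter fun y => Δ ≤ 10 * dg G y Q := ⟨_, rfl⟩
  obtain ⟨R, hR⟩ : ∃ R, R = Qᶜ.filter fun y => ¬ Δ ≤ 10 * dg G y Q := ⟨_, rfl⟩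
  have sR : R ⊆ Qᶜ := hR ▸ filter_subset _ _
  have x1 : X.card ≤ 140 * l := by
    have a := card_nsmul_le_sum X (fun y => 10 * dg G y Q) Δ fun y hy => by
      rw [hX] at hy; exact (mem_filter.1 hy).2
    have b := sum_le_sum_of_subset (f := fun y => dg G y Q) (show X ⊆ Qᶜ from hX ▸ filter_subset _ _)
    rw [← mul_sum, smul_eq_mul] at a
    refine Nat.le_of_mul_le_mul_right (c := Δ) ?_ (by omega)
    rw [mul_assoc]
    omega
  have x2 : X.card + R.card + Q.card = Fintype.card V := by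
    rw [hX, hR, card_filter_add_card_filter_not, card_compl]
    have := card_le_univ Q
    omega
  have x3 : Δ ≤ Q.card + 7 * l := by
    have := dg_le_card (G := G) q Q
    have := hQ q hq
    omega
  have cov : ∀ v, v ∈ Q ∨ v ∈ X ∨ v ∈ R := fun v => by
    simp only [hX, hR, mem_filter, mem_compl]
    tauto
  obtain ⟨G', g1, g2, g3, g4, g5⟩ := exists_sat R hd hc.nov
  have eQ : ∀ v, dg G' v Q = dg G v Q := fun v => (dg_le_of fun u hu k => ⟨hu, (g2 v u k).elim id
    fun h => absurd hu (mem_compl.1 (sR h.2))⟩).antisymm (dg_mono g1 v Q)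
  have q2 : ∑ v ∈ R, dg G' v Q ≤ 14 * (l * Δ) := by
    simp only [eQ]
    exact (sum_le_sum_of_subset sR).trans q1
  have hD : ∑ v ∈ R, (Δ - dg G' v R) ≤ 900 * (l * Δ) := by
    by_cases h : ∀ x ∈ R, ∀ y ∈ R, x ≠ y → dg G' x univ < Δ → dg G' y univ < Δ → G'.Adj x y
    · exact caseA cov x1 q2 (by omega) (by omega) (by omega) hl h
    · push Not at h
      obtain ⟨x, hx, y, hy, hxy, dx, dy, hn⟩ := h
      obtain ⟨S, s1, s2, s3⟩ := g5 x hx y hy hxy dx dy hn
      exact caseB cov x1 q2 (fun v hv => by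
        rw [eQ]; rw [hR] at hv; exact not_le.1 (mem_filter.1 hv).2) (by omega) (by omega) hl (by omega)
        hx hy hxy s1 s2 s3
  obtain ⟨T, hT⟩ : ∃ T, T = R.filter fun v => Δ ≤ dg G' v R + g / 20 := ⟨_, rfl⟩
  have sT : T ⊆ R := hT ▸ filter_subset _ _
  have t1 : (R \ T).card ≤ g / 20 := by
    have a := card_nsmul_le_sum (R \ T) (fun v => Δ - dg G' v R) (g / 20 + 1) fun v hv => by
      obtain ⟨v1, v2⟩ := mem_sdiff.1 hv
      simp only [hT, mem_filter, not_and, not_le] at v2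
      have := v2 v1
      omega
    have b := sum_le_sum_of_subset (f := fun v => Δ - dg G' v R) (sdiff_subset (s := R) (t := T))
    have c : g ^ 2 ≤ (20 * (g / 20 + 1)) ^ 2 := Nat.pow_le_pow_left (by omega) 2
    rw [smul_eq_mul] at a
    by_contra hc
    have d := Nat.mul_le_mul_right (g / 20 + 1) (show g / 20 + 1 ≤ (R \ T).card by omega)
    have e : 0 < (g / 20 + 1) * (g / 20 + 1) := by positivity
    have f : (20 * (g / 20 + 1)) ^ 2 = 400 * ((g / 20 + 1) * (g / 20 + 1)) := by ring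
    omega
  have t2 := card_sdiff_add_card_eq_card sT
  refine ⟨G', ?_⟩
  obtain ⟨T1, T2, h⟩ := two_of (Q := Q) (T := T) (g := g) g3
    (disjoint_left.2 fun v a b => mem_compl.1 (sR (sT b)) a) ⟨q, hq⟩ (card_pos.1 (by omega))
    (fun v hv => by
      have := hQ v hv
      rw [eQ]
      omega)
    (fun v hv => by
      have := (mem_filter.1 (hT ▸ hv)).2
      have := dg_le_add_sdiff (G := G') v R T
      omega)
    (by
      rw [card_sdiff_of_subset (subset_univ _), card_univ, card_union_of_disjoint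
        (disjoint_left.2 fun v a b => mem_compl.1 (sR (sT b)) a)]
      omega) (by omega)
  exact ⟨T1, T2, g1, g3, ⟨g4, hc.card⟩, h⟩

end Pool.Agent.MP_5c8b6d_co

end

section

/-! The choice of the parameters and the case distinction. -/

namespace Pool.Agent.MP_5c8b6d_co

open Finset

namespace Ovf

theorem lin {C t u a b : ℕ} (ht : C ≤ t) (h1 : 1 ≤ t) (h : a + 1 ≤ b) :
    C * (t ^ a * u) ≤ t ^ b * u := by
  calc C * (t ^ a * u) ≤ t * (t ^ a * u) := Nat.mul_le_mul_right _ ht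
    _ = t ^ (a + 1) * u := by ring
    _ ≤ _ := Nat.mul_le_mul_right _ (Nat.pow_le_pow_right h1 h)

theorem sq {C t u N a b : ℕ} (ht : C ≤ t) (h1 : 1 ≤ t) (hN : N ≤ t ^ 97 * u)
    (h : a + 98 ≤ 2 * b) : C * (t ^ a * u) * N ≤ (t ^ b * u) ^ 2 := by
  calc C * (t ^ a * u) * N ≤ t * (t ^ a * u) * (t ^ 97 * u) :=
        Nat.mul_le_mul (Nat.mul_le_mul_right _ ht) hN
    _ = t ^ (a + 98) * u ^ 2 := by ring
    _ ≤ t ^ (2 * b) * u ^ 2 := Nat.mul_le_mul_right _ (Nat.pow_le_pow_right h1 h)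
    _ = _ := by ring

theorem sq_le_two_pow {u : ℕ} (h : 4 ≤ u) : u * u ≤ 2 ^ u := by
  induction u, h using Nat.le_induction with
  | base => norm_num
  | succ n hn ih => rw [pow_succ]; nlinarith

theorem big {C T u N : ℕ} (hT : 1 ≤ T) (hN : N ≤ T * u) (h0 : 0 < N)
    (hu : 384 * C * T ^ 5 + 1 ≤ u) : Big C N u := by
  have hu0 : 0 < u := by omega
  constructor
  · have h1 : C * T ^ 2 ≤ u := by
      have : C * T ^ 2 ≤ C * T ^ 5 := Nat.mul_le_mul_left _ (Nat.pow_le_pow_right hT (by norm_num))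
      have : 384 * C * T ^ 5 = 384 * (C * T ^ 5) := by ring
      omega
    calc C * N ^ 2 ≤ C * (T * u) ^ 2 := Nat.mul_le_mul_left _ (Nat.pow_le_pow_left hN _)
      _ = C * T ^ 2 * u ^ 2 := by ring
      _ ≤ u * u ^ 2 := Nat.mul_le_mul_right _ h1
      _ = _ := by ring
  · have hT' : (1 : ℝ) ≤ T := by exact_mod_cast hT
    have hN' : (N : ℝ) ≤ T * u := by exact_mod_cast hN
    have h0' : (0 : ℝ) < N := by exact_mod_cast h0
    have hu' : (384 * C * T ^ 5 : ℝ) < u := by exact_mod_cast (show 384 * C * T ^ 5 < u by omega)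
    have hu0' : (0 : ℝ) < u := by exact_mod_cast hu0
    have h1 : (u : ℝ) / (4 * T) ≤ u ^ 2 / (4 * N) := by
      rw [div_le_div_iff₀ (by positivity) (by positivity)]
      nlinarith [mul_le_mul_of_nonneg_left hN' hu0'.le]
    have h2 := Real.pow_div_factorial_le_exp (x := (u : ℝ) / (4 * T)) (by positivity) 3
    refine lt_of_lt_of_le ?_ (h2.trans (Real.exp_le_exp.2 h1))
    have h3 : (C : ℝ) * N ^ 2 ≤ C * (T * u) ^ 2 := by gcongr
    refine h3.trans_lt ?_
    rw [div_pow, div_div, lt_div_iff₀ (by positivity)]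
    have : (C : ℝ) * (T * u) ^ 2 * ((4 * T) ^ 3 * (Nat.factorial 3 : ℕ)) =
        384 * C * T ^ 5 * u ^ 2 := by norm_num [Nat.factorial]; ring
    rw [this, pow_succ' (u : ℝ) 2]
    exact mul_lt_mul_of_pos_right hu' (by positivity)

/-- the hierarchy of all parameters -/
structure Hier (C N η L θ L' e l g L'' : ℕ) : Prop where
  p1 : Par C N η L θ
  b1 : Big C N η
  c1 : C * θ ≤ e
  c2 : C * e ≤ N
  p2 : Par C N (2 * θ) L' e
  b2 : Big C N (2 * θ)
  c3 : e ≤ l
  c4 : 0 < l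
  c5 : e * N ≤ l ^ 2
  c6 : 60 * l ≤ g
  c7 : 10 * g ≤ N
  c8 : C * l * N ≤ g ^ 2
  c9 : C * g ≤ N
  p3 : Par C N g L'' N
  b3 : Big C N g
  c10 : 0 < θ
  c11 : θ ≤ e

theorem hier (C : ℕ) : ∃ N0, ∀ N, N0 ≤ N → ∃ η L θ L' e l g L'', Hier C N η L θ L' e l g L'' := by
  obtain ⟨t, ht, ht'⟩ : ∃ t, 2 * C ≤ t ∧ 60 ≤ t := ⟨2 * C + 60, by omega, by omega⟩
  have h1 : 1 ≤ t := by omega
  have hC : C ≤ t := by omega
  refine ⟨t ^ 96 * (384 * C * (t ^ 97) ^ 5 + t ^ 97 + 4), fun N hN => ?_⟩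
  have hp : 0 < t ^ 96 := by positivity
  have hp' : 1 ≤ t ^ 97 := Nat.one_le_pow _ _ h1
  obtain ⟨u, hu⟩ : ∃ u, u = N / t ^ 96 := ⟨_, rfl⟩
  have h2 : 384 * C * (t ^ 97) ^ 5 + t ^ 97 + 4 ≤ u := by
    rw [hu, Nat.le_div_iff_mul_le hp, mul_comm]; exact hN
  have h3 : t ^ 96 * u ≤ N := hu ▸ Nat.mul_div_le _ _
  have h4 : N ≤ t ^ 97 * u := by
    have := Nat.lt_mul_div_succ N hp
    rw [← hu] at this
    calc N ≤ t ^ 96 * (u + 1) := this.le
      _ ≤ t ^ 96 * (t * u) := Nat.mul_le_mul_left _ (by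
          have := Nat.mul_le_mul_right u ht'; omega)
      _ = _ := by ring
  have hu0 : 0 < u := by omega
  have hN0 : 0 < N := lt_of_lt_of_le (Nat.mul_pos hp hu0) h3
  have h5 : N ≤ 2 ^ u :=
    h4.trans ((Nat.mul_le_mul_right _ (by omega)).trans (sq_le_two_pow (by omega)))
  have h6 : Big C N u := big hp' h4 hN0 (by omega)
  have h7 : ∀ a, u ≤ t ^ a * u := fun a => Nat.le_mul_of_pos_left _ (by positivity)
  have h8 : ∀ x, u ≤ x → N ≤ 2 ^ x := fun x hx => h5.trans (Nat.pow_le_pow_right two_pos hx)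
  have h9 : ∀ a b, a ≤ b → t ^ a * u ≤ t ^ b * u := fun a b h =>
    Nat.mul_le_mul_right _ (Nat.pow_le_pow_right h1 h)
  have h10 := h7 50
  refine ⟨t ^ 0 * u, t ^ 49 * u, t ^ 50 * u, t ^ 74 * u, t ^ 75 * u, t ^ 86 * u, t ^ 92 * u,
    t ^ 95 * u, ⟨hu0.trans_le (h7 _), lin hC h1 (by norm_num), sq hC h1 h4 (by norm_num),
      lin hC h1 (by norm_num), h8 _ (h7 _)⟩, h6.mono le_rfl (h7 _), lin hC h1 (by norm_num),
    (lin hC h1 (by norm_num)).trans h3, ⟨by omega, ?_, ?_, lin hC h1 (by norm_num),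
      h8 _ (by omega)⟩, h6.mono le_rfl (by omega), h9 _ _ (by norm_num), hu0.trans_le (h7 _), ?_,
    lin ht' h1 (by norm_num), (lin (by omega) h1 (by norm_num)).trans h3,
    sq hC h1 h4 (by norm_num), (lin hC h1 (by norm_num)).trans h3,
    ⟨hu0.trans_le (h7 _), lin hC h1 (by norm_num), sq hC h1 h4 (by norm_num),
      (lin hC h1 (by norm_num)).trans h3, h8 _ (h7 _)⟩, h6.mono le_rfl (h7 _),
    hu0.trans_le (h7 _), h9 _ _ (by norm_num)⟩
  · rw [← mul_assoc, mul_comm C]; exact lin ht h1 (by norm_num)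
  · rw [← mul_assoc C, mul_comm C]; exact sq ht h1 h4 (by norm_num)
  · exact (Nat.mul_le_mul_left _ h4).trans_eq (by ring)

variable {V : Type} [Fintype V] [DecidableEq V] {G : SimpleGraph V}

/-- in a critical graph with few vertices of type `W` every vertex has few neighbours of low
degree -/
theorem few_low {T : Finset V} {Δ θ : ℕ} (hθ : 0 < θ) (hd : ∀ v, dg G v univ ≤ Δ)
    (hT : ∀ v, v ∈ T ↔ Δ < dg G v univ + θ)
    (hv : ∀ x y, G.Adj x y →
      Δ + 1 ≤ dg G y univ + dg G x (univ.filter (fun z => z ≠ y ∧ dg G z univ = Δ)))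
    (hW : (Tᶜ.filter (fun y => θ ≤ dg G y T)).card < θ) (x : V) : dg G x Tᶜ < θ := by
  have h1 : ∀ x y, G.Adj x y → Δ + 1 ≤ dg G y univ + dg G x T := fun x y h =>
    (hv x y h).trans (Nat.add_le_add_left (dg_mono_set _ fun z hz =>
      (hT z).2 (by have := (mem_filter.1 hz).2.2; omega)) _)
  by_cases h : ∃ y, G.Adj x y ∧ dg G y T < θ ∧ y ∉ T
  · obtain ⟨y, a, b, -⟩ := h
    have h2 : dg G y Tᶜ = 0 := dg_eq_zero.2 fun u hu k =>
      mem_compl.1 hu ((hT u).2 (by have := h1 y u k; omega))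
    have h3 := dg_add_compl (G := G) y T
    have h4 := dg_add_compl (G := G) x T
    have h5 := h1 x y a
    have h6 := hd x
    omega
  · refine lt_of_le_of_lt (card_le_card fun y hy => ?_) hW
    obtain ⟨a, b⟩ := mem_nb.1 hy
    exact mem_filter.2 ⟨a, not_lt.1 fun k => h ⟨y, b, k, mem_compl.1 a⟩⟩

end Ovf

open Ovf in
theorem ovf_of (hV : ValStmt) (hZ : VizStmt) (hD : DenseStmt) (hS : SparseStmt) (hT : TwoStmt)
    (hB : BipcStmt) (hP : PadStmt) (hA : StaStmt) (hQ : StbStmt) : OvfStmt := by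
  obtain ⟨C1, hD⟩ := hD
  obtain ⟨C2, hS⟩ := hS
  obtain ⟨C3, hT⟩ := hT
  obtain ⟨C4, hB⟩ := hB
  obtain ⟨C5, hQ⟩ := hQ
  obtain ⟨C, k1, k2, k3, k4, k5⟩ : ∃ C, C1 ≤ C ∧ C2 ≤ C ∧ C3 ≤ C ∧ C4 ≤ C ∧ C5 ≤ C :=
    ⟨C1 + C2 + C3 + C4 + C5, by omega, by omega, by omega, by omega, by omega⟩
  obtain ⟨N0, hN0⟩ := hier C
  refine ⟨N0, fun V _ _ G Δ hN => ?_⟩
  obtain ⟨η, L, θ, L', e, l, g, L'', H⟩ := hN0 _ hN
  have m : ∀ {c x y : ℕ}, c ≤ C → C * x ≤ y → c * x ≤ y := fun a b =>
    (Nat.mul_le_mul_right _ a).trans b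
  induction G using WellFoundedLT.induction with
  | ind G ih =>
  intro hd hc
  have hcard : Fintype.card V < 2 * Δ := by simpa using hc.card
  by_contra hG
  have hv : ∀ x y, G.Adj x y →
      Δ + 1 ≤ dg G y univ + dg G x (univ.filter (fun z => z ≠ y ∧ dg G z univ = Δ)) := by
    intro x y h
    have hle := G.deleteEdges_le {s(x, y)}
    refine hV V G Δ x y hd h hG (ih _ (lt_of_le_of_ne hle fun k => ?_)
      (fun v => (dg_mono hle v _).trans (hd v)) ⟨hc.nov.mono hle, hc.card⟩)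
    rw [← k] at h; simp at h
  obtain ⟨T, hT'⟩ : ∃ T : Finset V, ∀ v, v ∈ T ↔ Δ < dg G v univ + θ :=
    ⟨univ.filter (fun v => Δ < dg G v univ + θ), by simp⟩
  rcases T.eq_empty_or_nonempty with rfl | hne
  · obtain ⟨M, a, b⟩ := hZ V (Fin Δ) G fun v => by
      have := (hT' v).not.1 (notMem_empty v)
      have := H.c10
      simp only [Fintype.card_fin]; omega
    exact hG ⟨M, a, b⟩
  by_cases hne' : NE G univ T e
  · by_cases hW : θ ≤ (Tᶜ.filter (fun y => θ ≤ dg G y T)).card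
    · exact hG (hD V G T Δ θ η L e hd hcard hT' hne' hW (H.p1.mono k1 le_rfl le_rfl)
        (H.b1.mono k1 le_rfl) (m k1 H.c1) (m k1 H.c2))
    · have h1 := few_low H.c10 hd hT' hv (not_le.1 hW)
      obtain ⟨V', _, _, G', φ, a, b, c, d, -, -⟩ := hP V G Δ hd hc
      refine hG (c (hS V' G' _ _ Δ (2 * θ) L' e a b (d T _ e ⟨subset_univ _, hne, fun v h => ?_,
        fun y _ _ => ?_, hne'⟩) ?_ ?_ ?_))
      · have := (hT' v).1 h
        have := h1 v
        have := dg_add_compl (G := G) v T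
        omega
      · have := h1 y
        rw [← compl_eq_univ_sdiff]; omega
      · simpa using H.p2.mono k2 le_rfl le_rfl
      · simpa using H.b2.mono k2 le_rfl
      · simpa using m k2 H.c2
  rcases hA V G T Δ e l g hd hcard (fun v h => by have := (hT' v).1 h; have := H.c11; omega) hne'
    H.c3 H.c4 H.c5 H.c6 H.c7 with ⟨A, B, h⟩ | ⟨Q, h1, h2, h3, h4⟩
  · obtain ⟨V', _, _, G', φ, a, b, c, -, -, d⟩ := hP V G Δ hd hc
    refine hG (c (hB V' G' _ _ _ Δ g L'' a b (d A B g h) ?_ ?_))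
    · simpa using H.p3.mono k4 le_rfl le_rfl
    · simpa using H.b3.mono k4 le_rfl
  · obtain ⟨G1, T1, T2, h5, h6, h7, h8⟩ := hQ V G Q Δ l g hd hc h1 h2 h3 h4 H.c4
      ((Nat.mul_le_mul_right _ (Nat.mul_le_mul_right _ k5)).trans H.c8) (m k5 H.c9)
    obtain ⟨V', _, _, G', φ, a, b, c, -, d, -⟩ := hP V G1 Δ h6 h7
    refine hG (Col.mono (c (hT V' G' _ _ _ Δ g L'' a b (d T1 T2 g h8) ?_ ?_)) h5)
    · simpa using H.p3.mono k3 le_rfl le_rfl
    · simpa using H.b3.mono k3 le_rfl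

end Pool.Agent.MP_5c8b6d_co

end

section

/-! Translation between colourings by involutions and colourings of the line graph, and between
the two forms of the overfull condition. -/

namespace Pool.Agent.MP_5c8b6d_co

open Finset

variable {V : Type} [Fintype V] [DecidableEq V] {G : SimpleGraph V}

theorem dg_eq_degree [DecidableRel G.Adj] (v : V) : dg G v univ = G.degree v := by
  rw [← SimpleGraph.card_neighborFinset_eq_degree, dg]
  congr 1; ext u; simp

theorem colorable_of_col {k : ℕ} (h : Col G k) : G.lineGraph.Colorable k := by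
  obtain ⟨M, hM, hf⟩ := h
  have key : ∀ e : G.edgeSet, ∃ i, ∀ v ∈ (e : Sym2 V), (e : Sym2 V) = s(v, M i v) := by
    rintro ⟨e, he⟩
    induction e using Sym2.ind with
    | _ a b =>
      obtain ⟨i, hi⟩ := hf a b he
      refine ⟨i, fun v hv => ?_⟩
      rcases Sym2.mem_iff.1 hv with rfl | rfl
      · simp [hi]
      · have : M i v = a := by rw [← hi, hM.inv]
        simp [this]
  choose c hc using key
  refine ⟨SimpleGraph.Coloring.mk c fun {e e'} h k => ?_⟩
  obtain ⟨hne, v, h1, h2⟩ := SimpleGraph.lineGraph_adj_iff_exists.1 h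
  exact hne (Subtype.ext (by rw [hc e v h1, hc e' v h2, k]))

theorem col_of_colorable {k : ℕ} (h : G.lineGraph.Colorable k) : Col G k := by
  classical
  obtain ⟨c⟩ := h
  have huniq : ∀ (i : Fin k) v u u' (h : G.Adj v u) (h' : G.Adj v u'), c ⟨s(v, u), h⟩ = i →
      c ⟨s(v, u'), h'⟩ = i → u = u' := by
    intro i v u u' h h' a b
    by_contra k
    refine c.valid (SimpleGraph.lineGraph_adj_iff_exists.2 ⟨fun l => k ?_, v, by simp, by simp⟩)
      (a.trans b.symm)
    exact Sym2.congr_right.1 (congrArg Subtype.val l)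
  let M : Fin k → V → V := fun i v =>
    if h : ∃ u, ∃ h : G.Adj v u, c ⟨s(v, u), h⟩ = i then h.choose else v
  have h1 : ∀ i v u (h : G.Adj v u), c ⟨s(v, u), h⟩ = i → M i v = u := fun i v u h a => by
    have he : ∃ u, ∃ h : G.Adj v u, c ⟨s(v, u), h⟩ = i := ⟨u, h, a⟩
    obtain ⟨b, d⟩ := he.choose_spec
    simp only [M, dif_pos he]
    exact huniq i v _ _ b h d a
  have h2 : ∀ i v, M i v ≠ v → ∃ h : G.Adj v (M i v), c ⟨s(v, M i v), h⟩ = i := fun i v a => by
    by_cases he : ∃ u, ∃ h : G.Adj v u, c ⟨s(v, u), h⟩ = i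
    · obtain ⟨u, b, d⟩ := he
      simp only [h1 i v u b d]; exact ⟨b, d⟩
    · exact absurd (dif_neg he) a
  refine ⟨M, ⟨fun i v => ?_, fun i v a => (h2 i v a).1, fun i j v a b => ?_⟩,
    fun u v a => ⟨_, h1 _ u v a rfl⟩⟩
  · by_cases a : M i v = v
    · rw [a, a]
    · obtain ⟨b, d⟩ := h2 i v a
      exact h1 i _ v b.symm ((congrArg c (Subtype.ext Sym2.eq_swap)).trans d)
  · obtain ⟨_, d⟩ := h2 i v a
    obtain ⟨_, d'⟩ := h2 j v (b ▸ a)
    exact d.symm.trans ((congrArg c (Subtype.ext (by simp [b]))).trans d')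

/-- a colourable graph has no overfull set -/
theorem noOv_of_col {k : ℕ} (h : Col G k) : NoOv G univ k := by
  obtain ⟨M, hM, hf⟩ := h
  intro S _ ho
  have h1 : ∀ i, (S.filter (fun v => M i v ≠ v ∧ M i v ∈ S)).card + 1 ≤ S.card := fun i => by
    have he : Even (S.filter (fun v => M i v ≠ v ∧ M i v ∈ S)).card :=
      even_card_of_inv (fun v _ => hM.inv i v) fun v hv => by
        obtain ⟨a, b, c⟩ := mem_filter.1 hv
        exact ⟨mem_filter.2 ⟨c, inv_ne (hM.inv i) b, by rwa [hM.inv]⟩, b⟩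
    have := card_filter_le S (fun v => M i v ≠ v ∧ M i v ∈ S)
    obtain ⟨a, ha⟩ := he
    obtain ⟨b, hb⟩ := ho
    omega
  have h2 := sum_le_sum (s := univ) fun i _ => h1 i
  have h3 : ∑ v ∈ S, dg G v S = ∑ i, (S.filter (fun v => M i v ≠ v ∧ M i v ∈ S)).card := by
    conv_lhs => rw [← hM.cg_eq hf]
    simp only [hM.dg_cg', card_filter]; exact sum_comm
  simpa [sum_add_distrib, ← h3] using h2

theorem two_mul_ncard (S : Finset V) :
    2 * ({e ∈ G.edgeSet | ∀ v ∈ S, v ∉ e}).ncard = ∑ v ∈ Sᶜ, dg G v Sᶜ := by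
  classical
  have h1 : {e ∈ G.edgeSet | ∀ v ∈ S, v ∉ e} = (sub G (fun u _ => u ∉ S)).edgeSet := by
    ext e
    induction e using Sym2.ind with
    | _ a b =>
      simp only [Set.mem_ofPred_eq, SimpleGraph.mem_edgeSet, sub_adj, Sym2.mem_iff, not_or]
      exact and_congr_right fun _ => ⟨fun h => ⟨fun k => (h a k).1 rfl, fun k => (h b k).2 rfl⟩,
        fun h v hv => ⟨fun k => h.1 (k ▸ hv), fun k => h.2 (k ▸ hv)⟩⟩
  rw [h1, Set.ncard_eq_toFinset_card', ← SimpleGraph.edgeFinset,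
    ← SimpleGraph.sum_degrees_eq_twice_card_edges]
  simp only [← dg_eq_degree]
  rw [← sum_subset (f := fun v => dg (sub G (fun u _ => u ∉ S)) v univ) (subset_univ Sᶜ)
    (fun v _ hv => dg_eq_zero.2 fun u _ k => hv (mem_compl.2 k.2.1))]
  exact sum_congr rfl fun v hv => dg_congr fun u => by simp [mem_compl.1 hv, and_comm]

theorem choose_odd (a : ℕ) : (2 * a + 1).choose 2 = (2 * a + 1) * a := by
  rw [Nat.choose_two_right, Nat.add_sub_cancel, mul_left_comm, Nat.mul_div_cancel_left _ two_pos]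

theorem noOv_iff (n r : ℕ) (hr : r ≤ n) (G : SimpleGraph (Fin (2 * n + 1))) :
    ¬ NoOv G univ (2 * n + 1 - r) ↔ ∃ s : ℕ, 2 * s + 1 ≤ r ∧
      ∃ S : Finset (Fin (2 * n + 1)), S.card = 2 * s ∧
        ((({e ∈ G.edgeSet | ∀ v ∈ S, v ∉ e}).ncard : ℤ) >
          (((2 * n + 1 - 2 * s).choose 2 : ℕ) : ℤ) - ((r : ℤ) - 2 * s) * ((n : ℤ) - s)) := by
  obtain ⟨Δ, hΔ⟩ : ∃ Δ, 2 * n + 1 = Δ + r := ⟨2 * n + 1 - r, by omega⟩
  have hΔ' : 2 * n + 1 - r = Δ := by omega
  have key : ∀ s a, n = s + a → (((2 * n + 1 - 2 * s).choose 2 : ℕ) : ℤ) -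
      ((r : ℤ) - 2 * s) * ((n : ℤ) - s) = Δ * a := fun s a h => by
    rw [show 2 * n + 1 - 2 * s = 2 * a + 1 by omega, choose_odd]
    have h1 : (n : ℤ) = s + a := by exact_mod_cast h
    have h2 : (r : ℤ) = 2 * n + 1 - Δ := by omega
    rw [h2, h1]; push_cast; ring
  rw [hΔ']
  constructor
  · intro h
    simp only [NoOv, not_forall, not_le] at h
    obtain ⟨S, -, ⟨a, ha⟩, h⟩ := h
    have h1 : S.card ≤ 2 * n + 1 := by simpa using card_le_univ S
    have h2 : Δ < S.card := by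
      by_contra k
      have h3 : ∑ v ∈ S, dg G v S ≤ ∑ _v ∈ S, 2 * a :=
        sum_le_sum fun v hv => by have := dg_lt_card (G := G) hv; omega
      rw [sum_const, smul_eq_mul] at h3
      have := Nat.mul_le_mul_right (2 * a) (not_lt.1 k)
      rw [ha] at h; rw [mul_add] at h; omega
    refine ⟨n - a, by omega, Sᶜ, by simp [card_compl]; omega, ?_⟩
    rw [key (n - a) a (by omega)]
    have h4 := two_mul_ncard (G := G) Sᶜ
    rw [compl_compl] at h4
    rw [ha, ← h4] at h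
    have : Δ * (2 * a + 1) = 2 * (Δ * a) + Δ := by ring
    have h5 : Δ * a < ({e ∈ G.edgeSet | ∀ v ∈ Sᶜ, v ∉ e}).ncard := by omega
    exact_mod_cast h5
  · rintro ⟨s, hs, S, hS, h⟩ hn
    obtain ⟨a, ha⟩ : ∃ a, n = s + a := ⟨n - s, by omega⟩
    rw [key s a ha] at h
    have h1 : Sᶜ.card = 2 * a + 1 := by simp [card_compl]; omega
    have h2 := hn Sᶜ (subset_univ _) ⟨a, h1⟩
    rw [h1, ← two_mul_ncard] at h2
    have : Δ * (2 * a + 1) = 2 * (Δ * a) + Δ := by ring
    have h5 : Δ * a < ({e ∈ G.edgeSet | ∀ v ∈ S, v ∉ e}).ncard := by exact_mod_cast h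
    omega

theorem class_two_iff (hV : VizStmt) [DecidableRel G.Adj] :
    G.lineGraph.chromaticNumber = ((G.maxDegree + 1 : ℕ) : ℕ∞) ↔ ¬ Col G G.maxDegree := by
  obtain ⟨M, h1, h2⟩ := hV V (Fin (G.maxDegree + 1)) G fun v => by
    simpa [dg_eq_degree, Nat.lt_succ_iff] using G.degree_le_maxDegree v
  have h3 := (colorable_of_col ⟨M, h1, h2⟩).chromaticNumber_le
  constructor
  · intro h k
    have := (colorable_of_col k).chromaticNumber_le
    rw [h] at this
    exact absurd (by exact_mod_cast this) (Nat.not_succ_le_self G.maxDegree)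
  · intro h
    refine le_antisymm h3 ?_
    by_contra k
    refine h (col_of_colorable (SimpleGraph.chromaticNumber_le_iff_colorable.1 ?_))
    rw [Nat.cast_add_one] at k
    exact Order.le_of_lt_add_one (not_le.1 k)

theorem main_of (hV : VizStmt) (hO : OvfStmt) : ∃ n0 : ℕ, ∀ (n r : ℕ), n0 ≤ n → 1 ≤ r → r ≤ n →
    ∀ (G : SimpleGraph (Fin (2 * n + 1))) [DecidableRel G.Adj], G.maxDegree = 2 * n + 1 - r →
      (G.lineGraph.chromaticNumber = ((G.maxDegree + 1 : ℕ) : ℕ∞) ↔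
        ∃ s : ℕ, 2 * s + 1 ≤ r ∧
          ∃ S : Finset (Fin (2 * n + 1)), S.card = 2 * s ∧
            ((({e ∈ G.edgeSet | ∀ v ∈ S, v ∉ e}).ncard : ℤ) >
              (((2 * n + 1 - 2 * s).choose 2 : ℕ) : ℤ) - ((r : ℤ) - 2 * s) * ((n : ℤ) - s))) := by
  obtain ⟨N0, h⟩ := hO
  refine ⟨N0, fun n r hn _ hr G _ hΔ => ?_⟩
  rw [class_two_iff hV, ← noOv_iff n r hr, hΔ]
  refine not_congr ⟨noOv_of_col, fun k => h _ G _ (by simp; omega) (fun v => ?_)
    ⟨k, by simp; omega⟩⟩
  rw [dg_eq_degree, ← hΔ]; exact G.degree_le_maxDegree v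

end Pool.Agent.MP_5c8b6d_co

end

end MrgPart1

-- marker of a merged file
example : 731051 + 256655 = 731051 + 256655 := rfl
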