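import Mathlib.Data.Int.Star
import Mathlib.Tactic.Algebra.Basic
import Pool.Agent.MP_5c8b6d_co.Core

section

/-! Alternating paths and the repair process in the dense case. -/

namespace Pool.Agent.MP_5c8b6d_co

open Finset

namespace OrdA

set_option linter.unusedSectionVars false

variable {V : Type} [Fintype V] [DecidableEq V]

/-- the conclusion with at most `n` vertices -/
def Goal (Rl : V → V → Prop) (μ : V → V) (T Bad : Finset V) (x : V) (n : ℕ) : Prop :=
  ∃ (μ' : V → V) (W : Finset V), Rep Rl μ μ' W ∧ W.card ≤ n ∧ x ∈ W ∧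
    (∀ v ∈ W, v ∈ T → μ' v ≠ v) ∧ ∀ v ∈ W, v ∉ Bad ∨ v = x

/-- an alternating path from `x` with at most `n` vertices -/
structure Sa (Rl : V → V → Prop) (μ : V → V) (Bad : Finset V) (x : V) (W : Finset V)
    (ν : V → V) (f : V) (n : ℕ) : Prop where
  alt : Alt Rl μ W ν f
  mem : x ∈ W
  good : ∀ v ∈ W, v ∉ Bad ∨ v = x
  card : W.card ≤ n

variable {Rl : V → V → Prop} {μ ν : V → V} {T Bad W : Finset V} {x f b : V} {n : ℕ}

theorem Goal.mono {m : ℕ} (h : Goal Rl μ T Bad x n) (k : n ≤ m) : Goal Rl μ T Bad x m := by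
  obtain ⟨μ', W, h1, h2, h3⟩ := h
  exact ⟨μ', W, h1, h2.trans k, h3⟩

theorem Sa.mono {m : ℕ} (h : Sa Rl μ Bad x W ν f n) (k : n ≤ m) : Sa Rl μ Bad x W ν f m :=
  ⟨h.alt, h.mem, h.good, h.card.trans k⟩

theorem Sa.step (A : Sa Rl μ Bad x W ν f n) (h : ∀ v, μ (μ v) = v)
    (hs : ∀ u v, Rl u v → Rl v u) (hB : ∀ v, v ∉ Bad → μ v ∉ Bad) (hr : Rl f b) (hb : b ∉ W)
    (hb' : b ∉ Bad) (hm : μ b ≠ b) :
    Sa Rl μ Bad x (insert b (insert (μ b) W)) (sw ν f b) (μ b) (n + 2) := by
  refine ⟨A.alt.step h hs hr hb hm, by simp [A.mem], fun v hv => ?_, ?_⟩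
  · simp only [mem_insert] at hv
    rcases hv with rfl | rfl | hv
    · exact Or.inl hb'
    · exact Or.inl (hB _ hb')
    · exact A.good v hv
  · have h1 := card_insert_le b (insert (μ b) W)
    have h2 := card_insert_le (μ b) W
    have h3 := A.card
    omega

theorem Sa.exit (A : Sa Rl μ Bad x W ν f n) (h : ∀ v, μ (μ v) = v)
    (hs : ∀ u v, Rl u v → Rl v u) (hB : ∀ v, v ∉ Bad → μ v ∉ Bad) (hr : Rl f b) (hb : b ∉ W)
    (hb' : b ∉ Bad) (hm : ¬ (μ b ≠ b ∧ μ b ∈ T)) : Goal Rl μ T Bad x (n + 2) := by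
  by_cases k : μ b = b
  · obtain ⟨h1, h2⟩ := A.alt.close h hs hr hb k
    refine ⟨_, _, h1, ?_, by simp [A.mem], fun v hv _ => h2 v hv, fun v hv => ?_⟩
    · have h1 := card_insert_le b W
      have h3 := A.card
      omega
    · rcases mem_insert.1 hv with rfl | hv
      · exact Or.inl hb'
      · exact A.good v hv
  · have B := A.step h hs hB hr hb hb' k
    obtain ⟨h1, h2⟩ := B.alt.stop
    exact ⟨_, _, h1, B.card, B.mem, fun v hv hT => h2 v hv fun c => hm ⟨k, c ▸ hT⟩, B.good⟩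

/-- a vertex at which every path can be finished -/
theorem target {G' : SimpleGraph V} {a β w : ℕ} (h : ∀ v, μ (μ v) = v) (hR : Res G' Rl a)
    (hβ : Bad.card ≤ β) (hB : ∀ v, v ∉ Bad → μ v ∉ Bad)
    (hw : w ≤ (Tᶜ.filter (fun y => w ≤ dg G' y T)).card) (hw' : a + β + 2 ≤ w) (hx : x ∈ T)
    (hx' : μ x = x) :
    ∃ t ∈ T, ∃ Tl : Finset V, Tl.card ≤ 4 ∧ x ∉ Tl ∧ (∀ v, v ∉ Tl → μ v ∉ Tl) ∧
      ∀ W ν f n, Sa Rl μ Bad x W ν f n → (∀ v ∈ W, v ∉ Tl) → Rl f t →
        Goal Rl μ T Bad x (n + 4) := by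
  have hne : ∀ v, v ≠ x → μ v ≠ x := fun v hv k => hv (by rw [← h v, k, hx'])
  have hcl : ∀ t y v : V, v ∉ ({t, μ t, y, μ y} : Finset V) →
      μ v ∉ ({t, μ t, y, μ y} : Finset V) := by
    intro t y v hv k
    apply hv
    simp only [mem_insert, mem_singleton] at k ⊢
    rcases k with k | k | k | k
    · exact Or.inr (Or.inl (by rw [← k, h]))
    · exact Or.inl (inv_inj h k)
    · exact Or.inr (Or.inr (Or.inr (by rw [← k, h])))
    · exact Or.inr (Or.inr (Or.inl (inv_inj h k)))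
  have hxl : ∀ t y : V, t ≠ x → y ≠ x → x ∉ ({t, μ t, y, μ y} : Finset V) := by
    intro t y h1 h2 k
    simp only [mem_insert, mem_singleton] at k
    rcases k with k | k | k | k
    · exact h1 k.symm
    · exact hne t h1 k.symm
    · exact h2 k.symm
    · exact hne y h2 k.symm
  obtain ⟨y, hy, hyB⟩ : ∃ y ∈ Tᶜ.filter (fun y => w ≤ dg G' y T), y ∉ Bad :=
    exists_mem_notMem_of_card_lt_card (by omega)
  obtain ⟨hyT, hyd⟩ := mem_filter.1 hy
  rw [mem_compl] at hyT
  have hyx : y ≠ x := fun k => hyT (k ▸ hx)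
  by_cases c1 : μ y ≠ y ∧ μ y ∈ T
  · refine ⟨μ y, c1.2, {μ y, μ (μ y), y, μ y}, card_le_four, hxl _ _ (hne y hyx) hyx, hcl _ _,
      fun W ν f n A hW hr => ?_⟩
    refine (A.exit h hR.symm hB hr (fun k => hW _ k (by simp)) (hB _ hyB) ?_).mono (by omega)
    rw [h]; exact fun k => hyT k.2
  have h1 := hR.dg_le y T (insert x Bad)
  have h2 := card_insert_le x Bad
  obtain ⟨t0, ht0⟩ : (gn Rl y T (insert x Bad)).Nonempty := card_pos.1 (by omega)
  obtain ⟨h3, h4, h5⟩ := mem_gn.1 ht0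
  simp only [mem_insert, not_or] at h4
  by_cases c2 : μ t0 ≠ t0 ∧ μ t0 ∈ T
  · refine ⟨μ t0, c2.2, {μ t0, μ (μ t0), y, μ y}, card_le_four, hxl _ _ (hne t0 h4.1) hyx,
      hcl _ _, fun W ν f n A hW hr => ?_⟩
    have B := A.step h hR.symm hB hr (fun k => hW _ k (by simp)) (hB _ h4.2) (inv_ne h c2.1)
    rw [h] at B
    refine B.exit h hR.symm hB (hR.symm _ _ h5) ?_ hyB c1
    simp only [mem_insert, not_or]
    exact ⟨fun k => hyT (k ▸ c2.2), fun k => hyT (k ▸ h3), fun k => hW _ k (by simp)⟩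
  · refine ⟨t0, h3, {t0, μ t0, y, μ y}, card_le_four, hxl _ _ h4.1 hyx, hcl _ _,
      fun W ν f n A hW hr => ?_⟩
    exact (A.exit h hR.symm hB hr (fun k => hW _ k (by simp)) h4.2 c2).mono (by omega)

theorem avoid {Tl : Finset V} (hcl : ∀ v, v ∉ Tl → μ v ∉ Tl) (hW : ∀ v ∈ W, v ∉ Tl)
    (hb : b ∉ Tl) : ∀ v ∈ insert b (insert (μ b) W), v ∉ Tl := by
  intro v hv
  simp only [mem_insert] at hv
  rcases hv with rfl | rfl | hv
  · exact hb
  · exact hcl _ hb
  · exact hW v hv

theorem card3 (A B C : Finset V) : (A ∪ B ∪ C).card ≤ A.card + B.card + C.card :=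
  (card_union_le _ _).trans (Nat.add_le_add_right (card_union_le _ _) _)

theorem bool_ne {p q : Bool} (h : p ≠ q) : q = !p := by cases p <;> cases q <;> simp_all

end OrdA

open OrdA in
theorem ord : OrdStmt := by
  intro V _ _ G' σ T μ Rl Bad a β w w' e x hG h hR hβ hB hd hM hw hw1 hw2 hx hx'
  have hB1 : ∀ v, v ∉ Bad → μ v ∉ Bad := fun v hv => (hB v hv).1
  obtain ⟨t, htT, Tl, hTl, hxl, hcl, hfin⟩ := target h hR hβ hB1 hw hw1 hx hx'
  have hside : ∀ u v, Rl u v → σ v = !σ u := fun u v k => bool_ne (hG _ _ (hR.adj _ _ k))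
  show Goal Rl μ T Bad x 12
  have A0 : Sa Rl μ Bad x {x} μ x 1 := ⟨Alt.start Rl h hx', by simp, by simp, by simp⟩
  have hW0 : ∀ v ∈ ({x} : Finset V), v ∉ Tl := by simpa using hxl
  -- a free vertex on the side opposite to the target
  have key : Goal Rl μ T Bad x 12 ∨ ∃ W ν f, Sa Rl μ Bad x W ν f 3 ∧ (∀ v ∈ W, v ∉ Tl) ∧
      f ∈ T ∧ σ t = !σ f := by
    by_cases c : σ t = !σ x
    · exact Or.inr ⟨_, _, _, A0.mono (by omega), hW0, hx, c⟩
    have h1 := hR.dg_le x univ (Bad ∪ {x} ∪ Tl)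
    have h2 := card3 Bad {x} Tl
    have h3 := hd x hx
    have h4 := (hM (!σ x)).lt_card
    rw [card_singleton] at h2
    obtain ⟨b, hb⟩ : (gn Rl x univ (Bad ∪ {x} ∪ Tl)).Nonempty := card_pos.1 (by omega)
    obtain ⟨-, h5, h6⟩ := mem_gn.1 hb
    simp only [mem_union, not_or] at h5
    by_cases c2 : μ b ≠ b ∧ μ b ∈ T
    · refine Or.inr ⟨_, _, _, A0.step h hR.symm hB1 h6 h5.1.2 h5.1.1 c2.1,
        avoid hcl hW0 h5.2, c2.2, ?_⟩
      rw [(hB b h5.1.1).2, hside _ _ h6]
      revert c; cases σ t <;> cases σ x <;> simp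
    · exact Or.inl ((A0.exit h hR.symm hB1 h6 h5.1.2 h5.1.1 c2).mono (by omega))
  rcases key with key | ⟨W, ν, f, A, hW, hf, hσ⟩
  · exact key
  by_cases c : ∃ b ∈ gn Rl f univ (Bad ∪ W ∪ Tl), ¬ (μ b ≠ b ∧ μ b ∈ T)
  · obtain ⟨b, hb, c⟩ := c
    obtain ⟨-, h5, h6⟩ := mem_gn.1 hb
    simp only [mem_union, not_or] at h5
    exact (A.exit h hR.symm hB1 h6 h5.1.2 h5.1.1 c).mono (by omega)
  push Not at c
  have h1 := hR.dg_le f univ (Bad ∪ W ∪ Tl)
  have h1' := hR.dg_le t univ (Bad ∪ W ∪ Tl)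
  have h2 := card3 Bad W Tl
  have h3 := hd f hf
  have h3' := hd t htT
  have h4 := A.card
  rw [← hσ] at h3
  obtain ⟨p, hp, hpd⟩ := hM (σ t) ((gn Rl f univ (Bad ∪ W ∪ Tl)).image μ)
    ((gn Rl t univ (Bad ∪ W ∪ Tl)).image μ)
    (fun v hv => by
      obtain ⟨b, hb, rfl⟩ := mem_image.1 hv
      obtain ⟨-, h5, h6⟩ := mem_gn.1 hb
      simp only [mem_union, not_or] at h5
      exact mem_cls.2 ⟨mem_univ _, by rw [(hB b h5.1.1).2, hside _ _ h6, hσ]⟩)
    (fun v hv => by
      obtain ⟨b, hb, rfl⟩ := mem_image.1 hv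
      exact (c b hb).2)
    (fun v hv => by
      obtain ⟨b, hb, rfl⟩ := mem_image.1 hv
      obtain ⟨-, h5, h6⟩ := mem_gn.1 hb
      simp only [mem_union, not_or] at h5
      exact mem_cls.2 ⟨mem_univ _, by rw [(hB b h5.1.1).2, hside _ _ h6]⟩)
    (by rw [card_image_inv h]; omega) (by rw [card_image_inv h]; omega)
  obtain ⟨b, hb, rfl⟩ := mem_image.1 hp
  obtain ⟨-, h5, h6⟩ := mem_gn.1 hb
  simp only [mem_union, not_or] at h5
  have B := A.step h hR.symm hB1 h6 h5.1.2 h5.1.1 (c b hb).1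
  have hW1 := avoid hcl hW h5.2
  have h7 := hR.dg_le (μ b) ((gn Rl t univ (Bad ∪ W ∪ Tl)).image μ) (insert b (insert (μ b) W))
  have h8 := B.card
  obtain ⟨y, hy⟩ : (gn Rl (μ b) ((gn Rl t univ (Bad ∪ W ∪ Tl)).image μ)
      (insert b (insert (μ b) W))).Nonempty := card_pos.1 (by omega)
  obtain ⟨h9, h10, h11⟩ := mem_gn.1 hy
  obtain ⟨-, h12, h13⟩ := mem_gn.1 ((mem_image_inv h).1 h9)
  simp only [mem_union, not_or] at h12
  have hyB : y ∉ Bad := h y ▸ hB1 _ h12.1.1
  have hyl : y ∉ Tl := h y ▸ hcl _ h12.2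
  by_cases c2 : μ y ≠ y ∧ μ y ∈ T
  · exact (hfin _ _ _ _ (B.step h hR.symm hB1 h11 h10 hyB c2.1) (avoid hcl hW1 hyl)
      (hR.symm _ _ h13)).mono (by omega)
  · exact (B.exit h hR.symm hB1 h11 h10 hyB c2).mono (by omega)

theorem dfix_of (hV : VizStmt) (hE : EqStmt) (hI : IterStmt) (hO : OrdStmt) : DfixStmt := by
  refine ⟨100, ?_⟩
  intro V ι _ _ _ _ G σ T T1 η L w w' e hT h1 h2 h3 h4 h5 h6 hP he
  have hin : ∀ v, dg (sub G (fun u v => σ u = σ v)) v univ = dg G v (cls univ σ (σ v)) :=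
    fun v => dg_congr fun u => by
      simp only [mem_univ, true_and, sub_adj, mem_cls]
      exact ⟨fun k => ⟨k.2.2, k.1⟩, fun k => ⟨k.2, k.1.symm, k.1⟩⟩
  have hcr : ∀ v S, dg (sub G (fun u v => σ u ≠ σ v)) v S = dg G v (cls S σ (!σ v)) :=
    fun v S => dg_congr fun u => by
      simp only [sub_adj, mem_cls]
      refine ⟨fun k => ⟨⟨k.1, OrdA.bool_ne k.2.2.1⟩, k.2.1⟩, fun k => ⟨k.1.1, k.2, ?_, ?_⟩⟩ <;>
        rw [k.1.2] <;> cases σ v <;> simp
  obtain ⟨M1, p1, f1⟩ := hV V ι (sub G (fun u v => σ u = σ v)) fun v => by rw [hin]; exact h1 v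
  obtain ⟨M0, p0, f0, hbal⟩ := hE V ι _ M1 T1 p1 f1
  have hcg := p0.cg_eq f0
  have hσ0 : ∀ i v, σ (M0 i v) = σ v := fun i v => by
    by_cases k : M0 i v = v
    · rw [k]
    · exact (p0.adj i v k).2.2
  have hη := hP.pos
  have hL := hP.h1
  have hL2 := hP.h2
  have hw := hP.h3
  have htot : ∑ i, (fx (M0 i) T1).card ≤ η * Fintype.card V := by
    have a1 := p0.sum_fx T1
    rw [hcg] at a1
    have a2 : ∑ _v ∈ T1, Fintype.card ι ≤
        ∑ v ∈ T1, (dg (sub G (fun u v => σ u = σ v)) v univ + η) :=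
      sum_le_sum fun v hv => by rw [hin]; exact h2 v hv
    rw [sum_add_distrib, sum_const, sum_const, smul_eq_mul, smul_eq_mul, mul_comm] at a2
    have a3 : T1.card * η ≤ η * Fintype.card V := by
      rw [mul_comm]; exact Nat.mul_le_mul_left _ (card_le_univ _)
    omega
  have hc : ∀ i, (fx (M0 i) T1).card ≤ 5 * η + 2 := fun i => by
    have a1 := card_mul_le_of_bal (f := fun i => (fx (M0 i) T1).card) hbal i
    have a2 : 0 < Fintype.card ι := Fintype.card_pos_iff.2 ⟨i⟩
    have a3 := Nat.mul_le_mul_left η h3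
    refine Nat.le_of_mul_le_mul_left ?_ a2
    nlinarith
  obtain ⟨M, S, hs, hm⟩ := hI V ι G (sub G (fun u v => σ u ≠ σ v)) M0 (fun _ => univ)
    (fun _ => T) (fun _ => T1) 12 L η (5 * η + 2) (η * Fintype.card V) (sub_le _)
    (p0.mono (sub_le _)) (fun _ _ _ => mem_univ _) (fun _ => hT)
    (fun v => by
      by_cases k : v ∈ T1
      · have a1 := p0.dg_add_miss v
        rw [hcg, hin] at a1
        have a2 := h2 v k
        simp only [k, true_and]
        omega
      · simp [k]) hc htot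
    (fun M S Over hOv i x hx hx' => by
      have hOL : Over.card ≤ L := by
        refine Nat.le_of_mul_le_mul_left (hOv.trans ?_) (show 0 < L by omega)
        nlinarith
      have hR : Res (sub G (fun u v => σ u ≠ σ v)) (Av (sub G (fun u v => σ u ≠ σ v)) M)
          (L + η) := by
        refine ⟨fun u v k => ⟨k.1.symm, fun j c => k.2 j (by rw [← c, S.pc.inv])⟩,
          fun u v k => k.1, fun v => le_trans ?_ (S.cv v)⟩
        refine le_trans (card_le_card ?_) (card_image_le (f := fun j => M j v))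
        intro u hu
        simp only [mem_filter, mem_univ, true_and] at hu
        obtain ⟨a1, a2⟩ := hu
        have a3 : ∃ j, M j v = u := by
          by_contra c
          exact a2 ⟨a1, fun j k => c ⟨j, k⟩⟩
        obtain ⟨j, rfl⟩ := a3
        refine mem_image.2 ⟨j, mem_filter.2 ⟨mem_univ _, fun k => a1.2.1 ?_⟩, rfl⟩
        rw [k, hσ0]
      have a1 := OrdA.card3 (chc M0 M i) Over (Over.image (M i))
      rw [card_image_inv (S.pc.inv i)] at a1
      have a2 := S.cc i
      obtain ⟨μ', W, b1, b2, b3, b4, b5⟩ := hO V (sub G (fun u v => σ u ≠ σ v)) σ T (M i) _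
        (chc M0 M i ∪ Over ∪ Over.image (M i)) (L + η) (12 * (5 * η + 2) + 2 * L) w w' e x
        (fun u v k => k.2.1) (S.pc.inv i) hR (by omega)
        (fun v hv => by
          simp only [mem_union, not_or, mem_image_inv (S.pc.inv i), chc, mem_filter, mem_univ,
            true_and, not_not, S.pc.inv] at hv ⊢
          refine ⟨⟨⟨?_, hv.2⟩, hv.1.2⟩, by rw [hv.1.1, hσ0]⟩
          rw [hv.1.1, p0.inv])
        (fun v hv => by rw [hcr]; exact h4 v hv)
        (fun b => (h5 b).congr fun u a _ v c k => by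
          have c1 := (mem_cls.1 a).2
          have c2 := (mem_cls.1 c).2
          have c3 : σ u ≠ σ v := by rw [c1, c2]; cases b <;> simp
          exact ⟨k, c3, c3.symm⟩)
        (by simpa only [hcr] using h6) (by omega) (by omega) (hT hx) hx'
      refine ⟨μ', W, b1, b2, b3, subset_univ _, b4, fun v hv k => ?_⟩
      rcases b5 v hv with c | rfl
      · exact absurd (mem_union_left _ (mem_union_right _ k)) c
      · exact ⟨hx, hx'⟩)
  refine ⟨M0, M, p0.mono (sub_le _), hσ0, fun u v a c => f0 u v ⟨a, c, c.symm⟩, S.pc,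
    fun v => (S.cv v).trans (by omega), by rw [mul_assoc]; exact hs,
    fun i v hv k => ⟨S.keep i v hv k, fun c => hm i v c k⟩⟩

end Pool.Agent.MP_5c8b6d_co

end

section

/-! The rows FIX and MIX. -/

namespace Pool.Agent.MP_5c8b6d_co

open Finset

set_option linter.unusedSectionVars false

namespace Fix

theorem pow_bound {N η : ℕ} (h : N ≤ 2 ^ η) : N * 3 ^ η < 2 ^ (3 * η + 1) := by
  have h1 : 3 ^ η ≤ 4 ^ η := Nat.pow_le_pow_left (by norm_num) η
  have h2 : 2 ^ (3 * η + 1) = 2 * (2 ^ η * 4 ^ η) := by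
    rw [pow_succ, pow_mul, ← mul_pow]; norm_num; ring
  have h3 : 0 < 2 ^ η * 4 ^ η := by positivity
  have h4 := Nat.mul_le_mul h h1
  omega

variable {V : Type} [Fintype V] [DecidableEq V] {G : SimpleGraph V}

theorem cls_nn {κ : Type} [DecidableEq κ] (x : V) (S : Finset V) (f : V → κ) (q : κ) :
    cls (nn G x S) f q = nn G x (cls S f q) := by
  ext v; simp only [mem_cls, mem_nn]; tauto

theorem dg_nn_le (x x0 : V) {Q Y : Finset V} (hY : Y ⊆ Q) :
    dg G x (nn G x0 Q) + dg G x0 Q + Y.card ≤ dg G x Y + dg G x0 Y + Q.card := by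
  have h1 := dg_le_add_sdiff (G := G) x (nn G x0 Q) Y
  have h2 : nn G x0 Q \ Y = nn G x0 (Q \ Y) := by
    ext v; simp only [mem_sdiff, mem_nn]; tauto
  have h3 := dg_add_nn (G := G) x0 (Q \ Y)
  have h4 := dg_sdiff_add (G := G) x0 hY
  have h5 := card_sdiff_add_card_eq_card hY
  rw [h2] at h1
  omega

theorem dg_nn_split (x x0 : V) {Ω R : Finset V} (h : Ω ⊆ R) :
    dg G x (nn G x0 R) + dg G x Ω ≤ dg G x (nn G x0 Ω) + dg G x R := by
  have h1 : dg G x (nn G x0 R) ≤ dg G x (nn G x0 Ω ∪ (R \ Ω)) :=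
    dg_mono_set x fun v hv => by
      simp only [mem_union, mem_nn, mem_sdiff] at hv ⊢
      tauto
  have h2 := dg_union_le (G := G) x (nn G x0 Ω) (R \ Ω)
  have h3 := dg_sdiff_add (G := G) x h
  omega

end Fix

open _root_.Pool.Agent.MP_5c8b6d_co.Fix in
theorem mix : MixStmt := by
  intro V _ _ G R Ω T Δ ζ e hT hΩ hd1 hd2 hR hne
  classical
  refine ⟨insert Ω ((T.image fun v => nb G v Ω) ∪
    ((T ×ˢ T).image fun p => nb G p.1 (nn G p.2 Ω)) ∪ T.image fun x => tw G R T e x), ?_, ?_, ?_⟩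
  · refine (card_insert_le _ _).trans ?_
    have h1 := card_union_le ((T.image fun v => nb G v Ω) ∪
      ((T ×ˢ T).image fun p => nb G p.1 (nn G p.2 Ω))) (T.image fun x => tw G R T e x)
    have h2 := card_union_le (T.image fun v => nb G v Ω)
      ((T ×ˢ T).image fun p => nb G p.1 (nn G p.2 Ω))
    have h3 : (T.image fun v => nb G v Ω).card ≤ T.card := card_image_le
    have h4 : ((T ×ˢ T).image fun p => nb G p.1 (nn G p.2 Ω)).card ≤ T.card * T.card :=
      card_image_le.trans (card_product _ _).le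
    have h5 : (T.image fun x => tw G R T e x).card ≤ T.card := card_image_le
    linarith
  · intro F hF
    simp only [mem_insert, mem_union, mem_image] at hF
    rcases hF with rfl | (⟨v, _, rfl⟩ | ⟨p, _, rfl⟩) | ⟨x, _, rfl⟩
    · exact Subset.refl _
    · exact nb_subset _ _
    · exact (nb_subset _ _).trans fun v hv => (mem_nn.1 hv).1
    · exact (filter_subset _ _).trans hT
  intro κ _ _ f η e' hE he hlt p q X Y hXP hXT hYQ hX hY
  by_contra hcon
  have hlow : ∀ x ∈ X, dg G x Y < e' := fun x hx => by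
    by_contra h
    exact hcon ⟨x, hx, not_lt.1 h⟩
  have eΩ := hE Ω (mem_insert_self _ _)
  have eN : ∀ v ∈ T, Evn f η (nb G v Ω) := fun v hv =>
    hE _ (mem_insert_of_mem (mem_union_left _ (mem_union_left _ (mem_image_of_mem _ hv))))
  have eNN : ∀ x ∈ T, ∀ x0 ∈ T, Evn f η (nb G x (nn G x0 Ω)) := fun x hx x0 hx0 =>
    hE _ (mem_insert_of_mem (mem_union_left _ (mem_union_right _
      (mem_image.2 ⟨(x, x0), mem_product.2 ⟨hx, hx0⟩, rfl⟩))))
  have eT : ∀ x ∈ T, Evn f η (tw G R T e x) := fun x hx =>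
    hE _ (mem_insert_of_mem (mem_union_right _ (mem_image_of_mem _ hx)))
  set r := Fintype.card κ with hr
  set P := cls Ω f p with hP
  set Q := cls Ω f q with hQ
  have hP1 : Ω.card ≤ r * P.card + r * η := by rw [← mul_add]; exact (eΩ p).1
  have hQ2 : r * Q.card ≤ Ω.card + r * η := (eΩ q).2
  have hX' : r * P.card ≤ 2 * (r * X.card) + r * e' := by
    have := Nat.mul_le_mul_left r hX
    linarith
  have hY' : r * Q.card ≤ 2 * (r * Y.card) + r * e' := by
    have := Nat.mul_le_mul_left r hY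
    linarith
  rw [mul_add] at hlt
  have he2 : 2 * ζ + 6 * (r * η) + 6 * (r * e') ≤ e := by linarith
  have hXne : X.Nonempty := by
    rw [nonempty_iff_ne_empty]
    rintro rfl
    simp only [card_empty, mul_zero] at hX'
    omega
  obtain ⟨x0, hx0⟩ := hXne
  have hx0T := hXT hx0
  have hΩR := card_le_card hΩ
  have a1 : dg G x0 Ω ≤ r * dg G x0 Q + r * η := by
    rw [← mul_add]; exact ((eN x0 hx0T).dg q).1
  have a2 := hd2 x0 hx0T
  have a3 : dg G x0 Q + Y.card ≤ e' + Q.card := by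
    have h1 := dg_le_add_sdiff (G := G) x0 Q Y
    have h2 := card_sdiff_add_card_eq_card hYQ
    have h3 := hlow x0 hx0
    omega
  have a4 : r * dg G x0 Q + r * Y.card ≤ r * e' + r * Q.card := by
    rw [← mul_add, ← mul_add]; exact Nat.mul_le_mul_left r a3
  have a5 : 2 * Δ ≤ Ω.card + 2 * ζ + 3 * (r * η) + 3 * (r * e') := by omega
  have b1 := hne x0 hx0T (by have := hd1 x0 hx0T; omega)
  have b2 : X ⊆ cls (tw G R T e x0) f p := by
    intro x hx
    refine mem_cls.2 ⟨mem_filter.2 ⟨hXT hx, ?_⟩, (mem_cls.1 (hXP hx)).2⟩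
    have c1 := dg_nn_split (G := G) x x0 hΩ
    have c2 := hd1 x (hXT hx)
    have c3 := hd2 x (hXT hx)
    have c4 : dg G x (nn G x0 Ω) ≤ r * dg G x (nn G x0 Q) + r * η := by
      rw [← mul_add, hQ, ← cls_nn]; exact ((eNN x (hXT hx) x0 hx0T).dg q).1
    have c5 : dg G x (nn G x0 Q) + dg G x0 Q + Y.card ≤ 2 * e' + Q.card := by
      have h1 := dg_nn_le (G := G) x x0 hYQ
      have h2 := hlow x hx
      have h3 := hlow x0 hx0
      omega
    have c6 : r * dg G x (nn G x0 Q) + r * dg G x0 Q + r * Y.card ≤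
        2 * (r * e') + r * Q.card := by
      have := Nat.mul_le_mul_left r c5
      linarith
    omega
  have b3 : r * X.card ≤ (tw G R T e x0).card + r * η :=
    (Nat.mul_le_mul_left r (card_le_card b2)).trans (eT x0 hx0T p).2
  omega

open _root_.Pool.Agent.MP_5c8b6d_co.Fix in
theorem fix_of (hV : VizStmt) (hE : EqStmt) (hP : PermStmt) (hF : FixaStmt) (hO : OrmStmt) :
    FixStmt := by
  refine ⟨200, ?_⟩
  intro V ι _ _ _ _ G G1 σ T Y η L e hG1 hin hlt hge hsum hN hne hcr hmix hY hld hev hpar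
  obtain ⟨M1, hM1, hf1⟩ := hV V ι G1 hlt
  obtain ⟨M2, hM2, hf2, hbal⟩ := hE V ι G1 M1 T hM1 hf1
  obtain ⟨v0, hv0⟩ := hne
  have hη := hpar.pos
  have hL := hpar.h1
  have hLL := hpar.h2
  have he := hpar.h3
  have hk0 : 0 < Fintype.card ι := lt_of_le_of_lt (Nat.zero_le _) (hlt v0)
  have hcg := hM2.cg_eq hf2
  have htot : ∑ i, (fx (M2 i) T).card ≤ η * T.card := by
    have := hM2.sum_fx T
    rw [hcg] at this
    omega
  have hc : ∀ i, (fx (M2 i) T).card ≤ 5 * η + 2 := fun i => by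
    have h1 := card_mul_le_of_bal hbal i
    have h2 : η * T.card ≤ η * (5 * Fintype.card ι) := Nat.mul_le_mul_left _ hN
    refine Nat.le_of_mul_le_mul_left ?_ hk0
    linarith
  have heT : e < T.card :=
    lt_of_lt_of_le (hmix true).lt_card (card_le_card (cls_subset _ _ _))
  have hk : Fintype.card ι ≤ 2 * T.card := by
    have h1 := hge v0 hv0
    have h2 : dg G1 v0 univ ≤ dg G1 v0 T :=
      dg_le_of fun u _ h => ⟨(hin u v0 h.symm).1, h⟩
    have h3 := dg_le_card (G := G1) v0 T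
    omega
  have hηk : η * Fintype.card ι ≤ 2 * (η * T.card) := by
    have := Nat.mul_le_mul_left η hk
    linarith
  obtain ⟨π, hπ⟩ := hP V ι T (fun v i => univ.filter fun j => M2 i v ≠ v ∧ M2 i v ∈ Y j) η
    (3 * η + 1) (fun v i => le_trans (card_le_card fun j hj => by
      simp only [mem_filter, mem_univ, true_and] at hj ⊢
      exact hj.2) (hld (M2 i v))) (pow_bound hpar.h4)
  have hM0 : PC G1 (fun j => M2 (π.symm j)) := hM2.comp π.symm.injective
  have hf0 : Full G1 (fun j => M2 (π.symm j)) := by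
    rw [hM0.full_iff, cg_comp_equiv, hcg]
  set G' := sub G (fun u v => u ∈ T ∧ σ u ≠ σ v) with hG'
  have hadj : ∀ u v, u ∈ T → v ∈ T → σ u ≠ σ v → G.Adj u v → G'.Adj u v :=
    fun u v hu hv h k => sub_adj.2 ⟨k, ⟨hu, h⟩, hv, h.symm⟩
  obtain ⟨M, hM, hmv, hle, r1, r2, r3, r4⟩ := hF V ι G G' G1 T Y (fun _ u v => σ u = σ v)
    (fun j => M2 (π.symm j)) 8 (5 * η + 2) L (η * T.card) η η (3 * η + 1) L L
    (2 * L + 3 * η + 1) (55 * η + 18 + 2 * L) (sub_le _) hG1
    (disjoint_iff_adj.2 fun u v h k => (sub_adj.1 k).2.1.2 (hin u v h).2)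
    (fun u v h => (hin u v h).1) hM0 hf0 (fun i v h => (hin _ _ (hM0.adj i v h)).2)
    (fun i => hc _) (by rw [Equiv.sum_comp π.symm fun i => (fx (M2 i) T).card]; exact htot)
    hge hY hld
    (fun v hv => by
      refine le_trans (le_of_eq ?_) (hπ v hv)
      refine card_bij' (fun j _ => π.symm j) (fun i _ => π i) ?_ ?_ ?_ ?_
      · intro j hj
        simpa using hj
      · intro i hi
        simpa using hi
      · intro j _; simp
      · intro i _; simp)
    (by omega) (by nlinarith) (by omega) (by omega)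
    (fun i => hO V G' σ _ T (T \ Y i) _ _ L e (fun u v h => (sub_adj.1 h).2.1) (fun _ _ h => h)
      sdiff_subset (hev i)
      (fun v hv => (hcr v hv).trans (by
        have : dg G v (cls T σ (!σ v)) ≤ dg G' v univ := dg_le_of fun u hu h =>
          ⟨mem_univ _, hadj v u hv (mem_cls.1 hu).1 (by rw [(mem_cls.1 hu).2]; simp) h⟩
        omega))
      (fun b => (hmix b).congr fun x hx hxT y hy h => hadj x y hxT (mem_cls.1 hy).1
        (by rw [(mem_cls.1 hx).2, (mem_cls.1 hy).2]; simp) h)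
      (by omega))
  have hcross : ∀ v, dg (cg M) v (cls univ σ (!σ v)) ≤ dg (cg M ⊓ G') v univ := fun v =>
    dg_le_of fun u hu h => by
      refine ⟨mem_univ _, h, ?_⟩
      rcases hle h with k | k
      · have h1 := (hin _ _ k).2
        rw [(mem_cls.1 hu).2] at h1
        simp at h1
      · exact k
  have e1 : 200 * η * T.card = 200 * (η * T.card) := by ring
  refine ⟨M, hM, hmv, fun u v h hσ => ?_, fun v => ?_, ?_, fun v => ?_, ?_⟩
  · rcases hle h with k | k
    · exact k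
    · exact absurd hσ (sub_adj.1 k).2.1.2
  · have := hcross v
    have := r1 v
    omega
  · have := sum_le_sum (s := univ) fun v _ => hcross v
    omega
  · have := r3 v
    omega
  · omega

end Pool.Agent.MP_5c8b6d_co

end

section

/-! The second phase of the dense case: matchings that cover a given set and avoid small sets. -/

namespace Pool.Agent.MP_5c8b6d_co

open Finset

set_option linter.unusedSectionVars false

namespace Dhall

variable {V : Type} [Fintype V] [DecidableEq V]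

/-- a monotone map on finite sets has a fixed point -/
theorem exists_fixed (Φ : Finset V → Finset V) (h : ∀ D D', D ⊆ D' → Φ D ⊆ Φ D') :
    ∃ D, Φ D = D := by
  obtain ⟨D, hD, hm⟩ := exists_max_image (univ.filter (fun D : Finset V => D ⊆ Φ D)) card
    ⟨∅, by simp⟩
  have h1 : D ⊆ Φ D := (mem_filter.1 hD).2
  have h2 := hm (Φ D) (mem_filter.2 ⟨mem_univ _, h _ _ h1⟩)
  exact ⟨D, (eq_of_subset_of_card_le h1 h2).symm⟩

/-- two matchings that cover sets on the two sides give one matching that covers both sets -/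
theorem both (G : SimpleGraph V) (σ : V → Bool) (A B X : Finset V) (f g : V → V)
    (hG : ∀ u v, G.Adj u v → σ u ≠ σ v) (hA : ∀ v ∈ A, σ v = true ∧ v ∉ X)
    (hB : ∀ v ∈ B, σ v = false ∧ v ∉ X) (hf : Set.InjOn f A) (hg : Set.InjOn g B)
    (hf' : ∀ v ∈ A, f v ∉ X ∧ G.Adj v (f v)) (hg' : ∀ v ∈ B, g v ∉ X ∧ G.Adj v (g v)) :
    ∃ μ : V → V, (∀ v, μ (μ v) = v) ∧ (∀ v, μ v ≠ v → G.Adj v (μ v)) ∧ Disjoint (mv μ) X ∧
      A ∪ B ⊆ mv μ := by
  obtain ⟨D, hD⟩ := exists_fixed (fun D => B \ (A \ D.image g).image f) fun D D' k =>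
    sdiff_subset_sdiff Subset.rfl (image_subset_image
      (sdiff_subset_sdiff Subset.rfl (image_subset_image k)))
  have hDB : D ⊆ B := hD ▸ sdiff_subset
  have sf : ∀ v ∈ A, σ (f v) = false := fun v hv => by
    have := hG _ _ (hf' v hv).2
    rw [(hA v hv).1] at this
    simpa using this.symm
  have sg : ∀ v ∈ B, σ (g v) = true := fun v hv => by
    have := hG _ _ (hg' v hv).2
    rw [(hB v hv).1] at this
    simpa using this.symm
  set C := A \ D.image g with hC
  have hCA : C ⊆ A := sdiff_subset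
  obtain ⟨μ, m1, m2, m3⟩ := exists_inv_of_injOn (A := C) (f := f) (hf.mono (coe_subset.2 hCA))
    fun v hv k => by
      have := (hA _ (hCA k)).1
      rw [sf v (hCA hv)] at this
      exact absurd this (by simp)
  obtain ⟨ν, n1, n2, n3⟩ := exists_inv_of_injOn (A := D) (f := g) (hg.mono (coe_subset.2 hDB))
    fun v hv k => by
      have := (hB _ (hDB k)).1
      rw [sg v (hDB hv)] at this
      exact absurd this (by simp)
  have adj : ∀ {E : Finset V} {h ρ : V → V}, (∀ v, ρ (ρ v) = v) → (∀ a ∈ E, ρ a = h a) →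
      mv ρ = E ∪ E.image h → (∀ v ∈ E, G.Adj v (h v)) → ∀ v, ρ v ≠ v → G.Adj v (ρ v) := by
    intro E h ρ r1 r2 r3 r4 v hv
    rcases mem_union.1 (r3 ▸ mem_mv.2 hv) with k | k
    · rw [r2 v k]; exact r4 v k
    · obtain ⟨a, ha, rfl⟩ := mem_image.1 k
      rw [← r2 a ha, r1, r2 a ha]; exact (r4 a ha).symm
  have hd : Disjoint (mv μ) (mv ν) := by
    rw [m3, n3, disjoint_left]
    intro v hv hv'
    rcases mem_union.1 hv with k | k <;> rcases mem_union.1 hv' with l | l
    · have := (hA v (hCA k)).1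
      rw [(hB v (hDB l)).1] at this
      exact absurd this (by simp)
    · exact (mem_sdiff.1 k).2 l
    · exact (mem_sdiff.1 (hD ▸ l : v ∈ B \ C.image f)).2 k
    · obtain ⟨a, ha, rfl⟩ := mem_image.1 k
      obtain ⟨b, hb, e⟩ := mem_image.1 l
      have := sg b (hDB hb)
      rw [e, sf a (hCA ha)] at this
      exact absurd this (by simp)
  refine ⟨glue μ ν, glue_inv m1 n1 hd, fun v hv => ?_, ?_, ?_⟩
  · by_cases c : μ v = v
    · rw [glue_right c] at hv ⊢
      exact adj n1 n2 n3 (fun v k => (hg' v (hDB k)).2) v hv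
    · rw [glue_left c]
      exact adj m1 m2 m3 (fun v k => (hf' v (hCA k)).2) v c
  · rw [mv_glue, m3, n3, disjoint_left]
    intro v hv
    simp only [mem_union, mem_image] at hv
    rcases hv with (k | ⟨a, ha, rfl⟩) | (k | ⟨a, ha, rfl⟩)
    exacts [(hA v (hCA k)).2, (hf' a (hCA ha)).1, (hB v (hDB k)).2, (hg' a (hDB ha)).1]
  · rw [mv_glue, m3, n3]
    intro v hv
    rcases mem_union.1 hv with k | k
    · by_cases c : v ∈ D.image g
      · exact mem_union_right _ (mem_union_right _ c)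
      · exact mem_union_left _ (mem_union_left _ (mem_sdiff.2 ⟨k, c⟩))
    · by_cases c : v ∈ C.image f
      · exact mem_union_left _ (mem_union_right _ c)
      · exact mem_union_right _ (mem_union_left _ (hD ▸ mem_sdiff.2 ⟨k, c⟩))

/-- the marriage condition on one side -/
theorem side [Nonempty V] (G G' : SimpleGraph V) (σ : V → Bool) (T X : Finset V)
    (a w w' e : ℕ) (b : Bool) (hG : ∀ u v, G.Adj u v → σ u ≠ σ v)
    (hl : ∀ v S, dg G v S ≤ dg G' v S + a) (hX : X.card ≤ a)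
    (h1 : (cls univ σ b).card ≤ (cls univ σ (!b)).card + a)
    (h2 : (cls T σ b).card ≤ (cls T σ (!b)).card + a)
    (h3 : ∀ v ∈ T, (cls univ σ (!σ v)).card ≤ 2 * dg G v univ + w')
    (h4 : Mix G T (cls univ σ b) (cls univ σ (!b)) e)
    (h5 : w ≤ ((cls Tᶜ σ (!b)).filter (fun y => w ≤ dg G y T)).card) (h6 : 8 * a < w)
    (h7 : w' + 8 * a < e) :
    ∃ f : V → V, Set.InjOn f (cls T σ b \ X : Finset V) ∧
      ∀ v ∈ cls T σ b \ X, f v ∈ cls univ σ (!b) \ X ∧ G'.Adj v (f v) := by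
  classical
  refine hall_rel (cls T σ b \ X) (cls univ σ (!b) \ X) G'.Adj fun S hS => ?_
  set N := (cls univ σ (!b) \ X).filter (fun y => ∃ x ∈ S, G'.Adj x y) with hN
  rcases S.eq_empty_or_nonempty with rfl | ⟨x, hx⟩
  · simp
  have hST : S ⊆ cls T σ b := hS.trans sdiff_subset
  have hSA : S ⊆ cls univ σ b := fun v hv => mem_cls.2 ⟨mem_univ _, (mem_cls.1 (hST hv)).2⟩
  have cross : ∀ v (c : Bool) (W : Finset V), σ v = !c → dg G v W = dg G v (cls W σ c) :=
    fun v c W k => dg_congr fun u => by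
      simp only [mem_cls]
      refine ⟨fun l => ⟨⟨l.1, ?_⟩, l.2⟩, fun l => ⟨l.1.1, l.2⟩⟩
      have := hG _ _ l.2
      rw [k] at this
      cases c <;> simpa using this.symm
  by_contra hc
  replace hc : N.card < S.card := not_le.1 hc
  set Y := (cls univ σ (!b) \ X) \ N with hY
  have hY0 : ∀ y ∈ Y, ∀ v ∈ S, ¬ G'.Adj v y := fun y hy v hv k =>
    (mem_sdiff.1 hy).2 (mem_filter.2 ⟨(mem_sdiff.1 hy).1, v, hv, k⟩)
  have hYc : (cls univ σ (!b)).card ≤ Y.card + N.card + a := by
    have e1 := le_card_sdiff X (cls univ σ (!b))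
    have e2 := le_card_sdiff N (cls univ σ (!b) \ X)
    rw [← hY] at e2
    omega
  -- one degree
  have big : (cls univ σ b).card ≤ 2 * S.card + e := by
    have e1 := h3 x (mem_cls.1 (hST hx)).1
    have e0 := (mem_cls.1 (hST hx)).2
    rw [e0, cross x (!b) univ (by simp [e0])] at e1
    have e2 := dg_le_add_sdiff (G := G) x (cls univ σ (!b)) (cls univ σ (!b) \ X)
    have e3 : (cls univ σ (!b) \ (cls univ σ (!b) \ X)).card ≤ X.card :=
      card_le_card fun v hv => by simp only [mem_sdiff] at hv; tauto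
    have e4 := hl x (cls univ σ (!b) \ X)
    have e5 : dg G' x (cls univ σ (!b) \ X) ≤ N.card :=
      card_le_card fun v hv => mem_filter.2 ⟨(mem_nb.1 hv).1, x, hx, (mem_nb.1 hv).2⟩
    omega
  -- mixing
  have mix : 2 * Y.card + e < (cls univ σ (!b)).card := by
    by_contra k
    obtain ⟨v, hv, e1⟩ := h4 S Y hSA (fun v hv => (mem_cls.1 (hST hv)).1)
      (sdiff_subset.trans sdiff_subset) big (not_lt.1 k)
    have e2 := hl v Y
    have e3 : dg G' v Y = 0 := dg_eq_zero.2 fun y hy => hY0 y hy v hv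
    omega
  have zero : ∀ y ∈ Y, dg G y S ≤ a := fun y hy => by
    have e2 := hl y S
    have e3 : dg G' y S = 0 := dg_eq_zero.2 fun v hv k => hY0 y hy v hv k.symm
    omega
  have hT : ∀ y ∈ Y, y ∉ T := fun y hy k => by
    have e0 := (mem_cls.1 (mem_sdiff.1 (mem_sdiff.1 hy).1).1).2
    have e1 := h3 y k
    rw [e0, Bool.not_not, cross y b univ e0] at e1
    have e2 := dg_le_add_sdiff (G := G) y (cls univ σ b) S
    have e3 := card_sdiff_add_card_eq_card hSA
    have e4 := zero y hy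
    omega
  have hTN : cls T σ (!b) \ X ⊆ N := fun y hy => by
    by_contra k
    obtain ⟨e1, e2⟩ := mem_sdiff.1 hy
    exact hT y (mem_sdiff.2 ⟨mem_sdiff.2 ⟨mem_cls.2 ⟨mem_univ _, (mem_cls.1 e1).2⟩, e2⟩, k⟩)
      (mem_cls.1 e1).1
  have full : (cls T σ b).card < S.card + 2 * a := by
    have e1 := card_le_card hTN
    have e2 := le_card_sdiff X (cls T σ (!b))
    omega
  set W := (cls Tᶜ σ (!b)).filter (fun y => w ≤ dg G y T) with hW
  have hWN : W \ X ⊆ N := fun y hy => by
    by_contra k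
    obtain ⟨e1, e2⟩ := mem_sdiff.1 hy
    obtain ⟨e3, e4⟩ := mem_filter.1 e1
    have e0 := (mem_cls.1 e3).2
    have e5 := zero y (mem_sdiff.2 ⟨mem_sdiff.2 ⟨mem_cls.2 ⟨mem_univ _, e0⟩, e2⟩, k⟩)
    rw [cross y b T e0] at e4
    have e6 := dg_le_add_sdiff (G := G) y (cls T σ b) S
    have e7 := card_sdiff_add_card_eq_card hST
    omega
  have hdj : Disjoint (cls T σ (!b)) W := disjoint_left.2 fun y hy k =>
    mem_compl.1 (mem_cls.1 (mem_filter.1 k).1).1 (mem_cls.1 hy).1
  have e1 : (cls T σ (!b) ∪ W) \ X ⊆ N := by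
    rw [union_sdiff_distrib]; exact union_subset hTN hWN
  have e2 := card_le_card e1
  have e3 := le_card_sdiff X (cls T σ (!b) ∪ W)
  rw [card_union_of_disjoint hdj] at e3
  have e4 := card_le_card hST
  omega

end Dhall

theorem dhall : DhallStmt := by
  intro V ι _ _ _ _ G σ T X a w w' e hG hX hι h1 h2 h3 h4 h5 h6 h7
  have : Nonempty V := by
    have := (h4 true).lt_card
    obtain ⟨v, -⟩ := card_pos.1 (lt_of_le_of_lt (Nat.zero_le _) this)
    exact ⟨v⟩
  have key : ∀ I : Finset ι, ∃ M : ι → V → V, PC G M ∧ (∀ j, j ∉ I → ∀ v, M j v = v) ∧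
      ∀ j ∈ I, Disjoint (mv (M j)) (X j) ∧ T \ X j ⊆ mv (M j) := by
    intro I
    induction I using Finset.induction_on with
    | empty => exact ⟨_, pc_id, fun _ _ _ => rfl, by simp⟩
    | insert j I hj ih =>
      obtain ⟨M, m1, m2, m3⟩ := ih
      have hl : ∀ v S, dg G v S ≤ dg (G \ cg M) v S + a := fun v S => by
        have e1 := dg_le_sdiffG_add (G := G) (H := cg M) v S
        have e2 := dg_le_univ (G := cg M) v S
        have e3 := m1.dg_add_miss v
        omega
      obtain ⟨f, f1, f2⟩ := Dhall.side G (G \ cg M) σ T (X j) a w w' e true hG hl (hX j) (h1 _)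
        (h2 _) h3 (h4 _) (h5 _) h6 h7
      obtain ⟨g, g1, g2⟩ := Dhall.side G (G \ cg M) σ T (X j) a w w' e false hG hl (hX j) (h1 _)
        (h2 _) h3 (h4 _) (h5 _) h6 h7
      obtain ⟨μ, u1, u2, u3, u4⟩ := Dhall.both (G \ cg M) σ (cls T σ true \ X j)
        (cls T σ false \ X j) (X j) f g (fun u v k => hG u v k.1)
        (fun v hv => ⟨(mem_cls.1 (mem_sdiff.1 hv).1).2, (mem_sdiff.1 hv).2⟩)
        (fun v hv => ⟨(mem_cls.1 (mem_sdiff.1 hv).1).2, (mem_sdiff.1 hv).2⟩) f1 g1
        (fun v hv => ⟨(mem_sdiff.1 (f2 v hv).1).2, (f2 v hv).2⟩)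
        (fun v hv => ⟨(mem_sdiff.1 (g2 v hv).1).2, (g2 v hv).2⟩)
      have new : ∀ i v, μ v ≠ v → μ v ≠ M i v := fun i v k l =>
        (u2 v k).2 (l ▸ m1.cg_of (l ▸ k))
      refine ⟨Function.update M j μ, ⟨fun i v => ?_, fun i v k => ?_, fun i i' v k l => ?_⟩,
        fun i hi v => ?_, fun i hi => ?_⟩
      · by_cases c : i = j
        · subst c; simp [u1]
        · simp [Function.update_of_ne c, m1.inv]
      · by_cases c : i = j
        · subst c; rw [Function.update_self] at k ⊢; exact (u2 v k).1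
        · rw [Function.update_of_ne c] at k ⊢; exact m1.adj i v k
      · by_cases c : i = j <;> by_cases d : i' = j
        · rw [c, d]
        · subst c; rw [Function.update_self] at k l; rw [Function.update_of_ne d] at l
          exact absurd l (new i' v k)
        · subst d; rw [Function.update_of_ne c] at k l; rw [Function.update_self] at l
          exact absurd l.symm (new i v (l ▸ k))
        · rw [Function.update_of_ne c] at k l; rw [Function.update_of_ne d] at l
          exact m1.uniq i i' v k l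
      · rw [mem_insert, not_or] at hi
        rw [Function.update_of_ne hi.1]; exact m2 i hi.2 v
      · by_cases c : i = j
        · subst c
          rw [Function.update_self]
          refine ⟨u3, fun v hv => u4 ?_⟩
          obtain ⟨k, l⟩ := mem_sdiff.1 hv
          cases s : σ v
          · exact mem_union_right _ (mem_sdiff.2 ⟨mem_cls.2 ⟨k, s⟩, l⟩)
          · exact mem_union_left _ (mem_sdiff.2 ⟨mem_cls.2 ⟨k, s⟩, l⟩)
        · rw [Function.update_of_ne c]
          exact m3 i ((mem_insert.1 hi).resolve_left c)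
  obtain ⟨M, m1, -, m3⟩ := key univ
  exact ⟨M, m1, fun j => (m3 j (mem_univ _)).1, fun j => (m3 j (mem_univ _)).2⟩

end Pool.Agent.MP_5c8b6d_co

end

section

/-! The dense case: many vertices of low degree have many neighbours of high degree. -/

namespace Pool.Agent.MP_5c8b6d_co

open Finset

namespace Dense

set_option linter.unusedSectionVars false

variable {V ι : Type} [Fintype V] [DecidableEq V] [Fintype ι] [DecidableEq ι]
  {G : SimpleGraph V}

/-- the number of colours that miss `v` -/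
def ms (M : ι → V → V) (v : V) : ℕ := (univ.filter (fun i => M i v = v)).card

/-- the edges inside the two sides -/
def ins (G : SimpleGraph V) (σ : V → Bool) : SimpleGraph V := sub G (fun u v => σ u = σ v)

/-- the edges between the two sides -/
def crs (G : SimpleGraph V) (σ : V → Bool) : SimpleGraph V := sub G (fun u v => σ u ≠ σ v)

theorem ins_adj {σ : V → Bool} {u v : V} : (ins G σ).Adj u v ↔ G.Adj u v ∧ σ u = σ v := by
  simp only [ins, sub_adj]; tauto

theorem crs_adj {σ : V → Bool} {u v : V} : (crs G σ).Adj u v ↔ G.Adj u v ∧ σ u ≠ σ v := by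
  simp only [crs, sub_adj]; tauto

theorem ms_le (M : ι → V → V) (v : V) : ms M v ≤ Fintype.card ι := card_le_univ _

theorem ms_add {M : ι → V → V} (h : PC G M) (v : V) :
    dg (cg M) v univ + ms M v = Fintype.card ι := h.dg_add_miss v

/-- once all edges inside the sides are coloured and no vertex misses more colours than its
deficiency, the bipartite rest is coloured with the remaining colours -/
theorem finish (hK : KonStmt) {Φ : ι → V → V} {σ : V → Bool} {Δ : ℕ} (h : PC G Φ)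
    (hin : ins G σ ≤ cg Φ) (hd : ∀ v, dg G v univ + ms Φ v ≤ Δ) (hk : Fintype.card ι ≤ Δ) :
    Col G Δ := by
  obtain ⟨M, h1, h2⟩ := hK V (Fin (Δ - Fintype.card ι)) (G \ cg Φ) σ
    (fun u v a b => a.2 (hin (ins_adj.2 ⟨a.1, b⟩))) (fun v => by
      have := dg_sdiffG_add h.cg_le v univ
      have := ms_add h v
      have := hd v
      rw [Fintype.card_fin]; omega)
  have hdj : Disjoint (cg Φ) (cg M) := disjoint_iff_adj.2 fun u v a b => (h1.cg_le b).2 a
  have h3 := h.sum (h1.mono sdiff_le) hdj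
  refine col_of_card h3 (h3.full_iff.2 ?_) (by simp; omega)
  rw [cg_sum, h1.cg_eq h2]
  intro u v a
  by_cases b : (cg Φ).Adj u v
  · exact Or.inl b
  · exact Or.inr ⟨a, b⟩

theorem ms_le_chg (M0 M : ι → V → V) (v : V) : ms M v ≤ ms M0 v + chg M0 M v := by
  refine le_trans (card_le_card ?_) (card_union_le _ _)
  intro i hi
  simp only [mem_union, mem_filter, mem_univ, true_and] at hi ⊢
  by_cases k : M0 i v = v
  · exact Or.inl k
  · exact Or.inr fun c => k (c ▸ hi)

/-- edges of the old colouring that are no longer coloured -/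
theorem dg_lost {M0 M : ι → V → V} {H : SimpleGraph V} (h : PC G M)
    (hf : ∀ u v, H.Adj u v → ∃ i, M0 i u = v) (v : V) :
    dg (H \ cg M) v univ ≤ chg M0 M v := by
  refine le_trans (card_le_card (t := (univ.filter (fun i => M i v ≠ M0 i v)).image
    (fun i => M0 i v)) ?_) card_image_le
  intro u hu
  obtain ⟨a, b⟩ := (mem_nb.1 hu).2
  obtain ⟨i, hi⟩ := hf v u a
  refine mem_image.2 ⟨i, mem_filter.2 ⟨mem_univ _, fun c => b ?_⟩, hi⟩
  exact (cg_adj h.inv).2 ⟨a.ne, i, c.trans hi⟩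

/-- crossing edges of the new colouring -/
theorem dg_cross {M0 M : ι → V → V} {σ : V → Bool} (h : PC G M) (h0 : ∀ i v, σ (M0 i v) = σ v)
    (v : V) : dg (cg M) v (cls univ σ (!σ v)) ≤ chg M0 M v := by
  rw [h.dg_cg']
  refine card_le_card fun i hi => ?_
  simp only [mem_filter, mem_univ, true_and, mem_cls] at hi ⊢
  intro c
  have := h0 i v
  rw [← c, hi.2] at this
  simp at this

theorem ms_zero_le {M0 : ι → V → V} {σ : V → Bool} (h : PC G M0)
    (hf : ∀ u v, G.Adj u v → σ u = σ v → ∃ i, M0 i u = v) (v : V) :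
    ms M0 v + dg G v (cls univ σ (σ v)) ≤ Fintype.card ι := by
  have h1 := ms_add h v
  have h2 : dg G v (cls univ σ (σ v)) ≤ dg (cg M0) v univ := dg_le_of fun u hu a =>
    ⟨mem_univ _, (cg_adj h.inv).2 ⟨a.ne, hf v u a (mem_cls.1 hu).2.symm⟩⟩
  omega

/-- a sparse graph has a colouring with small classes -/
theorem small (hV : VizStmt) (hE : EqStmt) (H : SimpleGraph V) {L : ℕ}
    (hd : ∀ v, dg H v univ ≤ 2 * L) (hs : ∑ v, dg H v univ ≤ L ^ 2) :
    ∃ N : Fin (2 * L + 1) → V → V, PC H N ∧ Full H N ∧ ∀ j, (mv (N j)).card ≤ L + 2 := by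
  obtain ⟨N0, a, b⟩ := hV V (Fin (2 * L + 1)) H (fun v => by
    have := hd v
    rw [Fintype.card_fin]; omega)
  obtain ⟨N, c, d, e⟩ := hE V _ H N0 univ a b
  refine ⟨N, c, d, fun j => ?_⟩
  have h1 := card_mul_le_of_bal (f := fun j => (mv (N j)).card) (c := 2) (fun i j => by
    have := e j i
    have := card_fx_add (N i) univ
    have := card_fx_add (N j) univ
    simp only [inter_univ] at *
    omega) j
  have h2 := c.sum_mv univ
  simp only [inter_univ, c.cg_eq d] at h2
  rw [h2, Fintype.card_fin] at h1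
  by_contra k
  have h3 : (2 * L + 1) * (L + 3) ≤ (2 * L + 1) * (mv (N j)).card :=
    Nat.mul_le_mul_left _ (by omega)
  nlinarith

/-- the second phase: the lost edges inside the sides are extended to matchings that cover `T` -/
theorem second (hV : VizStmt) (hE : EqStmt) (hH : DhallStmt) {σ : V → Bool} {T : Finset V}
    {M0 M : ι → V → V} {L w w' e : ℕ} (h0 : ∀ i v, σ (M0 i v) = σ v)
    (hf : ∀ u v, G.Adj u v → σ u = σ v → ∃ i, M0 i u = v) (h : PC G M)
    (hc : ∀ v, chg M0 M v ≤ 2 * L) (hs : ∑ v, chg M0 M v ≤ L ^ 2) (hL : 0 < L)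
    (hU : ∀ b, (cls univ σ b).card ≤ (cls univ σ (!b)).card + 3 * L)
    (hT : ∀ b, (cls T σ b).card ≤ (cls T σ (!b)).card + 3 * L)
    (hd : ∀ v ∈ T, (cls univ σ (!σ v)).card ≤ 2 * dg G v (cls univ σ (!σ v)) + w')
    (hm : ∀ b, Mix G T (cls univ σ b) (cls univ σ (!b)) e)
    (hW : ∀ b, w ≤ ((cls Tᶜ σ b).filter
      (fun y => w + 2 * L ≤ dg G y (cls T σ (!σ y)))).card)
    (hw : 24 * L < w) (he : w' + 30 * L < e) :
    ∃ ψ : Fin (2 * L + 1) → V → V, PC G ψ ∧ Disjoint (cg M) (cg ψ) ∧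
      ins G σ ≤ cg M ⊔ cg ψ ∧ ∀ v ∈ T, ms ψ v = 0 := by
  have hl := dg_lost (H := ins G σ) h (fun u v a => hf u v (ins_adj.1 a).1 (ins_adj.1 a).2)
  obtain ⟨N, n1, n2, n3⟩ := small hV hE (ins G σ \ cg M) (fun v => (hl v).trans (hc v))
    ((sum_le_sum fun v _ => hl v).trans hs)
  have hx : ∀ v, dg (cg M) v (cls univ σ (!σ v)) ≤ 2 * L :=
    fun v => (dg_cross h h0 v).trans (hc v)
  have key : ∀ (v : V) (S : Finset V),
      dg G v (cls S σ (!σ v)) ≤ dg (crs G σ \ cg M) v S + 2 * L := by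
    intro v S
    have a := dg_le_sdiffG_add (G := G) (H := cg M) v (cls S σ (!σ v))
    have b : dg (G \ cg M) v (cls S σ (!σ v)) ≤ dg (crs G σ \ cg M) v S :=
      dg_le_of fun u hu k => ⟨(mem_cls.1 hu).1, crs_adj.2 ⟨k.1, by
        rw [(mem_cls.1 hu).2]; simp⟩, k.2⟩
    have c : dg (cg M) v (cls S σ (!σ v)) ≤ dg (cg M) v (cls univ σ (!σ v)) :=
      dg_mono_set v fun u hu => mem_cls.2 ⟨mem_univ _, (mem_cls.1 hu).2⟩
    have := hx v
    omega
  obtain ⟨M2, m1, m2, m3⟩ := hH V (Fin (2 * L + 1)) (crs G σ \ cg M) σ T (fun j => mv (N j))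
    (3 * L) w (w' + 4 * L) (e - 2 * L) (fun u v a => (crs_adj.1 a.1).2)
    (fun j => (n3 j).trans (by omega)) (by rw [Fintype.card_fin]; omega) hU hT
    (fun v hv => by
      have := hd v hv
      have := key v univ
      omega)
    (fun b => by
      refine Mix.sdiff (l := 2 * L) ((hm b).congr fun x a _ y c d => crs_adj.2 ⟨d, ?_⟩)
        fun x a _ => ?_
      · rw [(mem_cls.1 a).2, (mem_cls.1 c).2]; simp
      · have := hx x
        rwa [(mem_cls.1 a).2] at this)
    (fun b => (hW b).trans (card_le_card fun y hy => by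
      have := key y T
      simp only [mem_filter] at hy ⊢
      exact ⟨hy.1, by omega⟩))
    (by omega) (by omega)
  have g1 : ins G σ \ cg M ≤ G := sdiff_le.trans (sub_le _)
  have g2 : crs G σ \ cg M ≤ G := sdiff_le.trans (sub_le _)
  have d1 : Disjoint (cg N) (cg M2) := disjoint_iff_adj.2 fun u v a b =>
    (crs_adj.1 (m1.cg_le b).1).2 (ins_adj.1 (n1.cg_le a).1).2
  have d2 : ∀ j, Disjoint (mv (N j)) (mv (M2 j)) := fun j => (m2 j).symm
  refine ⟨fun j => glue (N j) (M2 j), (n1.mono g1).glue (m1.mono g2) d1 d2, ?_, ?_, ?_⟩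
  · refine disjoint_iff_adj.2 fun u v a b => ?_
    rcases cg_glue_le n1.inv m1.inv b with c | c
    · exact (n1.cg_le c).2 a
    · exact (m1.cg_le c).2 a
  · intro u v a
    by_cases b : (cg M).Adj u v
    · exact Or.inl b
    · exact Or.inr (cg_glue d2 (Or.inl (n1.full_iff.1 n2 ⟨a, b⟩)))
  · intro v hv
    refine card_eq_zero.2 (filter_eq_empty_iff.2 fun j _ => ?_)
    have : v ∈ mv (glue (N j) (M2 j)) := by
      rw [mv_glue]
      by_cases k : v ∈ mv (N j)
      · exact mem_union_left _ k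
      · exact mem_union_right _ (m3 j (mem_sdiff.2 ⟨hv, k⟩))
    exact mem_mv.1 this

theorem ms_sum {ι' : Type} [Fintype ι'] [DecidableEq ι'] (M : ι → V → V) (N : ι' → V → V)
    (v : V) : ms (Sum.elim M N) v = ms M v + ms N v := by
  simp only [ms, card_filter, Fintype.sum_sum_type]
  rfl

/-- the partition -/
theorem split (hP : PartStmt) (hM : MixStmt) {T W : Finset V} {Δ θ η e C : ℕ}
    (hΔ : ∀ v, dg G v univ ≤ Δ) (hN : Fintype.card V < 2 * Δ)
    (hT : ∀ v ∈ T, Δ < dg G v univ + θ) (hne : NE G univ T e) (hB : Big C (Fintype.card V) η)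
    (hC : 144 ≤ C) (h1 : 38 * θ + 12 * η ≤ e) (h2 : 2 * η + 6 * θ < Fintype.card V) :
    ∃ σ : V → Bool, (∀ v, Evn σ η (nb G v univ)) ∧ (∀ v, Evn σ η (nb G v T)) ∧ Evn σ η univ ∧
      Evn σ η T ∧ Evn σ η W ∧ ∀ b, Mix G T (cls univ σ b) (cls univ σ (!b)) (3 * θ) := by
  obtain ⟨𝓕, f1, -, f3⟩ := hM V G univ univ T Δ θ e (subset_univ _) Subset.rfl
    (fun v _ => hΔ v) (fun v hv => (hT v hv).le) (by simpa using hN) hne
  have hc : (𝓕 ∪ univ.image (fun v => nb G v univ) ∪ univ.image (fun v => nb G v T) ∪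
      {univ, T, W}).card ≤ 9 * Fintype.card V ^ 2 := by
    have a1 := card_union_le (𝓕 ∪ univ.image (fun v => nb G v univ) ∪
      univ.image (fun v => nb G v T)) {univ, T, W}
    have a2 := card_union_le (𝓕 ∪ univ.image (fun v => nb G v univ))
      (univ.image (fun v => nb G v T))
    have a3 := card_union_le 𝓕 (univ.image (fun v => nb G v univ))
    have a4 : (univ.image (fun v => nb G v univ)).card ≤ Fintype.card V := card_image_le
    have a5 : (univ.image (fun v => nb G v T)).card ≤ Fintype.card V := card_image_le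
    have a6 : ({univ, T, W} : Finset (Finset V)).card ≤ 3 := card_le_three
    have a7 : (T.card + 1) ^ 2 ≤ (Fintype.card V + 1) ^ 2 :=
      Nat.pow_le_pow_left (Nat.add_le_add_right (card_le_univ T) 1) 2
    have a8 : 0 < Fintype.card V := by omega
    nlinarith
  obtain ⟨σ, s1, -⟩ := hP V Bool ⊥ (𝓕 ∪ univ.image (fun v => nb G v univ) ∪
    univ.image (fun v => nb G v T) ∪ {univ, T, W}) η (Fintype.card V) (by simp)
    (fun F _ => card_le_univ F) (hB.part (by
      rw [Fintype.card_bool]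
      exact (Nat.mul_le_mul_left _ hc).trans (by nlinarith [Nat.zero_le (Fintype.card V ^ 2)])))
  refine ⟨σ, fun v => s1 _ (by simp), fun v => s1 _ (by simp), s1 _ (by simp), s1 _ (by simp),
    s1 _ (by simp), fun b => ?_⟩
  exact f3 Bool σ η (3 * θ) (fun F hF => s1 F (by simp [hF]))
    (by rw [Fintype.card_bool]; omega) (by rw [Fintype.card_bool, card_univ]; omega) b (!b)

end Dense

open _root_.Pool.Agent.MP_5c8b6d_co.Dense in
theorem dense_of (hV : VizStmt) (hE : EqStmt) (hK : KonStmt) (hP : PartStmt) (hM : MixStmt)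
    (hF : DfixStmt) (hH : DhallStmt) : DenseStmt := by
  obtain ⟨C1, hF⟩ := hF
  refine ⟨6 * C1 + 200, ?_⟩
  intro V _ _ G T Δ θ η L e hΔ hN hT hne hW hpar hbig he heN
  have p0 := hpar.pos
  have p1 : 200 * η ≤ L := le_trans (Nat.mul_le_mul_right _ (by omega)) hpar.h1
  have p2 : 72 * η * Fintype.card V ≤ L ^ 2 :=
    le_trans (Nat.mul_le_mul_right _ (Nat.mul_le_mul_right _ (by omega))) hpar.h2
  have p3 : C1 * L + 200 * L ≤ θ := le_trans (by linarith [Nat.zero_le (C1 * L)]) hpar.h3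
  have p4 : 200 * θ ≤ e := le_trans (Nat.mul_le_mul_right _ (by omega)) he
  have p5 : 200 * e ≤ Fintype.card V := le_trans (Nat.mul_le_mul_right _ (by omega)) heN
  obtain ⟨σ, e1, e2, e3, e4, e5, hm⟩ := split (W := Tᶜ.filter (fun y => θ ≤ dg G y T)) hP hM hΔ
    hN (fun v hv => (hT v).1 hv) hne hbig (by omega) (by omega) (by omega)
  have d1 : ∀ v b, dg G v univ ≤ 2 * dg G v (cls univ σ b) + 2 * η ∧
      2 * dg G v (cls univ σ b) ≤ dg G v univ + 2 * η := fun v b => by
    have := (e1 v).dg b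
    rw [Fintype.card_bool] at this; omega
  have d2 : ∀ v b, dg G v T ≤ 2 * dg G v (cls T σ b) + 2 * η := fun v b => by
    have := (e2 v).dg b
    rw [Fintype.card_bool] at this; omega
  have hd : ∀ v ∈ T, (cls univ σ (!σ v)).card ≤
      2 * dg G v (cls univ σ (!σ v)) + (θ + 3 * η) := fun v hv => by
    have a := (e3.bool (!σ v)).2
    have := (d1 v (!σ v)).1
    have := (hT v).1 hv
    rw [card_univ] at a; omega
  obtain ⟨M0, M, m1, m2, m3, m4, m5, m6, m7⟩ := hF V (Fin (Δ / 2 + η + 1)) G σ T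
    (univ.filter (fun v => Δ < dg G v univ + (4 * η + 2))) (6 * η) (1 * L) (θ / 4) (θ + 3 * η)
    (3 * θ) (fun v hv => (hT v).2 (by have := (mem_filter.1 hv).2; omega))
    (fun v => by
      have := (d1 v (σ v)).2
      have := hΔ v
      rw [Fintype.card_fin]; omega)
    (fun v hv => by
      have := (d1 v (σ v)).1
      have := (mem_filter.1 hv).2
      rw [Fintype.card_fin]; omega)
    (by rw [Fintype.card_fin]; omega) hd hm
    (le_trans (by omega) (hW.trans (card_le_card fun y hy => by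
      have := d2 y (!σ y)
      simp only [mem_filter] at hy ⊢
      exact ⟨hy.1, by omega⟩)))
    (hpar.scale (c := 5) (by omega) (by omega) (by omega) (by omega) le_rfl (by omega) (by omega))
    (by rw [one_mul]; omega)
  rw [one_mul] at m5
  obtain ⟨ψ, q1, q2, q3, q4⟩ := second hV hE hH (T := T) (w := θ / 4) m2 m3 m4 m5
    (m6.trans (le_trans (le_of_eq (by ring)) p2)) (by omega)
    (fun b => by
      have := (e3.bool b).2
      have := (e3.bool (!b)).1
      omega)
    (fun b => by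
      have := (e4.bool b).2
      have := (e4.bool (!b)).1
      omega)
    hd hm
    (fun b => by
      have a := (e5.bool b).1
      refine le_trans (by omega) (card_le_card (s := cls (Tᶜ.filter (fun y => θ ≤ dg G y T)) σ b)
        fun y hy => ?_)
      have := d2 y (!σ y)
      simp only [mem_filter, mem_cls] at hy ⊢
      exact ⟨⟨hy.1.1, hy.2⟩, by omega⟩)
    (by omega) (by omega)
  refine finish hK (σ := σ) (m4.sum q1 q2) (by rw [cg_sum]; exact q3) (fun v => ?_)
    (by simp; omega)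
  have a1 := ms_zero_le m1 m3 v
  have a2 := (d1 v (σ v)).1
  have a3 := hΔ v
  rw [Fintype.card_fin] at a1
  rw [ms_sum]
  by_cases hv : v ∈ T
  · rw [q4 v hv]
    by_cases h1 : Δ < dg G v univ + (4 * η + 2)
    · have : ms M v = 0 := card_eq_zero.2 (filter_eq_empty_iff.2 fun i _ c =>
        (m7 i v hv c).2 (mem_filter.2 ⟨mem_univ _, h1⟩))
      omega
    · have : ms M v ≤ ms M0 v := card_le_card fun i hi =>
        mem_filter.2 ⟨mem_univ _, (m7 i v hv (mem_filter.1 hi).2).1⟩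
      omega
  · have b1 := ms_le_chg M0 M v
    have b2 := m5 v
    have b3 := ms_le ψ v
    have b4 := mt (hT v).2 hv
    rw [Fintype.card_fin] at b3
    omega

end Pool.Agent.MP_5c8b6d_co

end
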