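import Mathlib.Algebra.BigOperators.Fin
import Mathlib.Data.Int.Star
import Mathlib.Algebra.Order.Star.Real
import Mathlib.Tactic.Algebra.Basic
import Pool.Agent.MP_5c8b6d_co.Core

-- ======== part 0: formerly Pool.Agent.MP_5c8b6d_co.ME
section MrgPart0

section

/-! BIP: crossing perfect matchings that avoid small sets. -/

namespace Pool.Agent.MP_5c8b6d_co

open Finset

set_option linter.unusedSectionVars false

namespace BipM

variable {V ι : Type} [Fintype V] [DecidableEq V] [Fintype ι] [DecidableEq ι]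

lemma layer (hK : KonStmt) (hE : EqStmt) (hP : PermStmt) (H : SimpleGraph V) (σ : V → Bool)
    (I : Finset ι) (T : Finset V) (X : ι → Finset V) (y t : ℕ)
    (hσ : ∀ u v, H.Adj u v → σ u ≠ σ v) (hd : ∀ v, dg H v univ ≤ I.card)
    (hy : ∀ v, ld X v ≤ y) (ht : T.card * 3 ^ y < 2 ^ t) :
    ∃ N : ι → V → V, PC H N ∧ (∀ u v, H.Adj u v → ∃ j ∈ I, N j u = v) ∧
      (∀ i ∈ I, I.card * (fx (N i) T).card + ∑ v ∈ T, dg H v univ ≤
        I.card * T.card + 2 * I.card) ∧
      ∀ v ∈ T, (I.filter (fun j => N j v ≠ v ∧ N j v ∈ X j)).card ≤ t := by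
  have hc : Fintype.card {j // j ∈ I} = I.card := by simp
  obtain ⟨M0, h0, f0⟩ := hK V {j // j ∈ I} H σ hσ (by rw [hc]; exact hd)
  obtain ⟨M, h, f, hb⟩ := hE V {j // j ∈ I} H M0 T h0 f0
  obtain ⟨ρ, hρ⟩ := hP V {j // j ∈ I} T
    (fun v i => univ.filter (fun j : {j // j ∈ I} => M i v ≠ v ∧ M i v ∈ X j)) y t
    (fun v i => by
      refine le_trans ?_ ((ld_comp_le X (Subtype.val_injective (p := fun j => j ∈ I))
        (M i v)).trans (hy _))
      exact card_le_card fun j hj => mem_filter.2 ⟨mem_univ _, (mem_filter.1 hj).2.2⟩) ht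
  have h1 : PC H (fun j => M (ρ.symm j)) := h.comp ρ.symm.injective
  set N : ι → V → V := fun j v => if k : j ∈ I then M (ρ.symm ⟨j, k⟩) v else v with hN
  have e1 : ∀ j (k : j ∈ I), N j = M (ρ.symm ⟨j, k⟩) := fun j k => by
    funext v; simp [hN, k]
  have e2 : ∀ j, j ∉ I → ∀ v, N j v = v := fun j k v => by simp [hN, k]
  refine ⟨N, ⟨fun j v => ?_, fun j v hv => ?_, fun i j v hv hij => ?_⟩, fun u v huv => ?_,
    fun i hi => ?_, fun v hv => ?_⟩
  · by_cases k : j ∈ I
    · rw [e1 j k]; exact h.inv _ _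
    · rw [e2 j k, e2 j k]
  · by_cases k : j ∈ I
    · rw [e1 j k] at hv ⊢; exact h.adj _ _ hv
    · exact absurd (e2 j k v) hv
  · have ki : i ∈ I := by by_contra k; exact hv (e2 i k v)
    have kj : j ∈ I := by by_contra k; exact hv (hij.trans (e2 j k v))
    rw [e1 i ki] at hv hij
    rw [e1 j kj] at hij
    have := ρ.symm.injective (h.uniq _ _ v hv hij)
    exact congrArg Subtype.val this
  · obtain ⟨i, hi⟩ := f u v huv
    refine ⟨(ρ i).1, (ρ i).2, ?_⟩
    rw [e1 _ (ρ i).2]; simpa using hi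
  · rw [e1 i hi]
    have k1 := card_mul_le_of_bal (f := fun i => (fx (M i) T).card) hb (ρ.symm ⟨i, hi⟩)
    have k2 := h.sum_fx T
    rw [h.cg_eq f] at k2
    rw [hc] at k1 k2
    omega
  · refine le_trans ?_ (hρ v hv)
    refine le_trans (card_le_card ?_) (card_image_le (f := fun i : {j // j ∈ I} => (ρ i).1))
    intro j hj
    obtain ⟨k, k1, k2⟩ := mem_filter.1 hj
    rw [e1 j k] at k1 k2
    refine mem_image.2 ⟨ρ.symm ⟨j, k⟩, mem_filter.2 ⟨mem_univ _, ?_⟩, by simp⟩
    refine mem_filter.2 ⟨mem_univ _, k1, ?_⟩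
    simpa using k2

variable {m : ℕ}

/-- the relation of layer `q` -/
def Lay (π : V → Bool × ZMod m) (q : ZMod m) (u v : V) : Prop :=
  (π u).1 ≠ (π v).1 ∧ ((π u).1 = true → (π v).2 = (π u).2 + q) ∧
    ((π v).1 = true → (π u).2 = (π v).2 + q)

/-- the class that is joined to `v` in layer `q` -/
def tgt (π : V → Bool × ZMod m) (q : ZMod m) (v : V) : ZMod m :=
  if (π v).1 = true then (π v).2 + q else (π v).2 - q

lemma lay_iff (π : V → Bool × ZMod m) (q : ZMod m) (v u : V) :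
    Lay π q v u ↔ π u = (!(π v).1, tgt π q v) := by
  unfold Lay tgt
  rw [Prod.ext_iff]
  cases hv : (π v).1 <;> cases hu : (π u).1 <;> simp [eq_sub_iff_add_eq, eq_comm]

lemma Lay.symm {π : V → Bool × ZMod m} {q : ZMod m} {u v : V} (h : Lay π q u v) : Lay π q v u :=
  ⟨h.1.symm, h.2.2, h.2.1⟩

lemma Lay.uniq {π : V → Bool × ZMod m} {q q' : ZMod m} {u v : V} (h : Lay π q u v)
    (k : Lay π q' u v) : q = q' := by
  by_cases hu : (π u).1 = true
  · exact add_left_cancel ((h.2.1 hu).symm.trans (k.2.1 hu))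
  · have hv : (π v).1 = true := by
      have := h.1
      cases a : (π u).1 <;> cases b : (π v).1 <;> simp_all
    exact add_left_cancel ((h.2.2 hv).symm.trans (k.2.2 hv))

lemma tgt_ne (π : V → Bool × ZMod m) {q : ZMod m} (hq : q ≠ 0) (v : V) : tgt π q v ≠ (π v).2 := by
  unfold tgt
  split_ifs <;> simpa using hq

lemma Lay.ne {π : V → Bool × ZMod m} {q : ZMod m} {u v : V} (h : Lay π q u v) (hq : q ≠ 0) :
    (π u).2 ≠ (π v).2 := by
  have := (lay_iff π q u v).1 h
  rw [this]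
  exact (tgt_ne π hq u).symm

lemma exists_lay {π : V → Bool × ZMod m} {u v : V} (h1 : (π u).1 ≠ (π v).1)
    (h2 : (π u).2 ≠ (π v).2) : ∃ q, q ≠ 0 ∧ Lay π q u v := by
  by_cases hu : (π u).1 = true
  · refine ⟨(π v).2 - (π u).2, sub_ne_zero.2 h2.symm, h1, fun _ => by ring, fun hv => ?_⟩
    exact absurd (hu.trans hv.symm) h1
  · exact ⟨(π u).2 - (π v).2, sub_ne_zero.2 h2, h1, fun k => absurd k hu, fun _ => by ring⟩

/-- the edges of layer `q` -/
def Gq (G : SimpleGraph V) (π : V → Bool × ZMod m) (T : Finset V) (q : ZMod m) : SimpleGraph V :=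
  sub G (fun u v => u ∈ T ∧ Lay π q u v)

/-- the edges of all layers but the reservoir -/
def G1 (G : SimpleGraph V) (π : V → Bool × ZMod m) (T : Finset V) : SimpleGraph V :=
  sub G (fun u v => u ∈ T ∧ (π u).1 ≠ (π v).1 ∧ (π u).2 ≠ (π v).2)

/-- the reservoir -/
def G0 (G : SimpleGraph V) (π : V → Bool × ZMod m) (T : Finset V) : SimpleGraph V :=
  sub G (fun u v => u ∈ T ∧ (π u).1 ≠ (π v).1 ∧ (π u).2 = (π v).2)

variable {G : SimpleGraph V} {π : V → Bool × ZMod m} {T : Finset V}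

lemma Gq_le {q : ZMod m} (hq : q ≠ 0) : Gq G π T q ≤ G1 G π T := fun _ _ h =>
  ⟨h.1, ⟨h.2.1.1, h.2.1.2.1, h.2.1.2.ne hq⟩, ⟨h.2.2.1, h.2.2.2.1, h.2.2.2.ne hq⟩⟩

lemma dg_Gq (q : ZMod m) {v : V} (hv : v ∈ T) :
    dg (Gq G π T q) v univ = dg G v (cls T π (!(π v).1, tgt π q v)) := by
  refine dg_congr fun u => ?_
  simp only [mem_univ, true_and, mem_cls, ← lay_iff]
  exact ⟨fun k => ⟨⟨k.2.2.1, k.2.1.2⟩, k.1⟩, fun k => ⟨k.2, ⟨hv, k.1.2⟩, k.1.1, k.1.2.symm⟩⟩

lemma dg_Gq_out (q : ZMod m) {v : V} (hv : v ∉ T) : dg (Gq G π T q) v univ = 0 :=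
  dg_eq_zero.2 fun _ _ k => hv k.2.1.1

lemma pair_iff (v u : V) (r : ZMod m) :
    π u = (!(π v).1, r) ↔ (π v).1 ≠ (π u).1 ∧ (π u).2 = r := by
  rw [Prod.ext_iff]
  cases (π v).1 <;> cases (π u).1 <;> simp

lemma dg_G0 {v : V} (hv : v ∈ T) :
    dg (G0 G π T) v univ = dg G v (cls T π (!(π v).1, (π v).2)) := by
  refine dg_congr fun u => ?_
  simp only [mem_univ, true_and, mem_cls, pair_iff]
  exact ⟨fun k => ⟨⟨k.2.2.1, k.2.1.2.1, k.2.2.2.2⟩, k.1⟩,
    fun k => ⟨k.2, ⟨hv, k.1.2.1, k.1.2.2.symm⟩, k.1.1, k.1.2.1.symm, k.1.2.2⟩⟩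

lemma dg_G1 [NeZero m] {v : V} (hv : v ∈ T) :
    dg (G1 G π T) v univ =
      ∑ q ∈ univ.filter (fun q => q ≠ (π v).2), dg G v (cls T π (!(π v).1, q)) := by
  rw [← dg_sum_cls v univ (fun u => (π u).2), sum_filter]
  refine sum_congr rfl fun q _ => ?_
  split_ifs with hq
  · refine dg_congr fun u => ?_
    simp only [mem_univ, true_and, mem_cls, pair_iff]
    exact ⟨fun k => ⟨⟨k.2.2.2.1, k.2.2.1.2.1, k.1⟩, k.2.1⟩,
      fun k => ⟨k.1.2.2, k.2, ⟨hv, k.1.2.1, fun e => hq (k.1.2.2.symm.trans e.symm)⟩, k.1.1,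
        k.1.2.1.symm, fun e => hq (k.1.2.2.symm.trans e)⟩⟩
  · push Not at hq
    exact dg_eq_zero.2 fun u hu k => k.2.2.2.2 ((mem_cls.1 hu).2.trans hq)

lemma first [NeZero m] (hK : KonStmt) (hE : EqStmt) (hP : PermStmt) (s : ι → ZMod m)
    (X : ι → Finset V) (D η y t c : ℕ) (h1 : ∀ j, s j ≠ 0)
    (h2 : ∀ q, q ≠ 0 → (cls univ s q).card = D)
    (h3 : ∀ v ∈ T, ∀ q, dg G v (cls T π (!(π v).1, q)) ≤ D)
    (h4 : ∑ v ∈ T, ∑ q ∈ univ.filter (fun q => q ≠ (π v).2),
      (D - dg G v (cls T π (!(π v).1, q))) ≤ η * T.card)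
    (hy : ∀ v, ld X v ≤ y) (ht : T.card * 3 ^ y < 2 ^ t) (hD : 0 < D)
    (hc : η * T.card ≤ D * c) :
    ∃ M0 : ι → V → V, PC (G1 G π T) M0 ∧ Full (G1 G π T) M0 ∧
      (∀ i v, M0 i v ≠ v → Lay π (s i) v (M0 i v)) ∧ (∀ i, (fx (M0 i) T).card ≤ c + 2) ∧
      ∀ v ∈ T, (univ.filter (fun i => M0 i v ≠ v ∧ M0 i v ∈ X i)).card ≤ m * t := by
  have key : ∀ q : ZMod m, ∃ N : ι → V → V, q ≠ 0 → (PC (Gq G π T q) N ∧
      (∀ u v, (Gq G π T q).Adj u v → ∃ j ∈ cls univ s q, N j u = v) ∧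
      (∀ i ∈ cls univ s q, (cls univ s q).card * (fx (N i) T).card +
        ∑ v ∈ T, dg (Gq G π T q) v univ ≤ (cls univ s q).card * T.card + 2 * (cls univ s q).card) ∧
      ∀ v ∈ T, ((cls univ s q).filter (fun j => N j v ≠ v ∧ N j v ∈ X j)).card ≤ t) := by
    intro q
    by_cases hq : q = 0
    · exact ⟨fun _ v => v, fun k => absurd hq k⟩
    obtain ⟨N, hN⟩ := layer hK hE hP (Gq G π T q) (fun u => (π u).1) (cls univ s q) T X y t
      (fun u v k => k.2.1.2.1) (fun v => by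
        rw [h2 q hq]
        by_cases hv : v ∈ T
        · rw [dg_Gq q hv]; exact h3 v hv _
        · rw [dg_Gq_out q hv]; exact Nat.zero_le _) hy ht
    exact ⟨N, fun _ => hN⟩
  choose N hN using key
  have pc : ∀ i, PC (Gq G π T (s i)) (N (s i)) := fun i => (hN _ (h1 i)).1
  have lay : ∀ i v, N (s i) i v ≠ v → Lay π (s i) v (N (s i) i v) :=
    fun i v hv => ((pc i).adj i v hv).2.1.2
  refine ⟨fun i => N (s i) i, ⟨fun i => (pc i).inv i, fun i v hv => Gq_le (h1 i) ((pc i).adj i v hv),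
    fun i j v hv hij => ?_⟩, fun u v huv => ?_, lay, fun i => ?_, fun v hv => ?_⟩
  · have k1 := lay i v hv
    have k2 := lay j v (fun e => hv (hij.trans e))
    rw [← hij] at k2
    have k3 := k1.uniq k2
    refine (pc i).uniq i j v hv ?_
    rw [hij, k3]
  · obtain ⟨q, hq, k⟩ := exists_lay huv.2.1.2.1 huv.2.1.2.2
    obtain ⟨j, hj, e⟩ := (hN q hq).2.1 u v ⟨huv.1, ⟨huv.2.1.1, k⟩, huv.2.2.1, k.symm⟩
    refine ⟨j, ?_⟩
    rw [← (mem_cls.1 hj).2] at e
    exact e
  · have k1 := (hN _ (h1 i)).2.2.1 i (mem_cls.2 ⟨mem_univ _, rfl⟩)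
    rw [h2 _ (h1 i)] at k1
    have k2 : ∑ _v ∈ T, D ≤ ∑ v ∈ T, (dg (Gq G π T (s i)) v univ +
        ∑ q ∈ univ.filter (fun q => q ≠ (π v).2), (D - dg G v (cls T π (!(π v).1, q)))) := by
      refine sum_le_sum fun v hv => ?_
      have := single_le_sum (f := fun q => D - dg G v (cls T π (!(π v).1, q)))
        (fun _ _ => Nat.zero_le _)
        (mem_filter.2 ⟨mem_univ _, tgt_ne π (h1 i) v⟩ :
          tgt π (s i) v ∈ univ.filter (fun q => q ≠ (π v).2))
      rw [dg_Gq _ hv]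
      omega
    rw [sum_add_distrib, sum_const, smul_eq_mul, mul_comm] at k2
    apply Nat.le_of_mul_le_mul_left _ hD
    show D * (fx (N (s i) i) T).card ≤ D * (c + 2)
    rw [mul_add]
    omega
  · rw [← card_cls_sum _ s]
    have := sum_le_card_nsmul (univ : Finset (ZMod m)) (fun q => (cls (univ.filter
      (fun i => N (s i) i v ≠ v ∧ N (s i) i v ∈ X i)) s q).card) t (fun q _ => by
        by_cases hq : q = 0
        · rw [card_eq_zero.2]
          · exact Nat.zero_le _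
          · exact eq_empty_of_forall_notMem fun i hi => h1 i ((mem_cls.1 hi).2.trans hq)
        · refine le_trans (card_le_card fun i hi => ?_) ((hN q hq).2.2.2 v hv)
          obtain ⟨k1, k2⟩ := mem_cls.1 hi
          subst k2
          exact mem_filter.2 ⟨mem_cls.2 ⟨mem_univ _, rfl⟩, (mem_filter.1 k1).2⟩)
    simpa using this

lemma card_colours [NeZero m] (s : ι → ZMod m) (D : ℕ) (h1 : ∀ j, s j ≠ 0)
    (h2 : ∀ q, q ≠ 0 → (cls univ s q).card = D) (r : ZMod m) :
    Fintype.card ι = ∑ _q ∈ univ.filter (fun q => q ≠ r), D ∧ Fintype.card ι ≤ m * D := by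
  have k1 : Fintype.card ι = ∑ _q ∈ univ.filter (fun q : ZMod m => q ≠ 0), D := by
    rw [← card_univ, ← card_cls_sum univ s, sum_filter]
    refine sum_congr rfl fun q _ => ?_
    split_ifs with hq
    · exact h2 q hq
    · push Not at hq
      exact card_eq_zero.2 (eq_empty_of_forall_notMem fun i hi =>
        h1 i ((mem_cls.1 hi).2.trans hq))
  have k2 : ∀ r : ZMod m, (univ.filter (fun q : ZMod m => q ≠ r)).card = m - 1 := by
    intro r
    rw [filter_ne', card_erase_of_mem (mem_univ _), card_univ, ZMod.card]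
  rw [k1]
  simp only [sum_const, k2, smul_eq_mul, true_and]
  exact Nat.mul_le_mul_right _ (Nat.sub_le _ _)

end BipM

open BipM in
theorem bip_of (hK : KonStmt) (hE : EqStmt) (hP : PermStmt) (hF : FixaStmt) (hO : OrbStmt) :
    BipStmt := by
  intro m hm
  refine ⟨24 * m ^ 2 + 110 * m + 69, ?_⟩
  intro V ι _ _ _ _ G π T s X D η L e h1 h2 h3 h4 h5 h6 h7 h8 h9 h10 hp
  have : NeZero m := ⟨hm.out.ne_zero⟩
  obtain ⟨p0, p1, p2, p3, p4⟩ := hp
  have q1 : η ≤ L := by nlinarith
  have q2 : 0 < L := by omega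
  have q3 : 3 * L ≤ e := by nlinarith
  have q4 : e < (cls T π (true, 0)).card := (h7 0).lt_card
  have q5 : L < D := by have := h5 (true, 0); omega
  have q6 : e < T.card := q4.trans_le (card_le_card (cls_subset _ _ _))
  have q7 : T.card ≤ D * (6 * m) := by
    rw [← card_cls_sum T π]
    have := sum_le_card_nsmul (univ : Finset (Bool × ZMod m)) (fun p => (cls T π p).card)
      (3 * D) (fun p _ => by have := h5 p; omega)
    simp only [card_univ, Fintype.card_prod, Fintype.card_bool, ZMod.card, smul_eq_mul] at this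
    linarith
  have q8 : D ≤ 2 * T.card := by
    obtain ⟨v, hv⟩ := h6
    have k1 := (h3 v hv 0).2
    have k2 := (dg_le_card (G := G) v (cls T π (!(π v).1, 0))).trans
      (card_le_card (cls_subset _ _ _))
    omega
  have q9 : T.card * 3 ^ L < 2 ^ (η + 2 * L + 1) := by
    have k1 : 3 ^ L ≤ 2 ^ (2 * L) := by
      rw [pow_mul]; exact Nat.pow_le_pow_left (by norm_num) _
    calc T.card * 3 ^ L ≤ 2 ^ η * 2 ^ (2 * L) := Nat.mul_le_mul p4 k1
      _ = 2 ^ (η + 2 * L) := by rw [pow_add]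
      _ < _ := Nat.pow_lt_pow_right (by norm_num) (by omega)
  obtain ⟨M0, a1, a2, a3, a4, a5⟩ := first (G := G) (π := π) (T := T) hK hE hP s X D η L
    (η + 2 * L + 1) (6 * m * η) h1 h2 (fun v hv q => (h3 v hv q).1) h4 h9 q9 (by omega)
    (by nlinarith)
  have b1 : ∀ v ∈ T, Fintype.card ι = dg (G1 G π T) v univ +
      ∑ q ∈ univ.filter (fun q => q ≠ (π v).2), (D - dg G v (cls T π (!(π v).1, q))) := by
    intro v hv
    rw [(card_colours s D h1 h2 (π v).2).1, dg_G1 hv, ← sum_add_distrib]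
    exact sum_congr rfl fun q _ => by have := (h3 v hv q).1; omega
  have b2 : ∑ i, (fx (M0 i) T).card ≤ η * T.card := by
    have k1 := a1.sum_fx T
    rw [a1.cg_eq a2] at k1
    have k2 := sum_congr rfl b1
    rw [sum_add_distrib, sum_const, smul_eq_mul, mul_comm] at k2
    omega
  have b3 : ∀ v ∈ T, Fintype.card ι ≤ dg (G1 G π T) v univ + m * L := by
    intro v hv
    rw [b1 v hv]
    have k1 := sum_le_card_nsmul (univ.filter (fun q => q ≠ (π v).2))
      (fun q => D - dg G v (cls T π (!(π v).1, q))) L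
      (fun q _ => by have := (h3 v hv q).2; omega)
    have k2 : (univ.filter (fun q => q ≠ (π v).2)).card ≤ m := by
      simpa using card_le_univ (univ.filter (fun q => q ≠ (π v).2))
    have k3 := Nat.mul_le_mul_right L k2
    rw [smul_eq_mul] at k1
    omega
  have b4 : η * T.card + η * Fintype.card ι ≤ (2 * m + 1) * (η * T.card) := by
    have k1 := (card_colours s D h1 h2 0).2
    have k2 : Fintype.card ι ≤ m * (2 * T.card) := k1.trans (Nat.mul_le_mul_left _ q8)
    have k3 := Nat.mul_le_mul_left η k2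
    linarith
  have b5 : (2 * m + 6 + 2) * (η * T.card + η * Fintype.card ι) ≤
      (24 * m ^ 2 + 110 * m + 69) * η * T.card := by
    calc _ ≤ (2 * m + 6 + 2) * ((2 * m + 1) * (η * T.card)) := Nat.mul_le_mul_left _ b4
      _ = ((2 * m + 6 + 2) * (2 * m + 1)) * (η * T.card) := by ring
      _ ≤ (24 * m ^ 2 + 110 * m + 69) * (η * T.card) := Nat.mul_le_mul_right _ (by nlinarith)
      _ = _ := by ring
  have b6 : (2 * m + 6) * (η * T.card + η * Fintype.card ι) ≤
      (24 * m ^ 2 + 110 * m + 69) * η * T.card :=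
    le_trans (Nat.mul_le_mul_right _ (by omega)) b5
  have c1 : m * (η + 2 * L + 1) ≤ m * (4 * L) := Nat.mul_le_mul_left _ (by omega)
  have c2 : (2 * m + 6 + 1) * (6 * m * η + 2 + η) + η + 2 * L ≤
      (12 * m ^ 2 + 48 * m + 24) * L := by
    have k1 : 6 * m * η + 2 + η ≤ (6 * m + 3) * L := by
      have := Nat.mul_le_mul_left (6 * m) q1
      linarith
    have k2 := Nat.mul_le_mul_left (2 * m + 6 + 1) k1
    linarith
  have c3 : 3 * L + 2 * ((5 * m + 1) * L + (12 * m ^ 2 + 48 * m + 24) * L + 2 * m + 8) ≤ e := by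
    have k1 : (2 * m + 8) * 1 ≤ (2 * m + 8) * L := Nat.mul_le_mul_left _ q2
    linarith
  obtain ⟨M, r1, r2, r3, r4, r5, r6, r7⟩ := hF V ι G (G0 G π T) (G1 G π T) T X
    (fun j => Lay π (s j)) M0 (2 * m + 6) (6 * m * η + 2) (m * L) (η * T.card) η L
    (m * (η + 2 * L + 1)) L L ((5 * m + 1) * L) ((12 * m ^ 2 + 48 * m + 24) * L)
    (sub_le _) (sub_le _) (disjoint_iff_adj.2 fun u v k l => k.2.1.2.2 l.2.1.2.2)
    (fun u v k => k.2.1.1) a1 a2 a3 a4 b2 b3 h8 h9 a5 q2 (by rw [← sq]; exact b6.trans p2)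
    (by linarith) c2 (fun j => hO m V (G0 G π T) π (s j) (Lay π (s j)) T (T \ X j) _ _ (3 * L) e
      (h1 j) (fun u v k => k.2.1) (fun u v k => k) sdiff_subset (h10 j)
      (fun v hv p => by
        have k1 := h5 p
        have k2 := (h3 v hv (π v).2).2
        rw [dg_G0 hv]
        omega)
      (fun r => (h7 r).congr fun x hx hxT y hy k => by
        have k1 := (mem_cls.1 hx).2
        have k2 := mem_cls.1 hy
        refine ⟨k, ⟨hxT, ?_, ?_⟩, k2.1, ?_, ?_⟩ <;> simp [k1, k2.2]) c3)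
  have d1 : ∀ v, dg (cg M) v (cls univ (fun u => (π u).2) (π v).2) ≤
      dg (cg M ⊓ G0 G π T) v univ := fun v => dg_le_of fun u hu k => by
    refine ⟨mem_univ _, k, (r3 k).resolve_left fun l => l.2.2.2.2 (mem_cls.1 hu).2⟩
  have d2 : ∀ v ∈ T, dg (G \ cg M) v
      (T.filter (fun u => (π u).1 ≠ (π v).1 ∧ (π u).2 ≠ (π v).2)) ≤
      dg (G1 G π T \ cg M) v univ := fun v hv => dg_le_of fun u hu k => by
    obtain ⟨k1, k2, k3⟩ := mem_filter.1 hu
    exact ⟨mem_univ _, ⟨k.1, ⟨hv, k2.symm, k3.symm⟩, k1, k2, k3⟩, k.2⟩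
  refine ⟨M, r1, r2, fun u v k => (r3 k).elim (fun l => l.2.1.2.1) (fun l => l.2.1.2.1),
    fun v => (d1 v).trans ((r4 v).trans (Nat.mul_le_mul_right _ (by nlinarith))),
    (sum_le_sum fun v _ => d1 v).trans (r5.trans b6),
    fun v hv => (d2 v hv).trans ((r6 v).trans (by nlinarith)),
    (sum_le_sum d2).trans ((sum_le_sum_of_subset (subset_univ T)).trans (r7.trans b5))⟩

end Pool.Agent.MP_5c8b6d_co

end

section

/-! ENGA: the bookkeeping of the two phases of the engine. -/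

namespace Pool.Agent.MP_5c8b6d_co

open Finset

set_option linter.unusedSectionVars false

namespace Enga

variable {V : Type} [Fintype V] [DecidableEq V]

/-- removing the edges of a matching one by one -/
theorem bal_sdiff {G : SimpleGraph V} {Bal : Finset V → Prop}
    (hB : ∀ S u v, G.Adj u v → u ∈ S → v ∈ S → Bal S → Bal (S \ {u, v})) {μ : V → V}
    (h : ∀ v, μ (μ v) = v) (ha : ∀ v, μ v ≠ v → G.Adj v (μ v)) {S : Finset V} (hS : Bal S)
    (W : Finset V) (h1 : W ⊆ S) (h2 : ∀ v ∈ W, μ v ∈ W ∧ μ v ≠ v) : Bal (S \ W) := by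
  induction W using Finset.strongInduction with
  | H W ih =>
    rcases W.eq_empty_or_nonempty with rfl | ⟨u, hu⟩
    · simpa using hS
    have hv := h2 u hu
    have h3 := ih (W \ {u, μ u}) (sdiff_ssubset (by simp [insert_subset_iff, hu, hv.1]) (by simp))
      (sdiff_subset.trans h1) (fun v a => by
        simp only [mem_sdiff, mem_insert, mem_singleton, not_or] at a ⊢
        refine ⟨⟨(h2 v a.1).1, fun k => a.2.2 (by rw [← k, h]), fun k => a.2.1 (inv_inj h k)⟩,
          (h2 v a.1).2⟩)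
    have h4 := hB _ u (μ u) (ha u hv.2) (by simp [h1 hu]) (by simp [h1 hv.1]) h3
    convert h4 using 1
    ext x
    simp only [mem_sdiff, mem_insert, mem_singleton, not_or, not_and, not_not]
    constructor
    · rintro ⟨a, b⟩
      exact ⟨⟨a, fun c => absurd c b⟩, fun c => b (c ▸ hu), fun c => b (c ▸ hv.1)⟩
    · rintro ⟨⟨a, b⟩, c, d⟩
      exact ⟨a, fun e => d (b e c)⟩

theorem swap_ne {a b v : V} (h : Equiv.swap a b v ≠ v) :
    (v = a ∧ Equiv.swap a b v = b) ∨ (v = b ∧ Equiv.swap a b v = a) := by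
  by_cases h1 : v = a
  · exact Or.inl ⟨h1, by rw [h1, Equiv.swap_apply_left]⟩
  by_cases h2 : v = b
  · exact Or.inr ⟨h2, by rw [h2, Equiv.swap_apply_right]⟩
  exact absurd (Equiv.swap_apply_of_ne_of_ne h1 h2) h

/-- pairing the edges inside the two sides -/
theorem bundles (H : SimpleGraph V) (σ : V → Bool) (hH : ∀ u v, H.Adj u v → σ u = σ v)
    (he : ∑ v ∈ cls univ σ true, dg H v univ = ∑ v ∈ cls univ σ false, dg H v univ) :
    ∃ (𝒦 : Finset (V × V)) (ν : V × V → V → V), (∀ g ∈ 𝒦, ∀ v, ν g (ν g v) = v) ∧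
      (∀ g ∈ 𝒦, ∀ v, ν g v ≠ v → H.Adj v (ν g v)) ∧
      (∀ g ∈ 𝒦, ∀ b, (cls (mv (ν g)) σ b).card = 2) ∧
      (∀ g ∈ 𝒦, ∀ g' ∈ 𝒦, ∀ v, ν g v ≠ v → ν g v = ν g' v → g = g') ∧
      (∀ u v, H.Adj u v → ∃ g ∈ 𝒦, ν g u = v) ∧ 4 * 𝒦.card = ∑ v, dg H v univ := by
  let Hb : Bool → SimpleGraph V := fun b => sub H fun u _ => σ u = b
  have hd : ∀ b, ∑ v ∈ cls univ σ b, dg H v univ = 2 * (oe (Hb b)).card := fun b => by
    rw [← sum_dg_eq_oe, ← sum_subset (f := fun v => dg (Hb b) v univ)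
      (subset_univ (cls univ σ b)) fun v _ hv =>
      dg_eq_zero.2 fun u _ k => hv (mem_cls.2 ⟨mem_univ _, k.2.1⟩)]
    refine sum_congr rfl fun v hv => dg_congr fun u => ?_
    have := (mem_cls.1 hv).2
    simp only [Hb, sub_adj, mem_univ, true_and]
    exact ⟨fun k => ⟨k, this, (hH _ _ k).symm.trans this⟩, fun k => k.1⟩
  have hc : (oe (Hb true)).card = (oe (Hb false)).card := by
    have := hd true; have := hd false; omega
  let e := Finset.equivOfCardEq hc
  let f : V × V → V × V := fun g => if h : g ∈ oe (Hb true) then (e ⟨g, h⟩).1 else g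
  have f1 : ∀ g ∈ oe (Hb true), f g ∈ oe (Hb false) := fun g h => by
    simp only [f, dif_pos h]; exact (e ⟨g, h⟩).2
  have f2 : ∀ g ∈ oe (Hb true), ∀ g' ∈ oe (Hb true), f g = f g' → g = g' := fun g h g' h' k => by
    simp only [f, dif_pos h, dif_pos h'] at k
    exact congrArg Subtype.val (e.injective (Subtype.ext k))
  have f3 : ∀ p ∈ oe (Hb false), ∃ g ∈ oe (Hb true), f g = p := fun p h =>
    ⟨(e.symm ⟨p, h⟩).1, (e.symm ⟨p, h⟩).2, by simp [f, (e.symm ⟨p, h⟩).2]⟩
  have o1 : ∀ b, ∀ g ∈ oe (Hb b), H.Adj g.1 g.2 ∧ σ g.1 = b ∧ σ g.2 = b := fun b g h =>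
    (mem_oe.1 h).1
  have m1 : ∀ b, ∀ g ∈ oe (Hb b), mv (Equiv.swap g.1 g.2) = {g.1, g.2} := fun b g h =>
    mv_swap (o1 b g h).1.ne
  have dj : ∀ g ∈ oe (Hb true),
      Disjoint (mv (Equiv.swap g.1 g.2)) (mv (Equiv.swap (f g).1 (f g).2)) := fun g h => by
    rw [m1 _ g h, m1 _ _ (f1 g h), disjoint_left]
    intro x a b
    have := o1 _ g h
    have := o1 _ _ (f1 g h)
    simp only [mem_insert, mem_singleton] at a b
    rcases a with rfl | rfl <;> rcases b with b | b <;> simp_all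
  let ν : V × V → V → V := fun g => glue (Equiv.swap g.1 g.2) (Equiv.swap (f g).1 (f g).2)
  have key : ∀ g ∈ oe (Hb true), ∀ v, ν g v ≠ v →
      (σ v = true ∧ ((v, ν g v) = g ∨ (ν g v, v) = g)) ∨
      (σ v = false ∧ ((v, ν g v) = f g ∨ (ν g v, v) = f g)) := fun g h v k => by
    have a1 := o1 _ g h
    have a2 := o1 _ _ (f1 g h)
    by_cases c : Equiv.swap g.1 g.2 v = v
    · have c2 : ν g v = Equiv.swap (f g).1 (f g).2 v := glue_right c
      rw [c2] at k ⊢
      rcases swap_ne k with ⟨x, y⟩ | ⟨x, y⟩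
      · exact Or.inr ⟨x ▸ a2.2.1, Or.inl (Prod.ext x y)⟩
      · exact Or.inr ⟨x ▸ a2.2.2, Or.inr (Prod.ext y x)⟩
    · have c2 : ν g v = Equiv.swap g.1 g.2 v := glue_left c
      rw [c2]
      rcases swap_ne c with ⟨x, y⟩ | ⟨x, y⟩
      · exact Or.inl ⟨x ▸ a1.2.1, Or.inl (Prod.ext x y)⟩
      · exact Or.inl ⟨x ▸ a1.2.2, Or.inr (Prod.ext y x)⟩
  have un : ∀ (b : Bool) (p p' : V × V) (x y : V), p ∈ oe (Hb b) → p' ∈ oe (Hb b) →
      ((x, y) = p ∨ (y, x) = p) → ((x, y) = p' ∨ (y, x) = p') → p = p' := by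
    rintro b p p' x y h h' (rfl | rfl) (rfl | rfl)
    exacts [rfl, absurd h' (oe_not_both h), absurd h' (oe_not_both h), rfl]
  refine ⟨oe (Hb true), ν, fun g h => glue_inv (Equiv.swap_apply_self _ _)
    (Equiv.swap_apply_self _ _) (dj g h), fun g h v k => ?_, fun g h b => ?_,
    fun g h g' h' v k l => ?_, fun u v k => ?_, ?_⟩
  · have a1 := (o1 _ g h).1
    have a2 := (o1 _ _ (f1 g h)).1
    rcases key g h v k with ⟨-, c | c⟩ | ⟨-, c | c⟩
    · rw [← c] at a1; exact a1
    · rw [← c] at a1; exact a1.symm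
    · rw [← c] at a2; exact a2
    · rw [← c] at a2; exact a2.symm
  · have a1 := o1 _ g h
    have a2 := o1 _ _ (f1 g h)
    have : cls (mv (ν g)) σ b = if b then {g.1, g.2} else {(f g).1, (f g).2} := by
      rw [mv_glue, m1 _ g h, m1 _ _ (f1 g h)]
      ext x
      cases b <;> simp only [mem_cls, mem_union, mem_insert, mem_singleton, if_true,
        Bool.false_eq_true, if_false]
      · refine ⟨?_, ?_⟩
        · rintro ⟨(rfl | rfl) | c, d⟩
          · simp [a1.2.1] at d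
          · simp [a1.2.2] at d
          · exact c
        · rintro (rfl | rfl)
          exacts [⟨Or.inr (Or.inl rfl), a2.2.1⟩, ⟨Or.inr (Or.inr rfl), a2.2.2⟩]
      · refine ⟨?_, ?_⟩
        · rintro ⟨c | rfl | rfl, d⟩
          · exact c
          · simp [a2.2.1] at d
          · simp [a2.2.2] at d
        · rintro (rfl | rfl)
          exacts [⟨Or.inl (Or.inl rfl), a1.2.1⟩, ⟨Or.inl (Or.inr rfl), a1.2.2⟩]
    rw [this]
    cases b
    · exact card_pair a2.1.ne
    · exact card_pair a1.1.ne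
  · have k' := key g' h' v (l ▸ k)
    rw [← l] at k'
    rcases key g h v k with ⟨c, d⟩ | ⟨c, d⟩ <;> rcases k' with ⟨c', d'⟩ | ⟨c', d'⟩
    · exact un _ _ _ _ _ h h' d d'
    · simp [c] at c'
    · simp [c] at c'
    · exact f2 g h g' h' (un _ _ _ _ _ (f1 g h) (f1 g' h') d d')
  · have k1 : (Hb (σ u)).Adj u v := ⟨k, rfl, (hH _ _ k).symm⟩
    have s1 : Equiv.swap u v u ≠ u := by rw [Equiv.swap_apply_left]; exact k.ne.symm
    have s2 : Equiv.swap v u u ≠ u := by rw [Equiv.swap_apply_right]; exact k.ne.symm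
    cases hb : σ u <;> rw [hb] at k1 <;> rcases oe_or k1 with c | c
    · obtain ⟨g, h, l⟩ := f3 _ c
      refine ⟨g, h, (glue_right' (dj g h) (by rw [l]; exact s1)).trans ?_⟩
      rw [l]; exact Equiv.swap_apply_left _ _
    · obtain ⟨g, h, l⟩ := f3 _ c
      refine ⟨g, h, (glue_right' (dj g h) (by rw [l]; exact s2)).trans ?_⟩
      rw [l]; exact Equiv.swap_apply_right _ _
    · exact ⟨_, c, (glue_left s1).trans (Equiv.swap_apply_left _ _)⟩
    · exact ⟨_, c, (glue_left s2).trans (Equiv.swap_apply_right _ _)⟩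
  · have := sum_cls_bool univ σ fun v => dg H v univ
    have := hd true; omega

theorem cls_sdiff_add {S W : Finset V} (h : W ⊆ S) (σ : V → Bool) (b : Bool) :
    (cls (S \ W) σ b).card + (cls W σ b).card = (cls S σ b).card := by
  rw [← card_union_of_disjoint (disjoint_left.2 fun x a c =>
    (mem_sdiff.1 (mem_cls.1 a).1).2 (mem_cls.1 c).1)]
  congr 1; ext x
  simp only [mem_union, mem_cls, mem_sdiff]
  by_cases k : x ∈ W
  · simp [k, h k]
  · simp [k]

theorem inter_cls {S T : Finset V} (h : S ⊆ T) (σ : V → Bool) (b : Bool) :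
    S ∩ cls T σ b = cls S σ b := by
  ext x; simp only [mem_inter, mem_cls]
  exact ⟨fun k => ⟨k.1, k.2.2⟩, fun k => ⟨k.1, h k.1, k.2⟩⟩

end Enga

open Enga in
theorem enga_of (hP : PreStmt) (hB : PlbStmt) : EngaStmt := by
  intro V ι₁ ι₂ _ _ _ _ _ _ G σ T Y Bal η L o d p1 p2 q τ hBal hBY hEv hne hd hside hY hld hEq
    hL hLo hdd hq hτ H1 H2
  -- the larger side and half of the difference
  let A : ι₂ → Bool → ℕ := fun j b => (cls (T \ Y (Sum.inr j)) σ b).card
  let bg : ι₂ → Bool := fun j => decide (A j false ≤ A j true)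
  let m : ι₂ → ℕ := fun j => (A j (bg j) - A j (!bg j)) / 2
  have hA : ∀ j b, A j b ≤ A j (!b) + 2 * η := fun j b => by
    have h1 : A j b ≤ (cls T σ b).card := card_le_card fun x a =>
      mem_cls.2 ⟨(mem_sdiff.1 (mem_cls.1 a).1).1, (mem_cls.1 a).2⟩
    have h2 : (cls T σ (!b)).card ≤ A j (!b) + (Y (Sum.inr j)).card :=
      le_trans (card_le_card fun x a => by
        simp only [mem_union, mem_cls, mem_sdiff] at a ⊢; tauto) (card_union_le _ _)
    have := hside b
    have := hY (Sum.inr j)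
    omega
  have hm : ∀ j, A j (bg j) = A j (!bg j) + 2 * m j := fun j => by
    have h1 := card_cls_bool (T \ Y (Sum.inr j)) σ (bg j)
    obtain ⟨c, hc⟩ := hEv j
    have h2 : A j (!bg j) ≤ A j (bg j) := by
      by_cases h : A j false ≤ A j true
      · simp [bg, h]
      · simpa [bg, h] using (not_le.1 h).le
    simp only [m, A] at h1 h2 ⊢
    omega
  have hmη : ∀ j, m j ≤ η := fun j => by have := hm j; have := hA j (bg j); omega
  obtain ⟨N0, pN, sN, cN, dN⟩ := hP V ι₂ G (fun j => cls T σ (bg j)) (fun j => Y (Sum.inr j)) m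
    η o L d (fun j => hne _) (fun j v hv => by
      have := hd v (mem_cls.1 hv).1
      rwa [(mem_cls.1 hv).2] at this) hmη (fun j => hY _) hL hLo hdd
  have sN' : ∀ j v, N0 j v ≠ v → v ∈ T ∧ σ v = bg j ∧ v ∉ Y (Sum.inr j) := fun j v h => by
    have := sN j (mem_mv.2 h)
    simp only [mem_sdiff, mem_cls] at this
    tauto
  have nσ : ∀ u v, (cg N0).Adj u v → σ u = σ v := by
    rintro u v ⟨a, j, b, c⟩
    exact (sN' j u (by rw [b]; exact a.symm)).2.1.trans (sN' j v (by rw [c]; exact a)).2.1.symm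
  have nT : ∀ u v, (cg N0).Adj u v → v ∈ T := by
    rintro u v ⟨a, j, b, c⟩
    exact (sN' j v (by rw [c]; exact a)).1
  have mT : ∀ j, mv (N0 j) ⊆ T \ Y (Sum.inr j) := fun j v h =>
    mem_sdiff.2 ⟨(sN' j v (mem_mv.1 h)).1, (sN' j v (mem_mv.1 h)).2.2⟩
  have hbal0 : ∀ j, A j true + (cls (mv (N0 j)) σ false).card =
      A j false + (cls (mv (N0 j)) σ true).card := fun j => by
    have h1 := card_cls_bool (mv (N0 j)) σ (bg j)
    have h2 : (cls (mv (N0 j)) σ (!bg j)).card = 0 := card_eq_zero.2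
      (eq_empty_of_forall_notMem fun x a => by
        have := (sN' j x (mem_mv.1 (mem_cls.1 a).1)).2.1
        have := (mem_cls.1 a).2
        simp_all)
    have h3 := hm j
    have h4 := cN j
    cases hb : bg j <;> simp only [hb, Bool.not_true, Bool.not_false] at h1 h2 h3 <;> omega
  obtain ⟨M1, p1M, mM1, c1, c2, r1, r2⟩ := H1 (cg N0) pN.cg_le nσ dN (by
    rw [← pN.sum_mv]
    calc ∑ j, (mv (N0 j) ∩ univ).card ≤ ∑ _j : ι₂, 2 * η := sum_le_sum fun j _ => by
          rw [inter_univ, cN]; have := hmη j; omega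
      _ = _ := by simp [mul_comm])
  have m1T : ∀ u v, (cg M1).Adj u v → v ∈ T := by
    rintro u v ⟨a, i, b, c⟩
    have : v ∈ mv (M1 i) := mem_mv.2 (by rw [c]; exact a)
    rw [mM1] at this
    exact (mem_sdiff.1 this).1
  -- the inside edges that are left
  let R : SimpleGraph V := (G \ cg N0) \ cg M1
  let H : SimpleGraph V := sub R fun u v => u ∈ T ∧ σ u = σ v
  have hHd : ∀ v ∈ T, dg H v univ = dg R v (cls T σ (σ v)) := fun v hv => dg_congr fun u => by
    simp only [H, sub_adj, mem_univ, true_and, mem_cls]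
    exact ⟨fun k => ⟨k.2.2, k.1⟩, fun k => ⟨k.2, ⟨hv, k.1.2.symm⟩, k.1⟩⟩
  have hH0 : ∀ v, v ∉ T → dg H v univ = 0 := fun v hv => dg_eq_zero.2 fun u _ k => hv k.2.1.1
  have hHp : ∀ v, dg H v univ ≤ p1 := fun v => by
    by_cases hv : v ∈ T
    · rw [hHd v hv]; exact r1 v hv
    · rw [hH0 v hv]; exact Nat.zero_le _
  have hHb : ∀ b, ∑ v ∈ cls univ σ b, dg H v univ = ∑ v ∈ cls T σ b, dg R v (cls T σ b) :=
    fun b => by
    rw [← sum_subset (s₁ := cls T σ b) (fun x a => mem_cls.2 ⟨mem_univ _, (mem_cls.1 a).2⟩)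
      fun v a c => hH0 v fun k => c (mem_cls.2 ⟨k, (mem_cls.1 a).2⟩)]
    exact sum_congr rfl fun v hv => by rw [hHd v (mem_cls.1 hv).1, (mem_cls.1 hv).2]
  have hcount : ∀ b, ∑ v ∈ cls T σ b, dg G v (cls T σ b) + ∑ v ∈ cls T σ b,
      dg (cg M1) v (cls T σ (!b)) = ∑ v ∈ cls T σ b, dg R v (cls T σ b) +
      ∑ i, (cls (T \ Y (Sum.inl i)) σ b).card + ∑ j, (cls (mv (N0 j)) σ b).card := fun b => by
    have h1 := p1M.sum_mv (cls T σ b)
    have h2 := pN.sum_mv (cls T σ b)
    simp only [mM1, inter_cls sdiff_subset] at h1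
    simp only [fun j => inter_cls ((mT j).trans sdiff_subset) σ b] at h2
    rw [h1, h2, ← sum_add_distrib, ← sum_add_distrib, ← sum_add_distrib]
    refine sum_congr rfl fun v hv => ?_
    have e1 := dg_sdiffG_add pN.cg_le v (cls T σ b)
    have e2 := dg_sdiffG_add p1M.cg_le v (cls T σ b)
    have e3 := dg_cls_bool (G := cg M1) v T σ b
    have e4 : dg (cg M1) v univ = dg (cg M1) v T := dg_congr fun u =>
      ⟨fun k => ⟨m1T _ _ k.2, k.2⟩, fun k => ⟨mem_univ _, k.2⟩⟩
    have e5 : dg (cg N0) v univ = dg (cg N0) v (cls T σ b) := dg_congr fun u =>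
      ⟨fun k => ⟨mem_cls.2 ⟨nT _ _ k.2, (nσ _ _ k.2).symm.trans (mem_cls.1 hv).2⟩, k.2⟩,
        fun k => ⟨mem_univ _, k.2⟩⟩
    simp only [R]
    omega
  obtain ⟨𝒦, ν, k1, k2, k3, k4, k5, k6⟩ := bundles H σ (fun u v k => k.2.1.2) (by
    have h1 := hcount true
    have h2 := hcount false
    have h3 := sum_dg_comm (G := cg M1) (cls T σ true) (cls T σ false)
    have h4 : ∑ j, A j true + ∑ j, (cls (mv (N0 j)) σ false).card =
        ∑ j, A j false + ∑ j, (cls (mv (N0 j)) σ true).card := by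
      rw [← sum_add_distrib, ← sum_add_distrib]; exact sum_congr rfl fun j _ => hbal0 j
    unfold BalEq at hEq
    rw [Fintype.sum_sum_type, Fintype.sum_sum_type] at hEq
    rw [hHb, hHb]
    simp only [Bool.not_true, Bool.not_false, A] at h1 h2 h4
    omega)
  have k7 : ∀ g ∈ 𝒦, (mv (ν g)).card = 4 := fun g h => by
    have := card_cls_bool (mv (ν g)) σ true
    rw [k3 g h, k3 g h] at this; omega
  have k8 : ∀ v, (𝒦.filter fun g => v ∈ mv (ν g)).card ≤ p1 := fun v => by
    refine le_trans (card_le_card_of_injOn (t := nb H v univ) (fun g => ν g v) (fun g h => ?_)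
      fun g h g' h' e => ?_) (hHp v)
    · have := mem_filter.1 (mem_coe.1 h)
      exact mem_coe.2 (mem_nb.2 ⟨mem_univ _, k2 g this.1 v (mem_mv.1 this.2)⟩)
    · have a := mem_filter.1 (mem_coe.1 h)
      exact k4 g a.1 g' (mem_filter.1 (mem_coe.1 h')).1 v (mem_mv.1 a.2) e
  have hld2 : ∀ v, ld (fun j => Y (Sum.inr j)) v ≤ η := fun v =>
    (ld_comp_le Y Sum.inr_injective v).trans (hld v)
  have : Nonempty ι₂ := Fintype.card_pos_iff.1 (by omega)
  obtain ⟨ψ, col, pψ, eψ, l1, l2, l3, l4⟩ := hB V ι₂ (V × V) G N0 𝒦 ν univ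
    (fun j => Y (Sum.inr j)) (fun _ => 1) 1 q τ pN k1
    (fun g h v k => by
      have := (k2 g h v k).1
      exact ⟨this.1.1, fun i e => this.1.2 (e ▸ pN.cg_of (e ▸ k))⟩)
    (fun g h => (k7 g h).le) k4
    (fun g h => by
      have h1 : ∑ v ∈ mv (ν g), (𝒦.filter fun g' => v ∈ mv (ν g')).card ≤ 4 * p1 := by
        refine (sum_le_card_nsmul _ _ p1 fun v _ => k8 v).trans ?_
        rw [k7 g h, smul_eq_mul]
      have h2 := card_filter_add_card_filter_not (s := (univ : Finset ι₂))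
        (fun i => ∀ v ∈ mv (ν g), N0 i v = v ∧ v ∉ Y (Sum.inr i))
      have h3 : (univ.filter fun i => ¬ ∀ v ∈ mv (ν g), N0 i v = v ∧ v ∉ Y (Sum.inr i)).card ≤
          4 * (L + η) := by
        refine (card_le_card (t := (mv (ν g)).biUnion fun v =>
          (univ.filter fun i => N0 i v ≠ v) ∪ univ.filter fun i => v ∈ Y (Sum.inr i))
          fun i hi => ?_).trans (card_biUnion_le.trans ?_)
        · simp only [mem_filter, mem_univ, true_and, not_forall] at hi
          obtain ⟨v, a, b⟩ := hi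
          refine mem_biUnion.2 ⟨v, a, ?_⟩
          simp only [mem_union, mem_filter, mem_univ, true_and]
          tauto
        · refine (sum_le_card_nsmul _ _ (L + η) fun v _ => (card_union_le _ _).trans
            (add_le_add (pN.dg_cg v ▸ dN v) (hld2 v))).trans ?_
          rw [k7 g h, smul_eq_mul]
      rw [card_univ] at h2
      omega)
    (fun _ => le_rfl)
    (by
      have h1 : ∑ g ∈ 𝒦, ∑ _v ∈ mv (ν g), 1 = 4 * 𝒦.card := by
        rw [sum_congr rfl fun g h => by rw [sum_const, smul_eq_mul, mul_one, k7 g h]]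
        simp [mul_comm]
      have h2 : ∑ v, dg H v univ ≤ p2 := by
        rw [← sum_subset (subset_univ T) fun v _ hv => hH0 v hv, sum_congr rfl hHd]
        exact r2
      omega)
  -- the edges of the new colouring
  have eψ' : ∀ j v, ψ j v ≠ v → (cg N0).Adj v (ψ j v) ∨ H.Adj v (ψ j v) := fun j v h => by
    by_cases c : N0 j v = v
    · obtain ⟨g, a, rfl, b⟩ := l2 j v h c
      rw [((l1 g a).2 v b).1]
      exact Or.inr (k2 g a v (mem_mv.1 b))
    · rw [eψ j v c]; exact Or.inl (pN.cg_of c)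
  have cψ : ∀ u v, (cg ψ).Adj u v → σ u = σ v ∧ ¬ (cg M1).Adj u v := fun u v h => by
    obtain ⟨a, j, rfl⟩ := (cg_adj pψ.inv).1 h
    rcases eψ' j u a.symm with c | c
    · exact ⟨nσ _ _ c, fun k => (p1M.cg_le k).2 c⟩
    · exact ⟨c.2.1.2, c.1.2⟩
  have mψ : ∀ j, mv (ψ j) ⊆ T \ Y (Sum.inr j) := fun j v h => by
    by_cases c : N0 j v = v
    · obtain ⟨g, a, rfl, b⟩ := l2 j v (mem_mv.1 h) c
      exact mem_sdiff.2 ⟨(k2 g a v (mem_mv.1 b)).2.1.1, ((l1 g a).2 v b).2.2⟩
    · exact mT j (mem_mv.2 c)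
  have hX : ∀ j, T \ (Y (Sum.inr j) ∪ mv (ψ j)) = (T \ Y (Sum.inr j)) \ mv (ψ j) := fun j => by
    ext x; simp only [mem_sdiff, mem_union, not_or, and_assoc]
  obtain ⟨M2, p2M, mM2, cM2⟩ := H2 (cg M1) (p1M.cg_le.trans sdiff_le) c1 c2
    (fun j => Y (Sum.inr j) ∪ mv (ψ j))
    (fun j => by
      have h1 := l4 j
      have h2 := card_union_le (Y (Sum.inr j)) (mv (ψ j))
      have h3 := hY (Sum.inr j)
      have h4 := cN j
      have h5 := hmη j
      simp only [sum_const, smul_eq_mul, mul_one] at h1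
      omega)
    (fun v => by
      have h1 : ld (fun j => Y (Sum.inr j) ∪ mv (ψ j)) v ≤ ld (fun j => Y (Sum.inr j)) v +
          ((univ.filter fun j => N0 j v ≠ v).card +
            ((𝒦.filter fun g => v ∈ mv (ν g)).image col).card) := by
        refine le_trans (card_le_card fun j hj => ?_) ((card_union_le _ _).trans
          (Nat.add_le_add_left (card_union_le _ _) _))
        simp only [mem_filter, mem_univ, true_and, mem_union, mem_image] at hj ⊢
        rcases hj with hj | hj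
        · exact Or.inl hj
        by_cases c : N0 j v = v
        · obtain ⟨g, a, b, e⟩ := l2 j v (mem_mv.1 hj) c
          exact Or.inr (Or.inr ⟨g, ⟨a, e⟩, b⟩)
        · exact Or.inr (Or.inl c)
      have h2 := hld2 v
      have h3 := dN v
      have h4 := (card_image_le (f := col)).trans (k8 v)
      rw [pN.dg_cg] at h3
      omega)
    (fun j => by
      rw [hX]
      exact bal_sdiff hBal (pψ.inv j) (pψ.adj j) (hBY j) _ (mψ j) fun v h =>
        ⟨mem_mv.2 (inv_ne (pψ.inv j) (mem_mv.1 h)), mem_mv.1 h⟩)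
    (fun j => by
      rw [hX]
      have h1 : ∀ b, (cls (mv (ψ j) \ mv (N0 j)) σ b).card =
          2 * (𝒦.filter fun g => col g = j).card := fun b => by
        have : cls (mv (ψ j) \ mv (N0 j)) σ b =
            (𝒦.filter fun g => col g = j).biUnion fun g => cls (mv (ν g)) σ b := by
          ext x
          simp only [mem_cls, mem_sdiff, mem_biUnion, mem_filter]
          constructor
          · rintro ⟨⟨a, c⟩, e⟩
            obtain ⟨g, x1, x2, x3⟩ := l2 j x (mem_mv.1 a) (by simpa using c)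
            exact ⟨g, ⟨x1, x2⟩, x3, e⟩
          · rintro ⟨g, ⟨a, rfl⟩, c, e⟩
            have := (l1 g a).2 x c
            exact ⟨⟨mem_mv.2 (this.1 ▸ mem_mv.1 c), by simpa using this.2.1⟩, e⟩
        rw [this, card_biUnion fun g a g' a' c => (l3 g (mem_filter.1 a).1 g' (mem_filter.1 a').1 c
          ((mem_filter.1 a).2.trans (mem_filter.1 a').2.symm)).mono (cls_subset _ _ _)
          (cls_subset _ _ _), sum_congr rfl fun g a => k3 g (mem_filter.1 a).1 b]
        simp [mul_comm]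
      have h2 := fun b => cls_sdiff_add (eψ.mv_subset j) σ b
      have h3 := fun b => cls_sdiff_add (mψ j) σ b
      have h4 := hbal0 j
      have := h1 true; have := h1 false; have := h2 true; have := h2 false
      have := h3 true; have := h3 false
      simp only [A] at h4
      omega)
  have hs : ∀ j, Disjoint (mv (ψ j)) (mv (M2 j)) := fun j => by
    rw [mM2, hX]; exact disjoint_sdiff
  have pG := pψ.glue (p2M.mono sdiff_le)
    (disjoint_iff_adj.2 fun u v a b => cM2 u v b (cψ u v a).1) hs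
  refine ⟨Sum.elim M1 fun j => glue (ψ j) (M2 j), (p1M.mono sdiff_le).sum pG
    (disjoint_iff_adj.2 fun u v a b => ?_), ?_, fun u hu v hv a b => ?_⟩
  · rcases cg_glue_le pψ.inv p2M.inv b with c | c
    · exact (cψ u v c).2 a
    · exact (p2M.cg_le c).2 a
  · rintro (i | j)
    · exact mM1 i
    · rw [Sum.elim_inr, mv_glue, mM2, hX]
      exact union_sdiff_of_subset (mψ j)
  · by_cases c1 : (cg N0).Adj u v
    · obtain ⟨x, j, rfl⟩ := (cg_adj pN.inv).1 c1
      have := eψ j u x.symm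
      exact ⟨Sum.inr j, (glue_left (by rw [this]; exact x.symm)).trans this⟩
    by_cases c2 : (cg M1).Adj u v
    · obtain ⟨-, i, x⟩ := (cg_adj p1M.inv).1 c2
      exact ⟨Sum.inl i, x⟩
    obtain ⟨g, x, rfl⟩ := k5 u v ⟨⟨⟨a, c1⟩, c2⟩, ⟨hu, b⟩, hv, b.symm⟩
    have := ((l1 g x).2 u (mem_mv.2 a.ne.symm)).1
    exact ⟨Sum.inr (col g), (glue_left (by rw [this]; exact a.ne.symm)).trans this⟩

end Pool.Agent.MP_5c8b6d_co

end

end MrgPart0

-- ======== part 1: formerly Pool.Agent.MP_5c8b6d_co.MI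
section MrgPart1

section

/-! TRI1: the three part parity problem with one tight parity and a large pool. -/

namespace Pool.Agent.MP_5c8b6d_co

open Finset

set_option linter.unusedSectionVars false

namespace Tri1

variable {V ι : Type} [Fintype V] [DecidableEq V] [Fintype ι] [DecidableEq ι]

/-- the pool has at most half of its ends in `X` -/
theorem sum_X_le {P : SimpleGraph V} {X : Finset V} {n : ℕ}
    (h : ∀ u v, P.Adj u v → u ∉ X ∨ v ∉ X) (hn : ∑ v, dg P v univ = 2 * n) :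
    ∑ v ∈ X, dg P v univ ≤ n := by
  have h1 : ∑ v ∈ X, dg P v univ = ∑ v ∈ X, dg P v Xᶜ :=
    sum_congr rfl fun v hv => dg_congr fun u => by
      simp only [mem_univ, true_and, mem_compl]
      exact ⟨fun a => ⟨(h v u a).resolve_left (not_not.2 hv), a⟩, fun a => a.2⟩
  have h2 : ∑ v ∈ Xᶜ, dg P v X ≤ ∑ v ∈ Xᶜ, dg P v univ := sum_le_sum fun v _ => dg_le_univ _ _
  have h3 := sum_dg_comm (G := P) X Xᶜ
  have h4 := sum_add_sum_compl X (fun v => dg P v univ)
  omega

/-- the total weight seen by a family of edges -/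
theorem wsum {H P : SimpleGraph V} {X : Finset V} {k g n l a c : ℕ} (m : V → ℕ)
    (hm : ∀ v, m v ≤ dg H v univ) (hs : ∀ v, v ∉ X → dg H v univ ≤ g)
    (ht : ∑ v, dg H v univ ≤ 6 * g * k) (hn : ∑ v, dg P v univ = 2 * n) (hl : n ≤ 2 * l * k)
    (hX : ∀ v ∈ X, a * m v ≤ c) :
    a * ∑ v, m v * (dg P v univ + l) ≤ c * ∑ v ∈ X, dg P v univ + a * (10 * (g * l) * k) := by
  have h1 : ∑ v, m v * (dg P v univ + l) = ∑ v ∈ X, m v * dg P v univ +
      ∑ v ∈ Xᶜ, m v * dg P v univ + (∑ v, m v) * l := by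
    rw [sum_add_sum_compl, sum_mul, ← sum_add_distrib]
    exact sum_congr rfl fun v _ => mul_add _ _ _
  have h2 : a * ∑ v ∈ X, m v * dg P v univ ≤ c * ∑ v ∈ X, dg P v univ := by
    rw [mul_sum, mul_sum]
    exact sum_le_sum fun v hv => by
      rw [← mul_assoc]; exact Nat.mul_le_mul_right _ (hX v hv)
  have h3 : ∑ v ∈ Xᶜ, m v * dg P v univ ≤ g * (2 * n) := by
    rw [← hn, mul_sum]
    refine le_trans (sum_le_sum fun v hv => Nat.mul_le_mul_right _
      ((hm v).trans (hs v (mem_compl.1 hv)))) ?_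
    exact sum_le_sum_of_subset (f := fun v => g * dg P v univ) (subset_univ _)
  have h4 : (∑ v, m v) * l ≤ 6 * g * k * l :=
    Nat.mul_le_mul_right _ ((sum_le_sum fun v _ => hm v).trans ht)
  have h5 : g * (2 * n) ≤ g * (2 * (2 * l * k)) := by gcongr
  have h6 : ∑ v ∈ Xᶜ, m v * dg P v univ + (∑ v, m v) * l ≤ 10 * (g * l) * k := by
    have : g * (2 * (2 * l * k)) + 6 * g * k * l = 10 * (g * l) * k := by ring
    omega
  rw [h1, add_assoc, mul_add]
  exact Nat.add_le_add h2 (Nat.mul_le_mul_left _ h6)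

/-- a small set of colours that contains many common free colours -/
theorem split (hQ : PartStmt) (ψ : ι → V → V) (X : Finset V)
    (hf : ∀ u v, Fintype.card ι ≤ 20 * fr ψ univ u v + 20) (hk : 3200 ≤ Fintype.card ι)
    (he : (100000000 * (X.card + 1) ^ 2 : ℝ) < Real.exp (Fintype.card ι / 100000000)) :
    ∃ I : Finset ι, 1600 * I.card ≤ 41 * Fintype.card ι ∧ ∀ x y, Fintype.card ι ≤
      1600 * (I.filter (fun i => (x ∈ X → ψ i x = x) ∧ (y ∈ X → ψ i y = y))).card + 40 := by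
  set k := Fintype.card ι with hkd
  let A : V → Finset ι := fun x => univ.filter (fun i => x ∈ X → ψ i x = x)
  let 𝒜 : Finset (Finset ι) := insert univ (X.image A)
  have hA : ∀ x, A x ∈ 𝒜 := fun x => by
    by_cases hx : x ∈ X
    · exact mem_insert_of_mem (mem_image_of_mem _ hx)
    · have : A x = univ := by ext i; simp [A, hx]
      rw [this]; exact mem_insert_self _ _
  have hc : 𝒜.card ≤ X.card + 1 :=
    (card_insert_le _ _).trans (Nat.add_le_add_right card_image_le _)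
  have hF : (image₂ (· ∩ ·) 𝒜 𝒜).card ≤ (X.card + 1) ^ 2 :=
    (card_image₂_le _ _ _).trans (by rw [sq]; exact Nat.mul_le_mul hc hc)
  obtain ⟨f, h1, -⟩ := hQ ι (Fin 40) ⊥ (image₂ (· ∩ ·) 𝒜 𝒜) (k / 1600) k (by simp)
    (fun F _ => card_le_univ F) (by
      have e1 : ((image₂ (· ∩ ·) 𝒜 𝒜).card : ℝ) ≤ (X.card + 1) ^ 2 := by exact_mod_cast hF
      have e2 : (k : ℝ) ≤ 3200 * (k / 1600 : ℕ) := by
        have : k ≤ 3200 * (k / 1600) := by omega
        exact_mod_cast this
      have e3 : (0 : ℝ) < k := by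
        have : 0 < k := by omega
        exact_mod_cast this
      have e4 : (k : ℝ) / 100000000 ≤ ((k / 1600 : ℕ) : ℝ) ^ 2 / (4 * k) := by
        rw [div_le_div_iff₀ (by norm_num) (by positivity)]
        nlinarith [mul_le_mul e2 e2 e3.le (by positivity)]
      refine lt_of_le_of_lt ?_ (he.trans_le (Real.exp_le_exp.2 e4))
      simp only [Fintype.card_fin]
      push_cast
      linarith [sq_nonneg ((X.card : ℝ) + 1)])
  refine ⟨cls univ f 0, ?_, fun x y => ?_⟩
  · have := (h1 univ (by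
      rw [← inter_self univ]
      exact mem_image₂_of_mem (mem_insert_self _ _) (mem_insert_self _ _)) 0).2
    simp only [Fintype.card_fin, card_univ] at this
    omega
  · have h2 := (h1 (A x ∩ A y) (mem_image₂_of_mem (hA x) (hA y)) 0).1
    simp only [Fintype.card_fin] at h2
    have h3 : cls (A x ∩ A y) f 0 = (cls univ f 0).filter
        (fun i => (x ∈ X → ψ i x = x) ∧ (y ∈ X → ψ i y = y)) := by
      ext i
      simp only [A, mem_cls, mem_inter, mem_filter, mem_univ, true_and]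
      tauto
    have h4 : fr ψ univ x y ≤ (A x ∩ A y).card := by
      refine card_le_card fun i hi => ?_
      simp only [A, mem_inter, mem_filter, mem_univ, true_and] at hi ⊢
      exact ⟨fun _ => hi.1, fun _ => hi.2⟩
    have h5 := hf x y
    rw [h3] at h2
    omega

/-- an extension by edges that do not cross `S` keeps the parities on `S` -/
theorem keep {H K : SimpleGraph V} {M M' : ι → V → V} {S : Finset V} (h : PC H M) (h' : PC H M')
    (he : Ext M M') (hn : ∀ i v, M' i v ≠ v → M i v = v → K.Adj v (M' i v))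
    (hK : ∀ u v, K.Adj u v → u ∈ S → v ∈ S) (i : ι) :
    (mv (M' i) ∩ S).card % 2 = (mv (M i) ∩ S).card % 2 :=
  ext_parity (h'.inv i) (h.inv i) (he i) fun v hv a b => hK _ _ (hn i v a b) hv

theorem mu_le {H : SimpleGraph V} {S : Finset V} {k b : ℕ} (h : ParOK H S k b) (hb : b ≤ 1)
    (v : V) : 20 * mu H S v ≤ 13 * k := by
  rcases Nat.le_one_iff_eq_zero_or_eq_one.1 hb with rfl | rfl
  · obtain ⟨y, h1, h2⟩ := h.h0' rfl
    by_cases hv : v = y
    · rw [hv]; exact h1
    · have := h2 v hv; omega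
  · have := h.h1' rfl v; omega

/-- the colouring of all edges outside the pool -/
theorem phase1 (hP : ParStmt) (hQ : PartStmt) (hG : PlgStmt) (hW : WeqStmt)
    {H P : SimpleGraph V} {X S : Finset V} {b g n l : ℕ} (hb : b ≤ 1)
    (hok : ParOK H S (Fintype.card ι) b) (hpar : out H S % 2 = (Fintype.card ι * b) % 2)
    (hs : ∀ v, v ∉ X → dg H v univ ≤ g) (hc : X.card ≤ g)
    (ht : ∑ v, dg H v univ ≤ 6 * g * Fintype.card ι)
    (hz : ∀ z ∈ X, 6 * dg H z univ ≤ 5 * Fintype.card ι)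
    (hPS : ∀ u v, P.Adj u v → u ∉ S) (hPX : ∀ u v, P.Adj u v → u ∉ X ∨ v ∉ X)
    (hd : ∀ v, dg P v univ ≤ g) (hn : ∑ v, dg P v univ = 2 * n) (hg : 0 < g) (hl : 0 < l)
    (hl1 : n ≤ 2 * l * Fintype.card ι) (hl2 : ∑ v ∈ X, dg P v univ ≤ 2000 * (g * l))
    (hk : 100000000 * g ≤ Fintype.card ι)
    (he : (100000000 * (X.card + 1) ^ 2 : ℝ) < Real.exp (Fintype.card ι / 100000000)) :
    ∃ (M : ι → V → V) (I : Finset ι), PC H M ∧ cg M = H \ P ∧
      (∀ i, (mv (M i) ∩ S).card % 2 = b) ∧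
      (∀ i, 1000 * ∑ v ∈ mv (M i), (dg P v univ + l) ≤
        856 * ∑ v ∈ X, dg P v univ + 29000 * (g * l)) ∧
      ∀ u v u' v', P.Adj u v → P.Adj u' v' → Fintype.card ι / 4000 + 8 * g ≤ (I.filter (fun i =>
        (M i u = u ∧ M i v = v) ∧ M i u' = u' ∧ M i v' = v')).card := by
  classical
  set k := Fintype.card ι with hkd
  set N := ∑ v ∈ X, dg P v univ with hN
  have hw : ∀ v, dg P v univ + l ≤ g + l := fun v => Nat.add_le_add_right (hd v) _
  have hu1 : g ≤ g * l := Nat.le_mul_of_pos_right _ hl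
  have hu2 : l ≤ g * l := Nat.le_mul_of_pos_left _ hg
  have hk0 : 0 < k := by omega
  obtain ⟨ψ1, p1, c1, q1, w1, f1⟩ := hP V ι H S b (fun v => dg P v univ + l) (g + l) hb hok hpar
    (by omega) hw
  have w1' : ∀ i, 18 * ∑ v ∈ mv (ψ1 i), (dg P v univ + l) ≤ 13 * N + 344 * (g * l) := fun i => by
    have a1 := wsum (a := 20) (c := 13 * k) (mu H S) (mu_le_dg S) hs ht hn hl1
      fun v _ => mu_le hok hb v
    have a2 := w1 i
    have a3 : 36 * k * (g + l) ≤ 36 * k * (2 * (g * l)) := by gcongr; omega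
    refine Nat.le_of_mul_le_mul_left ?_ hk0
    rw [← hN] at a1
    rw [← hkd] at a2
    linarith
  obtain ⟨I, hI, hfree⟩ := split hQ ψ1 X f1 (by omega) he
  rw [← hkd] at hI hfree
  -- edges inside X
  let H2 : SimpleGraph V := sub (H \ cg ψ1) (fun u _ => u ∈ X)
  have d2 : ∀ v, dg H2 v univ ≤ g := fun v =>
    le_trans (dg_le_of (G' := ⊤) (v' := v) (S' := X) fun u _ a => ⟨a.2.2, a.ne⟩)
      ((dg_le_card _ _).trans hc)
  obtain ⟨ψ2, p2, e2, c2, -, n2, w2⟩ := hG V ι H H2 ψ1 I (fun v => dg P v univ + l) (g + l)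
    (k / 4000) (g * l) p1 ((sub_le _).trans sdiff_le)
    (disjoint_iff_adj.2 fun u v a => a.1.2) (fun u v a => by
      have a1 := hfree u v
      have a2 : (I.filter (fun i => (u ∈ X → ψ1 i u = u) ∧ (v ∈ X → ψ1 i v = v))).card =
          fr ψ1 I u v := by
        unfold fr; congr 1; ext i; simp [a.2.1, a.2.2]
      have a3 := d2 u
      have a4 := d2 v
      omega) hw (by
      have a1 : ∑ v, dg H2 v univ * (dg P v univ + l) =
          ∑ v ∈ X, dg H2 v univ * (dg P v univ + l) := by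
        refine (sum_subset (subset_univ X) fun v _ hv => ?_).symm
        rw [(dg_eq_zero (G := H2)).2 fun u _ a => hv a.2.1, zero_mul]
      have a2 : ∑ v ∈ X, dg H2 v univ * (dg P v univ + l) ≤ ∑ v ∈ X, g * (dg P v univ + l) :=
        sum_le_sum fun v _ => Nat.mul_le_mul_right _ (d2 v)
      rw [← mul_sum, sum_add_distrib, sum_const, smul_eq_mul, ← hN] at a2
      have a3 : X.card * l ≤ g * l := Nat.mul_le_mul_right _ hc
      have a4 : g * (N + X.card * l) ≤ g * (2001 * (g * l)) := by gcongr; omega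
      have a5 : 2001 * g < k / 4000 := by omega
      have a6 : g * l * (2001 * g) < g * l * (k / 4000) :=
        Nat.mul_lt_mul_of_pos_left a5 (Nat.mul_pos hg hl)
      have a7 : g * (2001 * (g * l)) = g * l * (2001 * g) := by ring
      omega)
  have cross : ∀ u v, H.Adj u v → ¬ (cg ψ1).Adj u v → u ∈ S → v ∈ S := fun u v a b c => by
    by_contra d
    exact b ((c1 u v).2 ⟨a, by simp [c, d]⟩)
  have q2 : ∀ i, (mv (ψ2 i) ∩ S).card % 2 = b := fun i =>
    (keep p1 p2 e2 n2 (fun u v a => cross u v a.1.1 a.1.2) i).trans (q1 i)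
  have dP : ∀ u v, (cg ψ2).Adj u v → ¬ P.Adj u v := fun u v a c => by
    rw [c2] at a
    rcases a with a | a
    · have := ((c1 u v).1 a).2
      have := hPS u v c
      have := hPS v u c.symm
      tauto
    · exact (hPX u v c).elim (fun x => x a.2.1) (fun x => x a.2.2)
  -- the other edges outside the pool
  let H4 : SimpleGraph V := (H \ cg ψ2) \ P
  have hIc : 1559 * k ≤ 1600 * Iᶜ.card := by
    have := card_add_card_compl I
    omega
  have d4 : ∀ v, dg H4 v univ + dg (cg ψ2) v univ ≤ dg H v univ := fun v => by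
    have a1 := dg_sdiffG_add p2.cg_le v univ
    have a2 : dg H4 v univ ≤ dg (H \ cg ψ2) v univ := dg_mono sdiff_le _ _
    omega
  obtain ⟨ψ4, p4, e4, c4, o4, n4, -⟩ := hG V ι H H4 ψ2 Iᶜ (fun _ => 0) 0 1 1 p2
    (sdiff_le.trans sdiff_le) (disjoint_iff_adj.2 fun u v a => a.1.2) (fun u v a => by
      have a1 := p2.fr_ge Iᶜ u v
      have a2 := d4 u
      have a3 := d4 v
      have a4 : ¬ (u ∈ X ∧ v ∈ X) := fun x => a.1.2 (by
        rw [c2]
        by_cases y : (cg ψ1).Adj u v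
        · exact Or.inl y
        · exact Or.inr ⟨⟨a.1.1, y⟩, x⟩)
      have a5 : ∀ z, 6 * dg H z univ ≤ 5 * k := fun z => by
        by_cases x : z ∈ X
        · exact hz z x
        · have := hs z x; omega
      by_cases x : u ∈ X
      · have := hs v fun y => a4 ⟨x, y⟩
        have := a5 u
        omega
      · have := hs u x
        have := a5 v
        omega) (fun _ => le_rfl) (by simp)
  have q4 : ∀ i, (mv (ψ4 i) ∩ S).card % 2 = b := fun i =>
    (keep p2 p4 e4 n4 (fun u v a => cross u v a.1.1 fun c => a.1.2 (e2.cg_le c)) i).trans (q2 i)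
  have c4' : cg ψ4 = H \ P := by
    rw [c4]
    ext u v
    simp only [H4, SimpleGraph.sup_adj, SimpleGraph.sdiff_adj]
    have a1 := dP u v
    have a2 := p2.cg_le (v := u) (w := v)
    tauto
  obtain ⟨ψ5, p5, c5, o5, q5, w5⟩ := hW V ι H ψ4 Iᶜ S (fun v => dg P v univ + l) (g + l) p4 hw
  have same : ∀ i ∈ I, ψ5 i = ψ2 i := fun i hi => by
    rw [o5 i (by simpa using hi), o4 i (by simpa using hi)]
  refine ⟨ψ5, I, p5, c5.trans c4', fun i => (q5 i).trans (q4 i), fun i => ?_, ?_⟩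
  · by_cases hi : i ∈ I
    · rw [same i hi]
      have a1 := w2 i
      have a2 := w1' i
      omega
    · have a1 := w5 i (mem_compl.2 hi)
      have m1 : ∀ v, (Iᶜ.filter (fun j => ψ4 j v ≠ v)).card ≤ dg H v univ := fun v => by
        refine le_trans ?_ (dg_mono p4.cg_le v univ)
        rw [p4.dg_cg]
        exact card_le_card (filter_subset_filter _ (subset_univ _))
      have a2 := wsum (a := 6) (c := 5 * k) _ m1 hs ht hn hl1
        fun v hv => (Nat.mul_le_mul_left _ (m1 v)).trans (hz v hv)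
      rw [← hN] at a2
      generalize ∑ v ∈ mv (ψ5 i), (dg P v univ + l) = W at a1 ⊢
      generalize ∑ v, (Iᶜ.filter (fun j => ψ4 j v ≠ v)).card * (dg P v univ + l) = T at a1 a2
      generalize Iᶜ.card = c at a1 hIc
      have a3 : 4 * (g + l) * c ≤ 8 * (g * l) * c := Nat.mul_le_mul_right _ (by omega)
      generalize g * l = u at *
      by_contra hcon
      have a4 : 856 * N + 29000 * u + 1 ≤ 1000 * W := by omega
      have a5 : c * (856 * N + 29000 * u + 1) ≤ c * (1000 * W) := Nat.mul_le_mul_left _ a4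
      have a6 : 1559 * k * N ≤ 1600 * c * N := Nat.mul_le_mul_right _ hIc
      have a7 : 1559 * k * u ≤ 1600 * c * u := Nat.mul_le_mul_right _ hIc
      nlinarith
  · have hB : ∀ v, (univ.filter (fun i => ψ2 i v ≠ v ∧ (v ∈ X → ψ1 i v = v))).card ≤ g := by
      intro v
      by_cases x : v ∈ X
      · refine le_trans (card_le_card_of_injOn (t := nb H2 v univ) (fun i => ψ2 i v) ?_ ?_) (d2 v)
        · intro i hi
          have := (mem_filter.1 hi).2
          exact mem_coe.2 (mem_nb.2 ⟨mem_univ _, n2 i v this.1 (this.2 x)⟩)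
        · intro i hi j _ a
          exact p2.uniq i j v (mem_filter.1 hi).2.1 a
      · refine le_trans ?_ ((dg_mono p2.cg_le v univ).trans (hs v x))
        rw [p2.dg_cg]
        exact card_le_card fun i hi => mem_filter.2 ⟨mem_univ _, (mem_filter.1 hi).2.1⟩
    have pick : ∀ u v, P.Adj u v → ∃ x, ∀ i, (x ∈ X → ψ1 i x = x) →
        (u ∈ X → ψ1 i u = u) ∧ (v ∈ X → ψ1 i v = v) := fun u v a => by
      rcases hPX u v a with x | x
      · exact ⟨v, fun i h => ⟨fun y => absurd y x, h⟩⟩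
      · exact ⟨u, fun i h => ⟨h, fun y => absurd y x⟩⟩
    intro u v u' v' a a'
    obtain ⟨x, hx⟩ := pick u v a
    obtain ⟨y, hy⟩ := pick u' v' a'
    have a1 := hfree x y
    let B : V → Finset ι := fun v => univ.filter (fun i => ψ2 i v ≠ v ∧ (v ∈ X → ψ1 i v = v))
    have a2 : I.filter (fun i => (x ∈ X → ψ1 i x = x) ∧ (y ∈ X → ψ1 i y = y)) ⊆
        I.filter (fun i => (ψ5 i u = u ∧ ψ5 i v = v) ∧ ψ5 i u' = u' ∧ ψ5 i v' = v') ∪
          (B u ∪ B v) ∪ (B u' ∪ B v') := by
      intro i hi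
      obtain ⟨b1, b2, b3⟩ := mem_filter.1 hi
      have b4 := hx i b2
      have b5 := hy i b3
      have b6 := same i b1
      have hb' : ∀ z, (z ∈ X → ψ1 i z = z) → ψ5 i z = z ∨ i ∈ B z := fun z hz => by
        by_cases c : ψ2 i z = z
        · exact Or.inl (by rw [b6]; exact c)
        · exact Or.inr (mem_filter.2 ⟨mem_univ _, c, hz⟩)
      rcases hb' u b4.1 with c1 | c1
      · rcases hb' v b4.2 with c2 | c2
        · rcases hb' u' b5.1 with c3 | c3
          · rcases hb' v' b5.2 with c4 | c4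
            · exact mem_union_left _ (mem_union_left _ (mem_filter.2 ⟨b1, ⟨c1, c2⟩, c3, c4⟩))
            · exact mem_union_right _ (mem_union_right _ c4)
          · exact mem_union_right _ (mem_union_left _ c3)
        · exact mem_union_left _ (mem_union_right _ (mem_union_right _ c2))
      · exact mem_union_left _ (mem_union_right _ (mem_union_left _ c1))
    have a3 := (card_le_card a2).trans ((card_union_le _ _).trans (Nat.add_le_add
      ((card_union_le _ _).trans (Nat.add_le_add_left (card_union_le _ _) _)) (card_union_le _ _)))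
    have b1 : (B u).card ≤ g := hB u
    have b2 : (B v).card ≤ g := hB v
    have b3 : (B u').card ≤ g := hB u'
    have b4 : (B v').card ≤ g := hB v'
    omega

theorem cls_mv (μ : V → V) (pt : V → ZMod 3) (p : ZMod 3) :
    cls (mv μ) pt p = mv μ ∩ cls univ pt p := by
  ext v; simp

theorem sum_three (f : ZMod 3 → ℕ) (b : ZMod 3) : ∑ p, f p = f b + f (b + 1) + f (b + 2) := by
  have h : (univ : Finset (ZMod 3)) = {b, b + 1, b + 2} := by
    revert b; decide
  have h1 : b ∉ ({b + 1, b + 2} : Finset (ZMod 3)) := by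
    revert b; decide
  have h2 : b + 1 ≠ b + 2 := by
    revert b; decide
  rw [h, sum_insert h1, sum_pair h2, add_assoc]

/-- new edges with exactly one end in `S` -/
theorem add_cross {μ μ' : V → V} (h' : ∀ v, μ' (μ' v) = v) (h : ∀ v, μ (μ v) = v)
    (he : ∀ v, μ v ≠ v → μ' v = μ v) {S : Finset V}
    (hS : ∀ v, μ' v ≠ v → μ v = v → (v ∈ S ↔ μ' v ∉ S)) :
    2 * (mv μ' ∩ S).card = 2 * (mv μ ∩ S).card + (mv μ' \ mv μ).card := by
  have cl : ∀ v ∈ mv μ' \ mv μ, μ' v ∈ mv μ' \ mv μ := fun v hv => by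
    simp only [mem_sdiff, mem_mv, not_not] at hv ⊢
    refine ⟨inv_ne h' hv.1, ?_⟩
    by_contra b
    have c := he _ b
    rw [h'] at c
    exact hv.1 (inv_inj h (hv.2.trans c)).symm
  have h1 : ((mv μ' \ mv μ) ∩ S).card = ((mv μ' \ mv μ) \ S).card := by
    refine card_eq_of_inv h' (fun v hv => ?_) (fun v hv => ?_)
    · obtain ⟨a, b⟩ := mem_inter.1 hv
      have c := a
      simp only [mem_sdiff, mem_mv, not_not] at c
      exact mem_sdiff.2 ⟨cl v a, (hS v c.1 c.2).1 b⟩
    · obtain ⟨a, b⟩ := mem_sdiff.1 hv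
      have c := a
      simp only [mem_sdiff, mem_mv, not_not] at c
      exact mem_inter.2 ⟨cl v a, by_contra fun d => b ((hS v c.1 c.2).2 d)⟩
  have h2 := card_sdiff_add_card_inter (mv μ' \ mv μ) S
  have h3 : mv μ' ∩ S = (mv μ ∩ S) ∪ ((mv μ' \ mv μ) ∩ S) := by
    ext v
    simp only [mem_inter, mem_union, mem_sdiff, mem_mv]
    have : μ v ≠ v → μ' v ≠ v := fun a => by rw [he v a]; exact a
    tauto
  have h4 : Disjoint (mv μ ∩ S) ((mv μ' \ mv μ) ∩ S) := by
    rw [disjoint_left]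
    intro v a b
    exact (mem_sdiff.1 (mem_inter.1 b).1).2 (mem_inter.1 a).1
  rw [h3, card_union_of_disjoint h4]
  omega

/-- the parity of the number of wrong colours -/
theorem card_err (f : ι → ℕ) (s : ℕ) (hs : s ≤ 1) :
    (∑ i, f i) % 2 = (Fintype.card ι * s + (univ.filter (fun i => f i % 2 ≠ s)).card) % 2 := by
  have h1 : Fintype.card ι * s + (univ.filter (fun i => f i % 2 ≠ s)).card =
      ∑ i, (s + if f i % 2 ≠ s then 1 else 0) := by
    rw [sum_add_distrib, card_filter]; simp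
  rw [h1, Finset.sum_nat_mod, Finset.sum_nat_mod _ _ (fun i => s + if f i % 2 ≠ s then 1 else 0)]
  congr 1
  refine sum_congr rfl fun i _ => ?_
  split_ifs <;> omega

end Tri1

open Tri1 in
theorem tri1_of (hP : ParStmt) (hQ : PartStmt) (hG : PlgStmt) (hW : WeqStmt) (hF : FixbStmt) :
    Tri1Stmt := by
  refine ⟨100000000, ?_⟩
  intro V ι _ _ _ _ H P X pt s b g n hT hok hz hpol hPX hd hn hreg hg hk he
  classical
  have hNn := sum_X_le hPX hn
  obtain ⟨l, hl, hl1, hl2, hl3⟩ : ∃ l, 0 < l ∧ n ≤ 2 * l * Fintype.card ι ∧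
      ∑ v ∈ X, dg P v univ ≤ 2000 * (g * l) ∧ 10 * g + (856 * ∑ v ∈ X, dg P v univ +
        29000 * (g * l)) / 1000 + Fintype.card ι ≤ n := by
    rcases hreg with ⟨h1, h2, h3⟩ | h1
    · have h0 : ∑ v ∈ X, dg P v univ = 0 :=
        sum_eq_zero fun v hv => dg_eq_zero.2 fun u _ a => h1 v u a hv
      exact ⟨1, one_pos, by omega, by omega, by omega⟩
    · have a1 : 2000 * g * (n / (2000 * g)) ≤ n := Nat.mul_div_le _ _
      have a2 : n < 2000 * g * (n / (2000 * g) + 1) := Nat.lt_mul_div_succ _ (by omega)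
      generalize n / (2000 * g) = t at a1 a2
      have a3 : 2000 * g * (t + 1) ≤ 2 * (t + 1) * Fintype.card ι := by
        have : 2000 * g * (t + 1) ≤ (2 * Fintype.card ι) * (t + 1) :=
          Nat.mul_le_mul_right _ (by omega)
        linarith
      have a4 : 2000 * g * (t + 1) = 2000 * (g * t) + 2000 * g := by ring
      have a5 : 2000 * g * t = 2000 * (g * t) := by ring
      have a6 : g * (t + 1) = g * t + g := by ring
      rw [a5] at a1
      refine ⟨t + 1, by omega, a2.le.trans a3, ?_, ?_⟩ <;> rw [a4] at a2 <;> rw [a6] <;> omega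
  obtain ⟨M, I, pM, cM, qM, wM, fM⟩ := phase1 hP hQ hG hW (S := cls univ pt b) (hT.s1 b) hok
    ((out_mod_two _).trans (hT.par b)) hT.small hT.cX hT.tot hz
    (fun u v a c => (hpol.ty u v a).1 (mem_cls.1 c).2) hPX hd hn hg hl hl1 hl2 hk
    (by exact_mod_cast he)
  set k := Fintype.card ι with hkd
  have hcr : ∀ u v, P.Adj u v → (u ∈ cls univ pt (b + 1) ↔ v ∉ cls univ pt (b + 1)) := by
    intro u v a
    have a1 := hpol.ty u v a
    have a2 := (hpol.ty v u a.symm).1
    simp only [mem_cls, mem_univ, true_and]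
    have key : ∀ b x y : ZMod 3, x ≠ b ∧ x ≠ y → y ≠ b → (x = b + 1 ↔ ¬ y = b + 1) := by decide
    exact key _ _ _ a1 a2
  let E : Finset ι := univ.filter (fun i => (mv (M i) ∩ cls univ pt (b + 1)).card % 2 ≠ s (b + 1))
  have hE : E.card % 2 = n % 2 := by
    have a1 := card_err (fun i => (mv (M i) ∩ cls univ pt (b + 1)).card) (s (b + 1)) (hT.s1 _)
    have a2 := two_mul_sum_dg hcr
    have a3 : ∑ v ∈ cls univ pt (b + 1), dg (H \ P) v univ + ∑ v ∈ cls univ pt (b + 1),
        dg P v univ = ∑ v ∈ cls univ pt (b + 1), dg H v univ := by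
      rw [← sum_add_distrib]
      exact sum_congr rfl fun v _ => dg_sdiffG_add hpol.le v univ
    have a4 := hT.par (b + 1)
    rw [pM.sum_mv, cM] at a1
    change _ = (k * s (b + 1) + E.card) % 2 at a1
    omega
  have hEk : E.card ≤ k := card_le_univ E
  have htot : 2 * n ≤ 6 * g * k := by
    rw [← hn]
    exact (sum_le_sum fun v _ => dg_mono hpol.le v univ).trans hT.tot
  obtain ⟨ψ, p, e, c, nw, m4, wt⟩ := hF V ι H P M E I (fun _ => 1) n g
    ((856 * ∑ v ∈ X, dg P v univ + 29000 * (g * l)) / 1000) k 1 (k / 4000) (25000 * g) pM hpol.le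
    (by rw [cM]; exact disjoint_sdiff_self_right) hd hn (by omega) hE
    (fun i _ => by
      have a1 := wM i
      have a2 : ∑ v ∈ mv (M i), dg P v univ ≤ ∑ v ∈ mv (M i), (dg P v univ + l) :=
        sum_le_sum fun v _ => Nat.le_add_right _ _
      omega) (fun u v _ => by omega) (Or.inr hl3) fM (fun _ => le_rfl) (by
      simp only [mul_one, hn]
      have a1 : 6 * k < 25000 * (k / 4000) := by omega
      have a2 : g * (6 * k) < g * (25000 * (k / 4000)) := Nat.mul_lt_mul_of_pos_left a1 hg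
      linarith)
  have q0 : ∀ i, (cls (mv (ψ i)) pt b).card % 2 = s b := fun i => by
    rw [cls_mv, keep pM p e nw (fun u v a c => absurd (mem_cls.1 c).2 (hpol.ty u v a).1) i, qM i]
  have q1 : ∀ i, (cls (mv (ψ i)) pt (b + 1)).card % 2 = s (b + 1) := fun i => by
    have a1 := add_cross (p.inv i) (pM.inv i) (e i) fun v a c => hcr _ _ (nw i v a c)
    have a2 := m4 i
    have a3 := hT.s1 (b + 1)
    rw [cls_mv]
    by_cases hi : i ∈ E
    · rw [if_pos hi] at a2
      have := (mem_filter.1 hi).2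
      omega
    · rw [if_neg hi] at a2
      have : (mv (M i) ∩ cls univ pt (b + 1)).card % 2 = s (b + 1) := by
        by_contra a
        exact hi (mem_filter.2 ⟨mem_univ _, a⟩)
      omega
  have q2 : ∀ i, (cls (mv (ψ i)) pt (b + 2)).card % 2 = s (b + 2) := fun i => by
    have a1 := card_cls_sum (mv (ψ i)) pt
    rw [sum_three _ b] at a1
    obtain ⟨x, a2⟩ := even_card_mv (p.inv i)
    obtain ⟨y, a3⟩ := hT.s2
    have a4 := sum_three s b
    have a5 := sum_three s 0
    simp only [zero_add] at a5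
    have a6 := q0 i
    have a7 := q1 i
    have a8 := hT.s1 (b + 2)
    omega
  refine ⟨ψ, p, p.full_iff.2 ?_, fun i r => ?_, fun i => ?_⟩
  · rw [c, cM]
    intro u v a
    by_cases x : P.Adj u v
    · exact Or.inr x
    · exact Or.inl ⟨a, x⟩
  · have key : ∀ b r : ZMod 3, r = b ∨ r = b + 1 ∨ r = b + 2 := by decide
    rcases key b r with rfl | rfl | rfl
    exacts [q0 i, q1 i, q2 i]
  · have a1 := wt i
    simp only [sum_const, smul_eq_mul, mul_one] at a1
    have a2 := wM i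
    have a3 : (mv (M i)).card * l ≤ ∑ v ∈ mv (M i), (dg P v univ + l) := by
      rw [sum_add_distrib, sum_const, smul_eq_mul]
      omega
    have a4 : (mv (M i)).card * l ≤ 1741 * g * l := by
      have : 1741 * g * l = 1741 * (g * l) := by ring
      omega
    have a5 := Nat.le_of_mul_le_mul_right a4 hl
    omega

end Pool.Agent.MP_5c8b6d_co

end

section

/-! The three part parity problem when free edges supply almost all parities. -/

namespace Pool.Agent.MP_5c8b6d_co

open Finset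

set_option linter.unusedSectionVars false

namespace Tri2

variable {V ι : Type} [Fintype V] [DecidableEq V] [Fintype ι] [DecidableEq ι]

theorem sum3 (f : ZMod 3 → ℕ) : ∑ p, f p = f 0 + f 1 + f 2 := Fin.sum_univ_three f

theorem rot3 (f : ZMod 3 → ℕ) (p : ZMod 3) : f 0 + f 1 + f 2 = f p + f (p + 1) + f (p + 2) := by
  have h : ∀ p : ZMod 3, p = 0 ∨ p = 1 ∨ p = 2 := by decide
  rcases h p with rfl | rfl | rfl
  · rfl
  · show f 0 + f 1 + f 2 = f 1 + f 2 + f 0
    omega
  · show f 0 + f 1 + f 2 = f 2 + f 0 + f 1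
    omega

theorem cls_mv (μ : V → V) (pt : V → ZMod 3) (p : ZMod 3) :
    cls (mv μ) pt p = mv μ ∩ cls univ pt p := by
  ext v; simp

theorem pol_ty {H P : SimpleGraph V} {pt : V → ZMod 3} {t : ZMod 3} (h : Pol H P pt t) {u v : V}
    (a : P.Adj u v) : pt u ≠ t ∧ pt v ≠ t ∧ pt u ≠ pt v :=
  ⟨(h.ty u v a).1, (h.ty v u a.symm).1, (h.ty u v a).2⟩

theorem pol_one {H P : SimpleGraph V} {pt : V → ZMod 3} {t p : ZMod 3} (h : Pol H P pt t)
    (hp : p ≠ t) {u v : V} (a : P.Adj u v) : pt u = p ↔ pt v ≠ p := by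
  have k : ∀ x y t p : ZMod 3, x ≠ t ∧ y ≠ t ∧ x ≠ y → p ≠ t → (x = p ↔ y ≠ p) := by decide
  exact k _ _ _ _ (pol_ty h a) hp

theorem pol_disj {H P P' : SimpleGraph V} {pt : V → ZMod 3} {t t' : ZMod 3} (h : Pol H P pt t)
    (h' : Pol H P' pt t') (hp : t ≠ t') : Disjoint P P' := by
  have k : ∀ x y t t' : ZMod 3, x ≠ t ∧ y ≠ t ∧ x ≠ y → x ≠ t' ∧ y ≠ t' ∧ x ≠ y → t = t' := by
    decide
  exact disjoint_iff_adj.2 fun u v a b => hp (k _ _ _ _ (pol_ty h a) (pol_ty h' b))

/-- the degree sum of a pool on one part -/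
theorem pol_sum {H P : SimpleGraph V} {pt : V → ZMod 3} {t : ZMod 3} (h : Pol H P pt t) {n : ℕ}
    (hn : ∑ v, dg P v univ = 2 * n) (p : ZMod 3) :
    ∑ v ∈ cls univ pt p, dg P v univ = if p = t then 0 else n := by
  split_ifs with hp
  · exact sum_eq_zero fun v hv => dg_eq_zero.2 fun u _ a =>
      (pol_ty h a).1 ((mem_cls.1 hv).2.trans hp)
  · have := two_mul_sum_dg (G := P) (S := cls univ pt p) fun u v a => by
      simpa using pol_one h hp a
    omega

/-- one pool corrects the parities of the colours in `E` -/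
theorem step (hF : FixbStmt) {H P : SimpleGraph V} {pt : V → ZMod 3} {t : ZMod 3}
    {ψ0 : ι → V → V} {E : Finset ι} {w : V → ℕ} {n g B : ℕ} (h0 : PC H ψ0) (hP : Pol H P pt t)
    (hd : Disjoint P (cg ψ0)) (hs : ∀ u v, P.Adj u v → dg H u univ ≤ g)
    (hn : ∑ v, dg P v univ = 2 * n) (hE : E.card ≤ n ∧ E.card % 2 = n % 2)
    (hw : ∀ v, dg P v univ ≤ w v) (hw' : ∀ v, w v ≤ 2 * g)
    (hB : ∀ i, ∑ v ∈ mv (ψ0 i), w v ≤ B) (hn1 : n = 0 ∨ 12 * g + B ≤ n)
    (hn2 : n ≤ 2 * Fintype.card ι) (hg : 0 < g) (hk : 24 * g ≤ Fintype.card ι) :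
    ∃ ψ : ι → V → V, PC H ψ ∧ cg ψ = cg ψ0 ⊔ P ∧
      (∀ i p, (cls (mv (ψ i)) pt p).card % 2 =
        ((cls (mv (ψ0 i)) pt p).card + if p ≠ t ∧ i ∈ E then 1 else 0) % 2) ∧
      ∀ i, ∑ v ∈ mv (ψ i), w v ≤ B + 32 * g := by
  have hc : ∀ u v, P.Adj u v → dg (cg ψ0) u univ ≤ g := fun u v a =>
    (dg_mono h0.cg_le u univ).trans (hs u v a)
  have hdP : ∀ v, dg P v univ ≤ g := fun v => by
    rcases Nat.eq_zero_or_pos (dg P v univ) with k | k
    · omega
    · obtain ⟨u, -, a⟩ := exists_adj_of_dg_pos k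
      exact (dg_mono hP.le v univ).trans (hs v u a)
  obtain ⟨ψ, a1, a2, a3, a4, a5, a6⟩ := hF V ι H P ψ0 E univ w n g B (2 * g) (2 * g)
    (Fintype.card ι / 2) (20 * g) h0 hP.le hd hdP hn hE.1 hE.2
    (fun i _ => (sum_le_sum fun v _ => hw v).trans (hB i))
    (fun u v a => by
      have := h0.fr_ge E u v
      have := hc u v a
      have := hc v u a.symm
      omega)
    (by omega)
    (fun u v u' v' a b => by
      have h1 := h0.fr_ge univ u v
      have h2 := h0.fr_ge (univ.filter (fun i => ψ0 i u = u ∧ ψ0 i v = v)) u' v'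
      have := hc u v a
      have := hc v u a.symm
      have := hc u' v' b
      have := hc v' u' b.symm
      rw [fr, filter_filter] at h2
      rw [fr, card_univ] at h1
      omega)
    hw'
    (by
      have h1 : ∑ v, dg P v univ * w v ≤ ∑ v, dg P v univ * (2 * g) :=
        sum_le_sum fun v _ => Nat.mul_le_mul_left _ (hw' v)
      rw [← sum_mul, hn] at h1
      obtain ⟨c, hc⟩ : ∃ c, Fintype.card ι / 2 = c := ⟨_, rfl⟩
      have h2 : n ≤ 4 * c + 2 := by omega
      have h3 : 12 ≤ c := by omega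
      rw [hc]
      linarith [Nat.mul_le_mul_right g h2, Nat.mul_le_mul_right g h3])
  refine ⟨ψ, a1, a3, fun i p => ?_, fun i => by have := a6 i; have := hB i; omega⟩
  have hD : ∀ v ∈ mv (ψ i) \ mv (ψ0 i), P.Adj v (ψ i v) ∧ ψ i v ∈ mv (ψ i) \ mv (ψ0 i) := by
    intro v hv
    simp only [mem_sdiff, mem_mv, not_not] at hv ⊢
    refine ⟨a4 i v hv.1 hv.2, inv_ne (a1.inv i) hv.1, ?_⟩
    by_contra c
    have e := a2 i _ c
    rw [a1.inv] at e
    exact hv.1 (inv_inj (h0.inv i) (hv.2.trans e)).symm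
  have h1 : (cls (mv (ψ i)) pt p).card =
      (cls (mv (ψ0 i)) pt p).card + (cls (mv (ψ i) \ mv (ψ0 i)) pt p).card := by
    rw [← card_union_of_disjoint
      (disjoint_sdiff.mono (cls_subset _ _ _) (cls_subset _ _ _))]
    congr 1; ext v
    have := @a2.mv_subset _ _ _ _ _ _ i v
    simp only [mem_cls, mem_union, mem_sdiff]; tauto
  rw [h1]
  by_cases hp : p = t
  · have : cls (mv (ψ i) \ mv (ψ0 i)) pt p = ∅ := eq_empty_iff_forall_notMem.2 fun v hv =>
      (pol_ty hP (hD v (mem_cls.1 hv).1).1).1 ((mem_cls.1 hv).2.trans hp)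
    rw [this, if_neg fun k => k.1 hp, card_empty]
  · have h2 : (cls (mv (ψ i) \ mv (ψ0 i)) pt p).card =
        ((mv (ψ i) \ mv (ψ0 i)).filter (fun v => ¬ pt v = p)).card :=
      card_eq_of_inv (a1.inv i)
        (fun v hv => mem_filter.2 ⟨(hD v (mem_cls.1 hv).1).2,
          (pol_one hP hp (hD v (mem_cls.1 hv).1).1).1 (mem_cls.1 hv).2⟩)
        (fun v hv => mem_cls.2 ⟨(hD v (mem_filter.1 hv).1).2,
          (pol_one hP hp (hD v (mem_filter.1 hv).1).1.symm).2 (mem_filter.1 hv).2⟩)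
    have h3 := card_filter_add_card_filter_not (s := mv (ψ i) \ mv (ψ0 i)) (fun v => pt v = p)
    have h4 := a5 i
    rw [← h2] at h3
    change (cls (mv (ψ i) \ mv (ψ0 i)) pt p).card + _ = _ at h3
    by_cases c : i ∈ E
    · rw [if_pos c] at h4; rw [if_pos ⟨hp, c⟩]; omega
    · rw [if_neg c] at h4; rw [if_neg fun k => c k.2]; omega

/-- edges with pairwise different colours -/
theorem single {H : SimpleGraph V} {E : Finset (V × V)} (hE : E ⊆ oe H) {c : V × V → ι}
    (hc : Set.InjOn c E) : ∃ ψ : ι → V → V, PC H ψ ∧ (∀ e ∈ E, mv (ψ (c e)) = {e.1, e.2}) ∧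
      ∀ i, i ∉ E.image c → ∀ v, ψ i v = v := by
  classical
  let ψ : ι → V → V := fun i v =>
    if h : ∃ e ∈ E, c e = i then Equiv.swap h.choose.1 h.choose.2 v else v
  have h1 : ∀ e ∈ E, ∀ v, ψ (c e) v = Equiv.swap e.1 e.2 v := fun e he v => by
    have k : ∃ e' ∈ E, c e' = c e := ⟨e, he, rfl⟩
    simp only [ψ, dif_pos k]
    rw [hc k.choose_spec.1 he k.choose_spec.2]
  have h2 : ∀ i, (¬ ∃ e ∈ E, c e = i) → ∀ v, ψ i v = v := fun i k v => by
    simp only [ψ, dif_neg k]
  have h3 : ∀ i v, ψ i v ≠ v → ∃ e ∈ E, c e = i ∧ (e = (v, ψ i v) ∨ e = (ψ i v, v)) := by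
    intro i v a
    obtain ⟨e, he, rfl⟩ : ∃ e ∈ E, c e = i := by
      by_contra k; exact a (h2 i k v)
    refine ⟨e, he, rfl, ?_⟩
    rw [h1 e he] at a ⊢
    by_cases x : v = e.1
    · left; rw [x, Equiv.swap_apply_left]
    · by_cases y : v = e.2
      · right; rw [y, Equiv.swap_apply_right]
      · exact absurd (Equiv.swap_apply_of_ne_of_ne x y) a
  refine ⟨ψ, ⟨fun i v => ?_, fun i v a => ?_, fun i j v a b => ?_⟩, fun e he => ?_,
    fun i hi => h2 i (by simpa using hi)⟩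
  · by_cases k : ∃ e ∈ E, c e = i
    · obtain ⟨e, he, rfl⟩ := k
      rw [h1 e he, h1 e he, Equiv.swap_apply_self]
    · rw [h2 i k, h2 i k]
  · obtain ⟨e, he, -, x | x⟩ := h3 i v a
    · exact (mem_oe.1 (x ▸ hE he)).1
    · exact (mem_oe.1 (x ▸ hE he)).1.symm
  · obtain ⟨e, he, rfl, x⟩ := h3 i v a
    obtain ⟨e', he', rfl, y⟩ := h3 j v (b ▸ a)
    rw [← b] at y
    rcases x with x | x <;> rcases y with y | y
    · rw [x, y]
    · exact absurd (y ▸ hE he') (oe_not_both (x ▸ hE he))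
    · exact absurd (x ▸ hE he) (oe_not_both (y ▸ hE he'))
    · rw [x, y]
  · rw [← mv_swap (mem_oe.1 (hE he)).1.ne]
    ext v; simp only [mem_mv, h1 e he]

theorem card_oe_cut (H : SimpleGraph V) (S : Finset V) : (oe (cutG H S)).card = out H S := by
  have h1 := sum_dg_eq_oe (G := cutG H S)
  simp only [dg_cutG, sum_mu] at h1
  omega

/-- the colours that are reserved for correct parities -/
theorem init {H : SimpleGraph V} {pt : V → ZMod 3} {s ρ : ZMod 3 → ℕ} {r : ℕ}
    (hs : ∀ p, s p ≤ 1) (hρ : ∀ p, ρ p ≤ r) (ho : ∀ p, s p = 1 → ρ p ≤ out H (cls univ pt p))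
    (hr : 4 * r ≤ Fintype.card ι) [Nonempty ι] :
    ∃ (ψ : ι → V → V) (I : Finset ι), PC H ψ ∧ (∀ i ∈ I, ∀ v, ψ i v = v) ∧
      Fintype.card ι ≤ I.card + 4 * r ∧ (∀ i, (mv (ψ i)).card ≤ 2) ∧
      ∀ p, ρ p ≤ (Iᶜ.filter (fun i => (cls (mv (ψ i)) pt p).card % 2 = s p)).card := by
  have h1 : ∀ p, ∃ F ⊆ oe (cutG H (cls univ pt p)), F.card ≤ r ∧ (s p = 1 → F.card = ρ p) := by
    intro p
    by_cases k : s p = 1
    · obtain ⟨F, a, b⟩ := exists_subset_card_eq (s := oe (cutG H (cls univ pt p))) (n := ρ p)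
        (by rw [card_oe_cut]; exact ho p k)
      exact ⟨F, a, b ▸ hρ p, fun _ => b⟩
    · exact ⟨∅, empty_subset _, by simp, fun x => absurd x k⟩
  choose F hF1 hF2 hF3 using h1
  have hE : univ.biUnion F ⊆ oe H := fun e he => by
    obtain ⟨p, -, hp⟩ := mem_biUnion.1 he
    have := mem_oe.1 (hF1 p hp)
    exact mem_oe.2 ⟨(cutG_adj.1 this.1).1, this.2⟩
  have hEc : (univ.biUnion F).card ≤ 3 * r := by
    refine card_biUnion_le.trans ?_
    rw [sum3 (fun p => (F p).card)]
    have := hF2 0; have := hF2 1; have := hF2 2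
    omega
  obtain ⟨c, hc, -⟩ := half (univ.biUnion F) (univ : Finset ι) (fun _ _ => True) 0 0
    (by simp) (by simp) (by rw [card_univ]; omega) (by simp)
  obtain ⟨ψ, a1, a2, a3⟩ := single hE hc
  have hZ : ((univ.biUnion F).image c).card ≤ 3 * r := card_image_le.trans hEc
  obtain ⟨Z, hZ1, hZ2⟩ := exists_subset_card_eq (s := ((univ.biUnion F).image c)ᶜ) (n := r)
    (by rw [card_compl]; omega)
  refine ⟨ψ, (((univ.biUnion F).image c) ∪ Z)ᶜ, a1, fun i hi => a3 i fun k => ?_, ?_,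
    fun i => ?_, fun p => ?_⟩
  · exact mem_compl.1 hi (mem_union_left _ k)
  · have := card_union_le ((univ.biUnion F).image c) Z
    rw [card_compl]; omega
  · by_cases k : i ∈ (univ.biUnion F).image c
    · obtain ⟨e, he, rfl⟩ := mem_image.1 k
      rw [a2 e he]; exact card_le_two
    · have : mv (ψ i) = ∅ := eq_empty_iff_forall_notMem.2 fun v hv => mem_mv.1 hv (a3 i k v)
      simp [this]
  · rw [compl_compl]
    by_cases k : s p = 1
    · have hsub : F p ⊆ univ.biUnion F := subset_biUnion_of_mem F (mem_univ p)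
      rw [← hF3 p k, ← card_image_of_injOn (hc.mono (coe_subset.2 hsub))]
      refine card_le_card fun i hi => ?_
      obtain ⟨e, he, rfl⟩ := mem_image.1 hi
      refine mem_filter.2 ⟨mem_union_left _ (mem_image_of_mem c (hsub he)), ?_⟩
      have x := (cutG_adj.1 (mem_oe.1 (hF1 p he)).1).2
      simp only [mem_cls, mem_univ, true_and] at x
      rw [a2 e (hsub he), k, cls, filter_insert, filter_singleton]
      by_cases y : pt e.1 = p
      · rw [if_pos y, if_neg (x.1 y)]; simp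
      · rw [if_neg y, if_pos (by tauto)]; simp
    · refine ((hρ p).trans_eq hZ2.symm).trans (card_le_card fun i hi => ?_)
      refine mem_filter.2 ⟨mem_union_right _ hi, ?_⟩
      have : mv (ψ i) = ∅ := eq_empty_iff_forall_notMem.2 fun v hv =>
        mem_mv.1 hv (a3 i (mem_compl.1 (hZ1 hi)) v)
      have := hs p
      simp only [*, cls, filter_empty, card_empty]
      omega

/-- greedy colouring of all edges that are not in the pools -/
theorem phase (hG : PlgStmt) {H : SimpleGraph V} {X : Finset V} {ψ0 : ι → V → V} {I : Finset ι}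
    {w : V → ℕ} {g : ℕ} (h0 : PC H ψ0) (hI : ∀ i ∈ I, ∀ v, ψ0 i v = v)
    (hsm : ∀ v, v ∉ X → dg H v univ ≤ g) (hX : X.card ≤ g)
    (hz : ∀ z ∈ X, 10 * dg H z univ ≤ 7 * Fintype.card ι)
    (hc : Fintype.card ι ≤ I.card + 4 * (Fintype.card ι / 20)) (hw : ∀ v, w v ≤ 2 * g)
    (hs : ∑ v, dg H v univ * w v ≤ 18 * g * Fintype.card ι) (hg : 0 < g)
    (hk : 1000 * g ≤ Fintype.card ι) :
    ∃ ψ : ι → V → V, PC H ψ ∧ cg ψ = H ∧ (∀ i, i ∉ I → ψ i = ψ0 i) ∧
      ∀ i, ∑ v ∈ mv (ψ i), w v ≤ ∑ v ∈ mv (ψ0 i), w v + 816 * g := by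
  have hτ : ∀ H' ≤ H, ∑ v, dg H' v univ * w v < 400 * g * (Fintype.card ι / 20) := by
    intro H' k
    refine lt_of_le_of_lt ((sum_le_sum fun v _ =>
      Nat.mul_le_mul_right _ (dg_mono k v univ)).trans hs) ?_
    obtain ⟨c, hc⟩ : ∃ c, Fintype.card ι / 20 = c := ⟨_, rfl⟩
    have h2 : Fintype.card ι ≤ 20 * c + 19 := by omega
    have h3 : 50 ≤ c := by omega
    rw [hc]
    linarith [Nat.mul_le_mul_left g h2, Nat.mul_le_mul_left g h3]
  have hle : sub (H \ cg ψ0) (fun u _ => u ∈ X) ≤ H := (sub_le _).trans sdiff_le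
  have hd : ∀ u, dg (sub (H \ cg ψ0) (fun u _ => u ∈ X)) u univ ≤ g := fun u =>
    ((dg_le_of (G := sub (H \ cg ψ0) (fun u _ => u ∈ X)) (G' := H) (v' := u) (S' := X)
      fun v _ a => ⟨a.2.2, a.1.1⟩).trans (dg_le_card _ _)).trans hX
  obtain ⟨ψ1, a1, -, a3, a4, -, a6⟩ := hG V ι H (sub (H \ cg ψ0) (fun u _ => u ∈ X)) ψ0 I w
    (2 * g) (Fintype.card ι / 20) (400 * g) h0 hle
    (disjoint_iff_adj.2 fun u v a => a.1.2)
    (fun u v _ => by
      have := hd u
      have := hd v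
      rw [fr, filter_true_of_mem fun i hi => ⟨hI i hi u, hI i hi v⟩]
      omega)
    hw (hτ _ hle)
  have hall : ∀ v, 10 * dg H v univ ≤ 7 * Fintype.card ι := fun v => by
    by_cases k : v ∈ X
    · exact hz v k
    · have := hsm v k; omega
  obtain ⟨ψ2, b1, -, b3, b4, -, b6⟩ := hG V ι H (H \ cg ψ1) ψ1 I w
    (2 * g) (Fintype.card ι / 20) (400 * g) a1 sdiff_le
    (disjoint_iff_adj.2 fun u v a => a.2)
    (fun u v a => by
      have h1 := a1.fr_ge I u v
      have h2 := dg_sdiffG_add a1.cg_le u univ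
      have h3 := dg_sdiffG_add a1.cg_le v univ
      have h4 : u ∉ X ∨ v ∉ X := by
        by_contra k
        push Not at k
        refine a.2 ?_
        rw [a3]
        by_cases x : (cg ψ0).Adj u v
        · exact Or.inl x
        · exact Or.inr ⟨⟨a.1, x⟩, k.1, k.2⟩
      have := hall u
      have := hall v
      rcases h4 with k | k <;> have := hsm _ k <;> omega)
    hw (hτ _ sdiff_le)
  refine ⟨ψ2, b1, by rw [b3, sup_sdiff_cancel_right a1.cg_le], fun i hi => by
    rw [b4 i hi, a4 i hi], fun i => ?_⟩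
  have := a6 i
  have := b6 i
  omega

theorem sum_par {α : Type} (S : Finset α) (f s : α → ℕ) (hs : ∀ a, s a ≤ 1) :
    ((S.filter (fun a => f a % 2 ≠ s a)).card + ∑ a ∈ S, s a) % 2 = (∑ a ∈ S, f a) % 2 := by
  rw [card_filter, ← sum_add_distrib, sum_nat_mod, sum_nat_mod S 2 f]
  congr 1
  refine sum_congr rfl fun a _ => ?_
  have := hs a
  split_ifs <;> omega

end Tri2

open Tri2

theorem tri2_of (hG : PlgStmt) (hE : ErrStmt) (hF : FixbStmt) : Tri2Stmt := by
  refine ⟨1000, ?_⟩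
  intro V ι _ _ _ _ H P X pt s n g hT ho hz hP hPX hn hn' hs hg hk
  have : Nonempty ι := Fintype.card_pos_iff.1 (by omega)
  obtain ⟨K, hK⟩ : ∃ K, K = P 0 ⊔ P 1 ⊔ P 2 := ⟨_, rfl⟩
  have d01 := pol_disj (hP 0) (hP 1) (by decide)
  have d02 := pol_disj (hP 0) (hP 2) (by decide)
  have d12 := pol_disj (hP 1) (hP 2) (by decide)
  have hKH : K ≤ H := hK ▸ sup_le (sup_le (hP 0).le (hP 1).le) (hP 2).le
  have hKd : ∀ v S, dg K v S = dg (P 0) v S + dg (P 1) v S + dg (P 2) v S := fun v S => by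
    rw [hK, dg_sup (d02.sup_left d12), dg_sup d01]
  have hKX : ∀ v ∈ X, dg K v univ = 0 := fun v hv => dg_eq_zero.2 fun u _ a => by
    rw [hK] at a
    rcases a with (a | a) | a <;> exact hPX _ _ _ a hv
  have hKp : ∀ p, ∑ v ∈ cls univ pt p, dg K v univ = n (p + 1) + n (p + 2) := fun p => by
    simp only [hKd, sum_add_distrib, pol_sum (hP _) (hn _)]
    have k : ∀ p : ZMod 3, p ≠ p + 1 ∧ p ≠ p + 2 := by decide
    rw [rot3 (fun t => if p = t then 0 else n t) p, if_pos rfl, if_neg (k p).1, if_neg (k p).2,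
      zero_add]
  have hKs : ∑ v, dg K v univ ≤ 12 * Fintype.card ι := by
    simp only [hKd, sum_add_distrib, hn]
    have := (hn' 0).2; have := (hn' 1).2; have := (hn' 2).2
    omega
  have hw : ∀ v, dg K v univ + 1 ≤ 2 * g := fun v => by
    by_cases k : v ∈ X
    · have := hKX v k; omega
    · have := (dg_mono hKH v univ).trans (hT.small v k); omega
  have hH' : ∀ v, dg (H \ K) v univ ≤ dg H v univ := fun v => dg_mono sdiff_le v univ
  obtain ⟨ψ0, I, a1, a2, a3, a4, a5⟩ := init (ι := ι) (H := H \ K) (pt := pt) (s := s)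
    (ρ := fun p => Fintype.card ι - (n (p + 1) + n (p + 2))) (r := Fintype.card ι / 20) hT.s1
    (fun p => by have := hs p; omega)
    (fun p k => by
      have h1 := ho p k
      have h2 : out H (cls univ pt p) ≤
          out (H \ K) (cls univ pt p) + ∑ v ∈ cls univ pt p, dg K v univ := by
        rw [out, out, ← sum_add_distrib]
        exact sum_le_sum fun v _ => (dg_le_sdiffG_add v _).trans
          (Nat.add_le_add_left (dg_le_univ _ _) _)
      rw [hKp] at h2
      omega)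
    (by omega)
  obtain ⟨ψ1, b1, b2, b3, b4⟩ := phase hG (X := X) (w := fun v => dg K v univ + 1) a1 a2
    (fun v k => (hH' v).trans (hT.small v k)) hT.cX
    (fun z k => by have := hz z k; have := hH' z; omega) a3 hw
    (by
      have h1 : ∑ v, dg (H \ K) v univ * (dg K v univ + 1) ≤
          ∑ v, (g * dg K v univ + dg H v univ) := sum_le_sum fun v _ => by
        rw [mul_add, mul_one]
        refine Nat.add_le_add ?_ (hH' v)
        by_cases k : v ∈ X
        · simp [hKX v k]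
        · exact Nat.mul_le_mul_right _ ((hH' v).trans (hT.small v k))
      rw [sum_add_distrib, ← mul_sum] at h1
      linarith [hT.tot, Nat.mul_le_mul_left g hKs])
    hg hk
  have b5 : ∀ i, ∑ v ∈ mv (ψ1 i), (dg K v univ + 1) ≤ 820 * g := fun i => by
    have h1 := sum_le_card_nsmul (mv (ψ0 i)) _ _ fun v _ => hw v
    have h2 := Nat.mul_le_mul_right (2 * g) (a4 i)
    have h3 := b4 i
    rw [smul_eq_mul] at h1
    omega
  obtain ⟨E, e1, e2⟩ := hE ι
    (fun p => univ.filter (fun i => (cls (mv (ψ1 i)) pt p).card % 2 ≠ s p)) n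
    (fun i => by
      have h1 := sum_par univ (fun p => (cls (mv (ψ1 i)) pt p).card) s hT.s1
      rw [card_cls_sum, sum3 s] at h1
      have h2 := Nat.even_iff.1 (even_card_mv (b1.inv i))
      have h3 := Nat.even_iff.1 hT.s2
      simp only [mem_filter, mem_univ, true_and]
      rw [Nat.even_iff]; omega)
    (fun p => by
      have h1 := card_filter_add_card_filter_not (s := (univ : Finset ι))
        (fun i => (cls (mv (ψ1 i)) pt p).card % 2 = s p)
      have h2 : (Iᶜ.filter (fun i => (cls (mv (ψ0 i)) pt p).card % 2 = s p)).card ≤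
          (univ.filter (fun i => (cls (mv (ψ1 i)) pt p).card % 2 = s p)).card :=
        card_le_card fun i hi => mem_filter.2 ⟨mem_univ _, by
          rw [b3 i (mem_compl.1 (mem_filter.1 hi).1)]; exact (mem_filter.1 hi).2⟩
      have h3 := a5 p
      rw [card_univ] at h1
      simp only [ne_eq]
      omega)
    (fun p => by
      have h1 := sum_par univ (fun i => (cls (mv (ψ1 i)) pt p).card) (fun _ => s p)
        (fun _ => hT.s1 p)
      have h2 := b1.sum_mv (cls univ pt p)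
      have h3 : ∑ v ∈ cls univ pt p, dg (H \ K) v univ + ∑ v ∈ cls univ pt p, dg K v univ =
          ∑ v ∈ cls univ pt p, dg H v univ := by
        rw [← sum_add_distrib]
        exact sum_congr rfl fun v _ => dg_sdiffG_add hKH v univ
      have h4 := hT.par p
      simp only [← cls_mv, b2] at h2
      rw [h2, sum_const, card_univ, smul_eq_mul] at h1
      rw [hKp] at h3
      omega)
  have hsm : ∀ t u v, (P t).Adj u v → dg H u univ ≤ g := fun t u v a => hT.small u (hPX t u v a)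
  have hd : ∀ t, P t ≤ K → Disjoint (P t) (H \ K) := fun t k =>
    disjoint_iff_adj.2 fun u v a b => b.2 (k a)
  have k0 : P 0 ≤ K := hK ▸ le_sup_left.trans le_sup_left
  have k1 : P 1 ≤ K := hK ▸ le_sup_right.trans le_sup_left
  have k2 : P 2 ≤ K := hK ▸ le_sup_right
  have hwt : ∀ t, P t ≤ K → ∀ v, dg (P t) v univ ≤ dg K v univ + 1 := fun t k v =>
    (dg_mono k v univ).trans (Nat.le_succ _)
  obtain ⟨ψ2, c1, c2, c3, c4⟩ := step hF (b1.mono sdiff_le) (hP 0) (b2.symm ▸ hd 0 k0) (hsm 0)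
    (hn 0) (e1 0) (hwt 0 k0) hw b5 (by have := (hn' 0).1; omega) (hn' 0).2 hg (by omega)
  obtain ⟨ψ3, f1, f2, f3, f4⟩ := step hF c1 (hP 1)
    (by rw [c2, b2]; exact (hd 1 k1).sup_right d01.symm) (hsm 1)
    (hn 1) (e1 1) (hwt 1 k1) hw c4 (by have := (hn' 1).1; omega) (hn' 1).2 hg (by omega)
  obtain ⟨ψ4, g1, g2, g3, g4⟩ := step hF f1 (hP 2)
    (by rw [f2, c2, b2]; exact ((hd 2 k2).sup_right d02.symm).sup_right d12.symm) (hsm 2)
    (hn 2) (e1 2) (hwt 2 k2) hw f4 (by have := (hn' 2).1; omega) (hn' 2).2 hg (by omega)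
  refine ⟨ψ4, g1, g1.full_iff.2 ?_, fun i p => ?_, fun i => ?_⟩
  · rw [g2, f2, c2, b2, sup_assoc, sup_assoc, ← sup_assoc (P 0), ← hK]
    exact le_sdiff_sup
  · have h1 := c3 i p
    have h2 := f3 i p
    have h3 := g3 i p
    have h4 := rot3 (fun t => if p ≠ t ∧ i ∈ E t then 1 else 0) p
    have h5 := e2 i p
    have h6 := hT.s1 p
    have k : ∀ p : ZMod 3, p ≠ p + 1 ∧ p ≠ p + 2 := by decide
    simp only [mem_filter, mem_univ, true_and] at h5
    simp only [ne_eq, not_true_eq_false, false_and, if_false, (k p).1, (k p).2,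
      not_false_eq_true, true_and] at h4
    simp only [ne_eq] at h1 h2 h3
    by_cases x : i ∈ E (p + 1) <;> by_cases y : i ∈ E (p + 2) <;>
      simp only [x, y, if_true, if_false, not_true_eq_false, not_false_eq_true, iff_true,
        iff_false, not_not, iff_self] at h4 h5 <;> omega
  · have h1 := card_nsmul_le_sum (mv (ψ4 i)) (fun v => dg K v univ + 1) 1
      fun v _ => Nat.le_add_left _ _
    have h2 := g4 i
    rw [smul_eq_mul] at h1
    omega

end Pool.Agent.MP_5c8b6d_co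

end

end MrgPart1

-- marker of a merged file
example : 731051 + 189061 = 731051 + 189061 := rfl
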