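import Mathlib.Data.Int.Star
import Mathlib.Tactic.NormNum.Prime
import Mathlib.Combinatorics.SimpleGraph.Operations
import Mathlib.Logic.Equiv.Bool
import Mathlib.Tactic.Algebra.Basic
import Pool.Agent.MP_5c8b6d_co.Core

-- ======== part 0: formerly Pool.Agent.MP_5c8b6d_co.MG
section MrgPart0

section

/-! FF: bipartite colourings with two class sizes. -/

namespace Pool.Agent.MP_5c8b6d_co

open Finset

set_option linter.unusedSectionVars false

namespace Ff

variable {V : Type} [Fintype V] [DecidableEq V]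

lemma equit (hK : KonStmt) (hE : EqStmt) (ι : Type) [Fintype ι] [DecidableEq ι]
    (G : SimpleGraph V) (σ : V → Bool) (hσ : ∀ u v, G.Adj u v → σ u ≠ σ v)
    (hd : ∀ v, dg G v univ ≤ Fintype.card ι) :
    ∃ M : ι → V → V, PC G M ∧ Full G M ∧ ∀ q : ℕ,
      (∑ v, dg G v univ ≤ 2 * q * Fintype.card ι → ∀ i, (mv (M i)).card ≤ 2 * q) ∧
      (2 * q * Fintype.card ι ≤ ∑ v, dg G v univ → ∀ i, 2 * q ≤ (mv (M i)).card) := by
  obtain ⟨M0, h0, f0⟩ := hK V ι G σ hσ hd
  obtain ⟨M, h, f, hb⟩ := hE V ι G M0 univ h0 f0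
  have hb' : ∀ i j, (mv (M i)).card ≤ (mv (M j)).card + 2 := by
    intro i j
    have a := card_fx_add (M i) univ
    have b := card_fx_add (M j) univ
    have c := hb j i
    rw [inter_univ] at a b
    omega
  have hs : ∑ i, (mv (M i)).card = ∑ v, dg G v univ := by
    have := h.sum_mv univ
    simp only [inter_univ] at this
    rw [this, h.cg_eq f]
  have hev : ∀ i, Even (mv (M i)).card := fun i => even_card_mv (h.inv i)
  refine ⟨M, h, f, fun q => ⟨fun hq i => ?_, fun hq i => ?_⟩⟩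
  · by_contra hc
    obtain ⟨c, hc'⟩ := hev i
    have h1 : ∑ _j : ι, 2 * q < ∑ j, (mv (M j)).card := by
      apply sum_lt_sum
      · intro j _; have := hb' i j; omega
      · exact ⟨i, mem_univ _, by omega⟩
    simp only [sum_const, card_univ, smul_eq_mul] at h1
    rw [hs, mul_comm] at h1
    omega
  · by_contra hc
    obtain ⟨c, hc'⟩ := hev i
    have h1 : ∑ j, (mv (M j)).card < ∑ _j : ι, 2 * q := by
      apply sum_lt_sum
      · intro j _; have := hb' j i; omega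
      · exact ⟨i, mem_univ _, by omega⟩
    simp only [sum_const, card_univ, smul_eq_mul] at h1
    rw [hs, mul_comm] at h1
    omega

lemma dg_edge {a b : V} (h : a ≠ b) (v : V) :
    dg (SimpleGraph.edge a b) v univ = (if v = a then 1 else 0) + (if v = b then 1 else 0) := by
  unfold dg
  by_cases ha : v = a
  · have : nb (SimpleGraph.edge a b) v univ = {b} := by
      ext u
      simp only [mem_nb, mem_univ, true_and, SimpleGraph.edge_adj, mem_singleton, ha]
      constructor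
      · rintro ⟨k | k, l⟩
        · exact k
        · exact absurd k.1 h
      · rintro rfl; exact ⟨Or.inl rfl, h⟩
    rw [this]; simp [ha, h]
  · by_cases hb : v = b
    · have : nb (SimpleGraph.edge a b) v univ = {a} := by
        ext u
        simp only [mem_nb, mem_univ, true_and, SimpleGraph.edge_adj, mem_singleton, hb]
        constructor
        · rintro ⟨k | k, l⟩
          · exact absurd k.1 h.symm
          · exact k
        · rintro rfl; exact ⟨Or.inr rfl, h.symm⟩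
      rw [this]; simp [hb, h.symm]
    · have : nb (SimpleGraph.edge a b) v univ = ∅ := by
        ext u
        simp [SimpleGraph.edge_adj, ha, hb]
      rw [this]; simp [ha, hb]

lemma edge_le {H : SimpleGraph V} {a b : V} (h : H.Adj a b) : SimpleGraph.edge a b ≤ H := by
  intro u v k
  rw [SimpleGraph.edge_adj] at k
  rcases k.1 with ⟨rfl, rfl⟩ | ⟨rfl, rfl⟩
  · exact h
  · exact h.symm

lemma dg_add_edge {H : SimpleGraph V} {a b : V} (h : a ≠ b) (hn : ¬ H.Adj a b) (v : V) :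
    dg (H ⊔ SimpleGraph.edge a b) v univ =
      dg H v univ + ((if v = a then 1 else 0) + (if v = b then 1 else 0)) := by
  rw [dg_sup, dg_edge h]
  rw [disjoint_iff_adj]
  intro u w k l
  rw [SimpleGraph.edge_adj] at l
  rcases l.1 with ⟨rfl, rfl⟩ | ⟨rfl, rfl⟩
  · exact hn k
  · exact hn k.symm

lemma dg_del_edge {H : SimpleGraph V} {a b : V} (h : H.Adj a b) (v : V) :
    dg (H \ SimpleGraph.edge a b) v univ +
      ((if v = a then 1 else 0) + (if v = b then 1 else 0)) = dg H v univ := by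
  rw [← dg_edge h.ne, dg_sdiffG_add (edge_le h)]

/-- the free slot can be moved to `a'` by changes at the vertices of `S` -/
def Mov (G H : SimpleGraph V) (σ : V → Bool) (x : ℕ) (S : Finset V) (a' : V) : Prop :=
  ∃ (H' : SimpleGraph V) (a : V), H' ≤ G ∧ σ a = true ∧ dg H a univ < x ∧
    (∀ v, dg H' v univ + (if v = a' then 1 else 0) = dg H v univ + (if v = a then 1 else 0)) ∧
    (∀ u, σ u = true → u ∉ S → ∀ v, H'.Adj u v ↔ H.Adj u v) ∧ ∀ v, H'.Adj a' v → H.Adj a' v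

lemma Mov.mono {G H : SimpleGraph V} {σ : V → Bool} {x : ℕ} {S S' : Finset V} {a' : V}
    (h : Mov G H σ x S a') (k : S ⊆ S') : Mov G H σ x S' a' := by
  obtain ⟨H', a, h1, h2, h3, h4, h5, h6⟩ := h
  exact ⟨H', a, h1, h2, h3, h4, fun u hu l => h5 u hu (fun m => l (k m)), h6⟩

lemma Mov.step {G H : SimpleGraph V} {σ : V → Bool} {x : ℕ} {S : Finset V} {a' b a'' : V}
    (hσ : ∀ u v, G.Adj u v → σ u ≠ σ v) (hH : H ≤ G) (h : Mov G H σ x S a') (ha : a' ∈ S)
    (hs : σ a' = true) (h1 : G.Adj a' b) (h2 : ¬ H.Adj a' b) (h3 : H.Adj a'' b)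
    (hn : a'' ∉ S) : Mov G H σ x (insert a'' S) a'' := by
  obtain ⟨H', a, k1, k2, k3, k4, k5, k6⟩ := h
  have sb : σ b = false := by
    have := hσ _ _ h1; rw [hs] at this; simpa using this
  have sa : σ a'' = true := by
    have := hσ _ _ (hH h3); rw [sb] at this; simpa using this
  have hne : a'' ≠ a' := fun e => hn (e ▸ ha)
  have n1 : ¬ H'.Adj a' b := fun e => h2 (k6 b e)
  have n2 : (H' ⊔ SimpleGraph.edge a' b).Adj a'' b := Or.inl ((k5 a'' sa hn b).2 h3)
  refine ⟨(H' ⊔ SimpleGraph.edge a' b) \ SimpleGraph.edge a'' b, a,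
    sdiff_le.trans (sup_le k1 (edge_le h1)), k2, k3, fun v => ?_, fun u hu hu' v => ?_,
    fun v hv => ?_⟩
  · have e1 := dg_del_edge n2 v
    have e2 := dg_add_edge h1.ne n1 v
    have e3 := k4 v
    omega
  · have u1 : u ≠ a'' := fun e => hu' (e ▸ mem_insert_self _ _)
    have u2 : u ∉ S := fun e => hu' (mem_insert_of_mem e)
    have u3 : u ≠ a' := fun e => u2 (e ▸ ha)
    have u4 : u ≠ b := fun e => by rw [e, sb] at hu; exact absurd hu (by simp)
    simp only [SimpleGraph.sdiff_adj, SimpleGraph.sup_adj, SimpleGraph.edge_adj, u1, u3, u4,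
      false_and, or_self, or_false, not_false_eq_true, and_true]
    exact k5 u hu u2 v
  · have u4 : a'' ≠ b := h3.ne
    have := hv.1
    simp only [SimpleGraph.sup_adj, SimpleGraph.edge_adj, hne, u4,
      false_and, or_self, or_false] at this
    exact (k5 a'' sa hn v).1 this

lemma Mov.fin {G H : SimpleGraph V} {σ : V → Bool} {x : ℕ} {S : Finset V} {a' b : V}
    (hσ : ∀ u v, G.Adj u v → σ u ≠ σ v) (hd : ∀ v, dg H v univ ≤ x) (h : Mov G H σ x S a')
    (hs : σ a' = true) (h1 : G.Adj a' b) (h2 : ¬ H.Adj a' b) (hb : dg H b univ < x) :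
    ∃ H' : SimpleGraph V, H' ≤ G ∧ (∀ v, dg H v univ ≤ dg H' v univ ∧ dg H' v univ ≤ x) ∧
      ∑ v, dg H' v univ = ∑ v, dg H v univ + 2 := by
  obtain ⟨H', a, k1, k2, k3, k4, _, k6⟩ := h
  have sb : σ b = false := by
    have := hσ _ _ h1; rw [hs] at this; simpa using this
  have hab : a ≠ b := fun e => by rw [e, sb] at k2; exact absurd k2 (by simp)
  have n1 : ¬ H'.Adj a' b := fun e => h2 (k6 b e)
  have key : ∀ v, dg (H' ⊔ SimpleGraph.edge a' b) v univ =
      dg H v univ + ((if v = a then 1 else 0) + (if v = b then 1 else 0)) := by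
    intro v
    have e2 := dg_add_edge h1.ne n1 v
    have e3 := k4 v
    omega
  refine ⟨H' ⊔ SimpleGraph.edge a' b, sup_le k1 (edge_le h1), fun v => ?_, ?_⟩
  · rw [key]
    refine ⟨Nat.le_add_right _ _, ?_⟩
    by_cases e : v = a
    · subst e; simp only [if_true, hab, if_false]; omega
    · by_cases e' : v = b
      · subst e'; simp only [if_true, e, if_false]; omega
      · simp only [e, e', if_false]; exact hd v
  · simp_rw [key]
    rw [sum_add_distrib, sum_add_distrib]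
    simp

lemma closed_set {G H : SimpleGraph V} {σ : V → Bool} (x : ℕ)
    (hσ : ∀ u v, G.Adj u v → σ u ≠ σ v) (hH : H ≤ G) :
    ∃ S : Finset V, (∀ a ∈ S, σ a = true ∧ Mov G H σ x S a) ∧
      (∀ a, σ a = true → dg H a univ < x → a ∈ S) ∧
      ∀ a ∈ S, ∀ b a'', G.Adj a b → ¬ H.Adj a b → H.Adj a'' b → a'' ∈ S := by
  classical
  set 𝒮 : Finset (Finset V) := univ.filter (fun S => ∀ a ∈ S, σ a = true ∧ Mov G H σ x S a)
    with h𝒮
  obtain ⟨S, hS, hm⟩ := exists_max_image 𝒮 card ⟨∅, by simp [h𝒮]⟩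
  have hS' := (mem_filter.1 hS).2
  have ext : ∀ a, σ a = true → Mov G H σ x (insert a S) a → a ∈ S := by
    intro a ha hmv
    by_contra hn
    have : insert a S ∈ 𝒮 := by
      refine mem_filter.2 ⟨mem_univ _, fun c hc => ?_⟩
      rcases mem_insert.1 hc with rfl | hc
      · exact ⟨ha, hmv⟩
      · exact ⟨(hS' c hc).1, (hS' c hc).2.mono (subset_insert _ _)⟩
    have := hm _ this
    rw [card_insert_of_notMem hn] at this
    omega
  refine ⟨S, hS', fun a ha hl => ext a ha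
    ⟨H, a, hH, ha, hl, fun _ => rfl, fun _ _ _ _ => Iff.rfl, fun _ k => k⟩,
    fun a ha b a'' h1 h2 h3 => ?_⟩
  by_contra hn
  have sb : σ b = false := by
    have := hσ _ _ h1; rw [(hS' a ha).1] at this; simpa using this
  have sa : σ a'' = true := by
    have := hσ _ _ (hH h3); rw [sb] at this; simpa using this
  exact hn (ext a'' sa ((hS' a ha).2.step hσ hH ha (hS' a ha).1 h1 h2 h3 hn))

lemma aug {G H : SimpleGraph V} {σ : V → Bool} {k p x : ℕ}
    (hσ : ∀ u v, G.Adj u v → σ u ≠ σ v) (hx : x ≤ k)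
    (ht : ∑ v, dg G v univ = 2 * (p * k + 2 * x)) (hk : ∀ v, dg G v univ ≤ k)
    (hC : ∀ C : Finset V, C.card = p + 1 → ∑ v ∈ C, dg G v univ ≤ p * k + x)
    (hH : H ≤ G) (hd : ∀ v, dg H v univ ≤ x) (hl : ∑ v, dg H v univ < 2 * (x * (p + 2))) :
    ∃ H' : SimpleGraph V, H' ≤ G ∧ (∀ v, dg H v univ ≤ dg H' v univ ∧ dg H' v univ ≤ x) ∧
      ∑ v, dg H' v univ = ∑ v, dg H v univ + 2 := by
  classical
  obtain ⟨S, h1, h2, h3⟩ := closed_set x hσ hH
  set B : Finset V := univ.filter (fun b => ∃ a ∈ S, G.Adj a b ∧ ¬ H.Adj a b) with hB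
  by_cases hb : ∃ b ∈ B, dg H b univ < x
  · obtain ⟨b, hb1, hb2⟩ := hb
    obtain ⟨a, ha, k1, k2⟩ := (mem_filter.1 hb1).2
    exact (h1 a ha).2.fin hσ hd (h1 a ha).1 k1 k2 hb2
  exfalso
  push Not at hb
  set A : Finset V := cls univ σ true with hA
  have hSA : S ⊆ A := fun a ha => mem_cls.2 ⟨mem_univ _, (h1 a ha).1⟩
  have hBf : ∀ b ∈ B, σ b = false := by
    intro b hb1
    obtain ⟨a, ha, k1, _⟩ := (mem_filter.1 hb1).2
    have := hσ _ _ k1; rw [(h1 a ha).1] at this; simpa using this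
  have side : ∀ K : SimpleGraph V, K ≤ G → 2 * ∑ v ∈ A, dg K v univ = ∑ v, dg K v univ := by
    intro K hK
    apply two_mul_sum_dg
    intro u v huv
    have := hσ u v (hK huv)
    simp only [hA, mem_cls, mem_univ, true_and]
    cases hu : σ u <;> cases hv : σ v <;> simp_all
  have e1 := side H hH
  have e2 := side G le_rfl
  have e3 := sum_sdiff (f := fun v => dg H v univ) hSA
  have e4 := sum_sdiff (f := fun v => dg G v univ) hSA
  have e5 : ∑ v ∈ A \ S, dg H v univ = x * (A \ S).card := by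
    rw [sum_congr rfl (g := fun _ => x), sum_const, smul_eq_mul, mul_comm]
    intro v hv
    have k1 := mem_sdiff.1 hv
    have k2 : ¬ dg H v univ < x := fun l => k1.2 (h2 v (mem_cls.1 k1.1).2 l)
    have := hd v
    omega
  have e6 : ∑ v ∈ S, dg H v univ = ∑ v ∈ S, dg H v B + ∑ v ∈ S, dg G v Bᶜ := by
    rw [← sum_add_distrib]
    refine sum_congr rfl fun v hv => ?_
    rw [← dg_add_compl v B]
    congr 1
    refine dg_congr fun u => ⟨fun k => ⟨k.1, hH k.2⟩, fun k => ⟨k.1, ?_⟩⟩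
    by_contra hn
    exact (mem_compl.1 k.1) (mem_filter.2 ⟨mem_univ _, v, hv, k.2, hn⟩)
  have e7 : ∑ v ∈ S, dg H v B = x * B.card := by
    rw [sum_dg_comm, sum_congr rfl (g := fun _ => x), sum_const, smul_eq_mul, mul_comm]
    intro b hb1
    obtain ⟨a, ha, k1, k2⟩ := (mem_filter.1 hb1).2
    have k3 : dg H b S = dg H b univ :=
      dg_congr fun u => ⟨fun k => ⟨mem_univ _, k.2⟩, fun k => ⟨h3 a ha b u k1 k2 k.2.symm, k.2⟩⟩
    have := hd b
    have := hb b hb1
    omega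
  have e8 : ∑ v ∈ S, dg G v univ ≤ ∑ v ∈ B, dg G v univ + ∑ v ∈ S, dg G v Bᶜ := by
    have k1 : ∑ v ∈ S, dg G v univ = ∑ v ∈ S, dg G v B + ∑ v ∈ S, dg G v Bᶜ := by
      rw [← sum_add_distrib]
      exact sum_congr rfl fun v _ => (dg_add_compl v B).symm
    have k2 : ∑ v ∈ S, dg G v B ≤ ∑ v ∈ B, dg G v univ := by
      rw [sum_dg_comm]; exact sum_le_sum fun v _ => dg_le_univ _ _
    omega
  have dj : Disjoint (A \ S) B := by
    rw [disjoint_left]
    intro v hv hv'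
    have k1 := (mem_cls.1 (mem_sdiff.1 hv).1).2
    rw [hBf v hv'] at k1
    exact absurd k1 (by simp)
  have e9 := sum_union (f := fun v => dg G v univ) dj
  have e10 := card_union_of_disjoint dj
  set C := A \ S ∪ B with hCd
  set E := ∑ v ∈ S, dg G v Bᶜ with hE
  have f1 : x * C.card + E < x * (p + 2) := by rw [e10, mul_add]; omega
  have f2 : p * k + 2 * x ≤ ∑ v ∈ C, dg G v univ + E := by omega
  have f3 : ∑ v ∈ C, dg G v univ ≤ C.card * k := by
    simpa using sum_le_card_nsmul C (fun v => dg G v univ) k (fun v _ => hk v)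
  rcases lt_trichotomy C.card (p + 1) with h | h | h
  · obtain ⟨d, hd'⟩ : ∃ d, p = C.card + d := ⟨p - C.card, by omega⟩
    have : d * x ≤ d * k := Nat.mul_le_mul_left _ hx
    rw [hd'] at f1 f2
    linarith
  · have := hC C h
    rw [h] at f1
    linarith
  · have : x * (p + 2) ≤ x * C.card := Nat.mul_le_mul_left _ h
    omega

lemma window {G : SimpleGraph V} {σ : V → Bool} {k p x y : ℕ}
    (hσ : ∀ u v, G.Adj u v → σ u ≠ σ v) (hx : x ≤ k)
    (ht : ∑ v, dg G v univ = 2 * (p * k + 2 * x)) (hk : ∀ v, dg G v univ ≤ k)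
    (hC : ∀ C : Finset V, C.card = p + 1 → ∑ v ∈ C, dg G v univ ≤ p * k + x) (n : ℕ) :
    ∀ H : SimpleGraph V, H ≤ G → (∀ v, dg H v univ ≤ x ∧ dg G v univ ≤ dg H v univ + y) →
      ∑ v, dg H v univ + 2 * n = 2 * (x * (p + 2)) →
      ∃ H' : SimpleGraph V, H' ≤ G ∧ (∀ v, dg H' v univ ≤ x ∧ dg G v univ ≤ dg H' v univ + y) ∧
        ∑ v, dg H' v univ = 2 * (x * (p + 2)) := by
  induction n with
  | zero => intro H h1 h2 h3; exact ⟨H, h1, h2, by simpa using h3⟩
  | succ n ih =>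
    intro H h1 h2 h3
    obtain ⟨H', k1, k2, k3⟩ := aug hσ hx ht hk hC h1 (fun v => (h2 v).1) (by omega)
    refine ih H' k1 (fun v => ⟨(k2 v).2, ?_⟩) (by omega)
    have := (h2 v).2
    have := (k2 v).1
    omega

lemma split (hK : KonStmt) (hE : EqStmt) (G : SimpleGraph V) (σ : V → Bool) (p x y : ℕ)
    (hσ : ∀ u v, G.Adj u v → σ u ≠ σ v)
    (ht : ∑ v, dg G v univ = 2 * (p * (x + y) + 2 * x)) (hk : ∀ v, dg G v univ ≤ x + y)
    (hC : ∀ C : Finset V, C.card = p + 1 → ∑ v ∈ C, dg G v univ ≤ p * (x + y) + x) :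
    ∃ M : Fin x ⊕ Fin y → V → V, PC G M ∧ Full G M ∧
      ∀ i, (mv (M i)).card = 2 * p ∨ (mv (M i)).card = 2 * p + 4 := by
  obtain ⟨M0, h0, f0, b0⟩ := equit hK hE (Fin x ⊕ Fin y) G σ hσ (by simpa using hk)
  have b1 := (b0 (p + 2)).1 (by
    rw [ht]; simp only [Fintype.card_sum, Fintype.card_fin]; linarith)
  have h1 : PC G (fun j : Fin x => M0 (Sum.inl j)) := h0.comp Sum.inl_injective
  have h2 : PC G (fun j : Fin y => M0 (Sum.inr j)) := h0.comp Sum.inr_injective
  have hG : G = cg (fun j : Fin x => M0 (Sum.inl j)) ⊔ cg (fun j : Fin y => M0 (Sum.inr j)) := by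
    rw [← cg_sum, ← h0.cg_eq f0]
    congr 1
    funext i
    cases i <;> rfl
  set H0 := cg (fun j : Fin x => M0 (Sum.inl j)) with hH0
  have s0 : ∑ v, dg H0 v univ ≤ 2 * (x * (p + 2)) := by
    have k1 := h1.sum_mv univ
    simp only [inter_univ] at k1
    rw [← k1]
    have := sum_le_card_nsmul (univ : Finset (Fin x)) (fun j => (mv (M0 (Sum.inl j))).card)
      (2 * (p + 2)) (fun j _ => b1 _)
    simp only [card_univ, Fintype.card_fin, smul_eq_mul] at this
    linarith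
  have w0 : ∀ v, dg H0 v univ ≤ x ∧ dg G v univ ≤ dg H0 v univ + y := by
    intro v
    have k1 := h1.dg_add_miss v
    have k2 := h2.dg_add_miss v
    have k3 := dg_sup_le (G := H0) (G' := cg (fun j : Fin y => M0 (Sum.inr j))) v univ
    rw [← hG] at k3
    simp only [Fintype.card_fin] at k1 k2
    rw [← hH0] at k1
    constructor <;> omega
  obtain ⟨c, hc⟩ := even_sum_dg (G := H0) univ
  obtain ⟨H, hH, w, s⟩ := window (y := y) hσ (Nat.le_add_right x y) ht hk hC
    (x * (p + 2) - c) H0 h1.cg_le w0 (by omega)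
  have s' : ∑ v, dg (G \ H) v univ = 2 * p * y := by
    have k1 : ∑ v, dg (G \ H) v univ + ∑ v, dg H v univ = ∑ v, dg G v univ := by
      rw [← sum_add_distrib]; exact sum_congr rfl fun v _ => dg_sdiffG_add hH v univ
    rw [s, ht] at k1
    linarith
  obtain ⟨M1, p1, f1, c1⟩ := equit hK hE (Fin x) H σ (fun u v k => hσ u v (hH k))
    (fun v => by simpa using (w v).1)
  obtain ⟨M2, p2, f2, c2⟩ := equit hK hE (Fin y) (G \ H) σ (fun u v k => hσ u v k.1)
    (fun v => by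
      have := dg_sdiffG_add hH v univ
      have := (w v).2
      simp only [Fintype.card_fin]; omega)
  have g1 := p1.cg_eq f1
  have g2 := p2.cg_eq f2
  have pc : PC G (Sum.elim M1 M2) := (p1.mono hH).sum (p2.mono sdiff_le) (by
    rw [g1, g2]; exact disjoint_sdiff_self_right)
  refine ⟨Sum.elim M1 M2, pc, pc.full_iff.2 ?_, fun i => ?_⟩
  · rw [cg_sum, g1, g2]; exact le_sup_sdiff
  · cases i with
    | inl j =>
      right
      have k1 := (c1 (p + 2)).1 (by rw [s]; simp only [Fintype.card_fin]; linarith) j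
      have k2 := (c1 (p + 2)).2 (by rw [s]; simp only [Fintype.card_fin]; linarith) j
      simp only [Sum.elim_inl]; omega
    | inr j =>
      left
      have k1 := (c2 p).1 (by rw [s']; simp) j
      have k2 := (c2 p).2 (by rw [s']; simp) j
      simp only [Sum.elim_inr]; omega

end Ff

theorem ff_of (hK : KonStmt) (hE : EqStmt) : FfStmt := by
  intro V ι _ _ _ _ G σ p x hσ hx ht hk hC
  obtain ⟨y, hy⟩ := Nat.exists_eq_add_of_le hx
  rw [hy] at ht hk hC
  obtain ⟨M, h, f, c⟩ := Ff.split hK hE G σ p x y hσ ht hk hC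
  have e : ι ≃ Fin x ⊕ Fin y := Fintype.equivOfCardEq (by simpa using hy)
  have h' : PC G (fun j => M (e j)) := h.comp e.injective
  refine ⟨fun j => M (e j), h', h'.full_iff.2 ?_, fun i => c (e i)⟩
  rw [cg_comp_equiv, h.cg_eq f]

end Pool.Agent.MP_5c8b6d_co

end

section

/-! Colouring the edges that leave a set with classes of a prescribed parity, and the schedule
with one parity condition. -/

namespace Pool.Agent.MP_5c8b6d_co

open Finset

namespace Parr

set_option linter.unusedSectionVars false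

variable {V ι : Type} [Fintype V] [DecidableEq V] [Fintype ι] [DecidableEq ι]
  {H : SimpleGraph V}

/-- a matching of edges with one end in `S` has half of its vertices in `S` -/
theorem two_mul_inter {μ : V → V} (h : ∀ v, μ (μ v) = v) {S : Finset V}
    (hS : ∀ v, μ v ≠ v → (v ∈ S ↔ μ v ∉ S)) : 2 * (mv μ ∩ S).card = (mv μ).card := by
  have h1 : (mv μ ∩ S).card = (mv μ \ S).card := card_eq_of_inv h
    (fun v hv => by
      simp only [mem_inter, mem_sdiff, mem_mv] at hv ⊢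
      exact ⟨inv_ne h hv.1, (hS v hv.1).1 hv.2⟩)
    (fun v hv => by
      simp only [mem_inter, mem_sdiff, mem_mv] at hv ⊢
      exact ⟨inv_ne h hv.1, by_contra fun k => hv.2 ((hS v hv.1).2 k)⟩)
  have h2 := card_inter_add_card_sdiff (mv μ) S
  omega

/-- classes with `p` or `p + 2` edges, balanced for a weight -/
theorem core (hF : FfStmt) (hW : WeqStmt) (ι : Type) [Fintype ι] [DecidableEq ι]
    (H : SimpleGraph V) (S : Finset V) (w : V → ℕ) {ω p x : ℕ} (hw : ∀ v, w v ≤ ω)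
    (hx : x ≤ Fintype.card ι) (ho : out H S = p * Fintype.card ι + 2 * x)
    (hd : ∀ v, mu H S v ≤ Fintype.card ι)
    (hC : ∀ C : Finset V, C.card = p + 1 → ∑ v ∈ C, mu H S v ≤ p * Fintype.card ι + x) :
    ∃ ψ : ι → V → V, PC H ψ ∧ cg ψ = cutG H S ∧ (∀ i, (mv (ψ i) ∩ S).card % 2 = p % 2) ∧
      ∀ i, Fintype.card ι * ∑ v ∈ mv (ψ i), w v ≤
        ∑ v, mu H S v * w v + 4 * ω * Fintype.card ι := by
  obtain ⟨M, a, b, c⟩ := hF V ι (cutG H S) (fun v => decide (v ∈ S)) p x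
    (fun u v k => by
      have := (cutG_adj.1 k).2
      by_cases l : u ∈ S <;> simp_all)
    hx (by simp only [dg_cutG]; rw [sum_mu, ho]) (by simpa only [dg_cutG] using hd)
    (by simpa only [dg_cutG] using hC)
  obtain ⟨M', a', b', -, d', e'⟩ := hW V ι (cutG H S) M univ S w ω a hw
  refine ⟨M', a'.mono (sub_le _), b'.trans (a.cg_eq b), fun i => ?_, fun i => ?_⟩
  · have := two_mul_inter (a.inv i) (S := S) fun v k => (cutG_adj.1 (a.adj i v k)).2
    have := c i
    rw [d' i]; omega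
  · have := e' i (mem_univ _)
    simp only [← a.dg_cg, a.cg_eq b, dg_cutG, card_univ] at this
    exact this

theorem weight {k k' X A ω : ℕ} (h : k' * X ≤ A + 4 * ω * k') (hk : 9 * k ≤ 10 * k') :
    9 * k * X ≤ 10 * A + 36 * k * ω := by
  by_cases c : X ≤ 4 * ω
  · linarith [Nat.mul_le_mul_left (9 * k) c]
  · obtain ⟨Y, rfl⟩ := Nat.exists_eq_add_of_le (not_le.1 c).le
    have h1 : k' * Y ≤ A := by linarith
    linarith [Nat.mul_le_mul_right Y hk]

theorem par_odd (hF : FfStmt) (hW : WeqStmt) (S : Finset V) (w : V → ℕ) {ω : ℕ}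
    (hw : ∀ v, w v ≤ ω) (h : ParOK H S (Fintype.card ι) 1)
    (ho : out H S % 2 = Fintype.card ι % 2) (hk : 0 < Fintype.card ι) :
    ∃ ψ : ι → V → V, PC H ψ ∧ cg ψ = cutG H S ∧ (∀ i, (mv (ψ i) ∩ S).card % 2 = 1) ∧
      (∀ i, 9 * Fintype.card ι * ∑ v ∈ mv (ψ i), w v ≤
        10 * ∑ v, mu H S v * w v + 36 * Fintype.card ι * ω) ∧
      ∀ u v, Fintype.card ι ≤ 20 * fr ψ univ u v + 20 := by
  have h1 := h.h1 rfl
  have h2 := h.h1' rfl
  generalize hk' : Fintype.card ι = k at *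
  have e1 := Nat.div_add_mod (out H S - k) (2 * k)
  have e2 := Nat.mod_lt (out H S - k) (show 0 < 2 * k by omega)
  generalize (out H S - k) / (2 * k) = t at e1
  generalize (out H S - k) % (2 * k) = y at e1 e2
  have e3 : (2 * t + 1) * k = 2 * (k * t) + k := by ring
  have e4 : 2 * k * t = 2 * (k * t) := by ring
  obtain ⟨ψ, a, b, c, d⟩ := core hF hW ι H S w (p := 2 * t + 1) (x := y / 2) hw
    (by rw [hk']; omega) (by rw [hk']; omega) (fun v => by have := h2 v; rw [hk']; omega)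
    (fun C hC => by
      have := sum_le_card_nsmul C (fun v => 20 * mu H S v) (9 * k) fun v _ => h2 v
      rw [← mul_sum, hC, smul_eq_mul] at this
      have e5 : (2 * t + 1 + 1) * (9 * k) = 18 * (k * t) + 18 * k := by ring
      rw [hk']; omega)
  refine ⟨ψ, a, b, fun i => by rw [c i]; omega, fun i => ?_, fun u v => ?_⟩
  · have := d i
    rw [hk'] at this
    exact weight this (by omega)
  · have := a.fr_ge univ u v
    rw [b, dg_cutG, dg_cutG, card_univ, hk'] at this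
    have := h2 u
    have := h2 v
    omega

theorem par_even (hF : FfStmt) (hW : WeqStmt) (S : Finset V) (w : V → ℕ) {ω : ℕ}
    (hw : ∀ v, w v ≤ ω) (h : ParOK H S (Fintype.card ι) 0)
    (ho : out H S % 2 = 0) (hk : 0 < Fintype.card ι) :
    ∃ ψ : ι → V → V, PC H ψ ∧ cg ψ = cutG H S ∧ (∀ i, (mv (ψ i) ∩ S).card % 2 = 0) ∧
      (∀ i, 9 * Fintype.card ι * ∑ v ∈ mv (ψ i), w v ≤
        10 * ∑ v, mu H S v * w v + 36 * Fintype.card ι * ω) ∧
      ∀ u v, Fintype.card ι ≤ 20 * fr ψ univ u v + 20 := by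
  have h1 := h.h0 rfl
  obtain ⟨y0, h2, h3⟩ := h.h0' rfl
  obtain ⟨k', hk'⟩ : ∃ k', Fintype.card ι = k' + Fintype.card ι / 20 := ⟨_, by
    rw [Nat.sub_add_cancel (Nat.div_le_self _ _)]⟩
  let e : ι ≃ Fin k' ⊕ Fin (Fintype.card ι / 20) := Fintype.equivOfCardEq (by simpa using hk')
  have e1 := Nat.div_add_mod (out H S) (2 * k')
  have e2 := Nat.mod_lt (out H S) (show 0 < 2 * k' by omega)
  generalize out H S / (2 * k') = t at e1
  generalize out H S % (2 * k') = y at e1 e2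
  have e3 : 2 * t * k' = 2 * (k' * t) := by ring
  have e4 : 2 * k' * t = 2 * (k' * t) := by ring
  have h4 : ∀ v, 20 * mu H S v ≤ 11 * Fintype.card ι + if v = y0 then 2 * Fintype.card ι else 0 :=
    fun v => by
      by_cases c : v = y0
      · rw [if_pos c, c]; omega
      · have := h3 v c
        omega
  obtain ⟨ψ, a, b, c, d⟩ := core hF hW (Fin k') H S w (p := 2 * t) (x := y / 2) hw
    (by rw [Fintype.card_fin]; omega) (by rw [Fintype.card_fin]; omega)
    (fun v => by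
      have := h4 v
      rw [Fintype.card_fin]; split_ifs at this <;> omega)
    (fun C hC => by
      rw [Fintype.card_fin]
      rcases Nat.eq_zero_or_pos t with rfl | ht
      · obtain ⟨v, rfl⟩ := card_eq_one.1 hC
        have := h1 v
        rw [sum_singleton]; omega
      · have f1 := sum_le_sum (s := C) fun v _ => h4 v
        rw [← mul_sum, sum_add_distrib, sum_const, hC, smul_eq_mul, sum_ite_eq'] at f1
        have f2 : (2 * t + 1) * (11 * Fintype.card ι) =
          22 * (Fintype.card ι * t) + 11 * Fintype.card ι := by ring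
        have f3 : 19 * (Fintype.card ι * t) ≤ 20 * (k' * t) := by
          rw [← mul_assoc, ← mul_assoc]; exact Nat.mul_le_mul_right _ (by omega)
        have f4 : Fintype.card ι ≤ Fintype.card ι * t := Nat.le_mul_of_pos_right _ ht
        split_ifs at f1 <;> omega)
  have g := a.sum (pc_id (ι := Fin (Fintype.card ι / 20))) (by simp [cg_id])
  refine ⟨_, g.comp e.injective, ?_, fun i => ?_, fun i => ?_, fun u v => ?_⟩
  · rw [cg_comp_equiv, cg_sum, cg_id, sup_bot_eq, b]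
  · rcases e i with j | j
    · rw [Sum.elim_inl, c j]; omega
    · simp [mv]
  · rcases e i with j | j
    · have := d j
      rw [Fintype.card_fin] at this
      exact weight this (by omega)
    · simp [mv]
  · have : Fintype.card ι / 20 ≤ fr (fun j => Sum.elim ψ
        (fun (_ : Fin (Fintype.card ι / 20)) (v : V) => v) (e j)) univ u v := by
      refine le_trans (by simp) (card_le_card_of_injOn (s := univ) (fun j => e.symm (Sum.inr j))
        (fun j _ => by simp) fun _ _ _ _ k => Sum.inr_injective (e.symm.injective k))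
    omega

/-- the indicator of a set -/
def ind (T : Finset V) (v : V) : ℕ := if v ∈ T then 1 else 0

theorem ind_le (T : Finset V) (v : V) : ind T v ≤ 1 := by
  unfold ind; split_ifs <;> omega

theorem sum_ind (T A : Finset V) : ∑ v ∈ A, ind T v = (A ∩ T).card := by
  simp [ind]

theorem sum_mul_ind (T : Finset V) (f : V → ℕ) : ∑ v, f v * ind T v = ∑ v ∈ T, f v := by
  simp [ind]

end Parr

open _root_.Pool.Agent.MP_5c8b6d_co.Parr in
theorem par_of (hF : FfStmt) (hW : WeqStmt) : ParStmt := by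
  intro V ι _ _ _ _ H S b w ω hb h ho hk hw
  obtain rfl | rfl : b = 0 ∨ b = 1 := by omega
  · obtain ⟨ψ, a, b, c⟩ := par_even hF hW S w hw h (by simpa using ho) (by omega)
    exact ⟨ψ, a, fun u v => by rw [b, cutG_adj], c⟩
  · obtain ⟨ψ, a, b, c⟩ := par_odd hF hW S w hw h (by simpa using ho) (by omega)
    exact ⟨ψ, a, fun u v => by rw [b, cutG_adj], c⟩

open _root_.Pool.Agent.MP_5c8b6d_co.Parr in
theorem sch_of (hP : ParStmt) (hG : PlgStmt) : SchStmt := by
  intro V ι _ _ _ _ H T S b g q τ hTS hb hok ho dT dZ dO dq hq hg hk hT hτ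
  obtain ⟨ψ1, a1, b1, c1, d1, e1⟩ := hP V ι H S b (ind T) 1 hb hok ho (by omega) (ind_le T)
  have w1 : ∀ i, (mv (ψ1 i) ∩ T).card ≤ 4 * g + 4 := fun i => by
    have x := d1 i
    have y := sum_le_card_nsmul T (fun v => mu H S v) g fun v hv => (mu_le_dg S v).trans (dT v hv)
    rw [sum_ind, sum_mul_ind] at x
    rw [smul_eq_mul] at y
    refine Nat.le_of_mul_le_mul_left (c := 9 * Fintype.card ι) ?_ (by omega)
    nlinarith [Nat.mul_le_mul_right g hT]
  obtain ⟨ψ2, a2, b2, c2, -, d2, e2⟩ := hG V ι H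
    (sub H (fun u v => u ∉ T ∧ (u ∈ S ↔ v ∈ S))) ψ1 univ (ind T) 1 1 1 a1 (sub_le _)
    (disjoint_iff_adj.2 fun u v x y => by
      have := ((b1 u v).1 y).2
      have := x.2.1.2
      tauto)
    (fun u v x => by
      have key : ∀ z, dg (sub H (fun u v => u ∉ T ∧ (u ∈ S ↔ v ∈ S))) z univ ≤ g := fun z => by
        by_cases k : z ∈ T
        · exact (dg_mono (sub_le _) _ _).trans (dT z k)
        by_cases l : z ∈ S
        · exact le_trans (dg_le_of fun u _ y =>
            ⟨mem_sdiff.2 ⟨y.2.1.2.1 l, y.2.2.1⟩, y.1⟩) (dZ z (mem_sdiff.2 ⟨l, k⟩))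
        · exact le_trans (dg_le_of fun u _ y =>
            ⟨mem_compl.2 fun c => l (y.2.1.2.2 c), y.1⟩) (dO z l)
      have := key u
      have := key v
      have := e1 u v
      omega)
    (ind_le T)
    (by
      rw [sum_mul_ind, sum_eq_zero fun v hv => dg_eq_zero.2 fun u _ y => (sub_adj.1 y).2.1.1 hv]
      omega)
  have hd : Disjoint (sub H (fun u v => u ∈ S ∧ (u ∈ T ∨ v ∈ T))) (cg ψ2) :=
    disjoint_iff_adj.2 fun u v x y => by
      rw [c2] at y
      have h1 := x.2.1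
      have h2 := x.2.2
      rcases y with y | y
      · have := ((b1 u v).1 y).2
        tauto
      · have := y.2.1.1
        have := y.2.2.1
        tauto
  have hs : ∀ z, dg (sub H (fun u v => u ∈ S ∧ (u ∈ T ∨ v ∈ T))) z univ + dg (cg ψ2) z univ ≤
      dg H z univ := fun z => by
    rw [← dg_sup hd]; exact dg_mono (sup_le (sub_le _) a2.cg_le) _ _
  obtain ⟨ψ3, a3, b3, c3, -, d3, e3⟩ := hG V ι H
    (sub H (fun u v => u ∈ S ∧ (u ∈ T ∨ v ∈ T))) ψ2 univ (ind T) 1 q τ a2 (sub_le _) hd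
    (fun u v x => by
      have := a2.fr_ge univ u v
      have := hs u
      have := hs v
      rw [card_univ] at *
      by_cases k : u ∈ T <;> by_cases l : v ∈ T
      · have := dT u k
        have := dT v l
        omega
      · have := dT u k
        have := dq v (mem_sdiff.2 ⟨x.2.2.1, l⟩)
        omega
      · have := dT v l
        have := dq u (mem_sdiff.2 ⟨x.2.1.1, k⟩)
        omega
      · exact absurd x.2.1.2 (by tauto))
    (ind_le T)
    (by
      have y := sum_le_card_nsmul T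
        (fun v => dg (sub H (fun u v => u ∈ S ∧ (u ∈ T ∨ v ∈ T))) v univ) g
        fun v hv => (dg_mono (sub_le _) _ _).trans (dT v hv)
      rw [smul_eq_mul, mul_comm] at y
      rw [sum_mul_ind]; omega)
  refine ⟨ψ3, a3, a3.full_iff.2 fun u v x => ?_, fun i => ?_, fun i => ?_⟩
  · rw [c3, c2]
    simp only [SimpleGraph.sup_adj, sub_adj, b1, x, true_and]
    have := @hTS u
    have := @hTS v
    tauto
  · rw [ext_parity (a3.inv i) (a2.inv i) (b3 i) fun v _ x y => (d3 i v x y).2.2.1,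
      ext_parity (a2.inv i) (a1.inv i) (b2 i) fun v hv x y => (d2 i v x y).2.1.2.1 hv, c1]
  · have x := e2 i
    have y := e3 i
    have := w1 i
    simp only [sum_ind] at x y
    omega

end Pool.Agent.MP_5c8b6d_co

end

section

/-! The choice of the set whose parity is controlled, and the error types. -/

namespace Pool.Agent.MP_5c8b6d_co

open Finset

set_option linter.unusedSectionVars false

namespace NrmAux

variable {V : Type} [Fintype V] [DecidableEq V] {G : SimpleGraph V} {R T Z : Finset V} {Δ g : ℕ}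

theorem card_le (hP : Pad G R Δ) (hC : Com G R Δ) (hT : T ⊆ R) (hd : ∀ v ∈ T, Δ ≤ dg G v T + g)
    (hZ : Z ⊆ R \ T) (h2 : ∀ y ∈ Z, 2 * Δ ≤ 5 * dg G y T) : Z.card ≤ 5 * g := by
  have h1 : Z.card * (2 * Δ) ≤ ∑ y ∈ Z, 5 * dg G y T := by
    simpa using card_nsmul_le_sum Z (fun y => 5 * dg G y T) (2 * Δ) h2
  have h3 : ∑ v ∈ T, dg G v Z ≤ T.card * g := by
    have := sum_le_card_nsmul T (fun v => dg G v Z) g (fun v hv => by
      have a := dg_add_compl (G := G) v T
      have b := hP.full v (hT hv)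
      have c := hd v hv
      have d : dg G v Z ≤ dg G v Tᶜ :=
        dg_mono_set v fun z hz => mem_compl.2 (mem_sdiff.1 (hZ hz)).2
      omega)
    simpa using this
  rw [← mul_sum, sum_dg_comm] at h1
  have h4 : T.card ≤ 2 * Δ := (card_le_card hT).trans hC.card.le
  have h5 : 0 < 2 * Δ := lt_of_le_of_lt (Nat.zero_le _) hC.card
  have h6 : Z.card * (2 * Δ) ≤ 5 * g * (2 * Δ) := by
    calc Z.card * (2 * Δ) ≤ 5 * (T.card * g) := by omega
      _ ≤ 5 * (2 * Δ * g) := by gcongr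
      _ = 5 * g * (2 * Δ) := by ring
  exact Nat.le_of_mul_le_mul_right h6 h5

theorem mu_cases (hP : Pad G R Δ) (hT : T ⊆ R) (hd : ∀ v ∈ T, Δ ≤ dg G v T + g)
    (hZ : Z ⊆ R \ T) (v : V) : mu G (T ∪ Z) v ≤ g ∨ mu G (T ∪ Z) v ≤ 1 ∨
      (v ∈ Z ∧ mu G (T ∪ Z) v + dg G v T ≤ Δ) ∨
      (v ∈ R \ (T ∪ Z) ∧ mu G (T ∪ Z) v ≤ dg G v T + Z.card) := by
  have a := dg_add_compl (G := G) v T
  have d : dg G v (T ∪ Z)ᶜ ≤ dg G v Tᶜ :=
    dg_mono_set v (compl_subset_compl.2 subset_union_left)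
  by_cases h1 : v ∈ T
  · have b := hP.full v (hT h1)
    have c := hd v h1
    left; rw [mu, if_pos (mem_union_left _ h1)]; omega
  by_cases h2 : v ∈ Z
  · have b := hP.full v (mem_sdiff.1 (hZ h2)).1
    right; right; left
    rw [mu, if_pos (mem_union_right _ h2)]; exact ⟨h2, by omega⟩
  have h3 : v ∉ T ∪ Z := by simp [h1, h2]
  by_cases h4 : v ∈ R
  · right; right; right
    refine ⟨mem_sdiff.2 ⟨h4, h3⟩, ?_⟩
    rw [mu, if_neg h3]
    exact (dg_union_le _ _ _).trans (Nat.add_le_add_left (dg_le_card _ _) _)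
  · right; left
    exact (mu_le_dg _ _).trans (hP.pend v h4)

theorem even_case (hP : Pad G R Δ) (hC : Com G R Δ) (hT : T ⊆ R)
    (hd : ∀ v ∈ T, Δ ≤ dg G v T + g) (hg : 0 < g) (hΔ : 1000 * g ≤ Δ) (hZ : Z ⊆ R \ T)
    (h2 : ∀ y ∈ Z, 2 * Δ ≤ 5 * dg G y T) (h3 : ∀ y ∈ R \ (T ∪ Z), 5 * dg G y T ≤ 3 * Δ) (y0 : V)
    (h4 : ∀ y ∈ Z, y ≠ y0 → Δ ≤ 2 * dg G y T)
    (h5 : ∀ y ∈ R \ (T ∪ Z), y ≠ y0 → 2 * dg G y T ≤ Δ) (he : (T ∪ Z).card % 2 = 0) :
    Nrm G (T ∪ Z) Δ ((T ∪ Z).card % 2) := by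
  have hc := card_le hP hC hT hd hZ h2
  have hS : T ∪ Z ⊆ R := union_subset hT (hZ.trans sdiff_subset)
  refine ⟨fun _ v => two_mu_le_out hP hC.nov hS (Nat.even_iff.2 he) v, fun _ => ⟨y0, ?_, ?_⟩,
    fun k => by omega, fun k => by omega⟩
  · rcases mu_cases hP hT hd hZ y0 with a | a | ⟨a, b⟩ | ⟨a, b⟩
    · omega
    · omega
    · have := h2 _ a; omega
    · have := h3 _ a; omega
  · intro v hv
    rcases mu_cases hP hT hd hZ v with a | a | ⟨a, b⟩ | ⟨a, b⟩
    · omega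
    · omega
    · have := h4 _ a hv; omega
    · have := h5 _ a hv; omega

theorem core [Nonempty V] (hP : Pad G R Δ) (hC : Com G R Δ) (hT : T ⊆ R)
    (hd : ∀ v ∈ T, Δ ≤ dg G v T + g) (hg : 0 < g) (hΔ : 1000 * g ≤ Δ) :
    ∃ Z : Finset V, Z ⊆ R \ T ∧ Z.card ≤ 5 * g ∧ (∀ y ∈ Z, 2 * Δ ≤ 5 * dg G y T) ∧
      (∀ y ∈ R \ (T ∪ Z), 5 * dg G y T ≤ 3 * Δ) ∧ Nrm G (T ∪ Z) Δ ((T ∪ Z).card % 2) := by
  set Z0 := (R \ T).filter (fun y => Δ < 2 * dg G y T) with hZ0
  have z1 : Z0 ⊆ R \ T := filter_subset _ _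
  have z2 : ∀ y ∈ Z0, Δ < 2 * dg G y T := fun y hy => (mem_filter.1 hy).2
  have z3 : ∀ y ∈ R \ T, y ∉ Z0 → 2 * dg G y T ≤ Δ := fun y hy k => by
    by_contra l
    exact k (mem_filter.2 ⟨hy, by omega⟩)
  have z4 : ∀ {W : Finset V} {y : V}, y ∈ R \ (T ∪ W) → y ∈ R \ T ∧ y ∉ W := fun hy => by
    simp only [mem_sdiff, mem_union, not_or] at hy ⊢; tauto
  have a2 : ∀ y ∈ Z0, 2 * Δ ≤ 5 * dg G y T := fun y hy => by have := z2 y hy; omega
  have a3 : ∀ y ∈ R \ (T ∪ Z0), 5 * dg G y T ≤ 3 * Δ := fun y hy => by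
    have := z3 y (z4 hy).1 (z4 hy).2; omega
  by_cases he : (T ∪ Z0).card % 2 = 0
  · exact ⟨Z0, z1, card_le hP hC hT hd z1 a2, a2, a3,
      even_case hP hC hT hd hg hΔ z1 a2 a3 (Classical.arbitrary V)
        (fun y hy _ => (z2 y hy).le) (fun y hy _ => z3 y (z4 hy).1 (z4 hy).2) he⟩
  by_cases hy : ∃ y0 ∈ R \ T, 2 * Δ ≤ 5 * dg G y0 T ∧ 5 * dg G y0 T ≤ 3 * Δ
  · obtain ⟨y0, y1, y2, y3⟩ := hy
    have y4 : y0 ∉ T := (mem_sdiff.1 y1).2
    by_cases y5 : y0 ∈ Z0
    · have b1 : Z0.erase y0 ⊆ R \ T := (erase_subset _ _).trans z1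
      have b2 : ∀ y ∈ Z0.erase y0, 2 * Δ ≤ 5 * dg G y T := fun y hy => a2 y (mem_of_mem_erase hy)
      have b4 : ∀ y ∈ R \ (T ∪ Z0.erase y0), y ≠ y0 → 2 * dg G y T ≤ Δ := fun y hy k =>
        z3 y (z4 hy).1 fun l => (z4 hy).2 (mem_erase.2 ⟨k, l⟩)
      have b3 : ∀ y ∈ R \ (T ∪ Z0.erase y0), 5 * dg G y T ≤ 3 * Δ := fun y hy => by
        by_cases k : y = y0
        · rw [k]; exact y3
        · have := b4 y hy k; omega
      have b5 : T ∪ Z0 = insert y0 (T ∪ Z0.erase y0) := by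
        rw [← union_insert, insert_erase y5]
      rw [b5, card_insert_of_notMem (by simp [y4])] at he
      exact ⟨_, b1, card_le hP hC hT hd b1 b2, b2, b3, even_case hP hC hT hd hg hΔ b1 b2 b3 y0
        (fun y hy _ => (z2 y (mem_of_mem_erase hy)).le) b4 (by omega)⟩
    · have b1 : insert y0 Z0 ⊆ R \ T := insert_subset y1 z1
      have b2 : ∀ y ∈ insert y0 Z0, 2 * Δ ≤ 5 * dg G y T := fun y hy => by
        rcases mem_insert.1 hy with k | k
        · rw [k]; exact y2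
        · exact a2 y k
      have b4 : ∀ y ∈ R \ (T ∪ insert y0 Z0), 2 * dg G y T ≤ Δ := fun y hy =>
        z3 y (z4 hy).1 fun l => (z4 hy).2 (mem_insert_of_mem l)
      have b3 : ∀ y ∈ R \ (T ∪ insert y0 Z0), 5 * dg G y T ≤ 3 * Δ := fun y hy => by
        have := b4 y hy; omega
      have b5 : (T ∪ insert y0 Z0).card = (T ∪ Z0).card + 1 := by
        rw [union_insert, card_insert_of_notMem (by simp [y4, y5])]
      exact ⟨_, b1, card_le hP hC hT hd b1 b2, b2, b3, even_case hP hC hT hd hg hΔ b1 b2 b3 y0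
        (fun y hy k => (z2 y ((mem_insert.1 hy).resolve_left k)).le) (fun y hy _ => b4 y hy)
        (by omega)⟩
  · have hc := card_le hP hC hT hd z1 a2
    have hS : T ∪ Z0 ⊆ R := union_subset hT (z1.trans sdiff_subset)
    refine ⟨Z0, z1, hc, a2, a3, fun k => absurd k he, fun k => absurd k he,
      fun k => le_out_of_odd hP hC.nov hS (Nat.odd_iff.2 k), fun _ v => ?_⟩
    rcases mu_cases hP hT hd z1 v with a | a | ⟨a, b⟩ | ⟨a, b⟩
    · omega
    · omega
    · have c : ¬ 5 * dg G v T ≤ 3 * Δ := fun k => hy ⟨v, z1 a, a2 v a, k⟩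
      omega
    · have c : ¬ 2 * Δ ≤ 5 * dg G v T := fun k => hy ⟨v, (z4 a).1, k, a3 v a⟩
      omega

/-- a balanced assignment of the exceptional vertices -/
theorem assign {A B : Finset V} {J : ℕ} (hA : Disjoint A Z) (hB : Disjoint B Z)
    (h : ∀ z ∈ Z, 3 * J ≤ dg G z A ∨ 3 * J ≤ dg G z B) :
    ∃ ZA ZB : Finset V, ZA ∪ ZB = Z ∧ Disjoint ZA ZB ∧ (∀ z ∈ ZA, 3 * J ≤ dg G z B) ∧
      (∀ z ∈ ZB, 3 * J ≤ dg G z A) ∧
      ((B ∪ ZB).card + 2 ≤ (A ∪ ZA).card → ∀ z ∈ ZA, dg G z A < 3 * J) ∧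
      ((A ∪ ZA).card + 2 ≤ (B ∪ ZB).card → ∀ z ∈ ZB, dg G z B < 3 * J) := by
  classical
  let ok : Finset V × Finset V → Prop := fun p => p.1 ∪ p.2 = Z ∧ Disjoint p.1 p.2 ∧
    (∀ z ∈ p.1, 3 * J ≤ dg G z B) ∧ ∀ z ∈ p.2, 3 * J ≤ dg G z A
  have hne : (univ.filter ok).Nonempty := by
    refine ⟨(Z.filter (fun z => 3 * J ≤ dg G z B), Z.filter (fun z => ¬ 3 * J ≤ dg G z B)),
      mem_filter.2 ⟨mem_univ _, filter_union_filter_not_eq _ _,
        disjoint_filter_filter_not _ _ _, fun z hz => (mem_filter.1 hz).2, fun z hz => ?_⟩⟩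
    exact (h z (mem_filter.1 hz).1).resolve_right (mem_filter.1 hz).2
  obtain ⟨⟨ZA, ZB⟩, h1, h2⟩ := exists_min_image _ (fun p : Finset V × Finset V =>
    ((A.card + p.1.card : ℤ) - (B.card + p.2.card)).natAbs) hne
  obtain ⟨a1, a2, a3, a4⟩ := (mem_filter.1 h1).2
  simp only at a1 a2 a3 a4 h2
  have cA : (A ∪ ZA).card = A.card + ZA.card :=
    card_union_of_disjoint (hA.mono_right (a1 ▸ subset_union_left))
  have cB : (B ∪ ZB).card = B.card + ZB.card :=
    card_union_of_disjoint (hB.mono_right (a1 ▸ subset_union_right))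
  refine ⟨ZA, ZB, a1, a2, a3, a4, fun k z hz => ?_, fun k z hz => ?_⟩
  · by_contra l
    have z1 : z ∉ ZB := disjoint_left.1 a2 hz
    have := h2 (ZA.erase z, insert z ZB) (mem_filter.2 ⟨mem_univ _, by
      simp only [union_insert, ← insert_union, insert_erase hz, a1], by
      simp only [disjoint_insert_right, notMem_erase, not_false_eq_true, true_and]
      exact a2.mono_left (erase_subset _ _), fun y hy => a3 y (mem_of_mem_erase hy),
      fun y hy => by
        rcases mem_insert.1 hy with m | m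
        · rw [m]; omega
        · exact a4 y m⟩)
    simp only [card_insert_of_notMem z1] at this
    have e := card_erase_add_one hz
    omega
  · by_contra l
    have z1 : z ∉ ZA := disjoint_right.1 a2 hz
    have := h2 (insert z ZA, ZB.erase z) (mem_filter.2 ⟨mem_univ _, by
      simp only [insert_union, ← union_insert, insert_erase hz, a1], by
      simp only [disjoint_insert_left, notMem_erase, not_false_eq_true, true_and]
      exact a2.mono_right (erase_subset _ _), fun y hy => by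
        rcases mem_insert.1 hy with m | m
        · rw [m]; omega
        · exact a3 y m, fun y hy => a4 y (mem_of_mem_erase hy)⟩)
    simp only [card_insert_of_notMem z1] at this
    have e := card_erase_add_one hz
    omega

theorem bip_symm {A B : Finset V} (h : Bip G R A B Δ g) : Bip G R B A Δ g :=
  ⟨h.s2, h.s1, h.dj.symm, h.n2, h.n1, by rw [union_comm]; exact h.cX, h.d2, h.d1⟩

theorem bsel_core (hJ : BjStmt) : BselStmt := by
  obtain ⟨C, hC⟩ := hJ
  refine ⟨C + 1000, fun V _ _ G R A B Δ J g hP hCo hB j1 j2 hg hΔ hBig => ?_⟩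
  have : Nonempty V := ⟨hB.n1.choose⟩
  have hΔ1 : 1000 * g ≤ Δ := le_trans (Nat.mul_le_mul_right _ (by omega)) hΔ
  have hΔ2 : C * g ≤ Δ := le_trans (Nat.mul_le_mul_right _ (by omega)) hΔ
  have hBig' : Big C R.card g := hBig.mono (by omega) le_rfl
  obtain ⟨Z, z1, -, z3, z4, z5⟩ := core (T := A ∪ B) hP hCo (union_subset hB.s1 hB.s2)
    (fun v hv => by
      rcases mem_union.1 hv with k | k
      · exact (hB.d1 v k).trans (Nat.add_le_add_right (dg_mono_set v subset_union_right) _)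
      · exact (hB.d2 v k).trans (Nat.add_le_add_right (dg_mono_set v subset_union_left) _))
    hg hΔ1
  have dZ : Disjoint (A ∪ B) Z := disjoint_right.2 fun z hz => (mem_sdiff.1 (z1 hz)).2
  obtain ⟨ZA, ZB, rfl, a2, a3, a4, a5, a6⟩ := assign (G := G) (J := J)
    (dZ.mono_left subset_union_left) (dZ.mono_left subset_union_right) (fun z hz => by
      have := z3 z hz
      have := dg_union_le (G := G) z A B
      omega)
  rcases le_total (B ∪ ZB).card (A ∪ ZA).card with k | k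
  · obtain ⟨σ, GJ, h⟩ := hC V G R A B ZA ZB Δ J g hP hCo hB (subset_union_left.trans z1)
      (subset_union_right.trans z1) a2 a3 a4 z3 z4 z5 k a5 j1 j2 hg hΔ2 hBig'
    exact ⟨_, _, σ, GJ, h⟩
  · rw [union_comm A B, union_comm ZA ZB] at z1 z3 z4 z5
    obtain ⟨σ, GJ, h⟩ := hC V G R B A ZB ZA Δ J g hP hCo (bip_symm hB)
      (subset_union_left.trans z1) (subset_union_right.trans z1) a2.symm a4 a3 z3 z4 z5 k a6 j1
      j2 hg hΔ2 hBig'
    rw [union_comm A B]
    exact ⟨_, _, σ, GJ, h⟩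

end NrmAux

theorem nrm : NrmStmt := by
  intro V _ _ G R T Δ g hP hC hT hn hd hg hΔ
  have : Nonempty V := ⟨hn.choose⟩
  exact NrmAux.core hP hC hT hd hg hΔ

theorem bsel_of (_hN : NrmStmt) (hJ : BjStmt) : BselStmt := NrmAux.bsel_core hJ

theorem err : ErrStmt := by
  intro ι _ _ _ er n h1 h2 h3
  have c3 : ∀ p : ZMod 3, p = 0 ∨ p = 1 ∨ p = 2 := by decide
  let r : ZMod 3 → Finset ι := fun t => univ.filter (fun i => i ∈ er (t + 1) ∧ i ∈ er (t + 2))
  have hu : (univ : Finset (ZMod 3)) = {0, 1, 2} := by decide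
  have h4 : ∀ i, ¬ (i ∈ er 0 ∧ i ∈ er 1 ∧ i ∈ er 2) ∧ (i ∈ er 0 → i ∈ er 1 ∨ i ∈ er 2) ∧
      (i ∈ er 1 → i ∈ er 0 ∨ i ∈ er 2) ∧ (i ∈ er 2 → i ∈ er 0 ∨ i ∈ er 1) := fun i => by
    have := h1 i
    rw [card_filter, hu, sum_insert (by decide), sum_pair (by decide), Nat.even_iff] at this
    by_cases a : i ∈ er 0 <;> by_cases b : i ∈ er 1 <;> by_cases c : i ∈ er 2 <;>
      simp [a, b, c] at this ⊢
  have e0 : ((0 : ZMod 3) + 1 = 1 ∧ (0 : ZMod 3) + 2 = 2) ∧ ((1 : ZMod 3) + 1 = 2 ∧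
      (1 : ZMod 3) + 2 = 0) ∧ ((2 : ZMod 3) + 1 = 0 ∧ (2 : ZMod 3) + 2 = 1) := by decide
  have h5 : ∀ i p, i ∈ er p ↔ (i ∈ r (p + 1) ↔ i ∉ r (p + 2)) := fun i p => by
    have := h4 i
    rcases c3 p with rfl | rfl | rfl <;> simp only [r, mem_filter, mem_univ, true_and, e0] <;>
      by_cases a : i ∈ er 0 <;> by_cases b : i ∈ er 1 <;> by_cases c : i ∈ er 2 <;>
      simp [a, b, c] at this ⊢
  have h6 : ∀ a t, a ≠ t → Disjoint (r a) (r t) := fun a t hat => disjoint_left.2 fun i k l => by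
    have := (h4 i).1
    rcases c3 a with rfl | rfl | rfl <;> rcases c3 t with rfl | rfl | rfl <;>
      simp only [r, mem_filter, mem_univ, true_and, e0] at k l <;>
      first | exact hat rfl | simp [k.1, k.2, l.1, l.2] at this
  have h7 : ∀ p, (er p).card = (r (p + 1)).card + (r (p + 2)).card := fun p => by
    have d := h6 (p + 1) (p + 2) (by revert p; decide)
    rw [← card_union_of_disjoint d]
    congr 1; ext i
    have : i ∈ r (p + 1) → i ∉ r (p + 2) := fun k => disjoint_left.1 d k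
    rw [h5, mem_union]
    by_cases a : i ∈ r (p + 1) <;> by_cases b : i ∈ r (p + 2) <;> simp [a, b] at this ⊢
  have h8 : ∀ a t, a ≠ t → (r a).card + (r t).card ≤ n a + n t ∧
      ((r a).card + (r t).card) % 2 = (n a + n t) % 2 := fun a t hat => by
    have : ∃ p, (a = p + 1 ∧ t = p + 2) ∨ (a = p + 2 ∧ t = p + 1) := by revert a t; decide
    obtain ⟨p, ⟨rfl, rfl⟩ | ⟨rfl, rfl⟩⟩ := this <;> have := h2 p <;> have := h3 p <;>
      have := h7 p <;> omega
  suffices h : ∃ Y : Finset ι, ∀ t, (symmDiff (r t) Y).card ≤ n t ∧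
      (symmDiff (r t) Y).card % 2 = n t % 2 by
    obtain ⟨Y, hY⟩ := h
    refine ⟨fun t => symmDiff (r t) Y, hY, fun i p => ?_⟩
    rw [h5]; simp only [mem_symmDiff]
    by_cases a : i ∈ r (p + 1) <;> by_cases b : i ∈ r (p + 2) <;> by_cases c : i ∈ Y <;>
      simp [a, b, c]
  by_cases ha : ∃ a, n a < (r a).card
  · obtain ⟨a, ha⟩ := ha
    obtain ⟨Y, y1, y2⟩ := exists_subset_card_eq (show (r a).card - n a ≤ (r a).card by omega)
    refine ⟨Y, fun t => ?_⟩
    by_cases k : a = t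
    · subst k
      rw [symmDiff_of_ge y1, card_sdiff_of_subset y1]
      omega
    · have d : Disjoint (r t) Y := ((h6 a t k).mono_left y1).symm
      rw [d.symmDiff_eq_sup, sup_eq_union, card_union_of_disjoint d]
      have := h8 a t k
      omega
  · have hb : ∀ a, (r a).card ≤ n a := fun a => by
      by_contra k
      exact ha ⟨a, by omega⟩
    have hp : ∀ t, ((r t).card + n t) % 2 = ((r 0).card + n 0) % 2 := fun t => by
      by_cases k : t = 0
      · rw [k]
      · have := h8 t 0 k; omega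
    by_cases he : ((r 0).card + n 0) % 2 = 0
    · refine ⟨∅, fun t => ?_⟩
      rw [← bot_eq_empty, symmDiff_bot]
      have := hp t
      have := hb t
      omega
    · obtain ⟨i0⟩ := ‹Nonempty ι›
      refine ⟨{i0}, fun t => ?_⟩
      have := hp t
      have := hb t
      by_cases k : i0 ∈ r t
      · have y1 := singleton_subset_iff.2 k
        have := card_pos.2 ⟨i0, k⟩
        rw [symmDiff_of_ge y1, card_sdiff_of_subset y1, card_singleton]
        omega
      · have d : Disjoint (r t) {i0} := disjoint_singleton_right.2 k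
        rw [d.symmDiff_eq_sup, sup_eq_union, card_union_of_disjoint d, card_singleton]
        omega

end Pool.Agent.MP_5c8b6d_co

end

end MrgPart0

-- ======== part 1: formerly Pool.Agent.MP_5c8b6d_co.MH
section MrgPart1

section

/-! Module SPARSE: few edges leave the dense set. -/

namespace Pool.Agent.MP_5c8b6d_co

open Finset

set_option linter.unusedSectionVars false

namespace Sparse

variable {V : Type} [Fintype V] [DecidableEq V] {G GJ : SimpleGraph V} {R T Z : Finset V}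

/-- the two sides can be named so that the first one has at least half of the weight -/
theorem flip {κ : Type} [Fintype κ] [DecidableEq κ] {f : V → Bool × κ} {𝓕 : Finset (Finset V)}
    {η : ℕ} (h : ∀ F ∈ 𝓕, Evn f η F) (T : Finset V) (w : V → ℕ) :
    ∃ f' : V → Bool × κ, (∀ F ∈ 𝓕, Evn f' η F) ∧
      ∑ v ∈ T, w v ≤ 2 * ∑ v ∈ cls T (fun v => (f' v).1) true, w v := by
  have h1 := sum_cls_bool T (fun v => (f v).1) w
  by_cases hc : ∑ v ∈ T, w v ≤ 2 * ∑ v ∈ cls T (fun v => (f v).1) true, w v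
  · exact ⟨f, h, hc⟩
  · refine ⟨fun v => (Equiv.prodCongr Equiv.boolNot (Equiv.refl κ)) (f v),
      fun F hF => (h F hF).comp_equiv _, ?_⟩
    have : cls T (fun v => ((Equiv.prodCongr Equiv.boolNot (Equiv.refl κ)) (f v)).1) true =
        cls T (fun v => (f v).1) false := by
      ext v; simp
    rw [this]; omega

/-- a prescribed number of edges from `A` to the outside of `S` -/
theorem gj {A S : Finset V} (hA : A ⊆ S) {c : ℕ} (hc : c ≤ ∑ v ∈ A, dg G v Sᶜ) :
    ∃ GJ ≤ G, (∀ u v, GJ.Adj u v → (u ∈ A ∧ v ∉ S) ∨ (v ∈ A ∧ u ∉ S)) ∧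
      ∑ v, dg GJ v univ = 2 * c := by
  obtain ⟨GJ, h1, h2⟩ := exists_sub_edges
    (G := sub G fun u v => (u ∈ A ∧ v ∉ S) ∨ (v ∈ A ∧ u ∉ S)) (c := c) (by
      rw [← two_mul_sum_dg (S := A) fun u v h => by
        rcases h.2.1 with k | k
        · exact ⟨fun _ l => k.2 (hA l), fun _ => k.1⟩
        · exact ⟨fun l => absurd (hA l) k.2, fun l => absurd k.1 l⟩]
      exact Nat.mul_le_mul_left 2 (hc.trans (sum_le_sum fun v hv => dg_le_of fun u hu h =>
        ⟨mem_univ _, h, Or.inl ⟨hv, mem_compl.1 hu⟩, Or.inr ⟨hv, mem_compl.1 hu⟩⟩)))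
  exact ⟨GJ, h1.trans (sub_le _), fun u v h => (h1 h).2.1, h2⟩

theorem dg_le_half {c : ℕ} (h : ∑ v, dg GJ v univ = 2 * c) (v : V) : dg GJ v univ ≤ c := by
  rw [sum_dg_eq_oe] at h
  rw [← card_oe_at]
  exact (card_filter_le _ _).trans (by omega)

theorem card_ends {c : ℕ} (h : ∑ v, dg GJ v univ = c) :
    (univ.filter fun v => dg GJ v univ ≠ 0).card ≤ c := by
  rw [← h, card_filter]
  exact sum_le_sum fun v _ => by split_ifs <;> omega

/-- the scheduled edges -/
def hG (G GJ : SimpleGraph V) (R T Z : Finset V) : SimpleGraph V :=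
  sub G (fun u v => (u ∈ T ∪ Z ↔ v ∉ T ∪ Z) ∨ (u ∈ R \ T ∧ v ∈ R \ T)) \ GJ

/-- the edges of the dense block -/
def bG (G : SimpleGraph V) (T Z : Finset V) : SimpleGraph V :=
  sub G (fun u v => u ∈ T ∪ Z ∧ (u ∈ T ∨ v ∈ T))

theorem hG_adj {u v : V} : (hG G GJ R T Z).Adj u v ↔ G.Adj u v ∧
    ((u ∈ T ∪ Z ↔ v ∉ T ∪ Z) ∨ (u ∈ R \ T ∧ v ∈ R \ T)) ∧ ¬ GJ.Adj u v := by
  simp only [hG, SimpleGraph.sdiff_adj, sub_adj]; tauto

theorem bG_adj {u v : V} : (bG G T Z).Adj u v ↔ G.Adj u v ∧ u ∈ T ∪ Z ∧ v ∈ T ∪ Z ∧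
    (u ∈ T ∨ v ∈ T) := by
  simp only [bG, sub_adj]; tauto

theorem hG_le : hG G GJ R T Z ≤ G := fun _ _ h => (hG_adj.1 h).1

theorem dg_bG {v : V} (hv : v ∈ T ∪ Z) {W : Finset V} (hW : W ⊆ T) :
    dg (bG G T Z) v W = dg G v W :=
  dg_congr fun _ => ⟨fun h => ⟨h.1, (bG_adj.1 h.2).1⟩, fun h =>
    ⟨h.1, bG_adj.2 ⟨h.2, hv, mem_union_left _ (hW h.1), Or.inr (hW h.1)⟩⟩⟩

theorem out_hG {c : ℕ} (j1 : GJ ≤ G) (j2 : ∀ u v, GJ.Adj u v → (u ∈ T ∪ Z ↔ v ∉ T ∪ Z))
    (j3 : ∑ v, dg GJ v univ = 2 * c) : out (hG G GJ R T Z) (T ∪ Z) + c = out G (T ∪ Z) := by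
  have h1 := two_mul_sum_dg j2
  have h2 : ∑ v ∈ T ∪ Z, dg GJ v univ = c := by omega
  rw [← h2, out, out, ← sum_add_distrib]
  refine sum_congr rfl fun v hv => ?_
  rw [← dg_sdiffG_add j1 v]
  congr 1
  · exact dg_congr fun u => ⟨fun h => ⟨h.1, (hG_adj.1 h.2).1, (hG_adj.1 h.2).2.2⟩, fun h =>
      ⟨h.1, hG_adj.2 ⟨h.2.1, Or.inl ⟨fun _ => mem_compl.1 h.1, fun _ => hv⟩, h.2.2⟩⟩⟩
  · exact dg_congr fun u => ⟨fun h => ⟨mem_compl.2 ((j2 _ _ h.2).1 hv), h.2⟩,
      fun h => ⟨mem_univ _, h.2⟩⟩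

/-- the schedule -/
theorem sched (hS : SchStmt) {Δ η e D k J : ℕ} (hP : Pad G R Δ) (hc : R.card < 2 * Δ)
    (hs : Spa G R T Δ η e) (z1 : Z ⊆ R \ T) (z2 : ∀ y ∈ Z, 2 * Δ ≤ 5 * dg G y T)
    (hN : Nrm G (T ∪ Z) Δ ((T ∪ Z).card % 2)) (j1 : GJ ≤ G)
    (j2 : ∀ u v, GJ.Adj u v → (u ∈ T ∪ Z ↔ v ∉ T ∪ Z))
    (j3 : ∑ v, dg GJ v univ = 2 * ((T ∪ Z).card % 2 * J)) (n1 : Δ = k + J) (n2 : 21 * Δ ≤ 22 * k)
    (n3 : 22 * D ≤ Δ) (n4 : Δ < 22 * D + 22) (n5 : 0 < η) (n6 : 1000 * η ≤ Δ) :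
    ∃ ψ : Fin k → V → V, PC (hG G GJ R T Z) ψ ∧ Full (hG G GJ R T Z) ψ ∧
      (∀ i, (mv (ψ i) ∩ (T ∪ Z)).card % 2 = (T ∪ Z).card % 2) ∧
      ∀ i, (mv (ψ i) ∩ T).card ≤ 10 * η + 20 * η := by
  have o1 := out_hG (R := R) j1 j2 j3
  have hSR : T ∪ Z ⊆ R := union_subset hs.sub (z1.trans sdiff_subset)
  have o2 := hP.out_mod hSR
  have hm : ∀ v, mu (hG G GJ R T Z) (T ∪ Z) v ≤ mu G (T ∪ Z) v := fun v => mu_mono hG_le _ v
  have hTc : T.card ≤ R.card := card_le_card hs.sub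
  have hno : ∀ v ∈ T ∪ Z, dg (hG G GJ R T Z) v univ + dg G v T ≤ Δ := fun v hv => by
    rw [← hP.full v (hSR hv), ← dg_add_compl (G := G) v T, add_comm]
    refine Nat.add_le_add_left (dg_le_of fun u _ h => ⟨mem_compl.2 fun hu => ?_, hG_le h⟩) _
    rcases (hG_adj.1 h).2.1 with l | l
    · exact l.1 hv (mem_union_left _ hu)
    · exact (mem_sdiff.1 l.2).2 hu
  refine hS V (Fin k) _ T (T ∪ Z) _ η (5 * D) (10 * η) subset_union_left (by omega)
    ?_ ?_ (fun v hv => ?_) (fun v hv => ?_) (fun v hv => ?_) (fun z hz => ?_) ?_ n5 ?_ ?_ ?_ <;>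
    try rw [Fintype.card_fin]
  · refine ⟨fun hb v => ?_, fun hb => ?_, fun hb => ?_, fun hb v => ?_⟩
    · have := hN.h0 hb v
      have := hm v
      rw [hb] at o1
      omega
    · obtain ⟨y0, h1, h2⟩ := hN.h0' hb
      refine ⟨y0, ?_, fun v hv => ?_⟩
      · have := hm y0; omega
      · have := hm v
        have := h2 v hv
        omega
    · have := hN.h1 hb
      rw [hb] at o1
      omega
    · have := hN.h1' hb v
      have := hm v
      omega
  · rw [Nat.mul_mod] at o2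
    rcases Nat.mod_two_eq_zero_or_one (T ∪ Z).card with hb | hb <;> rw [hb] at o1 o2 ⊢ <;> omega
  · have := hno v (mem_union_left _ hv)
    have := hs.dT v hv
    omega
  · have hv' : v ∈ R \ T := mem_sdiff.2 ⟨hSR (mem_sdiff.1 hv).1, (mem_sdiff.1 hv).2⟩
    exact le_trans (dg_le_of fun u hu h =>
      ⟨mem_sdiff.2 ⟨hSR (mem_sdiff.1 hu).1, (mem_sdiff.1 hu).2⟩, hG_le h⟩)
      (hs.dU v (mem_sdiff.1 hv').1 (mem_sdiff.1 hv').2)
  · have key : ∀ u ∈ (T ∪ Z)ᶜ, (hG G GJ R T Z).Adj v u → v ∈ R \ T ∧ u ∈ R \ T := fun u hu h =>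
      (hG_adj.1 h).2.1.resolve_left fun l => hv (l.2 (mem_compl.1 hu))
    by_cases hv' : v ∈ R \ T
    · exact le_trans (dg_le_of fun u hu h => ⟨(key u hu h).2, hG_le h⟩)
        (hs.dU v (mem_sdiff.1 hv').1 (mem_sdiff.1 hv').2)
    · rw [dg_eq_zero.2 fun u hu h => hv' (key u hu h).1]
      exact Nat.zero_le _
  · have := hno z (mem_sdiff.1 hz).1
    have := z2 z ((mem_union.1 (mem_sdiff.1 hz).1).resolve_left (mem_sdiff.1 hz).2)
    omega
  · omega
  · omega
  · omega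
  · calc η * T.card < η * (50 * D) := Nat.mul_lt_mul_of_pos_left (by omega) n5
      _ = 10 * η * (5 * D) := by ring

/-- the two sides -/
theorem sides {κ : Type} [Fintype κ] [DecidableEq κ] [Nonempty κ] {f : V → Bool × κ} {η c J : ℕ}
    (hf : Evn f η T) (hd : Disjoint T Z)
    (j2 : ∀ u v, GJ.Adj u v → (u ∈ cls T (fun v => (f v).1) true ∪ Z ∧ v ∉ T ∪ Z) ∨
      (v ∈ cls T (fun v => (f v).1) true ∪ Z ∧ u ∉ T ∪ Z))
    (j3 : ∑ v, dg GJ v univ = 2 * ((T ∪ Z).card % 2 * J))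
    (n1 : 2 * (Fintype.card κ * η) + Z.card + 1 ≤ 2 * c)
    (n2 : 2 * (Fintype.card κ * η) + 2 * c + 4 * J ≤ T.card) :
    ∃ σ : V → Bool, (T.filter fun v => (σ v, (f v).2) ≠ f v).card ≤ c ∧
      (∀ u v, GJ.Adj u v → σ u ≠ σ v) ∧ JEq GJ (T ∪ Z) σ J := by
  set σ0 : V → Bool := fun v => if v ∈ T then (f v).1 else decide (v ∈ Z) with hσ0
  set E := univ.filter fun v => dg GJ v univ ≠ 0 with hE
  have hb : (T ∪ Z).card % 2 ≤ 1 := by omega
  have hEc : E.card ≤ 2 * J :=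
    (card_ends j3).trans (Nat.mul_le_mul_left 2 (by nlinarith))
  have hZ : ∀ v ∈ Z, v ∉ T := fun v hv k => disjoint_left.1 hd k hv
  have e1 : cls (T ∪ Z) σ0 true = cls T (fun v => (f v).1) true ∪ Z := by
    ext v
    by_cases h : v ∈ T
    · have : v ∉ Z := fun k => hZ v k h
      simp [hσ0, h, this]
    · simp [hσ0, h]
  have e2 : cls (T ∪ Z) σ0 false = cls T (fun v => (f v).1) false := by
    ext v
    by_cases h : v ∈ T
    · simp [hσ0, h]
    · simp [hσ0, h]
  have b1 := hf.fst.bool true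
  have b2 := hf.fst.bool false
  have b3 := card_cls_bool T (fun v => (f v).1) true
  obtain ⟨D, hD, hDc, σ, s1, s2⟩ := rebalance σ0 (T ∪ Z) (T \ E) (((T ∪ Z).card % 2 : ℕ) : ℤ) c
    (sdiff_subset.trans subset_union_left) (by rw [Int.even_iff]; omega)
    (by
      rw [e1, e2, card_union_of_disjoint (hd.mono_left (cls_subset _ _ _))]
      simp only [Bool.not_true] at b3
      omega)
    (fun b => by
      have h1 : cls T (fun v => (f v).1) b ⊆ cls (T \ E) σ0 b ∪ E := fun v hv => by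
        obtain ⟨h2, h3⟩ := mem_cls.1 hv
        by_cases h : v ∈ E
        · exact mem_union_right _ h
        · exact mem_union_left _ (mem_cls.2 ⟨mem_sdiff.2 ⟨h2, h⟩, by simp [hσ0, h2, h3]⟩)
      have h2 := (card_le_card h1).trans (card_union_le _ _)
      have h3 := hf.fst.bool b
      omega)
  have hend : ∀ u v, GJ.Adj u v → σ u = σ0 u := fun u v h => s1 u fun k =>
    (mem_sdiff.1 (hD k)).2 (mem_filter.2 ⟨mem_univ _, fun l => dg_eq_zero.1 l v (mem_univ _) h⟩)
  have hout : ∀ v, v ∉ T ∪ Z → σ0 v = false := fun v hv => by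
    rw [mem_union, not_or] at hv
    simp [hσ0, hv.1, hv.2]
  have hin : ∀ u v, GJ.Adj u v → (u ∈ T ∪ Z ∧ σ u = true ∧ v ∉ T ∪ Z ∧ σ v = false) ∨
      (v ∈ T ∪ Z ∧ σ v = true ∧ u ∉ T ∪ Z ∧ σ u = false) := fun u v h => by
    rw [hend u v h, hend v u h.symm]
    rw [← e1] at j2
    rcases j2 u v h with l | l
    · exact Or.inl ⟨(mem_cls.1 l.1).1, (mem_cls.1 l.1).2, l.2, hout _ l.2⟩
    · exact Or.inr ⟨(mem_cls.1 l.1).1, (mem_cls.1 l.1).2, l.2, hout _ l.2⟩
  refine ⟨σ, le_trans (card_le_card fun v hv => ?_) hDc, fun u v h => ?_, ?_⟩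
  · obtain ⟨h1, h2⟩ := mem_filter.1 hv
    by_contra h3
    refine h2 (Prod.ext ?_ rfl)
    simp [s1 v h3, hσ0, h1]
  · rcases hin u v h with l | l <;> simp [l.2.1, l.2.2.2]
  · have h1 := two_mul_sum_dg (G := GJ) (S := cls (T ∪ Z) σ true) fun u v h => by
      simp only [mem_cls]
      rcases hin u v h with l | l <;> simp [l.1, l.2.1, l.2.2.1, l.2.2.2]
    have h2 : ∑ v ∈ cls (T ∪ Z) σ false, dg GJ v univ = 0 :=
      sum_eq_zero fun v hv => dg_eq_zero.2 fun u _ h => by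
        obtain ⟨h3, h4⟩ := mem_cls.1 hv
        rcases hin v u h with l | l
        · rw [h4] at l; exact absurd l.2.1 (by simp)
        · exact l.2.2.1 h3
    have h3 : (cls (T ∪ Z) σ true).card = (cls (T ∪ Z) σ false).card + (T ∪ Z).card % 2 := by
      omega
    have h4 : ∑ v ∈ cls (T ∪ Z) σ true, dg GJ v univ = (T ∪ Z).card % 2 * J := by omega
    rw [JEq, h2, h3, h4]; ring

end Sparse

open Sparse in
theorem sparse_of (hP : PartStmt) (hM : MixStmt) (hN : NrmStmt) (hS : SchStmt) (hF : FinStmt)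
    (hE : EngStmt) : SparseStmt := by
  have : Fact (Nat.Prime 11) := ⟨by norm_num⟩
  obtain ⟨CE, hE⟩ := hE 11
  refine ⟨528 * CE + 10000, fun V _ _ G R T Δ η L e hp hc hs hpar hbig he => ?_⟩
  have n0 := hpar.pos
  have n1 : 10000 * η ≤ L := le_trans (Nat.mul_le_mul_right _ (by omega)) hpar.h1
  have n2 : 10000 * L ≤ e := le_trans (Nat.mul_le_mul_right _ (by omega)) hpar.h3
  have n3 : 10000 * e ≤ R.card := le_trans (Nat.mul_le_mul_right _ (by omega)) he
  have n4 := hc.card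
  have n5 : T.card ≤ R.card := card_le_card hs.sub
  have n6 : Δ ≤ T.card + η := by
    obtain ⟨v, hv⟩ := hs.ne
    have := hs.dT v hv
    have := dg_le_card (G := G) v T
    omega
  have hΔ : ∀ v ∈ T, ∀ W, dg G v W ≤ Δ := fun v hv W =>
    (dg_le_univ v W).trans (hp.full v (hs.sub hv)).le
  have hκ : Fintype.card (Bool × ZMod 11) = 22 := by simp
  have hκ' : Fintype.card (ZMod 11) = 11 := by simp
  obtain ⟨Z, z1, z2, z3, -, z5⟩ := hN V G R T Δ η hp hc hs.sub hs.ne hs.dT n0 (by omega)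
  have hd : Disjoint T Z := disjoint_right.2 fun v hv => (mem_sdiff.1 (z1 hv)).2
  obtain ⟨𝓕, f1, f2, f3⟩ := hM V G R T T Δ η e Subset.rfl hs.sub (fun v hv => hΔ v hv R) hs.dT
    n4 hs.nex
  set 𝓖 := insert T (𝓕 ∪ R.image fun v => nb G v T) with h𝓖
  have g1 : ∀ F ∈ 𝓖, F ⊆ T := fun F hF => by
    rcases mem_insert.1 hF with rfl | hF
    · exact Subset.rfl
    · rcases mem_union.1 hF with hF | hF
      · exact f2 F hF
      · obtain ⟨v, -, rfl⟩ := mem_image.1 hF
        exact nb_subset _ _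
  have g2 : 𝓖.card ≤ 6 * R.card ^ 2 := by
    have h1 : 𝓖.card ≤ (T.card + 1) ^ 2 + R.card + 1 :=
      (card_insert_le _ _).trans (Nat.add_le_add_right ((card_union_le _ _).trans
        (Nat.add_le_add f1 card_image_le)) 1)
    have h2 : (T.card + 1) ^ 2 ≤ (2 * R.card) ^ 2 := Nat.pow_le_pow_left (by omega) 2
    nlinarith
  obtain ⟨f0, p0, -⟩ := hP V (Bool × ZMod 11) ⊥ 𝓖 η R.card (by omega)
    (fun F hF => (card_le_card (g1 F hF)).trans n5) (hbig.part (by rw [hκ]; nlinarith))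
  obtain ⟨f, p1, p2⟩ := flip p0 T fun v => dg G v (T ∪ Z)ᶜ
  obtain ⟨D, hD⟩ : ∃ D, D = Δ / 22 := ⟨_, rfl⟩
  obtain ⟨k, hk⟩ : ∃ k, k = 21 * (D + 330 * η) + 1 := ⟨_, rfl⟩
  obtain ⟨J, hJ⟩ : ∃ J, Δ = k + J := ⟨Δ - k, by omega⟩
  obtain ⟨GJ, j1, j2, j3⟩ := gj (G := G) (A := cls T (fun v => (f v).1) true ∪ Z) (S := T ∪ Z)
    (union_subset_union_left (cls_subset _ _ _)) (c := (T ∪ Z).card % 2 * J) (by
      rcases Nat.mod_two_eq_zero_or_one (T ∪ Z).card with hb | hb
      · rw [hb]; omega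
      · have h1 := z5.h1 hb
        rw [out, sum_union hd] at h1
        rw [hb, sum_union (hd.mono_left (cls_subset _ _ _))]
        omega)
  have j2' : ∀ u v, GJ.Adj u v → (u ∈ T ∪ Z ↔ v ∉ T ∪ Z) := fun u v h => by
    have h1 := union_subset_union_left (t := Z) (cls_subset T (fun v => (f v).1) true)
    rcases j2 u v h with l | l
    · exact ⟨fun _ => l.2, fun _ => h1 l.1⟩
    · exact ⟨fun m => absurd m l.2, fun m => absurd (h1 l.1) m⟩
  obtain ⟨ψ, c1, c2, c3, c4⟩ := sched (D := D) hS hp n4 hs z1 z3 z5 j1 j2' j3 hJ (by omega)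
    (by omega) (by omega) n0 (by omega)
  obtain ⟨σ, s1, s2, s3⟩ := sides (c := 14 * η) (p1 T (mem_insert_self _ _)) hd j2 j3
    (by rw [hκ']; omega) (by rw [hκ']; omega)
  set π : V → Bool × ZMod 11 := fun v => (σ v, (f v).2) with hπ
  have q1 : ∀ F ∈ 𝓖, Evn π (η + 14 * η) F := fun F hF => (p1 F hF).move
    (le_trans (card_le_card (filter_subset_filter _ (g1 F hF))) s1)
  have q2 : ∀ F ∈ 𝓖, Evn σ (165 * η) F := fun F hF => by
    have := (q1 F hF).fst
    rw [hκ'] at this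
    exact this.mono (by omega)
  have q3 : ∀ v ∈ R, nb G v T ∈ 𝓖 := fun v hv =>
    mem_insert_of_mem (mem_union_right _ (mem_image_of_mem _ hv))
  have q4 : ∀ F ∈ 𝓕, F ∈ 𝓖 := fun F hF => mem_insert_of_mem (mem_union_left _ hF)
  obtain ⟨Y, -, y2, y3, y4, -, y6⟩ := hF V (Fin k) G (hG G GJ R T Z) GJ (bG G T Z) R T Z σ ψ Δ J
    (10 * η + 20 * η) η hp (by rw [Fintype.card_fin]; exact hJ) hs.sub z1 hG_le j1 (sub_le _)
    (disjoint_iff_adj.2 fun u v h => (hG_adj.1 h).2.2)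
    (disjoint_iff_adj.2 fun u v h l => by
      obtain ⟨-, l1, l2, l3⟩ := bG_adj.1 l
      rcases (hG_adj.1 h).2.1 with m | m
      · exact m.1 l1 l2
      · exact l3.elim (mem_sdiff.1 m.1).2 (mem_sdiff.1 m.2).2)
    (disjoint_iff_adj.2 fun u v h l => (j2' u v h).1 (bG_adj.1 l).2.1 (bG_adj.1 l).2.2.1)
    (fun u v h l => by
      by_cases m : GJ.Adj u v
      · exact Or.inr (Or.inl m)
      have hZ : ∀ x ∈ T ∪ Z, x ∉ T → x ∈ R \ T := fun x hx hx' =>
        z1 ((mem_union.1 hx).resolve_left hx')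
      have hT : ∀ x, x ∉ T ∪ Z → x ∉ T := fun x hx hx' => hx (mem_union_left _ hx')
      by_cases hu : u ∈ T ∪ Z <;> by_cases hv : v ∈ T ∪ Z
      · by_cases m' : u ∈ T ∨ v ∈ T
        · exact Or.inr (Or.inr (bG_adj.2 ⟨h, hu, hv, m'⟩))
        · rw [not_or] at m'
          exact Or.inl (hG_adj.2 ⟨h, Or.inr ⟨hZ u hu m'.1, hZ v hv m'.2⟩, m⟩)
      · exact Or.inl (hG_adj.2 ⟨h, Or.inl ⟨fun _ => hv, fun _ => hu⟩, m⟩)
      · exact Or.inl (hG_adj.2 ⟨h, Or.inl ⟨fun a => absurd a hu, fun a => absurd hv a⟩, m⟩)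
      · have l' := l.resolve_left hu
        exact Or.inl (hG_adj.2 ⟨h, Or.inr ⟨mem_sdiff.2 ⟨l'.1, hT u hu⟩,
          mem_sdiff.2 ⟨l'.2, hT v hv⟩⟩, m⟩))
    (fun u v h => ⟨(bG_adj.1 h).2.1, (bG_adj.1 h).2.2.2⟩) s2
    (fun v => (dg_le_half j3 v).trans (by
      rcases Nat.mod_two_eq_zero_or_one (T ∪ Z).card with hb | hb <;> rw [hb] <;> omega))
    c1 c2 c4
    (fun v hv => by rw [dg_bG (mem_union_left _ hv) Subset.rfl]; exact hs.dT v hv) (by omega)
    (fun z hz => by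
      rw [dg_bG (mem_union_right _ hz) (cls_subset _ _ _)]
      have h1 := ((q2 _ (q3 z (mem_sdiff.1 (z1 hz)).1)).dg (!σ z)).1
      have h2 := z3 z hz
      rw [Fintype.card_bool] at h1
      omega)
    (fun z hz => by
      rw [dg_bG (mem_union_right _ hz) Subset.rfl]
      have h2 := z3 z hz
      omega)
  obtain ⟨w1, w2⟩ := y4 (T ∪ Z) Subset.rfl fun u _ v h => (bG_adj.1 h).2.2.1
  rw [inter_eq_left.2 subset_union_left] at w1 w2
  have hmix : ∀ {P Q : Finset V}, Q ⊆ T → Mix G T P Q (e / 264) → Mix (bG G T Z) T P Q (e / 264) :=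
    fun hQ h => h.congr fun x _ hx y hy l =>
      bG_adj.2 ⟨l, mem_union_left _ hx, mem_union_left _ (hQ hy), Or.inl hx⟩
  refine y6 (hE V (Fin k) (bG G T Z) π T Y D (330 * η) (1 * L) (e / 264)
    (by rw [Fintype.card_fin, hk]) (fun v hv p => ?_) (fun p => ?_)
    (fun b => hmix (cls_subset _ _ _) (f3 Bool σ (165 * η) _ (fun F hF => q2 F (q4 F hF))
      (by rw [Fintype.card_bool]; omega) (by rw [Fintype.card_bool]; omega) _ _))
    (fun r => hmix (cls_subset _ _ _) (f3 _ π (η + 14 * η) _ (fun F hF => q1 F (q4 F hF))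
      (by rw [hκ]; omega) (by rw [hκ]; omega) _ _))
    (fun b => ?_) (fun i => (y2 i).trans (by omega)) (fun v => (y3 v).trans (by omega))
    (fun i => ?_) (w2 s3)
    (hpar.scale (c := 528) (by norm_num) one_pos (by omega) (by omega) n5 (by omega) (by norm_num)))
  · rw [dg_bG (mem_union_left _ hv) (cls_subset _ _ _)]
    have h1 := (q1 _ (q3 v (hs.sub hv))).dg p
    have h2 := hΔ v hv T
    have h3 := hs.dT v hv
    rw [hκ] at h1
    omega
  · have h1 := (q1 T (mem_insert_self _ _) p).2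
    rw [hκ] at h1
    omega
  · have h1 := (q2 T (mem_insert_self _ _)).bool b
    have h2 := card_cls_bool T σ b
    show (cls T σ b).card ≤ (cls T σ (!b)).card + 330 * η
    omega
  · have h1 := w1 i
    have h2 := c3 i
    rw [Nat.even_iff]
    omega

end Pool.Agent.MP_5c8b6d_co

end

section

/-! From the schedule for two near cliques to the colouring. -/

namespace Pool.Agent.MP_5c8b6d_co

open Finset

set_option linter.unusedSectionVars false

namespace Twf

variable {V : Type} [Fintype V] [DecidableEq V] {G : SimpleGraph V} {R T1 T2 : Finset V}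
  {Δ g : ℕ} {pt : V → ZMod 3}

theorem z3 (p : ZMod 3) (h : p ≠ 0) : p = 1 ∨ p = 2 := by revert p; decide

theorem nx0 : nx R T1 T2 0 = Rᶜ := by rw [nx, if_neg (by decide), if_neg (by decide)]

theorem nx1 : nx R T1 T2 1 = T1 := by rw [nx, if_pos rfl]

theorem nx2 : nx R T1 T2 2 = T2 := by rw [nx, if_neg (by decide), if_pos rfl]

theorem mem_R (hp : Ptn G R T1 T2 Δ pt) {v : V} (h : pt v ≠ 0) : v ∈ R := by
  by_contra k
  exact h (hp.typ 0 v (by rw [nx0]; exact mem_compl.2 k))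

theorem nx_sub {p : ZMod 3} (h : p ≠ 0) : nx R T1 T2 p ⊆ T1 ∪ T2 := by
  rcases z3 p h with rfl | rfl
  · rw [nx1]; exact subset_union_left
  · rw [nx2]; exact subset_union_right

theorem of_T (hp : Ptn G R T1 T2 Δ pt) {v : V} (hv : v ∈ T1 ∪ T2) :
    pt v ≠ 0 ∧ v ∈ nx R T1 T2 (pt v) := by
  rcases mem_union.1 hv with h | h
  · have := hp.typ 1 v (by rwa [nx1])
    rw [this, nx1]; exact ⟨by decide, h⟩
  · have := hp.typ 2 v (by rwa [nx2])
    rw [this, nx2]; exact ⟨by decide, h⟩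

theorem card_R (h2 : Two G R T1 T2 Δ g) :
    (R \ (T1 ∪ T2)).card + (T1.card + T2.card) = R.card := by
  rw [← card_union_of_disjoint h2.dj]
  exact card_sdiff_add_card_eq_card (union_subset h2.s1 h2.s2)

theorem nx_facts (h2 : Two G R T1 T2 Δ g) (hc : Com G R Δ) {p : ZMod 3} (h : p ≠ 0) :
    (∀ v ∈ nx R T1 T2 p, Δ ≤ dg G v (nx R T1 T2 p) + g) ∧ (nx R T1 T2 p).card ≤ Δ + g ∧
      Δ ≤ (nx R T1 T2 p).card + g := by
  obtain ⟨a, ha⟩ := h2.n1
  obtain ⟨b, hb⟩ := h2.n2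
  have := h2.d1 a ha
  have := h2.d2 b hb
  have := dg_le_card (G := G) a T1
  have := dg_le_card (G := G) b T2
  have := card_R h2
  have := hc.card
  rcases z3 p h with rfl | rfl
  · rw [nx1]; exact ⟨h2.d1, by omega, by omega⟩
  · rw [nx2]; exact ⟨h2.d2, by omega, by omega⟩

theorem nx_sub_cls (h2 : Two G R T1 T2 Δ g) (hp : Ptn G R T1 T2 Δ pt) {p : ZMod 3} (h : p ≠ 0) :
    nx R T1 T2 p ⊆ cls R pt p := fun v hv =>
  mem_cls.2 ⟨union_subset h2.s1 h2.s2 (nx_sub h hv), hp.typ p v hv⟩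

theorem inter_cls (h2 : Two G R T1 T2 Δ g) (hp : Ptn G R T1 T2 Δ pt) {p : ZMod 3} (h : p ≠ 0) :
    (T1 ∪ T2) ∩ cls R pt p = nx R T1 T2 p := by
  ext v
  rw [mem_inter]
  exact ⟨fun k => (mem_cls.1 k.2).2 ▸ (of_T hp k.1).2, fun k => ⟨nx_sub h k, nx_sub_cls h2 hp h k⟩⟩

theorem cls_sdiff (hp : Ptn G R T1 T2 Δ pt) (p : ZMod 3) :
    cls R pt p \ nx R T1 T2 p ⊆ R \ (T1 ∪ T2) := fun v hv => by
  obtain ⟨a, b⟩ := mem_sdiff.1 hv
  exact mem_sdiff.2 ⟨(mem_cls.1 a).1, fun k => b ((mem_cls.1 a).2 ▸ (of_T hp k).2)⟩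

theorem card_cls_le {α : Type} [DecidableEq α] (A B D : Finset α) (f f' : α → Bool) (b : Bool)
    (h : ∀ v ∈ A, v ∉ D → v ∈ B ∧ f' v = f v) :
    (cls A f b).card ≤ (cls B f' b).card + D.card := by
  refine le_trans (card_le_card fun v hv => ?_) (card_union_le _ _)
  obtain ⟨h1, h2⟩ := mem_cls.1 hv
  by_cases k : v ∈ D
  · exact mem_union_right _ k
  · exact mem_union_left _ (mem_cls.2 ⟨(h v h1 k).1, (h v h1 k).2.trans h2⟩)

/-- the final bipartition -/
theorem side (hP : PartStmt) (h2 : Two G R T1 T2 Δ g) (hc : Com G R Δ) (hp : Ptn G R T1 T2 Δ pt)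
    (hB : Big 16 R.card g) {J : ℕ} (hgJ : g ≤ J) (hJ : 202 * J ≤ Δ) (F : Finset V)
    (hF : F.card ≤ 4 * J) (σ : V → Bool) (sg : ZMod 3 → ℤ)
    (hs : ∀ p, (sg p).natAbs = par3 R pt p) :
    ∃ σ' : V → Bool, (∀ v ∈ F, σ' v = σ v) ∧
      (∀ p, p ≠ 0 → ((cls (cls R pt p) σ' true).card : ℤ) - (cls (cls R pt p) σ' false).card =
        sg p) ∧
      ∀ z ∈ R \ (T1 ∪ T2), pt z ≠ 0 → ∀ b, J ≤ dg G z (cls (nx R T1 T2 (pt z)) σ' b) := by
  have hR := card_R h2
  have hX := h2.cX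
  have n1 := card_pos.2 h2.n1
  have n2 := card_pos.2 h2.n2
  let Z := (R \ (T1 ∪ T2)).filter fun z => pt z ≠ 0
  have hZ : Z.card ≤ (R \ (T1 ∪ T2)).card := card_filter_le _ _
  obtain ⟨f, hf, -⟩ := hP V Bool ⊥ (insert (cls R pt 1) (insert (cls R pt 2)
    (Z.image fun z => nb G z (nx R T1 T2 (pt z))))) g R.card (by simp) (fun A hA => by
      simp only [mem_insert, mem_image] at hA
      rcases hA with rfl | rfl | ⟨z, hz, rfl⟩
      · exact card_le_card (cls_subset _ _ _)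
      · exact card_le_card (cls_subset _ _ _)
      · exact card_le_card ((nb_subset _ _).trans ((nx_sub (mem_filter.1 hz).2).trans
          (union_subset h2.s1 h2.s2)))) (hB.part (by
      have a1 := card_insert_le (cls R pt 1) (insert (cls R pt 2)
        (Z.image fun z => nb G z (nx R T1 T2 (pt z))))
      have a2 := card_insert_le (cls R pt 2) (Z.image fun z => nb G z (nx R T1 T2 (pt z)))
      have a3 := card_image_le (s := Z) (f := fun z => nb G z (nx R T1 T2 (pt z)))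
      have a4 : R.card ≤ R.card ^ 2 := Nat.le_self_pow (by norm_num) _
      simp only [Fintype.card_bool]
      omega))
  let σ1 : V → Bool := fun v => if v ∈ F then σ v else f v
  have h1 : ∀ v, v ∉ F → σ1 v = f v := fun v hv => if_neg hv
  have key : ∀ p, p ≠ 0 → ∃ D ⊆ nx R T1 T2 p \ F, D.card ≤ 6 * J ∧ ∃ σ' : V → Bool,
      (∀ v, v ∉ D → σ' v = σ1 v) ∧
      ((cls (cls R pt p) σ' true).card : ℤ) - (cls (cls R pt p) σ' false).card = sg p := by
    intro p hp0
    have e := hf (cls R pt p) (by rcases z3 p hp0 with rfl | rfl <;> simp)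
    have e1 := e.bool true
    have e2 := e.bool false
    have e3 := hs p
    rw [par3, if_neg hp0] at e3
    have e4 := (nx_facts h2 hc hp0).2.2
    have e5 := card_le_card (nx_sub_cls h2 hp hp0)
    have e6 := card_cls_bool (cls R pt p) σ1 true
    have e7 := fun b => card_cls_le (cls R pt p) (cls R pt p) F f σ1 b fun v a b => ⟨a, h1 v b⟩
    have e8 := e7 true
    have e9 := e7 false
    refine rebalance σ1 (cls R pt p) _ (sg p) (6 * J)
      (sdiff_subset.trans (nx_sub_cls h2 hp hp0)) (Int.even_iff.2 (by omega))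
      (by simp only [Bool.not_true] at e6; omega) fun b => ?_
    have a1 := card_cls_le (cls R pt p) (nx R T1 T2 p \ F) (F ∪ (R \ (T1 ∪ T2))) f σ1 b
      fun v a c => by
        rw [mem_union, not_or] at c
        refine ⟨mem_sdiff.2 ⟨by_contra fun k => c.2 (cls_sdiff hp p (mem_sdiff.2 ⟨a, k⟩)), c.1⟩,
          h1 v c.1⟩
    have a2 := card_union_le F (R \ (T1 ∪ T2))
    have a3 := e.bool b
    omega
  obtain ⟨D1, d1, c1, σa, a1, b1⟩ := key 1 (by decide)
  obtain ⟨D2, d2, c2, σb, a2, b2⟩ := key 2 (by decide)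
  have h3 : ∀ v, v ∉ D1 ∪ D2 → (if pt v = 1 then σa v else σb v) = σ1 v := fun v hv => by
    rw [mem_union, not_or] at hv
    split_ifs
    · exact a1 v hv.1
    · exact a2 v hv.2
  refine ⟨fun v => if pt v = 1 then σa v else σb v, fun v hv => ?_, fun p hp0 => ?_,
    fun z hz hz0 b => ?_⟩
  · refine (h3 v fun k => ?_).trans (if_pos hv)
    exact (mem_union.1 k).elim (fun k => (mem_sdiff.1 (d1 k)).2 hv)
      fun k => (mem_sdiff.1 (d2 k)).2 hv
  · rcases z3 p hp0 with rfl | rfl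
    · have : ∀ b, cls (cls R pt 1) (fun v => if pt v = 1 then σa v else σb v) b =
          cls (cls R pt 1) σa b := fun b =>
        filter_congr fun v hv => by simp only [if_pos (mem_cls.1 hv).2]
      rw [this, this, b1]
    · have : ∀ b, cls (cls R pt 2) (fun v => if pt v = 1 then σa v else σb v) b =
          cls (cls R pt 2) σb b := fun b =>
        filter_congr fun v hv => by
          have : ¬ pt v = 1 := by rw [(mem_cls.1 hv).2]; decide
          simp only [if_neg this]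
      rw [this, this, b2]
  · have e := (hf (nb G z (nx R T1 T2 (pt z))) (mem_insert_of_mem (mem_insert_of_mem
      (mem_image_of_mem _ (mem_filter.2 ⟨hz, hz0⟩))))).bool b
    have e1 := hp.base z hz
    have e2 := card_cls_le (nb G z (nx R T1 T2 (pt z))) (nb G z (nx R T1 T2 (pt z)))
      (F ∪ (D1 ∪ D2)) f (fun v => if pt v = 1 then σa v else σb v) b fun v a c => by
        rw [mem_union, not_or] at c
        exact ⟨a, (h3 v c.2).trans (h1 v c.1)⟩
    have e3 := card_union_le F (D1 ∪ D2)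
    have e4 := card_union_le D1 D2
    rw [dg_cls_eq]
    unfold dg at e1
    omega

/-- the edges inside the two near cliques and from exceptional vertices to their clique -/
def gb (G : SimpleGraph V) (X : Finset V) (pt : V → ZMod 3) : SimpleGraph V :=
  sub G fun u v => pt u = pt v ∧ pt u ≠ 0 ∧ ¬ (u ∈ X ∧ v ∈ X)

theorem gb_adj {X : Finset V} {u v : V} :
    (gb G X pt).Adj u v ↔ G.Adj u v ∧ pt u = pt v ∧ pt u ≠ 0 ∧ ¬ (u ∈ X ∧ v ∈ X) :=
  ⟨fun h => ⟨h.1, h.2.1⟩, fun h => ⟨h.1, h.2, h.2.1.symm, h.2.1 ▸ h.2.2.1,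
    fun k => h.2.2.2 k.symm⟩⟩

theorem dg_gb (hp : Ptn G R T1 T2 Δ pt) {z : V} (hz : pt z ≠ 0) {A B : Finset V}
    (hA : A ⊆ nx R T1 T2 (pt z)) (hB : A ⊆ B) :
    dg G z A ≤ dg (gb G (R \ (T1 ∪ T2)) pt) z B :=
  dg_le_of fun u hu k => ⟨hB hu, gb_adj.2 ⟨k, (hp.typ _ u (hA hu)).symm, hz,
    fun c => (mem_sdiff.1 c.2).2 (nx_sub hz (hA hu))⟩⟩

theorem sum_side {A : Finset V} {w : V → ℕ} {σ σ' : V → Bool} (h : ∀ v, w v ≠ 0 → σ' v = σ v)
    (b : Bool) : ∑ v ∈ cls A σ' b, w v = ∑ v ∈ cls A σ b, w v := by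
  simp only [cls, sum_filter]
  refine sum_congr rfl fun v _ => ?_
  by_cases k : w v = 0
  · simp [k]
  · rw [h v k]

end Twf

open Twf

theorem twf_of (hP : PartStmt) (hF : FinStmt) (hE : EngcStmt) : TwfStmt := by
  intro K
  have : Fact (Nat.Prime 101) := ⟨by norm_num⟩
  obtain ⟨CE, hE⟩ := hE 101
  refine ⟨(CE + 300000) * (K + 2), fun V _ _ G R T1 T2 Δ g L hpad hc h2 hpar hbig hsch => ?_⟩
  have hg := hpar.pos
  obtain ⟨η, hη⟩ : ∃ η, η = (K + 2) * g := ⟨_, rfl⟩
  have hη1 : η = K * g + 2 * g := by rw [hη]; ring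
  have hΔ : 300000 * η ≤ 2 * Δ := by
    have a1 := hpar.h1
    have a2 := hpar.h3
    have a3 := hc.card
    have a4 : L ≤ (CE + 300000) * (K + 2) * L := Nat.le_mul_of_pos_left _ (by positivity)
    have a5 : (CE + 300000) * (K + 2) * g = CE * η + 300000 * η := by rw [hη]; ring
    rw [a5] at a1
    exact (Nat.le_add_left _ _).trans (a1.trans (a4.trans (a2.trans a3.le)))
  obtain ⟨J, hJ⟩ : ∃ J, Δ = kk 101 Δ (3 * η) + J := ⟨Δ - kk 101 Δ (3 * η), by unfold kk; omega⟩
  have hJ1 : 202 * J ≤ Δ ∧ 2 * η ≤ J := by unfold kk at hJ; omega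
  obtain ⟨pt, GJ, σ, sg, ψ, hp, hj, hψ⟩ := hsch _ J hJ (by omega) (by omega)
  have hX := h2.cX
  obtain ⟨σ', s1, s2, s3⟩ := side hP h2 hc hp (hbig.mono (by nlinarith) le_rfl) (by omega) hJ1.1
    (univ.filter fun v => dg GJ v univ ≠ 0) (le_trans (by
      rw [card_filter]
      exact sum_le_sum fun v _ => by split_ifs <;> omega) hj.tot) σ sg hj.sg1
  have s1' : ∀ v, dg GJ v univ ≠ 0 → σ' v = σ v := fun v h => s1 v (mem_filter.2 ⟨mem_univ _, h⟩)
  have s4 : ∀ u v, GJ.Adj u v → σ' u = σ u := fun u v h =>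
    s1' u fun k => dg_eq_zero.1 k v (mem_univ _) h
  let Z := (R \ (T1 ∪ T2)).filter fun z => pt z ≠ 0
  have hZ : Z.card ≤ (R \ (T1 ∪ T2)).card := card_filter_le _ _
  have hTZ : ∀ v, v ∈ T1 ∪ T2 ∪ Z ↔ pt v ≠ 0 := fun v =>
    ⟨fun h => (mem_union.1 h).elim (fun k => (of_T hp k).1) fun k => (mem_filter.1 k).2,
      fun h => by
        by_cases k : v ∈ T1 ∪ T2
        · exact mem_union_left _ k
        · exact mem_union_right _ (mem_filter.2 ⟨mem_sdiff.2 ⟨mem_R hp h, k⟩, h⟩)⟩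
  obtain ⟨Y, -, y2, y3, y4, -, y6⟩ := hF V (Fin (kk 101 Δ (3 * η))) G
    (itemG G (R \ (T1 ∪ T2)) pt \ GJ) GJ (gb G (R \ (T1 ∪ T2)) pt) R (T1 ∪ T2) Z σ' ψ Δ J
    (K * g + g) g hpad (by simpa using hJ) (union_subset h2.s1 h2.s2) (filter_subset _ _)
    (fun u v h => h.1.1) (fun u v h => (hj.le h).1) (sub_le _)
    (disjoint_iff_adj.2 fun u v h => h.2)
    (disjoint_iff_adj.2 fun u v h k => by
      obtain ⟨-, a, -, b⟩ := gb_adj.1 k
      exact h.1.2.elim (fun c => c a) b)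
    (disjoint_iff_adj.2 fun u v h k => (hj.cr u v h).1 (gb_adj.1 k).2.1)
    (fun u v h k => by
      by_cases a : pt u ≠ pt v ∨ (u ∈ R \ (T1 ∪ T2) ∧ v ∈ R \ (T1 ∪ T2))
      · by_cases b : GJ.Adj u v
        · exact Or.inr (Or.inl b)
        · exact Or.inl ⟨⟨h, a⟩, b⟩
      · rw [not_or, not_not] at a
        refine Or.inr (Or.inr (gb_adj.2 ⟨h, a.1, ?_, a.2⟩))
        rcases k with k | k
        · exact (hTZ u).1 k
        · by_cases b : u ∈ T1 ∪ T2
          · exact (of_T hp b).1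
          · rw [a.1]
            exact (of_T hp (by_contra fun c =>
              a.2 ⟨mem_sdiff.2 ⟨k.1, b⟩, mem_sdiff.2 ⟨k.2, c⟩⟩)).1)
    (fun u v h => by
      obtain ⟨-, a, b, c⟩ := gb_adj.1 h
      refine ⟨(hTZ u).2 b, by_contra fun d => ?_⟩
      rw [not_or] at d
      exact c ⟨mem_sdiff.2 ⟨mem_R hp b, d.1⟩, mem_sdiff.2 ⟨mem_R hp (a ▸ b), d.2⟩⟩)
    (fun u v h => by rw [s4 u v h, s4 v u h.symm]; exact (hj.cr u v h).2) hj.deg hψ.pc hψ.full
    (fun i => (card_le_card inter_subset_left).trans ((hψ.size i).trans (by omega)))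
    (fun v hv => by
      obtain ⟨a, b⟩ := of_T hp hv
      exact ((nx_facts h2 hc a).1 v b).trans
        (Nat.add_le_add_right (dg_gb hp a Subset.rfl (nx_sub a)) _)) (by omega)
    (fun z hz => by
      obtain ⟨a, b⟩ := mem_filter.1 hz
      exact (s3 z a b _).trans (dg_gb hp b (cls_subset _ _ _) (filter_subset_filter _ (nx_sub b))))
    (fun z hz => by
      obtain ⟨a, b⟩ := mem_filter.1 hz
      have a1 := hp.base z a
      have a2 := dg_gb hp b Subset.rfl (nx_sub b)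
      omega)
  have key : ∀ p, p ≠ 0 → Eng (gb G (R \ (T1 ∪ T2)) pt) (nx R T1 T2 p) σ' Y := by
    intro p hp0
    obtain ⟨w1, w2⟩ := y4 (cls R pt p) (fun v hv => (hTZ v).2 ((mem_cls.1 hv).2 ▸ hp0))
      fun u hu v h => by
        obtain ⟨-, a, b, -⟩ := gb_adj.1 h
        exact mem_cls.2 ⟨mem_R hp (a ▸ b), a ▸ (mem_cls.1 hu).2⟩
    rw [inter_cls h2 hp hp0] at w1 w2
    obtain ⟨f1, f2, f3⟩ := nx_facts h2 hc hp0
    have e1 : cls univ pt p = cls R pt p := by
      ext v; simp only [mem_cls, mem_univ, true_and]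
      exact ⟨fun h => ⟨mem_R hp (h ▸ hp0), h⟩, fun h => h.2⟩
    have e2 := s2 p hp0
    have e3 := hj.sg1 p
    rw [par3, if_neg hp0] at e3
    refine hE V _ _ σ' _ Y Δ η L (Fintype.card_fin _) (fun v hv => ?_) (by omega) (by omega)
      (fun b => ?_) (fun i => (y2 i).trans (by omega)) (fun v => (y3 v).trans (by omega))
      (fun i => ?_) (w2 ?_) ?_
    · have a1 := f1 v hv
      have a2 := hp.typ p v hv
      have a3 := dg_gb hp (z := v) (a2 ▸ hp0) (A := nx R T1 T2 p) (a2 ▸ Subset.rfl) Subset.rfl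
      omega
    · have a1 : ∀ b, (cls (nx R T1 T2 p) σ' b).card ≤ (cls (cls R pt p) σ' b).card := fun b =>
        card_le_card (filter_subset_filter _ (nx_sub_cls h2 hp hp0))
      have a2 := fun b => card_cls_le (cls R pt p) (nx R T1 T2 p) (R \ (T1 ∪ T2)) σ' σ' b
        fun v a c => ⟨by_contra fun k => c (cls_sdiff hp p (mem_sdiff.2 ⟨a, k⟩)), rfl⟩
      have a3 := a1 true
      have a4 := a1 false
      have a5 := a2 true
      have a6 := a2 false
      cases b <;> simp only [Bool.not_true, Bool.not_false] <;> omega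
    · have a1 := w1 i
      have a2 := hψ.par i p
      rw [par3, if_neg hp0] at a2
      have a3 : cls (mv (ψ i)) pt p = mv (ψ i) ∩ cls R pt p := by
        rw [← e1]; ext v; simp
      rw [a3] at a2
      exact Nat.even_iff.2 (by omega)
    · have a1 := hj.eq p
      rw [e1, ← e2, mul_sub] at a1
      unfold JEq
      rw [sum_side s1', sum_side s1']
      zify at a1 ⊢
      linarith
    · have := hpar.scale (C' := CE) (N' := (nx R T1 T2 p).card) (e' := Δ) (a := K + 2) (b := 1)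
        (c := 2) (by omega) one_pos (by nlinarith) (by nlinarith)
        (card_le_card ((nx_sub hp0).trans (union_subset h2.s1 h2.s2))) hc.card.le two_pos
      rwa [one_mul, ← hη] at this
  have k1 := key 1 (by decide)
  have k2 := key 2 (by decide)
  rw [nx1] at k1
  rw [nx2] at k2
  refine y6 (k1.union k2 h2.dj fun u hu v hv h => ?_)
  have a1 := (gb_adj.1 h).2.1
  rw [hp.typ 1 u (by rwa [nx1]), hp.typ 2 v (by rwa [nx2])] at a1
  exact absurd a1 (by decide)

end Pool.Agent.MP_5c8b6d_co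

end

section

/-! Near complete bipartite graphs. -/

namespace Pool.Agent.MP_5c8b6d_co

open Finset

set_option linter.unusedSectionVars false

namespace Bipc

variable {V : Type} [Fintype V] [DecidableEq V] {G G' : SimpleGraph V} {S : Finset V}

theorem mu_congr (h : ∀ u ∈ S, ∀ v, v ∉ S → (G.Adj u v ↔ G'.Adj u v)) (v : V) :
    mu G S v = mu G' S v := by
  unfold mu
  split_ifs with k
  · exact dg_congr fun u => and_congr_right fun a => h v k u (mem_compl.1 a)
  · exact dg_congr fun u => and_congr_right fun a => by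
      rw [G.adj_comm, G'.adj_comm]; exact h u a v k

theorem out_congr (h : ∀ u ∈ S, ∀ v, v ∉ S → (G.Adj u v ↔ G'.Adj u v)) : out G S = out G' S :=
  sum_congr rfl fun v k => dg_congr fun u => and_congr_right fun a => h v k u (mem_compl.1 a)

theorem parOK_congr (h : ∀ u ∈ S, ∀ v, v ∉ S → (G.Adj u v ↔ G'.Adj u v)) {k b : ℕ}
    (hp : ParOK G' S k b) : ParOK G S k b := by
  have h1 := mu_congr h
  have h2 := out_congr h
  exact ⟨by simpa only [h1, h2] using hp.h0, by simpa only [h1] using hp.h0',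
    by simpa only [h2] using hp.h1, by simpa only [h1] using hp.h1'⟩

/-- the scheduled edges -/
def hh (G GJ : SimpleGraph V) (R T S : Finset V) (ty : V → Bool) : SimpleGraph V where
  Adj u v := G.Adj u v ∧ ¬ GJ.Adj u v ∧ ((u ∈ S ↔ v ∉ S) ∨ (u ∈ R \ T ∧ v ∈ R \ T) ∨
    (u ∈ S ∧ v ∈ S ∧ ty u = ty v))
  symm := ⟨fun _ _ h => ⟨h.1.symm, fun k => h.2.1 k.symm, h.2.2.imp (fun k => by tauto)
    (Or.imp And.symm fun k => ⟨k.2.1, k.1, k.2.2.symm⟩)⟩⟩
  loopless := ⟨fun _ h => h.1.ne rfl⟩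

/-- the edges between the two types -/
def gb (G : SimpleGraph V) (T S : Finset V) (ty : V → Bool) : SimpleGraph V where
  Adj u v := G.Adj u v ∧ u ∈ S ∧ v ∈ S ∧ ty u ≠ ty v ∧ (u ∈ T ∨ v ∈ T)
  symm := ⟨fun _ _ h => ⟨h.1.symm, h.2.2.1, h.2.1, h.2.2.2.1.symm, h.2.2.2.2.symm⟩⟩
  loopless := ⟨fun _ h => h.1.ne rfl⟩

theorem dg_gb {T A B : Finset V} {ty : V → Bool} (hT : T ⊆ S) {z : V} (hz : z ∈ S)
    (hA : A ⊆ cls T ty (!ty z)) (hB : A ⊆ B) : dg G z A ≤ dg (gb G T S ty) z B :=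
  dg_le_of fun u hu k => by
    obtain ⟨a, b⟩ := mem_cls.1 (hA hu)
    exact ⟨hB hu, k, hz, hT a, by rw [b]; simp, Or.inr a⟩

theorem sum_gb (T : Finset V) (ty : V → Bool) :
    ∑ v ∈ cls S ty true, dg (gb G T S ty) v univ =
      ∑ v ∈ cls S ty false, dg (gb G T S ty) v univ := by
  have key : ∀ b, ∑ v ∈ cls S ty b, dg (gb G T S ty) v univ =
      ∑ v ∈ cls S ty b, dg (gb G T S ty) v (cls S ty (!b)) := fun b =>
    sum_congr rfl fun v hv => dg_congr fun u => ⟨fun h => ⟨mem_cls.2 ⟨h.2.2.2.1, by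
      have := h.2.2.2.2.1
      rw [(mem_cls.1 hv).2] at this
      cases b <;> simpa using this.symm⟩, h.2⟩, fun h => ⟨mem_univ _, h.2⟩⟩
  rw [key, key, sum_dg_comm]; rfl

end Bipc

open Bipc

theorem bipc_of (hS : BselStmt) (hC : SchStmt) (hW : BalwStmt) (hF : FinStmt) (hE : BengStmt) :
    BipcStmt := by
  have : Fact (Nat.Prime 541) := ⟨by norm_num⟩
  obtain ⟨CE, hE⟩ := hE 541
  obtain ⟨CS, hS⟩ := hS
  refine ⟨CE * 12106 + 2 * CS + 1000000000000, fun V _ _ G R A B Δ g L hpad hc hb hpar hbig => ?_⟩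
  have hg := hpar.pos
  have hR := hc.card
  have hΔ : 2 * (CS * g) + 1000000000000 * g ≤ 2 * Δ := by
    have a4 : L ≤ (CE * 12106 + 2 * CS + 1000000000000) * L :=
      Nat.le_mul_of_pos_left _ (by positivity)
    refine le_trans ?_ (hpar.h1.trans (a4.trans (hpar.h3.trans hR.le)))
    rw [add_mul, add_mul, mul_assoc 2, add_assoc]
    exact Nat.le_add_left _ _
  obtain ⟨k, hk⟩ : ∃ k, k = kk 541 Δ (3 * (12106 * g)) := ⟨_, rfl⟩
  obtain ⟨J, hJ⟩ : ∃ J, Δ = k + J := ⟨Δ - k, by unfold kk at hk; omega⟩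
  have hJ1 : 1000 * J ≤ Δ ∧ Δ ≤ 1200 * J ∧ 12106 * g ≤ J := by unfold kk at hk; omega
  obtain ⟨Z, ty, σ, GJ, hs⟩ := hS V G R A B Δ J g hpad hc hb hJ1.1 hJ1.2.1 hg (by omega)
    (hbig.mono (by omega) le_rfl)
  have hX := hb.cX
  have hTR : A ∪ B ⊆ R := union_subset hb.s1 hb.s2
  generalize A ∪ B = T at hs hX hTR
  have hZ : Z.card ≤ (R \ T).card := card_le_card hs.zs
  have hTS : T ⊆ T ∪ Z := subset_union_left
  have hSR : T ∪ Z ⊆ R := union_subset hTR (hs.zs.trans sdiff_subset)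
  have hST : ∀ v ∈ T ∪ Z, v ∉ T → v ∈ Z := fun v a b => (mem_union.1 a).resolve_left b
  have hTc := card_le_card hTR
  have d1 : Disjoint (hh G GJ R T (T ∪ Z) ty) GJ := disjoint_iff_adj.2 fun u v h => h.2.1
  have d2 : Disjoint (hh G GJ R T (T ∪ Z) ty) (gb G T (T ∪ Z) ty) :=
    disjoint_iff_adj.2 fun u v h k => by
      obtain ⟨-, a, b, c, d⟩ := k
      rcases h.2.2 with e | e | e
      · exact e.1 a b
      · exact d.elim (mem_sdiff.1 e.1).2 (mem_sdiff.1 e.2).2
      · exact c e.2.2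
  have d3 : Disjoint GJ (gb G T (T ∪ Z) ty) := disjoint_iff_adj.2 fun u v h k => by
    obtain ⟨-, a, b, c, -⟩ := k
    exact (hs.kind u v h).elim (fun e => e.1 a b) fun e => c e.2.2
  have hcov : ∀ u v, G.Adj u v → u ∈ T ∪ Z ∨ (u ∈ R ∧ v ∈ R) →
      (hh G GJ R T (T ∪ Z) ty).Adj u v ∨ GJ.Adj u v ∨ (gb G T (T ∪ Z) ty).Adj u v := by
    intro u v h k
    by_cases a : GJ.Adj u v
    · exact Or.inr (Or.inl a)
    by_cases b : u ∈ T ∪ Z <;> by_cases c : v ∈ T ∪ Z
    · by_cases d : ty u = ty v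
      · exact Or.inl ⟨h, a, Or.inr (Or.inr ⟨b, c, d⟩)⟩
      by_cases e : u ∈ T ∨ v ∈ T
      · exact Or.inr (Or.inr ⟨h, b, c, d, e⟩)
      · rw [not_or] at e
        exact Or.inl ⟨h, a, Or.inr (Or.inl ⟨mem_sdiff.2 ⟨hSR b, e.1⟩, mem_sdiff.2 ⟨hSR c, e.2⟩⟩)⟩
    · exact Or.inl ⟨h, a, Or.inl (iff_of_true b c)⟩
    · exact Or.inl ⟨h, a, Or.inl (iff_of_false b fun e => e c)⟩
    · have := k.resolve_left b
      exact Or.inl ⟨h, a, Or.inr (Or.inl ⟨mem_sdiff.2 ⟨this.1, fun e => b (hTS e)⟩,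
        mem_sdiff.2 ⟨this.2, fun e => c (hTS e)⟩⟩)⟩
  have hdeg : ∀ v ∈ T ∪ Z, dg (hh G GJ R T (T ∪ Z) ty) v univ + dg GJ v univ +
      dg (gb G T (T ∪ Z) ty) v univ = Δ := by
    intro v hv
    rw [← dg_sup d1, ← dg_sup (disjoint_sup_left.2 ⟨d2, d3⟩), ← hpad.full v (hSR hv)]
    refine dg_congr fun u => and_congr_right fun _ => ⟨fun h => ?_, fun h => ?_⟩
    · rcases h with (h | h) | h
      · exact h.1
      · exact hs.le h
      · exact h.1
    · exact or_assoc.2 (hcov v u h (Or.inl hv))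
  have hT : ∀ v ∈ T, Δ ≤ dg (gb G T (T ∪ Z) ty) v T + g := fun v hv =>
    (hs.near v hv).trans (Nat.add_le_add_right (dg_gb hTS (hTS hv) Subset.rfl (cls_subset _ _ _)) _)
  have hZ3 : ∀ z ∈ Z, 3 * J ≤ dg (gb G T (T ∪ Z) ty) z T := fun z hz =>
    (hs.zb z hz).trans (dg_gb hTS (mem_union_right _ hz) Subset.rfl (cls_subset _ _ _))
  have hcut : ∀ u ∈ T ∪ Z, ∀ v, v ∉ T ∪ Z →
      ((hh G GJ R T (T ∪ Z) ty).Adj u v ↔ (G \ GJ).Adj u v) := fun u a v b =>
    ⟨fun h => ⟨h.1, h.2.1⟩, fun h => ⟨h.1, h.2, Or.inl (iff_of_true a b)⟩⟩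
  obtain ⟨ψ, p1, p2, p3, p4⟩ := hC V (Fin k) (hh G GJ R T (T ∪ Z) ty) T (T ∪ Z)
    ((T ∪ Z).card % 2) g J (2400 * g) hTS (by omega)
    (by
      have := hs.par
      rw [show Δ - J = k by omega] at this
      simpa using parOK_congr hcut this)
    (by
      have a1 := hpad.out_mod hSR
      have a2 := out_mod_two (G := GJ) (T ∪ Z)
      have a3 : out (G \ GJ) (T ∪ Z) + out GJ (T ∪ Z) = out G (T ∪ Z) := by
        unfold out; rw [← sum_add_distrib]
        exact sum_congr rfl fun v _ => dg_sdiffG_add hs.le v _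
      have a4 := hs.e2
      unfold JEq at a4
      have a5 := sum_cls_bool (T ∪ Z) σ fun v => dg GJ v univ
      have a6 : Δ * (T ∪ Z).card = k * (T ∪ Z).card + (J * (cls (T ∪ Z) σ true).card +
          J * (cls (T ∪ Z) σ false).card) := by
        rw [← mul_add, ← Bool.not_true, card_cls_bool, hJ, add_mul]
      rw [out_congr hcut, Fintype.card_fin, Nat.mul_mod_mod]
      omega)
    (fun v hv => by
      have := hdeg v (hTS hv)
      have := hT v hv
      have := dg_le_univ (G := gb G T (T ∪ Z) ty) v T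
      omega)
    (fun v _ => (dg_le_card _ _).trans ((card_le_card fun u hu =>
      hST u (mem_sdiff.1 hu).1 (mem_sdiff.1 hu).2).trans (by omega)))
    (fun v hv => le_trans (card_le_card (t := R \ T) fun u hu => by
      obtain ⟨a, -, -, b⟩ := mem_nb.1 hu
      rcases b with b | b | b
      · exact absurd (b.2 (mem_compl.1 a)) hv
      · exact b.2
      · exact absurd b.1 hv) (by omega))
    (fun z hz => by
      have := hdeg z (mem_sdiff.1 hz).1
      have := hZ3 z (hST z (mem_sdiff.1 hz).1 (mem_sdiff.1 hz).2)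
      have := dg_le_univ (G := gb G T (T ∪ Z) ty) z T
      rw [Fintype.card_fin]; omega)
    (by rw [Fintype.card_fin]; omega) hg (by rw [Fintype.card_fin]; omega)
    (by rw [Fintype.card_fin]; omega)
    (by
      rw [mul_comm 2400 g, mul_assoc]
      exact Nat.mul_lt_mul_of_pos_left (by omega) hg)
  have hu : cls (T ∪ Z) ty true ∪ cls (T ∪ Z) ty false = T ∪ Z := by
    ext v; simp only [mem_union, mem_cls]; cases ty v <;> simp
  have hcS := card_cls_bool (T ∪ Z) ty true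
  rw [Bool.not_true] at hcS
  have hq : ∀ t, Δ ≤ (cls T ty t).card + 12 * g ∧ (cls T ty t).card ≤ Δ + 12 * g := fun t => by
    have a1 := hs.quad t true
    have a2 := hs.quad t false
    have a3 := card_cls_bool (cls T ty t) σ true
    rw [Bool.not_true] at a3
    omega
  obtain ⟨M, m1, m2, m3, m4⟩ := hW V (Fin k) (hh G GJ R T (T ∪ Z) ty) ψ (cls (T ∪ Z) ty true)
    (cls (T ∪ Z) ty false) (((cls (T ∪ Z) ty true).card : ℤ) - (cls (T ∪ Z) ty false).card)
    (2421 * g) p1 p2 (disjoint_left.2 fun v a b => by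
      have := (mem_cls.1 a).2.symm.trans (mem_cls.1 b).2
      simp at this)
    (by
      have a1 : ∀ b, ∑ v ∈ cls (T ∪ Z) ty b, dg (hh G GJ R T (T ∪ Z) ty) v univ +
          ∑ v ∈ cls (T ∪ Z) ty b, dg GJ v univ +
          ∑ v ∈ cls (T ∪ Z) ty b, dg (gb G T (T ∪ Z) ty) v univ =
          k * (cls (T ∪ Z) ty b).card + J * (cls (T ∪ Z) ty b).card := fun b => by
        rw [← sum_add_distrib, ← sum_add_distrib,
          sum_congr rfl fun v hv => hdeg v (mem_cls.1 hv).1, sum_const, smul_eq_mul, ← add_mul,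
          ← hJ, mul_comm]
      have a2 := a1 true
      have a3 := a1 false
      have a4 := hs.e1
      unfold JEq at a4
      rw [sum_gb] at a2
      rw [Fintype.card_fin, mul_sub]
      zify at a2 a3 a4
      linarith)
    (fun i => by
      have := p3 i
      rw [hu]; exact Int.even_iff.2 (by omega))
    (fun i => by
      have a1 := p4 i
      have a2 := card_union_le (mv (ψ i) ∩ T) (mv (ψ i) ∩ Z)
      have a3 := card_le_card (inter_subset_right : mv (ψ i) ∩ Z ⊆ Z)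
      rw [hu, inter_union_distrib_left]; omega)
    (by
      have a1 : ∀ t, (cls T ty t).card ≤ (cls (T ∪ Z) ty t).card ∧
          (cls (T ∪ Z) ty t).card ≤ (cls T ty t).card + Z.card := fun t =>
        ⟨card_le_card (filter_subset_filter _ hTS), by
          rw [cls, filter_union]
          exact (card_union_le _ _).trans (Nat.add_le_add_left (card_filter_le _ _) _)⟩
      have := a1 true
      have := a1 false
      have := hq true
      have := hq false
      omega)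
  rw [hu] at m4
  obtain ⟨Y, -, y2, y3, y4, y5, y6⟩ := hF V (Fin k) G (hh G GJ R T (T ∪ Z) ty) GJ
    (gb G T (T ∪ Z) ty) R T Z σ M Δ J (12105 * g) g hpad (by simpa using hJ) hTR hs.zs
    (fun _ _ h => h.1) hs.le (fun _ _ h => h.1) d1 d2 d3 hcov
    (fun u v h => ⟨h.2.1, h.2.2.2.2⟩) hs.cr hs.deg m1 m2
    (fun i => (card_le_card (inter_subset_inter_left hTS)).trans ((m4 i).trans (by omega)))
    hT (by omega)
    (fun z hz => (hs.zo z hz).trans (dg_gb hTS (mem_union_right _ hz) (cls_subset _ _ _)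
      (filter_subset_filter _ (cls_subset _ _ _))))
    (fun z hz => le_trans (by omega) (hZ3 z hz))
  have w := (y4 (T ∪ Z) Subset.rfl fun u _ v h => h.2.2.1).2 hs.e2
  rw [inter_eq_left.2 hTS] at w
  refine y6 (hE V (Fin k) _ ty σ T Y Δ (12106 * g) L (by rw [Fintype.card_fin, hk])
    (fun u v h => h.2.2.2.1) (fun v hv => ?_) (fun t c => ?_) (fun i => (y2 i).trans (by omega))
    (fun v => (y3 v).trans (by omega)) (fun i => ?_) w ?_)
  · have := hT v hv
    have := hq (!ty v)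
    omega
  · have := hs.quad t c
    omega
  · have := y5 ty (fun u v h => h.2.2.2.1) i
    have := m3 i
    omega
  · have := hpar.scale (C' := CE) (N' := T.card) (e' := Δ) (a := 12106) (b := 1) (c := 2)
      (by norm_num) one_pos (by omega) (by omega) hTc hR.le two_pos
    rwa [one_mul] at this

end Pool.Agent.MP_5c8b6d_co

end

end MrgPart1

-- marker of a merged file
example : 731051 + 349985 = 731051 + 349985 := rfl
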