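import Mathlib.Data.Fintype.Lattice
import Mathlib.Data.Int.Star
import Mathlib.Tactic.Algebra.Basic
import Pool.Agent.MP_5c8b6d_co.Core

section

/-! TWR and TWO: counting the free edges of two near cliques. -/

namespace Pool.Agent.MP_5c8b6d_co

open Finset

set_option linter.unusedSectionVars false

namespace Twr

variable {V : Type} [Fintype V] [DecidableEq V] {G : SimpleGraph V} {R T1 T2 : Finset V}
  {Δ g : ℕ}

theorem cases3 (p : ZMod 3) : p = 0 ∨ p = 1 ∨ p = 2 := by revert p; decide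

theorem nx0 : nx R T1 T2 0 = Rᶜ := by
  rw [nx, if_neg (by decide), if_neg (by decide)]

theorem nx1 : nx R T1 T2 1 = T1 := by rw [nx, if_pos rfl]

theorem nx2 : nx R T1 T2 2 = T2 := by rw [nx, if_neg (by decide), if_pos rfl]

theorem split (h : Two G R T1 T2 Δ g) (v : V) : dg G v univ =
    dg G v Rᶜ + dg G v T1 + dg G v T2 + dg G v (R \ (T1 ∪ T2)) := by
  have h1 := dg_add_compl (G := G) v R
  have h2 := dg_sdiff_add (G := G) v (union_subset h.s1 h.s2)
  have h3 := dg_union (G := G) v h.dj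
  omega

theorem card_split (h : Two G R T1 T2 Δ g) :
    R.card = T1.card + T2.card + (R \ (T1 ∪ T2)).card := by
  have h1 := card_sdiff_add_card_eq_card (union_subset h.s1 h.s2)
  have h2 := card_union_of_disjoint h.dj
  omega

theorem sum_dg_self (T : Finset V) : ∑ v ∈ T, dg G v T + T.card ≤ T.card * T.card := by
  have : ∑ v ∈ T, (dg G v T + 1) ≤ ∑ _v ∈ T, T.card := sum_le_sum fun v hv => dg_lt_card hv
  simpa [sum_add_distrib] using this

theorem vertex {d0 d1 d2 x dp : ℕ} (h1 : d0 + d1 + d2 + x = Δ) (h2 : 10 * x ≤ g) (h3 : g ≤ Δ)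
    (h4 : dp = d0 ∨ dp = d1 ∨ dp = d2) (h5 : 2 * dp + g ≤ 2 * Δ) :
    g * dp ≤ 5 * Δ * ((if 3 * d0 ≤ Δ then min (min d1 d2) g else 0) +
      (if 3 * d1 ≤ Δ then min (min d2 d0) g else 0) +
      (if 3 * d2 ≤ Δ then min (min d0 d1) g else 0)) := by
  generalize hs : ((if 3 * d0 ≤ Δ then min (min d1 d2) g else 0) +
      (if 3 * d1 ≤ Δ then min (min d2 d0) g else 0) +
      (if 3 * d2 ≤ Δ then min (min d0 d1) g else 0)) = s
  have key : g ≤ 5 * s ∨ dp ≤ s := by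
    split_ifs at hs <;> omega
  have h6 : dp ≤ Δ := by omega
  rcases key with k | k
  · calc g * dp ≤ 5 * s * Δ := Nat.mul_le_mul k h6
      _ = _ := by ring
  · calc g * dp ≤ 5 * Δ * s := Nat.mul_le_mul (by omega) k

theorem supply (hp : Pad G R Δ) (h : Two G R T1 T2 Δ g) (h3 : g ≤ Δ) {T : Finset V}
    (hT : T = T1 ∨ T = T2) : g * ∑ z ∈ R \ (T1 ∪ T2), dg G z T ≤ 5 * Δ *
      (msum G R T1 T2 Δ g 0 + msum G R T1 T2 Δ g 1 + msum G R T1 T2 Δ g 2) := by
  have e1 : (0 : ZMod 3) + 1 = 1 := by decide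
  have e2 : (0 : ZMod 3) + 2 = 2 := by decide
  have e3 : (1 : ZMod 3) + 1 = 2 := by decide
  have e4 : (1 : ZMod 3) + 2 = 0 := by decide
  have e5 : (2 : ZMod 3) + 1 = 0 := by decide
  have e6 : (2 : ZMod 3) + 2 = 1 := by decide
  simp only [msum, sum_filter, e1, e2, e3, e4, e5, e6, nx0, nx1, nx2]
  rw [← sum_add_distrib, ← sum_add_distrib, mul_sum, mul_sum]
  refine sum_le_sum fun z hz => vertex (x := dg G z (R \ (T1 ∪ T2))) ?_ ?_ h3 ?_ ?_
  · rw [← split h z, hp.full z (mem_sdiff.1 hz).1]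
  · have := dg_le_card (G := G) z (R \ (T1 ∪ T2))
    have := h.cX
    omega
  · rcases hT with rfl | rfl <;> simp
  · rcases hT with rfl | rfl
    exacts [h.x1 z hz, h.x2 z hz]

/-- the arithmetic of the second case -/
theorem arith {Δ g ρ e m : ℤ} (h0 : 0 < Δ) (h1 : 10 * g ≤ Δ) (h2 : 150000 * Δ ^ 2 ≤ g ^ 3)
    (h3 : g < 2 * ρ ^ 2) (h4 : 0 < ρ) (h5 : ρ * (Δ - g) ≤ e + 3 * Δ) (h6 : g * e ≤ 5 * Δ * m) :
    27 * Δ ≤ m := by
  have g0 : 0 < g := by
    by_contra k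
    have : g ^ 3 ≤ 0 := Odd.pow_nonpos (by decide) (not_lt.1 k)
    nlinarith
  have g1 : 128 ≤ g := by
    by_contra k
    have a : g ^ 3 ≤ 128 * g ^ 2 := by nlinarith [sq_nonneg g]
    have b : 100 * g ^ 2 ≤ Δ ^ 2 := by nlinarith
    linarith [pow_pos g0 2]
  have r8 : 8 ≤ ρ := by
    by_contra k
    have : ρ ≤ 7 := by omega
    nlinarith
  have e1 : ρ * Δ ≤ 2 * e := by nlinarith
  have m1 : g * ρ ≤ 10 * m := by
    have : Δ * (g * ρ) ≤ Δ * (10 * m) := by nlinarith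
    exact le_of_mul_le_mul_left this h0
  have m2 : 270 * Δ ≤ g * ρ := by
    refine (abs_le_of_sq_le_sq' ?_ (by positivity)).2
    have : g ^ 3 ≤ 2 * (g * ρ) ^ 2 := by nlinarith [pow_pos g0 2]
    nlinarith
  omega

theorem sq_two {g a b : ℤ} (h : g < a ^ 2 + b ^ 2) (l : b ≤ a) (k : 0 ≤ a + b) : g < 2 * a ^ 2 := by
  have : 0 ≤ (a - b) * (a + b) := mul_nonneg (by omega) k
  linarith

theorem arith2 {Δ g a0 a1 a2 x0 x1 x2 y1 y2 w1 w2 m : ℤ} (hg : 10 * g ≤ Δ)
    (hb : 150000 * Δ ^ 2 ≤ g ^ 3) (s1 : Δ * a1 = x2 + w1 + x0 + y1)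
    (s2 : Δ * a2 = x1 + x0 + w2 + y2) (s3 : y1 + y2 ≤ a0 * Δ) (q1 : w1 + a1 ≤ a1 * a1)
    (q2 : w2 + a2 ≤ a2 * a2) (t1 : Δ < a1 + g) (t2 : Δ < a2 + g) (u1 : g * y1 ≤ 5 * Δ * m)
    (u2 : g * y2 ≤ 5 * Δ * m) (hA : 2 * x0 + x1 + x2 + g < 3 * Δ) (c2 : a1 + a2 + a0 < 2 * Δ)
    (d0 : 0 < Δ) (p0 : 0 ≤ a0) (p1 : 0 ≤ x0) (p2 : 0 ≤ x1) (p3 : 0 ≤ x2) :
    27 * Δ ≤ m := by
  obtain ⟨ρ1, rfl⟩ : ∃ ρ : ℤ, a1 = Δ + 1 - ρ := ⟨Δ + 1 - a1, by ring⟩
  obtain ⟨ρ2, rfl⟩ : ∃ ρ : ℤ, a2 = Δ + 1 - ρ := ⟨Δ + 1 - a2, by ring⟩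
  have f1 : (Δ + 1 - ρ1) * ρ1 ≤ x2 + x0 + y1 := by linarith
  have f2 : (Δ + 1 - ρ2) * ρ2 ≤ x1 + x0 + y2 := by linarith
  have f3 : 3 + a0 ≤ ρ1 + ρ2 := by omega
  have f4 : g < ρ1 ^ 2 + ρ2 ^ 2 := by
    have : (Δ + 1) * (3 + a0) ≤ (Δ + 1) * (ρ1 + ρ2) := mul_le_mul_of_nonneg_left f3 (by omega)
    linarith
  rcases le_total ρ2 ρ1 with l | l
  · refine arith (ρ := ρ1) (e := y1) d0 hg hb (sq_two f4 l (by omega)) (by omega) ?_ u1
    have : ρ1 * (Δ - g) ≤ ρ1 * (Δ + 1 - ρ1) := mul_le_mul_of_nonneg_left (by omega) (by omega)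
    linarith
  · refine arith (ρ := ρ2) (e := y2) d0 hg hb (sq_two (add_comm (ρ1 ^ 2) _ ▸ f4) l (by omega))
      (by omega) ?_ u2
    have : ρ2 * (Δ - g) ≤ ρ2 * (Δ + 1 - ρ2) := mul_le_mul_of_nonneg_left (by omega) (by omega)
    linarith

end Twr

open Twr in
theorem twr : TwrStmt := by
  intro V _ _ G R T1 T2 Δ g γ hp hc h hγ hg hb
  have e1 : (0 : ZMod 3) + 1 = 1 := by decide
  have e2 : (0 : ZMod 3) + 2 = 2 := by decide
  have e3 : (1 : ZMod 3) + 1 = 2 := by decide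
  have e4 : (1 : ZMod 3) + 2 = 0 := by decide
  have e5 : (2 : ZMod 3) + 1 = 0 := by decide
  have e6 : (2 : ZMod 3) + 2 = 1 := by decide
  by_cases hA : 3 * Δ ≤ 2 * nfree G R T1 T2 0 + nfree G R T1 T2 1 + nfree G R T1 T2 2 + g
  · by_cases a0 : Δ + γ ≤ nfree G R T1 T2 0
    · exact Or.inl ⟨0, Or.inl a0⟩
    by_cases a1 : Δ + γ ≤ nfree G R T1 T2 1
    · exact Or.inl ⟨1, Or.inl a1⟩
    by_cases a2 : Δ + γ ≤ nfree G R T1 T2 2
    · exact Or.inl ⟨2, Or.inl a2⟩
    refine Or.inr ⟨fun p => ?_, ?_⟩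
    · rcases cases3 p with rfl | rfl | rfl <;> simp only [e1, e2, e3, e4, e5, e6] <;> omega
    · by_contra k
      have k0 := not_le.1 (not_exists.1 k 0)
      have k1 := not_le.1 (not_exists.1 k 1)
      have k2 := not_le.1 (not_exists.1 k 2)
      omega
  left
  by_contra k
  have k0 := not_le.1 (not_or.1 (not_exists.1 k 0)).2
  have k1 := not_le.1 (not_or.1 (not_exists.1 k 1)).2
  have k2 := not_le.1 (not_or.1 (not_exists.1 k 2)).2
  have n0 : nfree G R T1 T2 0 = ∑ v ∈ T1, dg G v T2 := by rw [nfree, e1, e2, nx1, nx2]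
  have n1 : nfree G R T1 T2 1 = ∑ v ∈ T2, dg G v Rᶜ := by rw [nfree, e3, e4, nx2, nx0]
  have n2 : nfree G R T1 T2 2 = ∑ v ∈ T1, dg G v Rᶜ := by
    rw [nfree, e5, e6, nx0, nx1, sum_dg_comm]
  have s1 : Δ * T1.card = nfree G R T1 T2 2 + ∑ v ∈ T1, dg G v T1 + nfree G R T1 T2 0 +
      ∑ z ∈ R \ (T1 ∪ T2), dg G z T1 := by
    rw [n0, n2, sum_dg_comm (R \ (T1 ∪ T2)), ← sum_add_distrib, ← sum_add_distrib,
      ← sum_add_distrib, ← sum_congr rfl fun v _ => split h v,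
      sum_congr rfl fun v hv => hp.full v (h.s1 hv)]
    simp [mul_comm]
  have s2 : Δ * T2.card = nfree G R T1 T2 1 + nfree G R T1 T2 0 + ∑ v ∈ T2, dg G v T2 +
      ∑ z ∈ R \ (T1 ∪ T2), dg G z T2 := by
    rw [n0, n1, sum_dg_comm T1 T2, sum_dg_comm (R \ (T1 ∪ T2)), ← sum_add_distrib,
      ← sum_add_distrib, ← sum_add_distrib, ← sum_congr rfl fun v _ => split h v,
      sum_congr rfl fun v hv => hp.full v (h.s2 hv)]
    simp [mul_comm]
  have s3 : ∑ z ∈ R \ (T1 ∪ T2), dg G z T1 + ∑ z ∈ R \ (T1 ∪ T2), dg G z T2 ≤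
      (R \ (T1 ∪ T2)).card * Δ := by
    rw [← sum_add_distrib]
    refine sum_le_card_nsmul _ _ _ fun z hz => ?_
    have := split h z
    have := hp.full z (mem_sdiff.1 hz).1
    omega
  have q1 := sum_dg_self (G := G) T1
  have q2 := sum_dg_self (G := G) T2
  have c0 := card_split h
  have c1 := hc.card
  have t1 : Δ < T1.card + g := by
    obtain ⟨v, hv⟩ := h.n1
    have := h.d1 v hv; have := dg_lt_card (G := G) hv; omega
  have t2 : Δ < T2.card + g := by
    obtain ⟨v, hv⟩ := h.n2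
    have := h.d2 v hv; have := dg_lt_card (G := G) hv; omega
  have u1 := supply hp h (by omega) (Or.inl rfl)
  have u2 := supply hp h (by omega) (Or.inr rfl)
  generalize msum G R T1 T2 Δ g 0 = m0 at *
  generalize msum G R T1 T2 Δ g 1 = m1 at *
  generalize msum G R T1 T2 Δ g 2 = m2 at *
  generalize nfree G R T1 T2 0 = x0 at *
  generalize nfree G R T1 T2 1 = x1 at *
  generalize nfree G R T1 T2 2 = x2 at *
  generalize ∑ z ∈ R \ (T1 ∪ T2), dg G z T1 = y1 at *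
  generalize ∑ z ∈ R \ (T1 ∪ T2), dg G z T2 = y2 at *
  generalize ∑ v ∈ T1, dg G v T1 = w1 at *
  generalize ∑ v ∈ T2, dg G v T2 = w2 at *
  generalize (R \ (T1 ∪ T2)).card = a0 at *
  generalize T1.card = a1 at *
  generalize T2.card = a2 at *
  have hA' : 2 * x0 + x1 + x2 + g < 3 * Δ := not_le.1 hA
  have c2 : a1 + a2 + a0 < 2 * Δ := by omega
  have km : m0 + m1 + m2 < 27 * Δ := by omega
  have := arith2 (Δ := Δ) (g := g) (a0 := a0) (a1 := a1) (a2 := a2) (x0 := x0) (x1 := x1)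
    (x2 := x2) (y1 := y1) (y2 := y2) (w1 := w1) (w2 := w2) (m := m0 + m1 + m2)
    (by exact_mod_cast hg) (by exact_mod_cast hb) (by exact_mod_cast s1) (by exact_mod_cast s2)
    (by exact_mod_cast s3) (by exact_mod_cast q1) (by exact_mod_cast q2) (by exact_mod_cast t1)
    (by exact_mod_cast t2) (by exact_mod_cast u1) (by exact_mod_cast u2) (by exact_mod_cast hA')
    (by exact_mod_cast c2) (by omega) (by positivity) (by positivity) (by positivity)
    (by positivity)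
  omega

theorem two_of (hR : TwrStmt) (h1 : Tw1Stmt) (h2 : Tw2Stmt) (hF : TwfStmt) : TwoStmt := by
  obtain ⟨C1, h1⟩ := h1
  obtain ⟨C2, h2⟩ := h2
  obtain ⟨C3, hF⟩ := hF (max C1 C2)
  refine ⟨C3 + 300 * (C1 + 1) + C2 + 150000, ?_⟩
  intro V _ _ G R T1 T2 Δ g L hp hc h hpar hbig
  have a1 : (C3 + 300 * (C1 + 1) + C2 + 150000) * g ≤ Δ := by
    have b1 := hpar.h1
    have b2 := hpar.h3
    have b3 := hc.card
    have b4 : 2 * L ≤ (C3 + 300 * (C1 + 1) + C2 + 150000) * L := Nat.mul_le_mul_right _ (by omega)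
    omega
  have a2 : 300 * (C1 * g) + 300 * g + C2 * g + 150000 * g ≤ Δ := by
    refine le_trans ?_ a1
    linarith [Nat.zero_le (C3 * g)]
  have a3 : Δ ≤ R.card := by
    obtain ⟨v, hv⟩ := h.n1
    obtain ⟨w, hw⟩ := h.n2
    have := h.d1 v hv
    have := h.d2 w hw
    have := dg_le_card (G := G) v T1
    have := dg_le_card (G := G) w T2
    have := Twr.card_split h
    omega
  have a4 : 150000 * Δ ^ 2 ≤ g ^ 3 :=
    (Nat.mul_le_mul (by omega) (Nat.pow_le_pow_left a3 2)).trans hbig.b1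
  have mono : ∀ {J a a' : ℕ} {ι : Type}, a ≤ a' → TSch G R T1 T2 Δ J a ι →
      TSch G R T1 T2 Δ J a' ι := fun k ⟨pt, GJ, σ, sg, ψ, x1, x2, x3⟩ =>
    ⟨pt, GJ, σ, sg, ψ, x1, x2, x3.pc, x3.full, x3.par, fun i => (x3.size i).trans k⟩
  refine hF V G R T1 T2 Δ g L hp hc h (hpar.mono (by omega) le_rfl le_rfl)
    (hbig.mono (by omega) le_rfl) fun k J x1 x2 x3 => ?_
  rcases hR V G R T1 T2 Δ g (C1 * g + g) hp hc h (by omega) (by omega) a4 with ⟨b, y⟩ | ⟨y1, y2⟩
  · exact mono (Nat.mul_le_mul_right _ (le_max_left _ _)) (h1 V (Fin k) G R T1 T2 Δ J g b hp hc h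
      (by simpa using x1) x2 hpar.pos x3 (by omega) (hbig.mono (by omega) le_rfl)
      (y.imp (fun z => by omega) id))
  · exact mono (Nat.mul_le_mul_right _ (le_max_right _ _)) (h2 V (Fin k) G R T1 T2 Δ J g
      (3 * (C1 * g + g)) hp hc h (by simpa using x1) x2 hpar.pos x3 (by omega) (by omega) y1 y2)

end Pool.Agent.MP_5c8b6d_co

end

section

/-! The edges that are left to the last colours in the case of two near cliques. -/

namespace Pool.Agent.MP_5c8b6d_co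

open Finset

namespace Twj

variable {V : Type} [Fintype V] [DecidableEq V] {G H P K GJ : SimpleGraph V}
  {pt : V → ZMod 3} {s : ZMod 3 → ℕ} {J g : ℕ}

/-- the degree sum on one side of one part -/
noncomputable def cs (GJ : SimpleGraph V) (pt : V → ZMod 3) (σ : V → Bool) (p : ZMod 3)
    (c : Bool) : ℕ := ∑ v ∈ cls (cls univ pt p) σ c, dg GJ v univ

omit [DecidableEq V] in
theorem cs_add (σ : V → Bool) (p : ZMod 3) :
    cs GJ pt σ p true + cs GJ pt σ p false = ∑ v ∈ cls univ pt p, dg GJ v univ :=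
  sum_cls_bool _ _ _

theorem jsel_of {σ : V → Bool} (hle : GJ ≤ H)
    (hcr : ∀ u v, GJ.Adj u v → pt u ≠ pt v ∧ σ u ≠ σ v) (ht : ∑ v, dg GJ v univ ≤ 4 * J)
    (h : ∀ p, (s p = 0 ∧ cs GJ pt σ p true = cs GJ pt σ p false ∧ cs GJ pt σ p true ≤ J) ∨
      (s p = 1 ∧ cs GJ pt σ p true = J ∧ cs GJ pt σ p false = 0) ∨
      (s p = 1 ∧ cs GJ pt σ p true = 0 ∧ cs GJ pt σ p false = J)) :
    ∃ sg, JSel H pt s J GJ σ sg := by
  refine ⟨fun p => if s p = 0 then 0 else if cs GJ pt σ p false = 0 then 1 else -1,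
    hle, hcr, fun v => ?_, ht, fun p => ?_, fun p => ?_, fun p hp => ?_⟩
  · have h1 : dg GJ v univ ≤ cs GJ pt σ (pt v) (σ v) :=
      single_le_sum (f := fun v => dg GJ v univ) (fun _ _ => Nat.zero_le _) (by simp)
    have h2 := h (pt v)
    cases hv : σ v <;> rw [hv] at h1 <;> omega
  · have h1 : ∀ c, (∑ v ∈ cls (cls univ pt p) σ c, dg GJ v univ : ℤ) = cs GJ pt σ p c :=
      fun c => by simp [cs]
    rw [h1, h1]
    have h2 := h p
    split_ifs <;> omega
  · have h2 := h p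
    split_ifs <;> simp <;> omega
  · have h2 := h p
    have := cs_add (GJ := GJ) (pt := pt) σ p
    omega

theorem sum_zero {A : Finset V} (h : ∀ u v, K.Adj u v → u ∉ A) : ∑ v ∈ A, dg K v univ = 0 :=
  sum_eq_zero fun v hv => dg_eq_zero.2 fun u _ k => h v u k hv

theorem sum_half {A : Finset V} {c : ℕ} (h : ∀ u v, K.Adj u v → (u ∈ A ↔ v ∉ A))
    (hc : ∑ v, dg K v univ = 2 * c) : ∑ v ∈ A, dg K v univ = c := by
  have := two_mul_sum_dg h; omega

theorem exists_weight {α : Type} [DecidableEq α] (w : α → ℕ) (hw : ∀ v, w v ≤ g) (A : Finset α)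
    (h : J ≤ ∑ v ∈ A, w v) : ∃ B ⊆ A, J ≤ ∑ v ∈ B, w v ∧ ∑ v ∈ B, w v ≤ J + g := by
  induction A using Finset.induction_on with
  | empty => exact ⟨∅, Subset.rfl, h, by simp⟩
  | insert a A ha ih =>
    by_cases k : J ≤ ∑ v ∈ A, w v
    · obtain ⟨B, h1, h2⟩ := ih k
      exact ⟨B, h1.trans (subset_insert _ _), h2⟩
    · refine ⟨insert a A, Subset.rfl, h, ?_⟩
      have := hw a
      rw [sum_insert ha]; omega

theorem three {b q r : ZMod 3} (h1 : q ≠ b) (h2 : r ≠ b) (h3 : q ≠ r) (p : ZMod 3) :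
    p = b ∨ p = q ∨ p = r := by
  revert b q r p; decide

theorem sum_parts {b q r : ZMod 3} (h1 : q ≠ b) (h2 : r ≠ b) (h3 : q ≠ r) (f : ZMod 3 → ℕ) :
    ∑ p, f p = f b + f q + f r := by
  have : (univ : Finset (ZMod 3)) = {b, q, r} := by
    ext p; simpa using three h1 h2 h3 p
  rw [this, sum_insert (by simp [h1.symm, h2.symm]), sum_insert (by simp [h3])]
  simp [add_assoc]

/-- a subset of the even part that meets many pool edges and few edges from part `b` -/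
theorem exists_R {b q r : ZMod 3} (h1 : q ≠ b) (h2 : r ≠ b) (h3 : q ≠ r) (hP : Pol H P pt b)
    (hd : ∀ v, dg P v univ ≤ g) (hg : g ≤ J) (hn : 6 * J ≤ ∑ v, dg P v univ) :
    ∃ R ⊆ cls univ pt r, J ≤ ∑ v ∈ R, dg P v univ ∧
      2 * ∑ v ∈ R, dg (cutG H (cls univ pt b)) v univ ≤ out H (cls univ pt b) := by
  have e1 := two_mul_sum_dg (G := P) (S := cls univ pt r) fun u v k => by
    have a := hP.ty u v k
    have a' := hP.ty v u k.symm
    have := three h1 h2 h3 (pt u)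
    have := three h1 h2 h3 (pt v)
    simp only [mem_cls, mem_univ, true_and]; grind
  obtain ⟨B, b1, b2, b3⟩ := exists_weight (J := J) (fun v => dg P v univ) hd (cls univ pt r)
    (by omega)
  have e2 := sum_sdiff (f := fun v => dg P v univ) b1
  have e3 := sum_sdiff (f := fun v => dg (cutG H (cls univ pt b)) v univ) b1
  have e4 : ∑ v ∈ cls univ pt r, dg (cutG H (cls univ pt b)) v univ ≤ out H (cls univ pt b) := by
    rw [← out_compl, out, compl_compl]
    refine (sum_le_sum fun v hv => ?_).trans (sum_le_sum_of_subset fun v hv => ?_)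
    · rw [dg_cutG, mu, if_neg (by simp [(mem_cls.1 hv).2, h2])]
    · simp [(mem_cls.1 hv).2, h2]
  by_cases k : 2 * ∑ v ∈ B, dg (cutG H (cls univ pt b)) v univ ≤ out H (cls univ pt b)
  · exact ⟨B, b1, b2, k⟩
  · exact ⟨_, sdiff_subset (t := B), by omega, by omega⟩

theorem sel_odd {b q r : ZMod 3} (h1 : q ≠ b) (h2 : r ≠ b) (h3 : q ≠ r) (hb : s b = 1)
    (hq : s q = 1) (hr : s r = 0) (hP : Pol H P pt b) (hd : ∀ v, dg P v univ ≤ g) (hg : g ≤ J)
    (hn : 6 * J ≤ ∑ v, dg P v univ) (ho : 2 * J ≤ out H (cls univ pt b)) :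
    ∃ GJ σ sg, JSel H pt s J GJ σ sg ∧ ∑ v, dg (P ⊓ GJ) v univ ≤ 2 * J := by
  obtain ⟨R, r1, r2, r3⟩ := exists_R h1 h2 h3 hP hd hg hn
  have hR : ∀ v ∈ R, pt v = r := fun v hv => (mem_cls.1 (r1 hv)).2
  have th := fun v => three h1 h2 h3 (pt v)
  set F := cutG H (cls univ pt b) with hF
  have hFa : ∀ u v, F.Adj u v → H.Adj u v ∧ (pt u = b ↔ pt v ≠ b) := fun u v k => by
    simpa using cutG_adj.1 k
  have f1 : ∑ v, dg F v univ = 2 * out H (cls univ pt b) := by
    simp only [hF, dg_cutG, sum_mu]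
  have f2 : ∑ v, dg (sub F (fun u v => u ∈ R ∨ v ∈ R)) v univ ≤ 2 * ∑ v ∈ R, dg F v univ := by
    rw [← two_mul_sum_dg (S := R) fun u v k => by
      have := hFa u v k.1
      have := hR u
      have := hR v
      have := k.2.1
      grind]
    exact Nat.mul_le_mul_left _ (sum_le_sum fun v _ => dg_mono (sub_le _) _ _)
  have f3 : ∑ v, dg F v univ ≤ ∑ v, dg (sub F (fun u _ => u ∉ R)) v univ +
      ∑ v, dg (sub F (fun u v => u ∈ R ∨ v ∈ R)) v univ := by
    rw [← sum_add_distrib]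
    refine sum_le_sum fun v _ => (dg_mono (fun x y k => ?_) v _).trans (dg_sup_le v _)
    simp only [SimpleGraph.sup_adj, sub_adj]; tauto
  obtain ⟨K, k1, k2⟩ := exists_sub_edges (G := sub F (fun u _ => u ∉ R)) (c := J) (by omega)
  have hK : ∀ u v, K.Adj u v → H.Adj u v ∧ (pt u = b ↔ pt v ≠ b) ∧ u ∉ R ∧ v ∉ R :=
    fun u v k => ⟨(hFa u v (k1 k).1).1, (hFa u v (k1 k).1).2, (k1 k).2⟩
  have k3 : ∑ v ∈ cls univ pt b, dg K v univ = J :=
    sum_half (fun u v k => by simpa using (hK u v k).2.1) k2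
  have k4 := sum_cls univ pt (fun v => dg K v univ)
  rw [sum_parts h1 h2 h3] at k4
  obtain ⟨y, hy⟩ : ∃ y, y = ∑ v ∈ cls univ pt r, dg K v univ := ⟨_, rfl⟩
  have hPa : ∀ u v, (sub P (fun u v => u ∈ R ∨ v ∈ R)).Adj u v →
      (u ∈ R ∧ pt v = q) ∨ (v ∈ R ∧ pt u = q) := fun u v k => by
    have := hP.ty u v k.1
    have := hP.ty v u k.1.symm
    have := hR u
    have := hR v
    have := th u
    have := th v
    have := k.2.1
    grind
  have p1 : 2 * ∑ v ∈ R, dg P v univ = ∑ v, dg (sub P (fun u v => u ∈ R ∨ v ∈ R)) v univ := by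
    rw [← two_mul_sum_dg (S := R) fun u v k => by
      have := hPa u v k
      have := hR u
      have := hR v
      grind]
    congr 1
    exact sum_congr rfl fun v hv => dg_congr fun u => by simp [hv]
  obtain ⟨L, l1, l2⟩ := exists_sub_edges (G := sub P (fun u v => u ∈ R ∨ v ∈ R)) (c := y)
    (by omega)
  have hL := fun u v (k : L.Adj u v) => hPa u v (l1 k)
  have hd : Disjoint K L := disjoint_iff_adj.2 fun u v a c => by
    have := hK u v a
    have := hL u v c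
    tauto
  let σ : V → Bool := fun v => decide (pt v = b ∨ v ∈ R)
  have c1 : cls (cls univ pt b) σ true = cls univ pt b := by ext v; simp [σ]; tauto
  have c2 : cls (cls univ pt b) σ false = ∅ := by ext v; simp [σ]; tauto
  have c3 : cls (cls univ pt q) σ true = ∅ := by
    ext v; have := hR v; simp [σ]; grind
  have c4 : cls (cls univ pt q) σ false = cls univ pt q := by
    ext v; have := hR v; simp [σ]; grind
  have c5 : cls (cls univ pt r) σ true = R := by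
    ext v; have := hR v; simp [σ]; grind
  have c6 : cls (cls univ pt r) σ false = cls univ pt r \ R := by
    ext v; have := hR v; simp [σ]; grind
  have d1 : ∑ v ∈ cls univ pt b, dg L v univ = 0 := sum_zero fun u v k => by
    have := hL u v k
    have := hR u
    simp only [mem_cls, mem_univ, true_and]; grind
  have d2 : ∑ v ∈ cls univ pt q, dg L v univ = y := sum_half (fun u v k => by
    have := hL u v k
    have := hR u
    have := hR v
    simp only [mem_cls, mem_univ, true_and]; grind) l2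
  have d3 : ∑ v ∈ R, dg L v univ = y := sum_half (fun u v k => by
    have := hL u v k
    have := hR u
    have := hR v
    grind) l2
  have d4 : ∑ v ∈ cls univ pt r \ R, dg L v univ = 0 := sum_zero fun u v k => by
    have := hL u v k
    simp only [mem_sdiff, mem_cls, mem_univ, true_and]; grind
  have d5 : ∑ v ∈ R, dg K v univ = 0 := sum_zero fun u v k => (hK u v k).2.2.1
  have d6 := sum_sdiff (f := fun v => dg K v univ) r1
  obtain ⟨sg, hsg⟩ := jsel_of (H := H) (GJ := K ⊔ L) (pt := pt) (s := s) (J := J) (σ := σ)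
    (sup_le (fun u v k => (hK u v k).1) (l1.trans ((sub_le _).trans hP.le)))
    (fun u v k => by
      have := hR u
      have := hR v
      rcases k with k | k
      · have := hK u v k
        simp only [σ, ne_eq, decide_eq_decide]; grind
      · have := hL u v k
        simp only [σ, ne_eq, decide_eq_decide]; grind)
    (by simp only [dg_sup hd, sum_add_distrib]; omega)
    (fun p => by
      rcases three h1 h2 h3 p with rfl | rfl | rfl <;>
        simp only [cs, c1, c2, c3, c4, c5, c6, dg_sup hd, sum_add_distrib, sum_empty] <;> omega)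
  refine ⟨_, σ, sg, hsg, le_trans (sum_le_sum fun v _ => dg_mono (G' := L) ?_ v _) (by omega)⟩
  rintro u v ⟨a, c | c⟩
  · have := hK u v c
    have := hP.ty u v a
    have := hP.ty v u a.symm
    tauto
  · exact c

theorem rot : ∀ b : ZMod 3, b + 1 ≠ b ∧ b + 2 ≠ b ∧ b + 1 ≠ b + 2 := by decide

theorem sel {b : ZMod 3} (h1 : ∀ p, s p ≤ 1) (h2 : Even (s 0 + s 1 + s 2)) (hP : Pol H P pt b)
    (hd : ∀ v, dg P v univ ≤ g) (hg : g ≤ J) (hn : 6 * J ≤ ∑ v, dg P v univ)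
    (ho : s b = 1 → 2 * J ≤ out H (cls univ pt b)) :
    ∃ GJ σ sg, JSel H pt s J GJ σ sg ∧ (s b = 0 → ∀ u v, GJ.Adj u v → pt u ≠ b) ∧
      ∑ v, dg (P ⊓ GJ) v univ ≤ 2 * J := by
  obtain ⟨n1, n2, n3⟩ := rot b
  have e1 := sum_parts n1 n2 n3 s
  have e2 := sum_parts (b := 0) (q := 1) (r := 2) (by decide) (by decide) (by decide) s
  obtain ⟨c, hc⟩ := h2
  have a0 := h1 b
  have a1 := h1 (b + 1)
  have a2 := h1 (b + 2)
  by_cases hb : s b = 1
  · by_cases hq : s (b + 1) = 1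
    · obtain ⟨GJ, σ, sg, x, y⟩ := sel_odd n1 n2 n3 hb hq (by omega) hP hd hg hn (ho hb)
      exact ⟨GJ, σ, sg, x, fun k => by omega, y⟩
    · obtain ⟨GJ, σ, sg, x, y⟩ := sel_odd n2 n1 n3.symm hb (by omega) (by omega) hP hd hg hn
        (ho hb)
      exact ⟨GJ, σ, sg, x, fun k => by omega, y⟩
  by_cases hq : s (b + 1) = 1
  · obtain ⟨K, k1, k2⟩ := exists_sub_edges (G := P) (c := J) (by omega)
    have hK : ∀ u v, K.Adj u v → (pt u = b + 1 ∧ pt v = b + 2) ∨ (pt u = b + 2 ∧ pt v = b + 1) :=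
      fun u v k => by
        have := hP.ty u v (k1 k)
        have := hP.ty v u (k1 k).symm
        have := three n1 n2 n3 (pt u)
        have := three n1 n2 n3 (pt v)
        grind
    let σ : V → Bool := fun v => decide (pt v = b + 1)
    have c1 : ∀ p, p ≠ b + 1 → cls (cls univ pt p) σ true = ∅ := fun p hp => by
      ext v; simp [σ]; grind
    have c2 : ∀ p, p ≠ b + 1 → cls (cls univ pt p) σ false = cls univ pt p := fun p hp => by
      ext v; simp [σ]; grind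
    have c3 : cls (cls univ pt (b + 1)) σ true = cls univ pt (b + 1) := by ext v; simp [σ]
    have c4 : cls (cls univ pt (b + 1)) σ false = ∅ := by ext v; simp [σ]
    have d1 : ∑ v ∈ cls univ pt b, dg K v univ = 0 := sum_zero fun u v k => by
      simpa using (hP.ty u v (k1 k)).1
    have d2 : ∑ v ∈ cls univ pt (b + 1), dg K v univ = J := sum_half (fun u v k => by
      have := hK u v k
      simp only [mem_cls, mem_univ, true_and]; grind) k2
    have d3 : ∑ v ∈ cls univ pt (b + 2), dg K v univ = J := sum_half (fun u v k => by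
      have := hK u v k
      simp only [mem_cls, mem_univ, true_and]; grind) k2
    obtain ⟨sg, hsg⟩ := jsel_of (H := H) (GJ := K) (pt := pt) (s := s) (J := J) (σ := σ)
      (k1.trans hP.le) (fun u v k => by
        have := hK u v k
        simp only [σ, ne_eq, decide_eq_decide]; grind) (by omega)
      (fun p => by
        rcases three n1 n2 n3 p with h | h | h <;> rw [h]
        · simp only [cs, c1 _ n1.symm, c2 _ n1.symm, sum_empty]; omega
        · exact Or.inr (Or.inl ⟨hq, by rw [cs, c3, d2], by rw [cs, c4, sum_empty]⟩)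
        · exact Or.inr (Or.inr ⟨by omega, by rw [cs, c1 _ n3.symm, sum_empty],
            by rw [cs, c2 _ n3.symm, d3]⟩))
    exact ⟨K, σ, sg, hsg, fun _ u v k => (hP.ty u v (k1 k)).1,
      (sum_le_sum fun v _ => dg_mono inf_le_right v _).trans k2.le⟩
  · obtain ⟨sg, hsg⟩ := jsel_of (H := H) (GJ := ⊥) (pt := pt) (s := s) (J := J)
      (σ := fun _ => true) bot_le (fun u v k => k.elim) (by simp) (fun p => by
        rcases three n1 n2 n3 p with h | h | h <;> rw [h] <;> simp [cs] <;> omega)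
    exact ⟨⊥, _, sg, hsg, fun _ u v k => k.elim, by simp⟩

variable {R T1 T2 : Finset V} {Δ : ℕ}

theorem pt0 (h : Ptn G R T1 T2 Δ pt) {v : V} (hv : v ∉ R) : pt v = 0 :=
  h.typ 0 v (by rw [nx, if_neg (by decide), if_neg (by decide)]; exact mem_compl.2 hv)

theorem pt1 (h : Ptn G R T1 T2 Δ pt) {v : V} (hv : v ∈ T1) : pt v = 1 :=
  h.typ 1 v (by rwa [nx, if_pos rfl])

theorem pt2 (h : Ptn G R T1 T2 Δ pt) {v : V} (hv : v ∈ T2) : pt v = 2 :=
  h.typ 2 v (by rwa [nx, if_neg (by decide), if_pos rfl])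

/-- every part or its complement is a set of real vertices with the parity of the part -/
theorem exists_real (h : Ptn G R T1 T2 Δ pt) (p : ZMod 3) : ∃ S ⊆ R,
    out G S = out G (cls univ pt p) ∧ S.card % 2 = par3 R pt p := by
  by_cases hp : p = 0
  · refine ⟨cls R pt 1 ∪ cls R pt 2, union_subset (cls_subset _ _ _) (cls_subset _ _ _), ?_, ?_⟩
    · rw [← out_compl, hp]
      congr 1; ext v
      have := three (b := 0) (q := 1) (r := 2) (by decide) (by decide) (by decide) (pt v)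
      have := pt0 h (v := v)
      have : (0 : ZMod 3) ≠ 1 := by decide
      have : (0 : ZMod 3) ≠ 2 := by decide
      simp only [mem_compl, mem_union, mem_cls, mem_univ, true_and]; grind
    · rw [par3, if_pos hp, card_union_of_disjoint]
      exact disjoint_left.2 fun v a b => absurd ((mem_cls.1 a).2.symm.trans (mem_cls.1 b).2)
        (by decide)
  · refine ⟨cls R pt p, cls_subset _ _ _, ?_, by rw [par3, if_neg hp]⟩
    congr 1; ext v
    have := pt0 h (v := v)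
    simp only [mem_cls, mem_univ, true_and]; grind

theorem out_item (X : Finset V) (p : ZMod 3) :
    out (itemG G X pt) (cls univ pt p) = out G (cls univ pt p) :=
  sum_congr rfl fun _ hv => dg_congr fun _ => and_congr_right fun hu =>
    ⟨fun k => k.1, fun k => ⟨k, Or.inl fun l => mem_compl.1 hu
      (mem_cls.2 ⟨mem_univ _, l.symm.trans (mem_cls.1 hv).2⟩)⟩⟩

theorem out_sdiff {σ : V → Bool} {sg : ZMod 3 → ℤ} (h : JSel H pt s J GJ σ sg) (p : ZMod 3) :
    out (H \ GJ) (cls univ pt p) + ∑ v ∈ cls univ pt p, dg GJ v univ = out H (cls univ pt p) := by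
  rw [out, out, ← sum_add_distrib]
  refine sum_congr rfl fun v hv => ?_
  rw [← dg_sdiffG_add h.le v]
  congr 1
  refine dg_congr fun u => ⟨fun k => ⟨mem_compl.2 fun l => (h.cr v u k.2).1 ?_, k.2⟩,
    fun k => ⟨mem_univ _, k.2⟩⟩
  rw [(mem_cls.1 hv).2, (mem_cls.1 l).2]

theorem jsel_mod {σ : V → Bool} {sg : ZMod 3 → ℤ} (h : JSel H pt s J GJ σ sg) (p : ZMod 3)
    (hs : s p ≤ 1) : (∑ v ∈ cls univ pt p, dg GJ v univ) % 2 = (J * s p) % 2 := by
  by_cases k : s p = 1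
  · rw [h.odd p k, k, mul_one]
  · have h0 : s p = 0 := by omega
    have h1 : sg p = 0 := Int.natAbs_eq_zero.1 ((h.sg1 p).trans h0)
    have h2 := h.eq p
    have h3 : ∀ c, (∑ v ∈ cls (cls univ pt p) σ c, dg GJ v univ : ℤ) = cs GJ pt σ p c :=
      fun c => by simp [cs]
    rw [h1, h3, h3] at h2
    have := cs_add (GJ := GJ) (pt := pt) σ p
    rw [h0]; omega

omit [Fintype V] [DecidableEq V] in
theorem item_le (X : Finset V) : itemG G X pt ≤ G := fun _ _ k => k.1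

theorem item_small (hP : Pad G R Δ) (hT : Two G R T1 T2 Δ g) (h : Ptn G R T1 T2 Δ pt)
    (hg : 0 < g) (v : V) (hv : v ∉ R \ (T1 ∪ T2)) :
    dg (itemG G (R \ (T1 ∪ T2)) pt) v univ ≤ g := by
  have key : ∀ (T : Finset V) (p : ZMod 3), (∀ u ∈ T, pt u = p) → v ∈ T → v ∈ R →
      Δ ≤ dg G v T + g → dg (itemG G (R \ (T1 ∪ T2)) pt) v univ ≤ g := fun T p a b c d => by
    have h1 : dg (itemG G (R \ (T1 ∪ T2)) pt) v univ ≤ dg G v Tᶜ := dg_le_of fun u _ k =>
      ⟨mem_compl.2 fun l => k.2.elim (fun x => x ((a v b).trans (a u l).symm))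
        (fun x => hv x.1), k.1⟩
    have h2 := dg_add_compl (G := G) v T
    have h3 := hP.full v c
    omega
  by_cases hR : v ∈ R
  · have : v ∈ T1 ∪ T2 := by by_contra k; exact hv (mem_sdiff.2 ⟨hR, k⟩)
    rcases mem_union.1 this with k | k
    · exact key T1 1 (fun _ => pt1 h) k hR (hT.d1 v k)
    · exact key T2 2 (fun _ => pt2 h) k hR (hT.d2 v k)
  · exact (dg_mono (item_le _) v _).trans ((hP.pend v hR).trans hg)

theorem item_tot (hP : Pad G R Δ) (hC : Com G R Δ) (hT : Two G R T1 T2 Δ g)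
    (h : Ptn G R T1 T2 Δ pt) (hg : 0 < g) :
    ∑ v, dg (itemG G (R \ (T1 ∪ T2)) pt) v univ * 10 ≤ 42 * (g * Δ) := by
  set H := itemG G (R \ (T1 ∪ T2)) pt with hH
  have h1 : ∑ v ∈ Rᶜ, dg H v univ ≤ ∑ v ∈ R, dg H v univ := by
    calc _ ≤ ∑ v ∈ Rᶜ, dg H v R := sum_le_sum fun v hv => dg_le_of fun u _ k =>
          ⟨(hP.edge v u (item_le _ k)).resolve_left (mem_compl.1 hv), k⟩
      _ = ∑ v ∈ R, dg H v Rᶜ := sum_dg_comm _ _
      _ ≤ _ := sum_le_sum fun v _ => dg_le_univ _ _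
  have h2 := sum_add_sum_compl R (fun v => dg H v univ)
  have h3 := sum_sdiff (f := fun v => dg H v univ) (sdiff_subset (s := R) (t := T1 ∪ T2))
  have h4 : ∑ v ∈ R \ (R \ (T1 ∪ T2)), dg H v univ ≤ R.card * g :=
    (sum_le_card_nsmul _ _ _ fun v hv => item_small hP hT h hg v (mem_sdiff.1 hv).2).trans
      (Nat.mul_le_mul_right _ (card_le_card sdiff_subset))
  have h5 : ∑ v ∈ R \ (T1 ∪ T2), dg H v univ ≤ (R \ (T1 ∪ T2)).card * Δ :=
    sum_le_card_nsmul _ _ _ fun v hv => (dg_mono (item_le _) v _).trans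
      (hP.full v (mem_sdiff.1 hv).1).le
  have h6 := Nat.mul_le_mul_right g hC.card.le
  have h7 := Nat.mul_le_mul_right Δ hT.cX
  rw [← sum_mul]
  linarith

end Twj

open Twj in
theorem twj : TwjStmt := by
  intro V _ _ G P R T1 T2 Δ k J g pt b hP hC hT hp hk hJ hg hgJ hpol hd hn
  have s1 : ∀ p, par3 R pt p ≤ 1 := fun p => by unfold par3; split_ifs <;> omega
  have s2 : Even (par3 R pt 0 + par3 R pt 1 + par3 R pt 2) := by
    rw [par3, par3, par3, if_pos rfl, if_neg (by decide), if_neg (by decide), Nat.even_iff]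
    omega
  have o1 : ∀ p, par3 R pt p = 1 → Δ ≤ out (itemG G (R \ (T1 ∪ T2)) pt) (cls univ pt p) :=
    fun p h => by
      obtain ⟨S, a, c, d⟩ := exists_real hp p
      rw [out_item, ← c]
      exact le_out_of_odd hP hC.nov a (Nat.odd_iff.2 (d.trans h))
  have o2 : ∀ p, out (itemG G (R \ (T1 ∪ T2)) pt) (cls univ pt p) % 2 =
      (Δ * par3 R pt p) % 2 := fun p => by
    obtain ⟨S, a, c, d⟩ := exists_real hp p
    rw [out_item, ← c, hP.out_mod a, ← d, Nat.mul_mod, Nat.mul_mod Δ (_ % 2), Nat.mod_mod]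
  obtain ⟨GJ, σ, sg, h1, h2, h3⟩ := sel s1 s2 hpol hd hgJ hn fun h => by
    have := o1 b h; omega
  refine ⟨GJ, σ, sg, h1, ⟨fun u v a c => a.1.2.resolve_left fun d => d c,
    fun v hv => (dg_mono sdiff_le v _).trans (item_small hP hT hp hg v hv),
    by have := hT.cX; omega, ?_, s1, s2, fun p => ?_⟩, fun p h => ?_, h2, h3⟩
  · have a := item_tot hP hC hT hp hg
    have c : ∑ v, dg (itemG G (R \ (T1 ∪ T2)) pt \ GJ) v univ ≤
        ∑ v, dg (itemG G (R \ (T1 ∪ T2)) pt) v univ := sum_le_sum fun v _ => dg_mono sdiff_le v _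
    have d : g * (42 * Δ) ≤ g * (60 * k) := Nat.mul_le_mul_left _ (by omega)
    rw [← sum_mul] at a
    linarith
  · have a := out_sdiff h1 p
    have c := jsel_mod h1 p (s1 p)
    have d := o2 p
    rw [← out_mod_two]
    rw [hk, add_mul] at d
    omega
  · have a := out_sdiff h1 p
    have := o1 p h
    have := h1.odd p h
    omega

end Pool.Agent.MP_5c8b6d_co

end

section

/-! The schedules for two near cliques. -/

namespace Pool.Agent.MP_5c8b6d_co

open Finset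

set_option linter.unusedSectionVars false

namespace Tw12

variable {V : Type} [Fintype V] [DecidableEq V] {G : SimpleGraph V} {R T1 T2 : Finset V}
  {Δ g : ℕ} {pt : V → ZMod 3}

theorem z3 (p : ZMod 3) : p = 0 ∨ p = 1 ∨ p = 2 := by revert p; decide

theorem z3b (b p : ZMod 3) : p = b ∨ p = b + 1 ∨ p = b + 2 := by revert b p; decide

theorem n01 (b : ZMod 3) : b + 1 ≠ b := by revert b; decide

theorem n02 (b : ZMod 3) : b + 2 ≠ b := by revert b; decide

theorem n12 (b : ZMod 3) : b + 1 ≠ b + 2 := by revert b; decide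

theorem nx0 : nx R T1 T2 0 = Rᶜ := by rw [nx, if_neg (by decide), if_neg (by decide)]

theorem nx1 : nx R T1 T2 1 = T1 := by rw [nx, if_pos rfl]

theorem nx2 : nx R T1 T2 2 = T2 := by rw [nx, if_neg (by decide), if_pos rfl]

theorem not_X {p : ZMod 3} {v : V} (h : v ∈ nx R T1 T2 p) : v ∉ R \ (T1 ∪ T2) := by
  rcases z3 p with rfl | rfl | rfl
  · rw [nx0] at h; simp [mem_compl.1 h]
  · rw [nx1] at h; simp [h]
  · rw [nx2] at h; simp [h]

theorem of_not_X {v : V} (h : v ∉ R \ (T1 ∪ T2)) : ∃ p, v ∈ nx R T1 T2 p := by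
  by_cases a : v ∈ T1
  · exact ⟨1, by rwa [nx1]⟩
  by_cases b : v ∈ T2
  · exact ⟨2, by rwa [nx2]⟩
  exact ⟨0, by rw [nx0]; simpa [a, b] using h⟩

/-- the assignment that extends a choice on the exceptional vertices -/
def mk (R T1 T2 : Finset V) (a : V → ZMod 3) (v : V) : ZMod 3 :=
  if v ∈ T1 then 1 else if v ∈ T2 then 2 else if v ∈ R then a v else 0

theorem mk_typ (h2 : Two G R T1 T2 Δ g) (a : V → ZMod 3) (p : ZMod 3) (v : V)
    (h : v ∈ nx R T1 T2 p) : mk R T1 T2 a v = p := by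
  rcases z3 p with rfl | rfl | rfl
  · rw [nx0, mem_compl] at h
    rw [mk, if_neg fun k => h (h2.s1 k), if_neg fun k => h (h2.s2 k), if_neg h]
  · rw [nx1] at h; rw [mk, if_pos h]
  · rw [nx2] at h; rw [mk, if_neg fun k => disjoint_left.1 h2.dj k h, if_pos h]

theorem mk_X (a : V → ZMod 3) {v : V} (h : v ∈ R \ (T1 ∪ T2)) : mk R T1 T2 a v = a v := by
  simp only [mem_sdiff, mem_union, not_or] at h
  rw [mk, if_neg h.2.1, if_neg h.2.2, if_pos h.1]

theorem nx_uniq (h2 : Two G R T1 T2 Δ g) {p q : ZMod 3} {v : V} (a : v ∈ nx R T1 T2 p)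
    (b : v ∈ nx R T1 T2 q) : p = q :=
  (mk_typ h2 (fun _ => 0) p v a).symm.trans (mk_typ h2 (fun _ => 0) q v b)

theorem small (hp : Pad G R Δ) (h2 : Two G R T1 T2 Δ g) (hg : 0 < g) {p : ZMod 3} {v : V}
    (h : v ∈ nx R T1 T2 p) : dg G v (nx R T1 T2 p)ᶜ ≤ g := by
  have := dg_add_compl (G := G) v (nx R T1 T2 p)
  rcases z3 p with rfl | rfl | rfl
  · have := hp.pend v (by rwa [nx0, mem_compl] at h)
    omega
  · rw [nx1] at *
    have := hp.full v (h2.s1 h)
    have := h2.d1 v h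
    omega
  · rw [nx2] at *
    have := hp.full v (h2.s2 h)
    have := h2.d2 v h
    omega

theorem split (hp : Pad G R Δ) (h2 : Two G R T1 T2 Δ g) (b : ZMod 3) {z : V} (hz : z ∈ R) :
    10 * Δ ≤ 10 * (dg G z (nx R T1 T2 b) + dg G z (nx R T1 T2 (b + 1)) +
      dg G z (nx R T1 T2 (b + 2))) + g := by
  have h1 := dg_le_add_sdiff (G := G) z univ
    (nx R T1 T2 b ∪ nx R T1 T2 (b + 1) ∪ nx R T1 T2 (b + 2))
  have h3 := dg_union_le (G := G) z (nx R T1 T2 b ∪ nx R T1 T2 (b + 1)) (nx R T1 T2 (b + 2))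
  have h4 := dg_union_le (G := G) z (nx R T1 T2 b) (nx R T1 T2 (b + 1))
  have h5 : (univ \ (nx R T1 T2 b ∪ nx R T1 T2 (b + 1) ∪ nx R T1 T2 (b + 2))).card ≤
      (R \ (T1 ∪ T2)).card := card_le_card fun v hv => by
    by_contra k
    obtain ⟨p, hp⟩ := of_not_X k
    refine (mem_sdiff.1 hv).2 ?_
    rcases z3b b p with rfl | rfl | rfl <;> simp [hp]
  have := hp.full z hz
  have := h2.cX
  omega

theorem item_dg (hp : Pad G R Δ) (ht : Ptn G R T1 T2 Δ pt) {z : V} (hz : z ∈ R \ (T1 ∪ T2))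
    (GJ : SimpleGraph V) :
    dg (itemG G (R \ (T1 ∪ T2)) pt \ GJ) z univ + dg G z (nx R T1 T2 (pt z)) ≤ Δ := by
  have h1 := dg_add_compl (G := G) z (nx R T1 T2 (pt z))
  have h3 : dg (itemG G (R \ (T1 ∪ T2)) pt \ GJ) z univ ≤ dg G z (nx R T1 T2 (pt z))ᶜ :=
    dg_le_of fun u _ k => ⟨mem_compl.2 fun a => k.1.2.elim
      (fun c => c (ht.typ _ u a).symm) (fun c => not_X a c.2), k.1.1⟩
  have := hp.full z (mem_sdiff.1 hz).1
  omega

/-- the edges between typical vertices of the two parts other than `t` -/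
def fre (G : SimpleGraph V) (R T1 T2 : Finset V) (t : ZMod 3) : SimpleGraph V :=
  sub G (fun u v => (u ∈ nx R T1 T2 (t + 1) ∧ v ∈ nx R T1 T2 (t + 2)) ∨
    (u ∈ nx R T1 T2 (t + 2) ∧ v ∈ nx R T1 T2 (t + 1)))

theorem fre_adj {t : ZMod 3} {u v : V} : (fre G R T1 T2 t).Adj u v ↔ G.Adj u v ∧
    ((u ∈ nx R T1 T2 (t + 1) ∧ v ∈ nx R T1 T2 (t + 2)) ∨
      (u ∈ nx R T1 T2 (t + 2) ∧ v ∈ nx R T1 T2 (t + 1))) := by
  simp only [fre, sub_adj]; tauto

theorem fre_sum (h2 : Two G R T1 T2 Δ g) (t : ZMod 3) :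
    ∑ v, dg (fre G R T1 T2 t) v univ = 2 * nfree G R T1 T2 t := by
  have hd : ∀ v, v ∈ nx R T1 T2 (t + 1) → v ∉ nx R T1 T2 (t + 2) :=
    fun v a b => n12 t (nx_uniq h2 a b)
  rw [← two_mul_sum_dg (S := nx R T1 T2 (t + 1)) fun u v k => by
    have := hd u
    have := hd v
    have := (fre_adj.1 k).2
    tauto]
  congr 1
  refine sum_congr rfl fun v hv => dg_congr fun u => ?_
  have := hd v hv
  simp only [fre_adj, mem_univ, true_and]; tauto

theorem fre_pol (ht : Ptn G R T1 T2 Δ pt) (t : ZMod 3) :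
    Pol (itemG G (R \ (T1 ∪ T2)) pt) (fre G R T1 T2 t) pt t := by
  have key : ∀ u v, (fre G R T1 T2 t).Adj u v → pt u ≠ t ∧ pt u ≠ pt v := fun u v k => by
    rcases (fre_adj.1 k).2 with ⟨a, b⟩ | ⟨a, b⟩ <;> rw [ht.typ _ u a, ht.typ _ v b]
    · exact ⟨n01 t, n12 t⟩
    · exact ⟨n02 t, (n12 t).symm⟩
  exact ⟨fun u v k => ⟨(fre_adj.1 k).1, Or.inl (key u v k).2⟩, key⟩

theorem fre_X {t : ZMod 3} {u v : V} (k : (fre G R T1 T2 t).Adj u v) : u ∉ R \ (T1 ∪ T2) := by
  rcases (fre_adj.1 k).2 with ⟨a, -⟩ | ⟨a, -⟩ <;> exact not_X a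

theorem fre_dg (hp : Pad G R Δ) (h2 : Two G R T1 T2 Δ g) (hg : 0 < g) (t : ZMod 3) (v : V) :
    dg (fre G R T1 T2 t) v univ ≤ g := by
  by_cases hv : v ∈ R \ (T1 ∪ T2)
  · rw [dg_eq_zero.2 fun u _ k => fre_X k hv]; exact Nat.zero_le _
  · obtain ⟨p, hq⟩ := of_not_X hv
    refine le_trans (dg_le_of fun u _ k => ⟨mem_compl.2 fun c => ?_, (fre_adj.1 k).1⟩)
      (small hp h2 hg hq)
    rcases (fre_adj.1 k).2 with ⟨a, b⟩ | ⟨a, b⟩
    · exact n12 t ((nx_uniq h2 a hq).trans (nx_uniq h2 c b))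
    · exact n12 t ((nx_uniq h2 b c).trans (nx_uniq h2 hq a))

theorem pol_sub {H P P' GJ : SimpleGraph V} {b : ZMod 3} (h : Pol H P pt b) (k : P' ≤ P \ GJ) :
    Pol (H \ GJ) P' pt b :=
  ⟨fun _ _ a => ⟨h.le (k a).1, (k a).2⟩, fun u v a => h.ty u v (k a).1⟩

theorem sum_sdiff_inf (P GJ : SimpleGraph V) :
    ∑ v, dg (P \ GJ) v univ + ∑ v, dg (P ⊓ GJ) v univ = ∑ v, dg P v univ := by
  rw [← sum_add_distrib]; exact sum_congr rfl fun v _ => dg_sdiff_inf v univ

theorem trisol_mono {ι : Type} {H : SimpleGraph V} {s : ZMod 3 → ℕ} {a a' : ℕ} {ψ : ι → V → V}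
    (h : TriSol H pt s a ψ) (k : a ≤ a') : TriSol H pt s a' ψ :=
  ⟨h.pc, h.full, h.par, fun i => (h.size i).trans k⟩

/-- the assignment of the first regime -/
theorem assign (hN : NrmStmt) (hp : Pad G R Δ) (hc : Com G R Δ) (h2 : Two G R T1 T2 Δ g)
    (hg : 0 < g) (hΔ : 1000 * g ≤ Δ) (b : ZMod 3) :
    ∃ pt : V → ZMod 3, Ptn G R T1 T2 Δ pt ∧ Nrm G (cls univ pt b) Δ (par3 R pt b) ∧
      ∀ z ∈ R \ (T1 ∪ T2), 3 * dg G z (nx R T1 T2 b) ≤ Δ → pt z ≠ b := by
  by_cases hb : b = 0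
  · subst hb
    obtain ⟨Z, z1, -, z3', z4, z5⟩ := hN V G R (T1 ∪ T2) Δ g hp hc (union_subset h2.s1 h2.s2)
      (h2.n1.mono subset_union_left) (fun v hv => by
        rcases mem_union.1 hv with h | h
        · have := h2.d1 v h
          have := dg_mono_set (G := G) v (subset_union_left (s₁ := T1) (s₂ := T2))
          omega
        · have := h2.d2 v h
          have := dg_mono_set (G := G) v (subset_union_right (s₁ := T1) (s₂ := T2))
          omega) hg hΔ
    let a : V → ZMod 3 := fun z => if z ∈ Z then (if dg G z T2 ≤ dg G z T1 then 1 else 2) else 0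
    have hout : ∀ z ∈ R \ (T1 ∪ T2), z ∉ Z → 39 * Δ ≤ 100 * dg G z (nx R T1 T2 0) := by
      intro z hz hZ
      have h1 := split hp h2 0 (mem_sdiff.1 hz).1
      have h3 := z4 z (by simp only [mem_sdiff, mem_union] at hz ⊢; tauto)
      rw [dg_union z h2.dj] at h3
      rw [zero_add, zero_add, nx1, nx2] at h1
      omega
    have hS : ∀ v, mk R T1 T2 a v ≠ 0 ↔ v ∈ T1 ∪ T2 ∪ Z := by
      intro v
      by_cases hv : v ∈ R \ (T1 ∪ T2)
      · rw [mk_X a hv, mem_union, or_iff_right (mem_sdiff.1 hv).2]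
        by_cases hZ : v ∈ Z
        · simp only [a, if_pos hZ, hZ, iff_true]
          split_ifs <;> decide
        · simp [a, hZ]
      · obtain ⟨p, hq⟩ := of_not_X hv
        rw [mk_typ h2 a p v hq, mem_union, or_iff_left fun k => hv (z1 k)]
        rcases z3 p with rfl | rfl | rfl
        · rw [nx0, mem_compl] at hq
          simp only [ne_eq, not_true, false_iff]
          exact fun k => hq (union_subset h2.s1 h2.s2 k)
        · rw [nx1] at hq
          exact ⟨fun _ => mem_union_left _ hq, fun _ => by decide⟩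
        · rw [nx2] at hq
          exact ⟨fun _ => mem_union_right _ hq, fun _ => by decide⟩
    refine ⟨mk R T1 T2 a, ⟨mk_typ h2 a, fun z hz => ?_⟩, ?_, fun z hz h3 => ?_⟩
    · rw [mk_X a hz]
      by_cases hZ : z ∈ Z
      · have h3 := z3' z hZ
        rw [dg_union z h2.dj] at h3
        simp only [a, if_pos hZ]
        split_ifs with k
        · rw [nx1]; omega
        · rw [nx2]; omega
      · have := hout z hz hZ
        simp only [a, if_neg hZ]; omega
    · have e1 : cls univ (mk R T1 T2 a) 0 = (T1 ∪ T2 ∪ Z)ᶜ := by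
        ext v; rw [mem_compl, ← hS v]; simp
      have e2 : par3 R (mk R T1 T2 a) 0 = (T1 ∪ T2 ∪ Z).card % 2 := by
        rw [par3, if_pos rfl, ← card_union_of_disjoint (disjoint_left.2 fun v x y => by
          have := (mem_cls.1 x).2.symm.trans (mem_cls.1 y).2
          exact absurd this (by decide))]
        congr 2
        ext v
        rw [mem_union, mem_cls, mem_cls]
        constructor
        · rintro (⟨-, k⟩ | ⟨-, k⟩) <;> exact (hS v).1 (by rw [k]; decide)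
        · intro k
          have hR : v ∈ R := union_subset (union_subset h2.s1 h2.s2) (z1.trans sdiff_subset) k
          rcases z3 (mk R T1 T2 a v) with x | x | x
          · exact absurd x ((hS v).2 k)
          · exact Or.inl ⟨hR, x⟩
          · exact Or.inr ⟨hR, x⟩
      rw [e1, e2]
      refine ⟨fun k v => ?_, fun k => ?_, fun k => ?_, fun k v => ?_⟩ <;>
        simp only [mu_compl, out_compl]
      exacts [z5.h0 k v, z5.h0' k, z5.h1 k, z5.h1' k v]
    · refine (hS z).2 (mem_union_right _ ?_)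
      by_contra hZ
      have := hout z hz hZ
      omega
  · have hs : nx R T1 T2 b ⊆ R := by
      rcases z3 b with rfl | rfl | rfl
      · exact absurd rfl hb
      · rw [nx1]; exact h2.s1
      · rw [nx2]; exact h2.s2
    have hne : (nx R T1 T2 b).Nonempty := by
      rcases z3 b with rfl | rfl | rfl
      · exact absurd rfl hb
      · rw [nx1]; exact h2.n1
      · rw [nx2]; exact h2.n2
    obtain ⟨Z, z1, -, z3', z4, z5⟩ := hN V G R (nx R T1 T2 b) Δ g hp hc hs hne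
      (fun v hv => by
        have := small hp h2 hg hv
        have := dg_add_compl (G := G) v (nx R T1 T2 b)
        have := hp.full v (hs hv)
        omega) hg hΔ
    have hZX : Z ⊆ R \ (T1 ∪ T2) := fun z hz => by
      by_contra k
      obtain ⟨p, hq⟩ := of_not_X k
      have h1 := small hp h2 hg hq
      have h3 : dg G z (nx R T1 T2 b) ≤ dg G z (nx R T1 T2 p)ᶜ :=
        dg_mono_set z fun u hu => mem_compl.2 fun c =>
          (mem_sdiff.1 (z1 hz)).2 ((nx_uniq h2 c hu) ▸ hq)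
      have := z3' z hz
      omega
    let a : V → ZMod 3 := fun z => if z ∈ Z then b else
      if dg G z (nx R T1 T2 (b + 2)) ≤ dg G z (nx R T1 T2 (b + 1)) then b + 1 else b + 2
    have hS : ∀ v, mk R T1 T2 a v = b ↔ v ∈ nx R T1 T2 b ∪ Z := by
      intro v
      by_cases hv : v ∈ R \ (T1 ∪ T2)
      · rw [mk_X a hv, mem_union, or_iff_right fun k => not_X k hv]
        by_cases hZ : v ∈ Z
        · simp only [a, if_pos hZ, hZ]
        · simp only [a, if_neg hZ, hZ, iff_false]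
          split_ifs
          exacts [n01 b, n02 b]
      · obtain ⟨p, hq⟩ := of_not_X hv
        rw [mk_typ h2 a p v hq, mem_union, or_iff_left fun k => hv (hZX k)]
        exact ⟨fun k => k ▸ hq, fun k => nx_uniq h2 hq k⟩
    refine ⟨mk R T1 T2 a, ⟨mk_typ h2 a, fun z hz => ?_⟩, ?_, fun z hz h3 => ?_⟩
    · rw [mk_X a hz]
      by_cases hZ : z ∈ Z
      · have h3 := z3' z hZ
        simp only [a, if_pos hZ]; omega
      · have h1 := split hp h2 b (mem_sdiff.1 hz).1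
        have h3 := z4 z (mem_sdiff.2 ⟨(mem_sdiff.1 hz).1, fun k =>
          (mem_union.1 k).elim (fun c => not_X c hz) hZ⟩)
        simp only [a, if_neg hZ]
        split_ifs with k <;> omega
    · have e1 : cls univ (mk R T1 T2 a) b = nx R T1 T2 b ∪ Z := by
        ext v; rw [← hS v]; simp
      have e2 : cls R (mk R T1 T2 a) b = nx R T1 T2 b ∪ Z := by
        ext v
        rw [mem_cls, hS v]
        exact ⟨fun k => k.2, fun k => ⟨union_subset hs (z1.trans sdiff_subset) k, k⟩⟩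
      rw [e1, par3, if_neg hb, e2]
      exact z5
    · intro k
      rcases mem_union.1 ((hS z).1 k) with c | c
      · exact not_X c hz
      · have := z3' z c
        omega

/-- the pool at the exceptional vertices -/
theorem pool (h2 : Two G R T1 T2 Δ g) (ht : Ptn G R T1 T2 Δ pt) (b : ZMod 3)
    (hb : ∀ z ∈ R \ (T1 ∪ T2), 3 * dg G z (nx R T1 T2 b) ≤ Δ → pt z ≠ b) :
    ∃ P : SimpleGraph V, Pol (itemG G (R \ (T1 ∪ T2)) pt) P pt b ∧
      (∀ u v, P.Adj u v → u ∉ R \ (T1 ∪ T2) ∨ v ∉ R \ (T1 ∪ T2)) ∧ (∀ v, dg P v univ ≤ g) ∧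
      ∑ v, dg P v univ = 2 * msum G R T1 T2 Δ g b := by
  let o : V → ZMod 3 := fun z => if pt z = b + 1 then b + 2 else b + 1
  have hK : ∀ z, ∃ K ⊆ nb G z (nx R T1 T2 (o z)), K.card =
      min (min (dg G z (nx R T1 T2 (b + 1))) (dg G z (nx R T1 T2 (b + 2)))) g := fun z => by
    refine exists_subset_card_eq ?_
    change _ ≤ dg G z (nx R T1 T2 (o z))
    simp only [o]
    split_ifs <;> omega
  choose K K1 K2 using hK
  set X0 := (R \ (T1 ∪ T2)).filter (fun z => 3 * dg G z (nx R T1 T2 b) ≤ Δ) with hX0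
  have hKX : ∀ z, ∀ v ∈ K z, v ∉ R \ (T1 ∪ T2) := fun z v hv => not_X (mem_nb.1 (K1 z hv)).1
  have hX : ∀ z ∈ X0, z ∈ R \ (T1 ∪ T2) := fun z hz => (mem_filter.1 hz).1
  have hK0 : ∀ z, ∀ v ∈ K z, v ∉ X0 := fun z v hv k => hKX z v hv (hX v k)
  let P := sub G (fun u v => (u ∈ X0 ∧ v ∈ K u) ∨ (v ∈ X0 ∧ u ∈ K v))
  have hP : ∀ u v, P.Adj u v ↔ (u ∈ X0 ∧ v ∈ K u) ∨ (v ∈ X0 ∧ u ∈ K v) := fun u v =>
    ⟨fun k => k.2.1, fun k => ⟨k.elim (fun c => (mem_nb.1 (K1 u c.2)).2)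
      (fun c => (mem_nb.1 (K1 v c.2)).2.symm), k, k.symm⟩⟩
  have hty : ∀ u v, u ∈ X0 → v ∈ K u → pt u ≠ b ∧ pt v ≠ b ∧ pt u ≠ pt v := fun u v x y => by
    have h1 := hb u (hX u x) (mem_filter.1 x).2
    rw [ht.typ _ v (mem_nb.1 (K1 u y)).1]
    refine ⟨h1, ?_, ?_⟩ <;> simp only [o] <;> split_ifs with c
    · exact n02 b
    · exact n01 b
    · rw [c]; exact n12 b
    · exact c
  have key : ∀ u v, P.Adj u v → pt u ≠ b ∧ pt u ≠ pt v := fun u v k => by
    rcases (hP u v).1 k with c | c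
    · exact ⟨(hty u v c.1 c.2).1, (hty u v c.1 c.2).2.2⟩
    · exact ⟨(hty v u c.1 c.2).2.1, (hty v u c.1 c.2).2.2.symm⟩
  have hd : ∀ z ∈ X0, dg P z univ = (K z).card := fun z hz => by
    unfold dg; congr 1; ext u
    rw [mem_nb, hP]
    exact ⟨fun k => k.2.elim (fun c => c.2) (fun c => absurd hz (hK0 u z c.2)),
      fun k => ⟨mem_univ _, Or.inl ⟨hz, k⟩⟩⟩
  refine ⟨P, ⟨fun u v k => ⟨k.1, Or.inl (key u v k).2⟩, key⟩, fun u v k => ?_, fun v => ?_, ?_⟩
  · rcases (hP u v).1 k with c | c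
    · exact Or.inr (hKX u v c.2)
    · exact Or.inl (hKX v u c.2)
  · by_cases hv : v ∈ X0
    · rw [hd v hv, K2]; exact min_le_right _ _
    · have h1 : dg P v univ ≤ dg P v (R \ (T1 ∪ T2)) := dg_le_of fun u _ k =>
        ⟨((hP v u).1 k).elim (fun c => absurd c.1 hv) (fun c => hX u c.1), k⟩
      have := dg_le_card (G := P) v (R \ (T1 ∪ T2))
      have := h2.cX
      omega
  · rw [← two_mul_sum_dg (S := X0) fun u v k => by
      rcases (hP u v).1 k with c | c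
      · exact ⟨fun _ => hK0 u v c.2, fun _ => c.1⟩
      · exact ⟨fun x => absurd x (hK0 v u c.2), fun x => absurd c.1 x⟩]
    congr 1
    exact sum_congr rfl fun z hz => by rw [hd z hz, K2]

theorem parok {GJ : SimpleGraph V} {k J s : ℕ} {b : ZMod 3} {X : Finset V} (hk : Δ = k + J)
    (hJ : 100 * J ≤ Δ) (hN : Nrm G (cls univ pt b) Δ s)
    (h1 : s = 1 → k ≤ out (itemG G X pt \ GJ) (cls univ pt b))
    (h0 : s = 0 → ∀ u v, GJ.Adj u v → pt u ≠ b) :
    ParOK (itemG G X pt \ GJ) (cls univ pt b) k s := by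
  have hm := fun v => mu_mono (G := itemG G X pt \ GJ) (G' := G) (fun _ _ a => a.1.1)
    (cls univ pt b) v
  refine ⟨fun hs v => ?_, fun hs => ?_, h1, fun hs v => ?_⟩
  · have h3 : out G (cls univ pt b) ≤ out (itemG G X pt \ GJ) (cls univ pt b) :=
      sum_le_sum fun u hu => dg_le_of fun w hw a => ⟨hw, ⟨a, Or.inl fun c =>
        mem_compl.1 hw (mem_cls.2 ⟨mem_univ _, c.symm.trans (mem_cls.1 hu).2⟩)⟩,
        fun c => h0 hs u w c (mem_cls.1 hu).2⟩
    have := hN.h0 hs v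
    have := hm v
    omega
  · obtain ⟨y0, a, c⟩ := hN.h0' hs
    refine ⟨y0, ?_, fun v hv => ?_⟩
    · have := hm y0
      omega
    · have := hm v
      have := c v hv
      omega
  · have := hN.h1' hs v
    have := hm v
    omega

theorem expo {C C1 N x k g : ℕ} (h : Big C N g) (hC : C1 ≤ C) (hx : x ≤ N) (hg : g ≤ N)
    (hk : C1 * g ≤ k) : (C1 * (x : ℝ) ^ 2 : ℝ) < Real.exp (k / C1) := by
  rcases Nat.eq_zero_or_pos C1 with rfl | h1
  · simp
  have h3 : (C1 * (x : ℝ) ^ 2 : ℝ) ≤ C * (N : ℝ) ^ 2 := by gcongr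
  refine lt_of_le_of_lt h3 (h.b2.trans_le (Real.exp_le_exp.2 ?_))
  rcases Nat.eq_zero_or_pos N with rfl | hN
  · simp; positivity
  rw [div_le_div_iff₀ (by positivity) (by positivity)]
  have : g ^ 2 * C1 ≤ k * (4 * N) := by nlinarith [Nat.mul_le_mul hk hg]
  exact_mod_cast this

end Tw12

open Tw12

theorem tw1_of (hN : NrmStmt) (hJ : TwjStmt) (hT : Tri1Stmt) : Tw1Stmt := by
  obtain ⟨C, hT⟩ := hT
  refine ⟨2 * C + 1000, fun V ι _ _ _ _ G R T1 T2 Δ J g b hp hc h2 hk hJ1 hg hgJ hC hB hr => ?_⟩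
  have hCg : (2 * C + 1000) * g = 2 * (C * g) + 1000 * g := by ring
  obtain ⟨pt, ht, hn, hb⟩ := assign hN hp hc h2 hg (by omega) b
  obtain ⟨P0, p1, p2, p3, p4⟩ : ∃ P : SimpleGraph V, Pol (itemG G (R \ (T1 ∪ T2)) pt) P pt b ∧
      (∀ u v, P.Adj u v → u ∉ R \ (T1 ∪ T2) ∨ v ∉ R \ (T1 ∪ T2)) ∧ (∀ v, dg P v univ ≤ g) ∧
      (((∀ u v, P.Adj u v → u ∉ R \ (T1 ∪ T2)) ∧ 2 * (Δ + C * g) ≤ ∑ v, dg P v univ) ∨
        18 * Δ ≤ ∑ v, dg P v univ) := by
    rcases hr with hr | hr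
    · refine ⟨fre G R T1 T2 b, fre_pol ht b, fun u v k => Or.inl (fre_X k), fre_dg hp h2 hg b,
        Or.inl ⟨fun u v k => fre_X k, ?_⟩⟩
      rw [fre_sum h2]; omega
    · obtain ⟨P, a1, a2, a3, a4⟩ := pool h2 ht b hb
      exact ⟨P, a1, a2, a3, Or.inr (by omega)⟩
  obtain ⟨GJ, σ, sg, j1, j2, j3, j4, j5⟩ := hJ V G P0 R T1 T2 Δ (Fintype.card ι) J g pt b hp hc
    h2 ht hk hJ1 hg hgJ p1 p3 (by omega)
  have h5 := sum_sdiff_inf P0 GJ
  obtain ⟨P, n, q1, q2, q3⟩ : ∃ (P : SimpleGraph V) (n : ℕ), P ≤ P0 \ GJ ∧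
      ∑ v, dg P v univ = 2 * n ∧ (((∀ u v, P.Adj u v → u ∉ R \ (T1 ∪ T2)) ∧
        Fintype.card ι + C * g ≤ n ∧ n ≤ 2 * Fintype.card ι) ∨ 8 * Fintype.card ι ≤ n) := by
    rcases p4 with ⟨a, c⟩ | c
    · obtain ⟨P, x, y⟩ := exists_sub_edges (G := P0 \ GJ) (c := Fintype.card ι + C * g) (by omega)
      exact ⟨P, _, x, y, Or.inl ⟨fun u v k => a u v (x k).1, le_rfl, by omega⟩⟩
    · have := sum_dg_eq_oe (G := P0 \ GJ)
      exact ⟨P0 \ GJ, _, le_rfl, this, Or.inr (by omega)⟩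
  have hR : (R \ (T1 ∪ T2)).card + T1.card ≤ R.card := by
    have := card_sdiff_add_card_eq_card (union_subset h2.s1 h2.s2)
    have := card_le_card (subset_union_left (s₁ := T1) (s₂ := T2))
    omega
  obtain ⟨v1, hv1⟩ := h2.n1
  have h6 := h2.d1 v1 hv1
  have h7 := dg_lt_card (G := G) hv1
  obtain ⟨ψ, hψ⟩ := hT V ι (itemG G (R \ (T1 ∪ T2)) pt \ GJ) P (R \ (T1 ∪ T2)) pt (par3 R pt) b
    g n j2 (parok hk hJ1 hn (j3 b) j4)
    (fun z hz => by
      have := item_dg hp ht hz GJ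
      have := ht.base z hz
      omega)
    (pol_sub p1 q1) (fun u v k => p2 u v (q1 k).1)
    (fun v => ((dg_mono q1 v univ).trans (dg_mono sdiff_le v univ)).trans (p3 v)) q2 q3 hg
    (by omega)
    (by
      have := expo (C1 := C) (x := (R \ (T1 ∪ T2)).card + 1) (k := Fintype.card ι) hB (by omega)
        (by omega) (by omega) (by omega)
      exact_mod_cast this)
  exact ⟨pt, GJ, σ, sg, ψ, ht, j1, trisol_mono hψ (by omega)⟩

theorem tw2_of (hJ : TwjStmt) (hT : Tri2Stmt) : Tw2Stmt := by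
  obtain ⟨C, hT⟩ := hT
  refine ⟨300 * C + 300,
    fun V ι _ _ _ _ G R T1 T2 Δ J g γ hp hc h2 hk hJ1 hg hgJ hC hγ hr ⟨b, hb⟩ => ?_⟩
  have hCg : (300 * C + 300) * g = 300 * (C * g) + 300 * g := by ring
  have hmax : ∀ z : V, ∃ p : ZMod 3, ∀ q, dg G z (nx R T1 T2 q) ≤ dg G z (nx R T1 T2 p) :=
    fun z => Finite.exists_max fun p => dg G z (nx R T1 T2 p)
  choose a ha using hmax
  have hbase : ∀ z ∈ R \ (T1 ∪ T2),
      10 * Δ ≤ 30 * dg G z (nx R T1 T2 (mk R T1 T2 a z)) + g := fun z hz => by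
    have := split hp h2 0 (mem_sdiff.1 hz).1
    have := ha z 0
    have := ha z (0 + 1)
    have := ha z (0 + 2)
    rw [mk_X a hz]; omega
  have ht : Ptn G R T1 T2 Δ (mk R T1 T2 a) := ⟨mk_typ h2 a, fun z hz => by
    have := hbase z hz
    omega⟩
  set pt := mk R T1 T2 a
  obtain ⟨GJ, σ, sg, j1, j2, j3, -, -⟩ := hJ V G (fre G R T1 T2 b) R T1 T2 Δ (Fintype.card ι) J g
    pt b hp hc h2 ht hk hJ1 hg hgJ (fre_pol ht b) (fre_dg hp h2 hg b)
    (by rw [fre_sum h2]; omega)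
  have hP : ∀ t, ∃ (P : SimpleGraph V) (n : ℕ), P ≤ fre G R T1 T2 t \ GJ ∧
      ∑ v, dg P v univ = 2 * n ∧ ((n = 0 ∨ C * g ≤ n) ∧ n ≤ 2 * Fintype.card ι) ∧
      (nfree G R T1 T2 t ≤ n + 2 * J + C * g ∨ 2 * Fintype.card ι ≤ n) := fun t => by
    have h1 := sum_sdiff_inf (fre G R T1 T2 t) GJ
    have h3 := sum_dg_eq_oe (G := fre G R T1 T2 t \ GJ)
    have h4 : ∑ v, dg (fre G R T1 T2 t ⊓ GJ) v univ ≤ ∑ v, dg GJ v univ :=
      sum_le_sum fun v _ => dg_mono inf_le_right v univ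
    have h5 := j1.tot
    rw [fre_sum h2] at h1
    by_cases c : (oe (fre G R T1 T2 t \ GJ)).card < C * g
    · exact ⟨⊥, 0, bot_le, by simp, ⟨Or.inl rfl, Nat.zero_le _⟩, Or.inl (by omega)⟩
    · obtain ⟨P, x, y⟩ := exists_sub_edges (G := fre G R T1 T2 t \ GJ)
        (c := min (oe (fre G R T1 T2 t \ GJ)).card (2 * Fintype.card ι)) (by omega)
      exact ⟨P, _, x, y, ⟨Or.inr (by omega), by omega⟩, by omega⟩
  choose P n q1 q2 q3 q4 using hP
  obtain ⟨ψ, hψ⟩ := hT V ι (itemG G (R \ (T1 ∪ T2)) pt \ GJ) P (R \ (T1 ∪ T2)) pt (par3 R pt) n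
    g j2 j3
    (fun z hz => by
      have := item_dg hp ht hz GJ
      have := hbase z hz
      omega)
    (fun t => pol_sub (fre_pol ht t) (q1 t)) (fun t u v k => fre_X (q1 t k).1) q2 q3
    (fun p => by
      have := hr p
      have := q4 (p + 1)
      have := q4 (p + 2)
      omega) hg (by omega)
  exact ⟨pt, GJ, σ, sg, ψ, ht, j1, trisol_mono hψ (by omega)⟩

end Pool.Agent.MP_5c8b6d_co

end
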