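import Pool.Agent.MP_5c8b6d_co.Core
import Pool.Agent.MP_5c8b6d_co.MA
import Pool.Agent.MP_5c8b6d_co.MB
import Pool.Agent.MP_5c8b6d_co.ML
import Pool.Agent.MP_5c8b6d_co.MD
import Pool.Agent.MP_5c8b6d_co.MI
import Pool.Agent.MP_5c8b6d_co.MH
import Pool.Agent.MP_5c8b6d_co.MJ

-- ======== part 0: formerly Pool.Agent.MP_5c8b6d_co.MF
section MrgPart0

section

/-! PROJECT OVF, row ENG: the engine for dense blocks. -/

set_option linter.unusedSectionVars false

namespace Pool.Agent.MP_5c8b6d_co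

open Finset

namespace EngA

variable {V : Type} [Fintype V] [DecidableEq V] {m : ℕ} [Fact m.Prime]

theorem dg_side (G : SimpleGraph V) (π : V → Bool × ZMod m) (T : Finset V) (v : V) (b : Bool) :
    dg G v (cls T (fun u => (π u).1) b) = ∑ q, dg G v (cls T π (b, q)) := by
  rw [dg_cls_eq, card_cls_fst]
  exact sum_congr rfl fun q _ => (dg_cls_eq v T π (b, q)).symm

theorem cls_sub (π : V → Bool × ZMod m) (T : Finset V) (b : Bool) (q : ZMod m) :
    cls T π (b, q) ⊆ cls T (fun u => (π u).1) b := fun v hv => by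
  rw [mem_cls] at hv ⊢; exact ⟨hv.1, by rw [hv.2]⟩

theorem sum_le_mul {f : ZMod m → ℕ} {c : ℕ} (h : ∀ q, f q ≤ c) : ∑ q, f q ≤ m * c := by
  simpa [ZMod.card] using sum_le_card_nsmul univ f c fun q _ => h q

theorem mul_le_sum {f : ZMod m → ℕ} {c a : ℕ} (h : ∀ q, c ≤ f q + a) :
    m * c ≤ ∑ q, f q + m * a := by
  have := sum_le_sum (s := univ) fun q _ => h q
  simpa [ZMod.card, sum_add_distrib] using this

/-- The colours of the second phase. -/
abbrev I2 (m n : ℕ) : Type := {q : ZMod m // q ≠ 0} × Fin n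

theorem card_I2 (n : ℕ) : Fintype.card (I2 m n) = (m - 1) * n := by
  simp [I2, ZMod.card]

theorem card_layer (n : ℕ) {q : ZMod m} (hq : q ≠ 0) :
    (cls univ (fun j : I2 m n => j.1.1) q).card = n := by
  have : cls univ (fun j : I2 m n => j.1.1) q = {⟨q, hq⟩} ×ˢ univ := by
    ext ⟨⟨a, ha⟩, b⟩; simp [mem_cls, eq_comm]
  rw [this]; simp

theorem even_sdiff_pair {S : Finset V} {u v : V} (h : u ≠ v) (hu : u ∈ S) (hv : v ∈ S)
    (he : Even S.card) : Even (S \ {u, v}).card := by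
  have h1 : ({u, v} : Finset V) ⊆ S := by simp [insert_subset_iff, hu, hv]
  have h2 := card_sdiff_add_card_eq_card h1
  rw [card_pair h] at h2
  obtain ⟨c, hc⟩ := he
  exact ⟨c - 1, by omega⟩

/-- The hypotheses on the degrees and the sizes of the classes. -/
structure Hyp (G : SimpleGraph V) (π : V → Bool × ZMod m) (T : Finset V) (D η L e : ℕ) :
    Prop where
  deg : ∀ v ∈ T, ∀ p, dg G v (cls T π p) ≤ D + η ∧ D ≤ dg G v (cls T π p) + η
  sz : ∀ p, (cls T π p).card ≤ 2 * D + L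
  mx : ∀ b, Mix G T (cls T (fun u => (π u).1) b) (cls T (fun u => (π u).1) (!b)) e
  mr : ∀ r, Mix G T (cls T π (true, r)) (cls T π (false, r)) e

variable {G : SimpleGraph V} {π : V → Bool × ZMod m} {T : Finset V} {D η L e : ℕ}

theorem Hyp.side_le (h : Hyp G π T D η L e) {v : V} (hv : v ∈ T) (b : Bool) :
    dg G v (cls T (fun u => (π u).1) b) ≤ m * (D + η) := by
  rw [dg_side]; exact sum_le_mul fun q => (h.deg v hv _).1

theorem Hyp.le_side (h : Hyp G π T D η L e) {v : V} (hv : v ∈ T) (b : Bool) :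
    m * D ≤ dg G v (cls T (fun u => (π u).1) b) + m * η := by
  rw [dg_side]; exact mul_le_sum fun q => (h.deg v hv _).2

theorem Hyp.card_side (h : Hyp G π T D η L e) (b : Bool) :
    (cls T (fun u => (π u).1) b).card ≤ m * (2 * D + L) := by
  rw [card_cls_fst]; exact sum_le_mul fun q => h.sz _

theorem Hyp.side_ne (h : Hyp G π T D η L e) (b : Bool) : (cls T (fun u => (π u).1) b).Nonempty :=
  card_pos.1 (lt_of_le_of_lt (Nat.zero_le _) (h.mx b).lt_card)

theorem Hyp.ne (h : Hyp G π T D η L e) : T.Nonempty := (h.side_ne true).mono (cls_subset _ _ _)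

theorem Hyp.card_le (h : Hyp G π T D η L e) (hL : 2 * L ≤ D) : T.card ≤ 5 * (m * D) := by
  have h1 := card_cls_bool T (fun u => (π u).1) true
  have h2 := h.card_side true
  have h3 := h.card_side (!true)
  have h4 := Nat.mul_le_mul_left m hL
  linarith

theorem Hyp.le_card (h : Hyp G π T D η L e) (hη : 2 * η ≤ D) : m * D ≤ T.card := by
  obtain ⟨v, hv⟩ := h.ne
  have h1 := dg_cls_bool (G := G) v T (fun u => (π u).1) true
  have h2 := h.le_side hv true
  have h3 := h.le_side hv (!true)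
  have h4 := Nat.mul_le_mul_left m hη
  have h5 := dg_le_card (G := G) v T
  linarith

/-- The first phase: the edges inside the sides. -/
theorem first {CF : ℕ} (hF : ∀ (V ι : Type) [Fintype V] [DecidableEq V] [Fintype ι] [DecidableEq ι]
    (G G1 : SimpleGraph V) (σ : V → Bool) (T : Finset V) (Y : ι → Finset V) (η L e : ℕ),
    G1 ≤ G → (∀ u v, G1.Adj u v → u ∈ T ∧ σ u = σ v) →
    (∀ v, dg G1 v univ < Fintype.card ι) → (∀ v ∈ T, Fintype.card ι ≤ dg G1 v univ + L) →
    Fintype.card ι * T.card ≤ ∑ v ∈ T, dg G1 v univ + η * T.card → T.card ≤ 5 * Fintype.card ι →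
    T.Nonempty → (∀ v ∈ T, (cls T σ (!σ v)).card ≤ 2 * dg G v (cls T σ (!σ v)) + L) →
    (∀ b, Mix G T (cls T σ b) (cls T σ (!b)) e) → (∀ i, (Y i).card ≤ η) → (∀ v, ld Y v ≤ η) →
    (∀ i, Even (T \ Y i).card) → Par CF T.card η L e →
    ∃ M : ι → V → V, PC G M ∧ (∀ i, mv (M i) = T \ Y i) ∧
      (∀ u v, (cg M).Adj u v → σ u = σ v → G1.Adj u v) ∧
      (∀ v, dg (cg M) v (cls univ σ (!σ v)) ≤ CF * L) ∧
      ∑ v, dg (cg M) v (cls univ σ (!σ v)) ≤ CF * η * T.card ∧
      (∀ v, dg (G1 \ cg M) v univ ≤ CF * L) ∧ ∑ v, dg (G1 \ cg M) v univ ≤ CF * η * T.card)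
    (h : Hyp G π T D η L e) (Y : Fin (m * (D + η) + 1) → Finset V) (hY : ∀ i, (Y i).card ≤ η)
    (hl : ∀ v, ld Y v ≤ η) (he : ∀ i, Even (T \ Y i).card) (hη : 0 < η)
    (h1 : (2 * m + 1) * η ≤ L) (h2 : 2 * L ≤ D)
    (hP : Par CF T.card ((2 * m + 5) * η) ((m + 2) * L) e) (N : SimpleGraph V)
    (hN : ∀ u v, N.Adj u v → (π u).1 = (π v).1) (hN1 : ∀ v, dg N v univ ≤ L)
    (hN2 : ∑ v, dg N v univ ≤ 4 * η * T.card) :
    ∃ M : Fin (m * (D + η) + 1) → V → V, PC (G \ N) M ∧ (∀ i, mv (M i) = T \ Y i) ∧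
      (∀ v ∈ T, dg (cg M) v (cls T (fun u => (π u).1) (!(π v).1)) ≤ CF * ((m + 2) * L)) ∧
      ∑ v ∈ T, dg (cg M) v (cls T (fun u => (π u).1) (!(π v).1)) ≤
        CF * ((2 * m + 5) * η) * T.card ∧
      (∀ v ∈ T, dg ((G \ N) \ cg M) v (cls T (fun u => (π u).1) (π v).1) ≤ CF * ((m + 2) * L)) ∧
      ∑ v ∈ T, dg ((G \ N) \ cg M) v (cls T (fun u => (π u).1) (π v).1) ≤
        CF * ((2 * m + 5) * η) * T.card := by
  set σ : V → Bool := fun u => (π u).1 with hσ
  let G1 := sub (G \ N) fun u v => u ∈ T ∧ σ u = σ v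
  have a1 : ∀ v ∈ T, dg G1 v univ = dg (G \ N) v (cls T σ (σ v)) := fun v hv =>
    dg_congr fun u => by
      simp only [G1, sub_adj, mem_univ, true_and, mem_cls, hv]
      exact ⟨fun k => ⟨k.2.2, k.1⟩, fun k => ⟨k.2, k.1.2.symm, k.1⟩⟩
  have a2 : ∀ v ∈ T, m * (D + η) + 1 ≤ dg G1 v univ + dg N v univ + (2 * m + 1) * η := by
    intro v hv
    have b1 := h.le_side hv (σ v)
    have b2 := dg_le_sdiffG_add (G := G) (H := N) v (cls T σ (σ v))
    have b3 := dg_le_univ (G := N) v (cls T σ (σ v))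
    rw [a1 v hv]; linarith
  have a3 : ∀ b, ∀ x ∈ cls T σ b, ∀ y ∈ cls T σ (!b), G.Adj x y → (G \ N).Adj x y := by
    intro b x hx y hy k
    refine ⟨k, fun k' => ?_⟩
    have := hN x y k'
    have b1 := (mem_cls.1 hx).2
    have b2 := (mem_cls.1 hy).2
    simp only [hσ] at b1 b2
    rw [b1, b2] at this
    cases b <;> simp at this
  obtain ⟨M, c1, c2, -, c4, c5, c6, c7⟩ := hF V (Fin (m * (D + η) + 1)) (G \ N) G1 σ T Y
    ((2 * m + 5) * η) ((m + 2) * L) e (sub_le _) (fun u v k => (sub_adj.1 k).2.1)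
    (fun v => by
      rw [Fintype.card_fin]
      by_cases hv : v ∈ T
      · rw [a1 v hv]
        exact Nat.lt_succ_of_le ((dg_mono sdiff_le v _).trans (h.side_le hv _))
      · rw [dg_eq_zero.2 fun u _ k => hv (sub_adj.1 k).2.1.1]; omega)
    (fun v hv => by
      have := a2 v hv
      have := hN1 v
      rw [Fintype.card_fin]; nlinarith)
    (by
      have b1 := sum_le_sum a2
      have b2 : ∑ v ∈ T, dg N v univ ≤ ∑ v, dg N v univ := sum_le_sum_of_subset (subset_univ _)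
      simp only [sum_add_distrib, sum_const, smul_eq_mul] at b1
      rw [Fintype.card_fin]; linarith)
    (by have := h.card_le h2; rw [Fintype.card_fin]; nlinarith) h.ne
    (fun v hv => by
      have b1 := h.card_side (!σ v)
      have b2 := h.le_side hv (!σ v)
      have b3 : dg G v (cls T σ (!σ v)) ≤ dg (G \ N) v (cls T σ (!σ v)) :=
        dg_le_of fun u hu k => ⟨hu, a3 (σ v) v (mem_cls.2 ⟨hv, rfl⟩) u hu k⟩
      linarith)
    (fun b => (h.mx b).congr fun x hx _ => a3 b x hx)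
    (fun i => (hY i).trans (by nlinarith)) (fun v => (hl v).trans (by nlinarith)) he hP
  have d1 : ∀ v, dg (cg M) v (cls T σ (!σ v)) ≤ dg (cg M) v (cls univ σ (!σ v)) := fun v =>
    dg_mono_set v fun u hu => mem_cls.2 ⟨mem_univ _, (mem_cls.1 hu).2⟩
  have d2 : ∀ v ∈ T, dg ((G \ N) \ cg M) v (cls T σ (σ v)) ≤ dg (G1 \ cg M) v univ :=
    fun v hv => dg_le_of fun u hu k => ⟨mem_univ _, sub_adj.2
      ⟨k.1, ⟨hv, (mem_cls.1 hu).2.symm⟩, mem_cls.1 hu⟩, k.2⟩
  exact ⟨M, c1, c2, fun v _ => (d1 v).trans (c4 v),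
    ((sum_le_sum fun v _ => d1 v).trans (sum_le_sum_of_subset (subset_univ _))).trans c5,
    fun v hv => (d2 v hv).trans (c6 v),
    ((sum_le_sum d2).trans (sum_le_sum_of_subset (subset_univ _))).trans c7⟩

/-- The deficiency of the layers after the removal of N. -/
theorem layer_sum (h : Hyp G π T D η L e) (N : SimpleGraph V) :
    ∑ v ∈ T, ∑ q ∈ univ.filter (fun q => q ≠ (π v).2),
      (D + η - dg (G \ N) v (cls T π (!(π v).1, q))) ≤
      ∑ v ∈ T, dg N v (cls T (fun u => (π u).1) (!(π v).1)) + 2 * m * η * T.card := by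
  have : ∀ v ∈ T, ∑ q ∈ univ.filter (fun q => q ≠ (π v).2),
      (D + η - dg (G \ N) v (cls T π (!(π v).1, q))) ≤
      dg N v (cls T (fun u => (π u).1) (!(π v).1)) + 2 * m * η := by
    intro v hv
    refine (sum_le_sum_of_subset (subset_univ _)).trans ((sum_le_sum (g := fun q =>
      dg N v (cls T π (!(π v).1, q)) + 2 * η) fun q _ => ?_).trans ?_)
    · have := (h.deg v hv (!(π v).1, q)).2
      have := dg_le_sdiffG_add (G := G) (H := N) v (cls T π (!(π v).1, q))
      omega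
    · rw [sum_add_distrib, dg_side]; simp [ZMod.card]; linarith
  refine (sum_le_sum this).trans ?_
  rw [sum_add_distrib, sum_const, smul_eq_mul, mul_comm T.card]

end EngA

open EngA in
theorem eng_of (hA : EngaStmt) (hF : FixStmt) (hB : BipStmt) : EngStmt := by
  intro m hm
  obtain ⟨CF, hF⟩ := hF
  obtain ⟨CB, hB⟩ := hB m
  have hm2 : 2 ≤ m := hm.out.two_le
  obtain ⟨t, ht⟩ : ∃ t, t = 60 * m * (CF * (2 * m + 5)) + 1 := ⟨_, rfl⟩
  obtain ⟨a, ha⟩ : ∃ a, a = 7 + t + 2 * m + CF * (2 * m + 5) := ⟨_, rfl⟩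
  obtain ⟨b, hb⟩ : ∃ b, b = 2 + CF * (m + 2) := ⟨_, rfl⟩
  refine ⟨CB * a + CB * b * 2 + a + 16 * b + 3, ?_⟩
  intro V ι _ _ _ _ G π T Y D η L e hk hdeg hsz hmx hmr hbal hY hl he hBal hP
  have h : Hyp G π T D η L e := ⟨hdeg, hsz, hmx, hmr⟩
  have hη := hP.pos
  have p1 : a * η ≤ L := (Nat.mul_le_mul_right _ (by omega)).trans hP.h1
  have p2 : 4 * η * T.card ≤ L ^ 2 :=
    (Nat.mul_le_mul_right _ (Nat.mul_le_mul_right _ (by omega))).trans hP.h2
  have p3 : (16 * b + 3) * L ≤ e := (Nat.mul_le_mul_right _ (by omega)).trans hP.h3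
  have p4 : e < 2 * D + L := (hmr 0).lt_card.trans_le (hsz _)
  have p5 : (2 * m + 1) * η ≤ L := (Nat.mul_le_mul_right _ (by omega)).trans p1
  have p6 : b * L = 2 * L + CF * ((m + 2) * L) := by rw [hb]; ring
  have p7 : 8 * (b * L) + L < D := by linarith
  have p8 : m * η + η ≤ L := by nlinarith
  have p9 : 2 * D ≤ m * D := Nat.mul_le_mul_right _ hm2
  have hT1 := h.card_le (by omega)
  have hT2 := h.le_card (by nlinarith)
  have hc2 : Fintype.card (I2 m (D + η)) ≤ 2 * T.card ∧ D ≤ Fintype.card (I2 m (D + η)) := by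
    rw [card_I2]
    have : (m - 1) * (D + η) ≤ m * (2 * D) := Nat.mul_le_mul (Nat.sub_le _ _) (by omega)
    have : 1 * (D + η) ≤ (m - 1) * (D + η) := Nat.mul_le_mul_right _ (by omega)
    constructor <;> linarith
  let ε : Fin (m * (D + η) + 1) ⊕ I2 m (D + η) ≃ ι := Fintype.equivOfCardEq (by
    rw [Fintype.card_sum, Fintype.card_fin, card_I2, hk,
      show 2 * m - 1 = m + (m - 1) by omega, add_mul m]; omega)
  refine Eng.reindex ε (hA V _ _ G (fun u => (π u).1) T (fun j => Y (ε j)) (fun S => Even S.card)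
    η L L (m * D - m * η) (CF * ((m + 2) * L)) (CF * ((2 * m + 5) * η) * T.card) (D / 2) (t * η)
    (fun S u v k => even_sdiff_pair k.ne) (fun j => he _) (fun j => he _) h.side_ne
    (fun v hv => by have := h.le_side hv (π v).1; omega) hbal (fun i => hY _)
    (fun v => (ld_reindex Y ε v).trans_le (hl v)) (hBal.reindex ε) (by nlinarith)
    (by linarith [Nat.mul_le_mul_left (2 * η) hc2.1]) (by omega) (by omega) ?_ ?_ ?_)
  · have q1 : T.card ≤ 15 * m * (D / 2) := by
      have := Nat.mul_le_mul_left m (show D ≤ 3 * (D / 2) by omega)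
      linarith
    have q2 : 0 < η * (D / 2) := Nat.mul_pos hη (by omega)
    calc 4 * (CF * ((2 * m + 5) * η) * T.card)
        ≤ 4 * (CF * ((2 * m + 5) * η) * (15 * m * (D / 2))) := by gcongr
      _ = 60 * m * (CF * (2 * m + 5)) * (η * (D / 2)) := by ring
      _ < t * η * (D / 2) := by rw [ht, mul_assoc _ η, add_mul, one_mul]; omega
  · intro N _ hN hN1 hN2
    refine first hF h (fun i => Y (ε (Sum.inl i))) (fun i => hY _)
      (fun v => (ld_comp_le Y (ε.injective.comp Sum.inl_injective) v).trans (hl v))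
      (fun i => he _) hη p5 (by omega) (hP.scale (c := 1) (by omega) (by omega) (by omega)
        (by omega) le_rfl (by omega) one_pos) N hN hN1 (hN2.trans ?_)
    linarith [Nat.mul_le_mul_left (2 * η) hc2.1]
  · intro N _ hN1 hN2 X hX1 hX2 _ hX4
    have r1 : ∀ v ∈ T, ∀ q, dg N v (cls T π (!(π v).1, q)) ≤ CF * ((m + 2) * L) :=
      fun v hv q => (dg_mono_set v (cls_sub π T _ q)).trans (hN1 v hv)
    obtain ⟨M, c1, c2, c3, -⟩ := hB V (I2 m (D + η)) (G \ N) π T (fun j => j.1.1) X (D + η) (a * η)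
      (b * L) (e - CF * ((m + 2) * L)) (fun j => j.1.2) (fun q hq => card_layer _ hq)
      (fun v hv q => ⟨(dg_mono sdiff_le v _).trans (hdeg v hv _).1, by
        have := (hdeg v hv (!(π v).1, q)).2
        have := dg_le_sdiffG_add (G := G) (H := N) v (cls T π (!(π v).1, q))
        have := r1 v hv q
        omega⟩)
      ((layer_sum h N).trans (by
        have : (CF * (2 * m + 5) + 2 * m) * (η * T.card) ≤ a * (η * T.card) :=
          Nat.mul_le_mul_right _ (by omega)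
        linarith))
      (fun p => (hsz p).trans (by omega)) h.ne
      (fun r => (hmr r).sdiff fun x hx hx' => by
        have := r1 x hx' r
        rwa [(mem_cls.1 hx).2] at this)
      (fun j => (hX1 j).trans (by
        have : (7 + t) * η ≤ a * η := Nat.mul_le_mul_right _ (by omega)
        linarith))
      (fun v => (hX2 v).trans (by omega)) hX4
      (hP.scale (c := 2) (by omega) (by omega) (by omega) (by omega) le_rfl (by
        have : (16 * b + 3) * L = 16 * (b * L) + 3 * L := by ring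
        omega) two_pos)
    exact ⟨M, c1, c2, c3⟩

open EngA in
theorem engc_of (h : EngStmt) : EngcStmt := by
  intro m hm
  obtain ⟨CE, h⟩ := h m
  have hm2 : 2 ≤ m := hm.out.two_le
  refine ⟨CE * 3 + CE * (10 * m) + 80 * m, ?_⟩
  intro V ι _ _ _ _ G σ T Y Δ η L hk hnear h1 h2 hbal hY hl he hBal hP
  have hη := hP.pos
  choose c hc using fun b => exists_equi (κ := ZMod m) (cls T σ b)
  let π : V → Bool × ZMod m := fun v => (σ v, c (σ v) v)
  have hcl : ∀ b q, cls T π (b, q) = cls (cls T σ b) (c b) q := fun b q => by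
    ext v; simp only [mem_cls, π, Prod.mk.injEq, and_assoc]
    exact and_congr_right fun _ => and_congr_right fun k => by rw [k]
  obtain ⟨D, hD⟩ : ∃ D, D = Δ / (2 * m) := ⟨_, rfl⟩
  have d1 : 2 * m * D ≤ Δ := hD ▸ Nat.mul_div_le _ _
  have d2 : Δ < 2 * m * (D + 1) := hD ▸ Nat.lt_mul_div_succ _ (by omega)
  have p1 : 80 * m * η ≤ L := (Nat.mul_le_mul_right _ (by omega)).trans hP.h1
  have p2 : 1 * L ≤ Δ := (Nat.mul_le_mul_right _ (by omega)).trans hP.h3
  have p3 : 40 * η ≤ D := by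
    have : 2 * m * (40 * η) < 2 * m * (D + 1) := by linarith
    have := Nat.lt_of_mul_lt_mul_left this
    omega
  have s1 : ∀ p, (cls T π p).card ≤ D + 2 * η ∧ D ≤ (cls T π p).card + 1 + η := by
    rintro ⟨b, q⟩
    have a1 := hc b q
    have a2 := card_cls_bool T σ b
    have a3 := hbal b
    have a4 := hbal (!b)
    rw [Bool.not_not] at a4
    rw [ZMod.card, ← hcl] at a1
    have a5 : η ≤ m * η := Nat.le_mul_of_pos_left _ (by omega)
    constructor
    · have : 2 * m * (cls T π (b, q)).card < 2 * m * (D + 2 + η) := by linarith [a1.2]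
      have := Nat.lt_of_mul_lt_mul_left this
      omega
    · refine Nat.le_of_mul_le_mul_left (c := 2 * m) ?_ (by omega)
      linarith [a1.1]
  have s2 : ∀ v ∈ T, ∀ Q ⊆ T, Q.card ≤ dg G v Q + η := fun v hv Q hQ => by
    have := hnear v hv
    have := dg_le_add_sdiff (G := G) v T Q
    have := card_sdiff_add_card_eq_card hQ
    omega
  have s3 : ∀ P Q : Finset V, P ⊆ T → Q ⊆ T → D ≤ P.card + 1 + η → D ≤ Q.card + 1 + η →
      Mix G T P Q (D / 4) := fun P Q hP hQ a b =>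
    Mix.of_near (fun x hx => s2 x (hP hx) Q hQ) (by omega) (by omega)
  have s4 : ∀ b, D ≤ (cls T σ b).card + 1 + η := fun b => by
    have : (cls T π (b, 0)).card ≤ (cls T σ b).card := card_le_card (cls_sub π T b 0)
    have := (s1 (b, 0)).2
    omega
  have p4 : 2 * η ≤ L := by nlinarith
  refine h V ι G π T Y D (3 * η) L (D / 4) (by rw [hk, kk, hD]) (fun v hv p => ⟨?_, ?_⟩)
    (fun p => by have := (s1 p).1; omega)
    (fun b => s3 _ _ (cls_subset _ _ _) (cls_subset _ _ _) (s4 b) (s4 _))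
    (fun r => s3 _ _ (cls_subset _ _ _) (cls_subset _ _ _) (s1 _).2 (s1 _).2)
    (fun b => (hbal b).trans (Nat.add_le_add_left (by omega) _)) (fun i => (hY i).trans (by omega))
    (fun v => (hl v).trans (by omega)) he hBal ?_
  · have := dg_le_card (G := G) v (cls T π p)
    have := (s1 p).1
    omega
  · have := s2 v hv _ (cls_subset T π p)
    have := (s1 p).2
    omega
  · have := hP.scale (C' := CE) (a := 3) (b := 1) (c := 10 * m) (e' := D / 4) (by omega) one_pos
      (by omega) (by rw [mul_one]; omega) le_rfl (by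
        have := Nat.mul_le_mul_left (2 * m) (show D + 1 ≤ 5 * (D / 4) by omega)
        linarith) (by omega)
    rwa [one_mul] at this

end Pool.Agent.MP_5c8b6d_co

end

section

/-! The engine for a near complete bipartite graph. -/

set_option linter.unusedSectionVars false

namespace Pool.Agent.MP_5c8b6d_co

open Finset

namespace BengB

variable {V : Type} [Fintype V] [DecidableEq V] {G : SimpleGraph V} {ty σ : V → Bool}
  {T : Finset V} {Δ η : ℕ}

/-- the two blocks -/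
def blk (ty σ : V → Bool) (v : V) : ZMod 2 := if ty v = σ v then 0 else 1

/-- the side of the vertices of type `t` in block `r` -/
def sd (t : Bool) (r : ZMod 2) : Bool := if r = 0 then t else !t

theorem blk_iff (v : V) (r : ZMod 2) : blk ty σ v = r ↔ σ v = sd (ty v) r := by
  unfold blk sd; revert r; cases ty v <;> cases σ v <;> decide

theorem blk_eq {u v : V} (h : ty u ≠ ty v) : blk ty σ u = blk ty σ v ↔ σ u ≠ σ v := by
  unfold blk; revert h; cases ty v <;> cases σ v <;> cases ty u <;> cases σ u <;> decide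

theorem cls_blk (S : Finset V) (r : ZMod 2) (t : Bool) :
    cls (cls S (blk ty σ) r) ty t = cls (cls S ty t) σ (sd t r) := by
  ext v; simp only [mem_cls, blk_iff, and_assoc]
  exact and_congr_right fun _ => ⟨fun k => ⟨k.2, k.2 ▸ k.1⟩, fun k => ⟨k.1 ▸ k.2, k.1⟩⟩

theorem cls_comm (S : Finset V) (t c : Bool) :
    cls (cls S σ c) ty t = cls (cls S ty t) σ c := by
  ext v; simp only [mem_cls]; tauto

theorem cls_sdiff {κ : Type} [DecidableEq κ] (S X : Finset V) (f : V → κ) (p : κ) :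
    cls S f p \ X = cls (S \ X) f p := by
  ext v; simp only [mem_cls, mem_sdiff]; tauto

theorem near (hb : ∀ u v, G.Adj u v → ty u ≠ ty v)
    (hn : ∀ v ∈ T, (cls T ty (!ty v)).card ≤ dg G v T + η) {v : V} (hv : v ∈ T) {Q : Finset V}
    (hQ : Q ⊆ cls T ty (!ty v)) : Q.card ≤ dg G v Q + η := by
  have h1 : dg G v T ≤ dg G v (cls T ty (!ty v)) := dg_le_of fun u hu k =>
    ⟨mem_cls.2 ⟨hu, by have := hb v u k; revert this; cases ty u <;> cases ty v <;> decide⟩, k⟩
  have h2 := dg_le_add_sdiff (G := G) v (cls T ty (!ty v)) Q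
  have h3 := card_sdiff_add_card_eq_card hQ
  have := hn v hv
  omega

/-- the statement that is used twice -/
def Bp (m C : ℕ) [Fact m.Prime] : Prop := ∀ (V ι : Type) [Fintype V] [DecidableEq V] [Fintype ι]
    [DecidableEq ι] (G : SimpleGraph V) (π : V → Bool × ZMod m) (T : Finset V) (s : ι → ZMod m)
    (X : ι → Finset V) (D η L e : ℕ), (∀ j, s j ≠ 0) → (∀ q, q ≠ 0 → (cls univ s q).card = D) →
    (∀ v ∈ T, ∀ q, dg G v (cls T π (!(π v).1, q)) ≤ D ∧ D ≤ dg G v (cls T π (!(π v).1, q)) + L) →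
    ∑ v ∈ T, ∑ q ∈ univ.filter (fun q => q ≠ (π v).2), (D - dg G v (cls T π (!(π v).1, q))) ≤
      η * T.card → (∀ p, (cls T π p).card ≤ 2 * D + L) → T.Nonempty →
    (∀ r, Mix G T (cls T π (true, r)) (cls T π (false, r)) e) →
    (∀ j, (X j).card ≤ η) → (∀ v, ld X v ≤ L) →
    (∀ j, (cls (T \ X j) (fun u => (π u).1) true).card =
      (cls (T \ X j) (fun u => (π u).1) false).card) → Par C T.card η L e →
    ∃ M : ι → V → V, PC G M ∧ (∀ j, mv (M j) = T \ X j) ∧
      (∀ u v, (cg M).Adj u v → (π u).1 ≠ (π v).1) ∧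
      (∀ v, dg (cg M) v (cls univ (fun u => (π u).2) (π v).2) ≤ C * L) ∧
      ∑ v, dg (cg M) v (cls univ (fun u => (π u).2) (π v).2) ≤ C * η * T.card ∧
      (∀ v ∈ T, dg (G \ cg M) v
        (T.filter (fun u => (π u).1 ≠ (π v).1 ∧ (π u).2 ≠ (π v).2)) ≤ C * L) ∧
      ∑ v ∈ T, dg (G \ cg M) v
        (T.filter (fun u => (π u).1 ≠ (π v).1 ∧ (π u).2 ≠ (π v).2)) ≤ C * η * T.card

theorem run {m C : ℕ} [Fact m.Prime] (hB : Bp m C) (hb : ∀ u v, G.Adj u v → ty u ≠ ty v)
    (hn : ∀ v ∈ T, (cls T ty (!ty v)).card ≤ dg G v T + η) (κ : V → ZMod m) {S : Finset V}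
    (hS : S ⊆ T) {ι : Type} [Fintype ι] [DecidableEq ι] (s : ι → ZMod m) (X : ι → Finset V)
    {n a l η' L' e : ℕ} (N : SimpleGraph V) (s1 : ∀ j, s j ≠ 0)
    (s2 : ∀ q, q ≠ 0 → (cls univ s q).card = n)
    (hc : ∀ t q, (cls (cls S ty t) κ q).card ≤ n ∧ n ≤ (cls (cls S ty t) κ q).card + a)
    (hl : ∀ v ∈ S, dg N v (cls S ty (!ty v)) ≤ l)
    (hs : ∑ v ∈ S, dg N v (cls S ty (!ty v)) + m * (a + η) * S.card ≤ η' * S.card)
    (h1 : a + η + l ≤ L') (h2 : 3 * (e + l) + 2 * η + a < n)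
    (x1 : ∀ j, (X j).card ≤ η') (x2 : ∀ v, ld X v ≤ L')
    (x3 : ∀ j, (cls (S \ X j) ty true).card = (cls (S \ X j) ty false).card)
    (hP : Par C S.card η' L' e) :
    ∃ M : ι → V → V, PC (G \ N) M ∧ (∀ j, mv (M j) = S \ X j) ∧
      (∀ v, dg (cg M) v (cls univ κ (κ v)) ≤ C * L') ∧
      ∑ v, dg (cg M) v (cls univ κ (κ v)) ≤ C * η' * S.card ∧
      (∀ v ∈ S, dg ((G \ N) \ cg M) v (S.filter (fun u => ty u ≠ ty v ∧ κ u ≠ κ v)) ≤ C * L') ∧
      ∑ v ∈ S, dg ((G \ N) \ cg M) v (S.filter (fun u => ty u ≠ ty v ∧ κ u ≠ κ v)) ≤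
        C * η' * S.card := by
  have e1 : ∀ t q, cls S (fun v => (ty v, κ v)) (t, q) = cls (cls S ty t) κ q := fun t q => by
    ext v; simp only [mem_cls, Prod.mk.injEq, and_assoc]
  have e2 : ∀ v ∈ S, ∀ q, (cls (cls S ty (!ty v)) κ q).card ≤
      dg G v (cls (cls S ty (!ty v)) κ q) + η := fun v hv q =>
    near hb hn (hS hv) fun u hu => mem_cls.2
      ⟨hS (mem_cls.1 (mem_cls.1 hu).1).1, (mem_cls.1 (mem_cls.1 hu).1).2⟩
  have e3 : ∀ v ∈ S, ∀ q, n ≤ dg (G \ N) v (cls (cls S ty (!ty v)) κ q) +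
      (dg N v (cls (cls S ty (!ty v)) κ q) + (a + η)) := fun v hv q => by
    have := e2 v hv q
    have := (hc (!ty v) q).2
    have := dg_le_sdiffG_add (G := G) (H := N) v (cls (cls S ty (!ty v)) κ q)
    omega
  have e4 : ∀ v ∈ S, ∀ q, dg N v (cls (cls S ty (!ty v)) κ q) ≤ l := fun v hv q =>
    (dg_mono_set v (cls_subset _ _ _)).trans (hl v hv)
  obtain ⟨M, c1, c2, -, c4⟩ := hB V ι (G \ N) (fun v => (ty v, κ v)) S s X n η' L' e s1 s2
    (fun v hv q => by
      rw [e1]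
      have := e3 v hv q
      have := e4 v hv q
      dsimp only
      exact ⟨(dg_le_card _ _).trans (hc _ _).1, by omega⟩)
    (le_trans (sum_le_sum (g := fun v => dg N v (cls S ty (!ty v)) + m * (a + η)) fun v hv => by
        refine (sum_le_sum_of_subset (subset_univ _)).trans ((sum_le_sum (g := fun q =>
          dg N v (cls (cls S ty (!ty v)) κ q) + (a + η)) fun q _ => ?_).trans ?_)
        · rw [e1]; have := e3 v hv q; dsimp only; omega
        · rw [sum_add_distrib, dg_sum_cls]; simp [ZMod.card])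
      (by rwa [sum_add_distrib, sum_const, smul_eq_mul, mul_comm S.card]))
    (fun p => by obtain ⟨t, q⟩ := p; rw [e1]; have := (hc t q).1; omega)
    (by
      have := (hc true 0).2
      exact (card_pos.1 (show 0 < (cls (cls S ty true) κ 0).card by omega)).mono
        ((cls_subset _ _ _).trans (cls_subset _ _ _)))
    (fun r => by
      rw [e1, e1]
      have a1 := (hc true r).2
      have a2 := (hc false r).2
      have k : ∀ x ∈ cls (cls S ty true) κ r, x ∈ S ∧ false = !ty x := fun x hx =>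
        ⟨(mem_cls.1 (mem_cls.1 hx).1).1, by rw [(mem_cls.1 (mem_cls.1 hx).1).2]; rfl⟩
      have := (Mix.of_near (G := G) (T := S) (e := e + l) (η := η)
        (P := cls (cls S ty true) κ r) (Q := cls (cls S ty false) κ r)
        (fun x hx => (k x hx).2 ▸ e2 x (k x hx).1 r) (by omega) (by omega)).sdiff (N := N) (l := l)
        fun x hx _ => (k x hx).2 ▸ e4 x (k x hx).1 r
      rwa [Nat.add_sub_cancel] at this) x1 x2 x3 hP
  exact ⟨M, c1, c2, c4⟩

theorem bal_pair {S : Finset V} {u v : V} (h : ty u ≠ ty v) (hu : u ∈ S) (hv : v ∈ S)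
    (k : (cls S ty true).card = (cls S ty false).card) :
    (cls (S \ {u, v}) ty true).card = (cls (S \ {u, v}) ty false).card := by
  have key : ∀ {u v : V}, ty u = true → ty v = false → u ∈ S → v ∈ S →
      (cls (S \ {u, v}) ty true).card = (cls (S \ {u, v}) ty false).card := by
    intro u v a b hu hv
    have e1 : cls (S \ {u, v}) ty true = (cls S ty true).erase u := by
      ext x; simp only [mem_cls, mem_sdiff, mem_insert, mem_singleton, mem_erase]; grind
    have e2 : cls (S \ {u, v}) ty false = (cls S ty false).erase v := by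
      ext x; simp only [mem_cls, mem_sdiff, mem_insert, mem_singleton, mem_erase]; grind
    rw [e1, e2, card_erase_of_mem (mem_cls.2 ⟨hu, a⟩), card_erase_of_mem (mem_cls.2 ⟨hv, b⟩), k]
  cases a : ty u
  · rw [pair_comm]; exact key (by simpa [a] using h.symm) a hv hu
  · exact key a (by simpa [a] using h.symm) hu hv

theorem bal_blk {S : Finset V} (h : (cls S ty true).card = (cls S ty false).card)
    (k : (cls S σ true).card = (cls S σ false).card) (r : ZMod 2) :
    (cls (cls S (blk ty σ) r) ty true).card = (cls (cls S (blk ty σ) r) ty false).card := by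
  have a1 := card_cls_bool (cls S ty true) σ true
  have a2 := card_cls_bool (cls S ty false) σ true
  have a3 := card_cls_bool (cls S σ true) ty true
  have a4 := card_cls_bool (cls S σ false) ty true
  simp only [cls_comm, Bool.not_true] at a1 a2 a3 a4
  rw [cls_blk, cls_blk]
  unfold sd; split_ifs
  · omega
  · rw [Bool.not_true, Bool.not_false]; omega

end BengB

open BengB EngA in
theorem beng_b (hA : EngaStmt) (hB : BipStmt) : BengStmt := by
  intro m hm
  obtain ⟨C2, hB2⟩ : ∃ C, Bp 2 C := hB 2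
  obtain ⟨CB, hB⟩ : ∃ C, Bp m C := hB m
  have hm2 : 2 ≤ m := hm.out.two_le
  obtain ⟨z, hz⟩ : ∃ z, z = C2 * (6 * m + 10) := ⟨_, rfl⟩
  obtain ⟨t, ht⟩ : ∃ t, t = 60 * m * z + 1 := ⟨_, rfl⟩
  obtain ⟨a, ha⟩ : ∃ a, a = 20 + t + 6 * m + 3 * z := ⟨_, rfl⟩
  obtain ⟨b, hb⟩ : ∃ b, b = 2 + 2 * C2 := ⟨_, rfl⟩
  refine ⟨CB * a + CB * b * (10 * m) + C2 * 2 * (10 * m) + a + 400 * m * b, ?_⟩
  intro V ι _ _ _ _ G ty σ T Y Δ η L hk hbp hn hsz hY hl hty hBal hP
  have hη := hP.pos
  obtain ⟨D, hD⟩ : ∃ D, D = Δ / (2 * m) := ⟨_, rfl⟩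
  have d1 : 2 * m * D ≤ Δ := hD ▸ Nat.mul_div_le _ _
  have d2 : Δ < 2 * m * (D + 1) := hD ▸ Nat.lt_mul_div_succ _ (by omega)
  have p1 : a * η ≤ L := (Nat.mul_le_mul_right _ (by omega)).trans hP.h1
  have p2 : 4 * η * T.card ≤ L ^ 2 :=
    (Nat.mul_le_mul_right _ (Nat.mul_le_mul_right _ (by omega))).trans hP.h2
  have p3 : 400 * m * b * L ≤ Δ := (Nat.mul_le_mul_right _ (by omega)).trans hP.h3
  have p4 : 200 * (b * L) ≤ D := by
    have : 2 * m * (200 * (b * L)) < 2 * m * (D + 1) := by linarith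
    have := Nat.lt_of_mul_lt_mul_left this
    omega
  have p5 : 6 * (m * η) + 20 * η ≤ L :=
    le_trans (by rw [ha]; linarith [Nat.zero_le (t * η), Nat.zero_le (z * η)]) p1
  have p6 : b * L = 2 * L + C2 * (2 * L) := by rw [hb]; ring
  have p7 : 2 * D ≤ m * D := Nat.mul_le_mul_right _ hm2
  have p8 : 2 * η ≤ m * η := Nat.mul_le_mul_right _ hm2
  have p9 : m ≤ m * η := Nat.le_mul_of_pos_right _ hη
  have d3 : 2 * (m * D) ≤ Δ ∧ Δ < 2 * (m * D) + 2 * m := by constructor <;> linarith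
  have d4 : Δ ≤ 10 * m * (D / 4) := by
    have := Nat.mul_le_mul_left m (show 2 * (D + 1) ≤ 10 * (D / 4) by omega)
    linarith
  have t1 : ∀ c, Δ ≤ (cls T σ c).card + η ∧ (cls T σ c).card ≤ Δ + η := fun c => by
    have a1 := card_cls_bool (cls T σ c) ty true
    simp only [cls_comm, Bool.not_true] at a1
    have := hsz true c
    have := hsz false c
    omega
  have t2 : 2 * Δ ≤ T.card + 2 * η ∧ T.card ≤ 2 * Δ + 2 * η := by
    have := card_cls_bool T σ true
    have := t1 true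
    have := t1 (!true)
    omega
  have hc2 : Fintype.card (I2 m (D + 3 * η)) ≤ T.card ∧ D ≤ Fintype.card (I2 m (D + 3 * η)) := by
    rw [card_I2]
    have : (m - 1) * (D + 3 * η) ≤ m * (2 * D) := Nat.mul_le_mul (Nat.sub_le _ _) (by omega)
    have : 1 * (D + 3 * η) ≤ (m - 1) * (D + 3 * η) := Nat.mul_le_mul_right _ (by omega)
    have : m * (2 * D) = 2 * (m * D) := by ring
    omega
  let ε : Fin (m * (D + 3 * η) + 1) ⊕ I2 m (D + 3 * η) ≃ ι := Fintype.equivOfCardEq (by
    rw [Fintype.card_sum, Fintype.card_fin, card_I2, hk, kk, ← hD,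
      show 2 * m - 1 = m + (m - 1) by omega, add_mul m]; omega)
  refine Eng.reindex ε (hA V _ _ G σ T (fun j => Y (ε j))
    (fun S => (cls S ty true).card = (cls S ty false).card)
    (2 * η) L L D (C2 * (2 * L)) (C2 * ((6 * m + 10) * η) * T.card) (D / 2) (t * η)
    (fun S u v k => bal_pair (hbp u v k)) (fun j => hty _)
    (fun j => ⟨_, by rw [← card_cls_bool _ ty true, Bool.not_true, hty]⟩)
    (fun c => card_pos.1 (by have := t1 c; omega)) (fun v hv => ?_)
    (fun c => by have := t1 c; have := t1 (!c); omega) (fun i => (hY _).trans (by omega))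
    (fun v => (ld_reindex Y ε v).trans_le ((hl v).trans (by omega))) (hBal.reindex ε) (by omega)
    (by linarith [Nat.mul_le_mul_left (4 * η) hc2.1]) (by omega) (by omega) ?_ ?_ ?_)
  · have a1 := near hbp hn hv (cls_subset (cls T ty (!ty v)) σ (σ v))
    have a2 := (hsz (!ty v) (σ v)).1
    have a3 : dg G v (cls (cls T ty (!ty v)) σ (σ v)) ≤ dg G v (cls T σ (σ v)) :=
      dg_mono_set v (cls_comm T _ _ ▸ cls_subset _ _ _)
    omega
  · have q1 : T.card ≤ 15 * m * (D / 2) := by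
      have := Nat.mul_le_mul_left m (show D ≤ 3 * (D / 2) by omega)
      have : 15 * m * (D / 2) = 5 * (m * (3 * (D / 2))) := by ring
      omega
    have q2 : 0 < η * (D / 2) := Nat.mul_pos hη (by omega)
    calc 4 * (C2 * ((6 * m + 10) * η) * T.card)
        ≤ 4 * (C2 * ((6 * m + 10) * η) * (15 * m * (D / 2))) := by gcongr
      _ = 60 * m * z * (η * (D / 2)) := by rw [hz]; ring
      _ < t * η * (D / 2) := by rw [ht, mul_assoc _ η, add_mul, one_mul]; omega
  · intro N _ _ hN1 hN2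
    have e0 : m * (D + 3 * η) = m * D + 3 * (m * η) := by ring
    obtain ⟨M, c1, c2, c3, c4, c5, c6⟩ := run hB2 hbp hn (blk ty σ) Subset.rfl
      (fun _ : Fin (m * (D + 3 * η) + 1) => 1) (fun i => Y (ε (Sum.inl i)))
      (n := m * (D + 3 * η) + 1) (a := 3 * (m * η) + 2 * η) (l := L) (η' := (6 * m + 10) * η)
      (L' := 2 * L) (e := D / 4) N (fun _ => by decide)
      (fun q hq => by
        have : ∀ q : ZMod 2, q ≠ 0 → 1 = q := by decide
        simp [cls, this q hq])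
      (fun t q => by
        have e : cls (cls T ty t) (blk ty σ) q = cls (cls T ty t) σ (sd t q) := by
          rw [← cls_blk]; ext v; simp only [mem_cls]; tauto
        have := hsz t (sd t q)
        rw [e]; omega)
      (fun v _ => (dg_le_univ _ _).trans (hN1 v))
      (by
        have a1 : ∑ v ∈ T, dg N v (cls T ty (!ty v)) ≤ ∑ v, dg N v univ :=
          (sum_le_sum fun v _ => dg_le_univ _ _).trans (sum_le_sum_of_subset (subset_univ _))
        linarith [Nat.mul_le_mul_left (4 * η) hc2.1])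
      (by omega) (by omega) (fun i => (hY _).trans (by linarith))
      (fun v => (ld_comp_le Y (ε.injective.comp Sum.inl_injective) v).trans
        ((hl v).trans (by omega))) (fun i => hty _)
      (hP.scale (c := 10 * m) (by omega) (by omega) (by omega) (by omega) le_rfl d4 (by omega))
    have f1 : ∀ v, dg (cg M) v (cls T σ (!σ v)) ≤
        dg (cg M) v (cls univ (blk ty σ) (blk ty σ v)) := fun v => dg_le_of fun u hu k =>
      ⟨mem_cls.2 ⟨mem_univ _, (blk_eq (hbp _ _ (c1.cg_le k).1).symm).2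
        (by rw [(mem_cls.1 hu).2]; cases σ v <;> decide)⟩, k⟩
    have f2 : ∀ v, dg ((G \ N) \ cg M) v (cls T σ (σ v)) ≤ dg ((G \ N) \ cg M) v
        (T.filter (fun u => ty u ≠ ty v ∧ blk ty σ u ≠ blk ty σ v)) := fun v =>
      dg_le_of fun u hu k => ⟨mem_filter.2 ⟨(mem_cls.1 hu).1, (hbp _ _ k.1.1).symm, fun l =>
        (blk_eq (hbp _ _ k.1.1).symm).1 l (mem_cls.1 hu).2⟩, k⟩
    exact ⟨M, c1, c2, fun v _ => (f1 v).trans (c3 v),
      ((sum_le_sum fun v _ => f1 v).trans (sum_le_sum_of_subset (subset_univ _))).trans c4,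
      fun v hv => (f2 v).trans (c5 v hv), (sum_le_sum fun v _ => f2 v).trans c6⟩
  · intro N _ hN1 hN2 X hX1 hX2 hX3 hX4
    choose c hc using fun t s => exists_equi (κ := ZMod m) (cls (cls T ty t) σ s)
    have key : ∀ r, ∃ M : I2 m (D + 3 * η) → V → V, PC (G \ N) M ∧
        ∀ j, mv (M j) = cls T (blk ty σ) r \ X j := fun r => by
      have g1 : ∀ v ∈ cls T (blk ty σ) r, dg N v (cls (cls T (blk ty σ) r) ty (!ty v)) ≤
          dg N v (cls T σ (!σ v)) := fun v hv => dg_mono_set v fun u hu => by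
        have a1 := mem_cls.1 hu
        have a2 := (blk_eq (σ := σ) (u := u) (v := v) (by rw [a1.2]; cases ty v <;> decide)).1
          ((mem_cls.1 a1.1).2.trans (mem_cls.1 hv).2.symm)
        refine mem_cls.2 ⟨(mem_cls.1 a1.1).1, ?_⟩
        revert a2; cases σ u <;> cases σ v <;> decide
      have g2 : T.card ≤ 3 * (cls T (blk ty σ) r).card := by
        have a1 := card_cls_bool (cls T (blk ty σ) r) ty true
        rw [cls_blk, cls_blk] at a1
        have := hsz true (sd true r)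
        have := hsz (!true) (sd (!true) r)
        omega
      obtain ⟨M, c1, c2, -⟩ := run hB hbp hn (fun v => c (ty v) (σ v) v)
        (cls_subset T (blk ty σ) r) (fun j : I2 m (D + 3 * η) => j.1.1) X
        (n := D + 3 * η) (a := 5 * η) (l := C2 * (2 * L)) (η' := a * η)
        (L' := b * L) (e := D / 4) N (fun j => j.1.2) (fun q hq => card_layer _ hq)
        (fun t q => by
          have e : cls (cls (cls T (blk ty σ) r) ty t) (fun v => c (ty v) (σ v) v) q =
              cls (cls (cls T ty t) σ (sd t r)) (c t (sd t r)) q := by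
            rw [cls_blk]; ext v; simp only [mem_cls]
            exact and_congr_right fun k => by rw [k.1.2, k.2]
          have a1 := hc t (sd t r) q
          have a2 := hsz t (sd t r)
          rw [ZMod.card] at a1
          rw [e]
          generalize (cls (cls (cls T ty t) σ (sd t r)) (c t (sd t r)) q).card = x at a1 ⊢
          constructor
          · have : 2 * m * x < 2 * m * (D + 2 + η) := by linarith [a1.2]
            have := Nat.lt_of_mul_lt_mul_left this
            omega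
          · have : 2 * m * D ≤ 2 * m * (x + 1 + η) := by linarith [a1.1]
            have := Nat.le_of_mul_le_mul_left this (by omega)
            omega)
        (fun v hv => (g1 v hv).trans (hN1 v (cls_subset _ _ _ hv)))
        (by
          have a1 := ((sum_le_sum g1).trans (sum_le_sum_of_subset (cls_subset _ _ _))).trans hN2
          have a2 := Nat.mul_le_mul_left (z * η) g2
          have a3 : (3 * z + 6 * m) * (η * (cls T (blk ty σ) r).card) ≤
              a * (η * (cls T (blk ty σ) r).card) := Nat.mul_le_mul_right _ (by omega)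
          have a4 : C2 * ((6 * m + 10) * η) * T.card = z * η * T.card := by rw [hz]; ring
          linarith)
        (by omega) (by omega)
        (fun j => (hX1 j).trans (by
          have : (10 + t) * η ≤ a * η := Nat.mul_le_mul_right _ (by omega)
          linarith))
        (fun v => (hX2 v).trans (by omega))
        (fun j => by rw [cls_sdiff]; exact bal_blk (hX3 j) (hX4 j) r)
        (hP.scale (c := 10 * m) (by omega) (by omega) (by omega) (by omega)
          (card_le_card (cls_subset _ _ _)) d4 (by omega))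
      exact ⟨M, c1, c2⟩
    choose M m1 m2 using key
    have g3 : ∀ r u v, (cg (M r)).Adj u v → blk ty σ u = r := fun r u v k => by
      obtain ⟨k1, i, k2⟩ := (cg_adj (m1 r).inv).1 k
      have : u ∈ mv (M r i) := mem_mv.2 (k2 ▸ k1.symm)
      rw [m2] at this
      exact (mem_cls.1 (mem_sdiff.1 this).1).2
    refine ⟨fun j => glue (M 0 j) (M 1 j), (m1 0).glue (m1 1)
      (disjoint_iff_adj.2 fun u v k l => absurd ((g3 _ _ _ k).symm.trans (g3 _ _ _ l)) (by decide))
      (fun j => ?_), fun j => ?_, fun u v k => ?_⟩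
    · rw [m2, m2]
      exact disjoint_left.2 fun v k l => absurd ((mem_cls.1 (mem_sdiff.1 k).1).2.symm.trans
        (mem_cls.1 (mem_sdiff.1 l).1).2) (by decide)
    · rw [mv_glue, m2, m2]; ext v
      have : ∀ q : ZMod 2, q = 0 ∨ q = 1 := by decide
      have := this (blk ty σ v)
      simp only [mem_union, mem_sdiff, mem_cls]; tauto
    · rcases cg_glue_le (m1 0).inv (m1 1).inv k with l | l <;>
        exact (blk_eq (hbp _ _ ((m1 _).cg_le l).1)).1 ((g3 _ _ _ l).trans (g3 _ _ _ l.symm).symm)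

end Pool.Agent.MP_5c8b6d_co

end

end MrgPart0

-- ======== part 1: formerly Pool.Agent.MP_5c8b6d_co.MK
section MrgPart1

section

/-! The bipartite case: from a choice of edges to the selection. -/

namespace Pool.Agent.MP_5c8b6d_co.Bj

open Finset

set_option linter.unusedSectionVars false

variable {V : Type} [Fintype V] [DecidableEq V] {G O I H : SimpleGraph V}
  {R A B ZA ZB S U W : Finset V} {Δ J g : ℕ} {σ f : V → Bool}

/-- the standing hypotheses -/
structure Ctx (G : SimpleGraph V) (R A B ZA ZB : Finset V) (Δ J g : ℕ) : Prop where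
  pad : Pad G R Δ
  com : Com G R Δ
  bip : Bip G R A B Δ g
  za : ZA ⊆ R \ (A ∪ B)
  zb : ZB ⊆ R \ (A ∪ B)
  dz : Disjoint ZA ZB
  a3 : ∀ z ∈ ZA, 3 * J ≤ dg G z B
  b3 : ∀ z ∈ ZB, 3 * J ≤ dg G z A
  nrm : Nrm G (A ∪ B ∪ (ZA ∪ ZB)) Δ ((A ∪ B ∪ (ZA ∪ ZB)).card % 2)
  j1 : 1000 * J ≤ Δ
  j2 : Δ ≤ 1200 * J
  g0 : 0 < g
  gJ : 800 * g ≤ J

/-- an even partition -/
structure Ev (G : SimpleGraph V) (R A B : Finset V) (η : ℕ) (σ : V → Bool) : Prop where
  a : Evn σ η A
  b : Evn σ η B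
  na : ∀ y ∈ R \ (A ∪ B), Evn σ η (nb G y A)
  nb : ∀ y ∈ R \ (A ∪ B), Evn σ η (nb G y B)

/-- edges from `U` to the outside of `S` -/
structure Og (G O : SimpleGraph V) (S U : Finset V) : Prop where
  le : O ≤ G
  ends : ∀ u v, O.Adj u v → (u ∈ U ∧ v ∉ S) ∨ (v ∈ U ∧ u ∉ S)

/-- edges inside `W` between the two sides -/
structure Ig (G I : SimpleGraph V) (W : Finset V) (σ : V → Bool) : Prop where
  le : I ≤ G
  ends : ∀ u v, I.Adj u v → u ∈ W ∧ σ u ≠ σ v

theorem Og.mono (h : Og G O S U) (k : H ≤ O) (l : U ⊆ W) : Og G H S W :=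
  ⟨k.trans h.le, fun u v a => (h.ends u v (k a)).imp (And.imp_left fun b => l b)
    (And.imp_left fun b => l b)⟩

theorem Og.bot : Og G ⊥ S U := ⟨bot_le, fun _ _ h => h.elim⟩
theorem Ig.bot : Ig G ⊥ W σ := ⟨bot_le, fun _ _ h => h.elim⟩

theorem Ig.mono (h : Ig G I W σ) (k : H ≤ I) : Ig G H W σ :=
  ⟨k.trans h.le, fun u v a => h.ends u v (k a)⟩

theorem Og.zero (h : Og G O S U) {v : V} (hv : v ∈ S) (hn : v ∉ U) :
    dg O v univ = 0 :=
  dg_eq_zero.2 fun u _ k => (h.ends v u k).elim (fun a => hn a.1) fun a => a.2 hv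

theorem Ig.zero (h : Ig G I W σ) {v : V} (hn : v ∉ W) : dg I v univ = 0 :=
  dg_eq_zero.2 fun u _ k => hn (h.ends v u k).1

theorem Og.sum (h : Og G O S U) (hU : U ⊆ W) (hW : W ⊆ S) :
    2 * ∑ v ∈ W, dg O v univ = ∑ v, dg O v univ :=
  two_mul_sum_dg fun u v k => (h.ends u v k).elim
    (fun a => ⟨fun _ b => a.2 (hW b), fun _ => hU a.1⟩)
    fun a => ⟨fun b => absurd (hW b) a.2, fun b => absurd (hU a.1) b⟩

theorem two_dg_le (H : SimpleGraph V) (v : V) : 2 * dg H v univ ≤ ∑ u, dg H u univ := by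
  rw [sum_dg_eq_oe, ← card_oe_at]
  exact Nat.mul_le_mul_left _ (card_filter_le _ _)

theorem dg_bot (v : V) (S : Finset V) : dg (⊥ : SimpleGraph V) v S = 0 :=
  dg_eq_zero.2 fun _ _ h => h.elim

/-- all edges from `U` to the outside of `S` -/
theorem exists_og (G : SimpleGraph V) (hU : U ⊆ S) : ∃ K, Og G K S U ∧
    ∑ v, dg K v univ = 2 * ∑ v ∈ U, dg G v Sᶜ ∧ (∀ v ∈ U, dg K v univ = dg G v Sᶜ) ∧
    ∀ v, v ∉ U → dg K v univ ≤ dg G v U := by
  have h1 : Og G (sub G fun u v => (u ∈ U ∧ v ∉ S) ∨ (v ∈ U ∧ u ∉ S)) S U :=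
    ⟨sub_le _, fun u v k => k.2.1⟩
  have h2 : ∀ v ∈ U, dg (sub G fun u v => (u ∈ U ∧ v ∉ S) ∨ (v ∈ U ∧ u ∉ S)) v univ =
      dg G v Sᶜ := fun v hv => dg_congr fun u => by
    have := hU hv
    simp only [mem_univ, sub_adj, mem_compl]
    tauto
  refine ⟨_, h1, ?_, h2, fun v hv => dg_le_of fun u _ k => ⟨?_, k.1⟩⟩
  · rw [← h1.sum Subset.rfl hU, sum_congr rfl h2]
  · exact k.2.1.elim (fun a => absurd a.1 hv) fun a => a.1

theorem pick (G : SimpleGraph V) (hU : U ⊆ S) {c : ℕ} (h : c ≤ ∑ v ∈ U, dg G v Sᶜ) :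
    ∃ O, Og G O S U ∧ ∑ v, dg O v univ = 2 * c := by
  obtain ⟨K, k1, k2, -⟩ := exists_og G hU
  obtain ⟨O, o1, o2⟩ := exists_sub_edges (G := K) (c := c) (by omega)
  exact ⟨O, k1.mono o1 Subset.rfl, o2⟩

theorem half_side (W : Finset V) (f : V → Bool) (w : V → ℕ) :
    ∃ c, ∑ v ∈ W, w v ≤ 2 * ∑ v ∈ cls W f c, w v := by
  have := sum_cls_bool W f w
  by_cases h : ∑ v ∈ W, w v ≤ 2 * ∑ v ∈ cls W f true, w v
  · exact ⟨true, h⟩
  · exact ⟨false, by omega⟩

theorem evn_of {F : Finset V} {η : ℕ} (h : Evn f η F) (c : Bool)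
    (k : ∀ v ∈ F, σ v = (f v == c)) : Evn σ η F := fun p => by
  have : cls F σ p = cls F f (p == c) := by
    ext v
    simp only [mem_cls]
    refine and_congr_right fun hv => ?_
    rw [k v hv]
    cases f v <;> cases c <;> cases p <;> decide
  rw [this]; exact h _

theorem ar {a b n c : ℕ} (h1 : a ≤ b + n + c) (h2 : b + n ≤ a + c) :
    ((a : ℤ) - b - n).natAbs ≤ c := by omega

namespace Ctx

variable (h : Ctx G R A B ZA ZB Δ J g)
include h

theorem na {z : V} (hz : z ∈ ZA) : z ∉ A ∧ z ∉ B := by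
  simpa [not_or] using (mem_sdiff.1 (h.za hz)).2

theorem nb' {z : V} (hz : z ∈ ZB) : z ∉ A ∧ z ∉ B := by
  simpa [not_or] using (mem_sdiff.1 (h.zb hz)).2

theorem dis {v : V} (a : v ∈ A ∪ ZA) (b : v ∈ B ∪ ZB) : False := by
  rcases mem_union.1 a with a | a <;> rcases mem_union.1 b with b | b
  exacts [disjoint_left.1 h.bip.dj a b, (h.nb' b).1 a, (h.na a).2 b, disjoint_left.1 h.dz a b]

omit h in
theorem un : A ∪ B ∪ (ZA ∪ ZB) = A ∪ ZA ∪ (B ∪ ZB) := by
  ext v; simp only [mem_union]; tauto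

theorem sum_S (w : V → ℕ) : ∑ v ∈ A ∪ B ∪ (ZA ∪ ZB), w v =
    ∑ v ∈ A ∪ ZA, w v + ∑ v ∈ B ∪ ZB, w v := by
  rw [un, sum_union (disjoint_left.2 fun _ a b => h.dis a b)]

theorem card_S : (A ∪ B ∪ (ZA ∪ ZB)).card = (A ∪ ZA).card + (B ∪ ZB).card := by
  simpa using h.sum_S fun _ => 1

theorem sub_R : A ∪ B ∪ (ZA ∪ ZB) ⊆ R :=
  union_subset (union_subset h.bip.s1 h.bip.s2)
    (union_subset (h.za.trans sdiff_subset) (h.zb.trans sdiff_subset))

theorem card_Z : 10 * (ZA ∪ ZB).card ≤ g :=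
  le_trans (Nat.mul_le_mul_left _ (card_le_card (union_subset h.za h.zb))) h.bip.cX

theorem cards : Δ ≤ A.card + g ∧ Δ ≤ B.card + g ∧ A.card + B.card < 2 * Δ := by
  obtain ⟨a, ha⟩ := h.bip.n1
  obtain ⟨b, hb⟩ := h.bip.n2
  have h1 := h.bip.d1 a ha
  have h2 := h.bip.d2 b hb
  have h3 := dg_le_card (G := G) a B
  have h4 := dg_le_card (G := G) b A
  have h5 := card_le_card (union_subset h.bip.s1 h.bip.s2)
  have h6 := h.com.card
  rw [card_union_of_disjoint h.bip.dj] at h5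
  omega

theorem tT : cls (A ∪ B) (fun v => decide (v ∈ A ∪ ZA)) true = A := by
  ext v
  simp only [mem_cls, mem_union, decide_eq_true_eq]
  exact ⟨fun k => k.2.elim id fun a => k.1.elim id fun b => absurd b (h.na a).2,
    fun k => ⟨Or.inl k, Or.inl k⟩⟩

theorem tF : cls (A ∪ B) (fun v => decide (v ∈ A ∪ ZA)) false = B := by
  ext v
  simp only [mem_cls, decide_eq_false_iff_not]
  exact ⟨fun k => (mem_union.1 k.1).resolve_left fun a => k.2 (mem_union_left _ a),
    fun k => ⟨mem_union_right _ k, fun a => h.dis a (mem_union_left _ k)⟩⟩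

theorem sT : cls (A ∪ B ∪ (ZA ∪ ZB)) (fun v => decide (v ∈ A ∪ ZA)) true = A ∪ ZA := by
  ext v
  rw [un]
  simp only [mem_cls, decide_eq_true_eq]
  exact ⟨And.right, fun k => ⟨mem_union_left _ k, k⟩⟩

theorem sF : cls (A ∪ B ∪ (ZA ∪ ZB)) (fun v => decide (v ∈ A ∪ ZA)) false = B ∪ ZB := by
  ext v
  rw [un]
  simp only [mem_cls, decide_eq_false_iff_not]
  exact ⟨fun k => (mem_union.1 k.1).resolve_left k.2,
    fun k => ⟨mem_union_right _ k, fun a => h.dis a k⟩⟩

/-- a partition with prescribed orientation on the two halves -/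
theorem orient (hf : Ev G R A B g f) (a b : Bool) (z : V → Bool) : ∃ σ : V → Bool,
    Ev G R A B g σ ∧ (∀ v, v ∉ A ∪ B ∪ (ZA ∪ ZB) → σ v = false) ∧ (∀ v ∈ A, σ v = (f v == a)) ∧
      (∀ v ∈ ZA, σ v = z v) ∧ ∀ v ∈ B ∪ ZB, σ v = (f v == b) := by
  obtain ⟨σ, hσ⟩ : ∃ σ : V → Bool, σ = fun v => if v ∈ A then f v == a else if v ∈ ZA then z v
    else if v ∈ B ∪ ZB then f v == b else false := ⟨_, rfl⟩
  have h1 : ∀ v ∈ A, σ v = (f v == a) := fun v hv => by simp [hσ, hv]
  have h2 : ∀ v ∈ B ∪ ZB, σ v = (f v == b) := fun v hv => by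
    rw [hσ]
    exact (if_neg fun k => h.dis (mem_union_left _ k) hv).trans
      ((if_neg fun k => h.dis (mem_union_right _ k) hv).trans (if_pos hv))
  have h3 : ∀ v ∈ B, σ v = (f v == b) := fun v hv => h2 v (mem_union_left _ hv)
  refine ⟨σ, ⟨evn_of hf.a a h1, evn_of hf.b b h3,
    fun y hy => evn_of (hf.na y hy) a fun v hv => h1 v (nb_subset _ _ hv),
    fun y hy => evn_of (hf.nb y hy) b fun v hv => h3 v (nb_subset _ _ hv)⟩, fun v hv => ?_, h1,
    fun v hv => by simp [hσ, hv, (h.na hv).1], h2⟩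
  simp only [mem_union, not_or] at hv
  simp [hσ, hv]

/-- the final step -/
theorem fin (he : Ev G R A B g σ) (hoff : ∀ v, v ∉ A ∪ B ∪ (ZA ∪ ZB) → σ v = false)
    (hO : Og G O (A ∪ B ∪ (ZA ∪ ZB)) (cls (A ∪ B ∪ (ZA ∪ ZB)) σ true)) (hI : Ig G I (A ∪ ZA) σ)
    (hd : ∀ v, dg O v univ + dg I v univ ≤ J) {ν : ℕ} (hν : ν ≤ 3 * g)
    (hp : ν % 2 = (A ∪ B ∪ (ZA ∪ ZB)).card % 2) (hB : ∑ v ∈ B ∪ ZB, dg O v univ ≤ J)
    (e1 : ∑ v, dg I v univ + ∑ v ∈ A ∪ ZA, dg O v univ + J * (B ∪ ZB).card =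
      ∑ v ∈ B ∪ ZB, dg O v univ + J * (A ∪ ZA).card)
    (e2 : ∑ v, dg O v univ = 2 * (J * ν))
    (ho : ν ≤ 1 ∨ 122 * Δ + 100 * (J * ν) ≤ 100 * out G (A ∪ B ∪ (ZA ∪ ZB))) :
    ∃ (σ : V → Bool) (GJ : SimpleGraph V),
      BSel G R (A ∪ B) (ZA ∪ ZB) Δ J g (fun v => decide (v ∈ A ∪ ZA)) σ GJ := by
  obtain ⟨c1, c2, c3⟩ := h.cards
  have c4 := h.card_Z
  have j1 := h.j1
  have j2 := h.j2
  have j3 := h.gJ
  have hN := h.nrm
  have sT := h.sT
  have sF := h.sF
  have hA : A ∪ ZA ⊆ A ∪ B ∪ (ZA ∪ ZB) := sT ▸ cls_subset _ _ _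
  have hBS : B ⊆ A ∪ B ∪ (ZA ∪ ZB) := subset_union_right.trans subset_union_left
  have hc : ∀ c, (cls A σ c).card + (cls B σ c).card ≤ (cls (A ∪ B ∪ (ZA ∪ ZB)) σ c).card ∧
      (cls (A ∪ B ∪ (ZA ∪ ZB)) σ c).card ≤
        (cls A σ c).card + (cls B σ c).card + (ZA ∪ ZB).card := fun c => by
    rw [← card_union_of_disjoint (h.bip.dj.mono (cls_subset _ _ _) (cls_subset _ _ _))]
    refine ⟨card_le_card fun v => ?_, le_trans (card_le_card fun v => ?_) (card_union_le _ _)⟩ <;>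
      simp only [mem_union, mem_cls] <;> tauto
  obtain ⟨S, hS⟩ : ∃ S, S = A ∪ B ∪ (ZA ∪ ZB) := ⟨_, rfl⟩
  rw [← hS] at hoff hO hp ho hN hA hBS
  simp only [← hS] at hc
  obtain ⟨D, d1, d2, σ', d3, d4⟩ := rebalance σ S (B.filter fun v => dg O v univ = 0) ν (4 * g)
    ((filter_subset _ _).trans hBS) (by rw [Int.even_iff]; omega) (by
      have a1 := he.a.bool true
      have a2 := he.a.bool false
      have a3 := he.b.bool true
      have a4 := he.b.bool false
      have a5 := hc true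
      have a6 := hc false
      clear ho hp
      exact ar (by omega) (by omega)) fun b => by
      have a1 := he.b.bool b
      have a2 : (cls B σ b).card ≤ (cls (B.filter fun v => dg O v univ = 0) σ b).card +
          (B.filter fun v => dg O v univ ≠ 0).card :=
        le_trans (card_le_card fun v => by simp only [mem_union, mem_cls, mem_filter]; tauto)
          (card_union_le _ _)
      have a3 : (B.filter fun v => dg O v univ ≠ 0).card ≤ ∑ v ∈ B ∪ ZB, dg O v univ := by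
        rw [card_eq_sum_ones]
        exact (sum_le_sum fun v hv => Nat.pos_of_ne_zero (mem_filter.1 hv).2).trans
          (sum_le_sum_of_subset ((filter_subset _ _).trans subset_union_left))
      omega
  have mv : ∀ {F : Finset V}, Evn σ g F → Evn σ' (g + 4 * g) F := fun k =>
    k.move (le_trans (card_le_card fun v hv => by_contra fun a => (mem_filter.1 hv).2 (d3 v a)) d2)
  have o1 : ∀ u v, O.Adj u v → σ' u = σ u := fun u v k => d3 u fun a =>
    dg_eq_zero.1 (mem_filter.1 (d1 a)).2 v (mem_univ _) k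
  have i1 : ∀ u ∈ A ∪ ZA, σ' u = σ u := fun u k => d3 u fun a =>
    h.dis k (mem_union_left _ (mem_filter.1 (d1 a)).1)
  have hO' : Og G O S (cls S σ' true) := ⟨hO.le, fun u v k => (hO.ends u v k).imp
    (And.imp_left fun a => mem_cls.2 ⟨(mem_cls.1 a).1, (o1 u v k).trans (mem_cls.1 a).2⟩)
    (And.imp_left fun a => mem_cls.2 ⟨(mem_cls.1 a).1, (o1 v u k.symm).trans (mem_cls.1 a).2⟩)⟩
  have hI' : Ig G I (A ∪ ZA) σ' := ⟨hI.le, fun u v k => ⟨(hI.ends u v k).1, by
    rw [i1 u (hI.ends u v k).1, i1 v (hI.ends v u k.symm).1]; exact (hI.ends u v k).2⟩⟩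
  have dj : Disjoint O I := disjoint_iff_adj.2 fun u v a b => (hO.ends u v a).elim
    (fun c => c.2 (hA (hI.ends v u b.symm).1)) fun c => c.2 (hA (hI.ends u v b).1)
  have hle : O ⊔ I ≤ G := sup_le hO.le hI.le
  have s1 := hO.sum (cls_subset _ _ _) Subset.rfl
  have s2 : out (G \ (O ⊔ I)) S + J * ν = out G S := by
    rw [show J * ν = ∑ v ∈ S, dg O v univ by omega, out, out, ← sum_add_distrib]
    refine sum_congr rfl fun v hv => ?_
    rw [← dg_sdiffG_add hle v Sᶜ]
    congr 1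
    refine dg_congr fun u => ⟨fun k => ⟨mem_compl.2 ?_, Or.inl k.2⟩, fun k => ⟨mem_univ _, ?_⟩⟩
    · exact (hO.ends v u k.2).elim And.right fun a => absurd hv a.2
    · exact k.2.resolve_right fun a => mem_compl.1 k.1 (hA (hI.ends u v a.symm).1)
  have m1 : ∀ v, mu (G \ (O ⊔ I)) S v ≤ mu G S v := mu_mono sdiff_le S
  refine ⟨σ', O ⊔ I, union_subset h.za h.zb, fun v hv => ?_, fun t c => ?_, fun z hz => ?_,
    fun z hz => ?_, hle, fun u v k => ?_, fun u v k => ?_, fun v => ?_, ?_, ?_, ?_⟩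
  · by_cases a : v ∈ A
    · simpa only [mem_union_left ZA a, decide_true, Bool.not_true, h.tF] using h.bip.d1 v a
    · have b := (mem_union.1 hv).resolve_left a
      have c : v ∉ A ∪ ZA := fun k => h.dis k (mem_union_left _ b)
      simpa only [c, decide_false, Bool.not_false, h.tT] using h.bip.d2 v b
  · have a1 := (mv he.a).bool c
    have a2 := (mv he.b).bool c
    cases t
    · rw [h.tF]; omega
    · rw [h.tT]; omega
  · rcases mem_union.1 hz with a | a
    · simpa only [mem_union_right A a, decide_true, Bool.not_true, h.tF] using h.a3 z a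
    · have c : z ∉ A ∪ ZA := fun k => h.dis k (mem_union_right _ a)
      simpa only [c, decide_false, Bool.not_false, h.tT] using h.b3 z a
  · rcases mem_union.1 hz with a | a
    · have a1 := ((mv (he.nb z (h.za a))).dg (!σ' z)).1
      have a2 := h.a3 z a
      simp only [mem_union_right A a, decide_true, Bool.not_true, h.tF]
      rw [Fintype.card_bool] at a1
      omega
    · have c : z ∉ A ∪ ZA := fun k => h.dis k (mem_union_right _ a)
      have a1 := ((mv (he.na z (h.zb a))).dg (!σ' z)).1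
      have a2 := h.b3 z a
      simp only [c, decide_false, Bool.not_false, h.tT]
      rw [Fintype.card_bool] at a1
      omega
  · rcases k with k | k
    · rcases hO'.ends u v k with a | a
      · rw [(mem_cls.1 a.1).2, o1 v u k.symm, hoff v a.2]; decide
      · rw [(mem_cls.1 a.1).2, o1 u v k, hoff u a.2]; decide
    · exact (hI'.ends u v k).2
  · rw [← hS]
    rcases k with k | k
    · exact Or.inl ((hO.ends u v k).elim (fun a => iff_of_true (mem_cls.1 a.1).1 a.2)
        fun a => iff_of_false a.2 (not_not.2 (mem_cls.1 a.1).1))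
    · have a := (hI.ends u v k).1
      have b := (hI.ends v u k.symm).1
      exact Or.inr ⟨hA a, hA b, by simp only [a, b]⟩
  · rw [dg_sup dj]; exact hd v
  · have a1 : ∑ v ∈ A ∪ ZA, dg I v univ = ∑ v, dg I v univ :=
      sum_subset (subset_univ _) fun v _ hv => hI.zero hv
    have a2 : ∑ v ∈ B ∪ ZB, dg I v univ = 0 := sum_eq_zero fun v hv => hI.zero fun k => h.dis k hv
    simp only [JEq, sT, sF, dg_sup dj, sum_add_distrib]
    omega
  · have a1 := hO'.sum Subset.rfl (cls_subset _ _ _)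
    have a2 : ∑ v ∈ cls S σ' false, dg O v univ = 0 := sum_eq_zero fun v hv =>
      hO'.zero (mem_cls.1 hv).1 fun k => by simpa [(mem_cls.1 k).2] using (mem_cls.1 hv).2
    have a3 : ∀ c, ∑ v ∈ cls S σ' c, dg I v univ = ∑ v ∈ cls S σ' c, dg I v (cls S σ' (!c)) :=
      fun c => sum_congr rfl fun v hv => dg_congr fun u => ⟨fun k => ⟨mem_cls.2
        ⟨hA (hI.ends u v k.2.symm).1, Bool.eq_not_iff.2 fun a => (hI'.ends v u k.2).2
          ((mem_cls.1 hv).2.trans a.symm)⟩, k.2⟩, fun k => ⟨mem_univ _, k.2⟩⟩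
    have a4 := sum_dg_comm (G := I) (cls S σ' true) (cls S σ' false)
    have a5 : (cls S σ' true).card = (cls S σ' false).card + ν := by omega
    simp only [JEq, ← hS, dg_sup dj, sum_add_distrib, a3, Bool.not_true, Bool.not_false, a5, mul_add]
    omega
  · rw [← hS]
    refine ⟨fun b v => ?_, fun b => ?_, fun b => ?_, fun b v => ?_⟩
    · have a1 := m1 v
      rcases ho with a | a
      · have a2 := hN.h0 b v
        have a3 : ν = 0 := by omega
        rw [a3] at s2
        omega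
      · obtain ⟨y, a2, a3⟩ := hN.h0' b
        by_cases c : v = y
        · subst c; omega
        · have := a3 v c; omega
    · obtain ⟨y, a2, a3⟩ := hN.h0' b
      refine ⟨y, by have := m1 y; omega, fun v c => ?_⟩
      have := a3 v c
      have := m1 v
      omega
    · have a1 := hN.h1 b
      rcases ho with a | a
      · have a3 : ν = 1 := by omega
        rw [a3] at s2
        omega
      · omega
    · have := hN.h1' b v
      have := m1 v
      omega

end Ctx

end Pool.Agent.MP_5c8b6d_co.Bj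

end

section

/-! The bipartite case: the choice of the partition and of the last edges. -/

namespace Pool.Agent.MP_5c8b6d_co

open Finset

set_option linter.unusedSectionVars false

namespace Bj

variable {V : Type} [Fintype V] [DecidableEq V] {G O I H : SimpleGraph V}
  {R A B ZA ZB S U W : Finset V} {Δ J g : ℕ} {σ f : V → Bool}

theorem Ig.orient (h : Ig G I W f) {a : Bool} (k : ∀ v ∈ W, σ v = (f v == a)) : Ig G I W σ :=
  ⟨h.le, fun u v e => ⟨(h.ends u v e).1, by
    have := (h.ends u v e).2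
    rw [k u (h.ends u v e).1, k v (h.ends v u e.symm).1]
    revert this
    cases f u <;> cases f v <;> cases a <;> decide⟩⟩

theorem Og.bip (h : Og G O S U) (hU : U ⊆ S) (u v : V) (k : O.Adj u v) :
    decide (u ∈ S) ≠ decide (v ∈ S) := by
  rcases h.ends u v k with a | a <;> simp [hU a.1, a.2]

theorem inner (hC : CapStmt) (h : Ig G H W f) (hd : ∀ v, dg H v univ ≤ 4 * J) (hJ : 8 ≤ J) (z : V)
    {c : ℕ} (hc : 18 * c + 8 * J ≤ ∑ v, dg H v univ) : ∃ I, Ig G I W f ∧ dg I z univ = 0 ∧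
      (∀ v, 2 * dg I v univ ≤ J) ∧ ∑ v, dg I v univ = 2 * c := by
  have h1 : ∑ v, dg H v univ ≤ ∑ v, dg (sub H fun u _ => u ≠ z) v univ +
      ∑ v, dg (sub H fun u v => u = z ∨ v = z) v univ := by
    rw [← sum_add_distrib]
    refine sum_le_sum fun v _ => le_trans (dg_le_of fun u hu k => ⟨hu, ?_⟩) (dg_sup_le _ _)
    simp only [SimpleGraph.sup_adj, sub_adj]
    tauto
  have h2 := two_mul_sum_dg (G := sub H fun u v => u = z ∨ v = z) (S := {z}) fun u v k => by
    have := k.1.ne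
    rcases k.2.1 with rfl | rfl <;> simp [this, this.symm]
  have h3 := (dg_mono (sub_le (G := H) fun u v => u = z ∨ v = z) z univ).trans (hd z)
  rw [sum_singleton] at h2
  obtain ⟨K, k1, k2, k3⟩ := hC V (sub H fun u _ => u ≠ z) f (4 * J) (J / 2)
    (fun u v k => (h.ends u v k.1).2) (fun v => (dg_mono (sub_le _) v univ).trans (hd v)) (by omega)
  have h4 : ∑ v, dg (sub H fun u _ => u ≠ z) v univ ≤ 9 * ∑ v, dg K v univ := by
    refine Nat.le_of_mul_le_mul_left (c := 4 * J) ?_ (by omega)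
    calc _ ≤ 9 * (J / 2) * ∑ v, dg (sub H fun u _ => u ≠ z) v univ :=
          Nat.mul_le_mul_right _ (by omega)
      _ ≤ 9 * (4 * J * ∑ v, dg K v univ) := by rw [mul_assoc]; exact Nat.mul_le_mul_left _ k3
      _ = _ := by ring
  obtain ⟨I, i1, i2⟩ := exists_sub_edges (G := K) (c := c) (by omega)
  refine ⟨I, h.mono (i1.trans (k1.trans (sub_le _))),
    dg_eq_zero.2 fun u _ k => (k1 (i1 k)).2.1 rfl, fun v => ?_, i2⟩
  have := (dg_mono i1 v univ).trans (k2 v)
  omega

namespace Ctx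

variable (h : Ctx G R A B ZA ZB Δ J g)
include h

omit h in
theorem sa : A ∪ ZA ⊆ A ∪ B ∪ (ZA ∪ ZB) := by rw [un]; exact subset_union_left

omit h in
theorem sb : B ∪ ZB ⊆ A ∪ B ∪ (ZA ∪ ZB) := by rw [un]; exact subset_union_right

theorem ident : ∑ v ∈ A ∪ ZA, dg G v (A ∪ ZA) + ∑ v ∈ A ∪ ZA, dg G v (A ∪ B ∪ (ZA ∪ ZB))ᶜ +
    Δ * (B ∪ ZB).card = ∑ v ∈ B ∪ ZB, dg G v (B ∪ ZB) +
      ∑ v ∈ B ∪ ZB, dg G v (A ∪ B ∪ (ZA ∪ ZB))ᶜ + Δ * (A ∪ ZA).card := by
  have h1 : ∀ W ⊆ A ∪ B ∪ (ZA ∪ ZB), ∑ v ∈ W, dg G v (A ∪ ZA) + ∑ v ∈ W, dg G v (B ∪ ZB) +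
      ∑ v ∈ W, dg G v (A ∪ B ∪ (ZA ∪ ZB))ᶜ = Δ * W.card := fun W hW => by
    rw [← sum_add_distrib, ← sum_add_distrib, mul_comm, ← smul_eq_mul, ← sum_const]
    refine sum_congr rfl fun v hv => ?_
    rw [← dg_union v (disjoint_left.2 fun _ a b => h.dis a b), ← un, dg_add_compl]
    exact h.pad.full v (h.sub_R (hW hv))
  have h2 := h1 _ sa
  have h3 := h1 _ sb
  have h4 := sum_dg_comm (G := G) (A ∪ ZA) (B ∪ ZB)
  omega

theorem small {v : V} (hv : v ∈ A) (hW : Disjoint B W) : dg G v W ≤ g := by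
  have h1 := h.bip.d1 v hv
  have h2 := h.pad.full v (h.bip.s1 hv)
  have h3 := dg_union (G := G) v hW
  have h4 := dg_le_univ (G := G) v (B ∪ W)
  omega

theorem ogA (o : Og G O (A ∪ B ∪ (ZA ∪ ZB)) U) (hU : U ⊆ A ∪ ZA) :
    2 * ∑ v ∈ A ∪ ZA, dg O v univ = ∑ v, dg O v univ ∧ ∑ v ∈ B ∪ ZB, dg O v univ = 0 :=
  ⟨o.sum hU sa, sum_eq_zero fun _ hv => o.zero (sb hv) fun k => h.dis (hU k) hv⟩

theorem ogB (o : Og G O (A ∪ B ∪ (ZA ∪ ZB)) U) (hU : U ⊆ B ∪ ZB) :
    2 * ∑ v ∈ B ∪ ZB, dg O v univ = ∑ v, dg O v univ ∧ ∀ v ∈ A ∪ ZA, dg O v univ = 0 :=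
  ⟨o.sum hU sb, fun _ hv => o.zero (sa hv) fun k => h.dis hv (hU k)⟩

theorem part (hP : PartStmt) (hB : Big 1000000 R.card g) : ∃ (f : V → Bool) (H : SimpleGraph V),
    Ev G R A B g f ∧ Ig G H (A ∪ ZA) f ∧ ∑ v ∈ A ∪ ZA, dg G v (A ∪ ZA) ≤ 4 * ∑ v, dg H v univ := by
  obtain ⟨𝓕, hF⟩ : ∃ 𝓕 : Finset (Finset V), 𝓕 = insert A (insert B
    (R.image (fun y => nb G y A) ∪ R.image fun y => nb G y B)) := ⟨_, rfl⟩
  have h1 : 𝓕.card ≤ 2 * R.card + 2 := by
    have a1 := card_image_le (s := R) (f := fun y => nb G y A)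
    have a2 := card_image_le (s := R) (f := fun y => nb G y B)
    have a3 := card_union_le (R.image fun y => nb G y A) (R.image fun y => nb G y B)
    have a4 := card_insert_le B (R.image (fun y => nb G y A) ∪ R.image fun y => nb G y B)
    have a5 := card_insert_le A (insert B (R.image (fun y => nb G y A) ∪ R.image fun y => nb G y B))
    rw [hF]; omega
  have h2 : 0 < R.card := card_pos.2 (h.bip.n1.mono h.bip.s1)
  obtain ⟨f, f1, f2⟩ := hP V Bool (sub G fun u _ => u ∈ A ∪ ZA) 𝓕 g R.card (by simp)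
    (fun F k => card_le_card (by
      simp only [hF, mem_insert, mem_union, mem_image] at k
      rcases k with rfl | rfl | ⟨y, -, rfl⟩ | ⟨y, -, rfl⟩
      exacts [h.bip.s1, h.bip.s2, (nb_subset _ _).trans h.bip.s1, (nb_subset _ _).trans h.bip.s2]))
    (hB.part (by rw [Fintype.card_bool]; nlinarith))
  refine ⟨f, sub G fun u v => u ∈ A ∪ ZA ∧ f u ≠ f v, ⟨f1 A (by simp [hF]), f1 B (by simp [hF]),
    fun y hy => f1 _ ?_, fun y hy => f1 _ ?_⟩, ⟨sub_le _, fun u v k => k.2.1⟩, ?_⟩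
  · rw [hF]
    exact mem_insert_of_mem (mem_insert_of_mem (mem_union_left _
      (mem_image_of_mem _ (mem_sdiff.1 hy).1)))
  · rw [hF]
    exact mem_insert_of_mem (mem_insert_of_mem (mem_union_right _
      (mem_image_of_mem _ (mem_sdiff.1 hy).1)))
  · refine le_trans ?_ (f2.trans (Nat.mul_le_mul_left _ (sum_le_sum fun v _ =>
      dg_le_of fun u hu k => ⟨mem_univ _, k.1, ⟨k.2.1, (mem_filter.1 hu).2.symm⟩, k.2.2,
        (mem_filter.1 hu).2⟩)))
    refine le_trans (sum_le_sum fun v hv => ?_) (sum_le_sum_of_subset (subset_univ (A ∪ ZA)))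
    exact dg_le_of fun u hu k => ⟨mem_univ _, k, hv, hu⟩

/-- many edges leave the larger half -/
theorem many (hC : CapStmt) (hf : Ev G R A B g f)
    (y1 : ∀ y ∈ ZA ∪ ZB, 2 * Δ ≤ 5 * dg G y (A ∪ B))
    (y2 : ∀ y ∈ R \ (A ∪ B ∪ (ZA ∪ ZB)), 5 * dg G y (A ∪ B) ≤ 3 * Δ) {n : ℕ}
    (hn : 900 * n ≤ ∑ v ∈ A ∪ ZA, dg G v (A ∪ B ∪ (ZA ∪ ZB))ᶜ) : ∃ (c : Bool) (O : SimpleGraph V),
      Og G O (A ∪ B ∪ (ZA ∪ ZB)) (cls A f c ∪ ZA) ∧ (∀ v, dg O v univ ≤ J) ∧
        ∑ v, dg O v univ = 2 * n := by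
  have j2 := h.j2
  have j3 := h.gJ
  have j4 := h.g0
  have z1 : ZA.card ≤ g := by
    have := h.card_Z
    have := card_le_card (subset_union_left (s₁ := ZA) (s₂ := ZB))
    omega
  rw [sum_union (disjoint_left.2 fun v a b => (h.na b).1 a)] at hn
  obtain ⟨S, hS⟩ : ∃ S, S = A ∪ B ∪ (ZA ∪ ZB) := ⟨_, rfl⟩
  have hT : A ∪ B ⊆ S := hS ▸ subset_union_left
  have hZ : ZA ⊆ S := hS ▸ subset_union_right.trans sa
  rw [← hS] at hn y2 ⊢
  obtain ⟨c, hc⟩ := half_side A f fun v => dg G v Sᶜ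
  have hU : cls A f c ⊆ S := (cls_subset _ _ _).trans (subset_union_left.trans hT)
  obtain ⟨K1, a1, a2, a3, a4⟩ := exists_og G hU
  obtain ⟨K2, b1, b2, b3, b4⟩ := exists_og G hZ
  obtain ⟨H1, c1, c2, c3⟩ := hC V K1 _ (361 * J) (J - g) (a1.bip hU) (fun v => by
    by_cases k : v ∈ cls A f c
    · have := h.small (mem_cls.1 k).1 (W := Sᶜ)
        (disjoint_compl_right.mono_left (subset_union_right.trans hT))
      rw [a3 v k]; omega
    by_cases k1 : v ∈ S
    · rw [a1.zero k1 k]; omega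
    refine (a4 v k).trans ?_
    by_cases k2 : v ∈ R
    · have e1 := ((hf.na v (mem_sdiff.2 ⟨k2, fun a => k1 (hT a)⟩)).dg c).2
      have e2 := y2 v (mem_sdiff.2 ⟨k2, k1⟩)
      have e3 := dg_mono_set (G := G) v (subset_union_left (s₁ := A) (s₂ := B))
      rw [Fintype.card_bool] at e1
      omega
    · have e1 := h.pad.pend v k2
      have e2 := dg_le_univ (G := G) v (cls A f c)
      omega) (by omega)
  have b5 : ∀ v, v ∉ ZA → dg K2 v univ ≤ g := fun v k =>
    (b4 v k).trans ((dg_le_card _ _).trans z1)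
  obtain ⟨H2, d1, d2, d3⟩ := hC V K2 _ (720 * J) J (b1.bip hZ) (fun v => by
    by_cases k : v ∈ ZA
    · have e1 := y1 v (mem_union_left _ k)
      have e2 := h.pad.full v (mem_sdiff.1 (h.za k)).1
      have e3 := dg_add_compl (G := G) v S
      have e4 := dg_mono_set (G := G) v hT
      rw [b3 v k]; omega
    · have := b5 v k
      omega) (by omega)
  have dj : Disjoint H1 H2 := disjoint_iff_adj.2 fun u v a b => by
    rcases a1.ends u v (c1 a) with x | x <;> rcases b1.ends u v (d1 b) with y | y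
    exacts [(h.na y.1).1 (mem_cls.1 x.1).1, x.2 (hZ y.1), x.2 (hZ y.1),
      (h.na y.1).1 (mem_cls.1 x.1).1]
  have e1 : 2 * ∑ v, dg K1 v univ ≤ 750 * ∑ v, dg H1 v univ := by
    refine Nat.le_of_mul_le_mul_left (c := 361 * J) ?_ (by omega)
    calc _ = 722 * J * ∑ v, dg K1 v univ := by ring
      _ ≤ 750 * (J - g) * ∑ v, dg K1 v univ := Nat.mul_le_mul_right _ (by omega)
      _ ≤ 750 * (361 * J * ∑ v, dg H1 v univ) := by rw [mul_assoc]; exact Nat.mul_le_mul_left _ c3
      _ = _ := by ring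
  have e2 : ∑ v, dg K2 v univ ≤ 720 * ∑ v, dg H2 v univ :=
    Nat.le_of_mul_le_mul_left (c := J) (d3.trans (le_of_eq (by ring))) (by omega)
  obtain ⟨O, o1, o2⟩ := exists_sub_edges (G := H1 ⊔ H2) (c := n) (by
    simp only [dg_sup dj, sum_add_distrib]; omega)
  refine ⟨c, O, ⟨o1.trans (sup_le (c1.trans a1.le) (d1.trans b1.le)), fun u v k => ?_⟩,
    fun v => (dg_mono o1 v univ).trans ?_, o2⟩
  · exact (o1 k).elim (fun a => (a1.mono c1 subset_union_left).ends u v a)
      fun a => (b1.mono d1 subset_union_right).ends u v a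
  · rw [dg_sup dj]
    by_cases k : v ∈ ZA
    · rw [(a1.mono c1 Subset.rfl).zero (hZ k) fun a => (h.na k).1 (mem_cls.1 a).1, zero_add]
      exact d2 v
    · have := (dg_mono d1 v univ).trans (b5 v k)
      have := c2 v
      omega

end Ctx

end Bj

open Bj Bj.Ctx in
theorem bj_of (hP : PartStmt) (hC : CapStmt) : BjStmt := by
  refine ⟨1000000, fun V _ _ G R A B ZA ZB Δ J g pad com bip za zb dz a3 b3 y1 y2 nrm hle hz j1 j2
    g0 gΔ big => ?_⟩
  have h : Ctx G R A B ZA ZB Δ J g := ⟨pad, com, bip, za, zb, dz, a3, b3, nrm, j1, j2, g0, by omega⟩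
  obtain ⟨f, H, hf, hH, eA⟩ := h.part hP big
  obtain ⟨δ, hδ⟩ := Nat.exists_eq_add_of_le hle
  have cS := h.card_S
  have cZ := h.card_Z
  have z1 := card_le_card (subset_union_left (s₁ := ZA) (s₂ := ZB))
  have dδ : δ ≤ 3 * g := by
    have := h.cards
    have := card_union_le A ZA
    have := card_le_card (subset_union_left (s₁ := B) (s₂ := ZB))
    omega
  have id := h.ident
  have ou : out G (A ∪ B ∪ (ZA ∪ ZB)) = _ := h.sum_S _
  have mJ : J * (A ∪ ZA).card = J * (B ∪ ZB).card + J * δ := by rw [hδ, mul_add]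
  have mΔ : Δ * (A ∪ ZA).card = Δ * (B ∪ ZB).card + Δ * δ := by rw [hδ, mul_add]
  have mJΔ : 1000 * (J * δ) ≤ Δ * δ := by rw [← mul_assoc]; exact Nat.mul_le_mul_right _ j1
  -- `J` edges from the first half
  have pA : 2 * J ≤ ∑ v ∈ A ∪ ZA, dg G v (A ∪ B ∪ (ZA ∪ ZB))ᶜ → ∃ (σ : V → Bool) (a : Bool)
      (O : SimpleGraph V), Ev G R A B g σ ∧ (∀ v, v ∉ A ∪ B ∪ (ZA ∪ ZB) → σ v = false) ∧
      (∀ v ∈ A ∪ ZA, σ v = (f v == a)) ∧
      Og G O (A ∪ B ∪ (ZA ∪ ZB)) (cls (A ∪ B ∪ (ZA ∪ ZB)) σ true) ∧ ∑ v, dg O v univ = 2 * J ∧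
      ∑ v ∈ A ∪ ZA, dg O v univ = J ∧ ∑ v ∈ B ∪ ZB, dg O v univ = 0 := fun k => by
    obtain ⟨c, hc⟩ := half_side (A ∪ ZA) f fun v => dg G v (A ∪ B ∪ (ZA ∪ ZB))ᶜ
    obtain ⟨σ, s1, s2, s3, s4, -⟩ := h.orient hf c c fun v => f v == c
    have s5 : ∀ v ∈ A ∪ ZA, σ v = (f v == c) := fun v hv => (mem_union.1 hv).elim (s3 v) (s4 v)
    obtain ⟨O, o1, o2⟩ := pick (S := A ∪ B ∪ (ZA ∪ ZB)) G ((cls_subset (A ∪ ZA) f c).trans sa)
      (c := J) (by omega)
    have o3 := h.ogA o1 (cls_subset _ _ _)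
    exact ⟨σ, c, O, s1, s2, s5, o1.mono le_rfl fun v hv => mem_cls.2 ⟨sa (mem_cls.1 hv).1, by
      simp [s5 v (mem_cls.1 hv).1, (mem_cls.1 hv).2]⟩, o2, by omega, o3.2⟩
  -- `J` edges from the second half
  have pB : 2 * J ≤ ∑ v ∈ B ∪ ZB, dg G v (A ∪ B ∪ (ZA ∪ ZB))ᶜ → δ % 2 = 1 → ∀ I : SimpleGraph V,
      Ig G I (A ∪ ZA) f → (∀ v, dg I v univ ≤ J) → ∑ v, dg I v univ = J * δ + J →
      ∃ (σ : V → Bool) (GJ : SimpleGraph V),
        BSel G R (A ∪ B) (ZA ∪ ZB) Δ J g (fun v => decide (v ∈ A ∪ ZA)) σ GJ := by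
    intro k hp I i1 i2 i3
    obtain ⟨c, hc⟩ := half_side (B ∪ ZB) f fun v => dg G v (A ∪ B ∪ (ZA ∪ ZB))ᶜ
    obtain ⟨σ, s1, s2, s3, s4, s6⟩ := h.orient hf c c fun v => f v == c
    have s5 : ∀ v ∈ A ∪ ZA, σ v = (f v == c) := fun v hv => (mem_union.1 hv).elim (s3 v) (s4 v)
    obtain ⟨O, o1, o2⟩ := pick (S := A ∪ B ∪ (ZA ∪ ZB)) G ((cls_subset (B ∪ ZB) f c).trans sb)
      (c := J) (by omega)
    have o3 := h.ogB o1 (cls_subset _ _ _)
    have o4 := sum_eq_zero o3.2
    refine h.fin s1 s2 (o1.mono le_rfl fun v hv => mem_cls.2 ⟨sb (mem_cls.1 hv).1, by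
      simp [s6 v (mem_cls.1 hv).1, (mem_cls.1 hv).2]⟩) (i1.orient s5) (fun v => ?_) (ν := 1)
      (by omega) (by omega) (by omega) (by omega) (by omega) (Or.inl le_rfl)
    by_cases a : v ∈ A ∪ ZA
    · rw [o3.2 v a, zero_add]; exact i2 v
    · have := two_dg_le O v
      rw [i1.zero a]; omega
  obtain ⟨σ0, t1, t2, t3, t4, -⟩ := h.orient hf true true fun v => f v == true
  have t5 : ∀ v ∈ A ∪ ZA, σ0 v = (f v == true) := fun v hv => (mem_union.1 hv).elim (t3 v) (t4 v)
  rcases Nat.lt_trichotomy δ 1 with e | e | e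
  · obtain rfl : δ = 0 := by omega
    exact h.fin t1 t2 Og.bot Ig.bot (fun v => by simp [dg_bot]) (ν := 0) (by omega) (by omega)
      (by simp [dg_bot]) (by simp [dg_bot, hδ]) (by simp [dg_bot]) (Or.inl zero_le_one)
  · subst e
    by_cases k : 2 * J ≤ ∑ v ∈ A ∪ ZA, dg G v (A ∪ B ∪ (ZA ∪ ZB))ᶜ
    · obtain ⟨σ, a, O, s1, s2, -, o1, o2, o3, o4⟩ := pA k
      refine h.fin s1 s2 o1 Ig.bot (fun v => ?_) (ν := 1) (by omega) (by omega) (by omega)
        (by simp only [dg_bot, sum_const_zero]; omega) (by omega) (Or.inl le_rfl)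
      have := two_dg_le O v
      rw [dg_bot]; omega
    · have a1 := nrm.h1 (by omega)
      obtain ⟨I, i1, i2⟩ := exists_sub_edges (G := H) (c := J) (by omega)
      refine pB (by omega) rfl I (hH.mono i1) (fun v => ?_) (by omega)
      have := two_dg_le I v
      omega
  have m2 : Δ * 2 ≤ Δ * δ := Nat.mul_le_mul_left _ e
  have m3 : J * 2 ≤ J * δ := Nat.mul_le_mul_left _ e
  by_cases k : 9 * (Δ * δ) ≤ 10 * ∑ v ∈ A ∪ ZA, dg G v (A ∪ B ∪ (ZA ∪ ZB))ᶜ
  · obtain ⟨c, O, o1, o2, o3⟩ := h.many hC hf y1 y2 (n := J * δ) (by omega)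
    obtain ⟨σ, s1, s2, s3, s4, -⟩ := h.orient hf c c fun _ => true
    have o4 : cls A f c ∪ ZA ⊆ A ∪ ZA := union_subset_union_left (cls_subset _ _ _)
    have o5 := h.ogA o1 o4
    refine h.fin s1 s2 (o1.mono le_rfl fun v hv => mem_cls.2 ⟨sa (o4 hv), ?_⟩) Ig.bot
      (fun v => by rw [dg_bot]; exact o2 v) dδ (by omega) (by omega)
      (by simp only [dg_bot, sum_const_zero]; omega) o3 (Or.inr (by omega))
    rcases mem_union.1 hv with a | a
    · simp [s3 v (mem_cls.1 a).1, (mem_cls.1 a).2]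
    · exact s4 v a
  have hd : ∀ v, dg H v univ ≤ 4 * J := fun v => by
    by_cases a : v ∈ A ∪ ZA
    · have a1 : dg H v univ ≤ dg G v (A ∪ ZA) :=
        dg_le_of fun u _ b => ⟨(hH.ends u v b.symm).1, hH.le b⟩
      rcases mem_union.1 a with b | b
      · have := h.small b (W := A ∪ ZA)
          (disjoint_left.2 fun u x y => h.dis y (mem_union_left _ x))
        omega
      · have := hz (by omega) v b
        have := dg_union_le (G := G) v A ZA
        have := dg_le_card (G := G) v ZA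
        omega
    · rw [hH.zero a]; omega
  obtain ⟨x, -⟩ := bip.n1
  obtain ⟨q, hq | hq⟩ := Nat.even_or_odd' δ
  · have mq : J * δ = 2 * (J * q) := by rw [hq]; ring
    obtain ⟨I, i1, -, i2, i3⟩ := inner hC hH hd (by omega) x (c := J * q) (by omega)
    refine h.fin t1 t2 Og.bot (i1.orient t5) (fun v => ?_) (ν := 0) (by omega) (by omega)
      (by simp [dg_bot]) (by simp only [dg_bot, sum_const_zero]; omega) (by simp [dg_bot])
      (Or.inl zero_le_one)
    have := i2 v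
    rw [dg_bot]; omega
  have mq : J * δ = 2 * (J * q) + J := by rw [hq]; ring
  by_cases k' : 2 * J ≤ ∑ v ∈ B ∪ ZB, dg G v (A ∪ B ∪ (ZA ∪ ZB))ᶜ
  · obtain ⟨I, i1, -, i2, i3⟩ := inner hC hH hd (by omega) x (c := J * q + J) (by omega)
    exact pB k' (by omega) I i1 (fun v => by have := i2 v; omega) (by omega)
  have a1 := nrm.h1 (by omega)
  obtain ⟨σ, a, O, s1, s2, s3, o1, o2, o3, o4⟩ := pA (by omega)
  obtain ⟨z, z2⟩ : ∃ z, ∀ v ∈ A ∪ ZA, v ≠ z → 2 * dg O v univ ≤ J := by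
    by_cases b : ∃ z ∈ A ∪ ZA, J < 2 * dg O z univ
    · obtain ⟨z, b1, b2⟩ := b
      refine ⟨z, fun v hv c => ?_⟩
      have := sum_le_sum_of_subset (f := fun v => dg O v univ)
        (show {v, z} ⊆ A ∪ ZA from insert_subset hv (singleton_subset_iff.2 b1))
      rw [sum_pair c] at this
      omega
    · exact ⟨x, fun v hv _ => not_lt.1 fun c => b ⟨v, hv, c⟩⟩
  obtain ⟨I, i1, i4, i2, i3⟩ := inner hC hH hd (by omega) z (c := J * q) (by omega)
  refine h.fin s1 s2 o1 (i1.orient s3) (fun v => ?_) (ν := 1) (by omega) (by omega) (by omega)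
    (by omega) (by omega) (Or.inl le_rfl)
  have b1 := two_dg_le O v
  have b2 := i2 v
  by_cases b : v ∈ A ∪ ZA
  · by_cases c : v = z
    · rw [c] at b1 ⊢; omega
    · have := z2 v b c
      omega
  · rw [i1.zero b]; omega

end Pool.Agent.MP_5c8b6d_co

end

end MrgPart1

-- ======== part 2: formerly Pool.Agent.MP_5c8b6d_co.Top
section MrgPart2

/-! Assembly of all modules. -/

namespace Pool.Agent.MP_5c8b6d_co

theorem viz : VizStmt := viz_of (val_of kempe)

theorem ovf : OvfStmt :=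
  have hK := kon_of kempe
  have hE := eq_of kempe
  have hW := weq_of kempe
  have hG := plg_of plb
  have hF := fin_kon hK
  have hA := fixa_of iter
  have hB := bip_of hK hE perm hA orb
  have hN := enga_of pre plb
  have hEng := eng_of hN (fix_of viz hE perm hA orm) hB
  have hP := par_of (ff_of hK hE) hW
  have hS := sch_of hP hG
  have hX := fixb_of plb
  ovf_of (val_of kempe) viz
    (dense_of viz hE hK part mix (dfix_of viz hE iter ord) dhall)
    (sparse_of part mix nrm hS hF hEng)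
    (two_of twr (tw1_of nrm twj (tri1_of hP part hG hW hX)) (tw2_of twj (tri2_of hG err hX))
      (twf_of part hF (engc_of hEng)))
    (bipc_of (bsel_of nrm (bj_of part (cap_of hK))) hS (balw_of kempe) hF (beng_b hN hB))
    pad sta stb

end Pool.Agent.MP_5c8b6d_co

end MrgPart2

-- marker of a merged file
example : 731051 + 802978 = 731051 + 802978 := rfl
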